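import Pool.Agent.H946.Z.Stm
set_option autoImplicit false

/-!
# MP_d9449f_ag : basic lemmas
-/

namespace Pool.Agent.H946.Z

open PowerSeries

theorem lower_fst {π : Finset Box} (h : IsLowerSet (π : Set Box)) {i j l : ℕ}
    (hb : (i, j, l) ∈ π) : i < π.card ∧ j < π.card ∧ l < π.card := by
  classical
  refine ⟨?_, ?_, ?_⟩
  · have hs : (Finset.range (i + 1)).image (fun t => ((t, j, l) : Box)) ⊆ π := by
      intro b hb'
      simp only [Finset.mem_image, Finset.mem_range] at hb'
      obtain ⟨t, ht, rfl⟩ := hb'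
      exact h (show ((t, j, l) : Box) ≤ (i, j, l) from ⟨by simp; omega, le_rfl⟩) hb
    have h1 := Finset.card_le_card hs
    rw [Finset.card_image_of_injective _ (by intro a b hab; simpa using hab),
      Finset.card_range] at h1
    omega
  · have hs : (Finset.range (j + 1)).image (fun t => ((i, t, l) : Box)) ⊆ π := by
      intro b hb'
      simp only [Finset.mem_image, Finset.mem_range] at hb'
      obtain ⟨t, ht, rfl⟩ := hb'
      exact h (show ((i, t, l) : Box) ≤ (i, j, l) from ⟨le_rfl, by simp; omega, le_rfl⟩) hb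
    have h1 := Finset.card_le_card hs
    rw [Finset.card_image_of_injective _ (by intro a b hab; simpa using hab),
      Finset.card_range] at h1
    omega
  · have hs : (Finset.range (l + 1)).image (fun t => ((i, j, t) : Box)) ⊆ π := by
      intro b hb'
      simp only [Finset.mem_image, Finset.mem_range] at hb'
      obtain ⟨t, ht, rfl⟩ := hb'
      exact h (show ((i, j, t) : Box) ≤ (i, j, l) from ⟨le_rfl, le_rfl, by simp; omega⟩) hb
    have h1 := Finset.card_le_card hs
    rw [Finset.card_image_of_injective _ (by intro a b hab; simpa using hab),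
      Finset.card_range] at h1
    omega

/-- membership in `PP n`. -/
theorem mem_PP {n : ℕ} {π : Finset Box} :
    π ∈ PP n ↔ IsLowerSet (π : Set Box) ∧ π.card = n := by
  classical
  unfold PP
  rw [Finset.mem_filter, Finset.mem_powerset]
  refine ⟨fun h => h.2, fun h => ⟨?_, h⟩⟩
  rintro ⟨i, j, l⟩ hb
  have := lower_fst h.1 hb
  rw [h.2] at this
  simp only [Finset.mem_product, Finset.mem_range]
  exact this

/-- explicit form of the lower set property. -/
theorem PP_down {n : ℕ} {π : Finset Box} (h : π ∈ PP n) {i j l i' j' l' : ℕ}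
    (hb : (i, j, l) ∈ π) (hi : i' ≤ i) (hj : j' ≤ j) (hl : l' ≤ l) : (i', j', l') ∈ π :=
  (mem_PP.1 h).1 (show ((i', j', l') : Box) ≤ (i, j, l) from ⟨hi, hj, hl⟩) hb

theorem PP_card {n : ℕ} {π : Finset Box} (h : π ∈ PP n) : π.card = n := (mem_PP.1 h).2

theorem PP_lt {n : ℕ} {π : Finset Box} (h : π ∈ PP n) {i j l : ℕ} (hb : (i, j, l) ∈ π) :
    i < n ∧ j < n ∧ l < n := by
  have := lower_fst (mem_PP.1 h).1 hb
  rwa [PP_card h] at this

theorem PP_zero : PP 0 = {∅} := by
  ext π
  rw [mem_PP, Finset.mem_singleton, Finset.card_eq_zero]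
  constructor
  · exact fun h => h.2
  · rintro rfl
    exact ⟨by simp [IsLowerSet], rfl⟩

section
variable {R : Type*} [CommRing R]

theorem coeff_gen (f : Finset Box → R) (n : ℕ) :
    PowerSeries.coeff n (gen f) = ∑ π ∈ PP n, f π := by
  unfold gen
  rw [PowerSeries.coeff_mk]

theorem constantCoeff_gen (f : Finset Box → R) :
    PowerSeries.constantCoeff (gen f) = f ∅ := by
  rw [← PowerSeries.coeff_zero_eq_constantCoeff_apply, coeff_gen, PP_zero, Finset.sum_singleton]

theorem gen_add (f g : Finset Box → R) : gen (fun π => f π + g π) = gen f + gen g := by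
  ext n; simp [coeff_gen, Finset.sum_add_distrib]

theorem gen_sub (f g : Finset Box → R) : gen (fun π => f π - g π) = gen f - gen g := by
  ext n; simp [coeff_gen, Finset.sum_sub_distrib]

theorem gen_smul (c : R) (f : Finset Box → R) : gen (fun π => c * f π) = c • gen f := by
  ext n; simp [coeff_gen, Finset.mul_sum]

theorem gen_C_mul (c : R) (f : Finset Box → R) :
    gen (fun π => c * f π) = PowerSeries.C c * gen f := by
  ext n; simp [coeff_gen, Finset.mul_sum]

theorem uu_mul (k : ℕ) (hk : 1 ≤ k) : (1 - X ^ k) * uu R k = 1 := by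
  have hcoeff : ∀ n, PowerSeries.coeff n (uu R k) = if k ∣ n then (1 : R) else 0 := fun n => by
    unfold uu; rw [PowerSeries.coeff_mk]
  ext n
  rw [sub_mul, one_mul, map_sub, PowerSeries.coeff_X_pow_mul', hcoeff, PowerSeries.coeff_one]
  by_cases hkn : k ≤ n
  · rw [if_pos hkn, hcoeff, if_neg (by omega : ¬ n = 0)]
    by_cases hd : k ∣ n
    · rw [if_pos hd, if_pos (Nat.dvd_sub hd dvd_rfl), sub_self]
    · rw [if_neg hd, if_neg, sub_self]
      intro h
      apply hd
      have h1 := dvd_add h (dvd_refl k)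
      rwa [Nat.sub_add_cancel hkn] at h1
  · rw [if_neg hkn, sub_zero]
    by_cases hn : n = 0
    · subst hn
      rw [if_pos (dvd_zero k), if_pos rfl]
    · rw [if_neg hn, if_neg]
      intro h
      exact hkn (Nat.le_of_dvd (Nat.pos_of_ne_zero hn) h)

theorem uu_eq_inv {K : Type*} [Field K] (k : ℕ) (hk : 1 ≤ k) : uu K k = (1 - X ^ k)⁻¹ := by
  have h : PowerSeries.constantCoeff (1 - X ^ k : K⟦X⟧) ≠ 0 := by
    have : k ≠ 0 := by omega
    simp [this]
  rw [PowerSeries.eq_inv_iff_mul_eq_one h, mul_comm]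
  exact uu_mul k hk

theorem coeff_psum (f : ℕ → R⟦X⟧) (hf : ∀ k, (X : R⟦X⟧) ^ k ∣ f k) (n m : ℕ) (h : n < m) :
    PowerSeries.coeff n (psum f) = PowerSeries.coeff n (∑ k ∈ Finset.range m, f k) := by
  unfold psum
  rw [PowerSeries.coeff_mk, map_sum, map_sum]
  apply Finset.sum_subset
  · intro k hk
    simp only [Finset.mem_range] at hk ⊢
    omega
  · intro k _ hk
    simp only [Finset.mem_range, not_lt] at hk
    exact (PowerSeries.X_pow_dvd_iff.1 (hf k)) n (by omega)

theorem X_pow_dvd_of_coeff {f : R⟦X⟧} {n : ℕ} (h : ∀ m, m < n → PowerSeries.coeff m f = 0) :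
    (X : R⟦X⟧) ^ n ∣ f := PowerSeries.X_pow_dvd_iff.2 h

end

end Pool.Agent.H946.Z
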