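import Pool.Agent.H946.Z.Basic
set_option autoImplicit false

/-!
# MP_d9449f_ag : the ratio identity for one diagonal slice
-/

namespace Pool.Agent.H946.Z

open PowerSeries

noncomputable section

namespace A3

/-- elements of `upSet` are antitone. -/
theorem anti_of_mem {T N : ℕ} {lam μ : Fin N → ℕ} (hl : Antitone lam) (hμ : μ ∈ upSet T lam) :
    Antitone μ := by
  intro i j hij
  rcases eq_or_lt_of_le hij with h | h
  · rw [h]
  unfold upSet at hμ
  rw [Fintype.mem_piFinset] at hμ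
  have h1 := Finset.mem_Icc.1 (hμ i)
  have h2 := Finset.mem_Icc.1 (hμ j)
  have h3 : (i : ℕ) < j := h
  have h4 : ¬ (j : ℕ) = 0 := by omega
  rw [dif_neg h4] at h2
  refine h2.2.trans (le_trans (hl ?_) h1.1)
  rw [Fin.le_iff_val_le_val]
  simp only
  omega

section

variable {K : Type} [Field K]

/-- propagation of the determinantal formula along the slices. -/
theorem prop (hs : S_scale) (hK : S_K) {N T : ℕ} (x : ℕ → K⟦X⟧) (hx : ∀ e, (X : K⟦X⟧) ∣ x e)
    {ι : Type} [Fintype ι] (v : ℕ → ι → Fin N → K⟦X⟧)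
    (hv : ∀ e i, v (e + 1) i = fun k => x e * v e i k) (w : ι → K⟦X⟧) (c : K⟦X⟧)
    (ψ : ℕ → (Fin N → ℕ) → K⟦X⟧) (d : ℕ)
    (hψ : ∀ e, d ≤ e → ∀ lam, ψ (e + 1) lam = ∑ μ ∈ upSet T lam, x e ^ (∑ j, μ j) * ψ e μ)
    (h0 : ∀ lam, Antitone lam → (X : K⟦X⟧) ^ T ∣ c * ψ d lam - ∑ i, w i * Dt (v d i) lam) :
    ∀ n, ∀ lam, Antitone lam → (X : K⟦X⟧) ^ T ∣
      c * (∏ e ∈ Finset.range n, x (d + e)) ^ (N * (N - 1) / 2) * ψ (d + n) lam -
        ∑ i, w i * (∏ e ∈ Finset.range n, ∏ k, (1 - v (d + e + 1) i k)⁻¹) *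
          Dt (v (d + n) i) lam := by
  intro n
  induction n with
  | zero =>
    intro lam hl
    simpa using h0 lam hl
  | succ n ih =>
    intro lam hl
    set M := N * (N - 1) / 2 with hM
    set Z := ∏ e ∈ Finset.range n, x (d + e) with hZ
    set W : ι → K⟦X⟧ := fun i => w i * (∏ e ∈ Finset.range n, ∏ k, (1 - v (d + e + 1) i k)⁻¹)
      with hW
    have h1 : c * (∏ e ∈ Finset.range (n + 1), x (d + e)) ^ M * ψ (d + (n + 1)) lam =
        ∑ μ ∈ upSet T lam, x (d + n) ^ ((∑ j, μ j) + M) * (c * Z ^ M * ψ (d + n) μ) := by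
      rw [← Nat.add_assoc, hψ (d + n) (Nat.le_add_right _ _), Finset.prod_range_succ, ← hZ,
        mul_pow, Finset.mul_sum]
      refine Finset.sum_congr rfl fun μ _ => ?_
      rw [pow_add]
      ring
    have h2 : ∀ i, ∑ μ ∈ upSet T lam, x (d + n) ^ ((∑ j, μ j) + M) * (W i * Dt (v (d + n) i) μ) =
        W i * ∑ μ ∈ upSet T lam, Dt (v (d + n + 1) i) μ := by
      intro i
      rw [Finset.mul_sum]
      refine Finset.sum_congr rfl fun μ _ => ?_
      rw [hv (d + n) i, hs K⟦X⟧ N (x (d + n)) (v (d + n) i) μ]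
      ring
    have hXv : ∀ i k, (X : K⟦X⟧) ∣ v (d + n + 1) i k := by
      intro i k
      rw [hv (d + n) i]
      exact Dvd.dvd.mul_right (hx _) _
    have hinv : ∀ i, (∏ k, (1 - v (d + n + 1) i k)⁻¹) * (∏ k, (1 - v (d + n + 1) i k)) = 1 := by
      intro i
      rw [← Finset.prod_mul_distrib]
      refine Finset.prod_eq_one fun k _ => ?_
      rw [mul_comm]
      refine PowerSeries.mul_inv_cancel _ ?_
      have h3 := X_dvd_iff.1 (hXv i k)
      rw [map_sub, h3]
      simp
    have h3 : ∀ i, (X : K⟦X⟧) ^ T ∣ W i * (∑ μ ∈ upSet T lam, Dt (v (d + n + 1) i) μ) -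
        W i * (∏ k, (1 - v (d + n + 1) i k)⁻¹) * Dt (v (d + n + 1) i) lam := by
      intro i
      have h4 := hK K N T (v (d + n + 1) i) lam hl (hXv i)
      have h5 : W i * (∑ μ ∈ upSet T lam, Dt (v (d + n + 1) i) μ) -
          W i * (∏ k, (1 - v (d + n + 1) i k)⁻¹) * Dt (v (d + n + 1) i) lam =
          W i * (∏ k, (1 - v (d + n + 1) i k)⁻¹) *
          ((∏ k, (1 - v (d + n + 1) i k)) * (∑ μ ∈ upSet T lam, Dt (v (d + n + 1) i) μ) -
            Dt (v (d + n + 1) i) lam) := by
        linear_combination (-(W i * (∑ μ ∈ upSet T lam, Dt (v (d + n + 1) i) μ))) * hinv i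
      rw [h5]
      exact Dvd.dvd.mul_left h4 _
    have h6 : c * (∏ e ∈ Finset.range (n + 1), x (d + e)) ^ M * ψ (d + (n + 1)) lam -
        ∑ i, w i * (∏ e ∈ Finset.range (n + 1), ∏ k, (1 - v (d + e + 1) i k)⁻¹) *
          Dt (v (d + (n + 1)) i) lam =
        ∑ μ ∈ upSet T lam, x (d + n) ^ ((∑ j, μ j) + M) *
          (c * Z ^ M * ψ (d + n) μ - ∑ i, W i * Dt (v (d + n) i) μ) +
        ∑ i, (W i * (∑ μ ∈ upSet T lam, Dt (v (d + n + 1) i) μ) -
        W i * (∏ k, (1 - v (d + n + 1) i k)⁻¹) * Dt (v (d + n + 1) i) lam) := by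
      rw [h1, Finset.sum_sub_distrib]
      simp only [mul_sub, Finset.sum_sub_distrib, Finset.mul_sum]
      rw [Finset.sum_comm (s := upSet T lam)]
      simp only [h2, Finset.mul_sum]
      have h7 : ∀ i, w i * (∏ e ∈ Finset.range (n + 1), ∏ k, (1 - v (d + e + 1) i k)⁻¹) *
          Dt (v (d + (n + 1)) i) lam =
          W i * (∏ k, (1 - v (d + n + 1) i k)⁻¹) * Dt (v (d + n + 1) i) lam := by
        intro i
        rw [Finset.prod_range_succ, hW]
        simp only [Nat.add_assoc]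
        ring
      simp only [h7]
      ring
    rw [h6]
    refine dvd_add (Finset.dvd_sum fun μ hμ => Dvd.dvd.mul_left ?_ _)
      (Finset.dvd_sum fun i _ => h3 i)
    exact ih μ (anti_of_mem hl hμ)

/-- `kap` is nonzero. -/
theorem kap_ne : ∀ (k : ℕ) (x : ℕ → K⟦X⟧), (∀ i, (X : K⟦X⟧) ∣ x i) → (∀ i, x i ≠ 0) →
    kap k x ≠ 0 := by
  intro k
  induction k with
  | zero =>
    intro x _ _
    simp [kap]
  | succ k ih =>
    intro x hx hx0
    rw [kap]
    refine mul_ne_zero (mul_ne_zero ?_ (pow_ne_zero _ (hx0 0))) (ih _ (fun i => hx _) fun i => hx0 _)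
    refine Finset.prod_ne_zero_iff.2 fun i _ => ?_
    intro h
    have h1 : (X : K⟦X⟧) ∣ x 0 * bv k (fun i => x (i + 1)) i := Dvd.dvd.mul_right (hx 0) _
    have h2 := X_dvd_iff.1 h1
    have h3 := congrArg PowerSeries.constantCoeff h
    rw [map_sub, h2] at h3
    simp at h3

/-- the vector `bv`. -/
theorem bv_eq : ∀ (k : ℕ) (x : ℕ → K⟦X⟧) (i : Fin k),
    bv k x i = ∏ j ∈ Finset.range (k - 1 - i), x j := by
  intro k
  induction k with
  | zero => intro x i; exact i.elim0
  | succ k ih =>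
    intro x i
    rw [bv]
    refine Fin.lastCases ?_ (fun i => ?_) i
    · simp
    · rw [Fin.snoc_castSucc, ih]
      have h1 : k + 1 - 1 - ((Fin.castSucc i : Fin (k + 1)) : ℕ) = (k - 1 - i) + 1 := by
        have := i.2
        simp
        omega
      rw [h1, Finset.prod_range_succ']
      ring

theorem aa_zero (y : ℤ → K) (n : ℕ) :
    aa y 0 n = ∏ j ∈ Finset.range n, (PowerSeries.C (y (-(j : ℤ) - 1)) * X) := by
  unfold aa
  symm
  refine Finset.prod_bij (fun j _ => -(j : ℤ) - 1) ?_ ?_ ?_ ?_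
  · intro j hj
    simp only [Finset.mem_range] at hj
    simp only [Finset.mem_Ico]
    constructor
    · omega
    · simp; omega
  · intro a _ b _ h
    have h' : -(a : ℤ) - 1 = -(b : ℤ) - 1 := h
    omega
  · intro e he
    simp only [Finset.mem_Ico] at he
    refine ⟨(-e - 1).toNat, ?_, ?_⟩
    · simp only [Finset.mem_range]
      simp at he
      omega
    · simp at he
      omega
  · intro j _
    rfl

theorem aa_succ (y : ℤ → K) (d n : ℕ) :
    aa y (d + 1) n = (PowerSeries.C (y (d : ℤ)) * X) * aa y d n := by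
  unfold aa
  have h1 : Finset.Ico (-(n : ℤ)) (((d + 1 : ℕ) : ℤ)) = insert (d : ℤ) (Finset.Ico (-(n : ℤ)) d) := by
    ext e
    simp only [Finset.mem_Ico, Finset.mem_insert]
    push_cast
    omega
  rw [h1, Finset.prod_insert (by simp)]

theorem aa_add (y : ℤ → K) (d n j : ℕ) :
    aa y (d + j + 1) n = aa y d n * bb y d j := by
  unfold aa bb
  have h1 : Finset.Ico (-(n : ℤ)) (((d + j + 1 : ℕ) : ℤ)) =
      Finset.Ico (-(n : ℤ)) d ∪ (Finset.Icc (d : ℤ) (d + j)) := by
    ext e
    simp only [Finset.mem_Ico, Finset.mem_union, Finset.mem_Icc]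
    push_cast
    omega
  rw [h1, Finset.prod_union]
  rw [Finset.disjoint_left]
  intro e
  simp only [Finset.mem_Ico, Finset.mem_Icc]
  omega

theorem aa_mul (y : ℤ → K) (d m n : ℕ) :
    aa y (d + m) n = (∏ e ∈ Finset.range m, (PowerSeries.C (y ((d + e : ℕ) : ℤ)) * X)) * aa y d n := by
  induction m with
  | zero => simp
  | succ m ih =>
    rw [← Nat.add_assoc, aa_succ, ih, Finset.prod_range_succ]
    ring

/-- equality from congruences. -/
theorem eq_of_forall {F G : K⟦X⟧} (h : ∀ T, (X : K⟦X⟧) ^ T ∣ F - G) : F = G := by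
  ext n
  have h1 := PowerSeries.X_pow_dvd_iff.1 (h (n + 1)) n (Nat.lt_succ_self n)
  rw [map_sub] at h1
  exact sub_eq_zero.1 h1

/-- `chainF` does not depend on `g` before the slice `d`. -/
theorem chain_indep {S : Type} [CommRing S] (T N : ℕ) (x : ℤ → S) (g g' : (Fin N → ℕ) → S)
    (d : ℕ) : ∀ e, e ≤ d → ∀ lam, chainF T N x g d e lam = chainF T N x g' d e lam := by
  intro e
  induction e with
  | zero => intro _ lam; rfl
  | succ e ih =>
    intro he lam
    rw [chainF, chainF]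
    refine Finset.sum_congr rfl fun μ _ => ?_
    rw [if_neg (by omega : ¬ e = d), if_neg (by omega : ¬ e = d), ih (by omega)]

end

end A3

theorem A3 (hE : S_E) (hs : S_scale) (hK : S_K) (hGT : S_GT) (hb : S_bridge) : S_A3 := by
  intro K _ u y hy d N L hdL
  classical
  set x : ℤ → K⟦X⟧ := fun e => PowerSeries.C (y e) * X with hxdef
  have hXx : ∀ e, (X : K⟦X⟧) ∣ x e := fun e => Dvd.intro_left _ rfl
  have hx0 : ∀ e, x e ≠ 0 := fun e => mul_ne_zero
    (by rw [Ne, ← map_zero PowerSeries.C, PowerSeries.C_injective.eq_iff]; exact hy e) PowerSeries.X_ne_zero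
  set M := N * (N - 1) / 2 with hM
  set κ : K⟦X⟧ := kap N (fun i : ℕ => x (-(i : ℤ) - 1)) with hκ
  have hκ0 : κ ≠ 0 := A3.kap_ne N _ (fun i => hXx _) fun i => hx0 _
  -- the vectors
  set a : ℕ → Fin N → K⟦X⟧ := fun e i => aa y e (N - 1 - i) with ha
  have ha0 : bv N (fun i : ℕ => x (-(i : ℤ) - 1)) = a 0 := by
    funext i
    rw [A3.bv_eq, ha]
    simp only
    rw [A3.aa_zero]
  have hav : ∀ e, a (e + 1) = fun k => x (e : ℤ) * a e k := by
    intro e
    funext k
    exact A3.aa_succ y e _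
  -- the vectors with one variable multiplied by `u`
  set au : ℕ → Fin N → Fin N → K⟦X⟧ := fun e i => Function.update (a e) i (PowerSeries.C u * a e i)
    with hau
  have hauv : ∀ e i, au (e + 1) i = fun k => x (e : ℤ) * au e i k := by
    intro e i
    funext k
    by_cases hk : k = i
    · subst hk
      simp only [hau, Function.update_self, hav e]
      ring
    · simp only [hau, Function.update_of_ne hk, hav e]
  set g : (Fin N → ℕ) → K := fun μ => ∑ j : Fin N, u ^ (μ j + (N - 1 - (j : ℕ))) with hg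
  set Z : ℕ → K⟦X⟧ := fun n => ∏ e ∈ Finset.range n, x ((0 + e : ℕ) : ℤ) with hZ
  set R : ℕ → K⟦X⟧ := fun n => ∏ e ∈ Finset.range n, ∏ k, (1 - a (0 + e + 1) k)⁻¹ with hR
  -- step 1, for the constant function
  have step1 : ∀ T (g' : (Fin N → ℕ) → K⟦X⟧) (d' : ℕ), (∀ μ, g' μ = 1) → ∀ n lam, Antitone lam →
      (X : K⟦X⟧) ^ T ∣ κ * Z n ^ M * chainF T N x g' d' n lam - R n * Dt (a n) lam := by
    intro T g' d' hg' n lam hl
    have h1 := A3.prop hs hK (T := T) (fun e : ℕ => x (e : ℤ)) (fun e => hXx _) (ι := Unit)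
      (fun e _ => a e) (fun e _ => hav e) (fun _ => 1) κ (fun e lam => chainF T N x g' d' e lam) 0
      (fun e _ lam => by
        rw [chainF]
        refine Finset.sum_congr rfl fun μ _ => ?_
        rw [hg' μ]
        simp)
      (fun lam hl => by
        simp only [Finset.univ_unique, Finset.sum_singleton, one_mul]
        have h2 := hGT K⟦X⟧ N (fun i : ℕ => x (-(i : ℤ) - 1)) lam hl
        rw [ha0] at h2
        rw [chainF, h2, hκ, sub_self]
        exact dvd_zero _) n lam hl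
    simpa [hZ, hR] using h1
  -- step 2
  set m := L - d with hm
  have hdm : d + m = L := by omega
  set Y : K⟦X⟧ := ∏ e ∈ Finset.range m, x ((d + e : ℕ) : ℤ) with hY
  have hZL : Z L = Z d * Y := by
    rw [hZ]
    simp only [Nat.zero_add]
    rw [← hdm, Finset.prod_range_add]
  set P : K⟦X⟧ := ∏ e ∈ Finset.range m, ∏ k, (1 - a (d + e + 1) k)⁻¹ with hP
  have hRL : R L = R d * P := by
    rw [hR]
    simp only [Nat.zero_add]
    rw [← hdm, Finset.prod_range_add]
  have step2 : ∀ T, (X : K⟦X⟧) ^ T ∣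
      κ * Z L ^ M * chainF T N x (fun μ => PowerSeries.C (g μ)) d L 0 -
        ∑ i, R d * (∏ e ∈ Finset.range m, ∏ k, (1 - au (d + e + 1) i k)⁻¹) * Dt (au L i) 0 := by
    intro T
    have h1 := A3.prop hs hK (T := T) (fun e : ℕ => x (e : ℤ)) (fun e => hXx _) (ι := Fin N)
      au hauv (fun _ => R d) (κ * Z d ^ M)
      (fun e lam => (if e = d then PowerSeries.C (g lam) else 1) *
        chainF T N x (fun μ => PowerSeries.C (g μ)) d e lam) d
      (fun e he lam => by
        have h2 : ¬ e + 1 = d := by omega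
        simp only [if_neg h2, one_mul]
        rw [chainF]
        refine Finset.sum_congr rfl fun μ _ => ?_
        ring)
      (fun lam hl => by
        simp only [if_true]
        have h2 := step1 T (fun _ => 1) d (fun _ => rfl) d lam hl
        rw [A3.chain_indep T N x (fun μ => PowerSeries.C (g μ)) (fun _ => 1) d d le_rfl lam]
        have h3 := hE K⟦X⟧ N (PowerSeries.C u) (a d) lam
        have h4 : (∑ j : Fin N, (PowerSeries.C u : K⟦X⟧) ^ (lam j + (N - 1 - (j : ℕ)))) =
            PowerSeries.C (g lam) := by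
          rw [hg, map_sum]
          simp
        rw [h4] at h3
        have h5 : κ * Z d ^ M * (PowerSeries.C (g lam) * chainF T N x (fun _ => 1) d d lam) -
            ∑ i, R d * Dt (au d i) lam =
            PowerSeries.C (g lam) * (κ * Z d ^ M * chainF T N x (fun _ => 1) d d lam -
              R d * Dt (a d) lam) := by
          rw [← Finset.mul_sum]
          rw [show ∑ i, Dt (au d i) lam = PowerSeries.C (g lam) * Dt (a d) lam from h3.symm]
          ring
        rw [h5]
        exact Dvd.dvd.mul_left h2 _)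
      m 0 (fun _ _ _ => le_rfl)
    have h6 : ¬ L = d := by omega
    simp only [hdm, if_neg h6, one_mul] at h1
    rw [← hM, ← hY] at h1
    rw [hZL, mul_pow, ← mul_assoc]
    exact h1
  -- the bridge
  have hbr : ∀ (g' : (Fin N → ℕ) → K) (T : ℕ), (X : K⟦X⟧) ^ T ∣
      chainF T N x (fun μ => PowerSeries.C (g' μ)) d L 0 - Fbox N L y g' d := by
    intro g' T
    refine X_pow_dvd_of_coeff fun n hn => ?_
    rw [map_sub, hb K T N L y g' d n hdL hn.le, sub_self]
  have hA : κ * Z L ^ M * Fbox N L y (fun _ => (1 : K)) d = R L * Dt (a L) 0 := by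
    refine A3.eq_of_forall fun T => ?_
    have h1 := step1 T (fun _ => PowerSeries.C (1 : K)) d (fun _ => map_one _) L 0
      (fun _ _ _ => le_rfl)
    have h2 := hbr (fun _ => (1 : K)) T
    have h3 : κ * Z L ^ M * Fbox N L y (fun _ => (1 : K)) d - R L * Dt (a L) 0 =
        (κ * Z L ^ M * chainF T N x (fun _ => PowerSeries.C (1 : K)) d L 0 - R L * Dt (a L) 0) -
        κ * Z L ^ M * (chainF T N x (fun _ => PowerSeries.C (1 : K)) d L 0 -
          Fbox N L y (fun _ => (1 : K)) d) := by ring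
    rw [h3]
    exact dvd_sub h1 (Dvd.dvd.mul_left h2 _)
  have hB : κ * Z L ^ M * Fbox N L y g d =
      ∑ i, R d * (∏ e ∈ Finset.range m, ∏ k, (1 - au (d + e + 1) i k)⁻¹) * Dt (au L i) 0 := by
    refine A3.eq_of_forall fun T => ?_
    have h1 := step2 T
    have h2 := hbr g T
    have h3 : κ * Z L ^ M * Fbox N L y g d -
          (∑ i, R d * (∏ e ∈ Finset.range m, ∏ k, (1 - au (d + e + 1) i k)⁻¹) * Dt (au L i) 0) =
        (κ * Z L ^ M * chainF T N x (fun μ => PowerSeries.C (g μ)) d L 0 -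
          ∑ i, R d * (∏ e ∈ Finset.range m, ∏ k, (1 - au (d + e + 1) i k)⁻¹) * Dt (au L i) 0) -
        κ * Z L ^ M * (chainF T N x (fun μ => PowerSeries.C (g μ)) d L 0 -
          Fbox N L y g d) := by ring
    rw [h3]
    exact dvd_sub h1 (Dvd.dvd.mul_left h2 _)
  -- scaling
  have haL : a L = fun k => Y * a d k := by
    funext k
    rw [ha]
    simp only
    rw [← hdm, A3.aa_mul]
  have hauL : ∀ i, au L i = fun k => Y * au d i k := by
    intro i
    funext k
    by_cases hk : k = i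
    · subst hk
      simp only [hau, Function.update_self, haL]
      ring
    · simp only [hau, Function.update_of_ne hk, haL]
  have hDL : Dt (a L) 0 = Y ^ M * Dt (a d) 0 := by
    rw [haL, hs K⟦X⟧ N Y (a d) 0]
    simp [hM]
  have hDuL : ∀ i, Dt (au L i) 0 = Y ^ M * Dt (au d i) 0 := by
    intro i
    rw [hauL, hs K⟦X⟧ N Y (au d i) 0]
    simp [hM]
  -- the ratio
  have hXa : ∀ e k, (X : K⟦X⟧) ∣ a (e + 1) k := by
    intro e k
    rw [hav]
    exact Dvd.dvd.mul_right (hXx _) _
  have hinv : ∀ z : K⟦X⟧, (X : K⟦X⟧) ∣ z → (1 - z)⁻¹ * (1 - z) = 1 := by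
    intro z hz
    rw [mul_comm]
    refine PowerSeries.mul_inv_cancel _ ?_
    rw [map_sub, X_dvd_iff.1 hz]
    simp
  have hPi : ∀ i, (∏ e ∈ Finset.range m, ∏ k, (1 - au (d + e + 1) i k)⁻¹) = P *
      ∏ j ∈ Finset.range m, ((1 - aa y d (N - 1 - i) * bb y d j) *
            (1 - PowerSeries.C u * aa y d (N - 1 - i) * bb y d j)⁻¹) := by
    intro i
    rw [hP, ← Finset.prod_mul_distrib]
    refine Finset.prod_congr rfl fun e _ => ?_
    rw [← Finset.mul_prod_erase Finset.univ _ (Finset.mem_univ i),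
      ← Finset.mul_prod_erase Finset.univ (fun k => (1 - a (d + e + 1) k)⁻¹) (Finset.mem_univ i)]
    have h1 : ∏ k ∈ Finset.univ.erase i, (1 - au (d + e + 1) i k)⁻¹ =
        ∏ k ∈ Finset.univ.erase i, (1 - a (d + e + 1) k)⁻¹ := by
      refine Finset.prod_congr rfl fun k hk => ?_
      rw [hau]
      simp only
      rw [Function.update_of_ne (Finset.ne_of_mem_erase hk)]
    have h2 : au (d + e + 1) i i = PowerSeries.C u * aa y d (N - 1 - i) * bb y d e := by
      rw [hau]
      simp only [Function.update_self, ha]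
      rw [A3.aa_add]
      ring
    have h3 : a (d + e + 1) i = aa y d (N - 1 - i) * bb y d e := by
      rw [ha]
      exact A3.aa_add y d _ e
    have h4 := hinv _ (hXa (d + e) i)
    rw [h3] at h4
    rw [h1, h2, h3]
    linear_combination (-((1 - PowerSeries.C u * aa y d (N - 1 - ↑i) * bb y d e)⁻¹ *
      ∏ k ∈ Finset.univ.erase i, (1 - a (d + e + 1) k)⁻¹)) * h4
  -- conclusion
  have hκ' : κ * Z L ^ M ≠ 0 := mul_ne_zero hκ0 (pow_ne_zero _
    (Finset.prod_ne_zero_iff.2 fun e _ => hx0 _))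
  refine mul_left_cancel₀ hκ' ?_
  have h7 : κ * Z L ^ M * (Dt (a d) 0 * Fbox N L y g d) =
      Dt (a d) 0 * (κ * Z L ^ M * Fbox N L y g d) := by ring
  have h8 : κ * Z L ^ M * (Fbox N L y (fun _ => (1 : K)) d *
        ∑ i : Fin N, Dt (au d i) 0 *
          ∏ j ∈ Finset.range m, ((1 - aa y d (N - 1 - i) * bb y d j) *
            (1 - PowerSeries.C u * aa y d (N - 1 - i) * bb y d j)⁻¹)) =
      (κ * Z L ^ M * Fbox N L y (fun _ => (1 : K)) d) *
        ∑ i : Fin N, Dt (au d i) 0 *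
          ∏ j ∈ Finset.range m, ((1 - aa y d (N - 1 - i) * bb y d j) *
            (1 - PowerSeries.C u * aa y d (N - 1 - i) * bb y d j)⁻¹) := by ring
  refine h7.trans (Eq.trans ?_ h8.symm)
  rw [hB, hA, hRL, hDL, Finset.mul_sum, Finset.mul_sum]
  refine Finset.sum_congr rfl fun i _ => ?_
  rw [hPi, hDuL]
  ring

end

end Pool.Agent.H946.Z
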