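import Pool.Agent.H946.Z.Basic
set_option autoImplicit false

/-!
# MP_d9449f_ag : Lagrange interpolation
-/

namespace Pool.Agent.H946.Z

namespace A4

open Finset

section field
variable {F : Type} [Field F] {N : ℕ}

/-- the Vandermonde matrix with reversed columns. -/
def A (a : Fin N → F) : Matrix (Fin N) (Fin N) F :=
  Matrix.of fun i j : Fin N => a i ^ (N - 1 - (j : ℕ))

theorem Dt_zero (a : Fin N → F) : Dt a 0 = (A a).det := by
  unfold Dt A
  simp

theorem Dt_update (a : Fin N → F) (i : Fin N) (x : F) :
    Dt (Function.update a i x) 0 =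
      ((A a).updateRow i (fun j : Fin N => x ^ (N - 1 - (j : ℕ)))).det := by
  rw [Dt_zero]
  congr 1
  ext p q
  by_cases h : p = i
  · subst h
    simp [A]
  · rw [Matrix.updateRow_ne h]
    simp [A, Function.update_of_ne h]

/-- `x ↦ Dt (update a i x) 0` as a polynomial. -/
noncomputable def pol (a : Fin N → F) (i : Fin N) : Polynomial F :=
  ∑ j : Fin N, ((A a).updateRow i (Pi.single j 1)).det • (Polynomial.X ^ (N - 1 - (j : ℕ)))

theorem eval_pol (a : Fin N → F) (i : Fin N) (x : F) :
    (pol a i).eval x = Dt (Function.update a i x) 0 := by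
  rw [Dt_update, Matrix.det_eq_sum_mul_adjugate_row _ i, pol, Polynomial.eval_finsetSum]
  apply Finset.sum_congr rfl
  intro j _
  rw [Matrix.adjugate_apply, Matrix.updateRow_idem, Matrix.updateRow_self,
    Polynomial.eval_smul, Polynomial.eval_pow, Polynomial.eval_X, smul_eq_mul, mul_comm]

theorem deg_pol (a : Fin N → F) (i : Fin N) : (pol a i).degree < N := by
  rw [← Polynomial.mem_degreeLT]
  unfold pol
  refine Submodule.sum_mem _ (fun j _ => Submodule.smul_mem _ _ ?_)
  rw [Polynomial.mem_degreeLT, Polynomial.degree_X_pow]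
  have := j.2
  exact_mod_cast (by omega : N - 1 - (j : ℕ) < N)

theorem V_upd (a : Fin N → F) (ha : Function.Injective a) (i : Fin N) (x : F) :
    Dt (Function.update a i x) 0 =
      Dt a 0 * ∏ k ∈ univ.erase i, ((a i - a k)⁻¹ * (x - a k)) := by
  have h : pol a i = (Dt a 0) • Lagrange.basis univ a i := by
    apply Polynomial.eq_of_degrees_lt_of_eval_index_eq (s := univ) (v := a) ha.injOn
    · simpa using deg_pol a i
    · rw [Finset.card_univ, Fintype.card_fin, ← Polynomial.mem_degreeLT]
      refine Submodule.smul_mem _ _ ?_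
      rw [Polynomial.mem_degreeLT, Lagrange.degree_basis ha.injOn (Finset.mem_univ i),
        Finset.card_univ, Fintype.card_fin]
      have := i.2
      exact_mod_cast (by omega : N - 1 < N)
    · intro k _
      rw [eval_pol, Polynomial.eval_smul, smul_eq_mul]
      by_cases hk : k = i
      · subst hk
        rw [Function.update_eq_self, Lagrange.eval_basis_self ha.injOn (Finset.mem_univ k),
          mul_one]
      · rw [Lagrange.eval_basis_of_ne (Ne.symm hk) (Finset.mem_univ k), mul_zero, Dt_zero]
        apply Matrix.det_zero_of_row_eq (i := i) (j := k) (Ne.symm hk)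
        funext j
        simp [A, Function.update_of_ne hk]
  rw [← eval_pol, h, Polynomial.eval_smul, smul_eq_mul, Lagrange.basis, Polynomial.eval_prod]
  congr 1
  apply Finset.prod_congr rfl
  intro k _
  simp [Lagrange.basisDivisor]

/-- `ρ_i`. -/
noncomputable def rho (u : F) (a : Fin N → F) (i : Fin N) : F :=
  ∏ k ∈ univ.erase i, ((a i - a k)⁻¹ * (u * a i - a k))

/-- the linear polynomial `u - a t`. -/
noncomputable def lin (u a : F) : Polynomial F :=
  Polynomial.C (-a) * Polynomial.X + Polynomial.C u

theorem eval_lin (u a x : F) : (lin u a).eval x = u - a * x := by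
  unfold lin
  simp
  ring

theorem degree_lin (u a : F) (ha : a ≠ 0) : (lin u a).degree = 1 :=
  Polynomial.degree_linear (neg_ne_zero.2 ha)

theorem lc_lin (u a : F) (ha : a ≠ 0) : (lin u a).leadingCoeff = -a :=
  Polynomial.leadingCoeff_linear (neg_ne_zero.2 ha)

theorem degree_prod_lin (u : F) (a : Fin N → F) (h0 : ∀ i, a i ≠ 0) (s : Finset (Fin N)) :
    (∏ k ∈ s, lin u (a k)).degree = (s.card : ℕ) := by
  rw [Polynomial.degree_prod, Finset.sum_congr rfl (fun k _ => degree_lin u (a k) (h0 k))]
  simp

theorem pf (u : F) (a : Fin N → F) (ha : Function.Injective a) (h0 : ∀ i, a i ≠ 0) :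
    ∏ k, lin u (a k) = ∏ k, lin 1 (a k) +
      (u - 1) • ∑ i, rho u a i • ∏ k ∈ univ.erase i, lin 1 (a k) := by
  rw [← sub_eq_iff_eq_add']
  have hinj : Function.Injective (fun i => (a i)⁻¹) := fun i j h => ha (inv_injective h)
  apply Polynomial.eq_of_degrees_lt_of_eval_index_eq (s := univ) (v := fun i => (a i)⁻¹)
    hinj.injOn
  · have hd : ∀ w : F, (∏ k, lin w (a k)).degree = (N : ℕ) := fun w => by
      rw [degree_prod_lin w a h0 univ, Finset.card_univ, Fintype.card_fin]
    rw [Finset.card_univ, Fintype.card_fin, ← hd u]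
    apply Polynomial.degree_sub_lt_left
    · rw [hd u, hd 1]
    · intro h
      have h1 := hd u
      rw [h, Polynomial.degree_zero] at h1
      exact absurd h1 (by simp)
    · rw [Polynomial.leadingCoeff_prod, Polynomial.leadingCoeff_prod]
      apply Finset.prod_congr rfl
      intro k _
      rw [lc_lin _ _ (h0 k), lc_lin _ _ (h0 k)]
  · rw [Finset.card_univ, Fintype.card_fin, ← Polynomial.mem_degreeLT]
    refine Submodule.smul_mem _ _ (Submodule.sum_mem _ (fun i _ => Submodule.smul_mem _ _ ?_))
    rw [Polynomial.mem_degreeLT, degree_prod_lin 1 a h0, Finset.card_erase_of_mem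
      (Finset.mem_univ i), Finset.card_univ, Fintype.card_fin]
    have := i.2
    exact_mod_cast (by omega : N - 1 < N)
  · intro i _
    have hi := h0 i
    have hz : (lin 1 (a i)).eval (a i)⁻¹ = 0 := by
      rw [eval_lin, mul_inv_cancel₀ hi, sub_self]
    have e1 : (∏ k, lin 1 (a k)).eval (a i)⁻¹ = 0 := by
      rw [Polynomial.eval_prod]
      exact Finset.prod_eq_zero (Finset.mem_univ i) hz
    have e2 : (∏ k, lin u (a k)).eval (a i)⁻¹ =
        (u - 1) * ∏ k ∈ univ.erase i, (u - a k * (a i)⁻¹) := by
      rw [Polynomial.eval_prod, ← Finset.mul_prod_erase _ _ (Finset.mem_univ i), eval_lin,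
        mul_inv_cancel₀ hi]
      congr 1
      apply Finset.prod_congr rfl
      intro k _
      rw [eval_lin]
    have e3 : (∑ p, rho u a p • ∏ k ∈ univ.erase p, lin 1 (a k)).eval (a i)⁻¹ =
        ∏ k ∈ univ.erase i, (u - a k * (a i)⁻¹) := by
      rw [Polynomial.eval_finsetSum, Finset.sum_eq_single i]
      · rw [Polynomial.eval_smul, smul_eq_mul, Polynomial.eval_prod, rho, ← Finset.prod_mul_distrib]
        apply Finset.prod_congr rfl
        intro k hk
        have hne : a i - a k ≠ 0 := by
          rw [sub_ne_zero]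
          intro h
          exact (Finset.ne_of_mem_erase hk) (ha h).symm
        rw [eval_lin]
        field_simp
      · intro p _ hp
        rw [Polynomial.eval_smul, smul_eq_mul, Polynomial.eval_prod,
          Finset.prod_eq_zero (Finset.mem_erase.2 ⟨Ne.symm hp, Finset.mem_univ i⟩) hz, mul_zero]
      · intro h
        exact absurd (Finset.mem_univ i) h
    rw [Polynomial.eval_sub, e1, e2, sub_zero, Polynomial.eval_smul, e3, smul_eq_mul]

/-- `u + (u-1) ∑_{j ≥ 1} a^j t^j`. -/
noncomputable def hh (u a : F) : PowerSeries F :=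
  PowerSeries.mk fun j => if j = 0 then u else (u - 1) * a ^ j

/-- the geometric series. -/
noncomputable def gg (a : F) : PowerSeries F := PowerSeries.mk fun j => a ^ j

theorem lin_gg (u a : F) : ((lin u a : Polynomial F) : PowerSeries F) * gg a = hh u a := by
  have h : ((lin u a : Polynomial F) : PowerSeries F) =
      PowerSeries.C (-a) * PowerSeries.X + PowerSeries.C u := by
    unfold lin
    rw [Polynomial.coe_add, Polynomial.coe_mul, Polynomial.coe_C, Polynomial.coe_C,
      Polynomial.coe_X]
  rw [h, add_mul, mul_assoc]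
  ext n
  rw [map_add, PowerSeries.coeff_C_mul, PowerSeries.coeff_C_mul]
  cases n with
  | zero =>
    rw [PowerSeries.coeff_zero_X_mul]
    simp [gg, hh]
  | succ n =>
    rw [PowerSeries.coeff_succ_X_mul]
    simp only [gg, hh, PowerSeries.coeff_mk, Nat.succ_ne_zero, if_false]
    ring

theorem lin_one_gg (a : F) : ((lin 1 a : Polynomial F) : PowerSeries F) * gg a = 1 := by
  rw [lin_gg]
  ext n
  cases n with
  | zero => simp [hh]
  | succ n => simp [hh, PowerSeries.coeff_one]

theorem main_ps (u : F) (a : Fin N → F) (ha : Function.Injective a) (h0 : ∀ i, a i ≠ 0) :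
    ∏ k, hh u (a k) = 1 + (u - 1) • ∑ i, rho u a i • gg (a i) := by
  have h := congrArg (fun p : Polynomial F => (Polynomial.coeToPowerSeries.ringHom p) *
    ∏ k, gg (a k)) (pf u a ha h0)
  simp only [map_add, map_prod] at h
  have e1 : (∏ k, Polynomial.coeToPowerSeries.ringHom (lin u (a k))) * ∏ k, gg (a k) =
      ∏ k, hh u (a k) := by
    rw [← Finset.prod_mul_distrib]
    exact Finset.prod_congr rfl (fun k _ => lin_gg u (a k))
  have e2 : (∏ k, Polynomial.coeToPowerSeries.ringHom (lin 1 (a k))) * ∏ k, gg (a k) = 1 := by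
    rw [← Finset.prod_mul_distrib]
    exact Finset.prod_eq_one (fun k _ => lin_one_gg (a k))
  have e3 : ∀ i, (∏ k ∈ univ.erase i, Polynomial.coeToPowerSeries.ringHom (lin 1 (a k))) *
      ∏ k, gg (a k) = gg (a i) := by
    intro i
    rw [← Finset.mul_prod_erase univ (fun k => gg (a k)) (Finset.mem_univ i), mul_left_comm,
      ← Finset.prod_mul_distrib]
    have e4 : ∏ k ∈ univ.erase i, Polynomial.coeToPowerSeries.ringHom (lin 1 (a k)) * gg (a k)
        = 1 := Finset.prod_eq_one (fun k _ => lin_one_gg (a k))
    rw [e4, mul_one]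
  have esm : ∀ (c : F) (p : Polynomial F), Polynomial.coeToPowerSeries.ringHom (c • p) =
      c • Polynomial.coeToPowerSeries.ringHom p := by
    intro c p
    rw [Polynomial.smul_eq_C_mul, map_mul, PowerSeries.smul_eq_C_mul]
    simp
  rw [e1, add_mul, e2, esm, map_sum] at h
  rw [h]
  congr 1
  rw [smul_mul_assoc, Finset.sum_mul]
  congr 1
  apply Finset.sum_congr rfl
  intro i _
  rw [esm, map_prod, smul_mul_assoc, e3]

theorem fieldA4 (u : F) (a : Fin N → F) (ha : Function.Injective a) (h0 : ∀ i, a i ≠ 0) :
    ((u - 1) * ∑ i, Dt (Function.update a i (u * a i)) 0 = (u ^ N - 1) * Dt a 0) ∧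
    ∀ m : ℕ, 1 ≤ m →
      (u - 1) * ∑ i, Dt (Function.update a i (u * a i)) 0 * a i ^ m =
        Dt a 0 * PowerSeries.coeff m (∏ k, hh u (a k)) := by
  have hV : ∀ i, Dt (Function.update a i (u * a i)) 0 = Dt a 0 * rho u a i := fun i => by
    rw [V_upd a ha i]
    rfl
  have hps := main_ps u a ha h0
  constructor
  · have h1 := congrArg PowerSeries.constantCoeff hps
    rw [map_prod, map_add, map_one] at h1
    have e1 : ∀ k, PowerSeries.constantCoeff (hh u (a k)) = u := fun k => by
      rw [← PowerSeries.coeff_zero_eq_constantCoeff_apply]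
      simp [hh]
    rw [Finset.prod_congr rfl (fun k _ => e1 k), Finset.prod_const, Finset.card_univ,
      Fintype.card_fin] at h1
    have e2 : PowerSeries.constantCoeff ((u - 1) • ∑ i, rho u a i • gg (a i)) =
        (u - 1) * ∑ i, rho u a i := by
      rw [← PowerSeries.coeff_zero_eq_constantCoeff_apply]
      simp [gg]
    rw [e2] at h1
    rw [Finset.sum_congr rfl (fun i _ => hV i), ← Finset.mul_sum, h1]
    ring
  · intro m hm
    rw [hps, map_add, PowerSeries.coeff_one, if_neg (by omega), zero_add]
    have e2 : PowerSeries.coeff m ((u - 1) • ∑ i, rho u a i • gg (a i)) =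
        (u - 1) * ∑ i, rho u a i * a i ^ m := by
      simp [gg]
    rw [e2, Finset.sum_congr rfl (fun i _ => by rw [hV i, mul_assoc]), ← Finset.mul_sum]
    ring

end field

theorem Dt_map {S T : Type} [CommRing S] [CommRing T] (φ : S →+* T) {N : ℕ} (y : Fin N → S)
    (lam : Fin N → ℕ) : φ (Dt y lam) = Dt (fun i => φ (y i)) lam := by
  unfold Dt
  rw [RingHom.map_det]
  congr 1
  ext i j
  simp

end A4

theorem A4 : S_A4 := by
  intro S _ _ N u a ha h0
  set φ : S →+* FractionRing S := algebraMap S (FractionRing S) with hφ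
  have hφi : Function.Injective φ := IsFractionRing.injective S (FractionRing S)
  have hf := A4.fieldA4 (φ u) (fun i => φ (a i)) (hφi.comp ha)
    (fun i h => h0 i (hφi (by rw [h, map_zero])))
  have hupd : ∀ i, φ (Dt (Function.update a i (u * a i)) 0) =
      Dt (Function.update (fun i => φ (a i)) i (φ u * φ (a i))) 0 := by
    intro i
    rw [A4.Dt_map]
    congr 1
    funext j
    by_cases h : j = i
    · subst h; simp
    · simp [Function.update_of_ne h]
  constructor
  · apply hφi
    rw [map_mul, map_mul, map_sub, map_sub, map_one, map_pow, map_sum,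
      Finset.sum_congr rfl (fun i _ => hupd i), hf.1, A4.Dt_map]
  · intro m hm
    apply hφi
    have hc : φ (PowerSeries.coeff m (∏ k, (PowerSeries.mk fun j =>
        if j = 0 then u else (u - 1) * a k ^ j : PowerSeries S))) =
        PowerSeries.coeff m (∏ k, A4.hh (φ u) (φ (a k))) := by
      rw [← PowerSeries.coeff_map, map_prod]
      congr 1
      apply Finset.prod_congr rfl
      intro k _
      ext j
      rw [PowerSeries.coeff_map, PowerSeries.coeff_mk, A4.hh, PowerSeries.coeff_mk]
      split_ifs
      · rfl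
      · simp
    rw [map_mul, map_mul, map_sub, map_one, map_sum, hc, A4.Dt_map]
    rw [Finset.sum_congr rfl (fun i _ => by rw [map_mul, hupd i, map_pow])]
    exact hf.2 m hm

end Pool.Agent.H946.Z
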