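import Pool.Agent.H946.Z.Stm2
set_option autoImplicit false

/-!
# MP_d9449f_ag : assembly of the disproof from the steps
-/

namespace Pool.Agent.H946.Z

open PowerSeries

theorem assembly (w : ℕ) (hred : S_red) (hsym : S_sym) (h0 : S_MF0) (h1 : S_MF1) (h2 : S_MF2)
    (hRR : S_RR) (h8a : S_F8a) (h8b : S_F8b) (hoq : S_oqZ) (hev : S_evP) (hgr : S_growthW w)
    (hT3 : S_T3) (hT4 : S_T4W w) :
    dtBracket (fun π => ch 2 π * ch 4 π) ∉ KoqZ := by
  intro hmem
  have e1 : EE GF ∈ oqZ := hred hmem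
  rw [hsym] at e1
  have e2 : F0 ∈ oqZ := by
    have := oqZ.smul_mem e1 (1 / 3 : ℚ)
    rw [smul_smul] at this
    norm_num at this
    exact this
  have e3 : F0 = F0cl := by
    rw [h8a]
    exact h8b h0 h1 h2 hRR
  rw [e3] at e2
  obtain ⟨P, hP⟩ := hoq _ e2
  refine hT4 P (hT3 P w ?_) hP.symm
  intro τ hτ
  obtain ⟨C, hC⟩ := hgr τ hτ
  refine ⟨C, fun N hN => ?_⟩
  have hq : ‖qN τ N‖ < 1 := by
    have hz : (0:ℝ) < (-1 / (τ + (N:ℂ))).im := by
      have him : (τ + (N:ℂ)).im = τ.im := by simp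
      have hne : Complex.normSq (τ + (N:ℂ)) > 0 := by
        rw [gt_iff_lt, Complex.normSq_pos]
        intro h
        rw [h] at him
        simp at him
        exact hτ.ne him
      rw [Complex.div_im]
      simp only [Complex.neg_im, Complex.one_im, neg_zero, zero_mul, zero_div, Complex.neg_re,
        Complex.one_re, him]
      have : 0 < τ.im / Complex.normSq (τ + (N:ℂ)) := div_pos hτ hne
      have e : (0:ℝ) - -1 * τ.im / Complex.normSq (τ + (N:ℂ)) =
        τ.im / Complex.normSq (τ + (N:ℂ)) := by ring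
      rw [e]; exact this
    unfold qN
    rw [Complex.norm_exp]
    rw [Real.exp_lt_one_iff]
    have : (2 * (Real.pi:ℂ) * Complex.I * (-1 / (τ + (N:ℂ)))).re =
        - (2 * Real.pi * (-1 / (τ + (N:ℂ))).im) := by
      rw [show (2 * (Real.pi:ℂ) * Complex.I * (-1 / (τ + (N:ℂ)))) =
        ((2 * Real.pi : ℝ) : ℂ) * (Complex.I * (-1 / (τ + (N:ℂ)))) by push_cast; ring]
      rw [Complex.re_ofReal_mul, Complex.I_mul_re]
      ring
    rw [this]
    have h3 := mul_pos (mul_pos (two_pos (α := ℝ)) Real.pi_pos) hz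
    linarith
  rw [← hev _ hq P, ← hP]
  exact hC N hN

end Pool.Agent.H946.Z
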