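import Pool.Agent.H946.Z.Basic
set_option autoImplicit false

/-!
# Transfer formula: plane partitions and interlacing sequences of diagonal slices
-/

namespace Pool.Agent.H946.Z

open PowerSeries

namespace Bridge

/-- A set of boxes over the cells `(i, j)` with `i - j < δ`, which is monotone there, and which
interlaces with the heights `h` on the diagonal `i - j = δ`. -/
structure PC (N T : ℕ) (δ : ℤ) (h : ℕ → ℕ → ℕ) (π : Finset Box) : Prop where
  reg : ∀ i j l : ℕ, (i, j, l) ∈ π → (i : ℤ) < j + δ ∧ j < N ∧ l < T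
  col : ∀ i j l l' : ℕ, (i, j, l) ∈ π → l' ≤ l → (i, j, l') ∈ π
  left : ∀ i j l : ℕ, (i + 1, j, l) ∈ π → (i, j, l) ∈ π
  down : ∀ i j l : ℕ, (i, j + 1, l) ∈ π → (i : ℤ) < j + δ → (i, j, l) ∈ π
  bd1 : ∀ i j l : ℕ, (i : ℤ) + 1 = j + δ → j < N → l < h (i + 1) j → (i, j, l) ∈ π
  bd2 : ∀ i j l : ℕ, (i : ℤ) = j + δ → (i, j + 1, l) ∈ π → l < h i j

theorem PC_congr {N T : ℕ} {δ : ℤ} {h h' : ℕ → ℕ → ℕ}
    (H : ∀ i j : ℕ, (i : ℤ) = j + δ → j < N → h i j = h' i j) (π : Finset Box) :
    PC N T δ h π ↔ PC N T δ h' π := by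
  constructor
  · intro p
    refine ⟨p.reg, p.col, p.left, p.down, ?_, ?_⟩
    · intro i j l h1 h2 h3
      exact p.bd1 i j l h1 h2 (by rwa [H (i + 1) j (by push_cast; exact h1) h2])
    · intro i j l h1 h2
      rw [← H i j h1 (by have := (p.reg _ _ _ h2).2.1; omega)]
      exact p.bd2 i j l h1 h2
  · intro p
    refine ⟨p.reg, p.col, p.left, p.down, ?_, ?_⟩
    · intro i j l h1 h2 h3
      exact p.bd1 i j l h1 h2 (by rwa [← H (i + 1) j (by push_cast; exact h1) h2])
    · intro i j l h1 h2
      rw [H i j h1 (by have := (p.reg _ _ _ h2).2.1; omega)]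
      exact p.bd2 i j l h1 h2

/-- the boxes over the cells `c s` with heights `μ s` -/
def cols {k : ℕ} (c : Fin k → ℕ × ℕ) (μ : Fin k → ℕ) : Finset Box :=
  Finset.univ.biUnion fun s : Fin k => (Finset.range (μ s)).image fun l => ((c s).1, (c s).2, l)

theorem mem_cols {k : ℕ} {c : Fin k → ℕ × ℕ} {μ : Fin k → ℕ} {i j l : ℕ} :
    (i, j, l) ∈ cols c μ ↔ ∃ s, c s = (i, j) ∧ l < μ s := by
  unfold cols
  simp only [Finset.mem_biUnion, Finset.mem_univ, true_and, Finset.mem_image, Finset.mem_range,
    Prod.mk.injEq]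
  constructor
  · rintro ⟨s, l', h1, h2, h3, h4⟩
    subst h4
    exact ⟨s, Prod.ext h2 h3, h1⟩
  · rintro ⟨s, h1, h2⟩
    exact ⟨s, l, h2, by rw [h1], by rw [h1], rfl⟩

/-- the cells `c s` are the cells of the diagonal `δ'` in the first `N` columns -/
structure Cells (N : ℕ) (δ' : ℤ) {k : ℕ} (c : Fin k → ℕ × ℕ) : Prop where
  inj : Function.Injective c
  diag : ∀ s, ((c s).1 : ℤ) = (c s).2 + δ'
  lt : ∀ s, (c s).2 < N
  all : ∀ i j : ℕ, (i : ℤ) = j + δ' → j < N → ∃ s, c s = (i, j)

/-- conditions on the new row -/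
structure Row (T : ℕ) {k : ℕ} (c : Fin k → ℕ × ℕ) (h : ℕ → ℕ → ℕ) (μ : Fin k → ℕ) : Prop where
  up : ∀ s, h ((c s).1 + 1) (c s).2 ≤ μ s
  dn : ∀ s (j : ℕ), (c s).2 = j + 1 → μ s ≤ h (c s).1 j
  le : ∀ s, μ s ≤ T

theorem step_iff {N T : ℕ} {δ' : ℤ} {k : ℕ} {c : Fin k → ℕ × ℕ} (hc : Cells N δ' c)
    {h h' : ℕ → ℕ → ℕ} {μ : Fin k → ℕ} (hμ : ∀ s, h' (c s).1 (c s).2 = μ s) {π' : Finset Box}
    (hπ : ∀ i j l : ℕ, (i, j, l) ∈ π' → (i : ℤ) < j + δ') :
    PC N T (δ' + 1) h (π' ∪ cols c μ) ↔ Row T c h μ ∧ PC N T δ' h' π' := by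
  have hmem : ∀ i j l : ℕ, (i, j, l) ∈ π' ∪ cols c μ ↔ (i, j, l) ∈ π' ∨ ∃ s, c s = (i, j) ∧ l < μ s := by
    intro i j l
    rw [Finset.mem_union, mem_cols]
  have hin : ∀ i j l : ℕ, (i : ℤ) < j + δ' → ((i, j, l) ∈ π' ∪ cols c μ ↔ (i, j, l) ∈ π') := by
    intro i j l hij
    rw [hmem]
    constructor
    · rintro (h1 | ⟨s, h1, -⟩)
      · exact h1
      · have := hc.diag s
        rw [h1] at this
        simp only at this
        omega
    · exact fun h => Or.inl h
  have hon : ∀ s l, (((c s).1, (c s).2, l) : Box) ∈ π' ∪ cols c μ ↔ l < μ s := by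
    intro s l
    rw [hmem]
    constructor
    · rintro (h1 | ⟨s', h1, h2⟩)
      · have := hπ _ _ _ h1
        have := hc.diag s
        omega
      · have : s' = s := hc.inj h1
        rw [← this]; exact h2
    · exact fun h => Or.inr ⟨s, rfl, h⟩
  constructor
  · intro p
    refine ⟨⟨?_, ?_, ?_⟩, ⟨?_, ?_, ?_, ?_, ?_, ?_⟩⟩
    · intro s
      by_contra hcon
      push Not at hcon
      have := p.bd1 (c s).1 (c s).2 (μ s) (by rw [hc.diag s]; ring) (hc.lt s) hcon
      rw [hon] at this
      exact lt_irrefl _ this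
    · intro s j hj
      by_contra hcon
      push Not at hcon
      have h1 := (hon s (h (c s).1 j)).2 hcon
      rw [hj] at h1
      have h2 := p.bd2 (c s).1 j (h (c s).1 j) (by have := hc.diag s; rw [hj] at this; push_cast at this; linarith) h1
      exact lt_irrefl _ h2
    · intro s
      by_contra hcon
      push Not at hcon
      have h1 := (hon s T).2 hcon
      have := (p.reg _ _ _ h1).2.2
      exact lt_irrefl _ this
    · intro i j l hl
      have h1 := p.reg i j l ((hmem _ _ _).2 (Or.inl hl))
      exact ⟨hπ _ _ _ hl, h1.2⟩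
    · intro i j l l' hl hl'
      have hr := hπ _ _ _ hl
      rw [← hin i j l hr] at hl
      rw [← hin i j l' hr]
      exact p.col i j l l' hl hl'
    · intro i j l hl
      have hr := hπ _ _ _ hl
      rw [← hin _ _ l hr] at hl
      rw [← hin i j l (by push_cast at hr; linarith)]
      exact p.left i j l hl
    · intro i j l hl hij
      have hr := hπ _ _ _ hl
      rw [← hin _ _ l hr] at hl
      rw [← hin i j l hij]
      exact p.down i j l hl (by linarith)
    · intro i j l h1 h2 h3
      obtain ⟨s, hs⟩ := hc.all (i + 1) j (by push_cast; exact h1) h2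
      have h4 := hμ s
      rw [hs] at h4
      simp only at h4
      rw [h4] at h3
      have h5 := (hon s l).2 h3
      rw [hs] at h5
      simp only at h5
      have h6 := p.left i j l h5
      rwa [hin i j l (by linarith)] at h6
    · intro i j l h1 h2
      have hr := p.reg _ _ _ ((hmem _ _ _).2 (Or.inl h2))
      obtain ⟨s, hs⟩ := hc.all i j h1 (by omega)
      have h4 := hμ s
      rw [hs] at h4
      simp only at h4
      rw [h4]
      have h5 := p.down i j l ((hmem _ _ _).2 (Or.inl h2)) (by linarith)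
      have h6 := hon s l
      rw [hs] at h6
      exact h6.1 h5
  · rintro ⟨r, p⟩
    refine ⟨?_, ?_, ?_, ?_, ?_, ?_⟩
    · intro i j l hl
      rw [hmem] at hl
      rcases hl with hl | ⟨s, hs, hl⟩
      · have := p.reg i j l hl
        exact ⟨by linarith [this.1], this.2⟩
      · have h1 := hc.diag s
        have h2 := hc.lt s
        have h3 := r.le s
        rw [hs] at h1 h2
        simp only at h1 h2
        exact ⟨by linarith, h2, by omega⟩
    · intro i j l l' hl hl'
      rw [hmem] at hl ⊢
      rcases hl with hl | ⟨s, hs, hl⟩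
      · exact Or.inl (p.col i j l l' hl hl')
      · exact Or.inr ⟨s, hs, by omega⟩
    · intro i j l hl
      rw [hmem] at hl
      rcases hl with hl | ⟨s, hs, hl⟩
      · exact (hmem _ _ _).2 (Or.inl (p.left i j l hl))
      · have h1 := hc.diag s
        have h2 := hc.lt s
        have h4 := hμ s
        rw [hs] at h1 h2 h4
        simp only at h1 h2 h4
        push_cast at h1
        exact (hmem _ _ _).2 (Or.inl (p.bd1 i j l h1 h2 (by rw [h4]; exact hl)))
    · intro i j l hl hij
      rw [hmem] at hl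
      rcases hl with hl | ⟨s, hs, hl⟩
      · rcases lt_or_eq_of_le (show (i : ℤ) ≤ j + δ' by linarith) with h1 | h1
        · exact (hmem _ _ _).2 (Or.inl (p.down i j l hl h1))
        · have hr := p.reg _ _ _ hl
          obtain ⟨s, hs⟩ := hc.all i j h1 (by omega)
          have h4 := hμ s
          rw [hs] at h4
          simp only at h4
          have h5 := p.bd2 i j l h1 hl
          rw [h4] at h5
          exact (hmem _ _ _).2 (Or.inr ⟨s, hs, h5⟩)
      · have h1 := hc.diag s
        rw [hs] at h1
        simp only at h1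
        push_cast at h1
        omega
    · intro i j l h1 h2 h3
      obtain ⟨s, hs⟩ := hc.all i j (by linarith) h2
      have h4 := r.up s
      rw [hs] at h4
      simp only at h4
      exact (hmem _ _ _).2 (Or.inr ⟨s, hs, by omega⟩)
    · intro i j l h1 h2
      rw [hmem] at h2
      rcases h2 with h2 | ⟨s, hs, h2⟩
      · have := (p.reg _ _ _ h2).1
        push_cast at this
        omega
      · have h4 := r.dn s j (by rw [hs])
        rw [hs] at h4
        simp only at h4
        omega

/-- a big box -/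
def BX (M N T : ℕ) : Finset Box := Finset.range M ×ˢ Finset.range N ×ˢ Finset.range T

open Classical in
/-- the set of the `π` with `PC` -/
noncomputable def PS (M N T : ℕ) (δ : ℤ) (h : ℕ → ℕ → ℕ) : Finset (Finset Box) :=
  (BX M N T).powerset.filter fun π => PC N T δ h π

theorem mem_PS {M N T : ℕ} {δ : ℤ} (hδ : (N : ℤ) + δ ≤ M) {h : ℕ → ℕ → ℕ} {π : Finset Box} :
    π ∈ PS M N T δ h ↔ PC N T δ h π := by
  classical
  unfold PS
  rw [Finset.mem_filter, Finset.mem_powerset]
  refine ⟨fun h => h.2, fun p => ⟨?_, p⟩⟩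
  rintro ⟨i, j, l⟩ hb
  obtain ⟨h1, h2, h3⟩ := p.reg i j l hb
  unfold BX
  simp only [Finset.mem_product, Finset.mem_range]
  exact ⟨by omega, h2, h3⟩

/-- the heights of the cells `c s` -/
def rowOf {k : ℕ} (c : Fin k → ℕ × ℕ) (π : Finset Box) (s : Fin k) : ℕ :=
  (π.filter fun b => b.1 = (c s).1 ∧ b.2.1 = (c s).2).card

theorem rowOf_union {k : ℕ} {δ' : ℤ} {N : ℕ} {c : Fin k → ℕ × ℕ} (hc : Cells N δ' c)
    {μ : Fin k → ℕ} {π' : Finset Box} (hπ : ∀ i j l : ℕ, (i, j, l) ∈ π' → (i : ℤ) < j + δ') (s : Fin k) :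
    rowOf c (π' ∪ cols c μ) s = μ s := by
  unfold rowOf
  have : (π' ∪ cols c μ).filter (fun b => b.1 = (c s).1 ∧ b.2.1 = (c s).2) =
      (Finset.range (μ s)).image fun l => ((c s).1, (c s).2, l) := by
    ext ⟨i, j, l⟩
    simp only [Finset.mem_filter, Finset.mem_union, mem_cols, Finset.mem_image, Finset.mem_range,
      Prod.mk.injEq]
    constructor
    · rintro ⟨h1 | ⟨s', h1, h2⟩, h3, h4⟩
      · have h5 := hπ _ _ _ h1
        have h6 := hc.diag s
        rw [h3, h4] at h5
        omega
      · have : s' = s := hc.inj (by rw [h1, h3, h4])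
        subst this
        exact ⟨l, h2, h3.symm, h4.symm, rfl⟩
    · rintro ⟨l', h1, h2, h3, h4⟩
      subst h4
      exact ⟨Or.inr ⟨s, Prod.ext h2 h3, h1⟩, h2.symm, h3.symm⟩
  rw [this, Finset.card_image_of_injective _ (by intro a b hab; simpa using hab),
    Finset.card_range]

theorem split_union {N T : ℕ} {δ' : ℤ} {k : ℕ} {c : Fin k → ℕ × ℕ} (hc : Cells N δ' c)
    {h : ℕ → ℕ → ℕ} {π : Finset Box} (p : PC N T (δ' + 1) h π) :
    (π.filter fun b => (b.1 : ℤ) < b.2.1 + δ') ∪ cols c (rowOf c π) = π := by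
  have key : ∀ s l, (((c s).1, (c s).2, l) : Box) ∈ π ↔ l < rowOf c π s := by
    intro s l
    set A := π.filter fun b => b.1 = (c s).1 ∧ b.2.1 = (c s).2 with hA
    have hAcard : rowOf c π s = A.card := rfl
    -- the set of the heights
    set B := A.image fun b => b.2.2 with hB
    have hBcard : B.card = A.card := by
      apply Finset.card_image_of_injOn
      rintro ⟨i, j, l⟩ hb ⟨i', j', l'⟩ hb' hl
      simp only [hA, Finset.coe_filter, Set.mem_ofPred_eq] at hb hb' hl
      obtain ⟨-, h1, h2⟩ := hb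
      obtain ⟨-, h3, h4⟩ := hb'
      rw [h1, h2, h3, h4, hl]
    have hBmem : ∀ l, l ∈ B ↔ (((c s).1, (c s).2, l) : Box) ∈ π := by
      intro l
      simp only [hB, hA, Finset.mem_image, Finset.mem_filter]
      constructor
      · rintro ⟨⟨i, j, l'⟩, ⟨h1, h2, h3⟩, h4⟩
        simp only at h2 h3 h4
        subst h2 h3 h4
        exact h1
      · intro h1
        exact ⟨_, ⟨h1, rfl, rfl⟩, rfl⟩
    have hlow : ∀ l l', l ∈ B → l' ≤ l → l' ∈ B := by
      intro l l' h1 h2
      rw [hBmem] at h1 ⊢
      exact p.col _ _ _ _ h1 h2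
    rw [hAcard, ← hBcard, ← hBmem]
    constructor
    · intro h1
      have : Finset.range (l + 1) ⊆ B := by
        intro l' hl'
        rw [Finset.mem_range] at hl'
        exact hlow l l' h1 (by omega)
      have := Finset.card_le_card this
      rw [Finset.card_range] at this
      omega
    · intro h1
      by_contra h2
      have : B ⊆ Finset.range l := by
        intro l' hl'
        rw [Finset.mem_range]
        by_contra h3
        exact h2 (hlow l' l hl' (by omega))
      have := Finset.card_le_card this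
      rw [Finset.card_range] at this
      omega
  ext ⟨i, j, l⟩
  rw [Finset.mem_union, Finset.mem_filter, mem_cols]
  constructor
  · rintro (h1 | ⟨s, hs, h1⟩)
    · exact h1.1
    · have := (key s l).2 h1
      rwa [hs] at this
  · intro h1
    obtain ⟨h2, h3, h4⟩ := p.reg i j l h1
    rcases lt_or_eq_of_le (show (i : ℤ) ≤ j + δ' by linarith) with h5 | h5
    · exact Or.inl ⟨h1, h5⟩
    · obtain ⟨s, hs⟩ := hc.all i j h5 h3
      refine Or.inr ⟨s, hs, ?_⟩
      rw [← key, hs]
      exact h1

/-- splitting off a diagonal -/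
theorem sum_step {A : Type*} [AddCommMonoid A] {M N T : ℕ} {δ' : ℤ} (hM : (N : ℤ) + (δ' + 1) ≤ M)
    {k : ℕ} {c : Fin k → ℕ × ℕ}
    (hc : Cells N δ' c) {h : ℕ → ℕ → ℕ} (h' : (Fin k → ℕ) → ℕ → ℕ → ℕ)
    (hh : ∀ μ s, h' μ (c s).1 (c s).2 = μ s) (S : Finset (Fin k → ℕ))
    (hS : ∀ μ, μ ∈ S ↔ Row T c h μ) (F : Finset Box → A) :
    ∑ π ∈ PS M N T (δ' + 1) h, F π =
      ∑ μ ∈ S, ∑ π' ∈ PS M N T δ' (h' μ), F (π' ∪ cols c μ) := by
  classical
  rw [Finset.sum_sigma']
  symm
  refine Finset.sum_bij' (fun a _ => a.2 ∪ cols c a.1)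
    (fun π _ => ⟨rowOf c π, π.filter fun b => (b.1 : ℤ) < b.2.1 + δ'⟩) ?_ ?_ ?_ ?_ ?_
  · rintro ⟨μ, π'⟩ ha
    rw [Finset.mem_sigma, hS, mem_PS (by linarith)] at ha
    obtain ⟨h1, h2⟩ := ha
    rw [mem_PS hM]
    exact (step_iff hc (hh μ) (fun i j l hl => (h2.reg i j l hl).1)).2 ⟨h1, h2⟩
  · intro π hπ
    rw [mem_PS hM] at hπ
    rw [Finset.mem_sigma, hS, mem_PS (by linarith)]
    have h1 := split_union hc hπ
    rw [← h1] at hπ
    exact (step_iff hc (hh _) (fun i j l hl => by
      rw [Finset.mem_filter] at hl; exact hl.2)).1 hπ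
  · rintro ⟨μ, π'⟩ ha
    rw [Finset.mem_sigma, hS, mem_PS (by linarith)] at ha
    obtain ⟨h1, h2⟩ := ha
    have e1 : rowOf c (π' ∪ cols c μ) = μ := by
      funext s
      exact rowOf_union hc (fun i j l hl => (h2.reg i j l hl).1) s
    have e2 : (π' ∪ cols c μ).filter (fun b => (b.1 : ℤ) < b.2.1 + δ') = π' := by
      ext ⟨i, j, l⟩
      rw [Finset.mem_filter, Finset.mem_union, mem_cols]
      constructor
      · rintro ⟨h3 | ⟨s, hs, -⟩, h4⟩
        · exact h3
        · have := hc.diag s
          rw [hs] at this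
          simp only at this h4
          omega
      · intro h3
        exact ⟨Or.inl h3, (h2.reg i j l h3).1⟩
    simp only
    rw [e1, e2]
  · intro π hπ
    rw [mem_PS hM] at hπ
    exact split_union hc hπ
  · intro a _
    rfl

/-- weight -/
noncomputable def wtx {S : Type} [CommRing S] (x : ℤ → S) (π : Finset Box) : S :=
  ∏ b ∈ π, x ((b.1 : ℤ) - b.2.1)

theorem card_cols {k : ℕ} {N : ℕ} {δ' : ℤ} {c : Fin k → ℕ × ℕ} (hc : Cells N δ' c)
    (μ : Fin k → ℕ) : (cols c μ).card = ∑ s, μ s := by
  unfold cols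
  rw [Finset.card_biUnion]
  · apply Finset.sum_congr rfl
    intro s _
    rw [Finset.card_image_of_injective _ (by intro a b hab; simpa using hab), Finset.card_range]
  · intro s _ s' _ hne
    rw [Function.onFun, Finset.disjoint_left]
    intro b hb hb'
    simp only [Finset.mem_image, Finset.mem_range] at hb hb'
    obtain ⟨l, -, rfl⟩ := hb
    obtain ⟨l', -, h2⟩ := hb'
    simp only [Prod.mk.injEq] at h2
    exact hne (hc.inj (Prod.ext h2.1.symm h2.2.1.symm))

theorem wtx_union {S : Type} [CommRing S] (x : ℤ → S) {k : ℕ} {N : ℕ} {δ' : ℤ}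
    {c : Fin k → ℕ × ℕ} (hc : Cells N δ' c) (μ : Fin k → ℕ) {π' : Finset Box}
    (hπ : ∀ i j l : ℕ, (i, j, l) ∈ π' → (i : ℤ) < j + δ') :
    wtx x (π' ∪ cols c μ) = x δ' ^ (∑ s, μ s) * wtx x π' := by
  unfold wtx
  rw [Finset.prod_union, mul_comm]
  · congr 1
    rw [← card_cols hc μ]
    apply Finset.prod_eq_pow_card
    rintro ⟨i, j, l⟩ hb
    rw [mem_cols] at hb
    obtain ⟨s, hs, -⟩ := hb
    have := hc.diag s
    rw [hs] at this
    simp only at this ⊢
    congr 1
    linarith
  · rw [Finset.disjoint_left]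
    rintro ⟨i, j, l⟩ hb hb'
    rw [mem_cols] at hb'
    obtain ⟨s, hs, -⟩ := hb'
    have := hc.diag s
    rw [hs] at this
    simp only at this
    have := hπ _ _ _ hb
    omega

/-- boundary heights for the Gelfand-Tsetlin part -/
def hD {k : ℕ} (lam : Fin k → ℕ) (i _j : ℕ) : ℕ := if hi : i < k then lam ⟨i, hi⟩ else 0

/-- boundary heights for the other diagonals -/
def hU {k : ℕ} (lam : Fin k → ℕ) (_i j : ℕ) : ℕ := if hj : j < k then lam ⟨j, hj⟩ else 0

theorem GT_eq {S : Type} [CommRing S] (M N T : ℕ) (hM : N ≤ M) (y : ℤ → S) :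
    ∀ (k m : ℕ) (_ : k + m = N) (δ : ℤ) (_ : δ = -(m : ℤ)) (x : ℕ → S)
      (_ : ∀ i : ℕ, x i = y (-(m : ℤ) - i - 1)) (lam : Fin k → ℕ) (_ : ∀ s, lam s ≤ T),
      GT k x lam = ∑ π ∈ PS M N T δ (hD lam), wtx y π := by
  intro k
  induction k with
  | zero =>
    intro m hm δ hδ x hx lam hlam
    have : PS M N T δ (hD lam) = {∅} := by
      ext π
      rw [mem_PS (by omega), Finset.mem_singleton]
      constructor
      · intro p
        rw [Finset.eq_empty_iff_forall_notMem]
        rintro ⟨i, j, l⟩ hb
        have := p.reg i j l hb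
        omega
      · rintro rfl
        refine ⟨by simp, by simp, by simp, by simp, ?_, by simp⟩
        intro i j l h1 h2 _
        omega
    rw [this, Finset.sum_singleton]
    simp [GT, wtx]
  | succ k ih =>
    intro m hm δ hδ x hx lam hlam
    have hc : Cells N (-((m + 1 : ℕ) : ℤ)) (fun s : Fin k => ((s : ℕ), (s : ℕ) + m + 1)) := by
      refine ⟨?_, ?_, ?_, ?_⟩
      · intro s s' h
        simp only [Prod.mk.injEq] at h
        exact Fin.ext h.1
      · intro s; push_cast; ring
      · intro s
        have := s.2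
        simp only
        omega
      · intro i j h1 h2
        have hi : i < k := by omega
        refine ⟨⟨i, hi⟩, ?_⟩
        simp only [Prod.mk.injEq, true_and]
        omega
    have e : δ = -((m + 1 : ℕ) : ℤ) + 1 := by rw [hδ]; push_cast; ring
    rw [e, sum_step (by omega) hc (fun μ => hD μ) (by
      intro μ s
      simp [hD]) (downSet lam) ?_]
    · unfold GT
      apply Finset.sum_congr rfl
      intro μ hμ
      have hμ1 : ∀ s, μ s ≤ T := by
        intro s
        unfold downSet at hμ
        rw [Fintype.mem_piFinset] at hμ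
        have := hμ s
        rw [Finset.mem_Icc] at this
        exact this.2.trans (hlam _)
      rw [ih (m + 1) (by omega) (-((m + 1 : ℕ) : ℤ)) rfl (fun i => x (i + 1)) (by
        intro i
        rw [hx]
        congr 1
        push_cast
        ring) μ hμ1, Finset.mul_sum]
      apply Finset.sum_congr rfl
      intro π' hπ'
      rw [mem_PS (by omega)] at hπ'
      rw [wtx_union y hc μ (fun i j l hl => (hπ'.reg i j l hl).1), hx 0]
      congr 3
      push_cast
      ring
    · intro μ
      unfold downSet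
      rw [Fintype.mem_piFinset]
      constructor
      · intro h
        refine ⟨?_, ?_, ?_⟩
        · intro s
          have := (Finset.mem_Icc.1 (h s)).1
          have hs := s.2
          simp only [hD]
          rw [dif_pos (by omega)]
          exact this
        · intro s j _
          have := (Finset.mem_Icc.1 (h s)).2
          have hs := s.2
          simp only [hD]
          rw [dif_pos (by omega)]
          exact this
        · intro s
          exact (Finset.mem_Icc.1 (h s)).2.trans (hlam _)
      · intro r s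
        rw [Finset.mem_Icc]
        have hs := s.2
        constructor
        · have := r.up s
          simp only [hD] at this
          rw [dif_pos (by omega)] at this
          exact this
        · have := r.dn s ((s : ℕ) + m) rfl
          simp only [hD] at this
          rw [dif_pos (by omega)] at this
          exact this

theorem slh_union_eq {N e : ℕ} (hc : Cells N (e : ℤ) (fun s : Fin N => ((s : ℕ) + e, (s : ℕ))))
    (μ : Fin N → ℕ) {π' : Finset Box}
    (hπ : ∀ i j l : ℕ, (i, j, l) ∈ π' → (i : ℤ) < j + e) (s : Fin N) :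
    slh e (π' ∪ cols (fun s : Fin N => ((s : ℕ) + e, (s : ℕ))) μ) s = μ s :=
  rowOf_union hc hπ s

theorem slh_union_lt {N e d : ℕ} (hd : d < e) (μ : Fin N → ℕ) {π' : Finset Box} (s : ℕ) :
    slh d (π' ∪ cols (fun s : Fin N => ((s : ℕ) + e, (s : ℕ))) μ) s = slh d π' s := by
  unfold slh
  congr 1
  ext ⟨i, j, l⟩
  simp only [Finset.mem_filter, Finset.mem_union, mem_cols, Prod.mk.injEq]
  constructor
  · rintro ⟨h1 | ⟨s', ⟨h1, h2⟩, -⟩, h3, h4⟩
    · exact ⟨h1, h3, h4⟩
    · omega
  · rintro ⟨h1, h2⟩
    exact ⟨Or.inl h1, h2⟩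

theorem chain_eq {S : Type} [CommRing S] (M N T : ℕ) (x : ℤ → S) (g : (Fin N → ℕ) → S) (d : ℕ) :
    ∀ (e : ℕ) (_ : N + e ≤ M) (lam : Fin N → ℕ) (_ : ∀ s, lam s ≤ T),
      chainF T N x g d e lam = ∑ π ∈ PS M N T (e : ℤ) (hU lam),
        wtx x π * (if d < e then g (fun s => slh d π s) else 1) := by
  intro e
  induction e with
  | zero =>
    intro hM lam hlam
    unfold chainF
    rw [GT_eq M N T (by omega) x N 0 (by omega) ((0 : ℕ) : ℤ) (by simp) _ (by
      intro i; simp) lam hlam]
    have : PS M N T ((0 : ℕ) : ℤ) (hD lam) = PS M N T ((0 : ℕ) : ℤ) (hU lam) := by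
      ext π
      rw [mem_PS (by push_cast; omega), mem_PS (by push_cast; omega)]
      apply PC_congr
      intro i j h1 h2
      have : i = j := by push_cast at h1; omega
      subst this
      rfl
    rw [this]
    apply Finset.sum_congr rfl
    intro π _
    rw [if_neg (by omega), mul_one]
  | succ e ih =>
    intro hM lam hlam
    have hc : Cells N (e : ℤ) (fun s : Fin N => ((s : ℕ) + e, (s : ℕ))) := by
      refine ⟨?_, ?_, ?_, ?_⟩
      · intro s s' h
        simp only [Prod.mk.injEq] at h
        exact Fin.ext h.2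
      · intro s; push_cast; ring
      · intro s; exact s.2
      · intro i j h1 h2
        refine ⟨⟨j, h2⟩, ?_⟩
        simp only [Prod.mk.injEq, and_true]
        omega
    have e1 : ((e + 1 : ℕ) : ℤ) = (e : ℤ) + 1 := by push_cast; ring
    rw [e1, sum_step (by omega) hc (fun μ => hU μ) (by
      intro μ s
      simp [hU]) (upSet T lam) ?_]
    · unfold chainF
      apply Finset.sum_congr rfl
      intro μ hμ
      have hμ1 : ∀ s, μ s ≤ T := by
        intro s
        unfold upSet at hμ
        rw [Fintype.mem_piFinset] at hμ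
        have := (Finset.mem_Icc.1 (hμ s)).2
        split_ifs at this with h0
        · exact this
        · exact this.trans (hlam _)
      rw [ih (by omega) μ hμ1, Finset.mul_sum]
      apply Finset.sum_congr rfl
      intro π' hπ'
      rw [mem_PS (by omega)] at hπ'
      have hreg : ∀ i j l : ℕ, (i, j, l) ∈ π' → (i : ℤ) < j + e :=
        fun i j l hl => (hπ'.reg i j l hl).1
      rw [wtx_union x hc μ hreg]
      rcases lt_trichotomy d e with h | h | h
      · rw [if_neg (by omega), if_pos h, if_pos (by omega)]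
        have : (fun s : Fin N => slh d (π' ∪ cols (fun s : Fin N => ((s : ℕ) + e, (s : ℕ))) μ) s) =
            fun s : Fin N => slh d π' s := by
          funext s
          exact slh_union_lt h μ s
        rw [this]
        ring
      · subst h
        rw [if_pos rfl, if_neg (by omega), if_pos (by omega)]
        have : (fun s : Fin N => slh d (π' ∪ cols (fun s : Fin N => ((s : ℕ) + d, (s : ℕ))) μ) s) =
            μ := by
          funext s
          exact slh_union_eq hc μ hreg s
        rw [this]
        ring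
      · rw [if_neg (by omega), if_neg (by omega), if_neg (by omega)]
        ring
    · intro μ
      unfold upSet
      rw [Fintype.mem_piFinset]
      constructor
      · intro h
        refine ⟨?_, ?_, ?_⟩
        · intro s
          have := (Finset.mem_Icc.1 (h s)).1
          have hs := s.2
          simp only [hU]
          rw [dif_pos hs]
          exact this
        · intro s j hj
          simp only at hj
          have := (Finset.mem_Icc.1 (h s)).2
          have hs := s.2
          rw [dif_neg (by omega)] at this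
          simp only [hU]
          rw [dif_pos (by omega)]
          refine this.trans (le_of_eq ?_)
          congr 1
          apply Fin.ext
          change (s : ℕ) - 1 = j
          omega
        · intro s
          have := (Finset.mem_Icc.1 (h s)).2
          split_ifs at this with h0
          · exact this
          · exact this.trans (hlam _)
      · intro r s
        rw [Finset.mem_Icc]
        have hs := s.2
        constructor
        · have := r.up s
          simp only [hU] at this
          rw [dif_pos hs] at this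
          exact this
        · split_ifs with h0
          · exact r.le s
          · have := r.dn s ((s : ℕ) - 1) (by simp only; omega)
            simp only [hU] at this
            rw [dif_pos (by omega)] at this
            exact this

theorem PC_final {N T L : ℕ} (π : Finset Box) :
    PC N T (L : ℤ) (fun _ _ => 0) π ↔
      IsLowerSet (π : Set Box) ∧ ∀ b ∈ π, b.1 < L ∧ b.2.1 < N ∧ b.2.2 < T := by
  constructor
  · intro p
    have hL : ∀ i j l : ℕ, (i, j, l) ∈ π → i < L := by
      intro i j l hb
      by_contra hcon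
      push Not at hcon
      -- go down in `j`
      have key : ∀ t : ℕ, i - L + 1 + t ≤ j → (i, j - t, l) ∈ π := by
        intro t
        induction t with
        | zero => intro _; exact hb
        | succ t ih =>
          intro ht
          have h1 := ih (by omega)
          have h2 : j - t = (j - (t + 1)) + 1 := by omega
          rw [h2] at h1
          exact p.down _ _ _ h1 (by omega)
      have h0 := (p.reg _ _ _ hb).1
      have h1 := key (j - (i - L + 1)) (by omega)
      have h2 : j - (j - (i - L + 1)) = (i - L) + 1 := by omega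
      rw [h2] at h1
      have h3 := p.bd2 i (i - L) l (by omega) h1
      exact absurd h3 (Nat.not_lt_zero _)
    refine ⟨?_, ?_⟩
    · have dj : ∀ t i j l : ℕ, (i, j + t, l) ∈ π → (i, j, l) ∈ π := by
        intro t
        induction t with
        | zero => intro i j l h; exact h
        | succ t ih =>
          intro i j l h
          have h1 : (i, j + t + 1, l) ∈ π := h
          have h2 := hL _ _ _ h1
          exact ih i j l (p.down i (j + t) l h1 (by push_cast; omega))
      have di : ∀ t i j l : ℕ, (i + t, j, l) ∈ π → (i, j, l) ∈ π := by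
        intro t
        induction t with
        | zero => intro i j l h; exact h
        | succ t ih => intro i j l h; exact ih i j l (p.left (i + t) j l h)
      rintro ⟨i, j, l⟩ ⟨i', j', l'⟩ hle hb
      obtain ⟨h1, h2, h3⟩ := hle
      simp only at h1 h2 h3
      obtain ⟨a, rfl⟩ := Nat.exists_eq_add_of_le h1
      obtain ⟨b, rfl⟩ := Nat.exists_eq_add_of_le h2
      exact p.col _ _ _ _ (dj _ _ _ _ (di _ _ _ _ hb)) h3
    · rintro ⟨i, j, l⟩ hb
      obtain ⟨-, h2, h3⟩ := p.reg _ _ _ hb
      exact ⟨hL _ _ _ hb, h2, h3⟩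
  · rintro ⟨hlow, hb⟩
    have low : ∀ i j l i' j' l' : ℕ, (i, j, l) ∈ π → i' ≤ i → j' ≤ j → l' ≤ l → (i', j', l') ∈ π :=
      fun i j l i' j' l' h h1 h2 h3 =>
        hlow (show ((i', j', l') : Box) ≤ (i, j, l) from ⟨h1, h2, h3⟩) h
    refine ⟨?_, ?_, ?_, ?_, ?_, ?_⟩
    · intro i j l h
      obtain ⟨h1, h2, h3⟩ := hb _ h
      simp only at h1 h2 h3
      exact ⟨by omega, h2, h3⟩
    · intro i j l l' h h'
      exact low _ _ _ _ _ _ h le_rfl le_rfl h'
    · intro i j l h
      exact low _ _ _ _ _ _ h (Nat.le_succ _) le_rfl le_rfl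
    · intro i j l h _
      exact low _ _ _ _ _ _ h le_rfl (Nat.le_succ _) le_rfl
    · intro i j l _ _ h
      exact absurd h (Nat.not_lt_zero _)
    · intro i j l h1 h
      obtain ⟨h1, h2, h3⟩ := hb _ h
      simp only at h1 h2 h3
      omega

end Bridge

open Bridge in
theorem bridge : S_bridge := by
  classical
  intro R _ T N L y g d n hdL hnT
  rw [chain_eq (N + L) N T _ _ d L le_rfl 0 (fun _ => Nat.zero_le _), map_sum]
  have e0 : PS (N + L) N T (L : ℤ) (hU (0 : Fin N → ℕ)) =
      PS (N + L) N T (L : ℤ) (fun _ _ => 0) := by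
    congr 1
    funext i j
    simp [hU]
  rw [e0]
  unfold Fbox
  rw [PowerSeries.coeff_mk]
  have e1 : (PP n).filter (fun π => ∀ b ∈ π, b.1 < L ∧ b.2.1 < N) =
      (PS (N + L) N T (L : ℤ) (fun _ _ => 0)).filter (fun π => π.card = n) := by
    ext π
    rw [Finset.mem_filter, Finset.mem_filter, mem_PS (by push_cast; omega), PC_final, mem_PP]
    constructor
    · rintro ⟨⟨h1, h2⟩, h3⟩
      refine ⟨⟨h1, ?_⟩, h2⟩
      rintro ⟨i, j, l⟩ hb
      have h4 := h3 _ hb
      have h5 := (lower_fst h1 hb).2.2
      rw [h2] at h5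
      exact ⟨h4.1, h4.2, by simp only; omega⟩
    · rintro ⟨⟨h1, h3⟩, h2⟩
      exact ⟨⟨h1, h2⟩, fun b hb => ⟨(h3 b hb).1, (h3 b hb).2.1⟩⟩
  rw [e1, Finset.sum_filter]
  apply Finset.sum_congr rfl
  intro π _
  have e2 : wtx (fun e => PowerSeries.C (y e) * (X : R⟦X⟧)) π =
      PowerSeries.C (wy y π) * X ^ π.card := by
    unfold wtx wy
    rw [Finset.prod_mul_distrib, Finset.prod_const, map_prod]
  rw [if_pos hdL, e2, mul_right_comm, ← map_mul, PowerSeries.coeff_C_mul, PowerSeries.coeff_X_pow]
  by_cases h : π.card = n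
  · rw [if_pos h, if_pos h.symm, mul_one]
  · rw [if_neg h, if_neg (fun h' => h h'.symm), mul_zero]

end Pool.Agent.H946.Z
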