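import Mathlib
set_option autoImplicit false

/-!
# MP_d9449f_ag : definitions used in the statement

Donaldson-Thomas point series of `C³` with respect to the Calabi-Yau torus
`G = {t₁t₂t₃ = 1}`, and odd `q`-zeta values.
-/

namespace Pool.Agent.H946.Z

open PowerSeries

noncomputable section

/-! ## Plane partitions -/

/-- A box of `ℕ³`. -/
abbrev Box : Type := ℕ × ℕ × ℕ

open Classical in
/-- Plane partitions with `n` boxes: the lower sets of `ℕ³` with `n` elements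
(equivalently the monomial ideals of colength `n` in `ℂ[x₁,x₂,x₃]`, i.e. the torus fixed points
of `Hilb(ℂ³,n)`). A lower set with `n` elements lies in `{0,…,n-1}³`. -/
def PP (n : ℕ) : Finset (Finset Box) :=
  ((Finset.range n ×ˢ Finset.range n ×ˢ Finset.range n).powerset).filter
    fun π => IsLowerSet (π : Set Box) ∧ π.card = n

/-! ## The Donaldson-Thomas side -/

/-- Laurent polynomials in `t₁,t₂,t₃` with integer coefficients (characters of the torus). -/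
abbrev Ch3 : Type := AddMonoidAlgebra ℤ (ℤ × ℤ × ℤ)

/-- the monomial `t^v`. -/
def tm (v : ℤ × ℤ × ℤ) : Ch3 := AddMonoidAlgebra.single v 1

/-- the dual character `t^v ↦ t^{-v}`. -/
def dual (V : Ch3) : Ch3 := AddMonoidAlgebra.mapDomain (fun v : ℤ × ℤ × ℤ => -v) V

/-- the character `Q_π = ∑_{(i,j,k) ∈ π} t₁^i t₂^j t₃^k`. -/
def Qch (π : Finset Box) : Ch3 := ∑ b ∈ π, tm ((b.1 : ℤ), (b.2.1 : ℤ), (b.2.2 : ℤ))

/-- the character of the virtual tangent space at the fixed point `π` (the vertex of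
Maulik-Nekrasov-Okounkov-Pandharipande):
`V = Q - Q̄/(t₁t₂t₃) + Q Q̄ (1-t₁)(1-t₂)(1-t₃)/(t₁t₂t₃)`. -/
def vertex (π : Finset Box) : Ch3 :=
  Qch π - dual (Qch π) * tm (-1, -1, -1) +
    Qch π * dual (Qch π) *
      ((1 - tm (1, 0, 0)) * (1 - tm (0, 1, 0)) * (1 - tm (0, 0, 1))) * tm (-1, -1, -1)

/-- restriction of characters to the torus `t₁t₂t₃ = 1` with coordinates `t₁, t₂`. -/
def restr (V : Ch3) : AddMonoidAlgebra ℤ (ℤ × ℤ) :=
  AddMonoidAlgebra.mapDomain (fun v : ℤ × ℤ × ℤ => (v.1 - v.2.2, v.2.1 - v.2.2)) V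

/-- `H_G^*(pt)_loc` for the two-dimensional torus `G = {t₁t₂t₃ = 1}`: the field `ℚ(h₁,h₂)`. -/
abbrev KK : Type := FractionRing (MvPolynomial (Fin 2) ℚ)

/-- the weight `a h₁ + b h₂` of the character `t₁^a t₂^b` of `G`. -/
def wt (v : ℤ × ℤ) : KK :=
  algebraMap (MvPolynomial (Fin 2) ℚ) KK
    ((v.1 : MvPolynomial (Fin 2) ℚ) * MvPolynomial.X 0 +
      (v.2 : MvPolynomial (Fin 2) ℚ) * MvPolynomial.X 1)

/-- `1 / e(V)` for a virtual representation `V` of `G` (the product of the weights, with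
multiplicity `-V(χ)`). -/
def invEuler (V : AddMonoidAlgebra ℤ (ℤ × ℤ)) : KK :=
  V.coeff.prod fun χ m => wt χ ^ (-m)

/-- the Chern character component `ch_k` of the tautological bundle `𝒪^{[n]}` at `π`. -/
def ch (k : ℕ) (π : Finset Box) : KK :=
  (∑ b ∈ π, wt ((b.1 : ℤ) - (b.2.2 : ℤ), (b.2.1 : ℤ) - (b.2.2 : ℤ)) ^ k) / (k.factorial : KK)

/-- the series `⟨f⟩_{3D} = ∑ (-q)^n ∫_{[Hilb(ℂ³,n)]^vir} f(𝒪^{[n]})`, by virtual localization. -/
def dtSeries (f : Finset Box → KK) : KK⟦X⟧ :=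
  PowerSeries.mk fun n => (-1) ^ n * ∑ π ∈ PP n, f π * invEuler (restr (vertex π))

/-- the normalized series `⟨f⟩'_{3D} = ⟨f⟩_{3D} / ⟨1⟩_{3D}`. -/
def dtBracket (f : Finset Box → KK) : KK⟦X⟧ := dtSeries f * (dtSeries fun _ => 1)⁻¹

/-- `Z(2k+1) = ∑_{n ≥ 1} q^{kn}(1+q^n)/(1-q^n)^{2k+1}`, `k ≥ 1` (the `n`-th summand is divisible
by `q^n`, so the coefficient of `q^N` only sees `n ≤ N`). -/
def oddZeta (k : ℕ) : ℚ⟦X⟧ :=
  PowerSeries.mk fun N => PowerSeries.coeff N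
    (∑ n ∈ Finset.Icc 1 N,
      (X ^ (k * n) * (1 + X ^ n) * ((1 - X ^ n)⁻¹) ^ (2 * k + 1) : ℚ⟦X⟧))

/-- the operator `q d/dq`. -/
def qD (f : ℚ⟦X⟧) : ℚ⟦X⟧ := X * PowerSeries.derivative ℚ f

/-- the algebra `oqZ` generated by all `(q d/dq)^l Z(2k+1)`, `k ≥ 1`, `l ≥ 0`. -/
def oqZ : Subalgebra ℚ ℚ⟦X⟧ :=
  Algebra.adjoin ℚ {F | ∃ k l : ℕ, 1 ≤ k ∧ F = qD^[l] (oddZeta k)}

/-- `H_G^*(pt)_loc ⊗ oqZ`, as the set of finite sums `∑ a_j F_j` in `ℚ(h₁,h₂)[[q]]`. -/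
def KoqZ : Submodule KK KK⟦X⟧ :=
  Submodule.span KK ((PowerSeries.map (algebraMap ℚ KK)) '' (oqZ : Set ℚ⟦X⟧))

end

end Pool.Agent.H946.Z
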