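import Pool.Agent.H946.Z.DT
set_option autoImplicit false

/-!
# MP_d9449f_ag : definitions used in the proof
-/

namespace Pool.Agent.H946.Z

open PowerSeries

noncomputable section

/-! ## Generating functions over plane partitions -/

section gen
variable {R : Type*} [CommRing R]

/-- `∑_n X^n ∑_{π ∈ PP n} f π`. -/
def gen (f : Finset Box → R) : R⟦X⟧ := PowerSeries.mk fun n => ∑ π ∈ PP n, f π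

/-- the weight `w_y(π) = ∏_{(i,j,l) ∈ π} y_{i-j}`. -/
def wy (y : ℤ → R) (π : Finset Box) : R := ∏ b ∈ π, y ((b.1 : ℤ) - (b.2.1 : ℤ))

/-- the boxes on the `d`-th diagonal slice `i - j = d`. -/
def slice (d : ℤ) (π : Finset Box) : Finset Box :=
  π.filter fun b => (b.1 : ℤ) - (b.2.1 : ℤ) = d

/-- `C_d(u) = ∑_{(i,j,l) ∈ π, i-j=d} u^{l-j}` (used for `d ≥ 0`, where `l - j` is the content). -/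
def Cd (u : Rˣ) (d : ℕ) (π : Finset Box) : R :=
  ∑ b ∈ slice d π, ((u ^ ((b.2.2 : ℤ) - (b.2.1 : ℤ)) : Rˣ) : R)

/-- `Φ(π) = ∑_{(i,j,l) ∈ π} φ(i-j)`. -/
def Phi (φ : ℤ → R) (π : Finset Box) : R := ∑ b ∈ π, φ ((b.1 : ℤ) - (b.2.1 : ℤ))

/-- sum of a sequence of power series whose `k`-th term is divisible by `X^k`. -/
def psum (f : ℕ → R⟦X⟧) : R⟦X⟧ :=
  PowerSeries.mk fun n => PowerSeries.coeff n (∑ k ∈ Finset.range (n + 1), f k)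

variable (R) in
/-- `u_k = 1/(1-X^k) = ∑_{k ∣ n} X^n` (`k ≥ 1`). -/
def uu (k : ℕ) : R⟦X⟧ := PowerSeries.mk fun n => if k ∣ n then 1 else 0

/-- `M(d,e) = max(d,e)` for `e ≥ 0` and `d + |e|` for `e < 0`. -/
def Mde (d : ℕ) (e : ℤ) : ℕ := if 0 ≤ e then max d e.toNat else d + (-e).toNat

/-- `W_d(k) = ∑_e φ(e) X^{k M(d,e)}` (`k ≥ 1`). -/
def WW (φ : ℤ → R) (d k : ℕ) : R⟦X⟧ :=
  PowerSeries.mk fun n => ∑ e ∈ Finset.Icc (-(n : ℤ)) n, if k * Mde d e = n then φ e else 0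

end gen

/-! ## Covariances over `ℚ` -/

/-- `E[f] = ∑_π f(π) q^{|π|} / ∑_π q^{|π|}`. -/
def EE (f : Finset Box → ℚ) : ℚ⟦X⟧ := gen f * (gen fun _ => (1 : ℚ))⁻¹

/-- `cov(f,g) = E[fg] - E[f]E[g]`. -/
def cov (f g : Finset Box → ℚ) : ℚ⟦X⟧ := EE (fun π => f π * g π) - EE f * EE g

/-- `∑_box (i-j)^r`. -/
def Ar (r : ℕ) (π : Finset Box) : ℚ := ∑ b ∈ π, ((b.1 : ℚ) - b.2.1) ^ r

/-- `∑_box (2l-i-j)²`. -/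
def M2 (π : Finset Box) : ℚ := ∑ b ∈ π, (2 * (b.2.2 : ℚ) - b.1 - b.2.1) ^ 2

/-- `∑_box (i-j)² (2l-i-j)²`. -/
def AM (π : Finset Box) : ℚ :=
  ∑ b ∈ π, ((b.1 : ℚ) - b.2.1) ^ 2 * (2 * (b.2.2 : ℚ) - b.1 - b.2.1) ^ 2

/-- The series `F0 = -3 cov(A2,A4) + 6 cov(A2,AM) - cov(A4,M2)`. -/
def F0 : ℚ⟦X⟧ := (-3 : ℚ) • cov (Ar 2) (Ar 4) + (6 : ℚ) • cov (Ar 2) AM - cov (Ar 4) M2

/-- `P_r(d) = ∑_{box, i-j=d} (l-j)^r`, `d ≥ 0`. -/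
def Pr (r d : ℕ) (π : Finset Box) : ℚ := ∑ b ∈ slice d π, ((b.2.2 : ℚ) - b.2.1) ^ r

/-! ## Closed form -/

/-- `c_j = u_j - 1/2`. -/
def cc (j : ℕ) : ℚ⟦X⟧ := uu ℚ j - PowerSeries.C (1 / 2 : ℚ)

/-- `H_k = ∑_{1 ≤ j < k} c_j`. -/
def HH (k : ℕ) : ℚ⟦X⟧ := ∑ j ∈ Finset.Ico 1 k, cc j

/-- `E2_k = ∑_{1 ≤ i < j < k} c_i c_j`. -/
def EE2 (k : ℕ) : ℚ⟦X⟧ := ∑ j ∈ Finset.Ico 1 k, cc j * HH j

/-- `Li_j(m) = ∑_{d ≥ 1} d^j X^{md}` (`m ≥ 1`). -/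
def Li (j m : ℕ) : ℚ⟦X⟧ :=
  PowerSeries.mk fun n => if n ≠ 0 ∧ m ∣ n then ((n / m : ℕ) : ℚ) ^ j else 0

/-- `R0(k,m)`. -/
def R0 (k m : ℕ) : ℚ⟦X⟧ :=
  (18 / 5 : ℚ) • Li 5 m + (4 / 3 : ℚ) • Li 3 m + (1 / 15 : ℚ) • Li 1 m +
    (10 : ℚ) • (cc k * Li 4 m) + (16 : ℚ) • (Li 1 k * Li 3 m) + (12 : ℚ) • (Li 2 k * Li 2 m) -
    (8 : ℚ) • (Li 3 k * Li 1 m) - (4 : ℚ) • (Li 4 k * cc m)

/-- `R1(k,m)`. -/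
def R1 (k m : ℕ) : ℚ⟦X⟧ :=
  (18 / 5 : ℚ) • Li 6 m + (4 / 3 : ℚ) • Li 4 m + (1 / 15 : ℚ) • Li 2 m +
    (10 : ℚ) • (cc k * Li 5 m) + (16 : ℚ) • (Li 1 k * Li 4 m) + (12 : ℚ) • (Li 2 k * Li 3 m) -
    (8 : ℚ) • (Li 3 k * Li 2 m) - (4 : ℚ) • (Li 4 k * Li 1 m)

/-- `R2(k)`. -/
def R2 (k : ℕ) : ℚ⟦X⟧ :=
  (8 / 5 : ℚ) • Li 7 k + (1 / 3 : ℚ) • Li 5 k + (1 / 15 : ℚ) • Li 3 k +
    (4 : ℚ) • (cc k * Li 6 k) + (4 : ℚ) • (Li 1 k * Li 5 k) -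
    (8 : ℚ) • (Li 3 k * Li 3 k) - (4 : ℚ) • (Li 4 k * Li 2 k)

/-- first kind of terms of the closed form. -/
def FA (k : ℕ) : ℚ⟦X⟧ :=
  (k : ℚ) • (X ^ k * uu ℚ k ^ 2 *
    ((((k : ℚ) - 1) * ((k : ℚ) + 4) / 3) • R0 k k + (8 : ℚ) • (EE2 k * R0 k k) -
      (4 : ℚ) • (HH k * R1 k k) + R2 k))

/-- second kind of terms of the closed form. -/
def FB (k n : ℕ) : ℚ⟦X⟧ :=
  (k : ℚ) • (X ^ (k + n) * uu ℚ k * uu ℚ n * uu ℚ (n + k) *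
    ((8 : ℚ) • ((HH n + HH (n + k)) * R0 k (n + k)) - (4 : ℚ) • R1 k (n + k)))

/-- The closed form of `F0`:
`∑_{k ≥ 1} FA k + ∑_{k,n ≥ 1} FB k n`. -/
def F0cl : ℚ⟦X⟧ :=
  PowerSeries.mk fun N => PowerSeries.coeff N
    (∑ k ∈ Finset.Icc 1 N, FA k + ∑ k ∈ Finset.Icc 1 N, ∑ n ∈ Finset.Icc 1 N, FB k n)

/-! ## The algebra of derivatives of odd Eisenstein-type series -/

/-- `G_{a,l} = ∑_n n^l σ_{s-1}(n) q^n = (q d/dq)^l G_s`, `s = 2a+3`. -/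
def GG (i : ℕ × ℕ) : ℚ⟦X⟧ :=
  PowerSeries.mk fun n => (n : ℚ) ^ i.2 * ∑ d ∈ n.divisors, (d : ℚ) ^ (2 * i.1 + 2)

/-- the weight of the variable `(a,l)`: `s + 2l = 2a+3+2l`. -/
def wG (i : ℕ × ℕ) : ℕ := 2 * i.1 + 3 + 2 * i.2

end

end Pool.Agent.H946.Z
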