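import Pool.Agent.H946.Z.Basic
set_option autoImplicit false

/-!
# MP_d9449f_ag : determinants `det (y_i ^ (λ_j + N-1-j))`

Scaling, one variable multiplied by `u`, and column telescoping (up-steps).
-/

namespace Pool.Agent.H946.Z

open PowerSeries

namespace Det1

variable {S : Type} [CommRing S]

theorem sum_rev (N : ℕ) : ∑ j : Fin N, (N - 1 - (j : ℕ)) = N * (N - 1) / 2 := by
  rw [Fin.sum_univ_eq_sum_range (fun j => N - 1 - j) N, Finset.sum_range_reflect (fun j => j) N,
    Finset.sum_range_id]

/-- multilinearity in the columns. -/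
theorem det_sum {N : ℕ} (A : Fin N → Finset ℕ) (g : Fin N → ℕ → Fin N → S) :
    Matrix.det (Matrix.of fun i j : Fin N => ∑ p ∈ A j, g j p i) =
      ∑ μ ∈ Fintype.piFinset A, Matrix.det (Matrix.of fun i j : Fin N => g j (μ j) i) := by
  classical
  have h := (Matrix.detRowAlternating (n := Fin N) (R := S)).toMultilinearMap.map_sum_finset
    (fun j p => g j p) A
  rw [← Matrix.det_transpose]
  have e1 : Matrix.det (Matrix.transpose (Matrix.of fun i j : Fin N => ∑ p ∈ A j, g j p i)) =
      (Matrix.detRowAlternating (n := Fin N) (R := S)).toMultilinearMap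
        (fun j => ∑ p ∈ A j, g j p) := by
    change Matrix.det _ = Matrix.det _
    congr 1
    ext j i
    simp [Matrix.transpose_apply, Finset.sum_apply]
  rw [e1, h]
  refine Finset.sum_congr rfl fun μ _ => ?_
  rw [← Matrix.det_transpose]
  rfl

/-- telescoping of the columns. -/
theorem det_tel {n : ℕ} (c : Fin (n + 1) → Fin (n + 1) → S) :
    Matrix.det (Matrix.of fun i j : Fin (n + 1) =>
      Fin.cases (motive := fun _ => S) (c i 0) (fun j => c i j.succ - c i j.castSucc) j) =
      Matrix.det (Matrix.of c) := by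
  symm
  refine Matrix.det_eq_of_forall_col_eq_smul_add_pred (fun _ => 1) ?_ ?_
  · intro i
    simp
  · intro i j
    simp

end Det1

theorem detE : S_E := by
  intro S _ N u b lam
  classical
  unfold Dt
  simp only [Matrix.det_apply', Matrix.of_apply]
  rw [Finset.sum_comm, Finset.mul_sum]
  refine Finset.sum_congr rfl fun σ _ => ?_
  have h : ∀ i : Fin N, (∏ j : Fin N, (Function.update b i (u * b i)) (σ j) ^
      (lam j + (N - 1 - (j : ℕ)))) = u ^ (lam (σ⁻¹ i) + (N - 1 - ((σ⁻¹ i : Fin N) : ℕ))) *
        ∏ j : Fin N, b (σ j) ^ (lam j + (N - 1 - (j : ℕ))) := by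
    intro i
    have h1 : ∀ j : Fin N, (Function.update b i (u * b i)) (σ j) ^ (lam j + (N - 1 - (j : ℕ)))
        = (if j = σ⁻¹ i then u ^ (lam j + (N - 1 - (j : ℕ))) else 1) *
          b (σ j) ^ (lam j + (N - 1 - (j : ℕ))) := by
      intro j
      by_cases hj : j = σ⁻¹ i
      · have hj' : σ j = i := by rw [hj]; simp
        rw [if_pos hj, hj', Function.update_self, mul_pow]
      · have hj' : σ j ≠ i := by
          intro h2
          apply hj
          rw [← h2]
          simp
        rw [if_neg hj, Function.update_of_ne hj', one_mul]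
    rw [Finset.prod_congr rfl fun j _ => h1 j, Finset.prod_mul_distrib, Finset.prod_ite_eq']
    simp
  simp_rw [h]
  rw [← Finset.mul_sum, ← Finset.sum_mul]
  rw [Equiv.sum_comp σ⁻¹ (fun i : Fin N => u ^ (lam i + (N - 1 - (i : ℕ))))]
  ring

theorem scale : S_scale := by
  intro S _ N x y lam
  unfold Dt
  have h1 : (Matrix.of fun i j : Fin N => (x * y i) ^ (lam j + (N - 1 - (j : ℕ)))) =
      Matrix.of fun i j : Fin N => x ^ (lam j + (N - 1 - (j : ℕ))) *
        (Matrix.of fun i j : Fin N => y i ^ (lam j + (N - 1 - (j : ℕ)))) i j := by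
    ext i j
    simp [mul_pow]
  rw [h1, Matrix.det_mul_row]
  congr 1
  rw [Finset.prod_pow_eq_pow_sum, Finset.sum_add_distrib, Det1.sum_rev]

theorem detK : S_K := by
  intro R _ N T y lam hlam hy
  classical
  rcases N with _ | n
  · -- `N = 0`
    have h1 : (upSet T lam) = {lam} := by
      ext μ
      simp only [Finset.mem_singleton]
      constructor
      · intro _
        exact Subsingleton.elim _ _
      · rintro rfl
        unfold upSet
        rw [Fintype.mem_piFinset]
        intro a
        exact a.elim0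
    rw [h1, Finset.sum_singleton]
    simp
  by_cases hT : lam 0 ≤ T
  · have hup : ∀ j : Fin (n + 1), lam j ≤
        (if h : (j : ℕ) = 0 then T else lam ⟨(j : ℕ) - 1, by omega⟩) := by
      intro j
      by_cases h : (j : ℕ) = 0
      · rw [dif_pos h]
        have : j = 0 := Fin.ext h
        rw [this]
        exact hT
      · rw [dif_neg h]
        apply hlam
        rw [Fin.le_def]
        simp
    set up : Fin (n + 1) → ℕ := fun j =>
      (if h : (j : ℕ) = 0 then T else lam ⟨(j : ℕ) - 1, by omega⟩) with hupdef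
    have hsum : (∑ μ ∈ upSet T lam, Dt y μ) = Matrix.det (Matrix.of fun i j : Fin (n + 1) =>
        ∑ p ∈ Finset.Icc (lam j) (up j), y i ^ (p + (n + 1 - 1 - (j : ℕ)))) := by
      rw [Det1.det_sum (fun j => Finset.Icc (lam j) (up j))
        (fun j p i => y i ^ (p + (n + 1 - 1 - (j : ℕ))))]
      rfl
    have hgeom : ∀ (i j : Fin (n + 1)), (1 - y i) *
        ∑ p ∈ Finset.Icc (lam j) (up j), y i ^ (p + (n + 1 - 1 - (j : ℕ))) =
        y i ^ (lam j + (n + 1 - 1 - (j : ℕ))) - y i ^ (up j + 1 + (n + 1 - 1 - (j : ℕ))) := by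
      intro i j
      have hle : lam j ≤ up j + 1 := (hup j).trans (Nat.le_succ _)
      have hIcc : Finset.Icc (lam j) (up j) = Finset.Ico (lam j) (up j + 1) := by
        ext p
        simp only [Finset.mem_Icc, Finset.mem_Ico]
        omega
      rw [hIcc]
      have h2 : ∑ p ∈ Finset.Ico (lam j) (up j + 1), y i ^ (p + (n + 1 - 1 - (j : ℕ))) =
          y i ^ (n + 1 - 1 - (j : ℕ)) * ∑ p ∈ Finset.Ico (lam j) (up j + 1), y i ^ p := by
        rw [Finset.mul_sum]
        refine Finset.sum_congr rfl fun p _ => ?_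
        rw [pow_add]
        ring
      rw [h2, pow_add, pow_add]
      have h3 := geom_sum_Ico_mul_neg (y i) hle
      linear_combination (y i ^ (n + 1 - 1 - (j : ℕ))) * h3
    have hprod : (∏ i, (1 - y i)) * (∑ μ ∈ upSet T lam, Dt y μ) =
        Matrix.det (Matrix.of fun i j : Fin (n + 1) => y i ^ (lam j + (n + 1 - 1 - (j : ℕ))) -
          y i ^ (up j + 1 + (n + 1 - 1 - (j : ℕ)))) := by
      rw [hsum, ← Matrix.det_mul_column]
      refine congrArg Matrix.det (Matrix.ext fun i j => ?_)
      simp only [Matrix.of_apply]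
      exact hgeom i j
    rw [hprod]
    rw [← Ideal.mem_span_singleton, ← Ideal.Quotient.eq]
    unfold Dt
    rw [RingHom.map_det, RingHom.map_det]
    rw [show ((Ideal.Quotient.mk (Ideal.span {(X : R⟦X⟧) ^ T})).mapMatrix
        (Matrix.of fun i j : Fin (n + 1) => y i ^ (lam j + (n + 1 - 1 - (j : ℕ))))) =
        Matrix.of (fun i j : Fin (n + 1) => (Ideal.Quotient.mk (Ideal.span {(X : R⟦X⟧) ^ T}))
          (y i ^ (lam j + (n + 1 - 1 - (j : ℕ))))) from rfl]
    rw [← Det1.det_tel]
    refine congrArg Matrix.det (Matrix.ext fun i j => ?_)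
    simp only [RingHom.mapMatrix_apply, Matrix.map_apply, Matrix.of_apply]
    refine Fin.cases ?_ (fun j => ?_) j
    · simp only [Fin.cases_zero]
      rw [map_sub]
      have hz : (Ideal.Quotient.mk (Ideal.span {(X : R⟦X⟧) ^ T}))
          (y i ^ (up 0 + 1 + (n + 1 - 1 - ((0 : Fin (n + 1)) : ℕ)))) = 0 := by
        rw [Ideal.Quotient.eq_zero_iff_mem, Ideal.mem_span_singleton]
        have hu0 : up 0 = T := by simp [hupdef]
        rw [hu0]
        exact (pow_dvd_pow _ (by omega)).trans (pow_dvd_pow_of_dvd (hy i) _)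
      rw [hz, sub_zero]
    · simp only [Fin.cases_succ]
      rw [map_sub]
      congr 2
      have hu1 : up j.succ = lam j.castSucc := by
        simp only [hupdef]
        rw [dif_neg (by simp)]
        rfl
      rw [hu1]
      congr 1
      simp only [Fin.val_succ, Fin.val_castSucc]
      have := j.2
      omega
  · -- `lam 0 > T`
    have h1 : (upSet T lam) = ∅ := by
      rw [Finset.eq_empty_iff_forall_notMem]
      intro μ hμ
      unfold upSet at hμ
      rw [Fintype.mem_piFinset] at hμ
      have h2 := hμ 0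
      rw [Finset.mem_Icc] at h2
      simp at h2
      omega
    rw [h1, Finset.sum_empty, mul_zero, zero_sub, dvd_neg]
    unfold Dt
    rw [Matrix.det_apply']
    refine Finset.dvd_sum fun σ _ => ?_
    refine Dvd.dvd.mul_left ?_ _
    refine Dvd.dvd.trans ?_ (Finset.dvd_prod_of_mem _ (Finset.mem_univ (0 : Fin (n + 1))))
    simp only [Matrix.of_apply]
    exact (pow_dvd_pow _ (by omega)).trans (pow_dvd_pow_of_dvd (hy _) _)

end Pool.Agent.H946.Z
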