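import Pool.Agent.H946.Z.Basic
set_option autoImplicit false

/-!
# MP_d9449f_ag : Gelfand-Tsetlin sums as determinants (column telescoping, down-steps)
-/

namespace Pool.Agent.H946.Z

open PowerSeries

namespace Det2

/-- multilinearity of the determinant in the columns, for finite sums. -/
theorem det_sum_col {S : Type} [CommRing S] {k : ℕ} (s : Fin k → Finset ℕ)
    (g : Fin k → Fin k → ℕ → S) :
    Matrix.det (Matrix.of fun i j : Fin k => ∑ p ∈ s j, g i j p) =
      ∑ μ ∈ Fintype.piFinset s, Matrix.det (Matrix.of fun i j : Fin k => g i j (μ j)) := by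
  classical
  rw [← Matrix.det_transpose]
  have h := (Matrix.detRowAlternating (R := S) (n := Fin k)).toMultilinearMap.map_sum_finset
    (fun j p => (fun i => g i j p : Fin k → S)) s
  have e1 : (Matrix.of fun i j : Fin k => ∑ p ∈ s j, g i j p).transpose =
      (fun j => ∑ p ∈ s j, (fun i => g i j p : Fin k → S)) := by
    ext j i
    simp [Matrix.transpose_apply, Finset.sum_apply]
  have h1 : Matrix.det ((Matrix.of fun i j : Fin k => ∑ p ∈ s j, g i j p).transpose) =
      (Matrix.detRowAlternating (R := S) (n := Fin k)).toMultilinearMap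
        (fun j => ∑ p ∈ s j, (fun i => g i j p : Fin k → S)) := by
    rw [e1]; rfl
  rw [h1, h]
  refine Finset.sum_congr rfl fun μ _ => ?_
  rw [← Matrix.det_transpose (Matrix.of fun i j : Fin k => g i j (μ j))]
  rfl

theorem geom {S : Type} [CommRing S] (y : S) (a b m : ℕ) (h : a ≤ b) :
    y ^ (b + (m + 1)) - y ^ (a + m) = (y - 1) * ∑ p ∈ Finset.Icc a b, y ^ (p + m) := by
  induction b, h using Nat.le_induction with
  | base => simp; ring
  | succ n hn ih =>
    rw [Finset.sum_Icc_succ_top (by omega), mul_add, ← ih]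
    ring

/-- column telescoping for a matrix whose last row is constant `1`. -/
theorem det_last_row {S : Type} [CommRing S] {k : ℕ}
    (M : Matrix (Fin (k + 1)) (Fin (k + 1)) S) (hM : ∀ j, M (Fin.last k) j = 1) :
    M.det = Matrix.det (Matrix.of fun i j : Fin k =>
      M i.castSucc j.castSucc - M i.castSucc j.succ) := by
  classical
  set A : Matrix (Fin (k + 1)) (Fin (k + 1)) S := M.submatrix Fin.revPerm Fin.revPerm with hA
  have h1 : M.det = A.det := (Matrix.det_submatrix_equiv_self _ _).symm
  set B : Matrix (Fin (k + 1)) (Fin (k + 1)) S :=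
    Matrix.of fun i j => Fin.cases (motive := fun _ => S) (A i 0)
      (fun j' => A i j'.succ - A i j'.castSucc) j with hB
  have h2 : A.det = B.det := by
    refine Matrix.det_eq_of_forall_col_eq_smul_add_pred (fun _ => 1) ?_ ?_
    · intro i; simp [hB]
    · intro i j; simp [hB]
  have h3 : B.det = (B.submatrix Fin.succ Fin.succ).det := by
    rw [Matrix.det_succ_row_zero, Fin.sum_univ_succ]
    have hz : ∀ j : Fin k, B 0 j.succ = 0 := by
      intro j
      simp [hB, hA, hM]
    have h0 : B 0 0 = 1 := by simp [hB, hA, hM]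
    rw [Finset.sum_eq_zero (fun j _ => by rw [hz j]; simp), h0]
    simp
  have h4 : (B.submatrix Fin.succ Fin.succ) = (Matrix.of fun i j : Fin k =>
      M i.castSucc j.castSucc - M i.castSucc j.succ).submatrix Fin.revPerm Fin.revPerm := by
    ext i j
    simp [hB, hA, Fin.rev_succ, Fin.rev_castSucc]
  rw [h1, h2, h3, h4, Matrix.det_submatrix_equiv_self]

theorem downSet_antitone {k : ℕ} {lam : Fin (k + 1) → ℕ} (hl : Antitone lam) {μ : Fin k → ℕ}
    (hμ : μ ∈ downSet lam) : Antitone μ := by
  unfold downSet at hμ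
  rw [Fintype.mem_piFinset] at hμ
  intro i j hij
  rcases eq_or_lt_of_le hij with rfl | hlt
  · exact le_rfl
  · have h1 := (Finset.mem_Icc.1 (hμ j)).2
    have h2 := (Finset.mem_Icc.1 (hμ i)).1
    have h3 : lam j.castSucc ≤ lam i.succ := by
      apply hl
      have h4 : (i : ℕ) < (j : ℕ) := hlt
      show ((i.succ : Fin (k + 1)) : ℕ) ≤ ((j.castSucc : Fin (k + 1)) : ℕ)
      rw [Fin.val_succ, Fin.val_castSucc]
      omega
    omega

end Det2

open Det2

theorem detB : S_B := by
  intro S _ k y lam hl
  classical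
  unfold Dt
  rw [det_last_row _ (fun j => by simp)]
  have h1 : (Matrix.of fun i j : Fin k =>
      (Matrix.of fun i j : Fin (k + 1) =>
        (Fin.snoc (α := fun _ => S) y 1 : Fin (k + 1) → S) i ^
          (lam j + (k + 1 - 1 - (j : ℕ)))) i.castSucc j.castSucc -
      (Matrix.of fun i j : Fin (k + 1) =>
        (Fin.snoc (α := fun _ => S) y 1 : Fin (k + 1) → S) i ^
          (lam j + (k + 1 - 1 - (j : ℕ)))) i.castSucc j.succ) =
      Matrix.of fun i j : Fin k => (y i - 1) *
        (Matrix.of fun i j : Fin k => ∑ p ∈ Finset.Icc (lam j.succ) (lam j.castSucc),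
          y i ^ (p + (k - 1 - (j : ℕ)))) i j := by
    ext i j
    have hj := j.isLt
    simp only [Matrix.of_apply, Fin.snoc_castSucc, Fin.val_castSucc, Fin.val_succ]
    rw [← geom (y i) _ _ (k - 1 - (j : ℕ)) (hl (Fin.castSucc_le_succ j))]
    congr 2 <;> · congr 1; omega
  rw [h1, Matrix.det_mul_column, det_sum_col (fun j => Finset.Icc (lam j.succ) (lam j.castSucc))
    (fun i j p => y i ^ (p + (k - 1 - (j : ℕ))))]
  rfl

theorem detGT (hs : S_scale) : S_GT := by
  intro S _ k
  induction k with
  | zero =>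
    intro x lam _
    simp [Dt, kap, GT]
  | succ k ih =>
    intro x lam hl
    have e : bv (k + 1) x = Fin.snoc (α := fun _ => S)
        (fun i => x 0 * bv k (fun i => x (i + 1)) i) 1 := rfl
    rw [e, detB S k _ lam hl]
    have e2 : kap (k + 1) x = (∏ i : Fin k, (x 0 * bv k (fun i => x (i + 1)) i - 1)) *
      x 0 ^ (k * (k - 1) / 2) * kap k (fun i => x (i + 1)) := rfl
    have e3 : GT (k + 1) x lam = ∑ μ ∈ downSet lam, x 0 ^ (∑ j : Fin k, μ j : ℕ) *
      GT k (fun i => x (i + 1)) μ := rfl
    rw [e2, e3, mul_assoc, mul_assoc]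
    congr 1
    rw [Finset.mul_sum, Finset.mul_sum]
    refine Finset.sum_congr rfl fun μ hμ => ?_
    rw [hs S k (x 0) (bv k fun i => x (i + 1)) μ, ih (fun i => x (i + 1)) μ
      (downSet_antitone hl hμ), pow_add]
    ring

end Pool.Agent.H946.Z
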