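import Pool.Agent.H946.Z.Basic
set_option autoImplicit false

/-!
# MP_d9449f_ag : bounds of the error term (by helper282)
-/

namespace Pool.Agent.H946.Z

namespace Err

open Filter Topology

/-- real zeta values -/
noncomputable def Zr (s : ℕ) : ℝ := ∑' J : ℕ, (((J : ℝ) + 1) ^ s)⁻¹

theorem summ_Zr {s : ℕ} (hs : 2 ≤ s) : Summable fun J : ℕ => (((J : ℝ) + 1) ^ s)⁻¹ := by
  have h := (summable_nat_add_iff 1).2 (Real.summable_nat_pow_inv.2 (show 1 < s by omega))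
  simpa using h

theorem Zr_nonneg (s : ℕ) : 0 ≤ Zr s := tsum_nonneg fun J => by positivity

theorem tel {A : ℝ} (hA : 0 < A) :
    HasSum (fun n : ℕ => 1 / (A + n) - 1 / (A + n + 1)) (1 / A) := by
  rw [hasSum_iff_tendsto_nat_of_nonneg]
  · have h1 : ∀ n : ℕ, ∑ i ∈ Finset.range n, (1 / (A + i) - 1 / (A + i + 1)) =
        1 / A - 1 / (A + n) := by
      intro n
      have := Finset.sum_range_sub' (fun i : ℕ => 1 / (A + i)) n
      simp only [Nat.cast_add, Nat.cast_one, Nat.cast_zero, add_zero, ← add_assoc] at this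
      exact this
    simp only [h1]
    have h2 : Tendsto (fun n : ℕ => 1 / (A + n)) atTop (𝓝 0) := by
      simp only [one_div]
      exact (tendsto_atTop_add_const_left _ A tendsto_natCast_atTop_atTop).inv_tendsto_atTop
    simpa using h2.const_sub (1 / A)
  · intro n
    have : 0 < A + n := by positivity
    rw [sub_nonneg]
    exact one_div_le_one_div_of_le this (by linarith)

/-- the telescoping majorant -/
noncomputable def maj (a m : ℕ) (X : ℝ) (p : ℕ × ℕ) : ℝ :=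
  ((p.1 : ℝ) + 1) ^ m * ((((p.1 : ℝ) + 1) * X) ^ (2 * a + 1 + m))⁻¹ *
    (1 / (((p.1 : ℝ) + 1) * X + p.2) - 1 / (((p.1 : ℝ) + 1) * X + p.2 + 1))

theorem maj_nonneg {a m : ℕ} {X : ℝ} (hX : 0 < X) (p : ℕ × ℕ) : 0 ≤ maj a m X p := by
  unfold maj
  have h1 : 0 < ((p.1 : ℝ) + 1) * X := by positivity
  have h2 : 0 ≤ 1 / (((p.1 : ℝ) + 1) * X + p.2) - 1 / (((p.1 : ℝ) + 1) * X + p.2 + 1) := by
    rw [sub_nonneg]
    exact one_div_le_one_div_of_le (by positivity) (by linarith)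
  positivity

theorem maj_hasSum_fib {a m : ℕ} {X : ℝ} (hX : 0 < X) (J : ℕ) :
    HasSum (fun n : ℕ => maj a m X (J, n))
      ((((J : ℝ) + 1) ^ (2 * a + 2))⁻¹ * (X ^ (2 * a + 2 + m))⁻¹) := by
  have h1 : 0 < ((J : ℝ) + 1) * X := by positivity
  have h2 := (tel h1).mul_left (((J : ℝ) + 1) ^ m * ((((J : ℝ) + 1) * X) ^ (2 * a + 1 + m))⁻¹)
  have h3 : (((J : ℝ) + 1) ^ (2 * a + 2))⁻¹ * (X ^ (2 * a + 2 + m))⁻¹ =
      ((J : ℝ) + 1) ^ m * ((((J : ℝ) + 1) * X) ^ (2 * a + 1 + m))⁻¹ * (1 / (((J : ℝ) + 1) * X)) := by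
    have hJ : ((J : ℝ) + 1) ≠ 0 := by positivity
    have hX' := hX.ne'
    rw [mul_pow]
    generalize ((J : ℝ) + 1) = u at hJ
    field_simp
    ring
  rw [h3]
  exact h2

theorem maj_summ {a m : ℕ} {X : ℝ} (hX : 0 < X) : Summable (maj a m X) := by
  rw [summable_prod_of_nonneg fun p => maj_nonneg hX p]
  refine ⟨fun J => (maj_hasSum_fib hX J).summable, ?_⟩
  have : (fun J : ℕ => ∑' n : ℕ, maj a m X (J, n)) = fun J : ℕ =>
      (((J : ℝ) + 1) ^ (2 * a + 2))⁻¹ * (X ^ (2 * a + 2 + m))⁻¹ := by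
    funext J
    exact (maj_hasSum_fib hX J).tsum_eq
  rw [this]
  exact (summ_Zr (by omega)).mul_right _

theorem maj_tsum {a m : ℕ} {X : ℝ} (hX : 0 < X) :
    ∑' p, maj a m X p = Zr (2 * a + 2) * (X ^ (2 * a + 2 + m))⁻¹ := by
  rw [(maj_summ hX).tsum_prod]
  have : (fun J : ℕ => ∑' n : ℕ, maj a m X (J, n)) = fun J : ℕ =>
      (((J : ℝ) + 1) ^ (2 * a + 2))⁻¹ * (X ^ (2 * a + 2 + m))⁻¹ := by
    funext J
    exact (maj_hasSum_fib hX J).tsum_eq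
  rw [this, tsum_mul_right]
  rfl

theorem re_w (z : ℂ) (J n : ℕ) : ((((J : ℂ) + 1) * z + ((n : ℂ) + 1))).re =
    ((J : ℝ) + 1) * z.re + (n + 1) := by
  have h1 : ((J : ℂ) + 1) = (((J : ℝ) + 1 : ℝ) : ℂ) := by push_cast; ring
  have h2 : ((n : ℂ) + 1) = (((n : ℝ) + 1 : ℝ) : ℂ) := by push_cast; ring
  rw [h1, h2, Complex.add_re, Complex.re_ofReal_mul, Complex.ofReal_re]

theorem im_w (z : ℂ) (J n : ℕ) : ((((J : ℂ) + 1) * z + ((n : ℂ) + 1))).im =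
    ((J : ℝ) + 1) * z.im := by
  have h1 : ((J : ℂ) + 1) = (((J : ℝ) + 1 : ℝ) : ℂ) := by push_cast; ring
  have h2 : ((n : ℂ) + 1) = (((n : ℝ) + 1 : ℝ) : ℂ) := by push_cast; ring
  rw [h1, h2, Complex.add_im, Complex.im_ofReal_mul, Complex.ofReal_im, add_zero]

theorem norm_J (J : ℕ) : ‖((J : ℂ) + 1)‖ = (J : ℝ) + 1 := by
  have h1 : ((J : ℂ) + 1) = (((J : ℝ) + 1 : ℝ) : ℂ) := by push_cast; ring
  rw [h1, Complex.norm_real, Real.norm_of_nonneg (by positivity)]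

theorem term2_le {a m : ℕ} {z : ℂ} (hX : 0 < z.re) (p : ℕ × ℕ) :
    ‖((p.1 : ℂ) + 1) ^ m *
      ((((p.1 : ℂ) + 1) * z + ((p.2 : ℂ) + 1)) ^ (2 * a + 3 + m))⁻¹‖ ≤ maj a m z.re p := by
  obtain ⟨J, n⟩ := p
  have hA : 0 < ((J : ℝ) + 1) * z.re := by positivity
  rw [norm_mul, norm_pow, norm_J, norm_inv, norm_pow]
  unfold maj
  simp only
  rw [mul_assoc]
  refine mul_le_mul_of_nonneg_left ?_ (by positivity)
  set A : ℝ := ((J : ℝ) + 1) * z.re with hAdef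
  have h1 : A + (n + 1) ≤ ‖(((J : ℂ) + 1) * z + ((n : ℂ) + 1))‖ := by
    rw [hAdef, ← re_w]
    exact (le_abs_self _).trans (Complex.abs_re_le_norm _)
  have h2 : 0 < A + (n + 1) := by positivity
  have h3 : (‖(((J : ℂ) + 1) * z + ((n : ℂ) + 1))‖ ^ (2 * a + 3 + m))⁻¹ ≤
      ((A + (n + 1)) ^ (2 * a + 3 + m))⁻¹ := by
    gcongr
  refine h3.trans ?_
  have h4 : (A + (n + 1)) ^ (2 * a + 3 + m) = (A + (n + 1)) ^ (2 * a + 1 + m) * (A + (n + 1)) ^ 2 := by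
    rw [← pow_add]
    congr 1
    ring
  rw [h4, mul_inv]
  have h5 : ((A + (n + 1)) ^ (2 * a + 1 + m))⁻¹ ≤ (A ^ (2 * a + 1 + m))⁻¹ := by
    gcongr
    linarith
  have h6 : ((A + (n + 1)) ^ 2)⁻¹ ≤ 1 / (A + n) - 1 / (A + n + 1) := by
    have h7 : 0 < A + n := by positivity
    have h8 : 1 / (A + n) - 1 / (A + n + 1) = 1 / ((A + n) * (A + n + 1)) := by
      field_simp
      ring
    rw [h8, ← one_div]
    gcongr
    nlinarith
  exact mul_le_mul h5 h6 (by positivity) (by positivity)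

theorem B2 {a m : ℕ} {z : ℂ} (hX : 0 < z.re) :
    ‖∑' p : ℕ × ℕ, ((p.1 : ℂ) + 1) ^ m *
      ((((p.1 : ℂ) + 1) * z + ((p.2 : ℂ) + 1)) ^ (2 * a + 3 + m))⁻¹‖ ≤
      Zr (2 * a + 2) * (z.re ^ (2 * a + 2 + m))⁻¹ := by
  rw [← maj_tsum hX]
  exact tsum_of_norm_bounded (maj_summ hX).hasSum fun p => term2_le hX p

theorem B1 {a m : ℕ} {z : ℂ} (hX : 0 < z.re) :
    ‖∑' J : ℕ, ((J : ℂ) + 1) ^ m * ((((J : ℂ) + 1) * z) ^ (2 * a + 3 + m))⁻¹‖ ≤
      Zr (2 * a + 3) * (z.re ^ (2 * a + 3 + m))⁻¹ := by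
  have h1 : HasSum (fun J : ℕ => (((J : ℝ) + 1) ^ (2 * a + 3))⁻¹ * (z.re ^ (2 * a + 3 + m))⁻¹)
      (Zr (2 * a + 3) * (z.re ^ (2 * a + 3 + m))⁻¹) :=
    (summ_Zr (by omega)).hasSum.mul_right _
  refine tsum_of_norm_bounded h1 fun J => ?_
  rw [norm_mul, norm_pow, norm_J, norm_inv, norm_pow, norm_mul, norm_J]
  have hz : z.re ≤ ‖z‖ := (le_abs_self _).trans (Complex.abs_re_le_norm _)
  have hz0 : 0 < ‖z‖ := hX.trans_le hz
  have hJ : (0 : ℝ) < (J : ℝ) + 1 := by positivity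
  have h2 : ((J : ℝ) + 1) ^ m * ((((J : ℝ) + 1) * ‖z‖) ^ (2 * a + 3 + m))⁻¹ =
      (((J : ℝ) + 1) ^ (2 * a + 3))⁻¹ * (‖z‖ ^ (2 * a + 3 + m))⁻¹ := by
    have h3 := hJ.ne'
    have h4 := hz0.ne'
    rw [mul_pow]
    generalize ((J : ℝ) + 1) = u at h3
    generalize ‖z‖ = v at h4
    field_simp
    ring
  rw [h2]
  gcongr

/-- reduction to large `N` -/
theorem large (f : ℕ → ℝ) (m : ℕ) (h : ∃ (C : ℝ) (N₁ : ℕ), ∀ N : ℕ, N₁ ≤ N → 1 ≤ N →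
    f N ≤ C / (N : ℝ) ^ m) : ∃ C : ℝ, ∀ N : ℕ, 1 ≤ N → f N ≤ C / (N : ℝ) ^ m := by
  obtain ⟨C, N₁, h⟩ := h
  refine ⟨|C| + ∑ M ∈ Finset.range N₁, |f M| * (M : ℝ) ^ m, fun N hN => ?_⟩
  have hN0 : (0 : ℝ) < (N : ℝ) ^ m := by
    have : (0 : ℝ) < N := by exact_mod_cast hN
    positivity
  have hs : 0 ≤ ∑ M ∈ Finset.range N₁, |f M| * (M : ℝ) ^ m :=
    Finset.sum_nonneg fun M _ => by positivity
  by_cases h1 : N₁ ≤ N
  · refine (h N h1 hN).trans ?_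
    gcongr
    linarith [le_abs_self C]
  · rw [le_div_iff₀ hN0]
    have h2 : |f N| * (N : ℝ) ^ m ≤ ∑ M ∈ Finset.range N₁, |f M| * (M : ℝ) ^ m :=
      Finset.single_le_sum (f := fun M : ℕ => |f M| * (M : ℝ) ^ m)
        (fun M _ => by positivity) (Finset.mem_range.2 (not_le.1 h1))
    have h3 : f N * (N : ℝ) ^ m ≤ |f N| * (N : ℝ) ^ m := by
      gcongr
      exact le_abs_self _
    linarith [abs_nonneg C]

/-- the real part of `τ + N` -/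
theorem reN {τ : ℂ} {N : ℕ} (h : 2 * |τ.re| + 2 ≤ N) :
    (N : ℝ) / 2 ≤ (τ + N).re ∧ (τ + N).re ≤ 2 * N ∧ 1 ≤ (τ + N).re := by
  rw [Complex.add_re, Complex.natCast_re]
  have h1 := neg_abs_le τ.re
  have h2 := le_abs_self τ.re
  refine ⟨by linarith, by linarith [abs_nonneg τ.re], by linarith [abs_nonneg τ.re]⟩

end Err

open Err Filter Topology

theorem erUp : S_ErUp := by
  rintro ⟨a, l⟩ τ hτ
  refine large (fun N => ‖Er (τ + N) (a, l)‖) (2 * a + 2 + l) ?_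
  refine ⟨2 ^ l * ((Zr (2 * a + 3) + 2 * Zr (2 * a + 2)) * 2 ^ (2 * a + 2 + l)),
    ⌈2 * |τ.re| + 2⌉₊, fun N hN hN1 => ?_⟩
  obtain ⟨hX1, -, hX2⟩ := reN (τ := τ) (Nat.le_of_ceil_le hN)
  have hN0 : (0 : ℝ) < N := by exact_mod_cast hN1
  set z : ℂ := τ + N with hz
  have hX0 : 0 < z.re := by linarith
  have hzX : z.re ≤ ‖z‖ := (le_abs_self _).trans (Complex.abs_re_le_norm _)
  simp only [Er]
  have hZ1 := Zr_nonneg (2 * a + 3)
  have hZ2 := Zr_nonneg (2 * a + 2)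
  rw [norm_mul]
  have h1 : ‖-((-1 : ℂ) ^ l / (l.factorial : ℂ))‖ ≤ 1 := by
    rw [norm_neg, norm_div, norm_pow, norm_neg, norm_one, one_pow, Complex.norm_natCast]
    rw [div_le_one (by exact_mod_cast l.factorial_pos)]
    exact_mod_cast Nat.succ_le_of_lt l.factorial_pos
  have hbd : ∀ k ∈ Finset.range (l + 1), ‖(l.choose k : ℂ) * (-1) ^ k * (z ^ k)⁻¹ *
      (∑' J : ℕ, ((J : ℂ) + 1) ^ (l - k) * ((((J : ℂ) + 1) * z) ^ (2 * a + 3 + l - k))⁻¹ +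
        2 * ∑' p : ℕ × ℕ, ((p.1 : ℂ) + 1) ^ (l - k) *
          ((((p.1 : ℂ) + 1) * z + ((p.2 : ℂ) + 1)) ^ (2 * a + 3 + l - k))⁻¹)‖ ≤
      (l.choose k : ℝ) * ((Zr (2 * a + 3) + 2 * Zr (2 * a + 2)) * (z.re ^ (2 * a + 2 + l))⁻¹) := by
    intro k hk
    rw [Finset.mem_range] at hk
    obtain ⟨m, hm⟩ : ∃ m, l = k + m := ⟨l - k, by omega⟩
    have e1 : l - k = m := by omega
    have e2 : 2 * a + 3 + l - k = 2 * a + 3 + m := by omega
    rw [e1, e2]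
    rw [norm_mul, norm_mul, norm_mul, norm_pow, norm_neg, norm_one, one_pow, mul_one,
      Complex.norm_natCast, mul_assoc]
    refine mul_le_mul_of_nonneg_left ?_ (Nat.cast_nonneg _)
    have h2 := B1 (a := a) (m := m) hX0
    have h3 := B2 (a := a) (m := m) hX0
    have h4 : ‖(z ^ k)⁻¹‖ ≤ (z.re ^ k)⁻¹ := by
      rw [norm_inv, norm_pow]
      gcongr
    have h5 : ‖∑' J : ℕ, ((J : ℂ) + 1) ^ m * ((((J : ℂ) + 1) * z) ^ (2 * a + 3 + m))⁻¹ +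
        2 * ∑' p : ℕ × ℕ, ((p.1 : ℂ) + 1) ^ m *
          ((((p.1 : ℂ) + 1) * z + ((p.2 : ℂ) + 1)) ^ (2 * a + 3 + m))⁻¹‖ ≤
        (Zr (2 * a + 3) + 2 * Zr (2 * a + 2)) * (z.re ^ (2 * a + 2 + m))⁻¹ := by
      refine (norm_add_le _ _).trans ?_
      rw [norm_mul, Complex.norm_two]
      have h6 : (z.re ^ (2 * a + 3 + m))⁻¹ ≤ (z.re ^ (2 * a + 2 + m))⁻¹ :=
        inv_anti₀ (by positivity) (pow_le_pow_right₀ hX2 (by omega))
      have h7 : Zr (2 * a + 3) * (z.re ^ (2 * a + 3 + m))⁻¹ ≤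
          Zr (2 * a + 3) * (z.re ^ (2 * a + 2 + m))⁻¹ := mul_le_mul_of_nonneg_left h6 hZ1
      linarith
    refine (mul_le_mul h4 h5 (norm_nonneg _) (by positivity)).trans (le_of_eq ?_)
    rw [hm]
    have := hX0.ne'
    field_simp
    ring
  have h2 : ‖∑ k ∈ Finset.range (l + 1), (l.choose k : ℂ) * (-1) ^ k * (z ^ k)⁻¹ *
      (∑' J : ℕ, ((J : ℂ) + 1) ^ (l - k) * ((((J : ℂ) + 1) * z) ^ (2 * a + 3 + l - k))⁻¹ +
        2 * ∑' p : ℕ × ℕ, ((p.1 : ℂ) + 1) ^ (l - k) *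
          ((((p.1 : ℂ) + 1) * z + ((p.2 : ℂ) + 1)) ^ (2 * a + 3 + l - k))⁻¹)‖ ≤
      2 ^ l * ((Zr (2 * a + 3) + 2 * Zr (2 * a + 2)) * (z.re ^ (2 * a + 2 + l))⁻¹) := by
    refine (norm_sum_le_of_le _ hbd).trans (le_of_eq ?_)
    rw [← Finset.sum_mul]
    congr 1
    exact_mod_cast Nat.sum_range_choose l
  refine (mul_le_mul h1 h2 (norm_nonneg _) zero_le_one).trans ?_
  rw [one_mul, mul_div_assoc]
  refine mul_le_mul_of_nonneg_left ?_ (by positivity)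
  rw [mul_div_assoc]
  refine mul_le_mul_of_nonneg_left ?_ (by positivity)
  have h3 : (z.re ^ (2 * a + 2 + l))⁻¹ ≤ (((N : ℝ) / 2) ^ (2 * a + 2 + l))⁻¹ := by gcongr
  refine h3.trans (le_of_eq ?_)
  rw [div_pow, inv_div]

/-- positivity of the real part -/
theorem Err.pos_re (s : ℕ) : ∃ δ : ℝ, 0 < δ ∧ ∀ t : ℝ, |t| < δ →
    1 / 2 ≤ (((1 + (t : ℂ) * Complex.I) ^ s)⁻¹).re := by
  have hc : ContinuousAt (fun t : ℝ => (((1 + (t : ℂ) * Complex.I) ^ s)⁻¹).re) 0 := by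
    refine Complex.continuous_re.continuousAt.comp ?_
    refine ContinuousAt.inv₀ (by fun_prop) ?_
    simp
  have h0 : (((1 + ((0 : ℝ) : ℂ) * Complex.I) ^ s)⁻¹).re = 1 := by simp
  have h1 : ∀ᶠ t : ℝ in 𝓝 0, 1 / 2 < (((1 + (t : ℂ) * Complex.I) ^ s)⁻¹).re := by
    refine hc.eventually (lt_mem_nhds ?_)
    show 1 / 2 < (((1 + ((0 : ℝ) : ℂ) * Complex.I) ^ s)⁻¹).re
    rw [h0]
    norm_num
  obtain ⟨δ, hδ, h2⟩ := Metric.eventually_nhds_iff.1 h1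
  refine ⟨δ, hδ, fun t ht => (h2 ?_).le⟩
  rwa [Real.dist_eq, sub_zero]

theorem erLow : S_ErLow := by
  intro a τ hτ
  obtain ⟨δ, hδ, hpos⟩ := Err.pos_re (2 * a + 3)
  set c : ℝ := ((3 : ℝ) ^ (2 * a + 3))⁻¹ / 2 with hc
  have hc0 : 0 < c := by positivity
  refine ⟨c, hc0, ⌈2 * |τ.re| + 2⌉₊ + ⌈2 * τ.im / δ + 1⌉₊ +
    ⌈Zr (2 * a + 3) * 2 ^ (2 * a + 3) / c⌉₊, fun N hN => ?_⟩
  have hNa : 2 * |τ.re| + 2 ≤ N := Nat.le_of_ceil_le (by omega)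
  have hNb : 2 * τ.im / δ + 1 ≤ N := Nat.le_of_ceil_le (by omega)
  have hNc : Zr (2 * a + 3) * 2 ^ (2 * a + 3) / c ≤ N := Nat.le_of_ceil_le (by omega)
  obtain ⟨hX1, hX3, hX2⟩ := reN (τ := τ) hNa
  have hN0 : (0 : ℝ) < N := by linarith [abs_nonneg τ.re]
  have him : (τ + N).im = τ.im := by simp
  set z : ℂ := τ + N with hz
  have hX0 : 0 < z.re := by linarith
  have hEr : Er z (a, 0) = -((∑' J : ℕ, ((J : ℂ) + 1) ^ 0 *
      ((((J : ℂ) + 1) * z) ^ (2 * a + 3 + 0))⁻¹) + 2 * ∑' p : ℕ × ℕ, ((p.1 : ℂ) + 1) ^ 0 *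
          ((((p.1 : ℂ) + 1) * z + ((p.2 : ℂ) + 1)) ^ (2 * a + 3 + 0))⁻¹) := by
    simp [Er]
  have hA := B1 (a := a) (m := 0) hX0
  set A : ℂ := ∑' J : ℕ, ((J : ℂ) + 1) ^ 0 * ((((J : ℂ) + 1) * z) ^ (2 * a + 3 + 0))⁻¹
  set F : ℕ × ℕ → ℂ := fun p => ((p.1 : ℂ) + 1) ^ 0 *
    ((((p.1 : ℂ) + 1) * z + ((p.2 : ℂ) + 1)) ^ (2 * a + 3 + 0))⁻¹ with hF
  have hFs : Summable F := Summable.of_norm_bounded (maj_summ hX0) fun p => term2_le hX0 p
  have hFre : ∀ p : ℕ × ℕ, 1 / 2 * ((((p.1 : ℝ) + 1) * z.re + (p.2 + 1)) ^ (2 * a + 3))⁻¹ ≤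
      (F p).re := by
    rintro ⟨J, n⟩
    set P : ℝ := ((J : ℝ) + 1) * z.re + (n + 1) with hP
    have hP0 : 0 < P := by positivity
    set t : ℝ := ((J : ℝ) + 1) * z.im / P with ht
    have hw : (((J : ℂ) + 1) * z + ((n : ℂ) + 1)) = (P : ℂ) * (1 + (t : ℂ) * Complex.I) := by
      apply Complex.ext
      · rw [re_w, Complex.re_ofReal_mul]
        simp [hP]
      · rw [im_w, Complex.im_ofReal_mul]
        simp only [Complex.add_im, Complex.one_im, Complex.mul_im, Complex.ofReal_re, Complex.I_im,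
          Complex.ofReal_im, Complex.I_re, mul_one, zero_add, mul_zero, add_zero]
        rw [ht]
        field_simp
    have ht0 : |t| < δ := by
      have h1 : 0 ≤ t := by
        rw [ht, him]
        positivity
      rw [abs_of_nonneg h1, ht, him, div_lt_iff₀ hP0]
      have h2 : τ.im < δ * z.re := by
        have h3 : 2 * τ.im / δ < N := by linarith
        rw [div_lt_iff₀ hδ] at h3
        nlinarith
      have h4 : ((J : ℝ) + 1) * τ.im < ((J : ℝ) + 1) * (δ * z.re) := by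
        have : (0 : ℝ) < (J : ℝ) + 1 := by positivity
        exact mul_lt_mul_of_pos_left h2 this
      have h5 : 0 ≤ δ * ((n : ℝ) + 1) := by positivity
      rw [hP]
      nlinarith
    have h1 : F (J, n) = (((P ^ (2 * a + 3))⁻¹ : ℝ) : ℂ) * ((1 + (t : ℂ) * Complex.I) ^ (2 * a + 3))⁻¹ := by
      simp only [hF, pow_zero, one_mul, add_zero]
      rw [hw, mul_pow, mul_inv]
      push_cast
      ring
    rw [h1, Complex.re_ofReal_mul]
    have h2 := hpos t ht0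
    have h3 : 0 < (P ^ (2 * a + 3))⁻¹ := by positivity
    show 1 / 2 * (P ^ (2 * a + 3))⁻¹ ≤ _
    nlinarith
  have hB : (N : ℝ) * (1 / 2 * ((3 * (N : ℝ)) ^ (2 * a + 3))⁻¹) ≤ ‖∑' p, F p‖ := by
    have h1 : (∑' p, F p).re = ∑' p, (F p).re := Complex.re_tsum hFs
    refine le_trans ?_ ((le_abs_self _).trans (Complex.abs_re_le_norm _))
    rw [h1]
    have h2 : Summable fun p => (F p).re := (Complex.hasSum_re hFs.hasSum).summable
    let T : Finset (ℕ × ℕ) := (Finset.range N).map ⟨fun n => (0, n), fun n m h => by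
      simpa using h⟩
    have h3 := h2.sum_le_tsum T (fun p _ => le_trans (by
      have : 0 < ((p.1 : ℝ) + 1) * z.re + (p.2 + 1) := by positivity
      positivity) (hFre p))
    refine le_trans ?_ h3
    rw [Finset.sum_map]
    have h4 : ∀ n ∈ Finset.range N, 1 / 2 * ((3 * (N : ℝ)) ^ (2 * a + 3))⁻¹ ≤
        (F (0, n)).re := by
      intro n hn
      rw [Finset.mem_range] at hn
      have hn' : (n : ℝ) + 1 ≤ N := by exact_mod_cast hn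
      refine le_trans ?_ (hFre (0, n))
      simp only [Nat.cast_zero, zero_add, one_mul]
      gcongr
      linarith
    have h5 := Finset.sum_le_sum h4
    rw [Finset.sum_const, Finset.card_range, nsmul_eq_mul] at h5
    exact h5
  rw [hEr, norm_neg]
  have h1 : 2 * ‖∑' p, F p‖ - ‖A‖ ≤ ‖A + 2 * ∑' p, F p‖ := by
    have h2 : 2 * ∑' p, F p = (A + 2 * ∑' p, F p) - A := by ring
    have h3 : ‖(2 : ℂ) * ∑' p, F p‖ ≤ ‖A + 2 * ∑' p, F p‖ + ‖A‖ := by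
      conv_lhs => rw [h2]
      exact norm_sub_le _ _
    rw [norm_mul, Complex.norm_two] at h3
    linarith
  refine le_trans ?_ h1
  have h2 : ‖A‖ ≤ Zr (2 * a + 3) * (((N : ℝ) / 2) ^ (2 * a + 3))⁻¹ := by
    refine hA.trans (mul_le_mul_of_nonneg_left ?_ (Zr_nonneg _))
    rw [add_zero]
    gcongr
  have h3 : Zr (2 * a + 3) * (((N : ℝ) / 2) ^ (2 * a + 3))⁻¹ ≤ c / (N : ℝ) ^ (2 * a + 2) := by
    rw [div_pow, inv_div, ← mul_div_assoc]
    rw [div_le_div_iff₀ (by positivity) (by positivity)]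
    rw [div_le_iff₀ hc0] at hNc
    have h4 : (N : ℝ) ^ (2 * a + 3) = N * (N : ℝ) ^ (2 * a + 2) := by ring
    rw [h4]
    have h5 : (0 : ℝ) < (N : ℝ) ^ (2 * a + 2) := by positivity
    nlinarith
  have h4 : 2 * ((N : ℝ) * (1 / 2 * ((3 * (N : ℝ)) ^ (2 * a + 3))⁻¹)) = 2 * (c / (N : ℝ) ^ (2 * a + 2)) := by
    rw [hc, mul_pow]
    have : (N : ℝ) ^ (2 * a + 3) = N * (N : ℝ) ^ (2 * a + 2) := by ring
    rw [this]
    field_simp
  linarith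

end Pool.Agent.H946.Z
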