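import Pool.Agent.H946.Z.Basic

/-! Leaf EvA (helper183): evaluation of power series inside the unit disc. -/

set_option autoImplicit false

namespace Pool.Agent.H946.Z

open PowerSeries

namespace EvA

theorem norm_term (q : ℂ) (f : ℚ⟦X⟧) (n : ℕ) :
    ‖((PowerSeries.coeff n f : ℚ) : ℂ) * q ^ n‖ =
      |((PowerSeries.coeff n f : ℚ) : ℝ)| * ‖q‖ ^ n := by
  rw [norm_mul, norm_pow]
  congr 1
  rw [← Complex.ofReal_ratCast, Complex.norm_real, Real.norm_eq_abs]

theorem summable_norm {q : ℂ} {f : ℚ⟦X⟧} (hf : Cv ‖q‖ f) :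
    Summable fun n => ‖((PowerSeries.coeff n f : ℚ) : ℂ) * q ^ n‖ := by
  simp only [norm_term]
  exact hf

theorem mul_term (q : ℂ) (f g : ℚ⟦X⟧) (n : ℕ) :
    ((PowerSeries.coeff n (f * g) : ℚ) : ℂ) * q ^ n =
      ∑ p ∈ Finset.HasAntidiagonal.antidiagonal n, (((PowerSeries.coeff p.1 f : ℚ) : ℂ) * q ^ p.1) *
        (((PowerSeries.coeff p.2 g : ℚ) : ℂ) * q ^ p.2) := by
  rw [PowerSeries.coeff_mul]
  push_cast
  rw [Finset.sum_mul]
  refine Finset.sum_congr rfl fun p hp => ?_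
  rw [Finset.HasAntidiagonal.mem_antidiagonal] at hp
  rw [← hp, pow_add]
  ring

theorem mul {q : ℂ} {f g : ℚ⟦X⟧} (hf : Cv ‖q‖ f) (hg : Cv ‖q‖ g) :
    Cv ‖q‖ (f * g) ∧ ev q (f * g) = ev q f * ev q g := by
  have h1 := summable_norm_sum_mul_antidiagonal_of_summable_norm (summable_norm hf)
    (summable_norm hg)
  refine ⟨?_, ?_⟩
  · have h2 : (fun n => |((PowerSeries.coeff n (f * g) : ℚ) : ℝ)| * ‖q‖ ^ n) =
        fun n => ‖∑ p ∈ Finset.HasAntidiagonal.antidiagonal n,
          (((PowerSeries.coeff p.1 f : ℚ) : ℂ) * q ^ p.1) *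
          (((PowerSeries.coeff p.2 g : ℚ) : ℂ) * q ^ p.2)‖ := by
      funext n
      rw [← mul_term, norm_term]
    unfold Cv
    rw [h2]
    exact h1
  · unfold ev
    rw [tsum_mul_tsum_eq_tsum_sum_antidiagonal_of_summable_norm (summable_norm hf)
      (summable_norm hg)]
    exact tsum_congr fun n => mul_term q f g n

theorem add {q : ℂ} {f g : ℚ⟦X⟧} (hf : Cv ‖q‖ f) (hg : Cv ‖q‖ g) :
    Cv ‖q‖ (f + g) ∧ ev q (f + g) = ev q f + ev q g := by
  refine ⟨?_, ?_⟩
  · unfold Cv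
    refine Summable.of_nonneg_of_le (fun n => by positivity) (fun n => ?_) (Summable.add hf hg)
    rw [map_add]
    push_cast
    rw [← add_mul]
    exact mul_le_mul_of_nonneg_right (abs_add_le _ _) (by positivity)
  · unfold ev
    rw [← (summable_norm hf).of_norm.tsum_add (summable_norm hg).of_norm]
    refine tsum_congr fun n => ?_
    rw [map_add]
    push_cast
    ring

theorem smul {q : ℂ} {f : ℚ⟦X⟧} (hf : Cv ‖q‖ f) (c : ℚ) :
    Cv ‖q‖ (c • f) ∧ ev q (c • f) = c * ev q f := by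
  refine ⟨?_, ?_⟩
  · unfold Cv
    have h2 : (fun n => |((PowerSeries.coeff n (c • f) : ℚ) : ℝ)| * ‖q‖ ^ n) =
        fun n => |(c : ℝ)| * (|((PowerSeries.coeff n f : ℚ) : ℝ)| * ‖q‖ ^ n) := by
      funext n
      rw [PowerSeries.coeff_smul, smul_eq_mul]
      push_cast
      rw [abs_mul]
      ring
    rw [h2]
    exact hf.mul_left _
  · unfold ev
    rw [← tsum_mul_left]
    refine tsum_congr fun n => ?_
    rw [PowerSeries.coeff_smul, smul_eq_mul]
    push_cast
    ring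

/-- polynomially bounded coefficients -/
theorem cv_of_le {f : ℚ⟦X⟧} {k : ℕ} (h : ∀ n, |((PowerSeries.coeff n f : ℚ) : ℝ)| ≤ (n : ℝ) ^ k)
    {r : ℝ} (h0 : 0 ≤ r) (h1 : r < 1) : Cv r f := by
  unfold Cv
  refine Summable.of_nonneg_of_le (fun n => by positivity)
    (fun n => mul_le_mul_of_nonneg_right (h n) (by positivity))
    (summable_pow_mul_geometric_of_norm_lt_one k (by rwa [Real.norm_eq_abs, abs_of_nonneg h0]))

/-- reindexing over the multiples of `k` -/
theorem tsum_mult {k : ℕ} (hk : 1 ≤ k) (c : ℕ → ℂ) (hc : ∀ n, ¬ k ∣ n → c n = 0) :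
    ∑' n, c n = ∑' m, c (k * m) := by
  have hinj : Function.Injective (fun m : ℕ => k * m) := fun a b hab =>
    Nat.eq_of_mul_eq_mul_left hk hab
  refine (hinj.tsum_eq ?_).symm
  intro n hn
  by_contra hcon
  apply hn
  apply hc
  rintro ⟨m, rfl⟩
  exact hcon ⟨m, rfl⟩

theorem norm_pow_lt {q : ℂ} (hq : ‖q‖ < 1) {k : ℕ} (hk : 1 ≤ k) : ‖q ^ k‖ < 1 := by
  rw [norm_pow]
  exact pow_lt_one₀ (norm_nonneg _) hq (by omega)

/-- `A_j(x) = ∑_{d ≥ 0} d^j x^d` (`0^0 = 1`) -/
noncomputable def A (j : ℕ) (x : ℂ) : ℂ := ∑' d : ℕ, (d : ℂ) ^ j * x ^ d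

theorem summA (j : ℕ) {x : ℂ} (hx : ‖x‖ < 1) : Summable fun d : ℕ => (d : ℂ) ^ j * x ^ d :=
  summable_pow_mul_geometric_of_norm_lt_one j hx

theorem A_rec {j : ℕ} (hj : 1 ≤ j) {x : ℂ} (hx : ‖x‖ < 1) :
    (1 - x) * A j x = x * ∑ i ∈ Finset.range j, (j.choose i : ℂ) * A i x := by
  have h1 : A j x = x * ∑ i ∈ Finset.range (j + 1), (j.choose i : ℂ) * A i x := by
    have h2 : A j x = ∑' d : ℕ, ((d : ℂ) + 1) ^ j * x ^ (d + 1) := by
      unfold A
      rw [(summA j hx).tsum_eq_zero_add]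
      have : ((0 : ℕ) : ℂ) ^ j = 0 := by
        rw [Nat.cast_zero, zero_pow (by omega)]
      rw [this, zero_mul, zero_add]
      push_cast
      rfl
    rw [h2]
    have h3 : ∀ d : ℕ, ((d : ℂ) + 1) ^ j * x ^ (d + 1) =
        ∑ i ∈ Finset.range (j + 1), x * ((j.choose i : ℂ) * ((d : ℂ) ^ i * x ^ d)) := by
      intro d
      rw [add_pow, Finset.sum_mul]
      refine Finset.sum_congr rfl fun i _ => ?_
      rw [one_pow, pow_succ]
      ring
    simp only [h3]
    rw [Summable.tsum_finsetSum (fun i _ => ((summA i hx).mul_left _).mul_left _), Finset.mul_sum]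
    refine Finset.sum_congr rfl fun i _ => ?_
    rw [tsum_mul_left, tsum_mul_left]
    rfl
  rw [Finset.sum_range_succ, Nat.choose_self, Nat.cast_one, one_mul] at h1
  linear_combination h1

theorem half_le {x : ℂ} (hx : ‖x‖ < 1) : 1 ≤ 2 * ‖1 - x‖⁻¹ := by
  have h0 : 1 - x ≠ 0 := by
    intro h
    have : x = 1 := (sub_eq_zero.1 h).symm
    rw [this, norm_one] at hx
    exact lt_irrefl _ hx
  have h1 : 0 < ‖1 - x‖ := norm_pos_iff.2 h0
  have h2 : ‖1 - x‖ ≤ 2 := by
    calc ‖1 - x‖ ≤ ‖(1 : ℂ)‖ + ‖x‖ := norm_sub_le _ _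
      _ ≤ 2 := by rw [norm_one]; linarith
  rw [← div_eq_mul_inv, le_div_iff₀ h1]
  linarith

theorem A_bound (j : ℕ) : ∃ C : ℝ, 0 ≤ C ∧ ∀ x : ℂ, ‖x‖ < 1 →
    ‖A j x‖ ≤ C * (‖1 - x‖⁻¹) ^ (j + 1) := by
  induction j using Nat.strong_induction_on with
  | _ j ih =>
    rcases Nat.eq_zero_or_pos j with rfl | hj
    · refine ⟨1, zero_le_one, fun x hx => ?_⟩
      have : A 0 x = (1 - x)⁻¹ := by
        unfold A
        simp only [pow_zero, one_mul]
        exact tsum_geometric_of_norm_lt_one hx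
      rw [this, norm_inv]
      simp
    · have h1 : ∀ i : ℕ, ∃ C : ℝ, 0 ≤ C ∧ (i < j → ∀ x : ℂ, ‖x‖ < 1 →
          ‖A i x‖ ≤ C * (‖1 - x‖⁻¹) ^ (i + 1)) := by
        intro i
        by_cases hi : i < j
        · obtain ⟨C, hC, h⟩ := ih i hi
          exact ⟨C, hC, fun _ => h⟩
        · exact ⟨0, le_rfl, fun h => absurd h hi⟩
      choose C hC0 hC using h1
      refine ⟨∑ i ∈ Finset.range j, (j.choose i : ℝ) * C i * 2 ^ j, ?_, fun x hx => ?_⟩
      · exact Finset.sum_nonneg fun i _ => by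
          have := hC0 i
          positivity
      · have h0 : 1 - x ≠ 0 := by
          intro h
          have : x = 1 := (sub_eq_zero.1 h).symm
          rw [this, norm_one] at hx
          exact lt_irrefl _ hx
        set w : ℝ := ‖1 - x‖⁻¹ with hw
        have hw0 : 0 ≤ w := by positivity
        have hw1 : 1 ≤ 2 * w := half_le hx
        have h2 : A j x = (1 - x)⁻¹ * (x * ∑ i ∈ Finset.range j, (j.choose i : ℂ) * A i x) := by
          rw [← A_rec hj hx, inv_mul_cancel_left₀ h0]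
        have h3 : ‖A j x‖ ≤ w * ∑ i ∈ Finset.range j, (j.choose i : ℝ) * (C i * w ^ (i + 1)) := by
          rw [h2, norm_mul, norm_inv, norm_mul]
          refine mul_le_mul_of_nonneg_left ?_ hw0
          have h4 : ‖∑ i ∈ Finset.range j, (j.choose i : ℂ) * A i x‖ ≤
              ∑ i ∈ Finset.range j, (j.choose i : ℝ) * (C i * w ^ (i + 1)) := by
            refine (norm_sum_le _ _).trans (Finset.sum_le_sum fun i hi => ?_)
            rw [norm_mul, Complex.norm_natCast]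
            exact mul_le_mul_of_nonneg_left (hC i (Finset.mem_range.1 hi) x hx)
              (Nat.cast_nonneg _)
          calc ‖x‖ * ‖∑ i ∈ Finset.range j, (j.choose i : ℂ) * A i x‖
              ≤ 1 * ‖∑ i ∈ Finset.range j, (j.choose i : ℂ) * A i x‖ :=
                mul_le_mul_of_nonneg_right hx.le (norm_nonneg _)
            _ ≤ _ := by rw [one_mul]; exact h4
        refine h3.trans ?_
        rw [Finset.mul_sum, Finset.sum_mul]
        refine Finset.sum_le_sum fun i hi => ?_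
        have hij : i < j := Finset.mem_range.1 hi
        have h5 : w ^ (i + 2) ≤ 2 ^ j * w ^ (j + 1) := by
          obtain ⟨e, rfl⟩ : ∃ e, j = i + 1 + e := ⟨j - (i + 1), by omega⟩
          have h6 : 1 ≤ (2 * w) ^ e := one_le_pow₀ hw1
          have h7 : (1 : ℝ) ≤ 2 ^ (i + 1) := one_le_pow₀ (by norm_num)
          calc w ^ (i + 2) = w ^ (i + 2) * (1 * 1) := by ring
            _ ≤ w ^ (i + 2) * ((2 * w) ^ e * 2 ^ (i + 1)) :=
              mul_le_mul_of_nonneg_left (mul_le_mul h6 h7 zero_le_one (by positivity))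
                (by positivity)
            _ = 2 ^ (i + 1 + e) * w ^ (i + 1 + e + 1) := by
              rw [mul_pow, pow_add 2 (i + 1) e, show i + 1 + e + 1 = (i + 2) + e by ring,
                pow_add w (i + 2) e]
              ring
        calc w * ((j.choose i : ℝ) * (C i * w ^ (i + 1)))
            = (j.choose i : ℝ) * C i * w ^ (i + 2) := by ring
          _ ≤ (j.choose i : ℝ) * C i * (2 ^ j * w ^ (j + 1)) :=
            mul_le_mul_of_nonneg_left h5 (mul_nonneg (Nat.cast_nonneg _) (hC0 i))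
          _ = (j.choose i : ℝ) * C i * 2 ^ j * w ^ (j + 1) := by ring

theorem ev_Li (j : ℕ) {q : ℂ} {m : ℕ} (hm : 1 ≤ m) : ev q (Li j m) =
    ∑' d : ℕ, (if d = 0 then 0 else (d : ℂ) ^ j * (q ^ m) ^ d) := by
  unfold ev
  rw [tsum_mult hm]
  · refine tsum_congr fun d => ?_
    unfold Li
    rw [PowerSeries.coeff_mk]
    by_cases hd : d = 0
    · simp [hd]
    · have h1 : m * d ≠ 0 := by
        have : m ≠ 0 := by omega
        exact mul_ne_zero this hd
      rw [if_pos ⟨h1, Dvd.intro d rfl⟩, if_neg hd, Nat.mul_div_cancel_left d hm, pow_mul]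
      push_cast
      rfl
  · intro n hn
    unfold Li
    rw [PowerSeries.coeff_mk, if_neg (fun h => hn h.2)]
    simp

theorem cv_Li (j : ℕ) {q : ℂ} (hq : ‖q‖ < 1) (m : ℕ) : Cv ‖q‖ (Li j m) := by
  refine cv_of_le (k := j) (fun n => ?_) (norm_nonneg _) hq
  unfold Li
  rw [PowerSeries.coeff_mk]
  split_ifs with h
  · push_cast
    rw [abs_of_nonneg (by positivity)]
    refine pow_le_pow_left₀ (Nat.cast_nonneg _) ?_ j
    exact_mod_cast Nat.div_le_self n m
  · simp

theorem bound_Li (j : ℕ) : ∃ C : ℝ, 0 ≤ C ∧ ∀ q : ℂ, ‖q‖ < 1 → ∀ m : ℕ, 1 ≤ m →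
    ‖ev q (Li j m)‖ ≤ C * (‖1 - q ^ m‖⁻¹) ^ (j + 1) := by
  obtain ⟨C, hC, h⟩ := A_bound j
  refine ⟨C + 2 ^ (j + 1), by positivity, fun q hq m hm => ?_⟩
  have hx := norm_pow_lt hq hm
  set x := q ^ m with hxd
  have h1 : ev q (Li j m) = A j x - (if j = 0 then 1 else 0) := by
    rw [ev_Li j hm]
    have h2 : A j x = (∑' d : ℕ, (if d = 0 then 0 else (d : ℂ) ^ j * x ^ d)) +
        ∑' d : ℕ, (if d = 0 then (if j = 0 then 1 else 0) else 0 : ℂ) := by
      rw [← Summable.tsum_add]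
      · unfold A
        refine tsum_congr fun d => ?_
        by_cases hd : d = 0
        · subst hd
          by_cases hj : j = 0
          · simp [hj]
          · simp [hj]
        · simp [hd]
      · refine Summable.of_norm_bounded (g := fun d : ℕ => ‖(d : ℂ) ^ j * x ^ d‖)
          (summA j hx).norm (fun d => ?_)
        split_ifs
        · rw [norm_zero]
          exact norm_nonneg _
        · exact le_rfl
      · exact summable_of_ne_finset_zero (s := {0}) (fun d hd => by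
          rw [Finset.mem_singleton] at hd
          simp [hd])
    rw [h2, tsum_ite_eq, ← hxd]
    ring
  have h3 : (1 : ℝ) ≤ 2 ^ (j + 1) * (‖1 - x‖⁻¹) ^ (j + 1) := by
    rw [← mul_pow]
    exact one_le_pow₀ (half_le hx)
  rw [h1]
  calc ‖A j x - (if j = 0 then 1 else 0)‖ ≤ ‖A j x‖ + ‖(if j = 0 then 1 else 0 : ℂ)‖ :=
        norm_sub_le _ _
    _ ≤ C * (‖1 - x‖⁻¹) ^ (j + 1) + 2 ^ (j + 1) * (‖1 - x‖⁻¹) ^ (j + 1) := by
        refine add_le_add (h x hx) (le_trans ?_ h3)
        split_ifs <;> simp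
    _ = (C + 2 ^ (j + 1)) * (‖1 - x‖⁻¹) ^ (j + 1) := by ring

theorem uu_facts {q : ℂ} (hq : ‖q‖ < 1) {k : ℕ} (hk : 1 ≤ k) :
    Cv ‖q‖ (uu ℚ k) ∧ ev q (uu ℚ k) = (1 - q ^ k)⁻¹ := by
  refine ⟨?_, ?_⟩
  · refine cv_of_le (k := 0) (fun n => ?_) (norm_nonneg _) hq
    unfold uu
    rw [PowerSeries.coeff_mk]
    split_ifs <;> simp
  · unfold ev
    rw [tsum_mult hk]
    · rw [← tsum_geometric_of_norm_lt_one (norm_pow_lt hq hk)]
      refine tsum_congr fun m => ?_
      unfold uu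
      rw [PowerSeries.coeff_mk, if_pos (Dvd.intro m rfl), pow_mul]
      simp
    · intro n hn
      unfold uu
      rw [PowerSeries.coeff_mk, if_neg hn]
      simp

theorem cv_GG {q : ℂ} (hq : ‖q‖ < 1) (i : ℕ × ℕ) : Cv ‖q‖ (GG i) := by
  refine cv_of_le (k := i.2 + (1 + (2 * i.1 + 2))) (fun n => ?_) (norm_nonneg _) hq
  unfold GG
  rw [PowerSeries.coeff_mk]
  push_cast
  rw [abs_of_nonneg (by positivity), pow_add]
  refine mul_le_mul_of_nonneg_left ?_ (by positivity)
  calc ∑ d ∈ n.divisors, (d : ℝ) ^ (2 * i.1 + 2)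
      ≤ ∑ d ∈ n.divisors, (n : ℝ) ^ (2 * i.1 + 2) := by
        refine Finset.sum_le_sum fun d hd => ?_
        exact pow_le_pow_left₀ (Nat.cast_nonneg _) (by exact_mod_cast Nat.divisor_le hd) _
    _ = (n.divisors.card : ℝ) * (n : ℝ) ^ (2 * i.1 + 2) := by
        rw [Finset.sum_const, nsmul_eq_mul]
    _ ≤ (n : ℝ) * (n : ℝ) ^ (2 * i.1 + 2) := by
        refine mul_le_mul_of_nonneg_right ?_ (by positivity)
        exact_mod_cast Nat.card_divisors_le_self n
    _ = (n : ℝ) ^ (1 + (2 * i.1 + 2)) := by ring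

theorem const_facts (q : ℂ) (c : ℚ) :
    Cv ‖q‖ (PowerSeries.C c) ∧ ev q (PowerSeries.C c) = c := by
  refine ⟨?_, ?_⟩
  · unfold Cv
    refine summable_of_ne_finset_zero (s := {0}) (fun n hn => ?_)
    rw [Finset.mem_singleton] at hn
    rw [PowerSeries.coeff_C, if_neg hn]
    simp
  · unfold ev
    rw [tsum_eq_single 0]
    · simp
    · intro n hn
      rw [PowerSeries.coeff_C, if_neg hn]
      simp

end EvA

theorem evring : S_evring := by
  intro q f g hf hg
  exact ⟨EvA.mul hf hg, EvA.add hf hg, fun c => EvA.smul hf c⟩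

theorem atoms : S_atoms := by
  refine ⟨fun q hq k hk => EvA.uu_facts hq hk, fun j => ?_⟩
  obtain ⟨C, hC, h⟩ := EvA.bound_Li j
  exact ⟨C, hC, fun q hq m hm => ⟨EvA.cv_Li j hq m, h q hq m hm⟩⟩

theorem evP : S_evP := by
  intro q hq P
  have key : Cv ‖q‖ (MvPolynomial.aeval GG P) ∧
      ev q (MvPolynomial.aeval GG P) = MvPolynomial.aeval (fun i => ev q (GG i)) P := by
    induction P using MvPolynomial.induction_on with
    | C c =>
      have h := EvA.const_facts q c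
      rw [MvPolynomial.algHom_C, MvPolynomial.algHom_C]
      exact h
    | add p r hp hr =>
      rw [map_add, map_add]
      have h := EvA.add hp.1 hr.1
      exact ⟨h.1, by rw [h.2, hp.2, hr.2]⟩
    | mul_X p i hp =>
      rw [map_mul, map_mul, MvPolynomial.aeval_X, MvPolynomial.aeval_X]
      have h := EvA.mul hp.1 (EvA.cv_GG hq i)
      exact ⟨h.1, by rw [h.2, hp.2]⟩
  exact key.2

end Pool.Agent.H946.Z
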