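import Pool.Agent.H946.Z.Basic
set_option autoImplicit false
set_option linter.unusedVariables false
set_option linter.unusedSectionVars false

/-!
# MP_d9449f_ag : evaluation of the closed form (leaf Z22, by helper784)
-/

namespace Pool.Agent.H946.Z

open PowerSeries

namespace EvF

/-- absolutely summable at radius `r` with norm at most `B`. -/
def Bd (r : ℝ) (f : ℚ⟦X⟧) (B : ℝ) : Prop :=
  (Summable fun n => |((PowerSeries.coeff n f : ℚ) : ℝ)| * r ^ n) ∧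
    ∑' n, |((PowerSeries.coeff n f : ℚ) : ℝ)| * r ^ n ≤ B

theorem Bd.mono {r : ℝ} {f : ℚ⟦X⟧} {B C : ℝ} (h : Bd r f B) (hBC : B ≤ C) : Bd r f C :=
  ⟨h.1, h.2.trans hBC⟩

theorem Bd.nonneg {r : ℝ} (hr : 0 ≤ r) {f : ℚ⟦X⟧} {B : ℝ} (h : Bd r f B) : 0 ≤ B :=
  (tsum_nonneg fun n => by positivity).trans h.2

theorem Bd.add {r : ℝ} (hr : 0 ≤ r) {f g : ℚ⟦X⟧} {B C : ℝ} (hf : Bd r f B) (hg : Bd r g C) :
    Bd r (f + g) (B + C) := by
  have h1 : ∀ n, |((PowerSeries.coeff n (f + g) : ℚ) : ℝ)| * r ^ n ≤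
      |((PowerSeries.coeff n f : ℚ) : ℝ)| * r ^ n + |((PowerSeries.coeff n g : ℚ) : ℝ)| * r ^ n := by
    intro n
    rw [← add_mul]
    apply mul_le_mul_of_nonneg_right _ (by positivity)
    rw [map_add]
    push_cast
    exact abs_add_le _ _
  have h2 := hf.1.add hg.1
  have h3 := Summable.of_nonneg_of_le (fun n => by positivity) h1 h2
  refine ⟨h3, ?_⟩
  calc _ ≤ ∑' n, (|((PowerSeries.coeff n f : ℚ) : ℝ)| * r ^ n +
        |((PowerSeries.coeff n g : ℚ) : ℝ)| * r ^ n) := h3.tsum_le_tsum h1 h2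
    _ = _ := hf.1.tsum_add hg.1
    _ ≤ B + C := add_le_add hf.2 hg.2

theorem Bd.smul {r : ℝ} (hr : 0 ≤ r) {f : ℚ⟦X⟧} {B : ℝ} (hf : Bd r f B) (c : ℚ) :
    Bd r (c • f) (|(c : ℝ)| * B) := by
  have h1 : ∀ n, |((PowerSeries.coeff n (c • f) : ℚ) : ℝ)| * r ^ n =
      |(c : ℝ)| * (|((PowerSeries.coeff n f : ℚ) : ℝ)| * r ^ n) := by
    intro n
    rw [PowerSeries.coeff_smul, smul_eq_mul]
    push_cast
    rw [abs_mul, mul_assoc]
  refine ⟨?_, ?_⟩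
  · simp_rw [h1]
    exact hf.1.mul_left _
  · simp_rw [h1]
    rw [tsum_mul_left]
    exact mul_le_mul_of_nonneg_left hf.2 (abs_nonneg _)

theorem Bd.neg {r : ℝ} (hr : 0 ≤ r) {f : ℚ⟦X⟧} {B : ℝ} (hf : Bd r f B) :
    Bd r (-f) B := by
  have h := hf.smul hr (-1)
  simpa using h

theorem Bd.sub {r : ℝ} (hr : 0 ≤ r) {f g : ℚ⟦X⟧} {B C : ℝ} (hf : Bd r f B) (hg : Bd r g C) :
    Bd r (f - g) (B + C) := by
  rw [sub_eq_add_neg]
  exact hf.add hr (hg.neg hr)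

theorem Bd.mul {r : ℝ} (hr : 0 ≤ r) {f g : ℚ⟦X⟧} {B C : ℝ} (hf : Bd r f B) (hg : Bd r g C) :
    Bd r (f * g) (B * C) := by
  set a : ℕ → ℝ := fun n => |((PowerSeries.coeff n f : ℚ) : ℝ)| * r ^ n with ha
  set b : ℕ → ℝ := fun n => |((PowerSeries.coeff n g : ℚ) : ℝ)| * r ^ n with hb
  have ha0 : ∀ n, 0 ≤ a n := fun n => by positivity
  have hb0 : ∀ n, 0 ≤ b n := fun n => by positivity
  have hsa : Summable fun n => ‖a n‖ := hf.1.norm
  have hsb : Summable fun n => ‖b n‖ := hg.1.norm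
  have h1 := (summable_norm_sum_mul_antidiagonal_of_summable_norm hsa hsb).of_norm
  have h2 := tsum_mul_tsum_eq_tsum_sum_antidiagonal_of_summable_norm hsa hsb
  have h3 : ∀ n, |((PowerSeries.coeff n (f * g) : ℚ) : ℝ)| * r ^ n ≤
      ∑ kl ∈ Finset.HasAntidiagonal.antidiagonal n, a kl.1 * b kl.2 := by
    intro n
    rw [PowerSeries.coeff_mul]
    push_cast
    calc _ ≤ (∑ p ∈ Finset.HasAntidiagonal.antidiagonal n, |((PowerSeries.coeff p.1 f : ℚ) : ℝ) *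
          ((PowerSeries.coeff p.2 g : ℚ) : ℝ)|) * r ^ n :=
        mul_le_mul_of_nonneg_right (Finset.abs_sum_le_sum_abs _ _) (by positivity)
      _ = _ := by
        rw [Finset.sum_mul]
        apply Finset.sum_congr rfl
        intro p hp
        rw [ha, hb]
        rw [← Finset.HasAntidiagonal.mem_antidiagonal.1 hp, pow_add, abs_mul]
        ring
  have h4 := Summable.of_nonneg_of_le (fun n => by positivity) h3 h1
  refine ⟨h4, ?_⟩
  calc _ ≤ ∑' n, ∑ kl ∈ Finset.HasAntidiagonal.antidiagonal n, a kl.1 * b kl.2 := h4.tsum_le_tsum h3 h1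
    _ = (∑' n, a n) * ∑' n, b n := h2.symm
    _ ≤ B * C := mul_le_mul hf.2 hg.2 (tsum_nonneg hb0) (hf.nonneg hr)

theorem bd_zero (r : ℝ) : Bd r 0 0 := by
  refine ⟨?_, ?_⟩
  · simpa using (summable_zero : Summable fun _ : ℕ => (0 : ℝ))
  · simp

theorem bd_sum {r : ℝ} (hr : 0 ≤ r) {ι : Type} (s : Finset ι) (f : ι → ℚ⟦X⟧) (B : ι → ℝ)
    (h : ∀ i ∈ s, Bd r (f i) (B i)) : Bd r (∑ i ∈ s, f i) (∑ i ∈ s, B i) := by
  classical
  induction s using Finset.induction_on with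
  | empty => simpa using bd_zero r
  | insert i s hi ih =>
    rw [Finset.sum_insert hi, Finset.sum_insert hi]
    exact (h i (Finset.mem_insert_self _ _)).add hr
      (ih fun j hj => h j (Finset.mem_insert_of_mem hj))

/-- domination. -/
theorem bd_of_le {r : ℝ} (hr : 0 ≤ r) (f : ℚ⟦X⟧) (c : ℕ → ℝ)
    (h : ∀ n, |((PowerSeries.coeff n f : ℚ) : ℝ)| ≤ c n) (hc : Summable fun n => c n * r ^ n) :
    Bd r f (∑' n, c n * r ^ n) := by
  have h1 : ∀ n, |((PowerSeries.coeff n f : ℚ) : ℝ)| * r ^ n ≤ c n * r ^ n :=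
    fun n => mul_le_mul_of_nonneg_right (h n) (by positivity)
  have h2 := Summable.of_nonneg_of_le (fun n => by positivity) h1 hc
  exact ⟨h2, h2.tsum_le_tsum h1 hc⟩

theorem bd_Xpow {r : ℝ} (hr : 0 ≤ r) (k : ℕ) : Bd r (X ^ k : ℚ⟦X⟧) (r ^ k) := by
  have h1 : ∀ n, |((PowerSeries.coeff n (X ^ k : ℚ⟦X⟧) : ℚ) : ℝ)| * r ^ n =
      if n = k then r ^ k else 0 := by
    intro n
    rw [PowerSeries.coeff_X_pow]
    split_ifs with h
    · subst h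
      simp
    · simp
  have h2 : HasSum (fun n : ℕ => if n = k then r ^ k else (0 : ℝ)) (r ^ k) := hasSum_ite_eq k _
  refine ⟨?_, ?_⟩
  · simp_rw [h1]
    exact h2.summable
  · simp_rw [h1]
    exact h2.tsum_eq.le

theorem bd_C {r : ℝ} (hr : 0 ≤ r) (c : ℚ) : Bd r (PowerSeries.C c : ℚ⟦X⟧) |(c : ℝ)| := by
  have h := (bd_Xpow hr 0).smul hr c
  have h2 : (c • (X ^ 0 : ℚ⟦X⟧)) = PowerSeries.C c := by
    rw [pow_zero]
    rw [PowerSeries.smul_eq_C_mul, mul_one]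
  rw [h2] at h
  simpa using h

theorem bd_uu {r : ℝ} (hr : 0 ≤ r) (hr1 : r < 1) (k : ℕ) : Bd r (uu ℚ k) (1 - r)⁻¹ := by
  have hs := summable_geometric_of_lt_one hr hr1
  have h := bd_of_le hr (uu ℚ k) (fun _ => 1) (by
    intro n
    unfold uu
    rw [PowerSeries.coeff_mk]
    split_ifs <;> simp) (by simpa using hs)
  simp only [one_mul] at h
  rwa [tsum_geometric_of_lt_one hr hr1] at h

theorem bd_Li {r : ℝ} (hr : 0 ≤ r) (hr1 : r < 1) (j k : ℕ) :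
    Bd r (Li j k) (∑' n : ℕ, (n : ℝ) ^ j * r ^ n) := by
  have hs := summable_pow_mul_geometric_of_norm_lt_one j (r := r) (by
    rwa [Real.norm_eq_abs, abs_of_nonneg hr])
  apply bd_of_le hr (Li j k) (fun n => (n : ℝ) ^ j) _ hs
  intro n
  unfold Li
  rw [PowerSeries.coeff_mk]
  split_ifs with h
  · push_cast
    rw [abs_of_nonneg (by positivity)]
    apply pow_le_pow_left₀ (by positivity)
    exact_mod_cast Nat.div_le_self n k
  · simp

section bounds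

variable {r : ℝ} (hr : 0 ≤ r) (hr1 : r < 1)

/-- bound for `cc`. -/
noncomputable def Ac (r : ℝ) : ℝ := (1 - r)⁻¹ + 1

include hr hr1 in
theorem Ac_pos : 1 ≤ Ac r := by
  have : 0 < (1 - r)⁻¹ := inv_pos.2 (by linarith)
  unfold Ac
  linarith

include hr hr1 in
theorem bd_cc (j : ℕ) : Bd r (cc j) (Ac r) := by
  have h := (bd_uu hr hr1 j).sub hr (bd_C hr (1 / 2))
  apply h.mono
  unfold Ac
  have : |(((1 / 2 : ℚ)) : ℝ)| = 1 / 2 := by
    push_cast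
    rw [abs_of_pos (by norm_num)]
  rw [this]
  linarith

include hr hr1 in
theorem bd_HH (k : ℕ) : Bd r (HH k) (k * Ac r) := by
  have h := bd_sum hr (Finset.Ico 1 k) cc (fun _ => Ac r) (fun j _ => bd_cc hr hr1 j)
  have h2 : Bd r (HH k) (∑ _j ∈ Finset.Ico 1 k, Ac r) := h
  apply h2.mono
  rw [Finset.sum_const, nsmul_eq_mul, Nat.card_Ico]
  apply mul_le_mul_of_nonneg_right _ (by linarith [Ac_pos hr hr1])
  exact_mod_cast Nat.sub_le k 1

include hr hr1 in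
theorem bd_EE2 (k : ℕ) : Bd r (EE2 k) (k * (Ac r * (k * Ac r))) := by
  have hA := Ac_pos hr hr1
  have h := bd_sum hr (Finset.Ico 1 k) (fun j => cc j * HH j) (fun _ => Ac r * (k * Ac r))
    (fun j hj => by
      apply ((bd_cc hr hr1 j).mul hr (bd_HH hr hr1 j)).mono
      have hjk : (j : ℝ) ≤ k := by exact_mod_cast (Finset.mem_Ico.1 hj).2.le
      gcongr)
  have h2 : Bd r (EE2 k) (∑ _j ∈ Finset.Ico 1 k, Ac r * (k * Ac r)) := h
  apply h2.mono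
  rw [Finset.sum_const, nsmul_eq_mul, Nat.card_Ico]
  apply mul_le_mul_of_nonneg_right _ (by positivity)
  exact_mod_cast Nat.sub_le k 1

include hr hr1 in
/-- a uniform bound for the `R`'s -/
theorem bd_R : ∃ Q : ℝ, 0 ≤ Q ∧ ∀ k m : ℕ, Bd r (R0 k m) Q ∧ Bd r (R1 k m) Q ∧ Bd r (R2 k) Q := by
  set L : ℕ → ℝ := fun j => ∑' n : ℕ, (n : ℝ) ^ j * r ^ n with hL
  have hLi : ∀ j k, Bd r (Li j k) (L j) := fun j k => bd_Li hr hr1 j k
  have hcc := bd_cc hr hr1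
  have e0 : ∀ k m, Bd r (R0 k m) _ := fun k m =>
    ((((((((hLi 5 m).smul hr (18 / 5)).add hr ((hLi 3 m).smul hr (4 / 3))).add hr
      ((hLi 1 m).smul hr (1 / 15))).add hr (((hcc k).mul hr (hLi 4 m)).smul hr 10)).add hr
      (((hLi 1 k).mul hr (hLi 3 m)).smul hr 16)).add hr
      (((hLi 2 k).mul hr (hLi 2 m)).smul hr 12)).sub hr
      (((hLi 3 k).mul hr (hLi 1 m)).smul hr 8)).sub hr
      (((hLi 4 k).mul hr (hcc m)).smul hr 4)
  have e1 : ∀ k m, Bd r (R1 k m) _ := fun k m =>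
    ((((((((hLi 6 m).smul hr (18 / 5)).add hr ((hLi 4 m).smul hr (4 / 3))).add hr
      ((hLi 2 m).smul hr (1 / 15))).add hr (((hcc k).mul hr (hLi 5 m)).smul hr 10)).add hr
      (((hLi 1 k).mul hr (hLi 4 m)).smul hr 16)).add hr
      (((hLi 2 k).mul hr (hLi 3 m)).smul hr 12)).sub hr
      (((hLi 3 k).mul hr (hLi 2 m)).smul hr 8)).sub hr
      (((hLi 4 k).mul hr (hLi 1 m)).smul hr 4)
  have e2 : ∀ k, Bd r (R2 k) _ := fun k =>
    (((((((hLi 7 k).smul hr (8 / 5)).add hr ((hLi 5 k).smul hr (1 / 3))).add hr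
      ((hLi 3 k).smul hr (1 / 15))).add hr (((hcc k).mul hr (hLi 6 k)).smul hr 4)).add hr
      (((hLi 1 k).mul hr (hLi 5 k)).smul hr 4)).sub hr
      (((hLi 3 k).mul hr (hLi 3 k)).smul hr 8)).sub hr
      (((hLi 4 k).mul hr (hLi 2 k)).smul hr 4)
  refine ⟨_, le_max_of_le_left ((e0 0 0).nonneg hr), fun k m => ⟨(e0 k m).mono (le_max_left _ _),
    (e1 k m).mono ((le_max_left _ _).trans (le_max_right _ _)),
    (e2 k).mono ((le_max_right _ _).trans (le_max_right _ _))⟩⟩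

include hr hr1 in
theorem bd_FA : ∃ Q : ℝ, 0 ≤ Q ∧ ∀ k : ℕ, 1 ≤ k → Bd r (FA k) (Q * ((k : ℝ) ^ 3 * r ^ k)) := by
  obtain ⟨Q, hQ, hR⟩ := bd_R hr hr1
  have hA := Ac_pos hr hr1
  have hU : 0 ≤ (1 - r)⁻¹ := (inv_pos.2 (by linarith)).le
  refine ⟨((1 - r)⁻¹ * (1 - r)⁻¹) * (2 * Q + 8 * (Ac r * Ac r * Q) + 4 * (Ac r * Q) + Q),
    by positivity, fun k hk => ?_⟩
  have h1 : Bd r ((((k : ℚ) - 1) * ((k : ℚ) + 4) / 3) • R0 k k + (8 : ℚ) • (EE2 k * R0 k k) -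
      (4 : ℚ) • (HH k * R1 k k) + R2 k) _ :=
    ((((hR k k).1.smul hr (((k : ℚ) - 1) * ((k : ℚ) + 4) / 3)).add hr
      (((bd_EE2 hr hr1 k).mul hr (hR k k).1).smul hr 8)).sub hr
      (((bd_HH hr hr1 k).mul hr (hR k k).2.1).smul hr 4)).add hr (hR k k).2.2
  have h2 : Bd r (X ^ k * uu ℚ k ^ 2) (r ^ k * ((1 - r)⁻¹ * (1 - r)⁻¹)) := by
    rw [pow_two]
    exact (bd_Xpow hr k).mul hr ((bd_uu hr hr1 k).mul hr (bd_uu hr hr1 k))
  have h3 : Bd r (FA k) _ := (h2.mul hr h1).smul hr (k : ℚ)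
  apply h3.mono
  have hk1 : (1 : ℝ) ≤ k := by exact_mod_cast hk
  have e1 : |(((((k : ℚ) - 1) * ((k : ℚ) + 4) / 3 : ℚ)) : ℝ)| ≤ 2 * (k : ℝ) ^ 2 := by
    push_cast
    rw [abs_of_nonneg (by
      have : 0 ≤ (k : ℝ) - 1 := by linarith
      positivity)]
    nlinarith
  have e2 : |((k : ℚ) : ℝ)| = (k : ℝ) := by
    push_cast
    exact abs_of_nonneg (by positivity)
  have e8 : |((8 : ℚ) : ℝ)| = 8 := by norm_num
  have e4 : |((4 : ℚ) : ℝ)| = 4 := by norm_num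
  rw [e2, e8, e4]
  have e5 : |(((((k : ℚ) - 1) * ((k : ℚ) + 4) / 3 : ℚ)) : ℝ)| * Q ≤ 2 * (k : ℝ) ^ 2 * Q :=
    mul_le_mul_of_nonneg_right e1 hQ
  have e6 : (k : ℝ) * Ac r * Q ≤ (k : ℝ) ^ 2 * (Ac r * Q) := by
    have : (k : ℝ) ≤ (k : ℝ) ^ 2 := by nlinarith
    calc (k : ℝ) * Ac r * Q = k * (Ac r * Q) := by ring
      _ ≤ _ := mul_le_mul_of_nonneg_right this (by positivity)
  have e7 : Q ≤ (k : ℝ) ^ 2 * Q := by
    have : (1 : ℝ) ≤ (k : ℝ) ^ 2 := by nlinarith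
    nlinarith
  have e9 : |(((((k : ℚ) - 1) * ((k : ℚ) + 4) / 3 : ℚ)) : ℝ)| * Q +
      8 * ((k : ℝ) * (Ac r * (k * Ac r)) * Q) + 4 * ((k : ℝ) * Ac r * Q) + Q ≤
      (k : ℝ) ^ 2 * (2 * Q + 8 * (Ac r * Ac r * Q) + 4 * (Ac r * Q) + Q) := by
    nlinarith
  calc _ ≤ (k : ℝ) * (r ^ k * ((1 - r)⁻¹ * (1 - r)⁻¹) *
        ((k : ℝ) ^ 2 * (2 * Q + 8 * (Ac r * Ac r * Q) + 4 * (Ac r * Q) + Q))) := by
        apply mul_le_mul_of_nonneg_left _ (by positivity)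
        exact mul_le_mul_of_nonneg_left e9 (by positivity)
    _ = _ := by ring

include hr hr1 in
theorem bd_FB : ∃ Q : ℝ, 0 ≤ Q ∧ ∀ k n : ℕ, 1 ≤ k → 1 ≤ n →
    Bd r (FB k n) (Q * (((k : ℝ) ^ 2 * r ^ k) * ((n : ℝ) ^ 1 * r ^ n))) := by
  obtain ⟨Q, hQ, hR⟩ := bd_R hr hr1
  have hA := Ac_pos hr hr1
  have hU : 0 ≤ (1 - r)⁻¹ := (inv_pos.2 (by linarith)).le
  refine ⟨((1 - r)⁻¹ * (1 - r)⁻¹ * (1 - r)⁻¹) * (24 * (Ac r * Q) + 4 * Q),
    by positivity, fun k n hk hn => ?_⟩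
  have h1 : Bd r ((8 : ℚ) • ((HH n + HH (n + k)) * R0 k (n + k)) - (4 : ℚ) • R1 k (n + k)) _ :=
    ((((bd_HH hr hr1 n).add hr (bd_HH hr hr1 (n + k))).mul hr (hR k (n + k)).1).smul hr 8).sub hr
      ((hR k (n + k)).2.1.smul hr 4)
  have h2 : Bd r (X ^ (k + n) * uu ℚ k * uu ℚ n * uu ℚ (n + k)) _ :=
    (((bd_Xpow hr (k + n)).mul hr (bd_uu hr hr1 k)).mul hr (bd_uu hr hr1 n)).mul hr
      (bd_uu hr hr1 (n + k))
  have h3 : Bd r (FB k n) _ := (h2.mul hr h1).smul hr (k : ℚ)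
  apply h3.mono
  have hk1 : (1 : ℝ) ≤ k := by exact_mod_cast hk
  have hn1 : (1 : ℝ) ≤ n := by exact_mod_cast hn
  have e2 : |((k : ℚ) : ℝ)| = (k : ℝ) := by
    push_cast
    exact abs_of_nonneg (by positivity)
  have e8 : |((8 : ℚ) : ℝ)| = 8 := by norm_num
  have e4 : |((4 : ℚ) : ℝ)| = 4 := by norm_num
  rw [e2, e8, e4]
  have ekn : (1 : ℝ) ≤ (k : ℝ) * n := by nlinarith
  have e5 : ((n : ℝ) * Ac r + ((n + k : ℕ) : ℝ) * Ac r) ≤ 3 * ((k : ℝ) * n) * Ac r := by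
    push_cast
    have h1 : (n : ℝ) ≤ (k : ℝ) * n := by nlinarith
    have h2 : (k : ℝ) ≤ (k : ℝ) * n := by nlinarith
    nlinarith
  have e9 : 8 * (((n : ℝ) * Ac r + ((n + k : ℕ) : ℝ) * Ac r) * Q) + 4 * Q ≤
      ((k : ℝ) * n) * (24 * (Ac r * Q) + 4 * Q) := by
    have h6 : ((n : ℝ) * Ac r + ((n + k : ℕ) : ℝ) * Ac r) * Q ≤ 3 * ((k : ℝ) * n) * Ac r * Q :=
      mul_le_mul_of_nonneg_right e5 hQ
    have h7 : Q ≤ (k : ℝ) * n * Q := by nlinarith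
    nlinarith
  calc _ ≤ (k : ℝ) * (r ^ (k + n) * (1 - r)⁻¹ * (1 - r)⁻¹ * (1 - r)⁻¹ *
        (((k : ℝ) * n) * (24 * (Ac r * Q) + 4 * Q))) := by
        apply mul_le_mul_of_nonneg_left _ (by positivity)
        exact mul_le_mul_of_nonneg_left e9 (by positivity)
    _ = _ := by rw [pow_add]; ring

end bounds

/-- exchange of summations. -/
theorem fubini (q : ℂ) {ι : Type} (f : ι → ℚ⟦X⟧) (F : ℚ⟦X⟧) (B : ι → ℝ)
    (hB : ∀ i, Bd ‖q‖ (f i) (B i)) (hs : Summable B)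
    (hF : ∀ n, HasSum (fun i => ((PowerSeries.coeff n (f i) : ℚ) : ℂ))
      ((PowerSeries.coeff n F : ℚ) : ℂ)) :
    Summable (fun i => ev q (f i)) ∧
      Summable (fun n => ((PowerSeries.coeff n F : ℚ) : ℂ) * q ^ n) ∧
      ev q F = ∑' i, ev q (f i) := by
  set g : ι × ℕ → ℂ := fun p => ((PowerSeries.coeff p.2 (f p.1) : ℚ) : ℂ) * q ^ p.2 with hg
  have hn : ∀ p : ι × ℕ, ‖g p‖ = |((PowerSeries.coeff p.2 (f p.1) : ℚ) : ℝ)| * ‖q‖ ^ p.2 := by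
    intro p
    rw [hg]
    simp only
    rw [norm_mul, norm_pow]
    congr 1
    rw [← Complex.ofReal_ratCast, Complex.norm_real, Real.norm_eq_abs]
  have h1 : Summable fun p : ι × ℕ => ‖g p‖ := by
    rw [summable_prod_of_nonneg (fun p => norm_nonneg _)]
    refine ⟨fun i => ?_, ?_⟩
    · simp only [hn]
      exact (hB i).1
    · simp only [hn]
      exact Summable.of_nonneg_of_le (fun i => tsum_nonneg fun n => by positivity)
        (fun i => (hB i).2) hs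
  have h2 : Summable g := h1.of_norm
  have h3 : Summable fun i => ∑' n, g (i, n) := h2.prod
  have h4 : Summable fun n => ∑' i, g (i, n) := h2.prod_symm.prod
  have h5 : ∀ n, ∑' i, g (i, n) = ((PowerSeries.coeff n F : ℚ) : ℂ) * q ^ n := by
    intro n
    exact ((hF n).mul_right (q ^ n)).tsum_eq
  refine ⟨h3, ?_, ?_⟩
  · have h6 : (fun n => ∑' i, g (i, n)) = fun n => ((PowerSeries.coeff n F : ℚ) : ℂ) * q ^ n :=
      funext h5
    rwa [h6] at h4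
  · have h7 : ∑' n, ∑' i, g (i, n) = ∑' i, ∑' n, g (i, n) := by
      have := Summable.tsum_comm (f := fun i n => g (i, n)) h2
      exact this
    have h8 : ev q F = ∑' n, ∑' i, g (i, n) := by
      unfold ev
      exact tsum_congr fun n => (h5 n).symm
    rw [h8, h7]
    rfl

theorem dvd_smul' {f g : ℚ⟦X⟧} (h : f ∣ g) (c : ℚ) : f ∣ c • g := by
  rw [PowerSeries.smul_eq_C_mul]
  exact h.mul_left _

theorem X_dvd_FA (k : ℕ) : (X : ℚ⟦X⟧) ^ k ∣ FA k := by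
  unfold FA
  apply dvd_smul'
  rw [mul_assoc]
  exact dvd_mul_right _ _

theorem X_dvd_FB (k n : ℕ) : (X : ℚ⟦X⟧) ^ (k + n) ∣ FB k n := by
  unfold FB
  apply dvd_smul'
  rw [mul_assoc, mul_assoc, mul_assoc]
  exact dvd_mul_right _ _

theorem coeff_FA {k N : ℕ} (h : N < k) : PowerSeries.coeff N (FA k) = 0 :=
  PowerSeries.X_pow_dvd_iff.1 (X_dvd_FA k) N h

theorem coeff_FB {k n N : ℕ} (h : N < k + n) : PowerSeries.coeff N (FB k n) = 0 :=
  PowerSeries.X_pow_dvd_iff.1 (X_dvd_FB k n) N h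

/-- the two parts of `F0cl`. -/
noncomputable def GA : ℚ⟦X⟧ :=
  PowerSeries.mk fun N => ∑ k ∈ Finset.range N, PowerSeries.coeff N (FA (k + 1))

noncomputable def GB : ℚ⟦X⟧ :=
  PowerSeries.mk fun N => ∑ p ∈ Finset.range N ×ˢ Finset.range N,
    PowerSeries.coeff N (FB (p.1 + 1) (p.2 + 1))

theorem F0cl_eq : F0cl = GA + GB := by
  ext N
  rw [map_add]
  unfold F0cl GA GB
  rw [PowerSeries.coeff_mk, PowerSeries.coeff_mk, PowerSeries.coeff_mk, map_add, map_sum, map_sum]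
  have h1 : ∀ F : ℕ → ℚ, ∑ k ∈ Finset.Icc 1 N, F k = ∑ k ∈ Finset.range N, F (k + 1) := by
    intro F
    rw [Finset.range_eq_Ico, Finset.sum_Ico_add' F 0 N 1]
    rfl
  rw [h1, h1, Finset.sum_product]
  congr 1
  apply Finset.sum_congr rfl
  intro k _
  rw [map_sum, h1]

theorem sum_GA (N : ℕ) : HasSum (fun k : ℕ => ((PowerSeries.coeff N (FA (k + 1)) : ℚ) : ℂ))
    ((PowerSeries.coeff N GA : ℚ) : ℂ) := by
  have h : ((PowerSeries.coeff N GA : ℚ) : ℂ) =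
      ∑ k ∈ Finset.range N, ((PowerSeries.coeff N (FA (k + 1)) : ℚ) : ℂ) := by
    unfold GA
    rw [PowerSeries.coeff_mk]
    push_cast
    rfl
  rw [h]
  apply hasSum_sum_of_ne_finset_zero
  intro k hk
  rw [coeff_FA (by
    have := Finset.mem_range.not.1 hk
    omega)]
  simp

theorem sum_GB (N : ℕ) :
    HasSum (fun p : ℕ × ℕ => ((PowerSeries.coeff N (FB (p.1 + 1) (p.2 + 1)) : ℚ) : ℂ))
      ((PowerSeries.coeff N GB : ℚ) : ℂ) := by
  have h : ((PowerSeries.coeff N GB : ℚ) : ℂ) =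
      ∑ p ∈ Finset.range N ×ˢ Finset.range N,
        ((PowerSeries.coeff N (FB (p.1 + 1) (p.2 + 1)) : ℚ) : ℂ) := by
    unfold GB
    rw [PowerSeries.coeff_mk]
    push_cast
    rfl
  rw [h]
  apply hasSum_sum_of_ne_finset_zero
  intro p hp
  rw [coeff_FB (by
    rw [Finset.mem_product, Finset.mem_range, Finset.mem_range] at hp
    omega)]
  simp

end EvF

open EvF in
theorem evF0 (_hr : S_evring) (_ha : S_atoms) : S_evF0 := by
  intro q hq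
  have h0 : 0 ≤ ‖q‖ := norm_nonneg q
  obtain ⟨Q, hQ, hA⟩ := bd_FA h0 hq
  obtain ⟨Q', hQ', hB⟩ := bd_FB h0 hq
  have hs : ∀ j : ℕ, Summable fun k : ℕ => ((k + 1 : ℕ) : ℝ) ^ j * ‖q‖ ^ (k + 1) := by
    intro j
    have h := summable_pow_mul_geometric_of_norm_lt_one j (r := ‖q‖) (by
      rwa [Real.norm_eq_abs, abs_of_nonneg h0])
    exact (summable_nat_add_iff 1).2 h
  obtain ⟨a1, a2, a3⟩ := fubini q (fun k : ℕ => FA (k + 1)) GA
    (fun k => Q * (((k + 1 : ℕ) : ℝ) ^ 3 * ‖q‖ ^ (k + 1))) (fun k => hA (k + 1) (by omega))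
    ((hs 3).mul_left _) sum_GA
  obtain ⟨b1, b2, b3⟩ := fubini q (fun p : ℕ × ℕ => FB (p.1 + 1) (p.2 + 1)) GB
    (fun p => Q' * ((((p.1 + 1 : ℕ) : ℝ) ^ 2 * ‖q‖ ^ (p.1 + 1)) *
      (((p.2 + 1 : ℕ) : ℝ) ^ 1 * ‖q‖ ^ (p.2 + 1))))
    (fun p => hB (p.1 + 1) (p.2 + 1) (by omega) (by omega))
    (((hs 2).mul_of_nonneg (hs 1) (fun _ => by positivity) (fun _ => by positivity)).mul_left _)
    sum_GB
  refine ⟨a1, b1, ?_⟩
  rw [← a3, ← b3, F0cl_eq]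
  unfold ev
  rw [← a2.tsum_add b2]
  apply tsum_congr
  intro n
  rw [map_add]
  push_cast
  ring

end Pool.Agent.H946.Z
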