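import Pool.Agent.H946.Z.Basic
set_option autoImplicit false

/-!
# MP_d9449f_ag : transfer of the one-point formula from fields to domains
-/

namespace Pool.Agent.H946.Z

open PowerSeries

namespace F4

section
variable {R R' : Type} [CommRing R] [CommRing R'] (f : R →+* R')

theorem map_gen (g : Finset Box → R) :
    PowerSeries.map f (gen g) = gen fun π => f (g π) := by
  ext n
  rw [PowerSeries.coeff_map, coeff_gen, coeff_gen, map_sum]

theorem map_wy (y : ℤ → R) (π : Finset Box) : f (wy y π) = wy (fun e => f (y e)) π := by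
  unfold wy
  rw [map_prod]

theorem map_unit_zpow (u : Rˣ) (z : ℤ) :
    f ((u ^ z : Rˣ) : R) = ((Units.map f.toMonoidHom u ^ z : R'ˣ) : R') := by
  rw [← map_zpow]
  rfl

theorem map_unit (u : Rˣ) : f (u : R) = ((Units.map f.toMonoidHom u : R'ˣ) : R') := rfl

theorem map_unit_inv (u : Rˣ) :
    f ((u⁻¹ : Rˣ) : R) = (((Units.map f.toMonoidHom u)⁻¹ : R'ˣ) : R') := by
  rw [← map_inv]
  rfl

theorem map_Cd (u : Rˣ) (d : ℕ) (π : Finset Box) :
    f (Cd u d π) = Cd (Units.map f.toMonoidHom u) d π := by
  unfold Cd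
  rw [map_sum]
  exact Finset.sum_congr rfl fun b _ => map_unit_zpow f u _

theorem map_aa (y : ℤ → R) (d i : ℕ) :
    PowerSeries.map f (aa y d i) = aa (fun e => f (y e)) d i := by
  unfold aa
  rw [map_prod]
  exact Finset.prod_congr rfl fun e _ => by
    rw [map_mul, PowerSeries.map_C, PowerSeries.map_X]

theorem map_bb (y : ℤ → R) (d j : ℕ) :
    PowerSeries.map f (bb y d j) = bb (fun e => f (y e)) d j := by
  unfold bb
  rw [map_prod]
  exact Finset.prod_congr rfl fun e _ => by
    rw [map_mul, PowerSeries.map_C, PowerSeries.map_X]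

theorem map_ff (c : R) (x : R⟦X⟧) :
    PowerSeries.map (PowerSeries.map f) (ff c x) = ff (f c) (PowerSeries.map f x) := by
  ext m : 1
  unfold ff
  rw [PowerSeries.coeff_map, PowerSeries.coeff_mk, PowerSeries.coeff_mk]
  split_ifs
  · rw [map_one]
  · rw [map_mul, map_pow, PowerSeries.map_C]

theorem map_Am (K : ℕ) (u : Rˣ) (y : ℤ → R) (d m : ℕ) :
    PowerSeries.map f (Am K u y d m) =
      Am K (Units.map f.toMonoidHom u) (fun e => f (y e)) d m := by
  unfold Am
  rw [← PowerSeries.coeff_map, map_prod]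
  congr 1
  refine Finset.prod_congr rfl fun i _ => ?_
  rw [map_ff, map_aa, map_sub, map_one, map_unit_inv]

theorem map_Bm (K : ℕ) (u : Rˣ) (y : ℤ → R) (d m : ℕ) :
    PowerSeries.map f (Bm K u y d m) =
      Bm K (Units.map f.toMonoidHom u) (fun e => f (y e)) d m := by
  unfold Bm
  rw [← PowerSeries.coeff_map, map_prod]
  congr 1
  refine Finset.prod_congr rfl fun i _ => ?_
  rw [map_ff, map_mul, PowerSeries.map_C, map_bb, map_sub, map_one, map_unit_inv, map_unit]

end

end F4

theorem F4 (h : S_F4K) : S_F4 := by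
  intro R _ _ u y hy d K n hn
  have hinj : Function.Injective (algebraMap R (FractionRing R)) :=
    IsFractionRing.injective R (FractionRing R)
  have h1 := h (FractionRing R) (Units.map (algebraMap R (FractionRing R)).toMonoidHom u)
    (fun e => algebraMap R (FractionRing R) (y e))
    (fun e => by
      rw [Ne, map_eq_zero_iff _ hinj]
      exact hy e) d K n hn
  apply hinj
  rw [← PowerSeries.coeff_map, ← PowerSeries.coeff_map]
  simp only [map_mul, map_pow, map_sub, map_one, map_sum, PowerSeries.map_C, F4.map_gen,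
    F4.map_wy, F4.map_Cd, F4.map_Am, F4.map_Bm]
  exact h1

end Pool.Agent.H946.Z
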