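import Pool.Agent.H946.Z.Basic
set_option autoImplicit false

/-!
# MP_d9449f_ag : the one-point function of a diagonal slice (over a field)
-/

namespace Pool.Agent.H946.Z

open PowerSeries

namespace F4K

/-! ### truncated substitution `t ↦ a` -/

section sub
variable {S : Type} [CommRing S]

/-- truncated substitution -/
noncomputable def Ev (n : ℕ) (a : S) (P : S⟦X⟧) : S :=
  ∑ m ∈ Finset.range (n + 1), PowerSeries.coeff m P * a ^ m

variable {R : Type} [CommRing R]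

theorem dvd_coeff_mul {P Q : (R⟦X⟧)⟦X⟧} (hP : ∀ m, (X : R⟦X⟧) ^ m ∣ coeff m P)
    (hQ : ∀ m, (X : R⟦X⟧) ^ m ∣ coeff m Q) (m : ℕ) : (X : R⟦X⟧) ^ m ∣ coeff m (P * Q) := by
  rw [PowerSeries.coeff_mul]
  apply Finset.dvd_sum
  intro p hp
  rw [Finset.HasAntidiagonal.mem_antidiagonal] at hp
  rw [← hp, pow_add]
  exact mul_dvd_mul (hP _) (hQ _)

theorem dvd_coeff_prod {ι : Type} (s : Finset ι) (P : ι → (R⟦X⟧)⟦X⟧)
    (hP : ∀ i ∈ s, ∀ m, (X : R⟦X⟧) ^ m ∣ coeff m (P i)) (m : ℕ) :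
    (X : R⟦X⟧) ^ m ∣ coeff m (∏ i ∈ s, P i) := by
  classical
  induction s using Finset.induction_on generalizing m with
  | empty =>
    rw [Finset.prod_empty, PowerSeries.coeff_one]
    split_ifs with h
    · rw [h, pow_zero]
    · exact dvd_zero _
  | insert i s hi ih =>
    rw [Finset.prod_insert hi]
    exact dvd_coeff_mul (hP i (Finset.mem_insert_self i s))
      (fun m => ih (fun j hj => hP j (Finset.mem_insert_of_mem hj)) m) m

theorem Ev_mul (n : ℕ) (a : R⟦X⟧) {P Q : (R⟦X⟧)⟦X⟧} (hP : ∀ m, (X : R⟦X⟧) ^ m ∣ coeff m P)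
    (hQ : ∀ m, (X : R⟦X⟧) ^ m ∣ coeff m Q) :
    (X : R⟦X⟧) ^ (n + 1) ∣ Ev n a P * Ev n a Q - Ev n a (P * Q) := by
  have h1 : Ev n a (P * Q) = ∑ p ∈ (Finset.range (n + 1) ×ˢ Finset.range (n + 1)).filter
      (fun p => p.1 + p.2 ≤ n), (coeff p.1 P * a ^ p.1) * (coeff p.2 Q * a ^ p.2) := by
    unfold Ev
    have e : ∀ m ∈ Finset.range (n + 1), coeff m (P * Q) * a ^ m =
        ∑ p ∈ Finset.HasAntidiagonal.antidiagonal m, (coeff p.1 P * a ^ p.1) * (coeff p.2 Q * a ^ p.2) := by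
      intro m _
      rw [PowerSeries.coeff_mul, Finset.sum_mul]
      apply Finset.sum_congr rfl
      intro p hp
      rw [Finset.HasAntidiagonal.mem_antidiagonal] at hp
      rw [← hp, pow_add]
      ring
    rw [Finset.sum_congr rfl e, Finset.sum_sigma']
    refine Finset.sum_bij' (fun x _ => x.2) (fun p _ => ⟨p.1 + p.2, p⟩) ?_ ?_ ?_ ?_ ?_
    · rintro ⟨m, p⟩ h
      simp only [Finset.mem_sigma, Finset.mem_range, Finset.HasAntidiagonal.mem_antidiagonal] at h
      simp only [Finset.mem_filter, Finset.mem_product, Finset.mem_range]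
      omega
    · rintro p h
      simp only [Finset.mem_filter, Finset.mem_product, Finset.mem_range] at h
      rw [Finset.mem_sigma]
      exact ⟨Finset.mem_range.2 (by show p.1 + p.2 < n + 1; omega),
        Finset.HasAntidiagonal.mem_antidiagonal.2 rfl⟩
    · rintro ⟨m, p⟩ h
      simp only [Finset.mem_sigma, Finset.mem_range, Finset.HasAntidiagonal.mem_antidiagonal] at h
      obtain ⟨-, h⟩ := h
      subst h
      rfl
    · rintro p h
      rfl
    · rintro ⟨m, p⟩ h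
      rfl
  have h2 : Ev n a P * Ev n a Q = ∑ p ∈ Finset.range (n + 1) ×ˢ Finset.range (n + 1),
      (coeff p.1 P * a ^ p.1) * (coeff p.2 Q * a ^ p.2) := by
    unfold Ev
    rw [Finset.sum_mul_sum, Finset.sum_product]
  rw [h1, h2, ← Finset.sum_filter_add_sum_filter_not (Finset.range (n + 1) ×ˢ Finset.range (n + 1))
    (fun p => p.1 + p.2 ≤ n), add_sub_cancel_left]
  apply Finset.dvd_sum
  intro p hp
  rw [Finset.mem_filter] at hp
  have h3 : (X : R⟦X⟧) ^ (n + 1) ∣ X ^ (p.1 + p.2) := pow_dvd_pow _ (by omega)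
  refine h3.trans ?_
  rw [pow_add]
  exact mul_dvd_mul ((hP _).mul_right _) ((hQ _).mul_right _)

theorem Ev_ff (n : ℕ) (a b : R⟦X⟧) (u : Rˣ) (hb : (X : R⟦X⟧) ∣ b) :
    (X : R⟦X⟧) ^ (n + 1) ∣ Ev n a (ff (1 - ((u⁻¹ : Rˣ) : R)) (PowerSeries.C (u : R) * b)) *
      (1 - PowerSeries.C (u : R) * a * b) - (1 - a * b) := by
  obtain ⟨c, hc⟩ : ∃ c : R⟦X⟧, c = PowerSeries.C (1 - ((u⁻¹ : Rˣ) : R)) := ⟨_, rfl⟩
  obtain ⟨w, hw⟩ : ∃ w : R⟦X⟧, w = PowerSeries.C (u : R) * a * b := ⟨_, rfl⟩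
  have h1 : Ev n a (ff (1 - ((u⁻¹ : Rˣ) : R)) (PowerSeries.C (u : R) * b)) =
      1 + c * ∑ m ∈ Finset.range n, w ^ (m + 1) := by
    unfold Ev ff
    rw [Finset.sum_range_succ', Finset.mul_sum, add_comm]
    congr 1
    · simp
    · apply Finset.sum_congr rfl
      intro m _
      rw [PowerSeries.coeff_mk, if_neg (by omega), ← hc, hw, mul_assoc, ← mul_pow]
      congr 2
      ring
  have h2 : (∑ m ∈ Finset.range n, w ^ (m + 1)) * (1 - w) = w - w ^ (n + 1) := by
    have h3 := geom_sum_mul_neg w n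
    have h4 : ∑ m ∈ Finset.range n, w ^ (m + 1) = w * ∑ m ∈ Finset.range n, w ^ m := by
      rw [Finset.mul_sum]
      apply Finset.sum_congr rfl
      intro m _
      ring
    rw [h4, mul_assoc, h3]
    ring
  have h5 : (1 - c) * w = a * b := by
    rw [hc, hw, map_sub, map_one, sub_sub_cancel]
    have : PowerSeries.C ((u⁻¹ : Rˣ) : R) * (PowerSeries.C (u : R) * a * b) =
        (PowerSeries.C ((u⁻¹ : Rˣ) : R) * PowerSeries.C (u : R)) * (a * b) := by ring
    rw [this, ← map_mul, Units.inv_mul, map_one, one_mul]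
  rw [h1, ← hw]
  have h6 : (1 + c * ∑ m ∈ Finset.range n, w ^ (m + 1)) * (1 - w) - (1 - a * b) =
      -(c * w ^ (n + 1)) := by
    calc (1 + c * ∑ m ∈ Finset.range n, w ^ (m + 1)) * (1 - w) - (1 - a * b)
        = 1 - w + c * ((∑ m ∈ Finset.range n, w ^ (m + 1)) * (1 - w)) - (1 - a * b) := by ring
      _ = 1 - w + c * (w - w ^ (n + 1)) - (1 - a * b) := by rw [h2]
      _ = a * b - (1 - c) * w - c * w ^ (n + 1) := by ring
      _ = -(c * w ^ (n + 1)) := by rw [h5]; ring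
  rw [h6, dvd_neg]
  apply Dvd.dvd.mul_left
  apply pow_dvd_pow_of_dvd
  rw [hw]
  exact hb.mul_left _

theorem ff_dvd (c : R) (x : R⟦X⟧) (hx : (X : R⟦X⟧) ∣ x) (m : ℕ) :
    (X : R⟦X⟧) ^ m ∣ coeff m (ff c x) := by
  unfold ff
  rw [PowerSeries.coeff_mk]
  split_ifs with h
  · rw [h, pow_zero]
  · exact (pow_dvd_pow_of_dvd hx m).mul_left _

theorem Ev_prod {ι : Type} (s : Finset ι) (n : ℕ) (a : R⟦X⟧) (b : ι → R⟦X⟧) (u : Rˣ)
    (hb : ∀ i ∈ s, (X : R⟦X⟧) ∣ b i) :
    (X : R⟦X⟧) ^ (n + 1) ∣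
      Ev n a (∏ j ∈ s, ff (1 - ((u⁻¹ : Rˣ) : R)) (PowerSeries.C (u : R) * b j)) *
      (∏ j ∈ s, (1 - PowerSeries.C (u : R) * a * b j)) - ∏ j ∈ s, (1 - a * b j) := by
  classical
  induction s using Finset.induction_on with
  | empty =>
    simp only [Finset.prod_empty, mul_one]
    have : Ev n a (1 : (R⟦X⟧)⟦X⟧) = 1 := by
      unfold Ev
      rw [Finset.sum_range_succ']
      simp [PowerSeries.coeff_one]
    rw [this, sub_self]
    exact dvd_zero _
  | insert i s hi ih =>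
    rw [Finset.prod_insert hi, Finset.prod_insert hi, Finset.prod_insert hi]
    have ih := ih fun j hj => hb j (Finset.mem_insert_of_mem hj)
    have h1 := Ev_ff n a (b i) u (hb i (Finset.mem_insert_self i s))
    have h2 := Ev_mul n a (P := ff (1 - ((u⁻¹ : Rˣ) : R)) (PowerSeries.C (u : R) * b i))
      (Q := ∏ j ∈ s, ff (1 - ((u⁻¹ : Rˣ) : R)) (PowerSeries.C (u : R) * b j))
      (ff_dvd _ _ ((hb i (Finset.mem_insert_self i s)).mul_left _))
      (dvd_coeff_prod s _ fun j hj m =>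
        ff_dvd _ _ ((hb j (Finset.mem_insert_of_mem hj)).mul_left _) m)
    generalize Ev n a (ff (1 - ((u⁻¹ : Rˣ) : R)) (PowerSeries.C (u : R) * b i)) = e1 at h1 h2
    generalize Ev n a (∏ j ∈ s, ff (1 - ((u⁻¹ : Rˣ) : R)) (PowerSeries.C (u : R) * b j)) = e2 at ih h2
    generalize Ev n a (ff (1 - ((u⁻¹ : Rˣ) : R)) (PowerSeries.C (u : R) * b i) *
      ∏ j ∈ s, ff (1 - ((u⁻¹ : Rˣ) : R)) (PowerSeries.C (u : R) * b j)) = e3 at h2 ⊢
    generalize (∏ j ∈ s, (1 - PowerSeries.C (u : R) * a * b j)) = p1 at ih ⊢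
    generalize (∏ j ∈ s, (1 - a * b j)) = p2 at ih ⊢
    generalize (1 - PowerSeries.C (u : R) * a * b i) = q1 at h1 ⊢
    generalize (1 - a * b i) = q2 at h1 ⊢
    have e : e3 * (q1 * p1) - q2 * p2 =
        -((e1 * e2 - e3) * (q1 * p1)) + (e1 * q1 - q2) * (e2 * p1) + q2 * (e2 * p1 - p2) := by ring
    rw [e]
    exact dvd_add (dvd_add ((dvd_neg).2 (h2.mul_right _)) (h1.mul_right _)) (ih.mul_left _)

end sub

/-! ### heights -/

theorem eq_range {T : Finset ℕ} (h : ∀ a ∈ T, ∀ b, b < a → b ∈ T) : T = Finset.range T.card := by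
  apply Finset.eq_of_subset_of_card_le
  · intro a ha
    rw [Finset.mem_range]
    have h1 : Finset.range (a + 1) ⊆ T := by
      intro b hb
      rw [Finset.mem_range] at hb
      rcases Nat.lt_succ_iff_lt_or_eq.1 hb with hb | rfl
      · exact h a ha b hb
      · exact ha
    have h2 := Finset.card_le_card h1
    rw [Finset.card_range] at h2
    omega
  · rw [Finset.card_range]

theorem mem_iff_slh {n : ℕ} {π : Finset Box} (hπ : π ∈ PP n) (d s l : ℕ) :
    (s + d, s, l) ∈ π ↔ l < slh d π s := by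
  classical
  obtain ⟨T, hT⟩ : ∃ T : Finset ℕ,
      T = (π.filter fun b => b.1 = s + d ∧ b.2.1 = s).image fun b => b.2.2 := ⟨_, rfl⟩
  have hmem : ∀ l, l ∈ T ↔ (s + d, s, l) ∈ π := by
    intro l
    rw [hT, Finset.mem_image]
    constructor
    · rintro ⟨⟨i, j, l'⟩, hb, rfl⟩
      rw [Finset.mem_filter] at hb
      obtain ⟨hb, h1, h2⟩ := hb
      simp only at h1 h2
      subst h1 h2
      exact hb
    · intro h
      exact ⟨(s + d, s, l), Finset.mem_filter.2 ⟨h, rfl, rfl⟩, rfl⟩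
  have hcard : T.card = slh d π s := by
    rw [hT, slh]
    apply Finset.card_image_of_injOn
    rintro ⟨i, j, l⟩ h1 ⟨i', j', l'⟩ h2 h3
    rw [Finset.mem_coe, Finset.mem_filter] at h1 h2
    simp only at h1 h2 h3
    obtain ⟨-, rfl, rfl⟩ := h1
    obtain ⟨-, rfl, rfl⟩ := h2
    rw [h3]
  have hlow : ∀ a ∈ T, ∀ b, b < a → b ∈ T := by
    intro a ha b hb
    rw [hmem] at ha ⊢
    exact PP_down hπ ha le_rfl le_rfl hb.le
  rw [← hmem l, eq_range hlow, Finset.mem_range, hcard]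

theorem Cd_eq {R : Type} [CommRing R] (u : Rˣ) (d K n : ℕ) {π : Finset Box} (hπ : π ∈ PP n)
    (hn : n ≤ K) :
    Cd u d π = ∑ s ∈ Finset.range K, ∑ l ∈ Finset.range (slh d π s),
      ((u ^ ((l : ℤ) - (s : ℤ)) : Rˣ) : R) := by
  classical
  unfold Cd
  rw [Finset.sum_sigma']
  refine Finset.sum_bij' (fun b _ => (⟨b.2.1, b.2.2⟩ : (_ : ℕ) × ℕ))
    (fun x _ => (x.1 + d, x.1, x.2)) ?_ ?_ ?_ ?_ ?_
  · rintro ⟨i, j, l⟩ hb
    rw [slice, Finset.mem_filter] at hb
    obtain ⟨hb, h1⟩ := hb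
    simp only at h1
    have h2 : i = j + d := by omega
    subst h2
    simp only [Finset.mem_sigma, Finset.mem_range]
    exact ⟨(PP_lt hπ hb).2.1.trans_le hn, (mem_iff_slh hπ d j l).1 hb⟩
  · rintro ⟨s, l⟩ hx
    simp only [Finset.mem_sigma, Finset.mem_range] at hx
    rw [slice, Finset.mem_filter]
    refine ⟨(mem_iff_slh hπ d s l).2 hx.2, ?_⟩
    simp
  · rintro ⟨i, j, l⟩ hb
    rw [slice, Finset.mem_filter] at hb
    obtain ⟨hb, h1⟩ := hb
    simp only at h1
    have h2 : i = j + d := by omega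
    subst h2
    rfl
  · rintro ⟨s, l⟩ _
    rfl
  · rintro ⟨i, j, l⟩ _
    rfl

/-! ### cancellation -/

section cancel
variable {R : Type} [Field R]

theorem cancel {V D : R⟦X⟧} (hV : V ≠ 0) (k : ℕ)
    (h : (X : R⟦X⟧) ^ (k + V.order.toNat) ∣ V * D) : (X : R⟦X⟧) ^ k ∣ D := by
  rw [PowerSeries.X_pow_dvd_iff] at h
  by_cases hD : D = 0
  · rw [hD]; exact dvd_zero _
  rw [PowerSeries.X_pow_dvd_iff]
  intro m hm
  by_contra hne
  -- the order of `D` is at most `m`
  have h1 : D.order ≤ m := PowerSeries.order_le m hne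
  have h2 : (V * D).order = V.order + D.order := PowerSeries.order_mul V D
  have h3 : V.order ≠ ⊤ := by rwa [Ne, PowerSeries.order_eq_top]
  have h4 : D.order ≠ ⊤ := by rwa [Ne, PowerSeries.order_eq_top]
  obtain ⟨a, ha⟩ := ENat.ne_top_iff_exists.1 h3
  obtain ⟨b, hb⟩ := ENat.ne_top_iff_exists.1 h4
  rw [← ha, ← hb] at h2
  rw [← hb] at h1
  rw [← ha] at h
  have h1' : b ≤ m := by exact_mod_cast h1
  have h5 : PowerSeries.coeff (a + b) (V * D) ≠ 0 := by
    have h6 : (V * D).order = ((a + b : ℕ) : ℕ∞) := by rw [h2]; push_cast; rfl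
    exact (PowerSeries.order_eq_nat.1 h6).1
  apply h5
  apply h
  simp only [ENat.toNat_natCast]
  omega

end cancel

theorem prod_reindex {M : Type} [CommMonoid M] (K : ℕ) (f : ℕ → M) :
    ∏ k : Fin K, f (K - 1 - k) = ∏ i ∈ Finset.range K, f i := by
  rw [← Finset.prod_range_reflect f K, Finset.prod_range fun i => f (K - 1 - i)]

theorem sum_Icc_range {M : Type} [AddCommMonoid M] (f : ℕ → M) (n : ℕ) :
    ∑ m ∈ Finset.Icc 1 n, f m = ∑ m ∈ Finset.range n, f (m + 1) := by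
  induction n with
  | zero => simp
  | succ n ih => rw [Finset.sum_Icc_succ_top (by omega), Finset.sum_range_succ, ih]

theorem geo {R : Type} [CommRing R] (u : Rˣ) (K : ℕ) (μ : Fin K → ℕ) :
    ((u : R) - 1) * ∑ j : Fin K, (u : R) ^ (μ j + (K - 1 - (j : ℕ))) =
      ((u : R) ^ K - 1) + ((u : R) - 1) ^ 2 * (u : R) ^ (K - 1) *
        ∑ j : Fin K, ∑ l ∈ Finset.range (μ j), ((u ^ ((l : ℤ) - ((j : ℕ) : ℤ)) : Rˣ) : R) := by
  have h0 : ∀ j : Fin K, (u : R) ^ (μ j + (K - 1 - (j : ℕ))) = (u : R) ^ (K - 1 - (j : ℕ)) +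
      ((u : R) - 1) * ((u : R) ^ (K - 1) *
        ∑ l ∈ Finset.range (μ j), ((u ^ ((l : ℤ) - ((j : ℕ) : ℤ)) : Rˣ) : R)) := by
    intro j
    have h1 : (u : R) ^ (K - 1) *
        ∑ l ∈ Finset.range (μ j), ((u ^ ((l : ℤ) - ((j : ℕ) : ℤ)) : Rˣ) : R) =
        (u : R) ^ (K - 1 - (j : ℕ)) * ∑ l ∈ Finset.range (μ j), (u : R) ^ l := by
      rw [Finset.mul_sum, Finset.mul_sum]
      apply Finset.sum_congr rfl
      intro l _
      rw [← Units.val_pow_eq_pow_val, ← Units.val_pow_eq_pow_val, ← Units.val_pow_eq_pow_val,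
        ← Units.val_mul, ← Units.val_mul]
      congr 1
      rw [← zpow_natCast, ← zpow_natCast, ← zpow_natCast, ← zpow_add, ← zpow_add]
      congr 1
      have := j.2
      omega
    rw [h1]
    have h2 := geom_sum_mul (u : R) (μ j)
    have h3 : ((u : R) - 1) * ((u : R) ^ (K - 1 - (j : ℕ)) * ∑ l ∈ Finset.range (μ j), (u : R) ^ l) =
        (u : R) ^ (K - 1 - (j : ℕ)) * ((∑ l ∈ Finset.range (μ j), (u : R) ^ l) * ((u : R) - 1)) := by
      ring
    rw [h3, h2, pow_add]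
    ring
  have h4 : ∑ j : Fin K, (u : R) ^ (K - 1 - (j : ℕ)) = ∑ i ∈ Finset.range K, (u : R) ^ i := by
    rw [← Finset.sum_range_reflect (fun i => (u : R) ^ i) K,
      Finset.sum_range fun i => (u : R) ^ (K - 1 - i)]
  rw [Finset.sum_congr rfl fun j _ => h0 j, Finset.sum_add_distrib, h4, ← Finset.mul_sum,
    ← Finset.mul_sum]
  have h5 := geom_sum_mul (u : R) K
  linear_combination h5

end F4K

open F4K in
theorem F4K (h3 : S_A3) (h4 : S_A4) : S_F4K := by
  classical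
  intro R _ u y hy d K n hn
  have hK : 0 < K := by omega
  -- notation
  obtain ⟨c, hc⟩ : ∃ c : R, c = 1 - ((u⁻¹ : Rˣ) : R) := ⟨_, rfl⟩
  obtain ⟨U, hU⟩ : ∃ U : R⟦X⟧, U = PowerSeries.C (u : R) := ⟨_, rfl⟩
  obtain ⟨a, ha⟩ : ∃ a : Fin K → R⟦X⟧, a = fun i : Fin K => aa y d (K - 1 - (i : ℕ)) := ⟨_, rfl⟩
  obtain ⟨V, hV⟩ : ∃ V : R⟦X⟧, V = Dt a 0 := ⟨_, rfl⟩
  obtain ⟨n', hn'⟩ : ∃ n' : ℕ, n' = n + V.order.toNat := ⟨_, rfl⟩
  obtain ⟨G, hG⟩ : ∃ G : R⟦X⟧,
    G = Fbox K (K + d) y (fun μ => ∑ j : Fin K, (u : R) ^ (μ j + (K - 1 - (j : ℕ)))) d := ⟨_, rfl⟩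
  obtain ⟨F1, hF1⟩ : ∃ F1 : R⟦X⟧, F1 = Fbox K (K + d) y (fun _ => 1) d := ⟨_, rfl⟩
  have hbX : ∀ j, (X : R⟦X⟧) ∣ bb y d j := by
    intro j
    unfold bb
    have h5 : (d : ℤ) ∈ Finset.Icc (d : ℤ) ((d : ℤ) + j) := by
      rw [Finset.mem_Icc]; omega
    rw [← Finset.mul_prod_erase _ _ h5]
    exact (Dvd.intro_left _ rfl : (X : R⟦X⟧) ∣ PowerSeries.C (y d) * X).mul_right _
  -- powers of `X` in `a i`
  have haa : ∀ i, aa y d i = PowerSeries.C (∏ e ∈ Finset.Ico (-(i : ℤ)) (d : ℤ), y e) *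
      X ^ (d + i) := by
    intro i
    unfold aa
    rw [Finset.prod_mul_distrib, Finset.prod_const, Int.card_Ico, map_prod]
    congr 2
    omega
  have hCne : ∀ i : ℕ, (∏ e ∈ Finset.Ico (-(i : ℤ)) (d : ℤ), y e) ≠ 0 := fun i =>
    Finset.prod_ne_zero_iff.2 fun e _ => hy e
  have haone : ∀ i, a i ≠ 0 := by
    intro i
    rw [ha]
    simp only
    rw [haa]
    exact mul_ne_zero (by rw [Ne, map_eq_zero_iff _ PowerSeries.C_injective]; exact hCne _) (pow_ne_zero _ PowerSeries.X_ne_zero)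
  have hord : ∀ i, (aa y d i).order = ((d + i : ℕ) : ℕ∞) := by
    intro i
    rw [haa, PowerSeries.order_mul, PowerSeries.order_X_pow]
    have : (PowerSeries.C (∏ e ∈ Finset.Ico (-(i : ℤ)) (d : ℤ), y e)).order = 0 := by
      rw [PowerSeries.order_zero_of_unit]
      rw [PowerSeries.isUnit_iff_constantCoeff, PowerSeries.constantCoeff_C]
      exact (hCne i).isUnit
    rw [this, zero_add]
  have hinj : Function.Injective a := by
    intro i j hij
    rw [ha] at hij
    simp only at hij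
    have h5 := congrArg PowerSeries.order hij
    rw [hord, hord] at h5
    have h6 : d + (K - 1 - (i : ℕ)) = d + (K - 1 - (j : ℕ)) := by exact_mod_cast h5
    have := i.2
    have := j.2
    exact Fin.ext (by omega)
  have hV0 : V ≠ 0 := by
    rw [hV]
    unfold Dt
    have h5 : (Matrix.of fun i j : Fin K => a i ^ ((0 : Fin K → ℕ) j + (K - 1 - (j : ℕ)))) =
        (Matrix.vandermonde a).submatrix id Fin.rev := by
      ext i j
      simp only [Matrix.of_apply, Matrix.submatrix_apply, Matrix.vandermonde_apply, id, Pi.zero_apply,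
        zero_add, Fin.val_rev]
      congr 2
      omega
    rw [h5]
    have h6 := Matrix.det_permute' (Fin.revPerm) (Matrix.vandermonde a)
    have h7 : (Matrix.vandermonde a).submatrix id Fin.rev =
        (Matrix.vandermonde a).submatrix id (Fin.revPerm : Equiv.Perm (Fin K)) := rfl
    rw [h7, h6]
    refine mul_ne_zero ?_ (Matrix.det_vandermonde_ne_zero_iff.2 hinj)
    rcases Int.units_eq_one_or (Equiv.Perm.sign (Fin.revPerm : Equiv.Perm (Fin K))) with h | h <;>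
      rw [h] <;> simp
  -- the products
  obtain ⟨P, hP⟩ : ∃ P : (R⟦X⟧)⟦X⟧, P = ∏ j ∈ Finset.range K, ff c (U * bb y d j) := ⟨_, rfl⟩
  have hBm : ∀ m, Bm K u y d m = coeff m P := by
    intro m
    rw [hP, hU, hc]
    rfl
  have hPX : ∀ m, (X : R⟦X⟧) ^ m ∣ coeff m P := by
    intro m
    rw [hP]
    exact dvd_coeff_prod _ _ (fun j _ m => ff_dvd _ _ ((hbX j).mul_left _) m) m
  have hprod : ∀ i : Fin K, (X : R⟦X⟧) ^ (n' + 1) ∣
      (∏ j ∈ Finset.range (K + d - d), ((1 - aa y d (K - 1 - i) * bb y d j) *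
        (1 - PowerSeries.C (u : R) * aa y d (K - 1 - i) * bb y d j)⁻¹)) - Ev n' (a i) P := by
    intro i
    have hai : aa y d (K - 1 - i) = a i := by rw [ha]
    rw [hai, Nat.add_sub_cancel, Finset.prod_mul_distrib]
    have h5 := Ev_prod (Finset.range K) n' (a i) (fun j => bb y d j) u fun j _ => hbX j
    rw [← hc, ← hU, ← hP] at h5
    rw [← hU]
    have h6 : (∏ j ∈ Finset.range K, (1 - U * a i * bb y d j)) *
        (∏ j ∈ Finset.range K, (1 - U * a i * bb y d j)⁻¹) = 1 := by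
      rw [← Finset.prod_mul_distrib]
      apply Finset.prod_eq_one
      intro j _
      apply PowerSeries.mul_inv_cancel
      obtain ⟨b, hb⟩ := hbX j
      rw [hb]
      simp
    generalize (∏ j ∈ Finset.range K, (1 - U * a i * bb y d j)) = p at h5 h6
    generalize (∏ j ∈ Finset.range K, (1 - U * a i * bb y d j)⁻¹) = q at h6
    generalize (∏ j ∈ Finset.range K, (1 - a i * bb y d j)) = r at h5
    have e : r * q - Ev n' (a i) P = -((Ev n' (a i) P * p - r) * q) := by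
      linear_combination (Ev n' (a i) P) * h6
    rw [e, dvd_neg]
    exact h5.mul_right _
  -- `A3`
  have hA3 := h3 R (u : R) y hy d K (K + d) (by omega)
  rw [← ha, ← hV, ← hG, ← hF1] at hA3
  have hA3' : (X : R⟦X⟧) ^ (n' + 1) ∣ V * G - F1 * ∑ i : Fin K,
      Dt (Function.update a i (U * a i)) 0 * Ev n' (a i) P := by
    rw [hA3, ← mul_sub, ← Finset.sum_sub_distrib]
    apply Dvd.dvd.mul_left
    apply Finset.dvd_sum
    intro i _
    have hai : aa y d (K - 1 - i) = a i := by rw [ha]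
    have h5 := hprod i
    rw [hai, ← hU] at h5 ⊢
    rw [← mul_sub]
    exact h5.mul_left _
  -- `A4`
  obtain ⟨hA40, hA4⟩ := h4 R⟦X⟧ K U a hinj haone
  rw [← hV] at hA40 hA4
  have hAm : ∀ m, PowerSeries.coeff m
      (∏ k, (PowerSeries.mk fun j => if j = 0 then U else (U - 1) * a k ^ j : (R⟦X⟧)⟦X⟧)) =
      U ^ K * Am K u y d m := by
    intro m
    have h5 : ∀ k : Fin K, (PowerSeries.mk fun j => if j = 0 then U else (U - 1) * a k ^ j :
        (R⟦X⟧)⟦X⟧) = PowerSeries.C U * ff c (aa y d (K - 1 - k)) := by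
      intro k
      ext j : 1
      unfold ff
      rw [PowerSeries.coeff_mk, PowerSeries.coeff_C_mul, PowerSeries.coeff_mk]
      split_ifs with h
      · rw [mul_one]
      · have h6 : U * PowerSeries.C c = U - 1 := by
          rw [hU, hc, ← map_mul, mul_sub, Units.mul_inv, mul_one, map_sub, map_one]
        have hai : aa y d (K - 1 - k) = a k := by rw [ha]
        rw [← mul_assoc, h6, hai]
    rw [Finset.prod_congr rfl fun k _ => h5 k, Finset.prod_mul_distrib, Finset.prod_const,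
      Finset.card_univ, Fintype.card_fin, ← map_pow, PowerSeries.coeff_C_mul,
      prod_reindex K fun i => ff c (aa y d i), hc]
    rfl
  have hP0 : coeff 0 P = 1 := by
    rw [PowerSeries.coeff_zero_eq_constantCoeff_apply, hP, map_prod]
    apply Finset.prod_eq_one
    intro j _
    rw [← PowerSeries.coeff_zero_eq_constantCoeff_apply]
    unfold ff
    rw [PowerSeries.coeff_mk, if_pos rfl]
  have hsum : (U - 1) * ∑ i : Fin K, Dt (Function.update a i (U * a i)) 0 * Ev n' (a i) P =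
      V * ((U ^ K - 1) + U ^ K * ∑ m ∈ Finset.Icc 1 n', Am K u y d m * Bm K u y d m) := by
    have h5 : ∑ i : Fin K, Dt (Function.update a i (U * a i)) 0 * Ev n' (a i) P =
        ∑ m ∈ Finset.range (n' + 1), coeff m P *
          ∑ i : Fin K, Dt (Function.update a i (U * a i)) 0 * a i ^ m := by
      unfold Ev
      simp only [Finset.mul_sum]
      rw [Finset.sum_comm]
      apply Finset.sum_congr rfl
      intro m _
      apply Finset.sum_congr rfl
      intro i _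
      ring
    rw [h5, Finset.sum_range_succ', hP0]
    simp only [pow_zero, mul_one, one_mul]
    rw [mul_add, hA40, Finset.mul_sum]
    have h6 : ∀ m ∈ Finset.range n', (U - 1) * (coeff (m + 1) P *
        ∑ i : Fin K, Dt (Function.update a i (U * a i)) 0 * a i ^ (m + 1)) =
        V * (U ^ K * (Am K u y d (m + 1) * Bm K u y d (m + 1))) := by
      intro m _
      have h7 := hA4 (m + 1) (by omega)
      rw [hAm] at h7
      rw [hBm]
      calc (U - 1) * (coeff (m + 1) P *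
            ∑ i : Fin K, Dt (Function.update a i (U * a i)) 0 * a i ^ (m + 1))
          = coeff (m + 1) P * ((U - 1) *
            ∑ i : Fin K, Dt (Function.update a i (U * a i)) 0 * a i ^ (m + 1)) := by ring
        _ = _ := by rw [h7]; ring
    rw [Finset.sum_congr rfl h6, ← Finset.mul_sum, ← Finset.mul_sum]
    rw [sum_Icc_range]
    ring
  -- cancellation of `V`
  have hcan : (X : R⟦X⟧) ^ (n + 1) ∣ (U - 1) * G -
      F1 * ((U ^ K - 1) + U ^ K * ∑ m ∈ Finset.Icc 1 n', Am K u y d m * Bm K u y d m) := by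
    apply cancel hV0
    have h5 : n + 1 + V.order.toNat = n' + 1 := by omega
    rw [h5]
    have h6 : V * ((U - 1) * G -
        F1 * ((U ^ K - 1) + U ^ K * ∑ m ∈ Finset.Icc 1 n', Am K u y d m * Bm K u y d m)) =
        (U - 1) * (V * G - F1 * ∑ i : Fin K,
          Dt (Function.update a i (U * a i)) 0 * Ev n' (a i) P) := by
      linear_combination F1 * hsum
    rw [h6]
    exact hA3'.mul_left _
  -- truncation of the sum
  have htr : (X : R⟦X⟧) ^ (n + 1) ∣ (∑ m ∈ Finset.Icc 1 n', Am K u y d m * Bm K u y d m) -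
      ∑ m ∈ Finset.Icc 1 n, Am K u y d m * Bm K u y d m := by
    have h5 : Finset.Icc 1 n ⊆ Finset.Icc 1 n' := Finset.Icc_subset_Icc_right (by omega)
    rw [← Finset.sum_sdiff h5, add_sub_cancel_right]
    apply Finset.dvd_sum
    intro m hm
    rw [Finset.mem_sdiff, Finset.mem_Icc, Finset.mem_Icc] at hm
    have h6 : (X : R⟦X⟧) ^ (n + 1) ∣ X ^ m := pow_dvd_pow _ (by omega)
    rw [hBm]
    exact h6.trans ((hPX m).mul_left _)
  -- the geometric sum
  obtain ⟨G2, hG2⟩ : ∃ G2 : R⟦X⟧, G2 = Fbox K (K + d) y (fun μ => ∑ j : Fin K,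
    ∑ l ∈ Finset.range (μ j), ((u ^ ((l : ℤ) - ((j : ℕ) : ℤ)) : Rˣ) : R)) d := ⟨_, rfl⟩
  have hgeo : (U - 1) * G = (U ^ K - 1) * F1 + (U - 1) ^ 2 * U ^ (K - 1) * G2 := by
    have h5 : ∀ (r : R) (g : (Fin K → ℕ) → R), PowerSeries.C r * Fbox K (K + d) y g d =
        Fbox K (K + d) y (fun μ => r * g μ) d := by
      intro r g
      ext m
      unfold Fbox
      rw [PowerSeries.coeff_C_mul, PowerSeries.coeff_mk, PowerSeries.coeff_mk, Finset.mul_sum]
      apply Finset.sum_congr rfl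
      intro π _
      ring
    have h6 : ∀ (g g' : (Fin K → ℕ) → R), Fbox K (K + d) y g d + Fbox K (K + d) y g' d =
        Fbox K (K + d) y (fun μ => g μ + g' μ) d := by
      intro g g'
      ext m
      unfold Fbox
      rw [map_add, PowerSeries.coeff_mk, PowerSeries.coeff_mk, PowerSeries.coeff_mk,
        ← Finset.sum_add_distrib]
      apply Finset.sum_congr rfl
      intro π _
      ring
    have h7 : U - 1 = PowerSeries.C ((u : R) - 1) := by rw [hU, map_sub, map_one]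
    have h8 : U ^ K - 1 = PowerSeries.C ((u : R) ^ K - 1) := by
      rw [hU, map_sub, map_one, map_pow]
    have h9 : (U - 1) ^ 2 * U ^ (K - 1) =
        PowerSeries.C (((u : R) - 1) ^ 2 * (u : R) ^ (K - 1)) := by
      rw [h7, hU, map_mul, map_pow, map_pow]
    rw [h8, h9, h7, hG, hF1, hG2, h5, h5, h5, h6]
    congr 1
    funext μ
    rw [geo, mul_one]
  -- comparison with `gen`
  have hfil : ∀ m, m ≤ n → ∀ π ∈ PP m, ∀ b ∈ π, b.1 < K + d ∧ b.2.1 < K := by
    rintro m hm π hπ ⟨i, j, l⟩ hb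
    have := PP_lt hπ hb
    simp only
    omega
  have hg1 : (X : R⟦X⟧) ^ (n + 1) ∣ F1 - gen (wy y) := by
    apply X_pow_dvd_of_coeff
    intro m hm
    rw [map_sub, coeff_gen, hF1]
    unfold Fbox
    rw [PowerSeries.coeff_mk, sub_eq_zero]
    rw [Finset.filter_true_of_mem (hfil m (by omega))]
    apply Finset.sum_congr rfl
    intro π _
    rw [mul_one]
  have hg2 : (X : R⟦X⟧) ^ (n + 1) ∣ G2 - gen (fun π => wy y π * Cd u d π) := by
    apply X_pow_dvd_of_coeff
    intro m hm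
    rw [map_sub, coeff_gen, hG2]
    unfold Fbox
    rw [PowerSeries.coeff_mk, sub_eq_zero]
    rw [Finset.filter_true_of_mem (hfil m (by omega))]
    apply Finset.sum_congr rfl
    intro π hπ
    rw [Cd_eq u d K m hπ (by omega), Finset.sum_range fun s => ∑ l ∈ Finset.range (slh d π s),
      ((u ^ ((l : ℤ) - (s : ℤ)) : Rˣ) : R)]
  -- the end
  have hUinv : PowerSeries.C (((u⁻¹ : Rˣ) : R) ^ (K - 1)) * U ^ (K - 1) = 1 := by
    rw [hU, ← map_pow, ← map_mul, ← mul_pow, Units.inv_mul, one_pow, map_one]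
  have hUK : U ^ K = U ^ (K - 1) * U := by rw [← pow_succ]; congr 1; omega
  have hfin : (X : R⟦X⟧) ^ (n + 1) ∣ (U - 1) ^ 2 * gen (fun π => wy y π * Cd u d π) -
      U * gen (wy y) * ∑ m ∈ Finset.Icc 1 n, Am K u y d m * Bm K u y d m := by
    generalize (∑ m ∈ Finset.Icc 1 n', Am K u y d m * Bm K u y d m) = s1 at hcan htr
    generalize (∑ m ∈ Finset.Icc 1 n, Am K u y d m * Bm K u y d m) = s2 at htr ⊢
    generalize gen (fun π => wy y π * Cd u d π) = g2 at hg2 ⊢
    generalize gen (wy y) = g1 at hg1 ⊢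
    generalize PowerSeries.C (((u⁻¹ : Rˣ) : R) ^ (K - 1)) = I at hUinv
    rw [hgeo] at hcan
    have e : (U - 1) ^ 2 * g2 - U * g1 * s2 =
        I * ((U ^ K - 1) * F1 + (U - 1) ^ 2 * U ^ (K - 1) * G2 - F1 * ((U ^ K - 1) + U ^ K * s1)) -
        (U - 1) ^ 2 * (G2 - g2) + U * F1 * (s1 - s2) + U * s2 * (F1 - g1) := by
      rw [hUK]
      linear_combination (-(U - 1) ^ 2 * G2 + F1 * U * s1) * hUinv
    rw [e]
    exact dvd_add (dvd_add (dvd_sub (hcan.mul_left _) (hg2.mul_left _)) (htr.mul_left _))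
      (hg1.mul_left _)
  have h5 := (PowerSeries.X_pow_dvd_iff.1 hfin) n (by omega)
  rw [map_sub, sub_eq_zero, hU] at h5
  exact h5

end Pool.Agent.H946.Z
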