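import Pool.Agent.H946.Z.Basic
set_option autoImplicit false

/-!
# MP_d9449f_ag : the first order formula (`S_F5`)
-/

namespace Pool.Agent.H946.Z

open PowerSeries

noncomputable section

namespace F5

/-! ## Congruence modulo `X^K` -/

section Cg
variable {R : Type} [CommRing R]

/-- equality of coefficients below `K`. -/
def Cg (K : ℕ) (F G : R⟦X⟧) : Prop :=
  ∀ n, n < K → PowerSeries.coeff n F = PowerSeries.coeff n G

theorem Cg.refl (K : ℕ) (F : R⟦X⟧) : Cg K F F := fun _ _ => rfl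

theorem Cg.trans {K : ℕ} {F G H : R⟦X⟧} (h1 : Cg K F G) (h2 : Cg K G H) : Cg K F H :=
  fun n hn => (h1 n hn).trans (h2 n hn)

theorem Cg.add {K : ℕ} {F G F' G' : R⟦X⟧} (h1 : Cg K F G) (h2 : Cg K F' G') :
    Cg K (F + F') (G + G') := fun n hn => by
  rw [map_add, map_add, h1 n hn, h2 n hn]

theorem Cg.mul {K : ℕ} {F G F' G' : R⟦X⟧} (h1 : Cg K F G) (h2 : Cg K F' G') :
    Cg K (F * F') (G * G') := fun n hn => by
  rw [PowerSeries.coeff_mul, PowerSeries.coeff_mul]
  apply Finset.sum_congr rfl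
  intro p hp
  rw [Finset.HasAntidiagonal.mem_antidiagonal] at hp
  rw [h1 p.1 (by omega), h2 p.2 (by omega)]

theorem Cg.sum {K : ℕ} {ι : Type*} (s : Finset ι) {F G : ι → R⟦X⟧}
    (h : ∀ i ∈ s, Cg K (F i) (G i)) : Cg K (∑ i ∈ s, F i) (∑ i ∈ s, G i) := fun n hn => by
  rw [map_sum, map_sum]
  exact Finset.sum_congr rfl fun i hi => h i hi n hn

/-- a `psum` without the zeroth term. -/
theorem Cg_psum (f : ℕ → R⟦X⟧) (hf : ∀ k, (X : R⟦X⟧) ^ k ∣ f k) (n : ℕ) :
    Cg (n + 1) (∑ m ∈ Finset.Icc 1 n, f m) (psum fun m => if m = 0 then 0 else f m) := by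
  intro n' hn'
  rw [coeff_psum (fun m => if m = 0 then 0 else f m) _ n' (n + 1) hn']
  · congr 1
    rw [Finset.range_eq_Ico, Finset.sum_eq_sum_Ico_succ_bot (by omega : 0 < n + 1), if_pos rfl,
      zero_add]
    apply Finset.sum_congr
    · ext m
      simp only [Finset.mem_Icc, Finset.mem_Ico]
      omega
    · intro m hm
      rw [Finset.mem_Ico] at hm
      rw [if_neg (by omega)]
  · intro k
    by_cases hk : k = 0
    · rw [hk]; simp
    · rw [if_neg hk]; exact hf k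

end Cg

/-! ## Coefficients of `s^0` and `s^1` -/

section cs
variable {R : Type} [CommRing R]

theorem coeff_cs (i n : ℕ) (F : (Polynomial R)⟦X⟧) :
    PowerSeries.coeff n (cs i F) = (PowerSeries.coeff n F).coeff i := by
  unfold cs; rw [PowerSeries.coeff_mk]

theorem cs_zero_mul (F G : (Polynomial R)⟦X⟧) : cs 0 (F * G) = cs 0 F * cs 0 G := by
  ext n
  rw [coeff_cs, PowerSeries.coeff_mul, PowerSeries.coeff_mul, Polynomial.finsetSum_coeff]
  apply Finset.sum_congr rfl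
  intro p _
  rw [coeff_cs, coeff_cs, Polynomial.mul_coeff_zero]

theorem cs_one_mul (F G : (Polynomial R)⟦X⟧) :
    cs 1 (F * G) = cs 0 F * cs 1 G + cs 1 F * cs 0 G := by
  ext n
  rw [coeff_cs, map_add, PowerSeries.coeff_mul, PowerSeries.coeff_mul, PowerSeries.coeff_mul,
    Polynomial.finsetSum_coeff, ← Finset.sum_add_distrib]
  apply Finset.sum_congr rfl
  intro p _
  rw [coeff_cs, coeff_cs, coeff_cs, coeff_cs, Polynomial.mul_coeff_one]

theorem cs_sum {ι : Type*} (i : ℕ) (s : Finset ι) (F : ι → (Polynomial R)⟦X⟧) :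
    cs i (∑ j ∈ s, F j) = ∑ j ∈ s, cs i (F j) := by
  ext n
  rw [coeff_cs, map_sum, map_sum, Polynomial.finsetSum_coeff]
  apply Finset.sum_congr rfl
  intro j _
  rw [coeff_cs]

theorem cs_C_mul (i : ℕ) (r : R) (F : (Polynomial R)⟦X⟧) :
    cs i (PowerSeries.C (Polynomial.C r) * F) = PowerSeries.C r * cs i F := by
  ext n
  rw [coeff_cs, PowerSeries.coeff_C_mul, PowerSeries.coeff_C_mul, coeff_cs,
    Polynomial.coeff_C_mul]

theorem cs_gen (i : ℕ) (f : Finset Box → Polynomial R) :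
    cs i (gen f) = gen fun π => (f π).coeff i := by
  ext n
  rw [coeff_cs, coeff_gen, coeff_gen, Polynomial.finsetSum_coeff]

/-- products of `1 + f s`. -/
theorem prod_coeff (s : Finset Box) (f : Box → R) :
    (∏ b ∈ s, (1 + Polynomial.C (f b) * Polynomial.X)).coeff 0 = 1 ∧
      (∏ b ∈ s, (1 + Polynomial.C (f b) * Polynomial.X)).coeff 1 = ∑ b ∈ s, f b := by
  classical
  induction s using Finset.induction_on with
  | empty =>
    refine ⟨by simp, ?_⟩
    rw [Finset.prod_empty, Finset.sum_empty, Polynomial.coeff_one]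
    simp
  | insert a s ha ih =>
    rw [Finset.prod_insert ha, Finset.sum_insert ha, Polynomial.mul_coeff_zero,
      Polynomial.mul_coeff_one, ih.1, ih.2]
    have h0 : (1 + Polynomial.C (f a) * Polynomial.X : Polynomial R).coeff 0 = 1 := by simp
    have h1 : (1 + Polynomial.C (f a) * Polynomial.X : Polynomial R).coeff 1 = f a := by
      simp [Polynomial.coeff_one]
    rw [h0, h1]
    refine ⟨by ring, by ring⟩

theorem wy_coeff (φ : ℤ → R) (π : Finset Box) :
    (wy (yphi φ) π).coeff 0 = 1 ∧ (wy (yphi φ) π).coeff 1 = Phi φ π := by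
  unfold wy yphi Phi
  exact prod_coeff π fun b => φ ((b.1 : ℤ) - (b.2.1 : ℤ))

theorem uP_coe (u : Rˣ) : ((uP u : (Polynomial R)ˣ) : Polynomial R) = Polynomial.C (u : R) := rfl

theorem Cd_uP (u : Rˣ) (d : ℕ) (π : Finset Box) :
    Cd (uP u) d π = Polynomial.C (Cd u d π) := by
  unfold Cd
  rw [map_sum]
  apply Finset.sum_congr rfl
  intro b _
  unfold uP
  rw [← map_zpow]
  rfl

theorem yphi_ne [Nontrivial R] (φ : ℤ → R) (e : ℤ) : yphi φ e ≠ 0 := by
  intro h
  have h0 : (yphi φ e).coeff 0 = 1 := by unfold yphi; simp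
  rw [h, Polynomial.coeff_zero] at h0
  exact zero_ne_one h0

end cs

/-! ## The closed forms -/

section main
variable {R : Type} [CommRing R]

/-- `[s^0] A_m`. -/
def A0 (u : Rˣ) (d m : ℕ) : R⟦X⟧ := X ^ (d * m) * cq u m

/-- `[s^1] A_m`. -/
def A1 (u : Rˣ) (φ : ℤ → R) (d m : ℕ) : R⟦X⟧ :=
  ∑ k ∈ Finset.Icc 1 m, X ^ (d * (m - k)) * cq u (m - k) *
    PowerSeries.C (1 - ((u⁻¹ : Rˣ) : R) ^ k) * uu R k * WL φ d k

/-- `[s^0] B_m`. -/
def B0 (u : Rˣ) (m : ℕ) : R⟦X⟧ := PowerSeries.C ((u : R) ^ m) * X ^ m * cq u m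

/-- `[s^1] B_m`. -/
def B1 (u : Rˣ) (φ : ℤ → R) (d m : ℕ) : R⟦X⟧ :=
  ∑ k ∈ Finset.Icc 1 m,
    PowerSeries.C ((u : R) ^ (m - k)) * X ^ (m - k) * cq u (m - k) *
      PowerSeries.C ((u : R) ^ k - 1) * uu R k * WR φ d k

theorem coeff_WR (φ : ℤ → R) (d k n : ℕ) :
    PowerSeries.coeff n (WR φ d k) = ∑ j ∈ Finset.range (n + 1),
      if k * (j + 1) = n then φ ((d : ℤ) + j) else 0 := by
  unfold WR; rw [PowerSeries.coeff_mk]

theorem dvd_WR (φ : ℤ → R) (d k : ℕ) : (X : R⟦X⟧) ^ k ∣ WR φ d k := by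
  apply X_pow_dvd_of_coeff
  intro n hn
  rw [coeff_WR]
  apply Finset.sum_eq_zero
  intro j _
  rw [if_neg]
  intro h
  have : k * 1 ≤ k * (j + 1) := Nat.mul_le_mul_left k (by omega)
  omega

theorem dvd_B0 (u : Rˣ) (m : ℕ) : (X : R⟦X⟧) ^ m ∣ B0 u m := by
  unfold B0
  exact Dvd.dvd.mul_right (Dvd.intro_left _ rfl) _

theorem dvd_B1 (u : Rˣ) (φ : ℤ → R) (d m : ℕ) : (X : R⟦X⟧) ^ m ∣ B1 u φ d m := by
  unfold B1
  apply Finset.dvd_sum
  intro k hk
  rw [Finset.mem_Icc] at hk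
  obtain ⟨w, hw⟩ := dvd_WR φ d k
  rw [hw]
  have : (X : R⟦X⟧) ^ m = X ^ (m - k) * X ^ k := by rw [← pow_add]; congr 1; omega
  rw [this]
  exact ⟨PowerSeries.C ((u : R) ^ (m - k)) * cq u (m - k) *
      PowerSeries.C ((u : R) ^ k - 1) * uu R k * w, by ring⟩

/-- the zeroth order series. -/
def Sig0 (u : Rˣ) (d : ℕ) : R⟦X⟧ := psum fun m => if m = 0 then 0 else A0 u d m * B0 u m

/-- the first order series. -/
def Sig1 (u : Rˣ) (φ : ℤ → R) (d : ℕ) : R⟦X⟧ :=
  psum fun m => if m = 0 then 0 else A0 u d m * B1 u φ d m + A1 u φ d m * B0 u m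

theorem E0 (h : S_F4) (hA : S_F5A) (hB : S_F5B) [IsDomain R] (u : Rˣ) (φ : ℤ → R) (d : ℕ) :
    (PowerSeries.C (u : R) - 1) ^ 2 * gen (Cd u d) =
      PowerSeries.C (u : R) * (gen (fun _ => (1 : R)) * Sig0 u d) := by
  ext n
  have h1 := h (Polynomial R) (uP u) (yphi φ) (yphi_ne φ) d (n + 1) n (Nat.lt_succ_self n)
  have h2 := congrArg (fun p : Polynomial R => p.coeff 0) h1
  simp only [← coeff_cs] at h2
  have e1 : (PowerSeries.C (((uP u : (Polynomial R)ˣ)) : Polynomial R) - 1) ^ 2 =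
      PowerSeries.C (Polynomial.C (((u : R) - 1) ^ 2)) := by
    rw [uP_coe]; simp [map_pow, map_sub]
  have e2 : (PowerSeries.C (u : R) - 1) ^ 2 = PowerSeries.C (((u : R) - 1) ^ 2) := by
    simp [map_pow, map_sub]
  rw [e1, cs_C_mul, cs_gen, uP_coe, mul_assoc, cs_C_mul, cs_zero_mul, cs_gen, cs_sum] at h2
  have e3 : (fun π => (wy (yphi φ) π * Cd (uP u) d π).coeff 0) = Cd u d := by
    funext π
    rw [Polynomial.mul_coeff_zero, (wy_coeff φ π).1, Cd_uP, Polynomial.coeff_C_zero, one_mul]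
  have e4 : (fun π => (wy (yphi φ) π).coeff 0) = fun _ => (1 : R) := by
    funext π; exact (wy_coeff φ π).1
  rw [e3, e4] at h2
  rw [e2, h2]
  refine (Cg.mul (Cg.refl (n + 1) _) (Cg.mul (Cg.refl (n + 1) _) ?_)) n (Nat.lt_succ_self n)
  refine Cg.trans ?_ (Cg_psum (fun m => A0 u d m * B0 u m)
    (fun m => Dvd.dvd.mul_left (dvd_B0 u m) _) n)
  apply Cg.sum
  intro m _
  rw [cs_zero_mul]
  exact Cg.mul (fun n' hn' => (hA R u φ d (n + 1) m n' hn').1)
    (fun n' hn' => (hB R u φ d (n + 1) m n' hn').1)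

theorem E1 (h : S_F4) (hA : S_F5A) (hB : S_F5B) [IsDomain R] (u : Rˣ) (φ : ℤ → R) (d : ℕ) :
    (PowerSeries.C (u : R) - 1) ^ 2 * gen (fun π => Phi φ π * Cd u d π) =
      PowerSeries.C (u : R) * (gen (fun _ => (1 : R)) * Sig1 u φ d +
        gen (Phi φ) * Sig0 u d) := by
  ext n
  have h1 := h (Polynomial R) (uP u) (yphi φ) (yphi_ne φ) d (n + 1) n (Nat.lt_succ_self n)
  have h2 := congrArg (fun p : Polynomial R => p.coeff 1) h1
  simp only [← coeff_cs] at h2
  have e1 : (PowerSeries.C (((uP u : (Polynomial R)ˣ)) : Polynomial R) - 1) ^ 2 =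
      PowerSeries.C (Polynomial.C (((u : R) - 1) ^ 2)) := by
    rw [uP_coe]; simp [map_pow, map_sub]
  have e2 : (PowerSeries.C (u : R) - 1) ^ 2 = PowerSeries.C (((u : R) - 1) ^ 2) := by
    simp [map_pow, map_sub]
  rw [e1, cs_C_mul, cs_gen, uP_coe, mul_assoc, cs_C_mul, cs_one_mul, cs_gen, cs_gen, cs_sum,
    cs_sum] at h2
  have e3 : (fun π => (wy (yphi φ) π * Cd (uP u) d π).coeff 1) =
      fun π => Phi φ π * Cd u d π := by
    funext π
    rw [Polynomial.mul_coeff_one, (wy_coeff φ π).1, (wy_coeff φ π).2, Cd_uP,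
      Polynomial.coeff_C_zero]
    rw [show (Polynomial.C (Cd u d π)).coeff 1 = 0 from by simp]
    ring
  have e4 : (fun π => (wy (yphi φ) π).coeff 0) = fun _ => (1 : R) := by
    funext π; exact (wy_coeff φ π).1
  have e5 : (fun π => (wy (yphi φ) π).coeff 1) = Phi φ := by
    funext π; exact (wy_coeff φ π).2
  rw [e3, e4, e5] at h2
  rw [e2, h2]
  refine (Cg.mul (Cg.refl (n + 1) _) (Cg.add (Cg.mul (Cg.refl (n + 1) _) ?_)
    (Cg.mul (Cg.refl (n + 1) _) ?_))) n (Nat.lt_succ_self n)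
  · refine Cg.trans ?_ (Cg_psum (fun m => A0 u d m * B1 u φ d m + A1 u φ d m * B0 u m)
      (fun m => dvd_add (Dvd.dvd.mul_left (dvd_B1 u φ d m) _)
        (Dvd.dvd.mul_left (dvd_B0 u m) _)) n)
    apply Cg.sum
    intro m _
    rw [cs_one_mul]
    exact Cg.add (Cg.mul (fun n' hn' => (hA R u φ d (n + 1) m n' hn').1)
      (fun n' hn' => (hB R u φ d (n + 1) m n' hn').2))
      (Cg.mul (fun n' hn' => (hA R u φ d (n + 1) m n' hn').2)
      (fun n' hn' => (hB R u φ d (n + 1) m n' hn').1))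
  · refine Cg.trans ?_ (Cg_psum (fun m => A0 u d m * B0 u m)
      (fun m => Dvd.dvd.mul_left (dvd_B0 u m) _) n)
    apply Cg.sum
    intro m _
    rw [cs_zero_mul]
    exact Cg.mul (fun n' hn' => (hA R u φ d (n + 1) m n' hn').1)
      (fun n' hn' => (hB R u φ d (n + 1) m n' hn').1)

/-! ## The combinatorial identity `Sig1 = RHS5` -/

/-- the terms with `e ≥ d` of `W_d(k)`. -/
def VV (φ : ℤ → R) (d k : ℕ) : R⟦X⟧ :=
  PowerSeries.mk fun n => ∑ e ∈ Finset.Icc (-(n : ℤ)) n,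
    if ¬ (e < d) ∧ k * Mde d e = n then φ e else 0

theorem WW_eq (φ : ℤ → R) (d k : ℕ) : WW φ d k = WL φ d k + VV φ d k := by
  ext n
  unfold WW WL VV
  rw [map_add, PowerSeries.coeff_mk, PowerSeries.coeff_mk, PowerSeries.coeff_mk,
    ← Finset.sum_add_distrib]
  apply Finset.sum_congr rfl
  intro e _
  by_cases h1 : e < d <;> by_cases h2 : k * Mde d e = n <;> simp [h1, h2]

theorem Mde_of_le (d : ℕ) (e : ℤ) (h : (d : ℤ) ≤ e) : Mde d e = e.toNat := by
  unfold Mde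
  rw [if_pos (by omega)]
  omega

theorem coeff_VV (φ : ℤ → R) (d k n : ℕ) (hk : 1 ≤ k) :
    PowerSeries.coeff n (VV φ d k) = if k ∣ n ∧ d ≤ n / k then φ ((n / k : ℕ) : ℤ) else 0 := by
  unfold VV
  rw [PowerSeries.coeff_mk]
  by_cases h : k ∣ n ∧ d ≤ n / k
  · rw [if_pos h]
    obtain ⟨⟨q, hq⟩, h2⟩ := h
    have hq' : n / k = q := by rw [hq]; exact Nat.mul_div_cancel_left q (by omega)
    rw [hq'] at h2 ⊢
    rw [Finset.sum_eq_single ((q : ℕ) : ℤ)]
    · rw [if_pos]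
      refine ⟨by omega, ?_⟩
      rw [Mde_of_le d q (by omega), Int.toNat_natCast, hq]
    · intro e _ hne
      rw [if_neg]
      rintro ⟨h3, h4⟩
      rw [Mde_of_le d e (by omega), hq] at h4
      have h5 : e.toNat = q := Nat.eq_of_mul_eq_mul_left (by omega) h4
      omega
    · intro hne
      exfalso
      apply hne
      rw [Finset.mem_Icc]
      have : q ≤ n := by rw [hq]; exact Nat.le_mul_of_pos_left q (by omega)
      omega
  · rw [if_neg h]
    apply Finset.sum_eq_zero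
    intro e _
    rw [if_neg]
    rintro ⟨h3, h4⟩
    rw [Mde_of_le d e (by omega)] at h4
    apply h
    have h5 : n / k = e.toNat := by rw [← h4]; exact Nat.mul_div_cancel_left _ (by omega)
    refine ⟨⟨e.toNat, h4.symm⟩, ?_⟩
    omega

theorem coeff_WR' (φ : ℤ → R) (d k n : ℕ) (hk : 1 ≤ k) :
    PowerSeries.coeff n (WR φ d k) =
      if k ∣ n ∧ 1 ≤ n / k then φ ((d : ℤ) + ((n / k - 1 : ℕ) : ℤ)) else 0 := by
  rw [coeff_WR]
  by_cases h : k ∣ n ∧ 1 ≤ n / k
  · rw [if_pos h]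
    obtain ⟨⟨q, hq⟩, h2⟩ := h
    have hq' : n / k = q := by rw [hq]; exact Nat.mul_div_cancel_left q (by omega)
    rw [hq'] at h2 ⊢
    rw [Finset.sum_eq_single (q - 1)]
    · rw [if_pos]
      rw [Nat.sub_add_cancel h2, hq]
    · intro j _ hne
      rw [if_neg]
      intro h4
      rw [hq] at h4
      have h5 : j + 1 = q := Nat.eq_of_mul_eq_mul_left (by omega) h4
      omega
    · intro hne
      exfalso
      apply hne
      rw [Finset.mem_range]
      have : q ≤ n := by rw [hq]; exact Nat.le_mul_of_pos_left q (by omega)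
      omega
  · rw [if_neg h]
    apply Finset.sum_eq_zero
    intro j _
    rw [if_neg]
    intro h4
    apply h
    have h5 : n / k = j + 1 := by rw [← h4]; exact Nat.mul_div_cancel_left _ (by omega)
    exact ⟨⟨j + 1, h4.symm⟩, by omega⟩

theorem X_WR (φ : ℤ → R) (d k : ℕ) (hk : 1 ≤ k) :
    X ^ (d * k) * WR φ d k = X ^ k * VV φ d k := by
  ext n
  rw [PowerSeries.coeff_X_pow_mul', PowerSeries.coeff_X_pow_mul']
  by_cases hkn : k ∣ n
  · obtain ⟨q, hq⟩ := hkn
    subst hq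
    rw [coeff_WR' φ d k _ hk, coeff_VV φ d k _ hk]
    have e1 : k * q - d * k = k * (q - d) := by rw [mul_comm d k, Nat.mul_sub]
    have e2 : k * q - k = k * (q - 1) := by rw [Nat.mul_sub, mul_one]
    have d1 : k * (q - d) / k = q - d := Nat.mul_div_cancel_left _ (by omega)
    have d2 : k * (q - 1) / k = q - 1 := Nat.mul_div_cancel_left _ (by omega)
    rw [e1, e2, d1, d2]
    have c1 : d * k ≤ k * q ↔ d ≤ q := by
      rw [mul_comm d k]; exact Nat.mul_le_mul_left_iff (by omega)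
    have c2 : k ≤ k * q ↔ 1 ≤ q := by
      constructor
      · intro h; rcases Nat.eq_zero_or_pos q with h0 | h0
        · subst h0; omega
        · exact h0
      · intro h; exact Nat.le_mul_of_pos_right k h
    by_cases hc : d + 1 ≤ q
    · rw [if_pos (c1.2 (by omega)), if_pos (c2.2 (by omega)),
        if_pos ⟨Dvd.intro _ rfl, by omega⟩, if_pos ⟨Dvd.intro _ rfl, by omega⟩]
      congr 1
      omega
    · have l1 : (if d * k ≤ k * q then
          (if k ∣ k * (q - d) ∧ 1 ≤ q - d then φ ((d : ℤ) + ((q - d - 1 : ℕ) : ℤ)) else 0)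
          else (0 : R)) = 0 := by
        by_cases h1 : d * k ≤ k * q
        · rw [if_pos h1, if_neg]
          rintro ⟨_, h2⟩; omega
        · rw [if_neg h1]
      have l2 : (if k ≤ k * q then
          (if k ∣ k * (q - 1) ∧ d ≤ q - 1 then φ ((q - 1 : ℕ) : ℤ) else 0)
          else (0 : R)) = 0 := by
        by_cases h1 : k ≤ k * q
        · have := c2.1 h1
          rw [if_pos h1, if_neg]
          rintro ⟨_, h2⟩; omega
        · rw [if_neg h1]
      rw [l1, l2]
  · have l1 : (if d * k ≤ n then PowerSeries.coeff (n - d * k) (WR φ d k) else 0) = 0 := by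
      by_cases h1 : d * k ≤ n
      · rw [if_pos h1, coeff_WR' φ d k _ hk, if_neg]
        rintro ⟨h2, _⟩
        apply hkn
        have := dvd_add h2 (Dvd.intro_left d rfl : k ∣ d * k)
        rwa [Nat.sub_add_cancel h1] at this
      · rw [if_neg h1]
    have l2 : (if k ≤ n then PowerSeries.coeff (n - k) (VV φ d k) else 0) = 0 := by
      by_cases h1 : k ≤ n
      · rw [if_pos h1, coeff_VV φ d k _ hk, if_neg]
        rintro ⟨h2, _⟩
        apply hkn
        have := dvd_add h2 (dvd_refl k)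
        rwa [Nat.sub_add_cancel h1] at this
      · rw [if_neg h1]
    rw [l1, l2]

/-- the summand of `RHS5`. -/
def TT (u : Rˣ) (φ : ℤ → R) (d n k : ℕ) : R⟦X⟧ :=
  cq u n * cq u (n + k) * X ^ (n * (d + 1) + k) *
    PowerSeries.C ((u : R) ^ n * ((u : R) ^ k - 1)) * uu R k * WW φ d k

theorem TT_zero (u : Rˣ) (φ : ℤ → R) (d n : ℕ) : TT u φ d n 0 = 0 := by
  unfold TT
  simp

theorem TT_coeff (u : Rˣ) (φ : ℤ → R) (d n k N : ℕ) (h : N < n + k) :
    PowerSeries.coeff N (TT u φ d n k) = 0 := by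
  have h1 : (X : R⟦X⟧) ^ (n + k) ∣ TT u φ d n k := by
    unfold TT
    have : (X : R⟦X⟧) ^ (n + k) ∣ X ^ (n * (d + 1) + k) := by
      apply pow_dvd_pow
      have : n * 1 ≤ n * (d + 1) := Nat.mul_le_mul_left n (by omega)
      omega
    exact Dvd.dvd.mul_right (Dvd.dvd.mul_right (Dvd.dvd.mul_right
      (Dvd.dvd.mul_left this _) _) _) _
  exact (PowerSeries.X_pow_dvd_iff.1 h1) N h

theorem unit_aux (u : Rˣ) (n k : ℕ) :
    (1 - ((u⁻¹ : Rˣ) : R) ^ k) * (u : R) ^ (n + k) = (u : R) ^ n * ((u : R) ^ k - 1) := by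
  have h : ((u⁻¹ : Rˣ) : R) ^ k * (u : R) ^ k = 1 := by
    rw [← mul_pow, Units.inv_mul, one_pow]
  calc (1 - ((u⁻¹ : Rˣ) : R) ^ k) * (u : R) ^ (n + k)
      = (u : R) ^ n * ((u : R) ^ k - ((u⁻¹ : Rˣ) : R) ^ k * (u : R) ^ k) := by
        rw [pow_add]; ring
    _ = _ := by rw [h]

theorem term_eq (u : Rˣ) (φ : ℤ → R) (d m : ℕ) :
    A0 u d m * B1 u φ d m + A1 u φ d m * B0 u m =
      ∑ k ∈ Finset.Icc 1 m, TT u φ d (m - k) k := by
  unfold A1 B1
  rw [Finset.mul_sum, Finset.sum_mul, ← Finset.sum_add_distrib]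
  apply Finset.sum_congr rfl
  intro k hk
  rw [Finset.mem_Icc] at hk
  obtain ⟨n, rfl⟩ : ∃ n, m = n + k := ⟨m - k, by omega⟩
  rw [Nat.add_sub_cancel]
  unfold A0 B0 TT
  rw [WW_eq]
  have h1 : (X : R⟦X⟧) ^ (d * (n + k)) * WR φ d k = X ^ (d * n) * (X ^ k * VV φ d k) := by
    rw [← X_WR φ d k hk.1, mul_add, pow_add]; ring
  have h2 : PowerSeries.C (1 - ((u⁻¹ : Rˣ) : R) ^ k) * PowerSeries.C ((u : R) ^ (n + k)) =
      (PowerSeries.C ((u : R) ^ n * ((u : R) ^ k - 1)) : R⟦X⟧) := by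
    rw [← map_mul, unit_aux]
  have h3 : (PowerSeries.C ((u : R) ^ n) : R⟦X⟧) * PowerSeries.C ((u : R) ^ k - 1) =
      PowerSeries.C ((u : R) ^ n * ((u : R) ^ k - 1)) := by
    rw [← map_mul]
  have h4 : (X : R⟦X⟧) ^ (n * (d + 1) + k) = X ^ (d * n) * X ^ n * X ^ k := by
    rw [← pow_add, ← pow_add]; congr 1; ring
  calc X ^ (d * (n + k)) * cq u (n + k) *
        (PowerSeries.C ((u : R) ^ n) * X ^ n * cq u n *
          PowerSeries.C ((u : R) ^ k - 1) * uu R k * WR φ d k) +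
      X ^ (d * n) * cq u n * PowerSeries.C (1 - ((u⁻¹ : Rˣ) : R) ^ k) * uu R k * WL φ d k *
        (PowerSeries.C ((u : R) ^ (n + k)) * X ^ (n + k) * cq u (n + k))
      = (X ^ (d * (n + k)) * WR φ d k) * cq u (n + k) * X ^ n * cq u n *
          (PowerSeries.C ((u : R) ^ n) * PowerSeries.C ((u : R) ^ k - 1)) * uu R k +
        X ^ (d * n) * cq u n * uu R k * WL φ d k * X ^ (n + k) * cq u (n + k) *
          (PowerSeries.C (1 - ((u⁻¹ : Rˣ) : R) ^ k) * PowerSeries.C ((u : R) ^ (n + k))) := by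
        ring
    _ = _ := by
        rw [h1, h2, h3, h4, pow_add]; ring

theorem Sig1_eq (u : Rˣ) (φ : ℤ → R) (d : ℕ) : Sig1 u φ d = RHS5 u φ d := by
  ext N
  have hR : PowerSeries.coeff N (RHS5 u φ d) = ∑ k ∈ Finset.range (N + 1),
      ∑ n ∈ Finset.range (N + 1), PowerSeries.coeff N (TT u φ d n k) := by
    unfold RHS5 psum
    rw [PowerSeries.coeff_mk, map_sum]
    apply Finset.sum_congr rfl
    intro k _
    rw [PowerSeries.coeff_mk, map_sum]
    rfl
  have hL : PowerSeries.coeff N (Sig1 u φ d) = ∑ m ∈ Finset.range (N + 1),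
      ∑ k ∈ Finset.range (m + 1), PowerSeries.coeff N (TT u φ d (m - k) k) := by
    unfold Sig1 psum
    rw [PowerSeries.coeff_mk, map_sum]
    apply Finset.sum_congr rfl
    intro m _
    by_cases hm : m = 0
    · subst hm
      simp [TT_zero]
    · rw [if_neg hm, term_eq, map_sum, Finset.range_eq_Ico,
        Finset.sum_eq_sum_Ico_succ_bot (by omega : 0 < m + 1), TT_zero, map_zero, zero_add]
      apply Finset.sum_congr
      · ext k
        simp only [Finset.mem_Icc, Finset.mem_Ico]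
        omega
      · intro k _
        rfl
  rw [hL, hR]
  rw [Finset.sum_comm' (t' := Finset.range (N + 1)) (s' := fun k => Finset.Ico k (N + 1))
    (by
      intro m k
      simp only [Finset.mem_range, Finset.mem_Ico]
      omega)]
  apply Finset.sum_congr rfl
  intro k hk
  rw [Finset.mem_range] at hk
  rw [Finset.sum_Ico_eq_sum_range]
  have h1 : ∀ i ∈ Finset.range (N + 1 - k), PowerSeries.coeff N (TT u φ d (k + i - k) k) =
      PowerSeries.coeff N (TT u φ d i k) := by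
    intro i _
    rw [Nat.add_sub_cancel_left]
  rw [Finset.sum_congr rfl h1]
  apply Finset.sum_subset
  · intro i hi
    rw [Finset.mem_range] at hi ⊢
    omega
  · intro i _ hi
    rw [Finset.mem_range, not_lt] at hi
    exact TT_coeff u φ d i k N (by omega)

end main

end F5

theorem F5 (h : S_F4) (hA : S_F5A) (hB : S_F5B) : S_F5 := by
  intro R _ _ u φ d
  have e0 := F5.E0 h hA hB u φ d
  have e1 := F5.E1 h hA hB u φ d
  rw [← F5.Sig1_eq]
  linear_combination gen (fun _ => (1 : R)) * e1 - gen (Phi φ) * e0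

end

end Pool.Agent.H946.Z
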