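import Pool.Agent.H946.Z.Basic
set_option autoImplicit false

/-!
# MP_d9449f_ag, task F5A (helper671): the `A_m` to first order in `s`
-/

namespace Pool.Agent.H946.Z

open PowerSeries

namespace F5A

variable {R : Type} [CommRing R]

/-- the coefficient of `s^0` as a ring homomorphism -/
noncomputable def c0 : (Polynomial R)⟦X⟧ →+* R⟦X⟧ := PowerSeries.map Polynomial.constantCoeff

theorem cs_zero (F : (Polynomial R)⟦X⟧) : cs 0 F = c0 F := by
  ext n
  simp [cs, c0, Polynomial.constantCoeff_apply]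

theorem coeff_cs (i n : ℕ) (F : (Polynomial R)⟦X⟧) :
    PowerSeries.coeff n (cs i F) = (PowerSeries.coeff n F).coeff i := by
  simp [cs]

theorem coeff_c0 (n : ℕ) (F : (Polynomial R)⟦X⟧) :
    PowerSeries.coeff n (c0 F) = (PowerSeries.coeff n F).coeff 0 := by
  rw [← cs_zero, coeff_cs]

theorem cs_one_mul (F G : (Polynomial R)⟦X⟧) :
    cs 1 (F * G) = cs 1 F * c0 G + c0 F * cs 1 G := by
  ext n
  rw [coeff_cs, PowerSeries.coeff_mul, map_add, PowerSeries.coeff_mul, PowerSeries.coeff_mul,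
    Polynomial.finsetSum_coeff, ← Finset.sum_add_distrib]
  refine Finset.sum_congr rfl fun p _ => ?_
  rw [Polynomial.mul_coeff_one, coeff_cs, coeff_cs, coeff_c0, coeff_c0]
  ring

theorem cs_one_add (F G : (Polynomial R)⟦X⟧) : cs 1 (F + G) = cs 1 F + cs 1 G := by
  ext n
  simp [coeff_cs]

theorem cs_one_zero : cs 1 (0 : (Polynomial R)⟦X⟧) = 0 := by
  ext n
  simp [coeff_cs]

theorem cs_one_C (r : R) : cs 1 (PowerSeries.C (Polynomial.C r) : (Polynomial R)⟦X⟧) = 0 := by
  ext n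
  rw [coeff_cs, PowerSeries.coeff_C]
  split_ifs <;> simp

theorem cs_one_one : cs 1 (1 : (Polynomial R)⟦X⟧) = 0 := by
  have := cs_one_C (R := R) 1
  simpa using this

theorem c0_C (p : Polynomial R) :
    c0 (PowerSeries.C p : (Polynomial R)⟦X⟧) = PowerSeries.C (p.coeff 0) := by
  simp [c0, Polynomial.constantCoeff_apply]

theorem c0_X : c0 (X : (Polynomial R)⟦X⟧) = X := by
  simp [c0]

theorem cs_one_X : cs 1 (X : (Polynomial R)⟦X⟧) = 0 := by
  ext n
  rw [coeff_cs, PowerSeries.coeff_X]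
  split_ifs <;> simp [Polynomial.coeff_one]

theorem cs_one_C_mul (r : R) (F : (Polynomial R)⟦X⟧) :
    cs 1 (PowerSeries.C (Polynomial.C r) * F) = PowerSeries.C r * cs 1 F := by
  rw [cs_one_mul, cs_one_C, zero_mul, zero_add, c0_C]
  simp

theorem c0_factor (φ : ℤ → R) (e : ℤ) :
    c0 (PowerSeries.C (yphi φ e) * X : (Polynomial R)⟦X⟧) = X := by
  rw [map_mul, c0_C, c0_X]
  simp [yphi]

theorem cs_one_factor (φ : ℤ → R) (e : ℤ) :
    cs 1 (PowerSeries.C (yphi φ e) * X : (Polynomial R)⟦X⟧) = X * PowerSeries.C (φ e) := by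
  ext n
  rw [coeff_cs]
  cases n with
  | zero => simp
  | succ n =>
    rw [PowerSeries.coeff_succ_mul_X, mul_comm (X : R⟦X⟧), PowerSeries.coeff_succ_mul_X,
      PowerSeries.coeff_C, PowerSeries.coeff_C]
    split_ifs
    · simp [yphi, Polynomial.coeff_one]
    · simp

theorem c0_prod (φ : ℤ → R) (s : Finset ℤ) :
    c0 (∏ e ∈ s, (PowerSeries.C (yphi φ e) * X : (Polynomial R)⟦X⟧)) = X ^ s.card := by
  rw [map_prod]
  simp [c0_factor]

theorem cs_one_prod (φ : ℤ → R) (s : Finset ℤ) :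
    cs 1 (∏ e ∈ s, (PowerSeries.C (yphi φ e) * X : (Polynomial R)⟦X⟧)) =
      X ^ s.card * PowerSeries.C (∑ e ∈ s, φ e) := by
  classical
  induction s using Finset.induction_on with
  | empty => simp [cs_one_one]
  | insert a s ha ih =>
    rw [Finset.prod_insert ha, cs_one_mul, ih, cs_one_factor, c0_factor, c0_prod,
      Finset.card_insert_of_notMem ha, Finset.sum_insert ha, map_add]
    ring

/-- `Φ_i` -/
noncomputable def Ph (φ : ℤ → R) (d i : ℕ) : R := ∑ e ∈ Finset.Ico (-(i : ℤ)) (d : ℤ), φ e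

theorem card_Ico' (d i : ℕ) : (Finset.Ico (-(i : ℤ)) (d : ℤ)).card = d + i := by
  rw [Int.card_Ico]
  omega

theorem c0_aa (φ : ℤ → R) (d i : ℕ) : c0 (aa (yphi φ) d i) = X ^ (d + i) := by
  unfold aa
  rw [c0_prod, card_Ico']

theorem cs_one_aa (φ : ℤ → R) (d i : ℕ) :
    cs 1 (aa (yphi φ) d i) = X ^ (d + i) * PowerSeries.C (Ph φ d i) := by
  unfold aa
  rw [cs_one_prod, card_Ico']
  rfl

theorem cs_one_pow (a : (Polynomial R)⟦X⟧) (b : R⟦X⟧) (h : cs 1 a = c0 a * b) (m : ℕ) :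
    cs 1 (a ^ m) = (m : R⟦X⟧) * c0 a ^ m * b := by
  induction m with
  | zero => simp [cs_one_one]
  | succ m ih =>
    rw [pow_succ, cs_one_mul, ih, h, map_pow]
    push_cast
    ring

/-! ### series in `t` -/

noncomputable def m0 : (((Polynomial R)⟦X⟧)⟦X⟧) →+* (R⟦X⟧)⟦X⟧ := PowerSeries.map c0

noncomputable def m1 (G : ((Polynomial R)⟦X⟧)⟦X⟧) : (R⟦X⟧)⟦X⟧ :=
  PowerSeries.mk fun m => cs 1 (PowerSeries.coeff m G)

theorem coeff_m1 (m : ℕ) (G : ((Polynomial R)⟦X⟧)⟦X⟧) :
    PowerSeries.coeff m (m1 G) = cs 1 (PowerSeries.coeff m G) := by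
  simp [m1]

theorem coeff_m0 (m : ℕ) (G : ((Polynomial R)⟦X⟧)⟦X⟧) :
    PowerSeries.coeff m (m0 G) = c0 (PowerSeries.coeff m G) := by
  simp [m0]

theorem cs_one_sum {ι : Type*} (s : Finset ι) (f : ι → (Polynomial R)⟦X⟧) :
    cs 1 (∑ i ∈ s, f i) = ∑ i ∈ s, cs 1 (f i) := by
  classical
  induction s using Finset.induction_on with
  | empty => simp [cs_one_zero]
  | insert a s ha ih => rw [Finset.sum_insert ha, Finset.sum_insert ha, cs_one_add, ih]

theorem m1_mul (F G : ((Polynomial R)⟦X⟧)⟦X⟧) : m1 (F * G) = m1 F * m0 G + m0 F * m1 G := by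
  ext1 n
  rw [coeff_m1, PowerSeries.coeff_mul, map_add, PowerSeries.coeff_mul, PowerSeries.coeff_mul,
    cs_one_sum, ← Finset.sum_add_distrib]
  refine Finset.sum_congr rfl fun p _ => ?_
  rw [cs_one_mul, coeff_m1, coeff_m1, coeff_m0, coeff_m0]

theorem m1_one : m1 (1 : ((Polynomial R)⟦X⟧)⟦X⟧) = 0 := by
  ext1 n
  rw [coeff_m1, PowerSeries.coeff_one]
  split_ifs
  · simp [cs_one_one]
  · simp [cs_one_zero]

theorem m1_prod (K : ℕ) (F : ℕ → ((Polynomial R)⟦X⟧)⟦X⟧) (H : ℕ → (R⟦X⟧)⟦X⟧)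
    (h : ∀ i, m1 (F i) = m0 (F i) * H i) :
    m1 (∏ i ∈ Finset.range K, F i) =
      (∏ i ∈ Finset.range K, m0 (F i)) * ∑ i ∈ Finset.range K, H i := by
  induction K with
  | zero => simp [m1_one]
  | succ K ih =>
    rw [Finset.prod_range_succ, m1_mul, ih, h, map_prod, Finset.prod_range_succ,
      Finset.sum_range_succ]
    ring

/-! ### one factor -/

theorem uP_inv (u : Rˣ) : (((uP u)⁻¹ : (Polynomial R)ˣ) : Polynomial R) =
    Polynomial.C ((u⁻¹ : Rˣ) : R) := by
  unfold uP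
  rw [← map_inv]
  rfl

theorem ff_uP (u : Rˣ) (x : (Polynomial R)⟦X⟧) :
    ff (1 - (((uP u)⁻¹ : (Polynomial R)ˣ) : Polynomial R)) x =
      PowerSeries.mk fun m => if m = 0 then 1 else
        PowerSeries.C (Polynomial.C (1 - ((u⁻¹ : Rˣ) : R))) * x ^ m := by
  unfold ff
  rw [uP_inv]
  simp

theorem m0_ff (u : Rˣ) (φ : ℤ → R) (d i : ℕ) :
    m0 (ff (1 - (((uP u)⁻¹ : (Polynomial R)ˣ) : Polynomial R)) (aa (yphi φ) d i)) =
      ff (1 - ((u⁻¹ : Rˣ) : R)) (X ^ (d + i)) := by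
  rw [ff_uP]
  ext1 m
  rw [coeff_m0, PowerSeries.coeff_mk]
  unfold ff
  rw [PowerSeries.coeff_mk]
  split_ifs
  · simp
  · rw [map_mul, c0_C, map_pow, c0_aa]
    simp

/-- `H_i` -/
noncomputable def Hs (w : R) (φ : ℤ → R) (d i : ℕ) : (R⟦X⟧)⟦X⟧ :=
  PowerSeries.mk fun k => PowerSeries.C (1 - w ^ k) * (X ^ (d + i)) ^ k *
    PowerSeries.C (Ph φ d i)

theorem alg_sum (w : R) (m : ℕ) :
    ∑ b ∈ Finset.range (m + 1), (if m - b = 0 then 1 else 1 - w) * (1 - w ^ b) =
      (1 - w) * m := by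
  have key : ∀ m : ℕ, (∑ b ∈ Finset.range m, (1 - w) * (1 - w ^ b)) + (1 - w ^ m) =
      (1 - w) * m := by
    intro m
    induction m with
    | zero => simp
    | succ m ih =>
      rw [Finset.sum_range_succ]
      have : (∑ b ∈ Finset.range m, (1 - w) * (1 - w ^ b)) =
          (1 - w) * m - (1 - w ^ m) := by rw [← ih]; ring
      rw [this]
      push_cast
      ring
  rw [Finset.sum_range_succ, ← key m]
  congr 1
  · refine Finset.sum_congr rfl fun b hb => ?_
    rw [Finset.mem_range] at hb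
    rw [if_neg (by omega)]
  · simp

theorem m1_ff (u : Rˣ) (φ : ℤ → R) (d i : ℕ) :
    m1 (ff (1 - (((uP u)⁻¹ : (Polynomial R)ˣ) : Polynomial R)) (aa (yphi φ) d i)) =
      m0 (ff (1 - (((uP u)⁻¹ : (Polynomial R)ˣ) : Polynomial R)) (aa (yphi φ) d i)) *
        Hs ((u⁻¹ : Rˣ) : R) φ d i := by
  set w : R := ((u⁻¹ : Rˣ) : R) with hw
  rw [m0_ff, ← hw, ff_uP, ← hw]
  ext1 m
  rw [coeff_m1, PowerSeries.coeff_mk, PowerSeries.coeff_mul]
  have hL : cs 1 (if m = 0 then (1 : (Polynomial R)⟦X⟧) else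
      PowerSeries.C (Polynomial.C (1 - w)) * aa (yphi φ) d i ^ m) =
      PowerSeries.C ((1 - w) * m) * (X ^ (d + i)) ^ m * PowerSeries.C (Ph φ d i) := by
    split_ifs with h
    · subst h
      simp [cs_one_one]
    · rw [cs_one_C_mul, cs_one_pow _ (PowerSeries.C (Ph φ d i)) (by rw [cs_one_aa, c0_aa]),
        c0_aa, map_mul]
      simp only [map_natCast]
      ring
  rw [hL, Finset.Nat.sum_antidiagonal_eq_sum_range_succ
    (fun a b => PowerSeries.coeff a (ff (1 - w) (X ^ (d + i) : R⟦X⟧)) *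
      PowerSeries.coeff b (Hs w φ d i)), ← Finset.sum_range_reflect, ← alg_sum w m, map_sum,
    Finset.sum_mul, Finset.sum_mul]
  refine Finset.sum_congr rfl fun b hb => ?_
  rw [Finset.mem_range] at hb
  have h1 : m + 1 - 1 - b = m - b := by omega
  have h2 : m - (m - b) = b := by omega
  rw [h1, h2]
  unfold ff Hs
  rw [PowerSeries.coeff_mk, PowerSeries.coeff_mk]
  have h3 : (X ^ (d + i) : R⟦X⟧) ^ m = (X ^ (d + i)) ^ (m - b) * (X ^ (d + i)) ^ b := by
    rw [← pow_add]; congr 1; omega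
  rw [h3]
  split_ifs with h
  · rw [h]; simp
  · rw [map_mul]; ring

/-! ### order zero -/

/-- congruence modulo `X^K` -/
def Cg (K : ℕ) (a b : R⟦X⟧) : Prop := (X : R⟦X⟧) ^ K ∣ a - b

theorem Cg.refl (K : ℕ) (a : R⟦X⟧) : Cg K a a := by simp [Cg]

theorem Cg.mul {K : ℕ} {a b a' b' : R⟦X⟧} (h : Cg K a b) (h' : Cg K a' b') :
    Cg K (a * a') (b * b') := by
  unfold Cg at *
  have : a * a' - b * b' = a * (a' - b') + (a - b) * b' := by ring
  rw [this]
  exact dvd_add (Dvd.dvd.mul_left h' _) (Dvd.dvd.mul_right h _)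

theorem Cg.add {K : ℕ} {a b a' b' : R⟦X⟧} (h : Cg K a b) (h' : Cg K a' b') :
    Cg K (a + a') (b + b') := by
  unfold Cg at *
  have : a + a' - (b + b') = (a - b) + (a' - b') := by ring
  rw [this]
  exact dvd_add h h'

theorem Cg.symm {K : ℕ} {a b : R⟦X⟧} (h : Cg K a b) : Cg K b a := by
  unfold Cg at *
  rw [← neg_sub]
  exact (dvd_neg).2 h

theorem Cg.trans {K : ℕ} {a b c : R⟦X⟧} (h : Cg K a b) (h' : Cg K b c) : Cg K a c := by
  unfold Cg at *
  have : a - c = (a - b) + (b - c) := by ring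
  rw [this]
  exact dvd_add h h'

theorem Cg.sum {ι : Type*} {K : ℕ} (s : Finset ι) {f g : ι → R⟦X⟧}
    (h : ∀ i ∈ s, Cg K (f i) (g i)) : Cg K (∑ i ∈ s, f i) (∑ i ∈ s, g i) := by
  unfold Cg at *
  rw [← Finset.sum_sub_distrib]
  exact Finset.dvd_sum h

theorem Cg.coeff {K : ℕ} {a b : R⟦X⟧} (h : Cg K a b) {n : ℕ} (hn : n < K) :
    PowerSeries.coeff n a = PowerSeries.coeff n b := by
  have := (PowerSeries.X_pow_dvd_iff.1 h) n hn
  rw [map_sub, sub_eq_zero] at this
  exact this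

theorem Cg.of_coeff {K : ℕ} {a b : R⟦X⟧}
    (h : ∀ n < K, PowerSeries.coeff n a = PowerSeries.coeff n b) : Cg K a b := by
  unfold Cg
  rw [PowerSeries.X_pow_dvd_iff]
  intro n hn
  rw [map_sub, h n hn, sub_self]

/-- `[t^m] ∏_{i<K} f(z X^i t)` -/
noncomputable def pk (c : R) (K : ℕ) (z : R⟦X⟧) : (R⟦X⟧)⟦X⟧ :=
  ∏ i ∈ Finset.range K, ff c (z * X ^ i)

theorem ff_scale (c : R) (z x : R⟦X⟧) : ff c (z * x) = PowerSeries.rescale z (ff c x) := by
  ext1 m
  rw [PowerSeries.coeff_rescale]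
  unfold ff
  rw [PowerSeries.coeff_mk, PowerSeries.coeff_mk]
  split_ifs with h
  · subst h; simp
  · rw [mul_pow]; ring

theorem pk_scale (c : R) (K : ℕ) (z z' : R⟦X⟧) :
    pk c K (z * z') = PowerSeries.rescale z (pk c K z') := by
  unfold pk
  rw [map_prod]
  refine Finset.prod_congr rfl fun i _ => ?_
  rw [mul_assoc, ff_scale]

/-- `(1 - x t) f(x t) = 1 - w x t` -/
theorem ff_mul (w : R) (x : R⟦X⟧) :
    (1 - PowerSeries.C x * X) * ff (1 - w) x = 1 - PowerSeries.C (PowerSeries.C w * x) * X := by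
  ext1 m
  cases m with
  | zero => simp [ff]
  | succ m =>
    rw [sub_mul, one_mul, map_sub, map_sub, mul_assoc, PowerSeries.coeff_C_mul,
      PowerSeries.coeff_succ_X_mul, PowerSeries.coeff_C_mul]
    unfold ff
    rw [PowerSeries.coeff_mk, PowerSeries.coeff_mk, PowerSeries.coeff_one, PowerSeries.coeff_X]
    cases m with
    | zero => simp; ring
    | succ m => simp; ring

theorem pk_succ (c : R) (K : ℕ) :
    pk c K X * ff c 1 = pk c K 1 * ff c (X ^ K) := by
  unfold pk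
  have h1 : ∀ i, ff c ((X : R⟦X⟧) * X ^ i) = ff c (1 * X ^ (i + 1)) := by
    intro i
    rw [one_mul, pow_succ']
  simp_rw [h1]
  have h2 := Finset.prod_range_succ' (fun i => ff c ((1 : R⟦X⟧) * X ^ i)) K
  have h3 := Finset.prod_range_succ (fun i => ff c ((1 : R⟦X⟧) * X ^ i)) K
  rw [h3] at h2
  simp only [one_mul, pow_zero] at h2 ⊢
  rw [← h2]

theorem pk_rec (w : R) (K m : ℕ) :
    Cg K (PowerSeries.coeff (m + 1) (pk (1 - w) K 1) * (1 - X ^ (m + 1)))
      (PowerSeries.coeff m (pk (1 - w) K 1) * (1 - X ^ m * PowerSeries.C w)) := by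
  have h := pk_succ (1 - w) K
  have h' : (1 - X) * (pk (1 - w) K X * ff (1 - w) 1) =
      (1 - X) * (pk (1 - w) K 1 * ff (1 - w) ((X : R⟦X⟧) ^ K)) := by rw [h]
  have e1 : (1 - X) * (pk (1 - w) K X * ff (1 - w) 1) =
      pk (1 - w) K X * (1 - PowerSeries.C (PowerSeries.C w) * X) := by
    have := ff_mul w (1 : R⟦X⟧)
    rw [map_one, one_mul, mul_one] at this
    rw [← this]; ring
  rw [e1] at h'
  have hX : pk (1 - w) K X = PowerSeries.rescale X (pk (1 - w) K 1) := by
    have := pk_scale (1 - w) K X 1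
    rwa [mul_one] at this
  -- modulo `X^K` the factor `ff c (X^K)` is one
  have hone : ∀ j, Cg K (PowerSeries.coeff j (ff (1 - w) ((X : R⟦X⟧) ^ K)))
      (PowerSeries.coeff j (1 : (R⟦X⟧)⟦X⟧)) := by
    intro j
    unfold ff
    rw [PowerSeries.coeff_mk, PowerSeries.coeff_one]
    split_ifs with hj
    · exact Cg.refl _ _
    · unfold Cg
      rw [sub_zero]
      exact Dvd.dvd.mul_left (dvd_pow_self _ hj) _
  have hprod : ∀ F : (R⟦X⟧)⟦X⟧, ∀ j, Cg K (PowerSeries.coeff j (F * ff (1 - w) ((X : R⟦X⟧) ^ K)))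
      (PowerSeries.coeff j F) := by
    intro F j
    have : PowerSeries.coeff j F = PowerSeries.coeff j (F * 1) := by rw [mul_one]
    rw [this, PowerSeries.coeff_mul, PowerSeries.coeff_mul]
    exact Cg.sum _ fun p _ => (Cg.refl _ _).mul (hone _)
  have hc : PowerSeries.coeff (m + 1) (pk (1 - w) K X * (1 - PowerSeries.C (PowerSeries.C w) * X)) =
      PowerSeries.coeff (m + 1) ((1 - X) * (pk (1 - w) K 1 * ff (1 - w) ((X : R⟦X⟧) ^ K))) := by
    rw [h']
  rw [show (1 - X) * (pk (1 - w) K 1 * ff (1 - w) ((X : R⟦X⟧) ^ K)) =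
    ((1 - X) * pk (1 - w) K 1) * ff (1 - w) ((X : R⟦X⟧) ^ K) by ring] at hc
  have h2 := hprod ((1 - X) * pk (1 - w) K 1) (m + 1)
  rw [← hc, hX] at h2
  rw [mul_sub, mul_one, map_sub, sub_mul, one_mul, map_sub, PowerSeries.coeff_succ_X_mul,
    PowerSeries.coeff_rescale, mul_comm (PowerSeries.C (PowerSeries.C w)) X, ← mul_assoc,
    PowerSeries.coeff_mul_C, PowerSeries.coeff_succ_mul_X, PowerSeries.coeff_rescale] at h2
  unfold Cg at h2 ⊢
  have := (dvd_neg).2 h2
  convert this using 1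
  ring

theorem pk_cq (u : Rˣ) (K m : ℕ) :
    Cg K (PowerSeries.coeff m (pk (1 - ((u⁻¹ : Rˣ) : R)) K 1)) (cq u m) := by
  induction m with
  | zero =>
    have : PowerSeries.coeff 0 (pk (1 - ((u⁻¹ : Rˣ) : R)) K 1) = 1 := by
      unfold pk
      rw [PowerSeries.coeff_zero_eq_constantCoeff_apply, map_prod]
      refine Finset.prod_eq_one fun i _ => ?_
      rw [← PowerSeries.coeff_zero_eq_constantCoeff_apply]
      simp [ff]
    rw [this]
    simp [cq, Cg.refl]
  | succ m ih =>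
    have h := pk_rec ((u⁻¹ : Rˣ) : R) K m
    have h2 := h.mul (Cg.refl K (uu R (m + 1)))
    rw [mul_assoc, uu_mul (m + 1) (by omega), mul_one] at h2
    refine h2.trans ?_
    unfold cq at *
    rw [Finset.prod_range_succ, ← mul_assoc]
    exact (ih.mul (Cg.refl _ _)).mul (Cg.refl _ _)

theorem coeff_prod_ff (u : Rˣ) (d K m : ℕ) :
    Cg K (PowerSeries.coeff m (∏ i ∈ Finset.range K,
      ff (1 - ((u⁻¹ : Rˣ) : R)) ((X : R⟦X⟧) ^ (d + i)))) (X ^ (d * m) * cq u m) := by
  have h1 : (∏ i ∈ Finset.range K, ff (1 - ((u⁻¹ : Rˣ) : R)) ((X : R⟦X⟧) ^ (d + i))) =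
      PowerSeries.rescale ((X : R⟦X⟧) ^ d) (pk (1 - ((u⁻¹ : Rˣ) : R)) K 1) := by
    rw [← pk_scale, mul_one]
    unfold pk
    refine Finset.prod_congr rfl fun i _ => ?_
    rw [pow_add]
  rw [h1, PowerSeries.coeff_rescale, ← pow_mul]
  exact (Cg.refl _ _).mul (pk_cq u K m)

/-! ### the sum over `i` -/

theorem Ph_succ (φ : ℤ → R) (d i : ℕ) : Ph φ d (i + 1) = Ph φ d i + φ (-((i : ℤ) + 1)) := by
  unfold Ph
  have h : Finset.Ico (-((i + 1 : ℕ) : ℤ)) (d : ℤ) =
      insert (-((i : ℤ) + 1)) (Finset.Ico (-(i : ℤ)) (d : ℤ)) := by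
    ext e
    simp only [Finset.mem_Ico, Finset.mem_insert]
    push_cast
    omega
  rw [h, Finset.sum_insert (by simp), add_comm]

theorem tel (φ : ℤ → R) (d k K : ℕ) :
    (1 - X ^ k) * ∑ i ∈ Finset.range K, (X : R⟦X⟧) ^ ((d + i) * k) * PowerSeries.C (Ph φ d i) =
      X ^ (d * k) * PowerSeries.C (Ph φ d 0) +
        (∑ i ∈ Finset.range K, X ^ ((d + (i + 1)) * k) * PowerSeries.C (φ (-((i : ℤ) + 1)))) -
        X ^ ((d + K) * k) * PowerSeries.C (Ph φ d K) := by
  induction K with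
  | zero => simp
  | succ K ih =>
    rw [Finset.sum_range_succ, mul_add, ih, Finset.sum_range_succ, Ph_succ, map_add]
    have : (X : R⟦X⟧) ^ ((d + (K + 1)) * k) = X ^ k * X ^ ((d + K) * k) := by
      rw [← pow_add]; congr 1; ring
    rw [this]
    ring

theorem WL_coeff (φ : ℤ → R) (d k n : ℕ) (hk : 1 ≤ k) :
    PowerSeries.coeff n (WL φ d k) =
      (if k * d = n then Ph φ d 0 else 0) +
        ∑ i ∈ Finset.range n, if k * (d + (i + 1)) = n then φ (-((i : ℤ) + 1)) else 0 := by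
  unfold WL
  rw [PowerSeries.coeff_mk]
  -- split according to the sign of `e`
  have hsplit : Finset.Icc (-(n : ℤ)) n = Finset.Icc (-(n : ℤ)) (-1) ∪ Finset.Icc 0 (n : ℤ) := by
    ext e
    simp only [Finset.mem_Icc, Finset.mem_union]
    omega
  have hdisj : Disjoint (Finset.Icc (-(n : ℤ)) (-1)) (Finset.Icc 0 (n : ℤ)) := by
    rw [Finset.disjoint_left]
    intro e
    simp only [Finset.mem_Icc]
    omega
  rw [hsplit, Finset.sum_union hdisj, add_comm]
  congr 1
  · -- nonnegative part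
    by_cases h : k * d = n
    · rw [if_pos h]
      unfold Ph
      have hdn : d ≤ n := by
        rw [← h]; exact Nat.le_mul_of_pos_left _ (by omega)
      rw [← Finset.sum_filter]
      refine Finset.sum_congr ?_ fun _ _ => rfl
      ext e
      simp only [Finset.mem_filter, Finset.mem_Icc, Finset.mem_Ico]
      constructor
      · rintro ⟨⟨h1, h2⟩, h3, h4⟩
        constructor
        · simpa using h1
        · exact h3
      · rintro ⟨h1, h2⟩
        have h1' : 0 ≤ e := by simpa using h1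
        refine ⟨⟨h1', by omega⟩, h2, ?_⟩
        unfold Mde
        rw [if_pos h1', max_eq_left (by omega)]
        exact h
    · rw [if_neg h]
      refine Finset.sum_eq_zero fun e he => ?_
      simp only [Finset.mem_Icc] at he
      rw [if_neg]
      rintro ⟨h3, h4⟩
      apply h
      unfold Mde at h4
      rw [if_pos he.1, max_eq_left (by omega)] at h4
      exact h4
  · -- negative part
    refine Finset.sum_bij' (fun e _ => (-e - 1).toNat) (fun i _ => -((i : ℤ) + 1)) ?_ ?_ ?_ ?_ ?_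
    · intro e he
      simp only [Finset.mem_Icc, Finset.mem_range] at he ⊢
      omega
    · intro i hi
      simp only [Finset.mem_Icc, Finset.mem_range] at hi ⊢
      omega
    · intro e he
      simp only [Finset.mem_Icc] at he ⊢
      omega
    · intro i hi
      simp only [Finset.mem_range] at hi ⊢
      omega
    · intro e he
      simp only [Finset.mem_Icc] at he
      have h1 : -(((-e - 1).toNat : ℤ) + 1) = e := by omega
      rw [h1]
      have h2 : Mde d e = d + ((-e - 1).toNat + 1) := by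
        unfold Mde
        rw [if_neg (by omega)]
        omega
      rw [h2]
      have h3 : e < d := by omega
      simp only [h3, true_and]

theorem sum_WL (φ : ℤ → R) (d k K : ℕ) (hk : 1 ≤ k) :
    Cg K (∑ i ∈ Finset.range K, (X : R⟦X⟧) ^ ((d + i) * k) * PowerSeries.C (Ph φ d i))
      (uu R k * WL φ d k) := by
  have hW : Cg K (X ^ (d * k) * PowerSeries.C (Ph φ d 0) +
        (∑ i ∈ Finset.range K, X ^ ((d + (i + 1)) * k) * PowerSeries.C (φ (-((i : ℤ) + 1)))) -
        X ^ ((d + K) * k) * PowerSeries.C (Ph φ d K)) (WL φ d k) := by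
    apply Cg.of_coeff
    intro n hn
    rw [WL_coeff φ d k n hk, map_sub, map_add, map_sum]
    simp_rw [PowerSeries.coeff_mul_C, PowerSeries.coeff_X_pow]
    have h1 : n ≠ (d + K) * k := by
      intro h
      have : K ≤ (d + K) * k := le_trans (Nat.le_add_left _ _) (Nat.le_mul_of_pos_right _ (by omega))
      omega
    rw [if_neg h1, zero_mul, sub_zero]
    congr 1
    · have : (n = d * k) ↔ (k * d = n) := by rw [mul_comm]; exact eq_comm
      by_cases h : k * d = n
      · rw [if_pos h, if_pos (this.2 h), one_mul]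
      · rw [if_neg h, if_neg (fun h' => h (this.1 h')), zero_mul]
    · have hsub : Finset.range n ⊆ Finset.range K := by
        intro i hi
        simp only [Finset.mem_range] at hi ⊢
        omega
      rw [← Finset.sum_subset hsub]
      · refine Finset.sum_congr rfl fun i _ => ?_
        have : (n = (d + (i + 1)) * k) ↔ (k * (d + (i + 1)) = n) := by
          rw [mul_comm]; exact eq_comm
        by_cases h : k * (d + (i + 1)) = n
        · rw [if_pos h, if_pos (this.2 h), one_mul]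
        · rw [if_neg h, if_neg (fun h' => h (this.1 h')), zero_mul]
      · intro i _ hi
        simp only [Finset.mem_range, not_lt] at hi
        rw [if_neg, zero_mul]
        intro h
        have : i + 1 ≤ (d + (i + 1)) * k :=
          le_trans (Nat.le_add_left _ _) (Nat.le_mul_of_pos_right _ (by omega))
        omega
  rw [← tel φ d k K] at hW
  have h2 := (Cg.refl K (uu R k)).mul hW
  rwa [← mul_assoc, mul_comm (uu R k) (1 - X ^ k), uu_mul k hk, one_mul] at h2

end F5A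

open F5A in
theorem F5A : S_F5A := by
  intro R _ u φ d K m n hn
  have hA0 : cs 0 (Am K (uP u) (yphi φ) d m) = PowerSeries.coeff m
      (∏ i ∈ Finset.range K, ff (1 - ((u⁻¹ : Rˣ) : R)) ((X : R⟦X⟧) ^ (d + i))) := by
    unfold Am
    rw [cs_zero, ← coeff_m0, map_prod]
    simp_rw [m0_ff]
  refine ⟨?_, ?_⟩
  · rw [hA0]
    exact (coeff_prod_ff u d K m).coeff hn
  · unfold Am
    rw [← coeff_m1, m1_prod K _ _ (fun i => m1_ff u φ d i)]
    simp_rw [m0_ff]
    refine Cg.coeff ?_ hn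
    rw [PowerSeries.coeff_mul, Finset.Nat.sum_antidiagonal_eq_sum_range_succ
      (fun a b => PowerSeries.coeff a (∏ i ∈ Finset.range K,
        ff (1 - ((u⁻¹ : Rˣ) : R)) ((X : R⟦X⟧) ^ (d + i))) *
        PowerSeries.coeff b (∑ i ∈ Finset.range K, Hs ((u⁻¹ : Rˣ) : R) φ d i)),
      ← Finset.sum_range_reflect, Finset.range_eq_Ico,
      Finset.sum_eq_sum_Ico_succ_bot (by omega)]
    have hz : ∀ b, PowerSeries.coeff b (∑ i ∈ Finset.range K, Hs ((u⁻¹ : Rˣ) : R) φ d i) =
        PowerSeries.C (1 - ((u⁻¹ : Rˣ) : R) ^ b) *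
          ∑ i ∈ Finset.range K, (X : R⟦X⟧) ^ ((d + i) * b) * PowerSeries.C (Ph φ d i) := by
      intro b
      rw [map_sum, Finset.mul_sum]
      refine Finset.sum_congr rfl fun i _ => ?_
      unfold Hs
      rw [PowerSeries.coeff_mk, ← pow_mul]
      ring
    have h0 : m - (m + 1 - 1 - 0) = 0 := by omega
    rw [h0, hz 0]
    simp only [pow_zero, sub_self, map_zero, zero_mul, mul_zero, zero_add]
    have hIcc : Finset.Ico 1 (m + 1) = Finset.Icc 1 m := by
      ext k; simp only [Finset.mem_Ico, Finset.mem_Icc]; omega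
    rw [hIcc]
    refine Cg.sum _ fun k hk => ?_
    rw [Finset.mem_Icc] at hk
    have h1 : m + 1 - 1 - k = m - k := by omega
    have h2 : m - (m - k) = k := by omega
    rw [h1, h2, hz k]
    have := ((coeff_prod_ff u d K (m - k)).mul
      ((Cg.refl K (PowerSeries.C (1 - ((u⁻¹ : Rˣ) : R) ^ k))).mul (sum_WL φ d k K hk.1)))
    convert this using 1
    ring

end Pool.Agent.H946.Z
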