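import Pool.Agent.H946.Z.Basic
set_option autoImplicit false

/-!
# MP_d9449f_ag : S_F5B
-/

namespace Pool.Agent.H946.Z

namespace F5B

open PowerSeries

noncomputable section

/-! ### `X^K`-congruence -/

section cg
variable {R : Type*} [CommRing R]

/-- congruence modulo `X^K` -/
def Cg (K : ℕ) (a b : R⟦X⟧) : Prop := (X : R⟦X⟧) ^ K ∣ a - b

theorem Cg.refl (K : ℕ) (a : R⟦X⟧) : Cg K a a := by unfold Cg; rw [sub_self]; exact dvd_zero _

theorem Cg.trans {K : ℕ} {a b c : R⟦X⟧} (h1 : Cg K a b) (h2 : Cg K b c) : Cg K a c := by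
  unfold Cg at *
  have : a - c = (a - b) + (b - c) := by ring
  rw [this]; exact dvd_add h1 h2

theorem Cg.add {K : ℕ} {a b c d : R⟦X⟧} (h1 : Cg K a b) (h2 : Cg K c d) :
    Cg K (a + c) (b + d) := by
  unfold Cg at *
  have : a + c - (b + d) = (a - b) + (c - d) := by ring
  rw [this]; exact dvd_add h1 h2

theorem Cg.mul {K : ℕ} {a b c d : R⟦X⟧} (h1 : Cg K a b) (h2 : Cg K c d) :
    Cg K (a * c) (b * d) := by
  unfold Cg at *
  have : a * c - b * d = (a - b) * c + b * (c - d) := by ring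
  rw [this]; exact dvd_add (Dvd.dvd.mul_right h1 _) (Dvd.dvd.mul_left h2 _)

theorem Cg.sum {ι : Type*} {K : ℕ} (s : Finset ι) {a b : ι → R⟦X⟧}
    (h : ∀ i ∈ s, Cg K (a i) (b i)) : Cg K (∑ i ∈ s, a i) (∑ i ∈ s, b i) := by
  unfold Cg at *
  rw [← Finset.sum_sub_distrib]
  exact Finset.dvd_sum h

theorem Cg.coeff {K : ℕ} {a b : R⟦X⟧} (h : Cg K a b) {n : ℕ} (hn : n < K) :
    PowerSeries.coeff n a = PowerSeries.coeff n b := by
  have := PowerSeries.X_pow_dvd_iff.1 h n hn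
  rw [map_sub] at this
  exact sub_eq_zero.1 this

theorem Cg.of_coeff {K : ℕ} {a b : R⟦X⟧}
    (h : ∀ n < K, PowerSeries.coeff n a = PowerSeries.coeff n b) : Cg K a b := by
  unfold Cg
  rw [PowerSeries.X_pow_dvd_iff]
  intro n hn
  rw [map_sub, h n hn, sub_self]

end cg

/-! ### coefficients in `s` -/

section cs
variable {R : Type} [CommRing R]

/-- `cs 0` as a ring homomorphism -/
def c0 : (Polynomial R)⟦X⟧ →+* R⟦X⟧ := PowerSeries.map Polynomial.constantCoeff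

theorem cs_zero (F : (Polynomial R)⟦X⟧) : cs 0 F = c0 F := by
  ext n
  unfold cs c0
  rw [PowerSeries.coeff_mk, PowerSeries.coeff_map]
  rfl

/-- `cs 1` as an additive homomorphism -/
def c1 : (Polynomial R)⟦X⟧ →+ R⟦X⟧ where
  toFun := cs 1
  map_zero' := by ext n; simp [cs]
  map_add' := by intro F G; ext n; simp [cs]

theorem cs_one (F : (Polynomial R)⟦X⟧) : cs 1 F = c1 F := rfl

theorem c1_mul (F G : (Polynomial R)⟦X⟧) : c1 (F * G) = c0 F * c1 G + c1 F * c0 G := by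
  rw [← cs_zero, ← cs_zero, ← cs_one, ← cs_one, ← cs_one]
  ext n
  rw [map_add, PowerSeries.coeff_mul, PowerSeries.coeff_mul, ← Finset.sum_add_distrib]
  unfold cs
  simp only [PowerSeries.coeff_mk]
  rw [PowerSeries.coeff_mul, Polynomial.finsetSum_coeff]
  apply Finset.sum_congr rfl
  intro p _
  rw [Polynomial.mul_coeff_one]

theorem c0_C (p : Polynomial R) : c0 (PowerSeries.C p) = PowerSeries.C (p.coeff 0) := by
  unfold c0
  rw [PowerSeries.map_C]
  rfl

theorem c1_C (p : Polynomial R) : c1 (PowerSeries.C p) = PowerSeries.C (p.coeff 1) := by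
  rw [← cs_one]
  ext n
  unfold cs
  rw [PowerSeries.coeff_mk, PowerSeries.coeff_C, PowerSeries.coeff_C]
  split_ifs <;> simp

theorem c0_X : c0 (X : (Polynomial R)⟦X⟧) = X := by
  unfold c0
  rw [PowerSeries.map_X]

theorem c1_X : c1 (X : (Polynomial R)⟦X⟧) = 0 := by
  rw [← cs_one]
  ext n
  unfold cs
  rw [PowerSeries.coeff_mk, PowerSeries.coeff_X]
  split_ifs <;> simp [Polynomial.coeff_one]

theorem c1_one : c1 (1 : (Polynomial R)⟦X⟧) = 0 := by
  have h := c1_C (1 : Polynomial R)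
  rw [map_one, Polynomial.coeff_one] at h
  simpa using h

theorem c1_pow (x : (Polynomial R)⟦X⟧) (y : R⟦X⟧) (h : c1 x = c0 x * y) (m : ℕ) :
    c1 (x ^ m) = (m : R⟦X⟧) * c0 x ^ m * y := by
  induction m with
  | zero => simp [c1_one]
  | succ m ih =>
    rw [pow_succ, c1_mul, ih, map_pow, h]
    push_cast
    ring

/-- order zero on series in `t` -/
def D0 : ((Polynomial R)⟦X⟧)⟦X⟧ →+* (R⟦X⟧)⟦X⟧ := PowerSeries.map c0

/-- order one on series in `t` -/
def D1 (F : ((Polynomial R)⟦X⟧)⟦X⟧) : (R⟦X⟧)⟦X⟧ :=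
  PowerSeries.mk fun m => c1 (PowerSeries.coeff m F)

theorem coeff_D0 (F : ((Polynomial R)⟦X⟧)⟦X⟧) (m : ℕ) :
    PowerSeries.coeff m (D0 F) = c0 (PowerSeries.coeff m F) := by
  unfold D0; rw [PowerSeries.coeff_map]

theorem coeff_D1 (F : ((Polynomial R)⟦X⟧)⟦X⟧) (m : ℕ) :
    PowerSeries.coeff m (D1 F) = c1 (PowerSeries.coeff m F) := by
  unfold D1; rw [PowerSeries.coeff_mk]

theorem D1_mul (F G : ((Polynomial R)⟦X⟧)⟦X⟧) : D1 (F * G) = D0 F * D1 G + D1 F * D0 G := by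
  ext1 m
  rw [coeff_D1, map_add, PowerSeries.coeff_mul, PowerSeries.coeff_mul, PowerSeries.coeff_mul,
    ← Finset.sum_add_distrib, map_sum]
  apply Finset.sum_congr rfl
  intro p _
  rw [c1_mul, coeff_D0, coeff_D0, coeff_D1, coeff_D1]

theorem D1_prod (F : ℕ → ((Polynomial R)⟦X⟧)⟦X⟧) (G : ℕ → (R⟦X⟧)⟦X⟧)
    (h : ∀ j, D1 (F j) = D0 (F j) * G j) (K : ℕ) :
    D1 (∏ j ∈ Finset.range K, F j) =
      (∏ j ∈ Finset.range K, D0 (F j)) * ∑ j ∈ Finset.range K, G j := by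
  induction K with
  | zero =>
    simp only [Finset.range_zero, Finset.prod_empty, Finset.sum_empty, mul_zero]
    ext1 m
    rw [coeff_D1, PowerSeries.coeff_one, map_zero]
    split_ifs
    · exact c1_one
    · exact map_zero _
  | succ K ih =>
    rw [Finset.prod_range_succ, Finset.prod_range_succ, Finset.sum_range_succ, D1_mul, ih, h,
      map_prod]
    ring

/-- partial sums of `φ` -/
def Ps (φ : ℤ → R) (d j : ℕ) : R := ∑ i ∈ Finset.range j, φ ((d : ℤ) + i)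

theorem bb_succ {A : Type} [CommRing A] (y : ℤ → A) (d j : ℕ) :
    bb y d (j + 1) = bb y d j * (PowerSeries.C (y ((d : ℤ) + ((j + 1 : ℕ) : ℤ))) * X) := by
  unfold bb
  have h : Finset.Icc (d : ℤ) ((d : ℤ) + ((j + 1 : ℕ) : ℤ)) =
      insert ((d : ℤ) + ((j + 1 : ℕ) : ℤ)) (Finset.Icc (d : ℤ) ((d : ℤ) + j)) := by
    ext x
    simp only [Finset.mem_insert, Finset.mem_Icc]
    push_cast
    omega
  rw [h, Finset.prod_insert, mul_comm]
  simp only [Finset.mem_Icc, not_and, not_le]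
  intro _
  push_cast
  omega

theorem bb_zero {A : Type} [CommRing A] (y : ℤ → A) (d : ℕ) :
    bb y d 0 = PowerSeries.C (y (d : ℤ)) * X := by
  unfold bb
  simp

theorem yphi0 (φ : ℤ → R) (e : ℤ) : (yphi φ e).coeff 0 = 1 := by
  unfold yphi
  simp

theorem yphi1 (φ : ℤ → R) (e : ℤ) : (yphi φ e).coeff 1 = φ e := by
  unfold yphi
  rw [Polynomial.coeff_add, Polynomial.coeff_C_mul, Polynomial.coeff_X_one, mul_one,
    Polynomial.coeff_one]
  simp

theorem c0_bb (φ : ℤ → R) (d j : ℕ) : c0 (bb (yphi φ) d j) = X ^ (j + 1) := by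
  induction j with
  | zero => rw [bb_zero, map_mul, c0_C, c0_X, yphi0]; simp
  | succ j ih => rw [bb_succ, map_mul, map_mul, c0_C, c0_X, yphi0, ih]; simp [pow_succ]

theorem c1_bb (φ : ℤ → R) (d j : ℕ) :
    c1 (bb (yphi φ) d j) = c0 (bb (yphi φ) d j) * PowerSeries.C (Ps φ d (j + 1)) := by
  induction j with
  | zero =>
    rw [bb_zero, c1_mul, map_mul, c0_C, c0_X, yphi0, c1_C, c1_X, yphi1]
    simp [Ps, mul_comm]
  | succ j ih =>
    have e1 : c0 (PowerSeries.C (yphi φ ((d : ℤ) + ((j + 1 : ℕ) : ℤ))) * X) = X := by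
      rw [map_mul, c0_C, c0_X, yphi0, map_one, one_mul]
    have e2 : c1 (PowerSeries.C (yphi φ ((d : ℤ) + ((j + 1 : ℕ) : ℤ))) * X) =
        PowerSeries.C (φ ((d : ℤ) + ((j + 1 : ℕ) : ℤ))) * X := by
      rw [c1_mul, c1_C, c1_X, c0_X, yphi1, mul_zero, zero_add]
    rw [bb_succ, c1_mul, ih, map_mul c0 (bb (yphi φ) d j), e1, e2]
    have : Ps φ d (j + 1 + 1) = Ps φ d (j + 1) + φ ((d : ℤ) + ((j + 1 : ℕ) : ℤ)) := by
      unfold Ps
      rw [Finset.sum_range_succ]
    rw [this, map_add]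
    ring

/-- `x_j = u X^(j+1)` -/
def xx (u : R) (j : ℕ) : R⟦X⟧ := PowerSeries.C u * X ^ (j + 1)

theorem c0_x (u : Rˣ) (φ : ℤ → R) (d j : ℕ) :
    c0 (PowerSeries.C ((uP u : (Polynomial R)ˣ) : Polynomial R) * bb (yphi φ) d j) =
      xx (u : R) j := by
  rw [map_mul, c0_C, c0_bb]
  unfold xx uP
  simp

theorem c1_x (u : Rˣ) (φ : ℤ → R) (d j : ℕ) :
    c1 (PowerSeries.C ((uP u : (Polynomial R)ˣ) : Polynomial R) * bb (yphi φ) d j) =
      c0 (PowerSeries.C ((uP u : (Polynomial R)ˣ) : Polynomial R) * bb (yphi φ) d j) *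
        PowerSeries.C (Ps φ d (j + 1)) := by
  rw [c1_mul, c1_bb, map_mul, c1_C]
  have : ((uP u : (Polynomial R)ˣ) : Polynomial R).coeff 1 = 0 := by
    unfold uP
    simp
  rw [this]
  simp [mul_assoc]

theorem cP0 (u : Rˣ) : c0 (PowerSeries.C (1 - (((uP u)⁻¹ : (Polynomial R)ˣ) : Polynomial R))) =
    PowerSeries.C (1 - ((u⁻¹ : Rˣ) : R)) := by
  rw [c0_C]
  congr 1
  unfold uP
  rw [← map_inv]
  simp

theorem cP1 (u : Rˣ) : c1 (PowerSeries.C (1 - (((uP u)⁻¹ : (Polynomial R)ˣ) : Polynomial R))) =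
    0 := by
  rw [c1_C]
  unfold uP
  rw [← map_inv]
  simp [Polynomial.coeff_one]

/-- the factor -/
def Fj (u : Rˣ) (φ : ℤ → R) (d j : ℕ) : ((Polynomial R)⟦X⟧)⟦X⟧ :=
  ff (1 - (((uP u)⁻¹ : (Polynomial R)ˣ) : Polynomial R))
    (PowerSeries.C ((uP u : (Polynomial R)ˣ) : Polynomial R) * bb (yphi φ) d j)

theorem D0_Fj (u : Rˣ) (φ : ℤ → R) (d j : ℕ) :
    D0 (Fj u φ d j) = ff (1 - ((u⁻¹ : Rˣ) : R)) (xx (u : R) j) := by
  ext1 m
  rw [coeff_D0]
  unfold Fj ff
  rw [PowerSeries.coeff_mk, PowerSeries.coeff_mk]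
  split_ifs with h
  · exact map_one _
  · rw [map_mul, map_pow, cP0, c0_x]

/-- logarithmic derivative of the factor -/
def Gj (u : Rˣ) (φ : ℤ → R) (d j : ℕ) : (R⟦X⟧)⟦X⟧ :=
  PowerSeries.mk fun k => PowerSeries.C (1 - ((u⁻¹ : Rˣ) : R) ^ k) * xx (u : R) j ^ k *
    PowerSeries.C (Ps φ d (j + 1))

theorem sum_identity (v : R) (m : ℕ) :
    (1 - v ^ (m + 1)) + (1 - v) * ∑ k ∈ Finset.range (m + 1), (1 - v ^ k) =
      ((m : R) + 1) * (1 - v) := by
  induction m with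
  | zero => simp
  | succ m ih =>
    rw [Finset.sum_range_succ, mul_add]
    push_cast
    linear_combination ih

theorem D1_Fj (u : Rˣ) (φ : ℤ → R) (d j : ℕ) :
    D1 (Fj u φ d j) = D0 (Fj u φ d j) * Gj u φ d j := by
  ext1 m
  rw [coeff_D1, D0_Fj, mul_comm, PowerSeries.coeff_mul,
    Finset.Nat.sum_antidiagonal_eq_sum_range_succ_mk]
  unfold Fj ff Gj
  simp only [PowerSeries.coeff_mk]
  rcases m with _ | m
  · simp [c1_one]
  · rw [if_neg (Nat.succ_ne_zero m), c1_mul, cP1, zero_mul, add_zero, cP0, c1_pow _ _ (c1_x u φ d j),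
      c0_x, Finset.sum_range_succ, if_pos (Nat.sub_self _), mul_one]
    have h1 : ∀ k ∈ Finset.range (m + 1),
        (PowerSeries.C (1 - ((u⁻¹ : Rˣ) : R) ^ k) * xx (u : R) j ^ k *
          PowerSeries.C (Ps φ d (j + 1))) *
        (if m + 1 - k = 0 then 1 else PowerSeries.C (1 - ((u⁻¹ : Rˣ) : R)) *
          xx (u : R) j ^ (m + 1 - k)) =
        PowerSeries.C ((1 - ((u⁻¹ : Rˣ) : R)) * (1 - ((u⁻¹ : Rˣ) : R) ^ k)) *
          (xx (u : R) j ^ (m + 1) * PowerSeries.C (Ps φ d (j + 1))) := by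
      intro k hk
      rw [Finset.mem_range] at hk
      rw [if_neg (by omega)]
      have : xx (u : R) j ^ (m + 1) = xx (u : R) j ^ k * xx (u : R) j ^ (m + 1 - k) := by
        rw [← pow_add]; congr 1; omega
      rw [this, map_mul]
      ring
    rw [Finset.sum_congr rfl h1, ← Finset.sum_mul, ← map_sum, ← Finset.mul_sum]
    have h2 := sum_identity ((u⁻¹ : Rˣ) : R) m
    have h3 : ((m + 1 : ℕ) : R⟦X⟧) = PowerSeries.C ((m : R) + 1) := by
      push_cast
      simp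
    rw [h3]
    have h4 := congrArg (fun z => (PowerSeries.C z : R⟦X⟧)) h2
    simp only [map_add, map_mul] at h4 ⊢
    linear_combination -(xx (u : R) j ^ (m + 1) * PowerSeries.C (Ps φ d (j + 1))) * h4

/-! ### the `q`-binomial theorem modulo `X^K` -/

theorem one_sub_mul_ff (v : R) (x : R⟦X⟧) :
    (1 - PowerSeries.C x * X) * ff (1 - v) x = 1 - PowerSeries.C (PowerSeries.C v * x) * X := by
  ext1 m
  rcases m with _ | m
  · simp [ff, sub_mul, mul_assoc]
  · rw [sub_mul, one_mul, map_sub, mul_assoc, PowerSeries.coeff_C_mul, PowerSeries.coeff_succ_X_mul,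
      map_sub, PowerSeries.coeff_C_mul, PowerSeries.coeff_one, PowerSeries.coeff_X]
    unfold ff
    rw [PowerSeries.coeff_mk, PowerSeries.coeff_mk, if_neg (Nat.succ_ne_zero m),
      if_neg (Nat.succ_ne_zero m)]
    rcases m with _ | m
    · simp; ring
    · rw [if_neg (Nat.succ_ne_zero m), if_neg (by omega)]
      ring

/-- `G_K(t)` -/
def Gq (v : R) (K : ℕ) : (R⟦X⟧)⟦X⟧ := ∏ j ∈ Finset.range K, ff (1 - v) ((X : R⟦X⟧) ^ j)

theorem rescale_ff (c : R) (a x : R⟦X⟧) : PowerSeries.rescale a (ff c x) = ff c (a * x) := by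
  ext1 m
  rw [PowerSeries.coeff_rescale]
  unfold ff
  rw [PowerSeries.coeff_mk, PowerSeries.coeff_mk]
  split_ifs with h
  · subst h; simp
  · rw [mul_pow]; ring

theorem Gq_eq (v : R) (K : ℕ) : Gq v K * ff (1 - v) ((X : R⟦X⟧) ^ K) =
    ff (1 - v) 1 * PowerSeries.rescale (X : R⟦X⟧) (Gq v K) := by
  unfold Gq
  rw [← Finset.prod_range_succ, Finset.prod_range_succ', map_prod, mul_comm, pow_zero]
  congr 1
  apply Finset.prod_congr rfl
  intro j _
  rw [rescale_ff, pow_succ, mul_comm]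

theorem Gq_cg (v : R) (K m : ℕ) : Cg K (PowerSeries.coeff m (Gq v K * ff (1 - v)
    ((X : R⟦X⟧) ^ K))) (PowerSeries.coeff m (Gq v K)) := by
  rw [PowerSeries.coeff_mul, Finset.Nat.sum_antidiagonal_eq_sum_range_succ_mk,
    Finset.sum_range_succ]
  have h1 : Cg K (∑ x ∈ Finset.range m, PowerSeries.coeff x (Gq v K) *
      PowerSeries.coeff (m - x) (ff (1 - v) ((X : R⟦X⟧) ^ K)))
      (∑ x ∈ Finset.range m, PowerSeries.coeff x (Gq v K) * 0) := by
    apply Cg.sum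
    intro x hx
    rw [Finset.mem_range] at hx
    apply Cg.mul (Cg.refl _ _)
    unfold ff Cg
    rw [PowerSeries.coeff_mk, if_neg (by omega), sub_zero, ← pow_mul]
    apply Dvd.dvd.mul_left
    apply pow_dvd_pow
    exact Nat.le_mul_of_pos_right _ (by omega)
  have h2 : PowerSeries.coeff (m - m) (ff (1 - v) ((X : R⟦X⟧) ^ K)) = 1 := by
    unfold ff
    rw [PowerSeries.coeff_mk, if_pos (Nat.sub_self m)]
  rw [h2, mul_one]
  have := h1.add (Cg.refl K (PowerSeries.coeff m (Gq v K)))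
  simpa using this

theorem Gq_rec (v : R) (K m : ℕ) : Cg K ((1 - X ^ (m + 1)) * PowerSeries.coeff (m + 1) (Gq v K))
    ((1 - X ^ m * PowerSeries.C v) * PowerSeries.coeff m (Gq v K)) := by
  have h1 : (1 - PowerSeries.C (1 : R⟦X⟧) * X) * (Gq v K * ff (1 - v) ((X : R⟦X⟧) ^ K)) =
      (1 - PowerSeries.C (PowerSeries.C v * 1) * X) *
        PowerSeries.rescale (X : R⟦X⟧) (Gq v K) := by
    rw [Gq_eq, ← mul_assoc, one_sub_mul_ff]
  have h2 := congrArg (PowerSeries.coeff (m + 1)) h1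
  rw [sub_mul, one_mul, map_sub, mul_assoc, PowerSeries.coeff_C_mul, PowerSeries.coeff_succ_X_mul,
    sub_mul, one_mul, map_sub, mul_assoc, PowerSeries.coeff_C_mul, PowerSeries.coeff_succ_X_mul,
    one_mul, PowerSeries.coeff_rescale, PowerSeries.coeff_rescale, mul_one] at h2
  have g1 := Gq_cg v K (m + 1)
  have g2 := Gq_cg v K m
  unfold Cg at *
  have : (1 - X ^ (m + 1)) * PowerSeries.coeff (m + 1) (Gq v K) -
      (1 - X ^ m * PowerSeries.C v) * PowerSeries.coeff m (Gq v K) =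
      (PowerSeries.coeff m (Gq v K * ff (1 - v) ((X : R⟦X⟧) ^ K)) -
        PowerSeries.coeff m (Gq v K)) -
      (PowerSeries.coeff (m + 1) (Gq v K * ff (1 - v) ((X : R⟦X⟧) ^ K)) -
        PowerSeries.coeff (m + 1) (Gq v K)) := by
    linear_combination h2
  rw [this]
  exact dvd_sub g2 g1

theorem Gq_coeff (u : Rˣ) (K m : ℕ) :
    Cg K (PowerSeries.coeff m (Gq ((u⁻¹ : Rˣ) : R) K)) (cq u m) := by
  induction m with
  | zero =>
    have : PowerSeries.coeff 0 (Gq ((u⁻¹ : Rˣ) : R) K) = 1 := by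
      rw [PowerSeries.coeff_zero_eq_constantCoeff_apply]
      unfold Gq
      rw [map_prod]
      apply Finset.prod_eq_one
      intro j _
      rw [← PowerSeries.coeff_zero_eq_constantCoeff_apply]
      unfold ff
      rw [PowerSeries.coeff_mk, if_pos rfl]
    rw [this]
    unfold cq
    simp only [Finset.range_zero, Finset.prod_empty]
    exact Cg.refl _ _
  | succ m ih =>
    have h1 := Gq_rec ((u⁻¹ : Rˣ) : R) K m
    have h2 := (Cg.refl K (uu R (m + 1))).mul h1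
    rw [← mul_assoc, mul_comm (uu R (m + 1)), uu_mul _ (Nat.succ_le_succ (Nat.zero_le _)),
      one_mul] at h2
    refine h2.trans ?_
    have h3 : cq u (m + 1) = uu R (m + 1) * ((1 - X ^ m * PowerSeries.C ((u⁻¹ : Rˣ) : R)) *
        cq u m) := by
      unfold cq
      rw [Finset.prod_range_succ]
      ring
    rw [h3]
    exact (Cg.refl _ _).mul ((Cg.refl _ _).mul ih)

theorem prod_D0 (u : Rˣ) (φ : ℤ → R) (d K m : ℕ) :
    Cg K (PowerSeries.coeff m (∏ j ∈ Finset.range K, D0 (Fj u φ d j)))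
      (PowerSeries.C ((u : R) ^ m) * X ^ m * cq u m) := by
  have h : ∏ j ∈ Finset.range K, D0 (Fj u φ d j) =
      PowerSeries.rescale (PowerSeries.C (u : R) * X) (Gq ((u⁻¹ : Rˣ) : R) K) := by
    unfold Gq
    rw [map_prod]
    apply Finset.prod_congr rfl
    intro j _
    rw [D0_Fj, rescale_ff]
    unfold xx
    rw [pow_succ']
    congr 1
    ring
  rw [h, PowerSeries.coeff_rescale, mul_pow, map_pow]
  exact (Cg.refl _ _).mul (Gq_coeff u K m)

/-! ### the sum over `j` -/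

theorem sum_Ps (φ : ℤ → R) (d k K : ℕ) :
    (1 - X ^ k) * ∑ j ∈ Finset.range K, X ^ ((j + 1) * k) * PowerSeries.C (Ps φ d (j + 1)) =
      ∑ j ∈ Finset.range K, X ^ ((j + 1) * k) * PowerSeries.C (φ ((d : ℤ) + j)) -
        (X ^ ((K + 1) * k) * PowerSeries.C (Ps φ d K) : R⟦X⟧) := by
  induction K with
  | zero => simp [Ps]
  | succ K ih =>
    rw [Finset.sum_range_succ, Finset.sum_range_succ, mul_add, ih]
    have h1 : Ps φ d (K + 1) = Ps φ d K + φ ((d : ℤ) + K) := by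
      unfold Ps
      rw [Finset.sum_range_succ]
    rw [h1, map_add]
    have h2 : (X : R⟦X⟧) ^ ((K + 1 + 1) * k) = X ^ k * X ^ ((K + 1) * k) := by
      rw [← pow_add]; congr 1; ring
    rw [h2]
    ring

theorem WR_cg (φ : ℤ → R) (d k K : ℕ) (hk : 1 ≤ k) :
    Cg K (∑ j ∈ Finset.range K, X ^ ((j + 1) * k) * PowerSeries.C (φ ((d : ℤ) + j)))
      (WR φ d k) := by
  apply Cg.of_coeff
  intro n hn
  unfold WR
  rw [map_sum, PowerSeries.coeff_mk]
  have h1 : ∀ j : ℕ, PowerSeries.coeff n (X ^ ((j + 1) * k) * PowerSeries.C (φ ((d : ℤ) + j))) =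
      if k * (j + 1) = n then φ ((d : ℤ) + j) else 0 := by
    intro j
    rw [mul_comm, PowerSeries.coeff_C_mul, PowerSeries.coeff_X_pow]
    by_cases h : k * (j + 1) = n
    · rw [if_pos h, if_pos (by rw [mul_comm]; exact h.symm), mul_one]
    · rw [if_neg h, if_neg (fun h' => h (by rw [mul_comm]; exact h'.symm)), mul_zero]
  simp_rw [h1]
  symm
  apply Finset.sum_subset
  · intro j hj
    simp only [Finset.mem_range] at hj ⊢
    omega
  · intro j _ hj
    simp only [Finset.mem_range, not_lt] at hj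
    rw [if_neg]
    intro h
    have : j + 1 ≤ k * (j + 1) := Nat.le_mul_of_pos_left _ hk
    omega

theorem sum_cg (φ : ℤ → R) (d k K : ℕ) (hk : 1 ≤ k) :
    Cg K (∑ j ∈ Finset.range K, X ^ ((j + 1) * k) * PowerSeries.C (Ps φ d (j + 1)))
      (uu R k * WR φ d k) := by
  have h1 := sum_Ps φ d k K
  have h2 : Cg K ((1 - X ^ k) * ∑ j ∈ Finset.range K, X ^ ((j + 1) * k) *
      PowerSeries.C (Ps φ d (j + 1))) (WR φ d k) := by
    rw [h1]
    refine Cg.trans ?_ (WR_cg φ d k K hk)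
    unfold Cg
    have : ∀ a b : R⟦X⟧, a - b - a = -b := fun a b => by ring
    rw [this, dvd_neg]
    apply Dvd.dvd.mul_right
    apply pow_dvd_pow
    nlinarith
  have h3 := (Cg.refl K (uu R k)).mul h2
  rw [← mul_assoc, mul_comm (uu R k), uu_mul _ hk, one_mul] at h3
  exact h3

theorem sum_Gj (u : Rˣ) (φ : ℤ → R) (d k K : ℕ) (hk : 1 ≤ k) :
    Cg K (PowerSeries.coeff k (∑ j ∈ Finset.range K, Gj u φ d j))
      (PowerSeries.C ((u : R) ^ k - 1) * uu R k * WR φ d k) := by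
  rw [map_sum]
  have h1 : ∀ j : ℕ, PowerSeries.coeff k (Gj u φ d j) =
      PowerSeries.C ((u : R) ^ k - 1) * (X ^ ((j + 1) * k) * PowerSeries.C (Ps φ d (j + 1))) := by
    intro j
    unfold Gj xx
    rw [PowerSeries.coeff_mk, mul_pow, ← pow_mul, ← map_pow]
    have h2 : (PowerSeries.C (1 - ((u⁻¹ : Rˣ) : R) ^ k) * PowerSeries.C ((u : R) ^ k) : R⟦X⟧) =
        PowerSeries.C ((u : R) ^ k - 1) := by
      rw [← map_mul]
      congr 1
      rw [sub_mul, one_mul, ← mul_pow, Units.inv_mul, one_pow]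
    rw [← h2]
    ring
  simp_rw [h1]
  rw [← Finset.mul_sum, mul_assoc]
  exact (Cg.refl _ _).mul (sum_cg φ d k K hk)

theorem Gj_zero (u : Rˣ) (φ : ℤ → R) (d K : ℕ) :
    PowerSeries.coeff 0 (∑ j ∈ Finset.range K, Gj u φ d j) = 0 := by
  rw [map_sum]
  apply Finset.sum_eq_zero
  intro j _
  unfold Gj
  simp

end cs

end

end F5B

theorem F5B : S_F5B := by
  intro R _ u φ d K m n hn
  have h0 : Bm K (uP u) (yphi φ) d m =
      PowerSeries.coeff m (∏ j ∈ Finset.range K, F5B.Fj u φ d j) := rfl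
  constructor
  · rw [F5B.cs_zero, h0, ← F5B.coeff_D0, map_prod]
    exact (F5B.prod_D0 u φ d K m).coeff hn
  · rw [F5B.cs_one, h0, ← F5B.coeff_D1, F5B.D1_prod _ _ (F5B.D1_Fj u φ d)]
    refine F5B.Cg.coeff (K := K) ?_ hn
    rw [mul_comm, PowerSeries.coeff_mul, Finset.Nat.sum_antidiagonal_eq_sum_range_succ_mk,
      Finset.sum_range_succ', F5B.Gj_zero, zero_mul, add_zero]
    have h1 : (Finset.Icc 1 m) = (Finset.range m).image (fun k => k + 1) := by
      ext x
      simp only [Finset.mem_Icc, Finset.mem_image, Finset.mem_range]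
      constructor
      · intro h; exact ⟨x - 1, by omega, by omega⟩
      · rintro ⟨y, hy, rfl⟩; omega
    rw [h1, Finset.sum_image (by intro a _ b _ hab; simpa using hab)]
    apply F5B.Cg.sum
    intro k _
    have e : ∀ a b c x y z : PowerSeries R, a * b * c * x * y * z = (x * y * z) * (a * b * c) :=
      fun a b c x y z => by ring
    rw [e]
    exact (F5B.sum_Gj u φ d (k + 1) K (Nat.succ_le_succ (Nat.zero_le _))).mul
      (F5B.prod_D0 u φ d K (m - (k + 1)))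

end Pool.Agent.H946.Z
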