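import Pool.Agent.H946.Z.Basic
set_option autoImplicit false

/-!
# MP_d9449f_ag : dividing by `(u-1)^2`
-/

namespace Pool.Agent.H946.Z

namespace F6

open PowerSeries

variable {R : Type} [CommRing R]

theorem psum_C_mul (c : R) (f : ℕ → R⟦X⟧) :
    psum (fun k => PowerSeries.C c * f k) = PowerSeries.C c * psum f := by
  ext n
  unfold psum
  rw [PowerSeries.coeff_mk, PowerSeries.coeff_C_mul, PowerSeries.coeff_mk, ← Finset.mul_sum,
    PowerSeries.coeff_C_mul]

theorem psum_mul (g : R⟦X⟧) (f : ℕ → R⟦X⟧) (hf : ∀ k, (X : R⟦X⟧) ^ k ∣ f k) :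
    psum (fun k => g * f k) = g * psum f := by
  ext n
  have h1 : PowerSeries.coeff n (psum (fun k => g * f k)) =
      PowerSeries.coeff n (g * ∑ k ∈ Finset.range (n + 1), f k) := by
    unfold psum
    rw [PowerSeries.coeff_mk, Finset.mul_sum]
  rw [h1, PowerSeries.coeff_mul, PowerSeries.coeff_mul]
  apply Finset.sum_congr rfl
  intro p hp
  have hp2 := Finset.HasAntidiagonal.mem_antidiagonal.1 hp
  rw [coeff_psum f hf p.2 (n + 1) (by omega)]

theorem psum_zero_add (A : R⟦X⟧) (f : ℕ → R⟦X⟧) :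
    A + psum (fun n => if n = 0 then 0 else f n) = psum (fun n => if n = 0 then A else f n) := by
  ext n
  unfold psum
  rw [map_add, PowerSeries.coeff_mk, PowerSeries.coeff_mk, Finset.sum_range_succ',
    Finset.sum_range_succ']
  simp only [Nat.succ_ne_zero, if_false, if_true, add_zero]
  rw [map_add, add_comm]

theorem psum_congr {f g : ℕ → R⟦X⟧} (h : ∀ n, f n = g n) : psum f = psum g := by
  rw [funext h]

theorem cq_succ (u : Rˣ) (n : ℕ) : cq u (n + 1) =
    PowerSeries.C (1 - ((u⁻¹ : Rˣ) : R)) * uu R (n + 1) * PiN u (n + 1) := by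
  induction n with
  | zero =>
    unfold cq PiN
    simp
  | succ n ih =>
    have h1 : cq u (n + 1 + 1) = cq u (n + 1) *
        ((1 - X ^ (n + 1) * PowerSeries.C ((u⁻¹ : Rˣ) : R)) * uu R (n + 1 + 1)) := by
      unfold cq
      rw [Finset.prod_range_succ]
    have h2 : PiN u (n + 1 + 1) = PiN u (n + 1) *
        (1 + PowerSeries.C (1 - ((u⁻¹ : Rˣ) : R)) * (uu R (n + 1) - 1)) := by
      unfold PiN
      rw [Finset.prod_Ico_succ_top (by omega)]
    rw [h1, h2, ih]
    have h3 := uu_mul (R := R) (n + 1) (by omega)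
    rw [map_sub, map_one]
    set V := PowerSeries.C ((u⁻¹ : Rˣ) : R) with hV
    set U1 := uu R (n + 1) with hU1
    set Y := (X : R⟦X⟧) ^ (n + 1) with hY
    linear_combination ((1 - V) * PiN u (n + 1) * uu R (n + 1 + 1) * V) * h3

/-- the terms of `RHS5`. -/
noncomputable def T5 (u : Rˣ) (φ : ℤ → R) (d k n : ℕ) : R⟦X⟧ :=
  cq u n * cq u (n + k) * X ^ (n * (d + 1) + k) *
    PowerSeries.C ((u : R) ^ n * ((u : R) ^ k - 1)) * uu R k * WW φ d k

/-- the terms of `RHS6`. -/
noncomputable def B6 (u : Rˣ) (d k n : ℕ) : R⟦X⟧ :=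
  if n = 0 then PowerSeries.C (∑ i ∈ Finset.range k, (u : R) ^ i) * uu R k * PiN u k else
    PowerSeries.C ((u : R) ^ (n - 1) * ((u : R) ^ k - 1)) * uu R n * uu R (n + k) *
          PiN u n * PiN u (n + k) * X ^ (n * (d + 1))

theorem B6_dvd (u : Rˣ) (d k n : ℕ) : (X : R⟦X⟧) ^ n ∣ B6 u d k n := by
  unfold B6
  split_ifs with h
  · subst h
    simp
  · refine Dvd.dvd.mul_left ?_ _
    exact pow_dvd_pow _ (by nlinarith)

theorem RHS6_eq (u : Rˣ) (φ : ℤ → R) (d : ℕ) :
    RHS6 u φ d = psum fun k => psum fun n => X ^ k * uu R k * WW φ d k * B6 u d k n := by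
  unfold RHS6
  apply psum_congr
  intro k
  rw [psum_mul _ _ (B6_dvd u d k), psum_zero_add]
  rfl

theorem term (u : Rˣ) (φ : ℤ → R) (d k n : ℕ) :
    PowerSeries.C (u : R) * T5 u φ d k n =
      PowerSeries.C (((u : R) - 1) ^ 2) * (X ^ k * uu R k * WW φ d k * B6 u d k n) := by
  have huv : PowerSeries.C (u : R) * PowerSeries.C ((u⁻¹ : Rˣ) : R) = 1 := by
    rw [← map_mul, Units.mul_inv, map_one]
  have hgeom : ((u : R) ^ k - 1) = (∑ i ∈ Finset.range k, (u : R) ^ i) * ((u : R) - 1) :=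
    (geom_sum_mul (u : R) k).symm
  unfold T5 B6
  cases n with
  | zero =>
    rw [if_pos rfl]
    cases k with
    | zero => simp
    | succ k =>
      have h0 : cq u 0 = 1 := by unfold cq; simp
      rw [h0, zero_add, cq_succ, hgeom]
      simp only [map_mul, map_sub, map_one, map_pow, pow_zero, one_mul, zero_mul, zero_add]
      set U := PowerSeries.C (u : R)
      set V := PowerSeries.C ((u⁻¹ : Rˣ) : R)
      set S := PowerSeries.C (∑ i ∈ Finset.range (k + 1), (u : R) ^ i)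
      linear_combination (-(uu R (k + 1)) ^ 2 * PiN u (k + 1) * X ^ (k + 1) * S * (U - 1) *
        WW φ d (k + 1)) * huv
  | succ n =>
    rw [if_neg (Nat.succ_ne_zero n), cq_succ,
      show n + 1 + k = (n + k) + 1 by ring, cq_succ, Nat.add_sub_cancel]
    simp only [map_mul, map_sub, map_one, map_pow]
    set U := PowerSeries.C (u : R)
    set V := PowerSeries.C ((u⁻¹ : Rˣ) : R)
    rw [pow_add (X : R⟦X⟧) ((n + 1) * (d + 1)) k]
    generalize (X : R⟦X⟧) ^ ((n + 1) * (d + 1)) = Z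
    generalize (X : R⟦X⟧) ^ k = Zk
    have e : U * ((1 - V) * (1 - V) * U ^ (n + 1)) = (U - 1) ^ 2 * U ^ n := by
      linear_combination (-(2 * U) * U ^ n + U * V * U ^ n + U ^ n) * huv
    linear_combination (uu R (n + 1) * PiN u (n + 1) * uu R (n + k + 1) * PiN u (n + k + 1) *
      Z * Zk * (U ^ k - 1) * uu R k * WW φ d k) * e

theorem RHS_eq (u : Rˣ) (φ : ℤ → R) (d : ℕ) :
    PowerSeries.C (u : R) * RHS5 u φ d = (PowerSeries.C (u : R) - 1) ^ 2 * RHS6 u φ d := by
  have h1 : (PowerSeries.C (u : R) - 1) ^ 2 = PowerSeries.C (((u : R) - 1) ^ 2) := by simp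
  have h2 : RHS5 u φ d = psum fun k => psum fun n => T5 u φ d k n := rfl
  rw [h1, h2, RHS6_eq, ← psum_C_mul, ← psum_C_mul]
  apply psum_congr
  intro k
  rw [← psum_C_mul, ← psum_C_mul]
  apply psum_congr
  intro n
  exact term u φ d k n

end F6

theorem F6 (h : S_F5) : S_F6 := by
  intro R _ _ u hu φ d
  have h1 := h R u φ d
  have h2 : PowerSeries.C (u : R) * gen (fun _ => (1 : R)) ^ 2 * RHS5 u φ d =
      (PowerSeries.C (u : R) - 1) ^ 2 * (gen (fun _ => (1 : R)) ^ 2 * RHS6 u φ d) := by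
    rw [mul_right_comm, F6.RHS_eq]
    ring
  rw [h2] at h1
  have hne : (PowerSeries.C (u : R) - 1) ^ 2 ≠ 0 := by
    apply pow_ne_zero
    rw [sub_ne_zero]
    intro h
    apply hu
    have h3 := congrArg PowerSeries.constantCoeff h
    simpa using h3
  exact mul_left_cancel₀ hne h1

end Pool.Agent.H946.Z
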