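import Pool.Agent.H946.Z.Basic
set_option autoImplicit false

/-!
# MP_d9449f_ag : decomposition of `F0` into diagonal slices (`S_F8a`)
-/

namespace Pool.Agent.H946.Z

open PowerSeries

namespace F8a

/-- the transposition `(i,j,l) ↦ (j,i,l)` -/
def sw : Box ≃ Box where
  toFun b := (b.2.1, b.1, b.2.2)
  invFun b := (b.2.1, b.1, b.2.2)
  left_inv _ := rfl
  right_inv _ := rfl

/-- the transposed plane partition -/
def tau (π : Finset Box) : Finset Box := π.map sw.toEmbedding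

lemma mem_tau (π : Finset Box) (b : Box) : b ∈ tau π ↔ sw b ∈ π := by
  unfold tau
  rw [Finset.mem_map_equiv]
  rfl

lemma tau_tau (π : Finset Box) : tau (tau π) = π := by
  ext b
  rw [mem_tau, mem_tau]
  rfl

lemma tau_PP {n : ℕ} {π : Finset Box} (h : π ∈ PP n) : tau π ∈ PP n := by
  rw [mem_PP] at h ⊢
  refine ⟨?_, ?_⟩
  · intro a b hab ha
    have ha' : a ∈ tau π := ha
    have : b ∈ tau π := by
      rw [mem_tau] at ha' ⊢
      exact h.1 (show sw b ≤ sw a from ⟨hab.2.1, hab.1, hab.2.2⟩) ha'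
    exact this
  · unfold tau
    rw [Finset.card_map, h.2]

lemma sum_tau (F : Box → ℚ) (π : Finset Box) : ∑ b ∈ tau π, F b = ∑ b ∈ π, F (sw b) := by
  unfold tau
  rw [Finset.sum_map]
  rfl

lemma gen_tau (f : Finset Box → ℚ) : gen (fun π => f (tau π)) = gen f := by
  ext n
  rw [coeff_gen, coeff_gen]
  refine Finset.sum_nbij' tau tau (fun π h => tau_PP h) (fun π h => tau_PP h)
    (fun π _ => tau_tau π) (fun π _ => tau_tau π) (fun π _ => rfl)

lemma EE_tau (f : Finset Box → ℚ) : EE (fun π => f (tau π)) = EE f := by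
  unfold EE
  rw [gen_tau]

lemma EE_add (f g : Finset Box → ℚ) : EE (fun π => f π + g π) = EE f + EE g := by
  unfold EE
  rw [gen_add, add_mul]

lemma EE_smul (c : ℚ) (f : Finset Box → ℚ) : EE (fun π => c * f π) = c • EE f := by
  unfold EE
  rw [gen_smul, smul_mul_assoc]

lemma EE_zero : EE (fun _ => 0) = 0 := by
  unfold EE
  have : gen (fun _ : Finset Box => (0 : ℚ)) = 0 := by
    ext n; rw [coeff_gen]; simp
  rw [this, zero_mul]

lemma cov_add (f g h : Finset Box → ℚ) :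
    cov f (fun π => g π + h π) = cov f g + cov f h := by
  unfold cov
  have : (fun π => f π * (g π + h π)) = fun π => (f π * g π) + (f π * h π) := by
    funext π; ring
  rw [this, EE_add, EE_add]
  ring

lemma cov_smul (c : ℚ) (f g : Finset Box → ℚ) :
    cov f (fun π => c * g π) = c • cov f g := by
  unfold cov
  have : (fun π => f π * (c * g π)) = fun π => c * (f π * g π) := by
    funext π; ring
  rw [this, EE_smul, EE_smul, mul_smul_comm, smul_sub]

lemma cov_zero (f : Finset Box → ℚ) : cov f (fun _ => 0) = 0 := by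
  unfold cov
  simp only [mul_zero, EE_zero, sub_zero]

lemma cov_sum (f : Finset Box → ℚ) (s : Finset ℕ) (g : ℕ → Finset Box → ℚ) :
    cov f (fun π => ∑ D ∈ s, g D π) = ∑ D ∈ s, cov f (g D) := by
  classical
  induction s using Finset.induction_on with
  | empty => simp only [Finset.sum_empty]; exact cov_zero f
  | insert a s ha ih =>
    simp only [Finset.sum_insert ha]
    rw [cov_add f (g a) (fun π => ∑ D ∈ s, g D π), ih]

lemma cov_tau (f g : Finset Box → ℚ) (hf : ∀ π, f (tau π) = f π) :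
    cov f (fun π => g (tau π)) = cov f g := by
  unfold cov
  have : (fun π => f π * g (tau π)) = fun π => (fun ρ => f ρ * g ρ) (tau π) := by
    funext π
    show f π * g (tau π) = f (tau π) * g (tau π)
    rw [hf]
  rw [this, EE_tau (fun ρ => f ρ * g ρ), EE_tau g]

lemma EE_congr (n : ℕ) (f g : Finset Box → ℚ) (h : ∀ m ≤ n, ∀ π ∈ PP m, f π = g π) :
    (X : ℚ⟦X⟧) ^ (n + 1) ∣ EE f - EE g := by
  unfold EE
  rw [← sub_mul]
  apply Dvd.dvd.mul_right
  apply X_pow_dvd_of_coeff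
  intro m hm
  rw [map_sub, coeff_gen, coeff_gen, sub_eq_zero]
  exact Finset.sum_congr rfl fun π hπ => h m (by omega) π hπ

lemma cov_congr (n : ℕ) (f g g' : Finset Box → ℚ) (h : ∀ m ≤ n, ∀ π ∈ PP m, g π = g' π) :
    coeff n (cov f g) = coeff n (cov f g') := by
  have h1 : (X : ℚ⟦X⟧) ^ (n + 1) ∣ cov f g - cov f g' := by
    unfold cov
    have e : EE (fun π => f π * g π) - EE f * EE g - (EE (fun π => f π * g' π) - EE f * EE g') =
        (EE (fun π => f π * g π) - EE (fun π => f π * g' π)) - EE f * (EE g - EE g') := by ring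
    rw [e]
    apply dvd_sub
    · exact EE_congr n _ _ fun m hm π hπ => by rw [h m hm π hπ]
    · exact Dvd.dvd.mul_left (EE_congr n g g' h) _
  have h2 := (PowerSeries.X_pow_dvd_iff.1 h1) n (by omega)
  rwa [map_sub, sub_eq_zero] at h2

/-- sum over a slice -/
def sl (F : Box → ℚ) (D : ℕ) (π : Finset Box) : ℚ := ∑ b ∈ slice D π, F b

lemma slice_neg (F : Box → ℚ) (hF : ∀ b, F (sw b) = F b) (D : ℕ) (π : Finset Box) :
    ∑ b ∈ slice (-(D : ℤ)) π, F b = sl F D (tau π) := by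
  unfold sl
  have : slice (D : ℤ) (tau π) = (slice (-(D : ℤ)) π).map sw.toEmbedding := by
    ext b
    rw [Finset.mem_map_equiv]
    unfold slice
    rw [Finset.mem_filter, Finset.mem_filter, mem_tau]
    show sw b ∈ π ∧ _ ↔ sw b ∈ π ∧ ((b.2.1 : ℤ) - (b.1 : ℤ) = -(D : ℤ))
    constructor
    · rintro ⟨h1, h2⟩; exact ⟨h1, by omega⟩
    · rintro ⟨h1, h2⟩; exact ⟨h1, by omega⟩
  rw [this, Finset.sum_map]
  exact Finset.sum_congr rfl fun b _ => (hF b).symm

lemma sum_slices (F : Box → ℚ) (hF : ∀ b, F (sw b) = F b) (n m : ℕ) (hm : m ≤ n)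
    (π : Finset Box) (hπ : π ∈ PP m) :
    ∑ b ∈ π, F b = ∑ D ∈ Finset.range (n + 1), sl F D π +
      ∑ D ∈ Finset.range (n + 1), if D = 0 then 0 else sl F D (tau π) := by
  have h1 : ∀ b ∈ π, b.1 < m ∧ b.2.1 < m := fun b hb =>
    ⟨(PP_lt hπ (i := b.1) (j := b.2.1) (l := b.2.2) hb).1, (PP_lt hπ hb).2.1⟩
  have hp : ∑ D ∈ Finset.range (n + 1), sl F D π =
      ∑ b ∈ π.filter (fun b => b.2.1 ≤ b.1), F b := by
    unfold sl slice
    rw [← Finset.sum_fiberwise_of_maps_to (s := π.filter (fun b => b.2.1 ≤ b.1))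
      (t := Finset.range (n + 1)) (g := fun b => b.1 - b.2.1)]
    · refine Finset.sum_congr rfl fun D _ => ?_
      refine Finset.sum_congr ?_ fun _ _ => rfl
      ext b
      simp only [Finset.mem_filter]
      constructor
      · rintro ⟨h, h'⟩; exact ⟨⟨h, by omega⟩, by omega⟩
      · rintro ⟨⟨h, h'⟩, h''⟩; exact ⟨h, by omega⟩
    · intro b hb
      have := h1 b (Finset.mem_filter.1 hb).1
      rw [Finset.mem_range]; omega
  have hn : (∑ D ∈ Finset.range (n + 1), if D = 0 then 0 else sl F D (tau π)) =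
      ∑ b ∈ π.filter (fun b => ¬ b.2.1 ≤ b.1), F b := by
    rw [← Finset.sum_fiberwise_of_maps_to (s := π.filter (fun b => ¬ b.2.1 ≤ b.1))
      (t := Finset.range (n + 1)) (g := fun b => b.2.1 - b.1)]
    · refine Finset.sum_congr rfl fun D _ => ?_
      rw [← slice_neg F hF]
      split_ifs with hD
      · symm
        apply Finset.sum_eq_zero
        intro b hb
        simp only [Finset.mem_filter] at hb
        omega
      · unfold slice
        refine Finset.sum_congr ?_ fun _ _ => rfl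
        ext b
        simp only [Finset.mem_filter]
        constructor
        · rintro ⟨h, h'⟩; exact ⟨⟨h, by omega⟩, by omega⟩
        · rintro ⟨⟨h, h'⟩, h''⟩; exact ⟨h, by omega⟩
    · intro b hb
      have := h1 b (Finset.mem_filter.1 hb).1
      rw [Finset.mem_range]; omega
  rw [hp, hn, Finset.sum_filter_add_sum_filter_not]

/-- the slice decomposition of a covariance -/
lemma cov_slices (f : Finset Box → ℚ) (hf : ∀ π, f (tau π) = f π) (F : Box → ℚ)
    (hF : ∀ b, F (sw b) = F b) :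
    cov f (fun π => ∑ b ∈ π, F b) =
      cov f (sl F 0) + (2 : ℚ) • psum fun D => if D = 0 then 0 else cov f (sl F D) := by
  ext n
  rw [cov_congr n f _ (fun π => ∑ D ∈ Finset.range (n + 1), sl F D π +
      ∑ D ∈ Finset.range (n + 1), if D = 0 then 0 else sl F D (tau π))
      fun m hm π hπ => sum_slices F hF n m hm π hπ]
  rw [cov_add f (fun π => ∑ D ∈ Finset.range (n + 1), sl F D π)
    (fun π => ∑ D ∈ Finset.range (n + 1), if D = 0 then 0 else sl F D (tau π)),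
    cov_sum f _ (sl F), cov_sum f _ (fun D π => if D = 0 then 0 else sl F D (tau π))]
  have h2 : ∀ D, cov f (fun π => if D = 0 then 0 else sl F D (tau π)) =
      if D = 0 then 0 else cov f (sl F D) := by
    intro D
    split_ifs with hD
    · exact cov_zero f
    · exact cov_tau f (sl F D) hf
  have h3 : ∑ D ∈ Finset.range (n + 1), cov f (sl F D) = cov f (sl F 0) +
      ∑ D ∈ Finset.range (n + 1), if D = 0 then 0 else cov f (sl F D) := by
    rw [Finset.sum_range_succ', Finset.sum_range_succ']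
    simp only [Nat.add_eq_zero_iff, one_ne_zero, and_false, if_false, if_true, add_zero]
    rw [add_comm]
  rw [Finset.sum_congr rfl fun D _ => h2 D, h3]
  rw [map_add, map_add, map_add, LinearMap.map_smul_of_tower]
  unfold psum
  rw [PowerSeries.coeff_mk]
  rw [smul_eq_mul]
  ring

lemma psum_add (f g : ℕ → ℚ⟦X⟧) : psum (fun D => f D + g D) = psum f + psum g := by
  ext n
  unfold psum
  rw [map_add, PowerSeries.coeff_mk, PowerSeries.coeff_mk, PowerSeries.coeff_mk,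
    Finset.sum_add_distrib, map_add]

lemma psum_smul (c : ℚ) (f : ℕ → ℚ⟦X⟧) : psum (fun D => c • f D) = c • psum f := by
  ext n
  unfold psum
  rw [LinearMap.map_smul_of_tower, PowerSeries.coeff_mk, PowerSeries.coeff_mk,
    ← Finset.smul_sum, LinearMap.map_smul_of_tower]

lemma Ar_eq (r : ℕ) : Ar r = Phi (epow r) := by
  funext π
  unfold Ar Phi epow
  refine Finset.sum_congr rfl fun b _ => ?_
  push_cast
  rfl

lemma Ar_tau (r : ℕ) (hr : Even r) (π : Finset Box) : Ar r (tau π) = Ar r π := by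
  unfold Ar
  rw [sum_tau]
  refine Finset.sum_congr rfl fun b _ => ?_
  show ((b.2.1 : ℚ) - b.1) ^ r = _
  rw [← hr.neg_pow]
  congr 1
  ring

end F8a

open F8a in
theorem F8a : S_F8a := by
  unfold S_F8a
  have h24 := cov_slices (Ar 2) (Ar_tau 2 (by decide)) (fun b => ((b.1 : ℚ) - b.2.1) ^ 4)
    (fun b => by
      show ((b.2.1 : ℚ) - b.1) ^ 4 = ((b.1 : ℚ) - b.2.1) ^ 4
      ring)
  have h2A := cov_slices (Ar 2) (Ar_tau 2 (by decide))
    (fun b => ((b.1 : ℚ) - b.2.1) ^ 2 * (2 * (b.2.2 : ℚ) - b.1 - b.2.1) ^ 2)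
    (fun b => by
      show ((b.2.1 : ℚ) - b.1) ^ 2 * (2 * (b.2.2 : ℚ) - b.2.1 - b.1) ^ 2 = _
      ring)
  have h4M := cov_slices (Ar 4) (Ar_tau 4 (by decide))
    (fun b => (2 * (b.2.2 : ℚ) - b.1 - b.2.1) ^ 2)
    (fun b => by
      show (2 * (b.2.2 : ℚ) - b.2.1 - b.1) ^ 2 = _
      ring)
  have hP : ∀ D : ℕ, sl (fun b => ((b.1 : ℚ) - b.2.1) ^ 4) D = fun π => (D : ℚ) ^ 4 * Pr 0 D π := by
    intro D
    funext π
    unfold sl Pr
    rw [Finset.mul_sum]
    refine Finset.sum_congr rfl fun b hb => ?_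
    have h : (b.1 : ℤ) - (b.2.1 : ℤ) = D := (Finset.mem_filter.1 hb).2
    have h' : (b.1 : ℚ) - (b.2.1 : ℚ) = D := by exact_mod_cast h
    beta_reduce
    rw [h', pow_zero, mul_one]
  have hM : ∀ D : ℕ, sl (fun b => (2 * (b.2.2 : ℚ) - b.1 - b.2.1) ^ 2) D =
      fun π => 4 * Pr 2 D π + ((-(4 * (D : ℚ))) * Pr 1 D π + (D : ℚ) ^ 2 * Pr 0 D π) := by
    intro D
    funext π
    unfold sl Pr
    rw [Finset.mul_sum, Finset.mul_sum, Finset.mul_sum, ← Finset.sum_add_distrib,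
      ← Finset.sum_add_distrib]
    refine Finset.sum_congr rfl fun b hb => ?_
    have h : (b.1 : ℤ) - (b.2.1 : ℤ) = D := (Finset.mem_filter.1 hb).2
    have h' : (b.1 : ℚ) - (b.2.1 : ℚ) = D := by exact_mod_cast h
    have h'' : (b.1 : ℚ) = D + b.2.1 := by linarith
    beta_reduce
    rw [h'']
    ring
  have hA : ∀ D : ℕ, sl (fun b => ((b.1 : ℚ) - b.2.1) ^ 2 * (2 * (b.2.2 : ℚ) - b.1 - b.2.1) ^ 2) D =
      fun π => (D : ℚ) ^ 2 *
        (4 * Pr 2 D π + ((-(4 * (D : ℚ))) * Pr 1 D π + (D : ℚ) ^ 2 * Pr 0 D π)) := by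
    intro D
    funext π
    unfold sl Pr
    rw [Finset.mul_sum, Finset.mul_sum, Finset.mul_sum, ← Finset.sum_add_distrib,
      ← Finset.sum_add_distrib, Finset.mul_sum]
    refine Finset.sum_congr rfl fun b hb => ?_
    have h : (b.1 : ℤ) - (b.2.1 : ℤ) = D := (Finset.mem_filter.1 hb).2
    have h' : (b.1 : ℚ) - (b.2.1 : ℚ) = D := by exact_mod_cast h
    have h'' : (b.1 : ℚ) = D + b.2.1 := by linarith
    beta_reduce
    rw [h'']
    ring
  have cM : ∀ (f : Finset Box → ℚ) (D : ℕ),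
      cov f (sl (fun b => (2 * (b.2.2 : ℚ) - b.1 - b.2.1) ^ 2) D) =
      (4 : ℚ) • cov f (Pr 2 D) + ((-(4 * (D : ℚ))) • cov f (Pr 1 D) +
        ((D : ℚ) ^ 2) • cov f (Pr 0 D)) := by
    intro f D
    rw [hM D, cov_add f (fun π => 4 * Pr 2 D π)
      (fun π => (-(4 * (D : ℚ))) * Pr 1 D π + (D : ℚ) ^ 2 * Pr 0 D π),
      cov_add f (fun π => (-(4 * (D : ℚ))) * Pr 1 D π) (fun π => (D : ℚ) ^ 2 * Pr 0 D π),
      cov_smul, cov_smul, cov_smul]
  have cA : ∀ (f : Finset Box → ℚ) (D : ℕ),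
      cov f (sl (fun b => ((b.1 : ℚ) - b.2.1) ^ 2 * (2 * (b.2.2 : ℚ) - b.1 - b.2.1) ^ 2) D) =
      ((D : ℚ) ^ 2) • ((4 : ℚ) • cov f (Pr 2 D) + ((-(4 * (D : ℚ))) • cov f (Pr 1 D) +
        ((D : ℚ) ^ 2) • cov f (Pr 0 D))) := by
    intro f D
    rw [hA D, cov_smul ((D : ℚ) ^ 2) f
      (fun π => 4 * Pr 2 D π + ((-(4 * (D : ℚ))) * Pr 1 D π + (D : ℚ) ^ 2 * Pr 0 D π)),
      cov_add f (fun π => 4 * Pr 2 D π)
      (fun π => (-(4 * (D : ℚ))) * Pr 1 D π + (D : ℚ) ^ 2 * Pr 0 D π),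
      cov_add f (fun π => (-(4 * (D : ℚ))) * Pr 1 D π) (fun π => (D : ℚ) ^ 2 * Pr 0 D π),
      cov_smul, cov_smul, cov_smul]
  have cP : ∀ (f : Finset Box → ℚ) (D : ℕ),
      cov f (sl (fun b => ((b.1 : ℚ) - b.2.1) ^ 4) D) = ((D : ℚ) ^ 4) • cov f (Pr 0 D) := by
    intro f D
    rw [hP D, cov_smul]
  have hT : ∀ D : ℕ, Td D =
      (-3 : ℚ) • cov (Ar 2) (sl (fun b => ((b.1 : ℚ) - b.2.1) ^ 4) D) +
      (6 : ℚ) • cov (Ar 2)
        (sl (fun b => ((b.1 : ℚ) - b.2.1) ^ 2 * (2 * (b.2.2 : ℚ) - b.1 - b.2.1) ^ 2) D) +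
      (-1 : ℚ) • cov (Ar 4) (sl (fun b => (2 * (b.2.2 : ℚ) - b.1 - b.2.1) ^ 2) D) := by
    intro D
    rw [cP, cA, cM]
    unfold Td
    rw [← Ar_eq, ← Ar_eq]
    module
  have hF : F0 = (-3 : ℚ) • cov (Ar 2) (fun π => ∑ b ∈ π, ((b.1 : ℚ) - b.2.1) ^ 4) +
      (6 : ℚ) • cov (Ar 2) (fun π => ∑ b ∈ π,
        ((b.1 : ℚ) - b.2.1) ^ 2 * (2 * (b.2.2 : ℚ) - b.1 - b.2.1) ^ 2) +
      (-1 : ℚ) • cov (Ar 4) (fun π => ∑ b ∈ π, (2 * (b.2.2 : ℚ) - b.1 - b.2.1) ^ 2) := by
    unfold F0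
    rw [neg_one_smul, ← sub_eq_add_neg]
    rfl
  rw [hF, h24, h2A, h4M, hT 0]
  have hps : (psum fun D => if D = 0 then 0 else Td D) =
      (-3 : ℚ) • (psum fun D => if D = 0 then 0 else
        cov (Ar 2) (sl (fun b => ((b.1 : ℚ) - b.2.1) ^ 4) D)) +
      (6 : ℚ) • (psum fun D => if D = 0 then 0 else cov (Ar 2)
        (sl (fun b => ((b.1 : ℚ) - b.2.1) ^ 2 * (2 * (b.2.2 : ℚ) - b.1 - b.2.1) ^ 2) D)) +
      (-1 : ℚ) • (psum fun D => if D = 0 then 0 else
        cov (Ar 4) (sl (fun b => (2 * (b.2.2 : ℚ) - b.1 - b.2.1) ^ 2) D)) := by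
    rw [← psum_smul, ← psum_smul, ← psum_smul, ← psum_add, ← psum_add]
    congr 1
    funext D
    split_ifs with hD
    · simp
    · exact hT D
  rw [hps]
  module

end Pool.Agent.H946.Z
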