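import Pool.Agent.H946.Z.Basic
set_option autoImplicit false

/-!
# MP_d9449f_ag : from the main formulas to the closed form
-/

namespace Pool.Agent.H946.Z

open PowerSeries

noncomputable section

namespace F8b

/-- reduction modulo `X^(N+1)` -/
def qh (N : ℕ) : ℚ⟦X⟧ →+* ℚ⟦X⟧ ⧸ Ideal.span {(X : ℚ⟦X⟧) ^ (N + 1)} := Ideal.Quotient.mk _

theorem qh_eq_zero {N : ℕ} {f : ℚ⟦X⟧} : qh N f = 0 ↔ (X : ℚ⟦X⟧) ^ (N + 1) ∣ f := by
  unfold qh
  rw [Ideal.Quotient.eq_zero_iff_mem, Ideal.mem_span_singleton]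

theorem coeff_eq_of_qh {N : ℕ} {f g : ℚ⟦X⟧} (h : qh N f = qh N g) :
    PowerSeries.coeff N f = PowerSeries.coeff N g := by
  have h1 : qh N (f - g) = 0 := by rw [map_sub, h, sub_self]
  have h2 := (PowerSeries.X_pow_dvd_iff.1 (qh_eq_zero.1 h1)) N (by omega)
  rwa [map_sub, sub_eq_zero] at h2

theorem qh_eq {N : ℕ} {f g : ℚ⟦X⟧}
    (h : ∀ n ≤ N, PowerSeries.coeff n f = PowerSeries.coeff n g) : qh N f = qh N g := by
  rw [← sub_eq_zero, ← map_sub, qh_eq_zero, PowerSeries.X_pow_dvd_iff]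
  intro n hn
  rw [map_sub, h n (by omega), sub_self]

theorem qh_psum {N : ℕ} (f : ℕ → ℚ⟦X⟧) (hf : ∀ k, (X : ℚ⟦X⟧) ^ k ∣ f k) :
    qh N (psum f) = ∑ k ∈ Finset.range (N + 1), qh N (f k) := by
  rw [← map_sum]
  apply qh_eq
  intro n hn
  exact coeff_psum f hf n (N + 1) (by omega)

theorem qh_psum0 {N : ℕ} (f : ℕ → ℚ⟦X⟧) (hf : ∀ k, (X : ℚ⟦X⟧) ^ k ∣ f k) (h0 : f 0 = 0) :
    qh N (psum f) = ∑ k ∈ Finset.Icc 1 N, qh N (f k) := by
  rw [qh_psum f hf]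
  symm
  apply Finset.sum_subset
  · intro k hk
    simp only [Finset.mem_Icc, Finset.mem_range] at hk ⊢
    omega
  · intro k hk1 hk2
    have : k = 0 := by
      simp only [Finset.mem_Icc, Finset.mem_range] at hk1 hk2
      omega
    rw [this, h0, map_zero]

theorem qh_psum_if {N : ℕ} (g : ℕ → ℚ⟦X⟧) (hg : ∀ k, (X : ℚ⟦X⟧) ^ k ∣ g k) :
    qh N (psum fun n => if n = 0 then 0 else g n) = ∑ n ∈ Finset.Icc 1 N, qh N (g n) := by
  rw [qh_psum0]
  · apply Finset.sum_congr rfl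
    intro n hn
    rw [Finset.mem_Icc] at hn
    rw [if_neg (by omega)]
  · intro k
    split_ifs
    · exact dvd_zero _
    · exact hg k
  · exact if_pos rfl

theorem psum_dvd {d : ℕ} (f : ℕ → ℚ⟦X⟧) (hf : ∀ k, (X : ℚ⟦X⟧) ^ d ∣ f k) :
    (X : ℚ⟦X⟧) ^ d ∣ psum f := by
  apply X_pow_dvd_of_coeff
  intro m hm
  unfold psum
  rw [PowerSeries.coeff_mk, map_sum]
  apply Finset.sum_eq_zero
  intro k _
  exact (PowerSeries.X_pow_dvd_iff.1 (hf k)) m hm

theorem Mde_ge (d : ℕ) (e : ℤ) : d ≤ Mde d e ∧ e.natAbs ≤ Mde d e := by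
  unfold Mde
  split_ifs
  · constructor <;> omega
  · constructor <;> omega

theorem coeff_CX (a : ℚ) (m n : ℕ) :
    PowerSeries.coeff n (PowerSeries.C a * (X : ℚ⟦X⟧) ^ m) = if n = m then a else 0 := by
  rw [PowerSeries.coeff_C_mul, PowerSeries.coeff_X_pow]
  split_ifs <;> simp

theorem WW_dvd (φ : ℤ → ℚ) (d k : ℕ) (hk : 1 ≤ k) : (X : ℚ⟦X⟧) ^ d ∣ WW φ d k := by
  apply X_pow_dvd_of_coeff
  intro m hm
  unfold WW
  rw [PowerSeries.coeff_mk]
  apply Finset.sum_eq_zero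
  intro e _
  rw [if_neg]
  intro h
  have h1 := (Mde_ge d e).1
  have h2 : Mde d e ≤ k * Mde d e := Nat.le_mul_of_pos_left _ hk
  omega

theorem qh_WW {N : ℕ} (φ : ℤ → ℚ) (d k : ℕ) (hk : 1 ≤ k) :
    qh N (WW φ d k) =
      ∑ e ∈ Finset.Icc (-(N : ℤ)) N, qh N (PowerSeries.C (φ e) * X ^ (k * Mde d e)) := by
  rw [← map_sum]
  apply qh_eq
  intro n hn
  unfold WW
  rw [PowerSeries.coeff_mk, map_sum]
  have h1 : ∀ e ∈ Finset.Icc (-(N : ℤ)) N,
      PowerSeries.coeff n (PowerSeries.C (φ e) * (X : ℚ⟦X⟧) ^ (k * Mde d e)) =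
      if k * Mde d e = n then φ e else 0 := by
    intro e _
    rw [coeff_CX]
    by_cases h : k * Mde d e = n
    · rw [if_pos h, if_pos h.symm]
    · rw [if_neg h, if_neg (fun h' => h h'.symm)]
  rw [Finset.sum_congr rfl h1]
  apply Finset.sum_subset
  · intro e he
    rw [Finset.mem_Icc] at he ⊢
    omega
  · intro e _ he
    rw [if_neg]
    intro h
    have h2 := (Mde_ge d e).2
    have h3 : Mde d e ≤ k * Mde d e := Nat.le_mul_of_pos_left _ hk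
    apply he
    rw [Finset.mem_Icc]
    omega

theorem qh_RR {N : ℕ} (p : ℚ → ℚ → ℚ) (k m : ℕ) (hk : 1 ≤ k) :
    qh N (RR p k m) =
      ∑ d ∈ Finset.Icc (-(N : ℤ)) N, ∑ e ∈ Finset.Icc (-(N : ℤ)) N,
        qh N (PowerSeries.C (p (d.natAbs : ℚ) (e : ℚ)) *
          X ^ ((m - k) * d.natAbs + k * Mde d.natAbs e)) := by
  simp only [← map_sum]
  apply qh_eq
  intro n hn
  unfold RR
  rw [PowerSeries.coeff_mk, map_sum]
  have hb : ∀ d e : ℤ, (m - k) * d.natAbs + k * Mde d.natAbs e = n →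
      d ∈ Finset.Icc (-(n : ℤ)) n ∧ e ∈ Finset.Icc (-(n : ℤ)) n := by
    intro d e h
    have h2 := Mde_ge d.natAbs e
    have h3 : Mde d.natAbs e ≤ k * Mde d.natAbs e := Nat.le_mul_of_pos_left _ hk
    rw [Finset.mem_Icc, Finset.mem_Icc]
    omega
  have h1 : ∀ d e : ℤ,
      PowerSeries.coeff n (PowerSeries.C (p (d.natAbs : ℚ) (e : ℚ)) *
        (X : ℚ⟦X⟧) ^ ((m - k) * d.natAbs + k * Mde d.natAbs e)) =
      if (m - k) * d.natAbs + k * Mde d.natAbs e = n then p (d.natAbs : ℚ) (e : ℚ) else 0 := by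
    intro d e
    rw [coeff_CX]
    by_cases h : (m - k) * d.natAbs + k * Mde d.natAbs e = n
    · rw [if_pos h, if_pos h.symm]
    · rw [if_neg h, if_neg (fun h' => h h'.symm)]
  simp only [map_sum, h1]
  have hsub : Finset.Icc (-(n : ℤ)) n ⊆ Finset.Icc (-(N : ℤ)) N := by
    intro e he
    rw [Finset.mem_Icc] at he ⊢
    omega
  have h4 : ∀ d ∈ Finset.Icc (-(n : ℤ)) n,
      ∑ e ∈ Finset.Icc (-(n : ℤ)) n,
        (if (m - k) * d.natAbs + k * Mde d.natAbs e = n then p (d.natAbs : ℚ) (e : ℚ) else 0) =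
      ∑ e ∈ Finset.Icc (-(N : ℤ)) N,
        (if (m - k) * d.natAbs + k * Mde d.natAbs e = n then p (d.natAbs : ℚ) (e : ℚ) else 0) := by
    intro d _
    apply Finset.sum_subset hsub
    intro e _ he
    rw [if_neg]
    intro h
    exact he (hb d e h).2
  rw [Finset.sum_congr rfl h4]
  apply Finset.sum_subset hsub
  intro d _ hd
  apply Finset.sum_eq_zero
  intro e _
  rw [if_neg]
  intro h
  exact hd (hb d e h).1

/-- sums of even functions over a symmetric interval -/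
theorem sum_natAbs {S : Type*} [CommRing S] (f : ℕ → S) (N : ℕ) :
    ∑ d ∈ Finset.Icc (-(N : ℤ)) N, f d.natAbs = f 0 + 2 * ∑ d ∈ Finset.Icc 1 N, f d := by
  induction N with
  | zero => simp
  | succ N ih =>
    have h1 : Finset.Icc (-((N + 1 : ℕ) : ℤ)) ((N + 1 : ℕ) : ℤ) =
        insert (-((N + 1 : ℕ) : ℤ)) (insert ((N + 1 : ℕ) : ℤ) (Finset.Icc (-(N : ℤ)) N)) := by
      ext x
      simp only [Finset.mem_Icc, Finset.mem_insert]
      push_cast
      omega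
    rw [h1, Finset.sum_insert, Finset.sum_insert, ih, Finset.sum_Icc_succ_top (by omega)]
    · rw [Int.natAbs_neg, Int.natAbs_natCast]
      ring
    · simp only [Finset.mem_Icc]
      push_cast
      omega
    · simp only [Finset.mem_insert, Finset.mem_Icc]
      push_cast
      omega

/-- the image of a constant -/
def gm (N : ℕ) : ℚ →+* ℚ⟦X⟧ ⧸ Ideal.span {(X : ℚ⟦X⟧) ^ (N + 1)} :=
  (qh N).comp (PowerSeries.C (R := ℚ))

theorem qh_smul {N : ℕ} (c : ℚ) (f : ℚ⟦X⟧) : qh N (c • f) = gm N c * qh N f := by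
  rw [PowerSeries.smul_eq_C_mul, map_mul]
  rfl

theorem qh_C {N : ℕ} (c : ℚ) : qh N (PowerSeries.C c) = gm N c := rfl

/-- the sum over `d` and `e` -/
theorem key {N : ℕ} (a b : ℚ → ℚ) (k n : ℕ) (hk : 1 ≤ k) :
    ∑ d ∈ Finset.Icc (-(N : ℤ)) N, qh N X ^ (n * d.natAbs) *
      (gm N (a d.natAbs) * qh N (WW (epow 2) d.natAbs k) +
        gm N (b d.natAbs) * qh N (WW (epow 4) d.natAbs k)) =
      qh N (RR (fun D e => a D * e ^ 2 + b D * e ^ 4) k (n + k)) := by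
  rw [qh_RR _ k (n + k) hk]
  apply Finset.sum_congr rfl
  intro d _
  rw [qh_WW _ _ _ hk, qh_WW _ _ _ hk, Finset.mul_sum, Finset.mul_sum, ← Finset.sum_add_distrib,
    Finset.mul_sum]
  apply Finset.sum_congr rfl
  intro e _
  rw [← qh_C, ← qh_C, ← map_mul, ← map_mul, ← map_add, ← map_pow, ← map_mul]
  congr 1
  rw [Nat.add_sub_cancel, pow_add]
  unfold epow
  rw [map_add, map_mul, map_mul]
  ring

section main

variable (N : ℕ)

/-- the image of `uu k` -/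
def U (k : ℕ) := qh N (uu ℚ k)

/-- the image of `WW (epow r) D k` -/
def W (r D k : ℕ) := qh N (WW (epow r) D k)

def w2 (D k : ℕ) := 24 * (D : ℚ⟦X⟧ ⧸ Ideal.span {(X : ℚ⟦X⟧) ^ (N + 1)}) ^ 2 * W N 2 D k -
  4 * W N 4 D k

def w1 (D k : ℕ) := 24 * (D : ℚ⟦X⟧ ⧸ Ideal.span {(X : ℚ⟦X⟧) ^ (N + 1)}) ^ 3 * W N 2 D k -
  4 * D * W N 4 D k

def w0 (D k : ℕ) := 3 * (D : ℚ⟦X⟧ ⧸ Ideal.span {(X : ℚ⟦X⟧) ^ (N + 1)}) ^ 4 * W N 2 D k -
  (D : ℚ⟦X⟧ ⧸ Ideal.span {(X : ℚ⟦X⟧) ^ (N + 1)}) ^ 2 * W N 4 D k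

theorem sum_w2 (hR : S_RR) (k n : ℕ) (hk : 1 ≤ k) :
    ∑ d ∈ Finset.Icc (-(N : ℤ)) N, qh N X ^ (n * d.natAbs) * w2 N d.natAbs k =
      4 * qh N (R0 k (n + k)) := by
  have h := key (N := N) (fun D => 6 * D ^ 2) (fun _ => -1) k n hk
  have h2 : (fun D e : ℚ => 6 * D ^ 2 * e ^ 2 + (-1) * e ^ 4) =
      fun D e => 6 * D ^ 2 * e ^ 2 - e ^ 4 := by
    funext D e
    ring
  rw [h2, (hR k (n + k) hk (by omega)).1] at h
  rw [← h, Finset.mul_sum]
  apply Finset.sum_congr rfl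
  intro d _
  unfold w2 W
  simp only [map_mul, map_pow, map_ofNat, map_natCast, map_neg, map_one]
  ring

theorem sum_w1 (hR : S_RR) (k n : ℕ) (hk : 1 ≤ k) :
    ∑ d ∈ Finset.Icc (-(N : ℤ)) N, qh N X ^ (n * d.natAbs) * w1 N d.natAbs k =
      4 * qh N (R1 k (n + k)) := by
  have h := key (N := N) (fun D => 6 * D ^ 3) (fun D => -D) k n hk
  have h2 : (fun D e : ℚ => 6 * D ^ 3 * e ^ 2 + (-D) * e ^ 4) =
      fun D e => D * (6 * D ^ 2 * e ^ 2 - e ^ 4) := by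
    funext D e
    ring
  rw [h2, (hR k (n + k) hk (by omega)).2.1] at h
  rw [← h, Finset.mul_sum]
  apply Finset.sum_congr rfl
  intro d _
  unfold w1 W
  simp only [map_mul, map_pow, map_ofNat, map_natCast, map_neg, map_one]
  ring

theorem sum_w0 (hR : S_RR) (k : ℕ) (hk : 1 ≤ k) :
    ∑ d ∈ Finset.Icc (-(N : ℤ)) N, w0 N d.natAbs k = qh N (R2 k) := by
  have h := key (N := N) (fun D => 3 * D ^ 4) (fun D => -D ^ 2) k 0 hk
  have h2 : (fun D e : ℚ => 3 * D ^ 4 * e ^ 2 + (-D ^ 2) * e ^ 4) =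
      fun D e => D ^ 2 * (3 * D ^ 2 * e ^ 2 - e ^ 4) := by
    funext D e
    ring
  rw [h2, zero_add, (hR k k hk le_rfl).2.2] at h
  rw [← h]
  apply Finset.sum_congr rfl
  intro d _
  unfold w0 W
  simp only [map_mul, map_pow, map_ofNat, map_natCast, map_neg, map_one, zero_mul, pow_zero]
  ring

/-- the sum over `n` in the first moment -/
def S1 (D k : ℕ) := ∑ n ∈ Finset.Icc 1 N, U N n * U N (n + k) * qh N X ^ (n * (D + 1))

/-- the sum over `n` in the second moment -/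
def S2 (D k : ℕ) := ∑ n ∈ Finset.Icc 1 N,
  U N n * U N (n + k) * (qh N (HH n) + qh N (HH (n + k))) * qh N X ^ (n * (D + 1))

theorem dvd_smul' {d : ℕ} {f : ℚ⟦X⟧} (c : ℚ) (h : (X : ℚ⟦X⟧) ^ d ∣ f) :
    (X : ℚ⟦X⟧) ^ d ∣ c • f := by
  rw [PowerSeries.smul_eq_C_mul]
  exact h.mul_left _

theorem cov0 (h : S_MF0) (r D : ℕ) : qh N (cov (Phi (epow r)) (Pr 0 D)) =
    ∑ k ∈ Finset.Icc 1 N, (k : ℚ⟦X⟧ ⧸ Ideal.span {(X : ℚ⟦X⟧) ^ (N + 1)}) *
      (qh N X ^ k * U N k ^ 2 * W N r D k) := by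
  rw [h, qh_psum0]
  · apply Finset.sum_congr rfl
    intro k _
    rw [qh_smul]
    simp only [map_mul, map_pow, map_natCast]
    rfl
  · intro k
    exact dvd_smul' _ (((dvd_refl _).mul_right _).mul_right _)
  · simp

theorem cov1 (h : S_MF1) (r D : ℕ) : qh N (cov (Phi (epow r)) (Pr 1 D)) =
    ∑ k ∈ Finset.Icc 1 N, (k : ℚ⟦X⟧ ⧸ Ideal.span {(X : ℚ⟦X⟧) ^ (N + 1)}) *
      (qh N X ^ k * U N k * W N r D k * (U N k * qh N (HH k) + S1 N D k)) := by
  rw [h, qh_psum0]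
  · apply Finset.sum_congr rfl
    intro k _
    rw [qh_smul]
    rw [map_mul (qh N), map_add (qh N), qh_psum_if]
    · simp only [map_mul, map_pow, map_natCast]
      rfl
    · intro n
      exact (pow_dvd_pow X (Nat.le_mul_of_pos_right n (by omega))).mul_left _
  · intro k
    exact dvd_smul' _ ((((dvd_refl _).mul_right _).mul_right _).mul_right _)
  · simp

theorem cov2 (h : S_MF2) (r D : ℕ) : qh N (cov (Phi (epow r)) (Pr 2 D)) =
    ∑ k ∈ Finset.Icc 1 N, (k : ℚ⟦X⟧ ⧸ Ideal.span {(X : ℚ⟦X⟧) ^ (N + 1)}) *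
      (qh N X ^ k * U N k * W N r D k *
        (U N k * (gm N (((k : ℚ) - 1) * ((k : ℚ) + 4) / 12) + 2 * qh N (EE2 k)) +
          2 * S2 N D k)) := by
  rw [h, qh_psum0]
  · apply Finset.sum_congr rfl
    intro k _
    rw [qh_smul, map_mul (qh N), map_add (qh N), qh_smul, qh_psum_if]
    · simp only [map_mul, map_pow, map_natCast, map_add, qh_C, qh_smul, map_ofNat]
      rfl
    · intro n
      exact (pow_dvd_pow X (Nat.le_mul_of_pos_right n (by omega))).mul_left _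
  · intro k
    exact dvd_smul' _ ((((dvd_refl _).mul_right _).mul_right _).mul_right _)
  · simp

theorem qh_Td (h0 : S_MF0) (h1 : S_MF1) (h2 : S_MF2) (D : ℕ) : qh N (Td D) =
    ∑ k ∈ Finset.Icc 1 N, (k : ℚ⟦X⟧ ⧸ Ideal.span {(X : ℚ⟦X⟧) ^ (N + 1)}) *
      (qh N X ^ k * U N k * (U N k *
        ((gm N (((k : ℚ) - 1) * ((k : ℚ) + 4) / 12) + 2 * qh N (EE2 k)) * w2 N D k -
          qh N (HH k) * w1 N D k + w0 N D k) + 2 * (S2 N D k * w2 N D k) -
          S1 N D k * w1 N D k)) := by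
  unfold Td
  simp only [map_sub, map_add, qh_smul]
  rw [cov0 N h0, cov0 N h0, cov1 N h1, cov1 N h1, cov2 N h2, cov2 N h2]
  simp only [Finset.mul_sum]
  rw [← Finset.sum_sub_distrib, ← Finset.sum_sub_distrib, ← Finset.sum_add_distrib,
    ← Finset.sum_add_distrib, ← Finset.sum_sub_distrib]
  apply Finset.sum_congr rfl
  intro k _
  unfold w2 w1 w0
  simp only [map_mul, map_pow, map_ofNat, map_natCast]
  ring

theorem Td_dvd (h0 : S_MF0) (h1 : S_MF1) (h2 : S_MF2) (D : ℕ) : (X : ℚ⟦X⟧) ^ D ∣ Td D := by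
  have c0 : ∀ r, (X : ℚ⟦X⟧) ^ D ∣ cov (Phi (epow r)) (Pr 0 D) := by
    intro r
    rw [h0]
    apply psum_dvd
    intro k
    rcases Nat.eq_zero_or_pos k with rfl | hk
    · simp
    · exact dvd_smul' _ ((WW_dvd _ _ _ hk).mul_left _)
  have c1 : ∀ r, (X : ℚ⟦X⟧) ^ D ∣ cov (Phi (epow r)) (Pr 1 D) := by
    intro r
    rw [h1]
    apply psum_dvd
    intro k
    rcases Nat.eq_zero_or_pos k with rfl | hk
    · simp
    · exact dvd_smul' _ (((WW_dvd _ _ _ hk).mul_left _).mul_right _)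
  have c2 : ∀ r, (X : ℚ⟦X⟧) ^ D ∣ cov (Phi (epow r)) (Pr 2 D) := by
    intro r
    rw [h2]
    apply psum_dvd
    intro k
    rcases Nat.eq_zero_or_pos k with rfl | hk
    · simp
    · exact dvd_smul' _ (((WW_dvd _ _ _ hk).mul_left _).mul_right _)
  unfold Td
  exact ((((((dvd_smul' _ (c2 2)).sub (dvd_smul' _ (c2 4))).sub (dvd_smul' _ (c1 2))).add
    (dvd_smul' _ (c1 4))).add (dvd_smul' _ (c0 2))).sub (dvd_smul' _ (c0 4)))

theorem sum_S1 (hR : S_RR) (k : ℕ) (hk : 1 ≤ k) :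
    ∑ d ∈ Finset.Icc (-(N : ℤ)) N, S1 N d.natAbs k * w1 N d.natAbs k =
      ∑ n ∈ Finset.Icc 1 N, U N n * U N (n + k) * qh N X ^ n * (4 * qh N (R1 k (n + k))) := by
  unfold S1
  simp only [Finset.sum_mul]
  rw [Finset.sum_comm]
  apply Finset.sum_congr rfl
  intro n _
  rw [← sum_w1 N hR k n hk, Finset.mul_sum]
  apply Finset.sum_congr rfl
  intro d _
  ring

theorem sum_S2 (hR : S_RR) (k : ℕ) (hk : 1 ≤ k) :
    ∑ d ∈ Finset.Icc (-(N : ℤ)) N, S2 N d.natAbs k * w2 N d.natAbs k =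
      ∑ n ∈ Finset.Icc 1 N, U N n * U N (n + k) * (qh N (HH n) + qh N (HH (n + k))) *
        qh N X ^ n * (4 * qh N (R0 k (n + k))) := by
  unfold S2
  simp only [Finset.sum_mul]
  rw [Finset.sum_comm]
  apply Finset.sum_congr rfl
  intro n _
  rw [← sum_w2 N hR k n hk, Finset.mul_sum]
  apply Finset.sum_congr rfl
  intro d _
  ring

theorem sum_w2' (hR : S_RR) (k : ℕ) (hk : 1 ≤ k) :
    ∑ d ∈ Finset.Icc (-(N : ℤ)) N, w2 N d.natAbs k = 4 * qh N (R0 k k) := by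
  have h := sum_w2 N hR k 0 hk
  simp only [zero_mul, pow_zero, one_mul, zero_add] at h
  exact h

theorem sum_w1' (hR : S_RR) (k : ℕ) (hk : 1 ≤ k) :
    ∑ d ∈ Finset.Icc (-(N : ℤ)) N, w1 N d.natAbs k = 4 * qh N (R1 k k) := by
  have h := sum_w1 N hR k 0 hk
  simp only [zero_mul, pow_zero, one_mul, zero_add] at h
  exact h

theorem qh_total (h0 : S_MF0) (h1 : S_MF1) (h2 : S_MF2) (hR : S_RR) :
    qh N (Td 0 + (2 : ℚ) • psum (fun d => if d = 0 then 0 else Td d)) =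
      ∑ k ∈ Finset.Icc 1 N, (k : ℚ⟦X⟧ ⧸ Ideal.span {(X : ℚ⟦X⟧) ^ (N + 1)}) *
      (qh N X ^ k * U N k * (U N k *
        ((gm N (((k : ℚ) - 1) * ((k : ℚ) + 4) / 12) + 2 * qh N (EE2 k)) * (4 * qh N (R0 k k)) -
          qh N (HH k) * (4 * qh N (R1 k k)) + qh N (R2 k)) +
        2 * (∑ n ∈ Finset.Icc 1 N, U N n * U N (n + k) * (qh N (HH n) + qh N (HH (n + k))) *
          qh N X ^ n * (4 * qh N (R0 k (n + k)))) -
        ∑ n ∈ Finset.Icc 1 N, U N n * U N (n + k) * qh N X ^ n *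
          (4 * qh N (R1 k (n + k))))) := by
  rw [map_add, qh_smul, qh_psum_if _ (Td_dvd h0 h1 h2), map_ofNat]
  rw [← sum_natAbs (fun d => qh N (Td d)) N]
  simp only [qh_Td N h0 h1 h2]
  rw [Finset.sum_comm]
  apply Finset.sum_congr rfl
  intro k hk
  rw [Finset.mem_Icc] at hk
  rw [← Finset.mul_sum, ← Finset.mul_sum, Finset.sum_sub_distrib, Finset.sum_add_distrib,
    ← Finset.mul_sum, Finset.sum_add_distrib, Finset.sum_sub_distrib, ← Finset.mul_sum,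
    ← Finset.mul_sum, ← Finset.mul_sum, sum_w2' N hR k hk.1, sum_w1' N hR k hk.1,
    sum_w0 N hR k hk.1, sum_S1 N hR k hk.1, sum_S2 N hR k hk.1]

end main

end F8b

open F8b in
/-- closed form from the main formulas. -/
theorem F8b : S_F8b := by
  intro h0 h1 h2 hR
  ext N
  unfold F0cl
  rw [PowerSeries.coeff_mk]
  apply coeff_eq_of_qh
  rw [qh_total N h0 h1 h2 hR, map_add, map_sum, map_sum, ← Finset.sum_add_distrib]
  apply Finset.sum_congr rfl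
  intro k _
  rw [map_sum]
  have hA : qh N (FA k) = (k : ℚ⟦X⟧ ⧸ Ideal.span {(X : ℚ⟦X⟧) ^ (N + 1)}) *
      (qh N X ^ k * U N k * (U N k *
        ((gm N (((k : ℚ) - 1) * ((k : ℚ) + 4) / 12) + 2 * qh N (EE2 k)) * (4 * qh N (R0 k k)) -
          qh N (HH k) * (4 * qh N (R1 k k)) + qh N (R2 k)))) := by
    unfold FA
    have e : ((k : ℚ) - 1) * ((k : ℚ) + 4) / 3 = 4 * (((k : ℚ) - 1) * ((k : ℚ) + 4) / 12) := by
      ring
    simp only [qh_smul, map_mul (qh N), map_add (qh N), map_sub (qh N), map_pow (qh N)]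
    rw [e, map_mul (gm N) 4, map_ofNat, map_ofNat, map_natCast]
    unfold U
    ring
  have hB : ∀ n ∈ Finset.Icc 1 N, qh N (FB k n) =
      (k : ℚ⟦X⟧ ⧸ Ideal.span {(X : ℚ⟦X⟧) ^ (N + 1)}) * (qh N X ^ k * U N k *
        (2 * (U N n * U N (n + k) * (qh N (HH n) + qh N (HH (n + k))) *
          qh N X ^ n * (4 * qh N (R0 k (n + k)))) -
        U N n * U N (n + k) * qh N X ^ n * (4 * qh N (R1 k (n + k))))) := by
    intro n _
    unfold FB
    simp only [qh_smul, map_mul (qh N), map_add (qh N), map_sub (qh N), map_pow (qh N)]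
    rw [map_ofNat, map_ofNat, map_natCast]
    unfold U
    ring
  rw [hA, Finset.sum_congr rfl hB, ← Finset.mul_sum, ← Finset.mul_sum, Finset.sum_sub_distrib,
    ← Finset.mul_sum]
  ring

end

end Pool.Agent.H946.Z
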