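import Pool.Agent.H946.Z.Basic

set_option autoImplicit false

namespace Pool.Agent.H946.Z

open MvPolynomial

namespace Flow

theorem hasDerivAt_flow (v : ℕ × ℕ → ℂ) (i : ℕ × ℕ) (t : ℂ) :
    HasDerivAt (fun t => flow t v i) (if i.2 = 0 then 0 else flow t v (i.1, i.2 - 1)) t := by
  obtain ⟨a, l⟩ := i
  cases l with
  | zero =>
    simp only [if_true]
    have : (fun t => flow t v (a, 0)) = fun _ => v (a, 0) := by
      funext t; simp [flow]
    rw [this]
    exact hasDerivAt_const t _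
  | succ l =>
    rw [if_neg (by simp)]
    have h1 : (fun t : ℂ => flow t v (a, l + 1)) = fun t : ℂ =>
        (∑ k ∈ Finset.range (l + 1), t ^ (k + 1) / ((k + 1).factorial : ℂ) * v (a, l - k))
          + v (a, l + 1) := by
      funext t
      unfold flow
      rw [Finset.sum_range_succ']
      simp
    rw [h1]
    have h2 : flow t v (a, l + 1 - 1) =
        ∑ k ∈ Finset.range (l + 1), t ^ k / (k.factorial : ℂ) * v (a, l - k) := by
      unfold flow; simp
    rw [h2]
    apply HasDerivAt.add_const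
    apply HasDerivAt.fun_sum
    intro k _
    have h3 : HasDerivAt (fun t : ℂ => t ^ (k + 1)) (((k + 1 : ℕ) : ℂ) * t ^ k) t := by
      simpa using hasDerivAt_pow (k + 1) t
    have h4 := (h3.div_const ((k + 1).factorial : ℂ)).mul_const (v (a, l - k))
    refine h4.congr_deriv ?_
    have h5 : ((k + 1 : ℕ) : ℂ) ≠ 0 := by exact_mod_cast Nat.succ_ne_zero k
    have h6 : ((k.factorial : ℕ) : ℂ) ≠ 0 := by exact_mod_cast Nat.factorial_ne_zero k
    rw [Nat.factorial_succ]
    push_cast at h5 ⊢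
    field_simp

theorem hasDerivAt_eval (v : ℕ × ℕ → ℂ) (P : MvPolynomial (ℕ × ℕ) ℂ) (t : ℂ) :
    HasDerivAt (fun t => eval (flow t v) P) (eval (flow t v) (Lder P)) t := by
  induction P using MvPolynomial.induction_on with
  | C a =>
    simp only [eval_C]
    have : Lder (C a) = 0 := derivation_C _ _
    rw [this, map_zero]
    exact hasDerivAt_const t _
  | add p q hp hq =>
    simp only [map_add]
    exact hp.add hq
  | mul_X p i hp =>
    have h1 := hp.mul (hasDerivAt_flow v i t)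
    have h2 : (fun t => eval (flow t v) (p * X i)) =
        (fun t => eval (flow t v) p) * fun t => flow t v i := by
      funext t; simp
    rw [h2]
    refine h1.congr_deriv ?_
    rw [Derivation.leibniz]
    have h3 : Lder (X i) = if i.2 = 0 then 0 else X (i.1, i.2 - 1) := by
      unfold Lder; exact mkDerivation_X _ _ _
    rw [h3]
    split_ifs <;> simp [smul_eq_mul] <;> ring

theorem flow_zero (v : ℕ × ℕ → ℂ) : flow 0 v = v := by
  funext i
  unfold flow
  rw [Finset.sum_eq_single 0]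
  · simp
  · intro k _ hk
    rw [zero_pow hk]; simp
  · intro h; simp at h

/-- directional derivative -/
noncomputable def Ld (v δ : ℕ × ℕ → ℂ) (s : Finset (ℕ × ℕ)) (P : MvPolynomial (ℕ × ℕ) ℂ) : ℂ :=
  ∑ i ∈ s, δ i * eval v (pderiv i P)

theorem Ld_vars (v δ : ℕ × ℕ → ℂ) (s : Finset (ℕ × ℕ)) (P : MvPolynomial (ℕ × ℕ) ℂ)
    (hs : P.vars ⊆ s) : Ld v δ P.vars P = Ld v δ s P := by
  unfold Ld
  apply Finset.sum_subset hs
  intro i _ hi
  rw [pderiv_eq_zero_of_notMem_vars hi]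
  simp

theorem Ld_add (v δ : ℕ × ℕ → ℂ) (s : Finset (ℕ × ℕ)) (p q : MvPolynomial (ℕ × ℕ) ℂ) :
    Ld v δ s (p + q) = Ld v δ s p + Ld v δ s q := by
  unfold Ld
  rw [← Finset.sum_add_distrib]
  apply Finset.sum_congr rfl
  intro i _
  simp [mul_add]

theorem Ld_mul_X (v δ : ℕ × ℕ → ℂ) (s : Finset (ℕ × ℕ)) (p : MvPolynomial (ℕ × ℕ) ℂ)
    (j : ℕ × ℕ) (hj : j ∈ s) :
    Ld v δ s (p * X j) = Ld v δ s p * v j + eval v p * δ j := by
  unfold Ld
  have h1 : ∀ i ∈ s, δ i * eval v (pderiv i (p * X j)) =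
      δ i * eval v (pderiv i p) * v j + (if i = j then eval v p * δ i else 0) := by
    intro i _
    rw [Derivation.leibniz, pderiv_X]
    by_cases h : i = j
    · subst h; simp; ring
    · rw [if_neg h, Pi.single_eq_of_ne (Ne.symm h)]
      simp; ring
  rw [Finset.sum_congr rfl h1, Finset.sum_add_distrib, Finset.sum_ite_eq', if_pos hj,
    Finset.sum_mul]

theorem norm_Ld_le (v : ℕ × ℕ → ℂ) (s : Finset (ℕ × ℕ)) (P : MvPolynomial (ℕ × ℕ) ℂ) :
    ∃ K : ℝ, 0 ≤ K ∧ ∀ (δ : ℕ × ℕ → ℂ) (ρ : ℝ), (∀ i, ‖δ i‖ ≤ ρ) → ‖Ld v δ s P‖ ≤ K * ρ := by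
  refine ⟨∑ i ∈ s, ‖eval v (pderiv i P)‖, Finset.sum_nonneg fun i _ => norm_nonneg _, ?_⟩
  intro δ ρ hδ
  unfold Ld
  refine (norm_sum_le _ _).trans ?_
  rw [Finset.sum_mul]
  apply Finset.sum_le_sum
  intro i _
  rw [norm_mul, mul_comm]
  exact mul_le_mul_of_nonneg_left (hδ i) (norm_nonneg _)

theorem taylor_aux (v : ℕ × ℕ → ℂ) (P : MvPolynomial (ℕ × ℕ) ℂ) :
    ∃ C : ℝ, 0 ≤ C ∧ ∀ (δ : ℕ × ℕ → ℂ) (ρ : ℝ), ρ ≤ 1 → (∀ i, ‖δ i‖ ≤ ρ) →
    ‖eval (fun i => v i + δ i) P - eval v P - Ld v δ P.vars P‖ ≤ C * ρ ^ 2 := by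
  induction P using MvPolynomial.induction_on with
  | C a =>
    refine ⟨0, le_rfl, ?_⟩
    intro δ ρ _ _
    simp [Ld]
  | add p q hp hq =>
    obtain ⟨C1, h1, h1'⟩ := hp
    obtain ⟨C2, h2, h2'⟩ := hq
    refine ⟨C1 + C2, add_nonneg h1 h2, ?_⟩
    intro δ ρ hρ hδ
    have e1 := h1' δ ρ hρ hδ
    have e2 := h2' δ ρ hρ hδ
    classical
    set s := p.vars ∪ q.vars ∪ (p + q).vars with hs
    rw [Ld_vars v δ s p (by intro x hx; simp [hs, hx])] at e1
    rw [Ld_vars v δ s q (by intro x hx; simp [hs, hx])] at e2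
    rw [Ld_vars v δ s (p + q) (by intro x hx; rw [hs]; exact Finset.mem_union_right _ hx),
      Ld_add, map_add, map_add]
    calc _ = ‖(eval (fun i => v i + δ i) p - eval v p - Ld v δ s p) +
          (eval (fun i => v i + δ i) q - eval v q - Ld v δ s q)‖ := by congr 1; ring
      _ ≤ _ := norm_add_le _ _
      _ ≤ C1 * ρ ^ 2 + C2 * ρ ^ 2 := add_le_add e1 e2
      _ = _ := by ring
  | mul_X p j hp =>
    obtain ⟨C1, h1, h1'⟩ := hp
    classical
    set s := p.vars ∪ {j} ∪ (p * X j).vars with hs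
    obtain ⟨K, hK, hK'⟩ := norm_Ld_le v s p
    refine ⟨(‖v j‖ + 1) * C1 + K, by positivity, ?_⟩
    intro δ ρ hρ hδ
    have hρ0 : 0 ≤ ρ := (norm_nonneg _).trans (hδ (0, 0))
    have e1 := h1' δ ρ hρ hδ
    rw [Ld_vars v δ s p (by intro x hx; simp [hs, hx])] at e1
    rw [Ld_vars v δ s (p * X j) (by intro x hx; rw [hs]; exact Finset.mem_union_right _ hx),
      Ld_mul_X v δ s p j (by simp [hs]), map_mul, map_mul, eval_X, eval_X]
    calc _ = ‖(v j + δ j) * (eval (fun i => v i + δ i) p - eval v p - Ld v δ s p) +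
          δ j * Ld v δ s p‖ := by congr 1; ring
      _ ≤ ‖(v j + δ j) * (eval (fun i => v i + δ i) p - eval v p - Ld v δ s p)‖ +
          ‖δ j * Ld v δ s p‖ := norm_add_le _ _
      _ ≤ (‖v j‖ + 1) * (C1 * ρ ^ 2) + ρ * (K * ρ) := by
        rw [norm_mul, norm_mul]
        apply add_le_add
        · apply mul_le_mul _ e1 (norm_nonneg _) (by positivity)
          refine (norm_add_le _ _).trans ?_
          have := hδ j
          linarith
        · exact mul_le_mul (hδ j) (hK' δ ρ hδ) (norm_nonneg _) hρ0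
      _ = _ := by ring

end Flow

open Pool.Agent.H946.Z.Flow in
theorem flow_inv : S_flow := by
  intro P hP t v
  have h : ∀ t, HasDerivAt (fun t => eval (flow t v) P) 0 t := by
    intro t
    have := hasDerivAt_eval v P t
    rw [hP, map_zero] at this
    exact this
  have hc := is_const_of_deriv_eq_zero (f := fun t => eval (flow t v) P)
    (fun t => (h t).differentiableAt) (fun t => (h t).deriv) t 0
  have hc' : eval (flow t v) P = eval (flow 0 v) P := hc
  rw [hc', flow_zero]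

open Pool.Agent.H946.Z.Flow in
theorem taylor : S_Taylor := by
  intro P v
  obtain ⟨C, _, hC⟩ := taylor_aux v P
  exact ⟨C, hC⟩

end Pool.Agent.H946.Z
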