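import Pool.Agent.H946.Z.Basic
set_option autoImplicit false

/-!
# MP_d9449f_ag : growth of `F0cl(q_N)`
-/

namespace Pool.Agent.H946.Z

open PowerSeries

namespace Growth

/-- `f` converges absolutely at `‖q‖` and its value at `q` is at most `b`. -/
def Bd (q : ℂ) (f : ℚ⟦X⟧) (b : ℝ) : Prop := Cv ‖q‖ f ∧ ‖ev q f‖ ≤ b

theorem Bd.nonneg {q : ℂ} {f : ℚ⟦X⟧} {b : ℝ} (h : Bd q f b) : 0 ≤ b :=
  (norm_nonneg _).trans h.2

theorem Bd.mono {q : ℂ} {f : ℚ⟦X⟧} {a b : ℝ} (h : Bd q f a) (hab : a ≤ b) : Bd q f b :=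
  ⟨h.1, h.2.trans hab⟩

theorem Bd.mul (hr : S_evring) {q : ℂ} {f g : ℚ⟦X⟧} {a b : ℝ} (hf : Bd q f a) (hg : Bd q g b) :
    Bd q (f * g) (a * b) := by
  have h := (hr q f g hf.1 hg.1).1
  refine ⟨h.1, ?_⟩
  rw [h.2, norm_mul]
  exact mul_le_mul hf.2 hg.2 (norm_nonneg _) hf.nonneg

theorem Bd.add (hr : S_evring) {q : ℂ} {f g : ℚ⟦X⟧} {a b : ℝ} (hf : Bd q f a) (hg : Bd q g b) :
    Bd q (f + g) (a + b) := by
  have h := (hr q f g hf.1 hg.1).2.1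
  refine ⟨h.1, ?_⟩
  rw [h.2]
  exact (norm_add_le _ _).trans (add_le_add hf.2 hg.2)

theorem Bd.smul (hr : S_evring) {q : ℂ} {f : ℚ⟦X⟧} {a : ℝ} (hf : Bd q f a) (c : ℚ) :
    Bd q (c • f) (|(c : ℝ)| * a) := by
  have h := (hr q f f hf.1 hf.1).2.2 c
  refine ⟨h.1, ?_⟩
  rw [h.2, norm_mul]
  have hc : ‖(c : ℂ)‖ = |(c : ℝ)| := by
    rw [← Complex.ofReal_ratCast, Complex.norm_real, Real.norm_eq_abs]
  rw [hc]
  exact mul_le_mul_of_nonneg_left hf.2 (abs_nonneg _)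

theorem Bd.sub (hr : S_evring) {q : ℂ} {f g : ℚ⟦X⟧} {a b : ℝ} (hf : Bd q f a) (hg : Bd q g b) :
    Bd q (f - g) (a + b) := by
  have h := Bd.add hr hf (Bd.smul hr hg (-1))
  have e : f + (-1 : ℚ) • g = f - g := by
    rw [neg_smul, one_smul, sub_eq_add_neg]
  rw [e] at h
  refine h.mono (le_of_eq ?_)
  norm_num

theorem Bd.zero (q : ℂ) : Bd q 0 0 := by
  refine ⟨?_, ?_⟩
  · unfold Cv
    simp
  · unfold ev
    simp

theorem Bd.X_pow (q : ℂ) (k : ℕ) : Bd q (X ^ k) (‖q‖ ^ k) := by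
  refine ⟨?_, ?_⟩
  · unfold Cv
    refine summable_of_ne_finset_zero (s := {k}) ?_
    intro n hn
    rw [Finset.mem_singleton] at hn
    rw [PowerSeries.coeff_X_pow, if_neg hn]
    simp
  · unfold ev
    rw [tsum_eq_single k]
    · rw [PowerSeries.coeff_X_pow, if_pos rfl]
      simp
    · intro n hn
      rw [PowerSeries.coeff_X_pow, if_neg hn]
      simp

theorem Bd.C (q : ℂ) (c : ℚ) : Bd q (PowerSeries.C c) |(c : ℝ)| := by
  refine ⟨?_, ?_⟩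
  · unfold Cv
    refine summable_of_ne_finset_zero (s := {0}) ?_
    intro n hn
    rw [Finset.mem_singleton] at hn
    rw [PowerSeries.coeff_C, if_neg hn]
    simp
  · unfold ev
    rw [tsum_eq_single 0]
    · rw [PowerSeries.coeff_C, if_pos rfl, pow_zero, mul_one]
      rw [← Complex.ofReal_ratCast, Complex.norm_real, Real.norm_eq_abs]
    · intro n hn
      rw [PowerSeries.coeff_C, if_neg hn]
      simp

theorem Bd.sum (hr : S_evring) {q : ℂ} {ι : Type} (s : Finset ι) (f : ι → ℚ⟦X⟧) (b : ι → ℝ)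
    (h : ∀ i ∈ s, Bd q (f i) (b i)) : Bd q (∑ i ∈ s, f i) (∑ i ∈ s, b i) := by
  classical
  induction s using Finset.induction_on with
  | empty => simpa using Bd.zero q
  | insert a s ha ih =>
    rw [Finset.sum_insert ha, Finset.sum_insert ha]
    exact Bd.add hr (h a (Finset.mem_insert_self _ _))
      (ih fun i hi => h i (Finset.mem_insert_of_mem hi))

/-- data on `q` : bound on the atoms. -/
structure At (q : ℂ) (B D : ℝ) : Prop where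
  hB : 1 ≤ B
  hD : 1 ≤ D
  huu : ∀ k : ℕ, 1 ≤ k → Bd q (uu ℚ k) B
  hLi : ∀ j : ℕ, j ≤ 7 → ∀ m : ℕ, 1 ≤ m → Bd q (Li j m) (D * B ^ (j + 1))

variable {q : ℂ} {B D : ℝ}

theorem bd_cc (hr : S_evring) (h : At q B D) (k : ℕ) (hk : 1 ≤ k) : Bd q (cc k) (2 * B) := by
  have h1 := Bd.sub hr (h.huu k hk) (Bd.C q (1 / 2))
  refine h1.mono ?_
  have := h.hB
  norm_num
  linarith

theorem bd_HH (hr : S_evring) (h : At q B D) (k : ℕ) : Bd q (HH k) (k * (2 * B)) := by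
  have hB := h.hB
  have h1 := Bd.sum hr (Finset.Ico 1 k) cc (fun _ => 2 * B)
    (fun i hi => bd_cc hr h i (Finset.mem_Ico.1 hi).1)
  refine Bd.mono h1 ?_
  rw [Finset.sum_const, Nat.card_Ico, nsmul_eq_mul]
  apply mul_le_mul_of_nonneg_right _ (by linarith)
  exact_mod_cast Nat.sub_le k 1

theorem bd_EE2 (hr : S_evring) (h : At q B D) (k : ℕ) :
    Bd q (EE2 k) (4 * (k : ℝ) ^ 2 * B ^ 2) := by
  have hB := h.hB
  have h1 := Bd.sum hr (Finset.Ico 1 k) (fun j => cc j * HH j)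
    (fun _ => (2 * B) * (k * (2 * B))) (fun i hi => by
      rw [Finset.mem_Ico] at hi
      refine (Bd.mul hr (bd_cc hr h i hi.1) (bd_HH hr h i)).mono ?_
      have hik : (i : ℝ) ≤ k := by exact_mod_cast hi.2.le
      apply mul_le_mul_of_nonneg_left _ (by linarith)
      exact mul_le_mul_of_nonneg_right hik (by linarith))
  refine Bd.mono h1 ?_
  rw [Finset.sum_const, Nat.card_Ico, nsmul_eq_mul]
  have h2 : ((k - 1 : ℕ) : ℝ) ≤ k := by exact_mod_cast Nat.sub_le k 1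
  calc ((k - 1 : ℕ) : ℝ) * (2 * B * (k * (2 * B))) ≤ k * (2 * B * (k * (2 * B))) := by
        apply mul_le_mul_of_nonneg_right h2
        positivity
    _ = 4 * (k : ℝ) ^ 2 * B ^ 2 := by ring

/-- `D B^i ≤ D² B^n`. -/
theorem pw1 (h : At q B D) {i n : ℕ} (hin : i ≤ n) : D * B ^ i ≤ D ^ 2 * B ^ n := by
  have hB := h.hB
  have hD := h.hD
  have h1 : B ^ i ≤ B ^ n := pow_le_pow_right₀ hB hin
  have h2 : D ≤ D ^ 2 := by nlinarith
  have h3 : 0 ≤ B ^ i := by positivity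
  have h4 : 0 ≤ D ^ 2 := by positivity
  exact mul_le_mul h2 h1 h3 h4

theorem bd_R0 (hr : S_evring) (h : At q B D) (k m : ℕ) (hk : 1 ≤ k) (hm : 1 ≤ m) :
    Bd q (R0 k m) (70 * (D ^ 2 * B ^ 6)) := by
  have hB := h.hB
  have hD := h.hD
  have l := fun j (hj : j ≤ 7) => h.hLi j hj
  have h1 := ((((((((l 5 (by norm_num) m hm).smul hr (18 / 5)).add hr
    ((l 3 (by norm_num) m hm).smul hr (4 / 3))).add hr
    ((l 1 (by norm_num) m hm).smul hr (1 / 15))).add hr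
    (((bd_cc hr h k hk).mul hr (l 4 (by norm_num) m hm)).smul hr 10)).add hr
    (((l 1 (by norm_num) k hk).mul hr (l 3 (by norm_num) m hm)).smul hr 16)).add hr
    (((l 2 (by norm_num) k hk).mul hr (l 2 (by norm_num) m hm)).smul hr 12)).sub hr
    (((l 3 (by norm_num) k hk).mul hr (l 1 (by norm_num) m hm)).smul hr 8)).sub hr
    (((l 4 (by norm_num) k hk).mul hr (bd_cc hr h m hm)).smul hr 4)
  unfold R0
  refine Bd.mono h1 ?_
  have e1 := pw1 h (i := 5 + 1) (n := 6) (by norm_num)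
  have e2 := pw1 h (i := 3 + 1) (n := 6) (by norm_num)
  have e3 := pw1 h (i := 1 + 1) (n := 6) (by norm_num)
  have e4 := pw1 h (i := 6) (n := 6) (by norm_num)
  have f1 : 2 * B * (D * B ^ (4 + 1)) = 2 * (D * B ^ 6) := by ring
  have f2 : D * B ^ (1 + 1) * (D * B ^ (3 + 1)) = D ^ 2 * B ^ 6 := by ring
  have f3 : D * B ^ (2 + 1) * (D * B ^ (2 + 1)) = D ^ 2 * B ^ 6 := by ring
  have f4 : D * B ^ (3 + 1) * (D * B ^ (1 + 1)) = D ^ 2 * B ^ 6 := by ring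
  have f5 : D * B ^ (4 + 1) * (2 * B) = 2 * (D * B ^ 6) := by ring
  rw [f1, f2, f3, f4, f5]
  have a1 : |((18 / 5 : ℚ) : ℝ)| = 18 / 5 := by norm_num
  have a2 : |((4 / 3 : ℚ) : ℝ)| = 4 / 3 := by norm_num
  have a3 : |((1 / 15 : ℚ) : ℝ)| = 1 / 15 := by norm_num
  have a4 : |((10 : ℚ) : ℝ)| = 10 := by norm_num
  have a5 : |((16 : ℚ) : ℝ)| = 16 := by norm_num
  have a6 : |((12 : ℚ) : ℝ)| = 12 := by norm_num
  have a7 : |((8 : ℚ) : ℝ)| = 8 := by norm_num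
  have a8 : |((4 : ℚ) : ℝ)| = 4 := by norm_num
  rw [a1, a2, a3, a4, a5, a6, a7, a8]
  have hp : 0 ≤ D ^ 2 * B ^ 6 := by positivity
  simp only [Nat.reduceAdd] at e1 e2 e3 e4 ⊢
  linarith

theorem bd_R1 (hr : S_evring) (h : At q B D) (k m : ℕ) (hk : 1 ≤ k) (hm : 1 ≤ m) :
    Bd q (R1 k m) (70 * (D ^ 2 * B ^ 7)) := by
  have hB := h.hB
  have hD := h.hD
  have l := fun j (hj : j ≤ 7) => h.hLi j hj
  have h1 := ((((((((l 6 (by norm_num) m hm).smul hr (18 / 5)).add hr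
    ((l 4 (by norm_num) m hm).smul hr (4 / 3))).add hr
    ((l 2 (by norm_num) m hm).smul hr (1 / 15))).add hr
    (((bd_cc hr h k hk).mul hr (l 5 (by norm_num) m hm)).smul hr 10)).add hr
    (((l 1 (by norm_num) k hk).mul hr (l 4 (by norm_num) m hm)).smul hr 16)).add hr
    (((l 2 (by norm_num) k hk).mul hr (l 3 (by norm_num) m hm)).smul hr 12)).sub hr
    (((l 3 (by norm_num) k hk).mul hr (l 2 (by norm_num) m hm)).smul hr 8)).sub hr
    (((l 4 (by norm_num) k hk).mul hr (l 1 (by norm_num) m hm)).smul hr 4)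
  unfold R1
  refine Bd.mono h1 ?_
  have e1 := pw1 h (i := 6 + 1) (n := 7) (by norm_num)
  have e2 := pw1 h (i := 4 + 1) (n := 7) (by norm_num)
  have e3 := pw1 h (i := 2 + 1) (n := 7) (by norm_num)
  have e4 := pw1 h (i := 7) (n := 7) (by norm_num)
  have f1 : 2 * B * (D * B ^ (5 + 1)) = 2 * (D * B ^ 7) := by ring
  have f2 : D * B ^ (1 + 1) * (D * B ^ (4 + 1)) = D ^ 2 * B ^ 7 := by ring
  have f3 : D * B ^ (2 + 1) * (D * B ^ (3 + 1)) = D ^ 2 * B ^ 7 := by ring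
  have f4 : D * B ^ (3 + 1) * (D * B ^ (2 + 1)) = D ^ 2 * B ^ 7 := by ring
  have f5 : D * B ^ (4 + 1) * (D * B ^ (1 + 1)) = D ^ 2 * B ^ 7 := by ring
  rw [f1, f2, f3, f4, f5]
  have a1 : |((18 / 5 : ℚ) : ℝ)| = 18 / 5 := by norm_num
  have a2 : |((4 / 3 : ℚ) : ℝ)| = 4 / 3 := by norm_num
  have a3 : |((1 / 15 : ℚ) : ℝ)| = 1 / 15 := by norm_num
  have a4 : |((10 : ℚ) : ℝ)| = 10 := by norm_num
  have a5 : |((16 : ℚ) : ℝ)| = 16 := by norm_num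
  have a6 : |((12 : ℚ) : ℝ)| = 12 := by norm_num
  have a7 : |((8 : ℚ) : ℝ)| = 8 := by norm_num
  have a8 : |((4 : ℚ) : ℝ)| = 4 := by norm_num
  rw [a1, a2, a3, a4, a5, a6, a7, a8]
  have hp : 0 ≤ D ^ 2 * B ^ 7 := by positivity
  simp only [Nat.reduceAdd] at e1 e2 e3 e4 ⊢
  linarith

theorem bd_R2 (hr : S_evring) (h : At q B D) (k : ℕ) (hk : 1 ≤ k) :
    Bd q (R2 k) (70 * (D ^ 2 * B ^ 8)) := by
  have hB := h.hB
  have hD := h.hD
  have l := fun j (hj : j ≤ 7) => h.hLi j hj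
  have h1 := (((((((l 7 (by norm_num) k hk).smul hr (8 / 5)).add hr
    ((l 5 (by norm_num) k hk).smul hr (1 / 3))).add hr
    ((l 3 (by norm_num) k hk).smul hr (1 / 15))).add hr
    (((bd_cc hr h k hk).mul hr (l 6 (by norm_num) k hk)).smul hr 4)).add hr
    (((l 1 (by norm_num) k hk).mul hr (l 5 (by norm_num) k hk)).smul hr 4)).sub hr
    (((l 3 (by norm_num) k hk).mul hr (l 3 (by norm_num) k hk)).smul hr 8)).sub hr
    (((l 4 (by norm_num) k hk).mul hr (l 2 (by norm_num) k hk)).smul hr 4)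
  unfold R2
  refine Bd.mono h1 ?_
  have e1 := pw1 h (i := 7 + 1) (n := 8) (by norm_num)
  have e2 := pw1 h (i := 5 + 1) (n := 8) (by norm_num)
  have e3 := pw1 h (i := 3 + 1) (n := 8) (by norm_num)
  have e4 := pw1 h (i := 8) (n := 8) (by norm_num)
  have f1 : 2 * B * (D * B ^ (6 + 1)) = 2 * (D * B ^ 8) := by ring
  have f2 : D * B ^ (1 + 1) * (D * B ^ (5 + 1)) = D ^ 2 * B ^ 8 := by ring
  have f3 : D * B ^ (3 + 1) * (D * B ^ (3 + 1)) = D ^ 2 * B ^ 8 := by ring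
  have f4 : D * B ^ (4 + 1) * (D * B ^ (2 + 1)) = D ^ 2 * B ^ 8 := by ring
  rw [f1, f2, f3, f4]
  have a1 : |((8 / 5 : ℚ) : ℝ)| = 8 / 5 := by norm_num
  have a2 : |((1 / 3 : ℚ) : ℝ)| = 1 / 3 := by norm_num
  have a3 : |((1 / 15 : ℚ) : ℝ)| = 1 / 15 := by norm_num
  have a7 : |((8 : ℚ) : ℝ)| = 8 := by norm_num
  have a8 : |((4 : ℚ) : ℝ)| = 4 := by norm_num
  rw [a1, a2, a3, a7, a8]
  have hp : 0 ≤ D ^ 2 * B ^ 8 := by positivity
  simp only [Nat.reduceAdd] at e1 e2 e3 e4 ⊢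
  linarith

theorem bd_FA (hr : S_evring) (h : At q B D) (k : ℕ) (hk : 1 ≤ k) :
    Bd q (FA k) (3100 * (D ^ 2 * B ^ 10) * ((k : ℝ) ^ 3 * ‖q‖ ^ k)) := by
  have hB := h.hB
  have hD := h.hD
  have hk1 : (1 : ℝ) ≤ k := by exact_mod_cast hk
  have hu := h.huu k hk
  have h1 := (((Bd.X_pow q k).mul hr (hu.mul hr hu)).mul hr
    ((((((bd_R0 hr h k k hk hk).smul hr (((k : ℚ) - 1) * ((k : ℚ) + 4) / 3)).add hr
      (((bd_EE2 hr h k).mul hr (bd_R0 hr h k k hk hk)).smul hr 8)).sub hr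
      (((bd_HH hr h k).mul hr (bd_R1 hr h k k hk hk)).smul hr 4)).add hr
      (bd_R2 hr h k hk)))).smul hr (k : ℚ)
  unfold FA
  rw [pow_two]
  refine Bd.mono h1 ?_
  have a0 : |((k : ℚ) : ℝ)| = k := by
    rw [Rat.cast_natCast, abs_of_nonneg (by positivity)]
  have a1 : |(((((k : ℚ) - 1) * ((k : ℚ) + 4) / 3 : ℚ)) : ℝ)| ≤ 2 * (k : ℝ) ^ 2 := by
    push_cast
    rw [abs_of_nonneg (by
      have : 0 ≤ (k : ℝ) - 1 := by linarith
      positivity)]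
    nlinarith
  have a7 : |((8 : ℚ) : ℝ)| = 8 := by norm_num
  have a8 : |((4 : ℚ) : ℝ)| = 4 := by norm_num
  rw [a0, a7, a8]
  have hq : 0 ≤ ‖q‖ ^ k := by positivity
  have hB0 : 0 < B := by linarith
  have key : |(((((k : ℚ) - 1) * ((k : ℚ) + 4) / 3 : ℚ)) : ℝ)| * (70 * (D ^ 2 * B ^ 6)) +
      8 * (4 * (k : ℝ) ^ 2 * B ^ 2 * (70 * (D ^ 2 * B ^ 6))) +
      4 * ((k : ℝ) * (2 * B) * (70 * (D ^ 2 * B ^ 7))) + 70 * (D ^ 2 * B ^ 8) ≤
      3100 * (D ^ 2 * B ^ 8) * (k : ℝ) ^ 2 := by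
    have b68 : B ^ 6 ≤ B ^ 8 := pow_le_pow_right₀ hB (by norm_num)
    have hD2 : 0 ≤ D ^ 2 := by positivity
    have c1 : |(((((k : ℚ) - 1) * ((k : ℚ) + 4) / 3 : ℚ)) : ℝ)| * (70 * (D ^ 2 * B ^ 6)) ≤
        2 * (k : ℝ) ^ 2 * (70 * (D ^ 2 * B ^ 8)) := by
      apply mul_le_mul a1 _ (by positivity) (by positivity)
      have := mul_le_mul_of_nonneg_left b68 hD2
      linarith
    have c2 : 8 * (4 * (k : ℝ) ^ 2 * B ^ 2 * (70 * (D ^ 2 * B ^ 6))) =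
        2240 * (D ^ 2 * B ^ 8) * (k : ℝ) ^ 2 := by ring
    have c3 : 4 * ((k : ℝ) * (2 * B) * (70 * (D ^ 2 * B ^ 7))) ≤
        560 * (D ^ 2 * B ^ 8) * (k : ℝ) ^ 2 := by
      have : 4 * ((k : ℝ) * (2 * B) * (70 * (D ^ 2 * B ^ 7))) =
        560 * (D ^ 2 * B ^ 8) * (k : ℝ) := by ring
      rw [this]
      apply mul_le_mul_of_nonneg_left _ (by positivity)
      nlinarith
    have c4 : 70 * (D ^ 2 * B ^ 8) ≤ 70 * (D ^ 2 * B ^ 8) * (k : ℝ) ^ 2 := by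
      have : 0 ≤ 70 * (D ^ 2 * B ^ 8) := by positivity
      nlinarith
    have c5 : 2 * (k : ℝ) ^ 2 * (70 * (D ^ 2 * B ^ 8)) =
      140 * (D ^ 2 * B ^ 8) * (k : ℝ) ^ 2 := by ring
    rw [c2]
    have hp : 0 ≤ (D ^ 2 * B ^ 8) * (k : ℝ) ^ 2 := by positivity
    linarith
  calc (k : ℝ) * (‖q‖ ^ k * (B * B) *
      (|(((((k : ℚ) - 1) * ((k : ℚ) + 4) / 3 : ℚ)) : ℝ)| * (70 * (D ^ 2 * B ^ 6)) +
      8 * (4 * (k : ℝ) ^ 2 * B ^ 2 * (70 * (D ^ 2 * B ^ 6))) +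
      4 * ((k : ℝ) * (2 * B) * (70 * (D ^ 2 * B ^ 7))) + 70 * (D ^ 2 * B ^ 8)))
      ≤ (k : ℝ) * (‖q‖ ^ k * (B * B) * (3100 * (D ^ 2 * B ^ 8) * (k : ℝ) ^ 2)) := by
        apply mul_le_mul_of_nonneg_left _ (by positivity)
        apply mul_le_mul_of_nonneg_left key (by positivity)
    _ = 3100 * (D ^ 2 * B ^ 10) * ((k : ℝ) ^ 3 * ‖q‖ ^ k) := by ring

theorem bd_FB (hr : S_evring) (h : At q B D) (k n : ℕ) (hk : 1 ≤ k) (hn : 1 ≤ n) :
    Bd q (FB k n) (3100 * (D ^ 2 * B ^ 10) * (((k + n : ℕ) : ℝ) ^ 2 * ‖q‖ ^ (k + n))) := by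
  have hB := h.hB
  have hD := h.hD
  have hk1 : (1 : ℝ) ≤ k := by exact_mod_cast hk
  have hn1 : (1 : ℝ) ≤ n := by exact_mod_cast hn
  have hnk : 1 ≤ n + k := by omega
  have h1 := (((((Bd.X_pow q (k + n)).mul hr (h.huu k hk)).mul hr (h.huu n hn)).mul hr
    (h.huu (n + k) hnk)).mul hr
    (((((bd_HH hr h n).add hr (bd_HH hr h (n + k))).mul hr
      (bd_R0 hr h k (n + k) hk hnk)).smul hr 8).sub hr
      ((bd_R1 hr h k (n + k) hk hnk).smul hr 4))).smul hr (k : ℚ)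
  unfold FB
  refine Bd.mono h1 ?_
  have a0 : |((k : ℚ) : ℝ)| = k := by
    rw [Rat.cast_natCast, abs_of_nonneg (by positivity)]
  have a7 : |((8 : ℚ) : ℝ)| = 8 := by norm_num
  have a8 : |((4 : ℚ) : ℝ)| = 4 := by norm_num
  rw [a0, a7, a8]
  have hq : 0 ≤ ‖q‖ ^ (k + n) := by positivity
  have hB0 : 0 < B := by linarith
  push_cast
  have key : 8 * (((n : ℝ) * (2 * B) + ((n : ℝ) + k) * (2 * B)) * (70 * (D ^ 2 * B ^ 6))) +
      4 * (70 * (D ^ 2 * B ^ 7)) ≤ 3100 * (D ^ 2 * B ^ 7) * ((k : ℝ) + n) := by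
    have hp : 0 ≤ D ^ 2 * B ^ 7 := by positivity
    have c1 : 8 * (((n : ℝ) * (2 * B) + ((n : ℝ) + k) * (2 * B)) * (70 * (D ^ 2 * B ^ 6))) +
      4 * (70 * (D ^ 2 * B ^ 7)) = (D ^ 2 * B ^ 7) * (2240 * n + 1120 * k + 280) := by ring
    have c2 : 3100 * (D ^ 2 * B ^ 7) * ((k : ℝ) + n) =
      (D ^ 2 * B ^ 7) * (3100 * n + 3100 * k) := by ring
    rw [c1, c2]
    apply mul_le_mul_of_nonneg_left _ hp
    linarith
  calc (k : ℝ) * (‖q‖ ^ (k + n) * B * B * B *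
      (8 * (((n : ℝ) * (2 * B) + ((n : ℝ) + k) * (2 * B)) * (70 * (D ^ 2 * B ^ 6))) +
      4 * (70 * (D ^ 2 * B ^ 7))))
      ≤ ((k : ℝ) + n) * (‖q‖ ^ (k + n) * B * B * B *
        (3100 * (D ^ 2 * B ^ 7) * ((k : ℝ) + n))) := by
        apply mul_le_mul (by linarith) _ (by positivity) (by positivity)
        apply mul_le_mul_of_nonneg_left key (by positivity)
    _ = 3100 * (D ^ 2 * B ^ 10) * (((k : ℝ) + n) ^ 2 * ‖q‖ ^ (k + n)) := by ring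

/-- summation over antidiagonals. -/
theorem sum_pairs (g : ℕ → ℝ) (hg : ∀ n, 0 ≤ g n)
    (hs : Summable fun m : ℕ => ((m : ℝ) + 1) * g m) :
    Summable (fun p : ℕ × ℕ => g (p.1 + p.2)) ∧
      ∑' p : ℕ × ℕ, g (p.1 + p.2) = ∑' m : ℕ, ((m : ℝ) + 1) * g m := by
  have hfib : ∀ m : ℕ, HasSum (fun p : Finset.HasAntidiagonal.antidiagonal m => g (p.1.1 + p.1.2))
      (((m : ℝ) + 1) * g m) := by
    intro m
    have h1 := hasSum_fintype (fun p : Finset.HasAntidiagonal.antidiagonal m => g (p.1.1 + p.1.2))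
    have h2 : ∑ p : Finset.HasAntidiagonal.antidiagonal m, g (p.1.1 + p.1.2) = ((m : ℝ) + 1) * g m := by
      rw [Finset.sum_congr rfl (g := fun _ => g m)]
      · rw [Finset.sum_const, nsmul_eq_mul]
        congr 1
        rw [Finset.card_univ, Fintype.card_coe, Finset.Nat.card_antidiagonal]
        push_cast
        ring
      · intro p _
        rw [Finset.HasAntidiagonal.mem_antidiagonal.1 p.2]
    rw [h2] at h1
    exact h1
  have hsig : Summable (fun x : Σ m : ℕ, Finset.HasAntidiagonal.antidiagonal m => g (x.2.1.1 + x.2.1.2)) := by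
    rw [summable_sigma_of_nonneg (fun x => hg _)]
    refine ⟨fun m => (hfib m).summable, ?_⟩
    refine hs.congr fun m => ?_
    exact (hfib m).tsum_eq.symm
  have e : (fun x : Σ m : ℕ, Finset.HasAntidiagonal.antidiagonal m => g (x.2.1.1 + x.2.1.2)) =
      (fun p : ℕ × ℕ => g (p.1 + p.2)) ∘ Finset.HasAntidiagonal.sigmaAntidiagonalEquivProd := by
    funext x
    rfl
  have hs2 : Summable (fun p : ℕ × ℕ => g (p.1 + p.2)) := by
    rw [← Finset.HasAntidiagonal.sigmaAntidiagonalEquivProd.summable_iff, ← e]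
    exact hsig
  refine ⟨hs2, ?_⟩
  rw [← Finset.HasAntidiagonal.sigmaAntidiagonalEquivProd.tsum_eq]
  have := hsig.tsum_sigma' (fun m => (hfib m).summable)
  rw [show (∑' c, (fun p : ℕ × ℕ => g (p.1 + p.2)) (Finset.HasAntidiagonal.sigmaAntidiagonalEquivProd c)) =
    ∑' x : Σ m : ℕ, Finset.HasAntidiagonal.antidiagonal m, g (x.2.1.1 + x.2.1.2) from rfl, this]
  exact tsum_congr fun m => (hfib m).tsum_eq

/-- the sum of the bounds. -/
theorem total (hr : S_evring) (hF : S_evF0) (h : At q B D) (hq : ‖q‖ < 1) (T : ℝ)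
    (hs : Summable (fun k : ℕ => (k : ℝ) ^ 3 * ‖q‖ ^ k))
    (hT : ∑' k : ℕ, (k : ℝ) ^ 3 * ‖q‖ ^ k ≤ T) :
    ‖ev q F0cl‖ ≤ 6200 * (D ^ 2 * B ^ 10) * T := by
  have hB := h.hB
  have hD := h.hD
  obtain ⟨hA, hBB, hE⟩ := hF q hq
  have hM : 0 ≤ 3100 * (D ^ 2 * B ^ 10) := by positivity
  have hnn : ∀ k : ℕ, 0 ≤ (k : ℝ) ^ 3 * ‖q‖ ^ k := fun k => by positivity
  have hs1 : Summable (fun k : ℕ => ((k + 1 : ℕ) : ℝ) ^ 3 * ‖q‖ ^ (k + 1)) :=
    (summable_nat_add_iff 1).2 hs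
  have ht1 : ∑' k : ℕ, ((k + 1 : ℕ) : ℝ) ^ 3 * ‖q‖ ^ (k + 1) ≤ T := by
    refine le_trans ?_ hT
    have := hs.sum_add_tsum_nat_add 1
    rw [← this]
    have h0 : 0 ≤ ∑ i ∈ Finset.range 1, (i : ℝ) ^ 3 * ‖q‖ ^ i :=
      Finset.sum_nonneg fun i _ => hnn i
    linarith
  have hs2 : Summable (fun k : ℕ => ((k + 2 : ℕ) : ℝ) ^ 3 * ‖q‖ ^ (k + 2)) :=
    (summable_nat_add_iff 2).2 hs
  have ht2 : ∑' k : ℕ, ((k + 2 : ℕ) : ℝ) ^ 3 * ‖q‖ ^ (k + 2) ≤ T := by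
    refine le_trans ?_ hT
    have := hs.sum_add_tsum_nat_add 2
    rw [← this]
    have h0 : 0 ≤ ∑ i ∈ Finset.range 2, (i : ℝ) ^ 3 * ‖q‖ ^ i :=
      Finset.sum_nonneg fun i _ => hnn i
    linarith
  -- the first sum
  have S1 : ‖∑' k : ℕ, ev q (FA (k + 1))‖ ≤ 3100 * (D ^ 2 * B ^ 10) * T := by
    refine le_trans (tsum_of_norm_bounded (hs1.mul_left (3100 * (D ^ 2 * B ^ 10))).hasSum
      (fun k => (bd_FA hr h (k + 1) (by omega)).2)) ?_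
    rw [tsum_mul_left]
    exact mul_le_mul_of_nonneg_left ht1 hM
  -- the second sum
  have hg0 : ∀ n : ℕ, 0 ≤ (((n + 2 : ℕ) : ℝ) ^ 2 * ‖q‖ ^ (n + 2)) := fun n => by positivity
  have hcmp : ∀ n : ℕ, ((n : ℝ) + 1) * (((n + 2 : ℕ) : ℝ) ^ 2 * ‖q‖ ^ (n + 2)) ≤
      ((n + 2 : ℕ) : ℝ) ^ 3 * ‖q‖ ^ (n + 2) := by
    intro n
    have e : ((n + 2 : ℕ) : ℝ) ^ 3 * ‖q‖ ^ (n + 2) =
      ((n : ℝ) + 2) * (((n + 2 : ℕ) : ℝ) ^ 2 * ‖q‖ ^ (n + 2)) := by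
      push_cast
      ring
    rw [e]
    exact mul_le_mul_of_nonneg_right (by linarith) (hg0 n)
  have hsg : Summable fun n : ℕ => ((n : ℝ) + 1) * (((n + 2 : ℕ) : ℝ) ^ 2 * ‖q‖ ^ (n + 2)) :=
    Summable.of_nonneg_of_le (fun n => mul_nonneg (by positivity) (hg0 n)) hcmp hs2
  obtain ⟨p1, p2⟩ := sum_pairs _ hg0 hsg
  have S2 : ‖∑' p : ℕ × ℕ, ev q (FB (p.1 + 1) (p.2 + 1))‖ ≤ 3100 * (D ^ 2 * B ^ 10) * T := by
    refine le_trans (tsum_of_norm_bounded (p1.mul_left (3100 * (D ^ 2 * B ^ 10))).hasSum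
      (fun p => ?_)) ?_
    · have := (bd_FB hr h (p.1 + 1) (p.2 + 1) (by omega) (by omega)).2
      rw [show p.1 + 1 + (p.2 + 1) = p.1 + p.2 + 2 by ring] at this
      exact this
    · rw [tsum_mul_left, p2]
      apply mul_le_mul_of_nonneg_left _ hM
      exact (hsg.tsum_le_tsum hcmp hs2).trans ht2
  rw [hE]
  refine (norm_add_le _ _).trans ?_
  linarith

end Growth

open Growth in
/-- growth of the closed form along `q_N`. -/
theorem growth (hr : S_evring) (ha : S_atoms) (hq : S_qN) (hF : S_evF0) : S_growth := by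
  intro τ hτ
  obtain ⟨hlt, ⟨C1, hC1⟩, hsum⟩ := hq τ hτ
  obtain ⟨C3, hC3⟩ := hsum 3
  obtain ⟨ha1, ha2⟩ := ha
  choose c hc0 hc using ha2
  set D : ℝ := 1 + ∑ j ∈ Finset.range 8, c j with hDdef
  have hsum0 : 0 ≤ ∑ j ∈ Finset.range 8, c j := Finset.sum_nonneg fun j _ => hc0 j
  have hD1 : 1 ≤ D := by linarith
  have hcD : ∀ j, j ≤ 7 → c j ≤ D := by
    intro j hj
    have := Finset.single_le_sum (f := c) (fun j _ => hc0 j)
      (Finset.mem_range.2 (show j < 8 by omega))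
    linarith
  set K : ℝ := max C1 1 with hK
  have hK1 : 1 ≤ K := le_max_right _ _
  refine ⟨6200 * (D ^ 2 * K ^ 10) * C3, fun N hN => ?_⟩
  have hN1 : (1 : ℝ) ≤ N := by exact_mod_cast hN
  have hB1 : 1 ≤ K * N := by nlinarith
  have hinv : ∀ k : ℕ, 1 ≤ k → ‖1 - qN τ N ^ k‖⁻¹ ≤ K * N := by
    intro k hk
    refine (hC1 N hN k hk).trans ?_
    exact mul_le_mul_of_nonneg_right (le_max_left _ _) (by linarith)
  have hAt : At (qN τ N) (K * N) D := by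
    refine ⟨hB1, hD1, ?_, ?_⟩
    · intro k hk
      obtain ⟨h1, h2⟩ := ha1 (qN τ N) (hlt N) k hk
      refine ⟨h1, ?_⟩
      rw [h2, norm_inv]
      exact hinv k hk
    · intro j hj m hm
      obtain ⟨h1, h2⟩ := hc j (qN τ N) (hlt N) m hm
      refine ⟨h1, h2.trans ?_⟩
      have h3 : (‖1 - qN τ N ^ m‖⁻¹) ^ (j + 1) ≤ (K * N) ^ (j + 1) :=
        pow_le_pow_left₀ (by positivity) (hinv m hm) _
      exact mul_le_mul (hcD j hj) h3 (by positivity) (by linarith)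
  obtain ⟨hs, hT⟩ := hC3 N hN
  have h := total hr hF hAt (hlt N) _ hs hT
  refine h.trans (le_of_eq ?_)
  ring

end Pool.Agent.H946.Z
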