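import Pool.Agent.H946.Z.Stm
set_option autoImplicit false

/-!
# MP_d9449f_ag : sharper growth bound (exponent 14 instead of 18)
-/

namespace Pool.Agent.H946.Z

open PowerSeries

noncomputable section

/-- lattice bound: `∑_k k^a |1-q^k|^{-b} |q|^{k/2} ≤ C N^{a+b}` for `b ≥ a+3`, `q = q_N`. -/
def S_lat : Prop :=
  ∀ τ : ℂ, 0 < τ.im → ∀ a b : ℕ, a + 3 ≤ b → ∃ C : ℝ, ∀ N : ℕ, 1 ≤ N →
    Summable (fun k : ℕ => ((k : ℝ) + 1) ^ a * (‖1 - qN τ N ^ (k + 1)‖⁻¹) ^ b *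
      (Real.sqrt ‖qN τ N‖) ^ (k + 1)) ∧
    ∑' k : ℕ, ((k : ℝ) + 1) ^ a * (‖1 - qN τ N ^ (k + 1)‖⁻¹) ^ b *
      (Real.sqrt ‖qN τ N‖) ^ (k + 1) ≤ C * (N : ℝ) ^ (a + b)

/-- growth of `F0cl(q_N)` with exponent `w`. -/
def S_growthW (w : ℕ) : Prop :=
  ∀ τ : ℂ, 0 < τ.im → ∃ C : ℝ, ∀ N : ℕ, 1 ≤ N → ‖ev (qN τ N) F0cl‖ ≤ C * (N : ℝ) ^ w

/-- the finite check for weights `≤ w`. -/
def S_T4W (w : ℕ) : Prop :=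
  ∀ P : MvPolynomial (ℕ × ℕ) ℚ, (∀ m ∈ P.support, Finsupp.weight wG m ≤ w) →
    MvPolynomial.aeval GG P ≠ F0cl

end

end Pool.Agent.H946.Z
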