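import Pool.Agent.H946.Z.Basic
import Pool.Agent.H946.Z.Stm2
set_option autoImplicit false

/-!
# MP_d9449f_ag : growth of the closed form, exponent 14
-/

namespace Pool.Agent.H946.Z

open PowerSeries

noncomputable section

namespace Growth14

/-- a bound for the value of a power series -/
def Bd (q : ℂ) (f : ℚ⟦X⟧) (b : ℝ) : Prop := Cv ‖q‖ f ∧ ‖ev q f‖ ≤ b

variable {q : ℂ} {f g : ℚ⟦X⟧} {a b : ℝ}

theorem Bd.mono (h : Bd q f a) (hb : a ≤ b) : Bd q f b := ⟨h.1, h.2.trans hb⟩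

theorem Bd.nonneg (h : Bd q f a) : 0 ≤ a := (norm_nonneg _).trans h.2

theorem Bd.mul (hr : S_evring) (hf : Bd q f a) (hg : Bd q g b) : Bd q (f * g) (a * b) := by
  obtain ⟨⟨h1, h2⟩, -, -⟩ := hr q f g hf.1 hg.1
  exact ⟨h1, by rw [h2, norm_mul]; exact mul_le_mul hf.2 hg.2 (norm_nonneg _) hf.nonneg⟩

theorem Bd.add (hr : S_evring) (hf : Bd q f a) (hg : Bd q g b) : Bd q (f + g) (a + b) := by
  obtain ⟨-, ⟨h1, h2⟩, -⟩ := hr q f g hf.1 hg.1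
  exact ⟨h1, by rw [h2]; exact (norm_add_le _ _).trans (add_le_add hf.2 hg.2)⟩

theorem Bd.smul (hr : S_evring) (c : ℚ) (hf : Bd q f a) : Bd q (c • f) (|(c : ℝ)| * a) := by
  obtain ⟨-, -, h⟩ := hr q f f hf.1 hf.1
  obtain ⟨h1, h2⟩ := h c
  refine ⟨h1, ?_⟩
  have h3 : ((c : ℚ) : ℂ) = ((c : ℝ) : ℂ) := by push_cast; rfl
  rw [h2, h3, norm_mul, Complex.norm_real, Real.norm_eq_abs]
  exact mul_le_mul_of_nonneg_left hf.2 (abs_nonneg _)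

theorem Bd.sub (hr : S_evring) (hf : Bd q f a) (hg : Bd q g b) : Bd q (f - g) (a + b) := by
  have h := hf.add hr (hg.smul hr (-1))
  have h1 : f + (-1 : ℚ) • g = f - g := by
    rw [neg_smul, one_smul, sub_eq_add_neg]
  rw [h1] at h
  refine h.mono ?_
  push_cast
  simp

theorem Bd.zero : Bd q 0 0 := by
  refine ⟨?_, ?_⟩
  · unfold Cv
    simp only [map_zero, Rat.cast_zero, abs_zero, zero_mul]
    exact summable_zero
  · simp [ev]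

theorem Bd.sum (hr : S_evring) {ι : Type} (s : Finset ι) (F : ι → ℚ⟦X⟧) (B : ι → ℝ)
    (h : ∀ i ∈ s, Bd q (F i) (B i)) : Bd q (∑ i ∈ s, F i) (∑ i ∈ s, B i) := by
  classical
  induction s using Finset.induction_on with
  | empty => simpa using Bd.zero
  | insert i s hi ih =>
    rw [Finset.sum_insert hi, Finset.sum_insert hi]
    exact (h i (Finset.mem_insert_self i s)).add hr
      (ih fun j hj => h j (Finset.mem_insert_of_mem hj))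

theorem Bd.X_pow (k : ℕ) : Bd q (X ^ k) (‖q‖ ^ k) := by
  refine ⟨?_, ?_⟩
  · refine summable_of_ne_finset_zero (s := {k}) fun n hn => ?_
    rw [Finset.mem_singleton] at hn
    rw [PowerSeries.coeff_X_pow, if_neg hn]
    simp
  · unfold ev
    rw [tsum_eq_single k]
    · rw [PowerSeries.coeff_X_pow, if_pos rfl, Rat.cast_one, one_mul, norm_pow]
    · intro n hn
      rw [PowerSeries.coeff_X_pow, if_neg hn]
      simp

theorem Bd.one : Bd q 1 1 := by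
  have h := Bd.X_pow (q := q) 0
  simpa using h

/-- the data: `q` in the unit disc, `c` an upper bound of the `|1-q^k|⁻¹` -/
structure Dat (q : ℂ) (c Λ : ℝ) : Prop where
  q1 : ‖q‖ < 1
  c1 : 1 ≤ c
  L1 : 1 ≤ Λ
  uc : ∀ k : ℕ, 1 ≤ k → ‖1 - q ^ k‖⁻¹ ≤ c
  u2 : ∀ k : ℕ, 1 ≤ k → 1 / 2 ≤ ‖1 - q ^ k‖⁻¹
  uu : ∀ k : ℕ, 1 ≤ k → Bd q (uu ℚ k) (‖1 - q ^ k‖⁻¹)
  li : ∀ j < 8, ∀ m : ℕ, 1 ≤ m → Bd q (Li j m) (Λ * (‖1 - q ^ m‖⁻¹) ^ (j + 1))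

variable {c Λ : ℝ}

/-- abbreviation -/
def U (q : ℂ) (k : ℕ) : ℝ := ‖1 - q ^ k‖⁻¹

theorem U_half (hd : Dat q c Λ) {k : ℕ} (hk : 1 ≤ k) : 1 / 2 ≤ U q k := hd.u2 k hk
theorem U_le (hd : Dat q c Λ) {k : ℕ} (hk : 1 ≤ k) : U q k ≤ c := hd.uc k hk
theorem U_nonneg (k : ℕ) : 0 ≤ U q k := by unfold U; positivity

theorem bd_cc (hr : S_evring) (hd : Dat q c Λ) {k : ℕ} (hk : 1 ≤ k) : Bd q (cc k) (2 * U q k) := by
  have h1 := (hd.uu k hk).sub hr ((Bd.one (q := q)).smul hr (1 / 2))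
  have h2 : (PowerSeries.C (1 / 2 : ℚ) : ℚ⟦X⟧) = (1 / 2 : ℚ) • 1 := by
    rw [PowerSeries.smul_eq_C_mul, mul_one]
  unfold cc
  rw [h2]
  refine h1.mono ?_
  have h3 := U_half hd hk
  unfold U at *
  push_cast
  rw [abs_of_pos (by norm_num : (0 : ℝ) < 1 / 2)]
  linarith

theorem bd_HH (hr : S_evring) (hd : Dat q c Λ) (k : ℕ) : Bd q (HH k) (2 * c * k) := by
  have h1 := Bd.sum hr (Finset.Ico 1 k) (fun j => cc j) (fun _ => 2 * c) (fun j hj => by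
    rw [Finset.mem_Ico] at hj
    exact (bd_cc hr hd hj.1).mono (by have := U_le hd hj.1; linarith))
  unfold HH
  refine h1.mono ?_
  rw [Finset.sum_const, Nat.card_Ico, nsmul_eq_mul]
  have hc := hd.c1
  have : ((k - 1 : ℕ) : ℝ) ≤ k := by exact_mod_cast Nat.sub_le _ _
  nlinarith

theorem bd_EE2 (hr : S_evring) (hd : Dat q c Λ) (k : ℕ) :
    Bd q (EE2 k) (4 * c ^ 2 * (k : ℝ) ^ 2) := by
  have hc := hd.c1
  have h1 := Bd.sum hr (Finset.Ico 1 k) (fun j => cc j * HH j) (fun _ => (2 * c) * (2 * c * k))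
    (fun j hj => by
      rw [Finset.mem_Ico] at hj
      refine ((bd_cc hr hd hj.1).mono (by have := U_le hd hj.1; linarith : _ ≤ 2 * c)).mul hr
        ((bd_HH hr hd j).mono ?_)
      have : (j : ℝ) ≤ k := by exact_mod_cast hj.2.le
      gcongr)
  unfold EE2
  refine h1.mono ?_
  rw [Finset.sum_const, Nat.card_Ico, nsmul_eq_mul]
  have : ((k - 1 : ℕ) : ℝ) ≤ k := by exact_mod_cast Nat.sub_le _ _
  calc ((k - 1 : ℕ) : ℝ) * ((2 * c) * (2 * c * k)) ≤ k * ((2 * c) * (2 * c * k)) := by gcongr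
    _ = _ := by ring

/-- the polynomial of the bound of `R0` -/
def S0 (x y : ℝ) : ℝ :=
  y ^ 6 + x * y ^ 5 + x ^ 2 * y ^ 4 + x ^ 3 * y ^ 3 + x ^ 4 * y ^ 2 + x ^ 5 * y

theorem pow_le_four {y : ℝ} (hy : 1 / 2 ≤ y) (n : ℕ) : y ^ n ≤ 4 * y ^ (n + 2) := by
  have h0 : 0 ≤ y ^ n := by positivity
  have h1 : 0 ≤ 4 * y ^ 2 - 1 := by nlinarith
  have h2 := mul_nonneg h0 h1
  rw [pow_add]
  linarith

theorem bd_R0 (hr : S_evring) (hd : Dat q c Λ) {k m : ℕ} (hk : 1 ≤ k) (hm : 1 ≤ m) :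
    Bd q (R0 k m) (20 * Λ ^ 2 * S0 (U q k) (U q m)) := by
  have hL := hd.L1
  have hx := U_half hd hk
  have hy := U_half hd hm
  have l := fun j hj => hd.li j hj m hm
  have lk := fun j hj => hd.li j hj k hk
  have ck := bd_cc hr hd hk
  have cm := bd_cc hr hd hm
  unfold R0
  have h := (((((((l 5 (by norm_num)).smul hr (18 / 5)).add hr
    ((l 3 (by norm_num)).smul hr (4 / 3))).add hr ((l 1 (by norm_num)).smul hr (1 / 15))).add hr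
    ((ck.mul hr (l 4 (by norm_num))).smul hr 10)).add hr
    (((lk 1 (by norm_num)).mul hr (l 3 (by norm_num))).smul hr 16)).add hr
    (((lk 2 (by norm_num)).mul hr (l 2 (by norm_num))).smul hr 12)).sub hr
    (((lk 3 (by norm_num)).mul hr (l 1 (by norm_num))).smul hr 8) |>.sub hr
    (((lk 4 (by norm_num)).mul hr cm).smul hr 4)
  refine h.mono ?_
  unfold S0
  unfold U at *
  generalize ‖1 - q ^ k‖⁻¹ = x at *
  generalize ‖1 - q ^ m‖⁻¹ = y at *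
  push_cast
  rw [abs_of_pos (by norm_num : (0 : ℝ) < 18 / 5), abs_of_pos (by norm_num : (0 : ℝ) < 4 / 3),
    abs_of_pos (by norm_num : (0 : ℝ) < 1 / 15), abs_of_pos (by norm_num : (0 : ℝ) < 10),
    abs_of_pos (by norm_num : (0 : ℝ) < 16), abs_of_pos (by norm_num : (0 : ℝ) < 12),
    abs_of_pos (by norm_num : (0 : ℝ) < 8), abs_of_pos (by norm_num : (0 : ℝ) < 4)]
  have hx0 : 0 ≤ x := by linarith
  have hy0 : 0 ≤ y := by linarith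
  have e1 : y ^ 4 ≤ 4 * y ^ 6 := pow_le_four hy 4
  have e2 : y ^ 2 ≤ 4 * y ^ 4 := pow_le_four hy 2
  have hLL : Λ ≤ Λ ^ 2 := by nlinarith
  have hL0 : 0 ≤ Λ := by linarith
  have k1 : Λ * y ^ 6 ≤ Λ ^ 2 * y ^ 6 := by gcongr
  have k2 : Λ * y ^ 4 ≤ Λ ^ 2 * (4 * y ^ 6) := by gcongr
  have k3 : Λ * y ^ 2 ≤ Λ ^ 2 * (16 * y ^ 6) := by
    gcongr
    linarith
  have k4 : x * (Λ * y ^ 5) ≤ Λ ^ 2 * (x * y ^ 5) := by
    calc x * (Λ * y ^ 5) = Λ * (x * y ^ 5) := by ring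
      _ ≤ _ := by gcongr
  have k5 : Λ * (x ^ 5 * y) ≤ Λ ^ 2 * (x ^ 5 * y) := by gcongr
  have p1 : 0 ≤ Λ ^ 2 * y ^ 6 := by positivity
  have p2 : 0 ≤ Λ ^ 2 * (x * y ^ 5) := by positivity
  have p3 : 0 ≤ Λ ^ 2 * (x ^ 2 * y ^ 4) := by positivity
  have p4 : 0 ≤ Λ ^ 2 * (x ^ 3 * y ^ 3) := by positivity
  have p5 : 0 ≤ Λ ^ 2 * (x ^ 4 * y ^ 2) := by positivity
  have p6 : 0 ≤ Λ ^ 2 * (x ^ 5 * y) := by positivity
  ring_nf at *
  linarith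

theorem bd_R1 (hr : S_evring) (hd : Dat q c Λ) {k m : ℕ} (hk : 1 ≤ k) (hm : 1 ≤ m) :
    Bd q (R1 k m) (20 * Λ ^ 2 * (U q m * S0 (U q k) (U q m))) := by
  have hL := hd.L1
  have hx := U_half hd hk
  have hy := U_half hd hm
  have l := fun j hj => hd.li j hj m hm
  have lk := fun j hj => hd.li j hj k hk
  have ck := bd_cc hr hd hk
  unfold R1
  have h := (((((((l 6 (by norm_num)).smul hr (18 / 5)).add hr
    ((l 4 (by norm_num)).smul hr (4 / 3))).add hr ((l 2 (by norm_num)).smul hr (1 / 15))).add hr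
    ((ck.mul hr (l 5 (by norm_num))).smul hr 10)).add hr
    (((lk 1 (by norm_num)).mul hr (l 4 (by norm_num))).smul hr 16)).add hr
    (((lk 2 (by norm_num)).mul hr (l 3 (by norm_num))).smul hr 12)).sub hr
    (((lk 3 (by norm_num)).mul hr (l 2 (by norm_num))).smul hr 8) |>.sub hr
    (((lk 4 (by norm_num)).mul hr (l 1 (by norm_num))).smul hr 4)
  refine h.mono ?_
  unfold S0
  unfold U at *
  generalize ‖1 - q ^ k‖⁻¹ = x at *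
  generalize ‖1 - q ^ m‖⁻¹ = y at *
  push_cast
  rw [abs_of_pos (by norm_num : (0 : ℝ) < 18 / 5), abs_of_pos (by norm_num : (0 : ℝ) < 4 / 3),
    abs_of_pos (by norm_num : (0 : ℝ) < 1 / 15), abs_of_pos (by norm_num : (0 : ℝ) < 10),
    abs_of_pos (by norm_num : (0 : ℝ) < 16), abs_of_pos (by norm_num : (0 : ℝ) < 12),
    abs_of_pos (by norm_num : (0 : ℝ) < 8), abs_of_pos (by norm_num : (0 : ℝ) < 4)]
  have hx0 : 0 ≤ x := by linarith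
  have hy0 : 0 ≤ y := by linarith
  have e1 : y ^ 5 ≤ 4 * y ^ 7 := pow_le_four hy 5
  have e2 : y ^ 3 ≤ 4 * y ^ 5 := pow_le_four hy 3
  have hLL : Λ ≤ Λ ^ 2 := by nlinarith
  have hL0 : 0 ≤ Λ := by linarith
  have k1 : Λ * y ^ 7 ≤ Λ ^ 2 * y ^ 7 := by gcongr
  have k2 : Λ * y ^ 5 ≤ Λ ^ 2 * (4 * y ^ 7) := by gcongr
  have k3 : Λ * y ^ 3 ≤ Λ ^ 2 * (16 * y ^ 7) := by
    gcongr
    linarith
  have k4 : x * (Λ * y ^ 6) ≤ Λ ^ 2 * (x * y ^ 6) := by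
    calc x * (Λ * y ^ 6) = Λ * (x * y ^ 6) := by ring
      _ ≤ _ := by gcongr
  have p1 : 0 ≤ Λ ^ 2 * y ^ 7 := by positivity
  have p2 : 0 ≤ Λ ^ 2 * (x * y ^ 6) := by positivity
  have p3 : 0 ≤ Λ ^ 2 * (x ^ 2 * y ^ 5) := by positivity
  have p4 : 0 ≤ Λ ^ 2 * (x ^ 3 * y ^ 4) := by positivity
  have p5 : 0 ≤ Λ ^ 2 * (x ^ 4 * y ^ 3) := by positivity
  have p6 : 0 ≤ Λ ^ 2 * (x ^ 5 * y ^ 2) := by positivity
  ring_nf at *
  linarith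

theorem bd_R2 (hr : S_evring) (hd : Dat q c Λ) {k : ℕ} (hk : 1 ≤ k) :
    Bd q (R2 k) (30 * Λ ^ 2 * U q k ^ 8) := by
  have hL := hd.L1
  have hx := U_half hd hk
  have l := fun j hj => hd.li j hj k hk
  have ck := bd_cc hr hd hk
  unfold R2
  have h := ((((((l 7 (by norm_num)).smul hr (8 / 5)).add hr
    ((l 5 (by norm_num)).smul hr (1 / 3))).add hr ((l 3 (by norm_num)).smul hr (1 / 15))).add hr
    ((ck.mul hr (l 6 (by norm_num))).smul hr 4)).add hr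
    (((l 1 (by norm_num)).mul hr (l 5 (by norm_num))).smul hr 4)).sub hr
    (((l 3 (by norm_num)).mul hr (l 3 (by norm_num))).smul hr 8) |>.sub hr
    (((l 4 (by norm_num)).mul hr (l 2 (by norm_num))).smul hr 4)
  refine h.mono ?_
  unfold U at *
  generalize ‖1 - q ^ k‖⁻¹ = x at *
  push_cast
  rw [abs_of_pos (by norm_num : (0 : ℝ) < 8 / 5), abs_of_pos (by norm_num : (0 : ℝ) < 1 / 3),
    abs_of_pos (by norm_num : (0 : ℝ) < 1 / 15),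
    abs_of_pos (by norm_num : (0 : ℝ) < 8), abs_of_pos (by norm_num : (0 : ℝ) < 4)]
  have hx0 : 0 ≤ x := by linarith
  have e1 : x ^ 6 ≤ 4 * x ^ 8 := pow_le_four hx 6
  have e2 : x ^ 4 ≤ 4 * x ^ 6 := pow_le_four hx 4
  have hLL : Λ ≤ Λ ^ 2 := by nlinarith
  have hL0 : 0 ≤ Λ := by linarith
  have k1 : Λ * x ^ 8 ≤ Λ ^ 2 * x ^ 8 := by gcongr
  have k2 : Λ * x ^ 6 ≤ Λ ^ 2 * (4 * x ^ 8) := by gcongr
  have k3 : Λ * x ^ 4 ≤ Λ ^ 2 * (16 * x ^ 8) := by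
    gcongr
    linarith
  have p1 : 0 ≤ Λ ^ 2 * x ^ 8 := by positivity
  ring_nf at *
  linarith

theorem S0_self (x : ℝ) : S0 x x = 6 * x ^ 6 := by
  unfold S0
  ring

theorem S0_nonneg {x y : ℝ} (hx : 0 ≤ x) (hy : 0 ≤ y) : 0 ≤ S0 x y := by
  unfold S0
  positivity

theorem bd_FA (hr : S_evring) (hd : Dat q c Λ) {k : ℕ} (hk : 1 ≤ k) :
    Bd q (FA k) (5000 * Λ ^ 2 * (‖q‖ ^ k * (c ^ 2 * ((k : ℝ) ^ 3 * U q k ^ 8) +
      c * ((k : ℝ) ^ 2 * U q k ^ 9) + (k : ℝ) ^ 1 * U q k ^ 10))) := by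
  have hL := hd.L1
  have hc := hd.c1
  have hx := U_nonneg (q := q) k
  have hu : Bd q (uu ℚ k) (U q k) := hd.uu k hk
  have r0 := bd_R0 hr hd hk hk
  have r1 := bd_R1 hr hd hk hk
  have r2 := bd_R2 hr hd hk
  have h := (((Bd.X_pow (q := q) k).mul hr (hu.mul hr hu)).mul hr
    (((r0.smul hr (((k : ℚ) - 1) * ((k : ℚ) + 4) / 3)).add hr
      (((bd_EE2 hr hd k).mul hr r0).smul hr 8)).sub hr
      (((bd_HH hr hd k).mul hr r1).smul hr 4) |>.add hr r2)).smul hr (k : ℚ)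
  have e1 : FA k = (k : ℚ) • (X ^ k * (uu ℚ k * uu ℚ k) *
    ((((k : ℚ) - 1) * ((k : ℚ) + 4) / 3) • R0 k k + (8 : ℚ) • (EE2 k * R0 k k) -
      (4 : ℚ) • (HH k * R1 k k) + R2 k)) := by
    unfold FA
    rw [pow_two]
  rw [e1]
  refine h.mono ?_
  rw [S0_self]
  generalize U q k = x at *
  have hk1 : (1 : ℝ) ≤ k := by exact_mod_cast hk
  have hA : |(((((k : ℚ) - 1) * ((k : ℚ) + 4) / 3 : ℚ)) : ℝ)| ≤ 2 * (k : ℝ) ^ 2 * c ^ 2 := by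
    push_cast
    have h1 : 0 ≤ ((k : ℝ) - 1) * ((k : ℝ) + 4) / 3 := by
      have : 0 ≤ (k : ℝ) - 1 := by linarith
      positivity
    rw [abs_of_nonneg h1]
    have h2 : ((k : ℝ) - 1) * ((k : ℝ) + 4) / 3 ≤ 2 * (k : ℝ) ^ 2 := by nlinarith
    have h3 : (1 : ℝ) ≤ c ^ 2 := by nlinarith
    have h4 : 0 ≤ 2 * (k : ℝ) ^ 2 := by positivity
    nlinarith
  have hk0 : |((k : ℚ) : ℝ)| = k := by
    push_cast
    exact abs_of_nonneg (by linarith)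
  have h8 : |((8 : ℚ) : ℝ)| = 8 := by
    push_cast
    exact abs_of_pos (by norm_num)
  have h4 : |((4 : ℚ) : ℝ)| = 4 := by
    push_cast
    exact abs_of_pos (by norm_num)
  rw [hk0, h8, h4]
  have hq0 : 0 ≤ ‖q‖ ^ k := by positivity
  have hL0 : 0 ≤ Λ := by linarith
  have hc0 : 0 ≤ c := by linarith
  have hk0' : 0 ≤ (k : ℝ) := by linarith
  calc (k : ℝ) * (‖q‖ ^ k * (x * x) *
        (|(((((k : ℚ) - 1) * ((k : ℚ) + 4) / 3 : ℚ)) : ℝ)| * (20 * Λ ^ 2 * (6 * x ^ 6)) +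
          8 * (4 * c ^ 2 * (k : ℝ) ^ 2 * (20 * Λ ^ 2 * (6 * x ^ 6))) +
          4 * (2 * c * k * (20 * Λ ^ 2 * (x * (6 * x ^ 6)))) + 30 * Λ ^ 2 * x ^ 8))
      ≤ (k : ℝ) * (‖q‖ ^ k * (x * x) *
        (2 * (k : ℝ) ^ 2 * c ^ 2 * (20 * Λ ^ 2 * (6 * x ^ 6)) +
          8 * (4 * c ^ 2 * (k : ℝ) ^ 2 * (20 * Λ ^ 2 * (6 * x ^ 6))) +
          4 * (2 * c * k * (20 * Λ ^ 2 * (x * (6 * x ^ 6)))) + 30 * Λ ^ 2 * x ^ 8)) := by
        gcongr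
    _ ≤ _ := by
        have p1 : 0 ≤ Λ ^ 2 * ‖q‖ ^ k * (c ^ 2 * ((k : ℝ) ^ 3 * x ^ 8)) := by positivity
        have p2 : 0 ≤ Λ ^ 2 * ‖q‖ ^ k * (c * ((k : ℝ) ^ 2 * x ^ 9)) := by positivity
        have p3 : 0 ≤ Λ ^ 2 * ‖q‖ ^ k * ((k : ℝ) ^ 1 * x ^ 10) := by positivity
        ring_nf at *
        linarith

theorem bd_FB (hr : S_evring) (hd : Dat q c Λ) {k n : ℕ} (hk : 1 ≤ k) (hn : 1 ≤ n) :
    Bd q (FB k n) (720 * Λ ^ 2 * c ^ 2 * ((k : ℝ) * ((n + k : ℕ) : ℝ) * ‖q‖ ^ (n + k) *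
      (U q k * U q (n + k) * S0 (U q k) (U q (n + k))))) := by
  have hL := hd.L1
  have hc := hd.c1
  have hm : 1 ≤ n + k := by omega
  have hx := U_nonneg (q := q) k
  have hy := U_nonneg (q := q) (n + k)
  have hw := U_nonneg (q := q) n
  have hyc := U_le hd hm
  have hwc := U_le hd hn
  have huk : Bd q (uu ℚ k) (U q k) := hd.uu k hk
  have hun : Bd q (uu ℚ n) (U q n) := hd.uu n hn
  have hum : Bd q (uu ℚ (n + k)) (U q (n + k)) := hd.uu _ hm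
  have r0 := bd_R0 hr hd hk hm
  have r1 := bd_R1 hr hd hk hm
  have h := (((((Bd.X_pow (q := q) (k + n)).mul hr huk).mul hr hun).mul hr hum).mul hr
    ((((((bd_HH hr hd n).add hr (bd_HH hr hd (n + k))).mul hr r0).smul hr 8)).sub hr
      (r1.smul hr 4))).smul hr (k : ℚ)
  unfold FB
  refine h.mono ?_
  have hS := S0_nonneg hx hy
  generalize S0 (U q k) (U q (n + k)) = S at *
  generalize U q k = x at *
  generalize U q (n + k) = y at *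
  generalize U q n = w at *
  have hk0 : |((k : ℚ) : ℝ)| = k := by
    push_cast
    exact abs_of_nonneg (by positivity)
  have h8 : |((8 : ℚ) : ℝ)| = 8 := by
    push_cast
    exact abs_of_pos (by norm_num)
  have h4 : |((4 : ℚ) : ℝ)| = 4 := by
    push_cast
    exact abs_of_pos (by norm_num)
  rw [hk0, h8, h4, add_comm k n]
  have hq0 : 0 ≤ ‖q‖ ^ (n + k) := by positivity
  have hL0 : 0 ≤ Λ := by linarith
  have hc0 : 0 ≤ c := by linarith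
  have hk0' : 0 ≤ (k : ℝ) := by positivity
  have hnm : (n : ℝ) ≤ ((n + k : ℕ) : ℝ) := by
    push_cast
    linarith
  have hm1 : (1 : ℝ) ≤ ((n + k : ℕ) : ℝ) := by exact_mod_cast hm
  generalize ((n + k : ℕ) : ℝ) = m at *
  have hm0 : 0 ≤ m := by linarith
  have hyc' : y ≤ c * m := by nlinarith
  calc (k : ℝ) * (‖q‖ ^ (n + k) * x * w * y *
        (8 * ((2 * c * n + 2 * c * m) * (20 * Λ ^ 2 * S)) + 4 * (20 * Λ ^ 2 * (y * S))))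
      ≤ (k : ℝ) * (‖q‖ ^ (n + k) * x * c * y *
        (8 * ((2 * c * m + 2 * c * m) * (20 * Λ ^ 2 * S)) + 4 * (20 * Λ ^ 2 * (c * m * S)))) := by
        gcongr
    _ = _ := by ring

/-- the lattice terms -/
def LT (q : ℂ) (a b k : ℕ) : ℝ :=
  ((k : ℝ) + 1) ^ a * (‖1 - q ^ (k + 1)‖⁻¹) ^ b * (Real.sqrt ‖q‖) ^ (k + 1)

theorem LT_nonneg (q : ℂ) (a b k : ℕ) : 0 ≤ LT q a b k := by
  unfold LT
  positivity

theorem LT_eq (q : ℂ) (a b k : ℕ) :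
    LT q a b k = (((k + 1 : ℕ) : ℝ)) ^ a * U q (k + 1) ^ b * (Real.sqrt ‖q‖) ^ (k + 1) := by
  unfold LT U
  push_cast
  rfl

theorem rho (hd : Dat q c Λ) : Real.sqrt ‖q‖ ≤ 1 ∧ 0 ≤ Real.sqrt ‖q‖ ∧
    ‖q‖ = Real.sqrt ‖q‖ * Real.sqrt ‖q‖ := by
  refine ⟨?_, Real.sqrt_nonneg _, (Real.mul_self_sqrt (norm_nonneg _)).symm⟩
  rw [Real.sqrt_le_one]
  exact hd.q1.le

theorem norm_pow_le (hd : Dat q c Λ) (m : ℕ) : ‖q‖ ^ m ≤ (Real.sqrt ‖q‖) ^ m := by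
  obtain ⟨h1, h2, h3⟩ := rho hd
  refine pow_le_pow_left₀ (norm_nonneg _) ?_ m
  calc ‖q‖ = Real.sqrt ‖q‖ * Real.sqrt ‖q‖ := h3
    _ ≤ Real.sqrt ‖q‖ * 1 := by gcongr
    _ = _ := mul_one _

theorem norm_pow_le2 (hd : Dat q c Λ) {k m : ℕ} (h : k ≤ m) :
    ‖q‖ ^ m ≤ (Real.sqrt ‖q‖) ^ k * (Real.sqrt ‖q‖) ^ m := by
  obtain ⟨h1, h2, h3⟩ := rho hd
  have h4 : ‖q‖ ^ m = (Real.sqrt ‖q‖) ^ m * (Real.sqrt ‖q‖) ^ m := by
    rw [← mul_pow, ← h3]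
  rw [h4]
  have h5 : (Real.sqrt ‖q‖) ^ m ≤ (Real.sqrt ‖q‖) ^ k := pow_le_pow_of_le_one h2 h1 h
  gcongr

/-- the bound of the first kind of terms -/
def GA (q : ℂ) (c Λ : ℝ) (k : ℕ) : ℝ :=
  5000 * Λ ^ 2 * (c ^ 2 * LT q 3 8 k + c * LT q 2 9 k + LT q 1 10 k)

theorem norm_FA (hr : S_evring) (hd : Dat q c Λ) (k : ℕ) : ‖ev q (FA (k + 1))‖ ≤ GA q c Λ k := by
  refine (bd_FA hr hd (by omega : 1 ≤ k + 1)).2.trans ?_
  unfold GA
  rw [LT_eq, LT_eq, LT_eq]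
  have hL := hd.L1
  have hc := hd.c1
  have hx := U_nonneg (q := q) (k + 1)
  have h1 := norm_pow_le hd (k + 1)
  have hc0 : 0 ≤ c := by linarith
  generalize U q (k + 1) = x at *
  calc 5000 * Λ ^ 2 * (‖q‖ ^ (k + 1) * (c ^ 2 * (((k + 1 : ℕ) : ℝ) ^ 3 * x ^ 8) +
      c * (((k + 1 : ℕ) : ℝ) ^ 2 * x ^ 9) + ((k + 1 : ℕ) : ℝ) ^ 1 * x ^ 10))
      ≤ 5000 * Λ ^ 2 * ((Real.sqrt ‖q‖) ^ (k + 1) * (c ^ 2 * (((k + 1 : ℕ) : ℝ) ^ 3 * x ^ 8) +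
      c * (((k + 1 : ℕ) : ℝ) ^ 2 * x ^ 9) + ((k + 1 : ℕ) : ℝ) ^ 1 * x ^ 10)) := by gcongr
    _ = _ := by ring

theorem six {k m x y c Q Pk Pm : ℝ} (hk : 0 ≤ k) (hkm : k ≤ m) (hx : 1 / 2 ≤ x) (hy : 1 / 2 ≤ y)
    (hxc : x ≤ c) (hQ : 0 ≤ Q) (hPk : 0 ≤ Pk) (hPm : 0 ≤ Pm) (h1 : Q ≤ Pm) (h2 : Q ≤ Pk * Pm) :
    k * m * Q * (x * y * S0 x y) ≤ c * (m ^ 2 * y ^ 7 * Pm) + c ^ 2 * (m ^ 2 * y ^ 6 * Pm) +
      2 * ((k ^ 1 * x ^ 4 * Pk) * (m ^ 1 * y ^ 5 * Pm)) +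
      (k ^ 1 * x ^ 4 * Pk) * (m ^ 1 * y ^ 4 * Pm) +
      2 * ((k ^ 1 * x ^ 5 * Pk) * (m ^ 1 * y ^ 4 * Pm)) +
      4 * ((k ^ 1 * x ^ 6 * Pk) * (m ^ 1 * y ^ 4 * Pm)) := by
  have hm : 0 ≤ m := hk.trans hkm
  have hx0 : 0 ≤ x := by linarith
  have hy0 : 0 ≤ y := by linarith
  have hc0 : 0 ≤ c := by linarith
  have t1 : k * m * Q * (x * y ^ 7) ≤ c * (m ^ 2 * y ^ 7 * Pm) := by
    calc k * m * Q * (x * y ^ 7) ≤ m * m * Pm * (c * y ^ 7) := by gcongr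
      _ = _ := by ring
  have t2 : k * m * Q * (x ^ 2 * y ^ 6) ≤ c ^ 2 * (m ^ 2 * y ^ 6 * Pm) := by
    calc k * m * Q * (x ^ 2 * y ^ 6) ≤ m * m * Pm * (c ^ 2 * y ^ 6) := by gcongr
      _ = _ := by ring
  have a3 : x ^ 3 ≤ 2 * x ^ 4 := by
    have : 0 ≤ x ^ 3 := by positivity
    nlinarith
  have t3 : k * m * Q * (x ^ 3 * y ^ 5) ≤
      2 * ((k ^ 1 * x ^ 4 * Pk) * (m ^ 1 * y ^ 5 * Pm)) := by
    calc k * m * Q * (x ^ 3 * y ^ 5) ≤ k * m * (Pk * Pm) * ((2 * x ^ 4) * y ^ 5) := by gcongr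
      _ = _ := by ring
  have t4 : k * m * Q * (x ^ 4 * y ^ 4) ≤ (k ^ 1 * x ^ 4 * Pk) * (m ^ 1 * y ^ 4 * Pm) := by
    calc k * m * Q * (x ^ 4 * y ^ 4) ≤ k * m * (Pk * Pm) * (x ^ 4 * y ^ 4) := by gcongr
      _ = _ := by ring
  have a5 : y ^ 3 ≤ 2 * y ^ 4 := by
    have : 0 ≤ y ^ 3 := by positivity
    nlinarith
  have t5 : k * m * Q * (x ^ 5 * y ^ 3) ≤
      2 * ((k ^ 1 * x ^ 5 * Pk) * (m ^ 1 * y ^ 4 * Pm)) := by
    calc k * m * Q * (x ^ 5 * y ^ 3) ≤ k * m * (Pk * Pm) * (x ^ 5 * (2 * y ^ 4)) := by gcongr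
      _ = _ := by ring
  have a6 : y ^ 2 ≤ 4 * y ^ 4 := pow_le_four hy 2
  have t6 : k * m * Q * (x ^ 6 * y ^ 2) ≤
      4 * ((k ^ 1 * x ^ 6 * Pk) * (m ^ 1 * y ^ 4 * Pm)) := by
    calc k * m * Q * (x ^ 6 * y ^ 2) ≤ k * m * (Pk * Pm) * (x ^ 6 * (4 * y ^ 4)) := by gcongr
      _ = _ := by ring
  have e : k * m * Q * (x * y * S0 x y) = k * m * Q * (x * y ^ 7) + k * m * Q * (x ^ 2 * y ^ 6) +
      k * m * Q * (x ^ 3 * y ^ 5) + k * m * Q * (x ^ 4 * y ^ 4) + k * m * Q * (x ^ 5 * y ^ 3) +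
      k * m * Q * (x ^ 6 * y ^ 2) := by
    unfold S0
    ring
  rw [e]
  linarith

/-- the bound of the second kind of terms -/
def GB (q : ℂ) (c Λ : ℝ) (p : ℕ × ℕ) : ℝ :=
  720 * Λ ^ 2 * c ^ 2 * (c * LT q 2 7 (p.1 + p.2 + 1) + c ^ 2 * LT q 2 6 (p.1 + p.2 + 1) +
    2 * (LT q 1 4 p.1 * LT q 1 5 (p.1 + p.2 + 1)) + LT q 1 4 p.1 * LT q 1 4 (p.1 + p.2 + 1) +
    2 * (LT q 1 5 p.1 * LT q 1 4 (p.1 + p.2 + 1)) + 4 * (LT q 1 6 p.1 * LT q 1 4 (p.1 + p.2 + 1)))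

theorem norm_FB (hr : S_evring) (hd : Dat q c Λ) (p : ℕ × ℕ) :
    ‖ev q (FB (p.1 + 1) (p.2 + 1))‖ ≤ GB q c Λ p := by
  refine (bd_FB hr hd (by omega : 1 ≤ p.1 + 1) (by omega : 1 ≤ p.2 + 1)).2.trans ?_
  have e : p.2 + 1 + (p.1 + 1) = p.1 + p.2 + 1 + 1 := by omega
  rw [e]
  unfold GB
  simp only [LT_eq]
  obtain ⟨r1, r2, r3⟩ := rho hd
  have hL := hd.L1
  have h := six (k := ((p.1 + 1 : ℕ) : ℝ)) (m := ((p.1 + p.2 + 1 + 1 : ℕ) : ℝ))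
    (x := U q (p.1 + 1)) (y := U q (p.1 + p.2 + 1 + 1)) (c := c) (Q := ‖q‖ ^ (p.1 + p.2 + 1 + 1))
    (Pk := (Real.sqrt ‖q‖) ^ (p.1 + 1)) (Pm := (Real.sqrt ‖q‖) ^ (p.1 + p.2 + 1 + 1))
    (by positivity) (by exact_mod_cast (by omega : p.1 + 1 ≤ p.1 + p.2 + 1 + 1))
    (U_half hd (by omega)) (U_half hd (by omega)) (U_le hd (by omega)) (by positivity)
    (by positivity) (by positivity) (norm_pow_le hd _) (norm_pow_le2 hd (by omega))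
  exact mul_le_mul_of_nonneg_left h (by positivity)

/-- summable with a bound of the sum -/
structure SB {ι : Type} (G : ι → ℝ) (B : ℝ) : Prop where
  nn : ∀ i, 0 ≤ G i
  sm : Summable G
  le : ∑' i, G i ≤ B

section SB

variable {ι : Type} {G G' : ι → ℝ} {B B' : ℝ}

theorem SB.B_nonneg (h : SB G B) : 0 ≤ B := (tsum_nonneg h.nn).trans h.le

theorem SB.mono (h : SB G B) (hB : B ≤ B') : SB G B' := ⟨h.nn, h.sm, h.le.trans hB⟩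

theorem SB.add (h : SB G B) (h' : SB G' B') : SB (fun i => G i + G' i) (B + B') :=
  ⟨fun i => add_nonneg (h.nn i) (h'.nn i), h.sm.add h'.sm, by
    rw [h.sm.tsum_add h'.sm]
    exact add_le_add h.le h'.le⟩

theorem SB.smul (h : SB G B) {t : ℝ} (ht : 0 ≤ t) : SB (fun i => t * G i) (t * B) :=
  ⟨fun i => mul_nonneg ht (h.nn i), h.sm.mul_left t, by
    rw [tsum_mul_left]
    exact mul_le_mul_of_nonneg_left h.le ht⟩

theorem SB.norm_le (h : SB G B) (f : ι → ℂ) (hf : ∀ i, ‖f i‖ ≤ G i) : ‖∑' i, f i‖ ≤ B :=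
  (tsum_of_norm_bounded h.sm.hasSum hf).trans h.le

end SB

theorem SB_anti {h : ℕ → ℝ} (h0 : ∀ s, 0 ≤ h s) {B : ℝ}
    (hB : SB (fun s : ℕ => ((s : ℝ) + 1) * h (s + 1)) B) :
    SB (fun p : ℕ × ℕ => h (p.1 + p.2 + 1)) B := by
  have e : ∀ x : (Σ n : ℕ, Finset.HasAntidiagonal.antidiagonal n),
      ((fun p : ℕ × ℕ => h (p.1 + p.2 + 1)) ∘ Finset.HasAntidiagonal.sigmaAntidiagonalEquivProd) x =
        h (x.1 + 1) := by
    rintro ⟨n, ⟨p, hp⟩⟩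
    simp only [Function.comp_apply, Finset.HasAntidiagonal.sigmaAntidiagonalEquivProd_apply]
    rw [Finset.HasAntidiagonal.mem_antidiagonal] at hp
    rw [hp]
  have e' : ((fun p : ℕ × ℕ => h (p.1 + p.2 + 1)) ∘ Finset.HasAntidiagonal.sigmaAntidiagonalEquivProd) =
      fun x : (Σ n : ℕ, Finset.HasAntidiagonal.antidiagonal n) => h (x.1 + 1) := funext e
  have hin : ∀ n : ℕ, ∑' _y : Finset.HasAntidiagonal.antidiagonal n, h (n + 1) = ((n : ℝ) + 1) * h (n + 1) := by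
    intro n
    rw [tsum_fintype, Finset.sum_const, Finset.card_univ, Fintype.card_coe,
      Finset.Nat.card_antidiagonal, nsmul_eq_mul]
    push_cast
    ring
  have hs : Summable fun x : (Σ n : ℕ, Finset.HasAntidiagonal.antidiagonal n) => h (x.1 + 1) := by
    rw [summable_sigma_of_nonneg (fun x => h0 _)]
    refine ⟨fun n => Summable.of_finite, ?_⟩
    simp only [hin]
    exact hB.sm
  refine ⟨fun p => h0 _, ?_, ?_⟩
  · rw [← Finset.HasAntidiagonal.sigmaAntidiagonalEquivProd.summable_iff, e']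
    exact hs
  · rw [← Finset.HasAntidiagonal.sigmaAntidiagonalEquivProd.tsum_eq]
    have e2 : ∑' c : (Σ n : ℕ, Finset.HasAntidiagonal.antidiagonal n),
        (fun p : ℕ × ℕ => h (p.1 + p.2 + 1)) (Finset.HasAntidiagonal.sigmaAntidiagonalEquivProd c) =
        ∑' x : (Σ n : ℕ, Finset.HasAntidiagonal.antidiagonal n), h (x.1 + 1) := tsum_congr e
    rw [e2, hs.tsum_sigma]
    simp only [hin]
    exact hB.le

theorem SB_prod {f g : ℕ → ℝ} {F G : ℝ} (hf : SB f F) (hg : SB g G) :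
    SB (fun p : ℕ × ℕ => f p.1 * g (p.1 + p.2 + 1)) (F * G) := by
  have hs : Summable fun p : ℕ × ℕ => f p.1 * g p.2 := hf.sm.mul_of_nonneg hg.sm hf.nn hg.nn
  have hinj : Function.Injective fun p : ℕ × ℕ => (p.1, p.1 + p.2 + 1) := by
    rintro ⟨a, b⟩ ⟨a', b'⟩ h
    simp only [Prod.mk.injEq] at h
    obtain ⟨h1, h2⟩ := h
    subst h1
    exact Prod.ext rfl (by simp only; omega)
  refine ⟨fun p => mul_nonneg (hf.nn _) (hg.nn _), hs.comp_injective hinj, ?_⟩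
  have h1 : ∑' p : ℕ × ℕ, f p.1 * g (p.1 + p.2 + 1) ≤ ∑' p : ℕ × ℕ, f p.1 * g p.2 :=
    tsum_comp_le_tsum_of_inj hs (fun p => mul_nonneg (hf.nn _) (hg.nn _)) hinj
  refine h1.trans ?_
  rw [← hf.sm.tsum_mul_tsum hg.sm hs]
  exact mul_le_mul hf.le hg.le (tsum_nonneg hg.nn) hf.B_nonneg

/-- the bounds of the lattice sums -/
structure Lat (q : ℂ) (D N : ℝ) : Prop where
  D0 : 0 ≤ D
  N1 : 1 ≤ N
  h38 : SB (LT q 3 8) (D * N ^ 11)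
  h29 : SB (LT q 2 9) (D * N ^ 11)
  h10 : SB (LT q 1 10) (D * N ^ 11)
  h37 : SB (LT q 3 7) (D * N ^ 10)
  h36 : SB (LT q 3 6) (D * N ^ 9)
  h14 : SB (LT q 1 4) (D * N ^ 5)
  h15 : SB (LT q 1 5) (D * N ^ 6)
  h16 : SB (LT q 1 6) (D * N ^ 7)

theorem SB_diag {a b : ℕ} {B : ℝ} (h : SB (LT q (a + 1) b) B) :
    SB (fun p : ℕ × ℕ => LT q a b (p.1 + p.2 + 1)) B := by
  refine SB_anti (fun s => LT_nonneg q a b s) ?_
  have h1 : ∀ s : ℕ, ((s : ℝ) + 1) * LT q a b (s + 1) ≤ LT q (a + 1) b (s + 1) := by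
    intro s
    unfold LT
    have h2 : ((s : ℝ) + 1) ≤ ((s + 1 : ℕ) : ℝ) + 1 := by
      push_cast
      linarith
    calc ((s : ℝ) + 1) * ((((s + 1 : ℕ) : ℝ) + 1) ^ a * (‖1 - q ^ (s + 1 + 1)‖⁻¹) ^ b *
          (Real.sqrt ‖q‖) ^ (s + 1 + 1))
        ≤ (((s + 1 : ℕ) : ℝ) + 1) * ((((s + 1 : ℕ) : ℝ) + 1) ^ a *
          (‖1 - q ^ (s + 1 + 1)‖⁻¹) ^ b * (Real.sqrt ‖q‖) ^ (s + 1 + 1)) := by gcongr
      _ = _ := by ring
  have hs : Summable fun s => LT q (a + 1) b (s + 1) := (summable_nat_add_iff 1).2 h.sm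
  have h0 : ∀ s : ℕ, 0 ≤ ((s : ℝ) + 1) * LT q a b (s + 1) := fun s =>
    mul_nonneg (by positivity) (LT_nonneg q a b _)
  have hs' := Summable.of_nonneg_of_le h0 h1 hs
  refine ⟨h0, hs', (hs'.tsum_le_tsum h1 hs).trans ?_⟩
  refine le_trans ?_ h.le
  exact tsum_comp_le_tsum_of_inj h.sm h.nn (fun x y hxy => Nat.succ_injective hxy)

theorem SB_GA (hd : Dat q c Λ) {D N : ℝ} (hl : Lat q D N) :
    SB (GA q c Λ) (5000 * Λ ^ 2 * (c ^ 2 * (D * N ^ 11) + c * (D * N ^ 11) + D * N ^ 11)) := by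
  have hL := hd.L1
  have hc := hd.c1
  have hc0 : 0 ≤ c := by linarith
  exact (((hl.h38.smul (by positivity : 0 ≤ c ^ 2)).add (hl.h29.smul hc0)).add hl.h10).smul
    (by positivity)

theorem SB_GB (hd : Dat q c Λ) {D N : ℝ} (hl : Lat q D N) :
    SB (GB q c Λ) (720 * Λ ^ 2 * c ^ 2 * (c * (D * N ^ 10) + c ^ 2 * (D * N ^ 9) +
      2 * ((D * N ^ 5) * (D * N ^ 6)) + (D * N ^ 5) * (D * N ^ 5) +
      2 * ((D * N ^ 6) * (D * N ^ 5)) + 4 * ((D * N ^ 7) * (D * N ^ 5)))) := by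
  have hL := hd.L1
  have hc := hd.c1
  have hc0 : 0 ≤ c := by linarith
  exact (((((((SB_diag hl.h37).smul hc0).add ((SB_diag hl.h36).smul
    (by positivity : 0 ≤ c ^ 2))).add ((SB_prod hl.h14 hl.h15).smul
    (by norm_num : (0 : ℝ) ≤ 2))).add (SB_prod hl.h14 hl.h14)).add
    ((SB_prod hl.h15 hl.h14).smul (by norm_num : (0 : ℝ) ≤ 2))).add
    ((SB_prod hl.h16 hl.h14).smul (by norm_num : (0 : ℝ) ≤ 4))).smul (by positivity)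

end Growth14

open Growth14 in
theorem growth14 (hr : S_evring) (ha : S_atoms) (hq : S_qN) (hl : S_lat) (hF : S_evF0) :
    S_growthW 14 := by
  intro τ hτ
  obtain ⟨ha1, ha2⟩ := ha
  choose Cj hCj0 hCj using ha2
  obtain ⟨Λ, hΛ⟩ : ∃ Λ : ℝ, Λ = 1 + ∑ j ∈ Finset.range 8, Cj j := ⟨_, rfl⟩
  have hΛ1 : 1 ≤ Λ := by
    rw [hΛ]
    have : 0 ≤ ∑ j ∈ Finset.range 8, Cj j := Finset.sum_nonneg fun j _ => hCj0 j
    linarith
  have hΛj : ∀ j < 8, Cj j ≤ Λ := by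
    intro j hj
    rw [hΛ]
    have := Finset.single_le_sum (f := Cj) (fun i _ => hCj0 i) (Finset.mem_range.2 hj)
    linarith
  obtain ⟨hq1, ⟨C0, hC0⟩, -⟩ := hq τ hτ
  obtain ⟨C, hC⟩ : ∃ C : ℝ, C = max C0 1 := ⟨_, rfl⟩
  have hC1 : 1 ≤ C := by rw [hC]; exact le_max_right _ _
  have hdat : ∀ N : ℕ, 1 ≤ N → Dat (qN τ N) (C * N) Λ := by
    intro N hN
    have hN1 : (1 : ℝ) ≤ N := by exact_mod_cast hN
    refine ⟨hq1 N, by nlinarith, hΛ1, ?_, ?_, ?_, ?_⟩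
    · intro k hk
      refine (hC0 N hN k hk).trans ?_
      rw [hC]
      gcongr
      exact le_max_left _ _
    · intro k hk
      have h1 : ‖1 - qN τ N ^ k‖ ≤ 2 := by
        refine (norm_sub_le _ _).trans ?_
        rw [norm_one, norm_pow]
        have := pow_le_one₀ (n := k) (norm_nonneg _) (hq1 N).le
        linarith
      have h2 : 0 < ‖1 - qN τ N ^ k‖ := by
        rw [norm_pos_iff, sub_ne_zero]
        intro h3
        have h4 : ‖qN τ N ^ k‖ = 1 := by rw [← h3, norm_one]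
        rw [norm_pow] at h4
        have h5 := pow_lt_one₀ (norm_nonneg _) (hq1 N) (by omega : k ≠ 0)
        linarith
      rw [one_div]
      exact inv_anti₀ h2 h1
    · intro k hk
      obtain ⟨h1, h2⟩ := ha1 _ (hq1 N) k hk
      exact ⟨h1, by rw [h2, norm_inv]⟩
    · intro j hj m hm
      obtain ⟨h1, h2⟩ := hCj j _ (hq1 N) m hm
      refine ⟨h1, h2.trans ?_⟩
      have := hΛj j hj
      gcongr
  -- the lattice constants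
  obtain ⟨d1, hd1⟩ := hl τ hτ 3 8 (by norm_num)
  obtain ⟨d2, hd2⟩ := hl τ hτ 2 9 (by norm_num)
  obtain ⟨d3, hd3⟩ := hl τ hτ 1 10 (by norm_num)
  obtain ⟨d4, hd4⟩ := hl τ hτ 3 7 (by norm_num)
  obtain ⟨d5, hd5⟩ := hl τ hτ 3 6 (by norm_num)
  obtain ⟨d6, hd6⟩ := hl τ hτ 1 4 (by norm_num)
  obtain ⟨d7, hd7⟩ := hl τ hτ 1 5 (by norm_num)
  obtain ⟨d8, hd8⟩ := hl τ hτ 1 6 (by norm_num)
  obtain ⟨D, hD⟩ : ∃ D : ℝ, D = |d1| + |d2| + |d3| + |d4| + |d5| + |d6| + |d7| + |d8| := ⟨_, rfl⟩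
  have hD0 : 0 ≤ D := by rw [hD]; positivity
  have hlat : ∀ N : ℕ, 1 ≤ N → Lat (qN τ N) D N := by
    intro N hN
    have hN1 : (1 : ℝ) ≤ N := by exact_mod_cast hN
    have key : ∀ (a b : ℕ) (d : ℝ) (e : ℕ), |d| ≤ D → a + b = e →
        (Summable (fun k : ℕ => ((k : ℝ) + 1) ^ a * (‖1 - qN τ N ^ (k + 1)‖⁻¹) ^ b *
          (Real.sqrt ‖qN τ N‖) ^ (k + 1)) ∧
        ∑' k : ℕ, ((k : ℝ) + 1) ^ a * (‖1 - qN τ N ^ (k + 1)‖⁻¹) ^ b *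
          (Real.sqrt ‖qN τ N‖) ^ (k + 1) ≤ d * (N : ℝ) ^ (a + b)) →
        SB (LT (qN τ N) a b) (D * (N : ℝ) ^ e) := by
      intro a b d e hdD hab h
      refine ⟨fun k => LT_nonneg _ _ _ _, h.1, h.2.trans ?_⟩
      rw [← hab]
      have := (le_abs_self d).trans hdD
      gcongr
    have h1 := abs_nonneg d1
    have h2 := abs_nonneg d2
    have h3 := abs_nonneg d3
    have h4 := abs_nonneg d4
    have h5 := abs_nonneg d5
    have h6 := abs_nonneg d6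
    have h7 := abs_nonneg d7
    have h8 := abs_nonneg d8
    exact ⟨hD0, hN1, key 3 8 d1 11 (by rw [hD]; linarith) rfl (hd1 N hN),
      key 2 9 d2 11 (by rw [hD]; linarith) rfl (hd2 N hN),
      key 1 10 d3 11 (by rw [hD]; linarith) rfl (hd3 N hN),
      key 3 7 d4 10 (by rw [hD]; linarith) rfl (hd4 N hN),
      key 3 6 d5 9 (by rw [hD]; linarith) rfl (hd5 N hN),
      key 1 4 d6 5 (by rw [hD]; linarith) rfl (hd6 N hN),
      key 1 5 d7 6 (by rw [hD]; linarith) rfl (hd7 N hN),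
      key 1 6 d8 7 (by rw [hD]; linarith) rfl (hd8 N hN)⟩
  refine ⟨5000 * Λ ^ 2 * (C ^ 2 * D + C * D + D) +
    720 * Λ ^ 2 * C ^ 2 * (C * D + C ^ 2 * D + 2 * (D * D) + D * D + 2 * (D * D) +
      4 * (D * D)), fun N hN => ?_⟩
  have hN1 : (1 : ℝ) ≤ N := by exact_mod_cast hN
  have hdN := hdat N hN
  have hlN := hlat N hN
  obtain ⟨-, -, hev⟩ := hF (qN τ N) (hq1 N)
  rw [hev]
  refine (norm_add_le _ _).trans ?_
  have bA := (SB_GA hdN hlN).norm_le (fun k => ev (qN τ N) (FA (k + 1))) (norm_FA hr hdN)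
  have bB := (SB_GB hdN hlN).norm_le (fun p : ℕ × ℕ => ev (qN τ N) (FB (p.1 + 1) (p.2 + 1)))
    (norm_FB hr hdN)
  refine (add_le_add bA bB).trans ?_
  have hC0' : 0 ≤ C := by linarith
  have hL0 : 0 ≤ Λ := by linarith
  have hpow : ∀ i ≤ 14, (N : ℝ) ^ i ≤ (N : ℝ) ^ 14 := fun i hi => pow_le_pow_right₀ hN1 hi
  have p11 := hpow 11 (by norm_num)
  have p12 := hpow 12 (by norm_num)
  have p13 := hpow 13 (by norm_num)
  calc 5000 * Λ ^ 2 * ((C * N) ^ 2 * (D * (N : ℝ) ^ 11) + (C * N) * (D * (N : ℝ) ^ 11) +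
        D * (N : ℝ) ^ 11) +
      720 * Λ ^ 2 * (C * N) ^ 2 * ((C * N) * (D * (N : ℝ) ^ 10) + (C * N) ^ 2 * (D * (N : ℝ) ^ 9) +
      2 * ((D * (N : ℝ) ^ 5) * (D * (N : ℝ) ^ 6)) + (D * (N : ℝ) ^ 5) * (D * (N : ℝ) ^ 5) +
      2 * ((D * (N : ℝ) ^ 6) * (D * (N : ℝ) ^ 5)) + 4 * ((D * (N : ℝ) ^ 7) * (D * (N : ℝ) ^ 5)))
      = 5000 * Λ ^ 2 * (C ^ 2 * D * (N : ℝ) ^ 13 + C * D * (N : ℝ) ^ 12 + D * (N : ℝ) ^ 11) +
        720 * Λ ^ 2 * C ^ 2 * (C * D * (N : ℝ) ^ 13 + C ^ 2 * D * (N : ℝ) ^ 13 +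
        2 * (D * D) * (N : ℝ) ^ 13 + D * D * (N : ℝ) ^ 12 + 2 * (D * D) * (N : ℝ) ^ 13 +
        4 * (D * D) * (N : ℝ) ^ 14) := by ring
    _ ≤ 5000 * Λ ^ 2 * (C ^ 2 * D * (N : ℝ) ^ 14 + C * D * (N : ℝ) ^ 14 + D * (N : ℝ) ^ 14) +
        720 * Λ ^ 2 * C ^ 2 * (C * D * (N : ℝ) ^ 14 + C ^ 2 * D * (N : ℝ) ^ 14 +
        2 * (D * D) * (N : ℝ) ^ 14 + D * D * (N : ℝ) ^ 14 + 2 * (D * D) * (N : ℝ) ^ 14 +
        4 * (D * D) * (N : ℝ) ^ 14) := by gcongr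
    _ = _ := by ring

end

end Pool.Agent.H946.Z
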