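import Pool.Agent.H946.Z.Basic
import Pool.Agent.H946.Z.Stm2
set_option autoImplicit false

/-!
# MP_d9449f_ag : lattice bound (Z30) (by helper297; the lemmas `lowb`, `norm_qN`, `ns_pos`,
`norm_le` are those of helper282's file on `q_N`)
-/

namespace Pool.Agent.H946.Z

namespace Lat

open Complex

theorem lowb : ∃ c : ℝ, 0 < c ∧ ∀ ξ : ℂ, |ξ.re| ≤ 1 / 2 → 0 ≤ ξ.im → ξ.im ≤ 1 / 2 →
    c * ‖ξ‖ ≤ ‖1 - exp (2 * Real.pi * I * ξ)‖ := by
  have hpi := Real.pi_pos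
  let K : Set ℂ := {ξ | |ξ.re| ≤ 1 / 2 ∧ 0 ≤ ξ.im ∧ ξ.im ≤ 1 / 2 ∧ 1 / (4 * Real.pi) ≤ ‖ξ‖}
  have hb : ∀ ξ : ℂ, |ξ.re| ≤ 1 / 2 → 0 ≤ ξ.im → ξ.im ≤ 1 / 2 → ‖ξ‖ ≤ 1 := by
    intro ξ h1 h2 h3
    refine (Complex.norm_le_abs_re_add_abs_im ξ).trans ?_
    rw [abs_of_nonneg h2]
    linarith
  have hKc : IsCompact K := by
    refine Metric.isCompact_of_isClosed_isBounded ?_ ?_
    · have e1 : IsClosed {ξ : ℂ | |ξ.re| ≤ 1 / 2} := isClosed_le (by fun_prop) (by fun_prop)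
      have e2 : IsClosed {ξ : ℂ | 0 ≤ ξ.im} := isClosed_le (by fun_prop) (by fun_prop)
      have e3 : IsClosed {ξ : ℂ | ξ.im ≤ 1 / 2} := isClosed_le (by fun_prop) (by fun_prop)
      have e4 : IsClosed {ξ : ℂ | 1 / (4 * Real.pi) ≤ ‖ξ‖} :=
        isClosed_le (by fun_prop) (by fun_prop)
      exact e1.inter (e2.inter (e3.inter e4))
    · refine (Metric.isBounded_closedBall (x := (0 : ℂ)) (r := 1)).subset fun ξ hξ => ?_
      rw [mem_closedBall_zero_iff]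
      exact hb ξ hξ.1 hξ.2.1 hξ.2.2.1
  have hne : ∀ ξ ∈ K, 0 < ‖1 - exp (2 * Real.pi * I * ξ)‖ := by
    rintro ξ ⟨h1, h2, h3, h4⟩
    rw [norm_pos_iff, sub_ne_zero]
    intro h5
    obtain ⟨n, hn⟩ := Complex.exp_eq_one_iff.1 h5.symm
    have h6 : ξ = n := by
      have h7 : (2 * Real.pi * I : ℂ) ≠ 0 := Complex.two_pi_I_ne_zero
      apply mul_left_cancel₀ h7
      rw [hn]
      ring
    have h8 : n = 0 := by
      have h9 : |(n : ℝ)| ≤ 1 / 2 := by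
        rw [h6] at h1
        simpa using h1
      by_contra h10
      have h11 : (1 : ℝ) ≤ |(n : ℝ)| := by
        exact_mod_cast Int.one_le_abs h10
      linarith
    rw [h6, h8] at h4
    simp only [Int.cast_zero, norm_zero] at h4
    have : 0 < 1 / (4 * Real.pi) := by positivity
    linarith
  obtain ⟨c1, hc1, hK⟩ : ∃ c1 : ℝ, 0 < c1 ∧ ∀ ξ ∈ K, c1 ≤ ‖1 - exp (2 * Real.pi * I * ξ)‖ := by
    rcases K.eq_empty_or_nonempty with hem | hnem
    · exact ⟨1, one_pos, fun ξ hξ => by rw [hem] at hξ; exact absurd hξ (Set.notMem_empty ξ)⟩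
    · obtain ⟨ξ0, hξ0, hmin⟩ := hKc.exists_isMinOn hnem
        (f := fun ξ : ℂ => ‖1 - exp (2 * Real.pi * I * ξ)‖) (by fun_prop)
      exact ⟨_, hne ξ0 hξ0, fun ξ hξ => hmin hξ⟩
  refine ⟨min c1 1, lt_min hc1 one_pos, fun ξ h1 h2 h3 => ?_⟩
  by_cases h4 : 1 / (4 * Real.pi) ≤ ‖ξ‖
  · have h5 := hK ξ ⟨h1, h2, h3, h4⟩
    have h6 := hb ξ h1 h2 h3
    have h7 : min c1 1 ≤ c1 := min_le_left _ _
    have h8 : (0 : ℝ) < min c1 1 := lt_min hc1 one_pos
    have h9 := norm_nonneg ξ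
    nlinarith
  · rw [not_le] at h4
    set x : ℂ := 2 * Real.pi * I * ξ with hx
    have hxn : ‖x‖ = 2 * Real.pi * ‖ξ‖ := by
      rw [hx]
      simp [abs_of_pos hpi]
    have hx2 : ‖x‖ ≤ 1 / 2 := by
      rw [hxn]
      rw [lt_div_iff₀ (by positivity)] at h4
      linarith
    have h5 := Complex.norm_exp_sub_one_sub_id_le (x := x) (by linarith)
    have h6 : ‖x‖ ≤ ‖1 - exp x‖ + ‖exp x - 1 - x‖ := by
      have : x = -(1 - exp x) - (exp x - 1 - x) := by ring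
      calc ‖x‖ = ‖-(1 - exp x) - (exp x - 1 - x)‖ := by rw [← this]
        _ ≤ _ := by
          refine (norm_sub_le _ _).trans ?_
          rw [norm_neg]
    have h7 : ‖x‖ / 2 ≤ ‖1 - exp x‖ := by nlinarith [norm_nonneg x]
    have h8 : min c1 1 ≤ 1 := min_le_right _ _
    have h9 := norm_nonneg ξ
    have h10 := Real.pi_gt_three
    nlinarith

theorem norm_qN (τ : ℂ) (N : ℕ) :
    ‖qN τ N‖ = Real.exp (-(2 * Real.pi * τ.im / normSq (τ + N))) := by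
  unfold qN
  rw [Complex.norm_exp]
  congr 1
  have h1 : (2 * Real.pi * I * (-1 / (τ + N)) : ℂ).re = -(2 * Real.pi * (-1 / (τ + N) : ℂ).im) := by
    have : (2 * Real.pi * I * (-1 / (τ + N)) : ℂ) = ((2 * Real.pi : ℝ) : ℂ) * (I * (-1 / (τ + N))) := by
      push_cast; ring
    rw [this, Complex.re_ofReal_mul, Complex.I_mul_re]
    ring
  rw [h1]
  have h2 : (-1 / (τ + N) : ℂ).im = τ.im / normSq (τ + N) := by
    rw [neg_div, one_div, Complex.neg_im, Complex.inv_im]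
    simp
    ring
  rw [h2]
  ring

theorem ns_pos {τ : ℂ} (hτ : 0 < τ.im) (N : ℕ) : 0 < normSq (τ + N) := by
  rw [normSq_pos]
  intro h
  have := congrArg Complex.im h
  simp at this
  linarith

theorem norm_le {τ : ℂ} {N : ℕ} (hN : 1 ≤ N) : ‖τ + N‖ ≤ (‖τ‖ + 1) * N := by
  refine (norm_add_le _ _).trans ?_
  rw [Complex.norm_natCast]
  have : (1 : ℝ) ≤ N := by exact_mod_cast hN
  nlinarith [norm_nonneg τ]


/-- geometric sums with polynomial weights. -/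
theorem geo (a : ℕ) (x M : ℝ) (hx0 : 0 ≤ x) (hx1 : x < 1) (hM : 1 / (1 - x) ≤ M) :
    Summable (fun k : ℕ => ((k : ℝ) + 1) ^ a * x ^ (k + 1)) ∧
    ∑' k : ℕ, ((k : ℝ) + 1) ^ a * x ^ (k + 1) ≤ a.factorial * M ^ (a + 1) := by
  have hxn : ‖x‖ < 1 := by rw [Real.norm_of_nonneg hx0]; exact hx1
  have hs2 := summable_choose_mul_geometric_of_norm_lt_one a hxn
  have hle : ∀ k : ℕ, ((k : ℝ) + 1) ^ a * x ^ (k + 1) ≤
      (a.factorial : ℝ) * (((k + a).choose a : ℝ) * x ^ k) := by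
    intro k
    rw [← mul_assoc]
    have h1 : (k + 1) ^ a ≤ a.factorial * (k + a).choose a := by
      rw [← Nat.ascFactorial_eq_factorial_mul_choose]
      exact Nat.pow_succ_le_ascFactorial (k + 1) a
    have h2 : ((k : ℝ) + 1) ^ a ≤ a.factorial * (k + a).choose a := by exact_mod_cast h1
    have h3 : x ^ (k + 1) ≤ x ^ k := pow_le_pow_of_le_one hx0 hx1.le (Nat.le_succ k)
    have h4 : 0 ≤ x ^ (k + 1) := pow_nonneg hx0 _
    exact mul_le_mul h2 h3 h4 (by positivity)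
  have hs1 : Summable (fun k : ℕ => ((k : ℝ) + 1) ^ a * x ^ (k + 1)) :=
    Summable.of_nonneg_of_le (fun k => by positivity) hle (hs2.mul_left _)
  refine ⟨hs1, ?_⟩
  calc ∑' k : ℕ, ((k : ℝ) + 1) ^ a * x ^ (k + 1)
      ≤ ∑' k : ℕ, (a.factorial : ℝ) * (((k + a).choose a : ℝ) * x ^ k) :=
        hs1.tsum_le_tsum hle (hs2.mul_left _)
    _ = (a.factorial : ℝ) * (1 / (1 - x) ^ (a + 1)) := by
        rw [tsum_mul_left, tsum_choose_mul_geometric_of_norm_lt_one a hxn]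
    _ = (a.factorial : ℝ) * (1 / (1 - x)) ^ (a + 1) := by rw [div_pow, one_pow]
    _ ≤ (a.factorial : ℝ) * M ^ (a + 1) := by
        have : 0 ≤ 1 / (1 - x) := by
          have : 0 < 1 - x := by linarith
          positivity
        gcongr

/-- pointwise bound for `1/(1-q^k)`. -/
theorem ptw (τ : ℂ) (hτ : 0 < τ.im) : ∃ A : ℝ, 0 < A ∧ ∀ N : ℕ, 1 ≤ N → ∀ k : ℕ, 1 ≤ k →
    ‖1 - qN τ N ^ k‖⁻¹ ≤ 2 ∨
    ∃ m : ℤ, ‖1 - qN τ N ^ k‖⁻¹ ≤ A * N / ‖(k : ℂ) + m * (τ + N)‖ := by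
  have hpi := Real.pi_pos
  obtain ⟨c, hc, hlow⟩ := lowb
  refine ⟨(‖τ‖ + 1) / c, by positivity, fun N hN k hk => ?_⟩
  have hN1 : (1 : ℝ) ≤ N := by exact_mod_cast hN
  have hk1 : (1 : ℝ) ≤ k := by exact_mod_cast hk
  have hz0 : (τ + N : ℂ) ≠ 0 := normSq_pos.1 (ns_pos hτ N)
  have hzn : 0 < ‖(τ + N : ℂ)‖ := norm_pos_iff.2 hz0
  set z : ℂ := τ + N with hz
  set w : ℂ := -k / z with hw
  have hqk : qN τ N ^ k = exp (2 * Real.pi * I * w) := by
    unfold qN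
    rw [← Complex.exp_nat_mul]
    congr 1
    rw [hw, ← hz]
    ring
  have hwim : w.im = k * τ.im / normSq z := by
    rw [hw, neg_div, Complex.neg_im, div_eq_mul_inv, ← Complex.ofReal_natCast,
      Complex.im_ofReal_mul, Complex.inv_im]
    have : z.im = τ.im := by rw [hz]; simp
    rw [this]
    ring
  have hwim0 : 0 < w.im := by
    rw [hwim]
    have := ns_pos hτ N
    positivity
  rw [hqk]
  by_cases h1 : w.im ≤ 1 / 2
  · right
    set m : ℤ := round w.re with hm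
    refine ⟨m, ?_⟩
    set ξ : ℂ := w - m with hξ
    have hre : |ξ.re| ≤ 1 / 2 := by
      rw [hξ, Complex.sub_re, Complex.intCast_re]
      exact abs_sub_round _
    have him : ξ.im = w.im := by
      rw [hξ, Complex.sub_im, Complex.intCast_im, sub_zero]
    have h2 := hlow ξ hre (by rw [him]; exact hwim0.le) (by rw [him]; exact h1)
    have h3 : exp (2 * Real.pi * I * w) = exp (2 * Real.pi * I * ξ) := by
      rw [hξ, Complex.exp_eq_exp_iff_exists_int]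
      exact ⟨m, by ring⟩
    rw [h3]
    have hkm : (k : ℂ) + m * z ≠ 0 := by
      intro h0
      have h7 : ((k : ℂ) + m * z).im = m * τ.im := by
        rw [hz]
        simp
      rw [h0] at h7
      simp only [Complex.zero_im] at h7
      have h8 : (m : ℝ) = 0 := by
        rcases mul_eq_zero.1 h7.symm with h | h
        · exact h
        · exact absurd h hτ.ne'
      have h9 : m = 0 := by exact_mod_cast h8
      rw [h9] at h0
      simp only [Int.cast_zero, zero_mul, add_zero] at h0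
      have : (k : ℝ) = 0 := by exact_mod_cast h0
      linarith
    have hkm' : 0 < ‖(k : ℂ) + m * z‖ := norm_pos_iff.2 hkm
    have h5 : ‖ξ‖ = ‖(k : ℂ) + m * z‖ / ‖z‖ := by
      have h5 : ξ = -(k + m * z) / z := by
        rw [hξ, hw]
        field_simp
        ring
      rw [h5, norm_div, norm_neg]
    rw [h5] at h2
    have h6 : 0 < c * (‖(k : ℂ) + m * z‖ / ‖z‖) := by positivity
    calc ‖1 - exp (2 * Real.pi * I * ξ)‖⁻¹ ≤ (c * (‖(k : ℂ) + m * z‖ / ‖z‖))⁻¹ := by gcongr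
      _ = ‖z‖ / c / ‖(k : ℂ) + m * z‖ := by field_simp
      _ ≤ ((‖τ‖ + 1) * N) / c / ‖(k : ℂ) + m * z‖ := by
        gcongr
        exact norm_le hN
      _ = (‖τ‖ + 1) / c * N / ‖(k : ℂ) + m * z‖ := by ring
  · left
    rw [not_le] at h1
    have h2 : ‖exp (2 * Real.pi * I * w)‖ ≤ 1 / 2 := by
      rw [Complex.norm_exp]
      have h3 : (2 * Real.pi * I * w : ℂ).re = -(2 * Real.pi * w.im) := by
        have : (2 * Real.pi * I * w : ℂ) = ((2 * Real.pi : ℝ) : ℂ) * (I * w) := by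
          push_cast; ring
        rw [this, Complex.re_ofReal_mul, Complex.I_mul_re]
        ring
      rw [h3]
      have h4 : -(2 * Real.pi * w.im) ≤ -1 := by
        have := Real.pi_gt_three
        nlinarith
      refine (Real.exp_le_exp.2 h4).trans ?_
      rw [Real.exp_neg, one_div]
      have h5 : (2 : ℝ) ≤ Real.exp 1 := by
        have := Real.add_one_le_exp (1 : ℝ)
        linarith
      gcongr
    have h3 : 1 / 2 ≤ ‖1 - exp (2 * Real.pi * I * w)‖ := by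
      have := norm_sub_norm_le (1 : ℂ) (exp (2 * Real.pi * I * w))
      rw [norm_one] at this
      linarith
    calc ‖1 - exp (2 * Real.pi * I * w)‖⁻¹ ≤ (1 / 2)⁻¹ := by gcongr
      _ = 2 := by norm_num

/-- `1/(1-ρ) ≤ C N²` for `ρ = √|q_N|`. -/
theorem rho (τ : ℂ) (hτ : 0 < τ.im) : ∃ C : ℝ, 0 < C ∧ ∀ N : ℕ, 1 ≤ N →
    Real.sqrt ‖qN τ N‖ < 1 ∧ 1 / (1 - Real.sqrt ‖qN τ N‖) ≤ C * (N : ℝ) ^ 2 := by
  have hpi := Real.pi_pos
  set c : ℝ := Real.pi * τ.im / (‖τ‖ + 1) ^ 2 with hc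
  have hc0 : 0 < c := by positivity
  refine ⟨(1 + c) / c, by positivity, fun N hN => ?_⟩
  have hN1 : (1 : ℝ) ≤ N := by exact_mod_cast hN
  have hns := ns_pos hτ N
  set t : ℝ := Real.pi * τ.im / normSq (τ + N) with ht
  have ht0 : 0 < t := by positivity
  have hxt : Real.sqrt ‖qN τ N‖ = Real.exp (-t) := by
    rw [norm_qN]
    have : Real.exp (-(2 * Real.pi * τ.im / normSq (τ + N))) = Real.exp (-t) ^ 2 := by
      rw [← Real.exp_nat_mul]
      congr 1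
      rw [ht]
      push_cast
      ring
    rw [this, Real.sqrt_sq (Real.exp_pos _).le]
  set x : ℝ := Real.sqrt ‖qN τ N‖ with hx
  have htc : c / N ^ 2 ≤ t := by
    rw [hc, ht, div_div]
    gcongr
    rw [Complex.normSq_eq_norm_sq, ← mul_pow]
    exact pow_le_pow_left₀ (norm_nonneg _) (norm_le hN) 2
  have h1 : Real.exp (-t) ≤ 1 / (1 + t) := by
    rw [Real.exp_neg, ← one_div]
    have := Real.add_one_le_exp t
    gcongr
    linarith
  have h2 : c / N ^ 2 / (1 + c / N ^ 2) ≤ 1 - x := by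
    rw [hxt]
    have h3 : c / N ^ 2 / (1 + c / N ^ 2) ≤ t / (1 + t) := by
      rw [div_le_div_iff₀ (by positivity) (by positivity)]
      nlinarith
    have h4 : t / (1 + t) = 1 - 1 / (1 + t) := by
      field_simp
      ring
    linarith
  have h3 : c / N ^ 2 / (1 + c / N ^ 2) = c / (N ^ 2 + c) := by
    field_simp
  have h4 : c / ((1 + c) * N ^ 2) ≤ 1 - x := by
    refine le_trans ?_ h2
    rw [h3]
    have h7 : (1 : ℝ) ≤ (N : ℝ) ^ 2 := by nlinarith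
    have h8 : c * 1 ≤ c * (N : ℝ) ^ 2 := mul_le_mul_of_nonneg_left h7 hc0.le
    gcongr
    linarith
  have h5 : 0 < c / ((1 + c) * N ^ 2) := by positivity
  refine ⟨by linarith, ?_⟩
  calc 1 / (1 - x) ≤ 1 / (c / ((1 + c) * N ^ 2)) := by gcongr
    _ = (1 + c) / c * N ^ 2 := by field_simp

/-- comparison of the norms `|p + m τ|` and `max(|p|,|m|)`. -/
theorem latb (τ : ℂ) (hτ : 0 < τ.im) (p m : ℤ) :
    ‖(![p, m] : Fin 2 → ℤ)‖ ≤ (1 + (1 + ‖τ‖) / τ.im) * ‖(p : ℂ) + m * τ‖ := by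
  set n : ℝ := ‖(p : ℂ) + m * τ‖ with hn
  have hn0 : 0 ≤ n := norm_nonneg _
  have h1 : |(m : ℝ)| * τ.im ≤ n := by
    have h2 := Complex.abs_im_le_norm ((p : ℂ) + m * τ)
    have h3 : ((p : ℂ) + m * τ).im = m * τ.im := by simp
    rw [h3, abs_mul, abs_of_pos hτ] at h2
    exact h2
  have h1' : |(m : ℝ)| ≤ n / τ.im := by
    rw [le_div_iff₀ hτ]
    exact h1
  have h2 : |(p : ℝ)| ≤ n + |(m : ℝ)| * ‖τ‖ := by
    have h3 : (p : ℂ) = ((p : ℂ) + m * τ) - m * τ := by ring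
    have h4 : ‖(p : ℂ)‖ ≤ n + ‖(m : ℂ) * τ‖ := by
      calc ‖(p : ℂ)‖ = ‖((p : ℂ) + m * τ) - m * τ‖ := by rw [← h3]
        _ ≤ _ := norm_sub_le _ _
    rw [norm_mul, Complex.norm_intCast, Complex.norm_intCast] at h4
    exact h4
  have h5 : |(p : ℝ)| ≤ (1 + (1 + ‖τ‖) / τ.im) * n := by
    have h6 : |(m : ℝ)| * ‖τ‖ ≤ n / τ.im * ‖τ‖ := by gcongr
    have h7 : 0 ≤ n / τ.im := by positivity
    have h8 : (1 + (1 + ‖τ‖) / τ.im) * n = n + n / τ.im + n / τ.im * ‖τ‖ := by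
      field_simp
      ring
    linarith
  have h6 : |(m : ℝ)| ≤ (1 + (1 + ‖τ‖) / τ.im) * n := by
    have h7 : 0 ≤ n / τ.im * ‖τ‖ := by positivity
    have h8 : (1 + (1 + ‖τ‖) / τ.im) * n = n + n / τ.im + n / τ.im * ‖τ‖ := by
      field_simp
      ring
    linarith
  rw [pi_norm_le_iff_of_nonneg (by positivity)]
  intro i
  fin_cases i
  · simpa [Int.norm_eq_abs] using h5
  · simpa [Int.norm_eq_abs] using h6

end Lat

open Complex Lat in
theorem lat : S_lat := by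
  intro τ hτ a b hab
  obtain ⟨A, hA, hpt⟩ := ptw τ hτ
  obtain ⟨Cr, hCr, hrho⟩ := rho τ hτ
  set D : ℝ := 1 + (1 + ‖τ‖) / τ.im with hD
  have hD0 : 0 < D := by positivity
  have hsum : Summable (fun x : Fin 2 → ℤ => ‖x‖ ^ (-(3 : ℝ))) :=
    EisensteinSeries.summable_one_div_norm_rpow (by norm_num)
  set S : ℝ := ∑' x : Fin 2 → ℤ, ‖x‖ ^ (-(3 : ℝ)) with hS
  have hS0 : 0 ≤ S := tsum_nonneg fun x => Real.rpow_nonneg (norm_nonneg _) _
  refine ⟨2 ^ b * (a.factorial * Cr ^ (a + 1)) + (A * D) ^ b * 2 ^ a * S, fun N hN => ?_⟩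
  have hN1 : (1 : ℝ) ≤ N := by exact_mod_cast hN
  obtain ⟨hr1, hr2⟩ := hrho N hN
  set r : ℝ := Real.sqrt ‖qN τ N‖ with hr
  have hr0 : 0 ≤ r := Real.sqrt_nonneg _
  obtain ⟨hg1, hg2⟩ := geo a r _ hr0 hr1 hr2
  -- choice of `m`
  have hch : ∀ k : ℕ, ∃ m : ℤ, ((k : ℝ) + 1) ^ a * (‖1 - qN τ N ^ (k + 1)‖⁻¹) ^ b * r ^ (k + 1) ≤
      2 ^ b * (((k : ℝ) + 1) ^ a * r ^ (k + 1)) +
      (A * D) ^ b * 2 ^ a * (N : ℝ) ^ (a + b) *
        ‖(![(k : ℤ) + 1 + m * N, m] : Fin 2 → ℤ)‖ ^ (-(3 : ℝ)) := by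
    intro k
    rcases hpt N hN (k + 1) (by omega) with h | ⟨m, h⟩
    · refine ⟨0, ?_⟩
      have h1 : 0 ≤ (A * D) ^ b * 2 ^ a * (N : ℝ) ^ (a + b) *
          ‖(![(k : ℤ) + 1 + 0 * N, 0] : Fin 2 → ℤ)‖ ^ (-(3 : ℝ)) := by
        have := Real.rpow_nonneg (norm_nonneg (![(k : ℤ) + 1 + 0 * N, 0] : Fin 2 → ℤ)) (-(3 : ℝ))
        positivity
      have h2 : (‖1 - qN τ N ^ (k + 1)‖⁻¹) ^ b ≤ 2 ^ b := pow_le_pow_left₀ (by positivity) h b
      have h3 : ((k : ℝ) + 1) ^ a * (‖1 - qN τ N ^ (k + 1)‖⁻¹) ^ b * r ^ (k + 1) ≤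
          ((k : ℝ) + 1) ^ a * 2 ^ b * r ^ (k + 1) := by gcongr
      have h4 : ((k : ℝ) + 1) ^ a * 2 ^ b * r ^ (k + 1) =
        2 ^ b * (((k : ℝ) + 1) ^ a * r ^ (k + 1)) := by ring
      linarith
    · refine ⟨m, ?_⟩
      set p : ℤ := (k : ℤ) + 1 + m * N with hp
      set v : ℝ := ‖(![p, m] : Fin 2 → ℤ)‖ with hv
      have hpv : |(p : ℝ)| ≤ v := by
        have := norm_le_pi_norm (![p, m] : Fin 2 → ℤ) 0
        simpa [Int.norm_eq_abs] using this
      have hmv : |(m : ℝ)| ≤ v := by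
        have := norm_le_pi_norm (![p, m] : Fin 2 → ℤ) 1
        simpa [Int.norm_eq_abs] using this
      have hk : ((k : ℝ) + 1) = p - m * N := by
        rw [hp]; push_cast; ring
      have hkv : ((k : ℝ) + 1) ≤ 2 * N * v := by
        rw [hk]
        have h1 : (p : ℝ) ≤ |(p : ℝ)| := le_abs_self _
        have h2 : -(m : ℝ) ≤ |(m : ℝ)| := neg_le_abs _
        have h3 : 0 ≤ v := norm_nonneg _
        nlinarith
      have hv1 : 1 ≤ v := by
        by_contra hlt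
        rw [not_le] at hlt
        have h1 : |(p : ℝ)| < 1 := lt_of_le_of_lt hpv hlt
        have h2 : |(m : ℝ)| < 1 := lt_of_le_of_lt hmv hlt
        have h3 : p = 0 := by
          have : |p| < 1 := by exact_mod_cast h1
          exact Int.abs_lt_one_iff.1 this
        have h4 : m = 0 := by
          have : |m| < 1 := by exact_mod_cast h2
          exact Int.abs_lt_one_iff.1 this
        rw [h4] at hp
        rw [h3] at hp
        simp only [zero_mul, add_zero] at hp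
        omega
      have hv0 : 0 < v := by linarith
      have hlat : v ≤ D * ‖(p : ℂ) + m * τ‖ := latb τ hτ p m
      have hpm : ((k + 1 : ℕ) : ℂ) + m * (τ + N) = (p : ℂ) + m * τ := by
        rw [hp]; push_cast; ring
      rw [hpm] at h
      have hn0 : 0 < ‖(p : ℂ) + m * τ‖ := by
        by_contra hle
        rw [not_lt] at hle
        nlinarith
      have h1 : ‖1 - qN τ N ^ (k + 1)‖⁻¹ ≤ A * D * N / v := by
        refine h.trans ?_
        rw [div_le_div_iff₀ hn0 hv0]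
        have : 0 ≤ A * N := by positivity
        nlinarith
      have h2 : (‖1 - qN τ N ^ (k + 1)‖⁻¹) ^ b ≤ (A * D * N / v) ^ b :=
        pow_le_pow_left₀ (by positivity) h1 b
      have h3 : ((k : ℝ) + 1) ^ a ≤ (2 * N * v) ^ a := pow_le_pow_left₀ (by positivity) hkv a
      have h4 : r ^ (k + 1) ≤ 1 := pow_le_one₀ hr0 hr1.le
      have h5 : ((k : ℝ) + 1) ^ a * (‖1 - qN τ N ^ (k + 1)‖⁻¹) ^ b * r ^ (k + 1) ≤
          (2 * N * v) ^ a * (A * D * N / v) ^ b := by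
        calc ((k : ℝ) + 1) ^ a * (‖1 - qN τ N ^ (k + 1)‖⁻¹) ^ b * r ^ (k + 1)
            ≤ ((2 * N * v) ^ a * (A * D * N / v) ^ b) * 1 := by
              gcongr
          _ = _ := mul_one _
      have h6 : (2 * N * v) ^ a * (A * D * N / v) ^ b =
          (A * D) ^ b * 2 ^ a * (N : ℝ) ^ (a + b) * (v ^ a / v ^ b) := by
        rw [mul_pow, mul_pow, div_pow, mul_pow (A * D), pow_add]
        ring
      have h7 : v ^ a / v ^ b ≤ v ^ (-(3 : ℝ)) := by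
        have h8 : v ^ (-(3 : ℝ)) = 1 / v ^ 3 := by
          rw [Real.rpow_neg hv0.le]
          rw [one_div]
          congr 1
          exact_mod_cast Real.rpow_natCast v 3
        rw [h8, div_le_div_iff₀ (by positivity) (by positivity), one_mul, ← pow_add]
        exact pow_le_pow_right₀ hv1 hab
      have h8 : 0 ≤ 2 ^ b * (((k : ℝ) + 1) ^ a * r ^ (k + 1)) := by positivity
      have h9 : (A * D) ^ b * 2 ^ a * (N : ℝ) ^ (a + b) * (v ^ a / v ^ b) ≤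
          (A * D) ^ b * 2 ^ a * (N : ℝ) ^ (a + b) * v ^ (-(3 : ℝ)) := by gcongr
      linarith
  choose m hm using hch
  set f : ℕ → (Fin 2 → ℤ) := fun k => ![(k : ℤ) + 1 + m k * N, m k] with hf
  have hinj : Function.Injective f := by
    intro k l hkl
    have h1 : m k = m l := by
      have := congrFun hkl 1
      simpa [hf] using this
    have h2 : (k : ℤ) + 1 + m k * N = (l : ℤ) + 1 + m l * N := by
      have := congrFun hkl 0
      simpa [hf] using this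
    rw [h1] at h2
    have h3 : (k : ℤ) = l := by linarith
    exact_mod_cast h3
  have hs2 : Summable (fun k => ‖f k‖ ^ (-(3 : ℝ))) := hsum.comp_injective hinj
  have hs2le : ∑' k, ‖f k‖ ^ (-(3 : ℝ)) ≤ S :=
    tsum_comp_le_tsum_of_inj hsum (fun x => Real.rpow_nonneg (norm_nonneg _) _) hinj
  have hmaj : Summable (fun k : ℕ => 2 ^ b * (((k : ℝ) + 1) ^ a * r ^ (k + 1)) +
      (A * D) ^ b * 2 ^ a * (N : ℝ) ^ (a + b) * ‖f k‖ ^ (-(3 : ℝ))) :=
    (hg1.mul_left _).add (hs2.mul_left _)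
  have hs : Summable (fun k : ℕ => ((k : ℝ) + 1) ^ a * (‖1 - qN τ N ^ (k + 1)‖⁻¹) ^ b *
      r ^ (k + 1)) :=
    Summable.of_nonneg_of_le (fun k => by positivity) hm hmaj
  refine ⟨hs, ?_⟩
  calc ∑' k : ℕ, ((k : ℝ) + 1) ^ a * (‖1 - qN τ N ^ (k + 1)‖⁻¹) ^ b * r ^ (k + 1)
      ≤ ∑' k : ℕ, (2 ^ b * (((k : ℝ) + 1) ^ a * r ^ (k + 1)) +
      (A * D) ^ b * 2 ^ a * (N : ℝ) ^ (a + b) * ‖f k‖ ^ (-(3 : ℝ))) :=
        hs.tsum_le_tsum hm hmaj
    _ = 2 ^ b * ∑' k : ℕ, (((k : ℝ) + 1) ^ a * r ^ (k + 1)) +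
      (A * D) ^ b * 2 ^ a * (N : ℝ) ^ (a + b) * ∑' k : ℕ, ‖f k‖ ^ (-(3 : ℝ)) := by
        rw [(hg1.mul_left _).tsum_add (hs2.mul_left _), tsum_mul_left, tsum_mul_left]
    _ ≤ 2 ^ b * (a.factorial * (Cr * (N : ℝ) ^ 2) ^ (a + 1)) +
      (A * D) ^ b * 2 ^ a * (N : ℝ) ^ (a + b) * S := by
        gcongr
    _ ≤ 2 ^ b * (a.factorial * (Cr ^ (a + 1) * (N : ℝ) ^ (a + b))) +
      (A * D) ^ b * 2 ^ a * (N : ℝ) ^ (a + b) * S := by
        have h1 : (Cr * (N : ℝ) ^ 2) ^ (a + 1) ≤ Cr ^ (a + 1) * (N : ℝ) ^ (a + b) := by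
          rw [mul_pow, ← pow_mul]
          have : (N : ℝ) ^ (2 * (a + 1)) ≤ (N : ℝ) ^ (a + b) :=
            pow_le_pow_right₀ hN1 (by omega)
          gcongr
        gcongr
    _ = (2 ^ b * (a.factorial * Cr ^ (a + 1)) + (A * D) ^ b * 2 ^ a * S) * (N : ℝ) ^ (a + b) := by
        ring

end Pool.Agent.H946.Z
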