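import Pool.Agent.H946.Z.Basic
set_option autoImplicit false

/-!
# MP_d9449f_ag : the Lipschitz formula (helper230)
-/

namespace Pool.Agent.H946.Z

namespace Lip

open scoped UpperHalfPlane

open Complex

/-- `C = (-2πi)^b/(b-1)!`. -/
noncomputable def cst (k : ℕ) : ℂ := (-2 * Real.pi * Complex.I) ^ (k + 1) / (k.factorial : ℂ)

theorem cst_ne (k : ℕ) : cst k ≠ 0 := by
  unfold cst
  refine div_ne_zero (pow_ne_zero _ ?_) (by exact_mod_cast k.factorial_ne_zero)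
  simp [Real.pi_ne_zero]

/-- summability of the lattice sum. -/
theorem sum1 (a l : ℕ) (τ : ℂ) (hτ : 0 < τ.im) :
    Summable fun p : ℕ × ℤ => ((p.1 : ℂ) + 1) ^ l *
      ((((p.1 : ℂ) + 1) * τ + (p.2 : ℂ)) ^ (2 * a + 3 + l))⁻¹ := by
  have h1 := EisensteinSeries.summable_norm_eisSummand (k := ((2 * a + 3 : ℕ) : ℤ)) (by push_cast; omega)
    ⟨τ, hτ⟩
  have hinj : Function.Injective fun p : ℕ × ℤ => (![(p.1 : ℤ) + 1, p.2] : Fin 2 → ℤ) := by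
    rintro ⟨n, j⟩ ⟨n', j'⟩ h
    have h2 := congrFun h 0
    have h3 := congrFun h 1
    simp only [Matrix.cons_val_zero, Matrix.cons_val_one] at h2 h3
    exact Prod.ext (by simpa using h2) (by simpa using h3)
  have h2 := (h1.comp_injective hinj).mul_left ((τ.im)⁻¹ ^ l)
  refine Summable.of_norm_bounded h2 fun p => ?_
  obtain ⟨n, j⟩ := p
  simp only [Function.comp_apply, EisensteinSeries.eisSummand, Matrix.cons_val_zero,
    Matrix.cons_val_one, zpow_neg, zpow_natCast]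
  push_cast
  set w : ℂ := ((n : ℂ) + 1) * τ + (j : ℂ) with hw
  have him : w.im = ((n : ℝ) + 1) * τ.im := by
    rw [hw]
    simp
  have hwn : ((n : ℝ) + 1) * τ.im ≤ ‖w‖ := by
    rw [← him]
    exact Complex.im_le_norm w
  have hpos : 0 < ((n : ℝ) + 1) * τ.im := by positivity
  have hw0 : 0 < ‖w‖ := hpos.trans_le hwn
  have hn : ‖((n : ℂ) + 1)‖ = (n : ℝ) + 1 := by
    have : ((n : ℂ) + 1) = (((n : ℝ) + 1 : ℝ) : ℂ) := by push_cast; rfl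
    rw [this, Complex.norm_real, Real.norm_of_nonneg (by positivity)]
  have h3 : (n : ℝ) + 1 ≤ (τ.im)⁻¹ * ‖w‖ := by
    rw [inv_mul_eq_div, le_div_iff₀ hτ]
    exact hwn
  rw [norm_mul, norm_pow, hn, norm_inv, norm_pow, norm_inv, norm_pow]
  calc ((n : ℝ) + 1) ^ l * (‖w‖ ^ (2 * a + 3 + l))⁻¹
      ≤ ((τ.im)⁻¹ * ‖w‖) ^ l * (‖w‖ ^ (2 * a + 3 + l))⁻¹ := by gcongr
    _ = (τ.im)⁻¹ ^ l * (‖w‖ ^ (2 * a + 3))⁻¹ := by
        rw [mul_pow, pow_add]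
        field_simp

/-- summability of the double series. -/
theorem sum2 (l k : ℕ) (q : ℂ) (hq : ‖q‖ < 1) :
    Summable fun p : ℕ+ × ℕ+ => ((p.1 : ℕ) : ℂ) ^ l * ((p.2 : ℕ) : ℂ) ^ k *
      q ^ ((p.1 : ℕ) * (p.2 : ℕ)) := by
  set ρ : ℝ := Real.sqrt ‖q‖ with hρ
  have hρ0 : 0 ≤ ρ := Real.sqrt_nonneg _
  have hρ1 : ρ < 1 := by
    rw [hρ, Real.sqrt_lt' (by norm_num)]
    simpa using hq
  have hρ2 : ρ ^ 2 = ‖q‖ := Real.sq_sqrt (norm_nonneg _)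
  have h1 : ∀ j : ℕ, Summable fun n : ℕ => (n : ℝ) ^ j * ρ ^ n := by
    intro j
    exact summable_pow_mul_geometric_of_norm_lt_one j (by rwa [Real.norm_of_nonneg hρ0])
  have h2 : Summable fun p : ℕ × ℕ => ((p.1 : ℝ) ^ l * ρ ^ p.1) * ((p.2 : ℝ) ^ k * ρ ^ p.2) :=
    (h1 l).mul_of_nonneg (h1 k) (fun n => by positivity) (fun n => by positivity)
  have hinj : Function.Injective fun p : ℕ+ × ℕ+ => ((p.1 : ℕ), (p.2 : ℕ)) := by
    rintro ⟨n, m⟩ ⟨n', m'⟩ h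
    simp only [Prod.mk.injEq, PNat.coe_inj] at h
    exact Prod.ext h.1 h.2
  refine Summable.of_norm_bounded (h2.comp_injective hinj) fun p => ?_
  obtain ⟨n, m⟩ := p
  simp only [Function.comp_apply]
  rw [norm_mul, norm_mul, norm_pow, norm_pow, norm_pow, Complex.norm_natCast,
    Complex.norm_natCast, ← hρ2, ← pow_mul]
  have hn : 1 ≤ (n : ℕ) := n.2
  have hm : 1 ≤ (m : ℕ) := m.2
  have h3 : (n : ℕ) + (m : ℕ) ≤ 2 * ((n : ℕ) * (m : ℕ)) := by nlinarith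
  have h4 : ρ ^ (2 * ((n : ℕ) * (m : ℕ))) ≤ ρ ^ ((n : ℕ) + (m : ℕ)) :=
    pow_le_pow_of_le_one hρ0 hρ1.le h3
  calc ((n : ℕ) : ℝ) ^ l * ((m : ℕ) : ℝ) ^ k * ρ ^ (2 * ((n : ℕ) * (m : ℕ)))
      ≤ ((n : ℕ) : ℝ) ^ l * ((m : ℕ) : ℝ) ^ k * ρ ^ ((n : ℕ) + (m : ℕ)) := by gcongr
    _ = _ := by rw [pow_add]; ring

/-- regrouping by the product. -/
theorem regroup (a l : ℕ) (q : ℂ) (hq : ‖q‖ < 1) :
    ∑' n : ℕ+, ∑' m : ℕ+, ((n : ℕ) : ℂ) ^ l * ((m : ℕ) : ℂ) ^ (2 * a + 2 + l) *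
      q ^ ((n : ℕ) * (m : ℕ)) = ev q (GG (a, l)) := by
  have h1 := sum2 l (2 * a + 2 + l) q hq
  set F : ℕ+ × ℕ+ → ℂ := fun p => ((p.1 : ℕ) : ℂ) ^ l * ((p.2 : ℕ) : ℂ) ^ (2 * a + 2 + l) *
      q ^ ((p.1 : ℕ) * (p.2 : ℕ)) with hF
  have h2 : Summable fun c => F (sigmaAntidiagonalEquivProd c) :=
    sigmaAntidiagonalEquivProd.summable_iff.mpr h1
  have e1 : ∑' n : ℕ+, ∑' m : ℕ+, ((n : ℕ) : ℂ) ^ l * ((m : ℕ) : ℂ) ^ (2 * a + 2 + l) *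
      q ^ ((n : ℕ) * (m : ℕ)) = ∑' p, F p := h1.tsum_prod.symm
  have e2 : ∑' p, F p = ∑' c, F (sigmaAntidiagonalEquivProd c) :=
    (sigmaAntidiagonalEquivProd.tsum_eq F).symm
  have e3 := h2.tsum_sigma
  have e4 : ∀ N : ℕ+, (∑' c : Nat.divisorsAntidiagonal N,
      F (sigmaAntidiagonalEquivProd ⟨N, c⟩)) =
      ((PowerSeries.coeff (N : ℕ) (GG (a, l)) : ℚ) : ℂ) * q ^ (N : ℕ) := by
    intro N
    rw [tsum_fintype]
    have e5 : ∀ c : Nat.divisorsAntidiagonal N, F (sigmaAntidiagonalEquivProd ⟨N, c⟩) =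
        ((N : ℕ) : ℂ) ^ l * ((c.1.2 : ℕ) : ℂ) ^ (2 * a + 2) * q ^ (N : ℕ) := by
      rintro ⟨⟨x, y⟩, hxy⟩
      have h3 := (Nat.mem_divisorsAntidiagonal.1 hxy).1
      simp only at h3
      have : F (sigmaAntidiagonalEquivProd ⟨N, ⟨(x, y), hxy⟩⟩) =
        (x : ℂ) ^ l * (y : ℂ) ^ (2 * a + 2 + l) * q ^ (x * y) := rfl
      have h4 : ((N : ℕ) : ℂ) = (x : ℂ) * (y : ℂ) := by rw [← h3]; push_cast; ring
      rw [this, h3, h4]
      change _ = ((x : ℂ) * (y : ℂ)) ^ l * (y : ℂ) ^ (2 * a + 2) * q ^ (N : ℕ)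
      ring
    simp only [e5]
    have e6 := Finset.sum_attach (Nat.divisorsAntidiagonal (N : ℕ))
      (fun x : ℕ × ℕ => ((N : ℕ) : ℂ) ^ l * ((x.2 : ℕ) : ℂ) ^ (2 * a + 2) * q ^ (N : ℕ))
    rw [Finset.univ_eq_attach, e6]
    rw [Nat.sum_divisorsAntidiagonal' (n := (N : ℕ))
      (fun _ y => ((N : ℕ) : ℂ) ^ l * ((y : ℕ) : ℂ) ^ (2 * a + 2) * q ^ (N : ℕ))]
    unfold GG
    rw [PowerSeries.coeff_mk]
    push_cast
    rw [← Finset.sum_mul, ← Finset.mul_sum]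
  rw [e1, e2, e3]
  simp only [e4]
  unfold ev
  rw [tsum_pnat_eq_tsum_succ (f := fun n : ℕ => ((PowerSeries.coeff n (GG (a, l)) : ℚ) : ℂ) * q ^ n)]
  have hG0 : ((PowerSeries.coeff 0 (GG (a, l)) : ℚ) : ℂ) = 0 := by simp [GG]
  have hs : Summable fun n : ℕ => ((PowerSeries.coeff n (GG (a, l)) : ℚ) : ℂ) * q ^ n := by
    rw [← summable_nat_add_iff 1]
    have h5 := h2.sigma
    simp only [e4] at h5
    have h6 := (Equiv.pnatEquivNat.symm.summable_iff).mpr h5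
    refine h6.congr fun n => ?_
    simp
  rw [hs.tsum_eq_zero_add, hG0, zero_mul, zero_add]

end Lip

/-- **Lipschitz formula.** -/
theorem lip : S_Lip := by
  rintro ⟨a, l⟩
  set γ : ℂ := (Lip.cst (2 * a + 2 + l))⁻¹ * ((-1) ^ l * (l.factorial : ℂ)) with hγ
  refine ⟨γ, ?_, ?_⟩
  · refine mul_ne_zero (inv_ne_zero (Lip.cst_ne _)) (mul_ne_zero (by simp) ?_)
    exact_mod_cast l.factorial_ne_zero
  intro τ hτ
  have hq : ‖Complex.exp (2 * Real.pi * Complex.I * τ)‖ < 1 :=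
    UpperHalfPlane.norm_exp_two_pi_I_lt_one ⟨τ, hτ⟩
  have h1 := Lip.sum1 a l τ hτ
  unfold YY
  simp only
  rw [h1.tsum_prod]
  have h2 : ∀ n : ℕ, ∑' j : ℤ, ((n : ℂ) + 1) ^ l *
      ((((n : ℂ) + 1) * τ + (j : ℂ)) ^ (2 * a + 3 + l))⁻¹ =
      Lip.cst (2 * a + 2 + l) * ∑' m : ℕ+, (((n + 1 : ℕ) : ℂ)) ^ l *
        ((m : ℕ) : ℂ) ^ (2 * a + 2 + l) *
        (Complex.exp (2 * Real.pi * Complex.I * τ)) ^ ((n + 1) * (m : ℕ)) := by
    intro n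
    have hz : 0 < (((n : ℂ) + 1) * τ).im := by
      have : (((n : ℂ) + 1) * τ).im = ((n : ℝ) + 1) * τ.im := by simp
      rw [this]
      positivity
    have h3 := EisensteinSeries.qExpansion_identity_pnat (k := 2 * a + 2 + l) (by omega)
      ⟨((n : ℂ) + 1) * τ, hz⟩
    rw [tsum_mul_left]
    have h4 : ∑' j : ℤ, ((((n : ℂ) + 1) * τ + (j : ℂ)) ^ (2 * a + 3 + l))⁻¹ =
        ∑' j : ℤ, 1 / ((((n : ℂ) + 1) * τ) + (j : ℂ)) ^ (2 * a + 2 + l + 1) := by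
      refine tsum_congr fun j => ?_
      rw [one_div, show 2 * a + 3 + l = 2 * a + 2 + l + 1 by omega]
    rw [h4]
    have h5 : ∑' j : ℤ, 1 / ((((n : ℂ) + 1) * τ) + (j : ℂ)) ^ (2 * a + 2 + l + 1) =
        Lip.cst (2 * a + 2 + l) * ∑' m : ℕ+, ((m : ℕ) : ℂ) ^ (2 * a + 2 + l) *
          Complex.exp (2 * Real.pi * Complex.I * (((n : ℂ) + 1) * τ)) ^ (m : ℕ) := h3
    rw [h5, mul_left_comm, ← tsum_mul_left]
    congr 1
    refine tsum_congr fun m => ?_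
    have h6 : Complex.exp (2 * Real.pi * Complex.I * (((n : ℂ) + 1) * τ)) =
        Complex.exp (2 * Real.pi * Complex.I * τ) ^ (n + 1) := by
      rw [← Complex.exp_nat_mul]
      congr 1
      push_cast
      ring
    rw [h6, ← pow_mul]
    push_cast
    ring
  simp only [h2]
  rw [tsum_mul_left, ← tsum_pnat_eq_tsum_succ (f := fun n : ℕ => ∑' m : ℕ+, ((n : ℂ)) ^ l *
        ((m : ℕ) : ℂ) ^ (2 * a + 2 + l) *
        (Complex.exp (2 * Real.pi * Complex.I * τ)) ^ (n * (m : ℕ))),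
    Lip.regroup a l _ hq, hγ]
  have hc := Lip.cst_ne (2 * a + 2 + l)
  have hl : (l.factorial : ℂ) ≠ 0 := by exact_mod_cast l.factorial_ne_zero
  have hs : ((-1 : ℂ) ^ l) * (-1) ^ l = 1 := by rw [← mul_pow]; simp
  field_simp
  linear_combination (-(ev (Complex.exp (2 * Real.pi * Complex.I * τ)) (GG (a, l)))) * hs

end Pool.Agent.H946.Z
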