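import Pool.Agent.H946.Z.Basic
set_option autoImplicit false

/-!
# MP_d9449f_ag : expansion of the covariance formula at `u = 1 + v` (helper301)
-/

namespace Pool.Agent.H946.Z

open PowerSeries

noncomputable section

namespace MF

/-- the coefficient ring `ℚ[[v]]`. -/
abbrev V : Type := ℚ⟦X⟧

/-- `1 + v` as a unit. -/
def uV : Vˣ where
  val := 1 + X
  inv := PowerSeries.mk fun n => (-1) ^ n
  val_inv := by
    ext n
    rw [add_mul, one_mul, map_add, coeff_mk]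
    cases n with
    | zero => simp
    | succ n => rw [coeff_succ_X_mul, coeff_mk, coeff_one, if_neg (Nat.succ_ne_zero n)]; ring
  inv_val := by
    rw [mul_comm]
    ext n
    rw [add_mul, one_mul, map_add, coeff_mk]
    cases n with
    | zero => simp
    | succ n => rw [coeff_succ_X_mul, coeff_mk, coeff_one, if_neg (Nat.succ_ne_zero n)]; ring

theorem uV_val : (uV : V) = 1 + X := rfl

theorem uV_inv : ((uV⁻¹ : Vˣ) : V) = PowerSeries.mk fun n => (-1) ^ n := rfl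

theorem uV_ne_one : (uV : V) ≠ 1 := by
  intro h
  have := congrArg (PowerSeries.coeff 1) h
  rw [uV_val, map_add, coeff_one, coeff_one_X] at this
  norm_num at this

/-- the first three coefficients. -/
def T3 (f : V) (a b c : ℚ) : Prop := coeff 0 f = a ∧ coeff 1 f = b ∧ coeff 2 f = c

theorem T3.mul {f g : V} {a b c a' b' c' : ℚ} (hf : T3 f a b c) (hg : T3 g a' b' c') :
    T3 (f * g) (a * a') (a * b' + b * a') (a * c' + b * b' + c * a') := by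
  obtain ⟨h0, h1, h2⟩ := hf
  obtain ⟨k0, k1, k2⟩ := hg
  refine ⟨?_, ?_, ?_⟩
  · rw [coeff_mul, Finset.Nat.antidiagonal_zero, Finset.sum_singleton, h0, k0]
  · rw [coeff_mul, Finset.Nat.sum_antidiagonal_eq_sum_range_succ_mk, Finset.sum_range_succ,
      Finset.sum_range_one, ← h0, ← h1, ← k0, ← k1]
  · rw [coeff_mul, Finset.Nat.sum_antidiagonal_eq_sum_range_succ_mk, Finset.sum_range_succ,
      Finset.sum_range_succ, Finset.sum_range_one, ← h0, ← h1, ← k0, ← k1, ← h2, ← k2]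

theorem T3.add {f g : V} {a b c a' b' c' : ℚ} (hf : T3 f a b c) (hg : T3 g a' b' c') :
    T3 (f + g) (a + a') (b + b') (c + c') := by
  obtain ⟨h0, h1, h2⟩ := hf
  obtain ⟨k0, k1, k2⟩ := hg
  exact ⟨by rw [map_add, h0, k0], by rw [map_add, h1, k1], by rw [map_add, h2, k2]⟩

theorem T3.sub {f g : V} {a b c a' b' c' : ℚ} (hf : T3 f a b c) (hg : T3 g a' b' c') :
    T3 (f - g) (a - a') (b - b') (c - c') := by
  obtain ⟨h0, h1, h2⟩ := hf
  obtain ⟨k0, k1, k2⟩ := hg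
  exact ⟨by rw [map_sub, h0, k0], by rw [map_sub, h1, k1], by rw [map_sub, h2, k2]⟩

theorem T3.congr {f : V} {a b c a' b' c' : ℚ} (hf : T3 f a b c) (ha : a = a') (hb : b = b')
    (hc : c = c') : T3 f a' b' c' := by
  subst ha hb hc; exact hf

theorem T3_one : T3 (1 : V) 1 0 0 := by
  refine ⟨?_, ?_, ?_⟩ <;> simp [coeff_one]

theorem T3_zero : T3 (0 : V) 0 0 0 := by
  refine ⟨?_, ?_, ?_⟩ <;> simp

theorem T3_C (q : ℚ) : T3 (C q : V) q 0 0 := by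
  refine ⟨?_, ?_, ?_⟩ <;> simp [coeff_C]

theorem T3_u : T3 (uV : V) 1 1 0 := by
  rw [uV_val]
  refine ⟨?_, ?_, ?_⟩ <;> simp [coeff_one, coeff_X]

theorem T3_uinv : T3 ((uV⁻¹ : Vˣ) : V) 1 (-1) 1 := by
  rw [uV_inv]
  refine ⟨?_, ?_, ?_⟩ <;> rw [coeff_mk] <;> norm_num

theorem T3_zpow (c : ℤ) : T3 ((uV ^ c : Vˣ) : V) 1 c ((c : ℚ) * (c - 1) / 2) := by
  induction c using Int.induction_on with
  | zero =>
    refine T3_one.congr rfl ?_ ?_ <;> norm_num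
  | succ i ih =>
    rw [zpow_add_one, Units.val_mul]
    refine (ih.mul T3_u).congr ?_ ?_ ?_ <;> push_cast <;> ring
  | pred i ih =>
    rw [zpow_sub_one, Units.val_mul]
    refine (ih.mul T3_uinv).congr ?_ ?_ ?_ <;> push_cast <;> ring

theorem T3_pow (n : ℕ) : T3 ((uV : V) ^ n) 1 n ((n : ℚ) * (n - 1) / 2) := by
  have h := T3_zpow (n : ℤ)
  rw [zpow_natCast, Units.val_pow_eq_pow_val] at h
  exact h.congr rfl (by push_cast; rfl) (by push_cast; rfl)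

theorem T3_sum {ι : Type*} (s : Finset ι) (f : ι → V) (a b c : ι → ℚ)
    (h : ∀ i ∈ s, T3 (f i) (a i) (b i) (c i)) :
    T3 (∑ i ∈ s, f i) (∑ i ∈ s, a i) (∑ i ∈ s, b i) (∑ i ∈ s, c i) := by
  refine ⟨?_, ?_, ?_⟩ <;> rw [map_sum] <;> refine Finset.sum_congr rfl fun i hi => ?_
  · exact (h i hi).1
  · exact (h i hi).2.1
  · exact (h i hi).2.2

theorem T3_geom (k : ℕ) : T3 (∑ i ∈ Finset.range k, (uV : V) ^ i) k ((k : ℚ) * (k - 1) / 2)
    ((k : ℚ) * (k - 1) * (k - 2) / 6) := by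
  induction k with
  | zero => simpa using T3_zero
  | succ k ih =>
    rw [Finset.sum_range_succ]
    refine (ih.add (T3_pow k)).congr ?_ ?_ ?_ <;> push_cast <;> ring

/-! ### coefficients in `v` of power series over `ℚ[[v]]` -/

/-- the coefficient of `v^i`. -/
def cv (i : ℕ) : V⟦X⟧ →+ ℚ⟦X⟧ where
  toFun F := PowerSeries.mk fun n => coeff i (coeff n F)
  map_zero' := by ext n; simp
  map_add' F G := by ext n; simp

theorem coeff_cv (i n : ℕ) (F : V⟦X⟧) : coeff n (cv i F) = coeff i (coeff n F) := by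
  show coeff n (PowerSeries.mk fun n => coeff i (coeff n F)) = _
  rw [coeff_mk]

/-- the first three coefficients in `v`. -/
def Rep (F : V⟦X⟧) (a b c : ℚ⟦X⟧) : Prop := cv 0 F = a ∧ cv 1 F = b ∧ cv 2 F = c

theorem cv_mul (i : ℕ) (F G : V⟦X⟧) :
    cv i (F * G) = ∑ p ∈ Finset.HasAntidiagonal.antidiagonal i, cv p.1 F * cv p.2 G := by
  ext n
  rw [coeff_cv, coeff_mul, map_sum, map_sum]
  simp only [coeff_mul, coeff_cv]
  rw [Finset.sum_comm]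

theorem Rep.mul {F G : V⟦X⟧} {a b c a' b' c' : ℚ⟦X⟧} (hf : Rep F a b c) (hg : Rep G a' b' c') :
    Rep (F * G) (a * a') (a * b' + b * a') (a * c' + b * b' + c * a') := by
  obtain ⟨h0, h1, h2⟩ := hf
  obtain ⟨k0, k1, k2⟩ := hg
  refine ⟨?_, ?_, ?_⟩
  · rw [cv_mul, Finset.Nat.antidiagonal_zero, Finset.sum_singleton, h0, k0]
  · rw [cv_mul, Finset.Nat.sum_antidiagonal_eq_sum_range_succ_mk, Finset.sum_range_succ,
      Finset.sum_range_one, ← h0, ← h1, ← k0, ← k1]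
  · rw [cv_mul, Finset.Nat.sum_antidiagonal_eq_sum_range_succ_mk, Finset.sum_range_succ,
      Finset.sum_range_succ, Finset.sum_range_one, ← h0, ← h1, ← k0, ← k1, ← h2, ← k2]

theorem Rep.add {F G : V⟦X⟧} {a b c a' b' c' : ℚ⟦X⟧} (hf : Rep F a b c) (hg : Rep G a' b' c') :
    Rep (F + G) (a + a') (b + b') (c + c') := by
  obtain ⟨h0, h1, h2⟩ := hf
  obtain ⟨k0, k1, k2⟩ := hg
  exact ⟨by rw [map_add, h0, k0], by rw [map_add, h1, k1], by rw [map_add, h2, k2]⟩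

theorem Rep.sub {F G : V⟦X⟧} {a b c a' b' c' : ℚ⟦X⟧} (hf : Rep F a b c) (hg : Rep G a' b' c') :
    Rep (F - G) (a - a') (b - b') (c - c') := by
  obtain ⟨h0, h1, h2⟩ := hf
  obtain ⟨k0, k1, k2⟩ := hg
  exact ⟨by rw [map_sub, h0, k0], by rw [map_sub, h1, k1], by rw [map_sub, h2, k2]⟩

theorem Rep.congr {F : V⟦X⟧} {a b c a' b' c' : ℚ⟦X⟧} (hf : Rep F a b c) (ha : a = a')
    (hb : b = b') (hc : c = c') : Rep F a' b' c' := by
  subst ha hb hc; exact hf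

theorem Rep.unique {F : V⟦X⟧} {a b c a' b' c' : ℚ⟦X⟧} (hf : Rep F a b c) (hg : Rep F a' b' c') :
    a = a' ∧ b = b' ∧ c = c' :=
  ⟨hf.1.symm.trans hg.1, hf.2.1.symm.trans hg.2.1, hf.2.2.symm.trans hg.2.2⟩

/-- the constant embedding. -/
theorem Rep_const (F : V⟦X⟧) (f : ℚ⟦X⟧) (h : ∀ n, coeff n F = C (coeff n f)) : Rep F f 0 0 := by
  refine ⟨?_, ?_, ?_⟩ <;> ext n <;> rw [coeff_cv, h] <;> simp [coeff_C]

theorem Rep_C (c : V) (a b e : ℚ) (h : T3 c a b e) :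
    Rep (C c : V⟦X⟧) (C a) (C b) (C e) := by
  obtain ⟨h0, h1, h2⟩ := h
  refine ⟨?_, ?_, ?_⟩ <;> ext n <;> rw [coeff_cv, coeff_C, coeff_C] <;> split_ifs with hn <;>
    simp_all

theorem Rep_one : Rep (1 : V⟦X⟧) 1 0 0 := by
  refine Rep_const _ _ fun n => ?_
  rw [coeff_one, coeff_one]; split_ifs <;> simp

theorem Rep_zero : Rep (0 : V⟦X⟧) 0 0 0 := ⟨map_zero _, map_zero _, map_zero _⟩

theorem Rep_X_pow (k : ℕ) : Rep ((X : V⟦X⟧) ^ k) (X ^ k) 0 0 := by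
  refine Rep_const _ _ fun n => ?_
  rw [coeff_X_pow, coeff_X_pow]; split_ifs <;> simp

theorem Rep_uu (k : ℕ) : Rep (uu V k) (uu ℚ k) 0 0 := by
  refine Rep_const _ _ fun n => ?_
  unfold uu
  rw [coeff_mk, coeff_mk]; split_ifs <;> simp

theorem Rep_WW (φ : ℤ → ℚ) (d k : ℕ) :
    Rep (WW (fun e => (C (φ e) : V)) d k) (WW φ d k) 0 0 := by
  refine Rep_const _ _ fun n => ?_
  unfold WW
  rw [coeff_mk, coeff_mk, map_sum]
  refine Finset.sum_congr rfl fun e _ => ?_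
  split_ifs <;> simp

theorem cv_psum (i : ℕ) (f : ℕ → V⟦X⟧) : cv i (psum f) = psum fun k => cv i (f k) := by
  ext n
  rw [coeff_cv]
  unfold psum
  rw [coeff_mk, coeff_mk, map_sum, map_sum, map_sum]
  refine Finset.sum_congr rfl fun k _ => ?_
  rw [coeff_cv]

theorem Rep_psum (f : ℕ → V⟦X⟧) (a b c : ℕ → ℚ⟦X⟧) (h : ∀ k, Rep (f k) (a k) (b k) (c k)) :
    Rep (psum f) (psum a) (psum b) (psum c) := by
  refine ⟨?_, ?_, ?_⟩
  · rw [cv_psum]; congr 1; funext k; exact (h k).1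
  · rw [cv_psum]; congr 1; funext k; exact (h k).2.1
  · rw [cv_psum]; congr 1; funext k; exact (h k).2.2

theorem Rep_gen (f : Finset Box → V) (a b c : Finset Box → ℚ)
    (h : ∀ π, T3 (f π) (a π) (b π) (c π)) : Rep (gen f) (gen a) (gen b) (gen c) := by
  refine ⟨?_, ?_, ?_⟩ <;> ext n <;> rw [coeff_cv, coeff_gen, coeff_gen, map_sum] <;>
    refine Finset.sum_congr rfl fun π _ => ?_
  · exact (h π).1
  · exact (h π).2.1
  · exact (h π).2.2


/-! ### the left side -/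

theorem Phi_C (φ : ℤ → ℚ) (π : Finset Box) :
    Phi (fun e => (C (φ e) : V)) π = C (Phi φ π) := by
  unfold Phi
  rw [map_sum]

theorem T3_Cd (d : ℕ) (π : Finset Box) :
    T3 (Cd uV d π) (Pr 0 d π) (Pr 1 d π) ((Pr 2 d π - Pr 1 d π) / 2) := by
  have h := T3_sum (slice d π) (fun b => ((uV ^ ((b.2.2 : ℤ) - (b.2.1 : ℤ)) : Vˣ) : V))
    (fun _ => 1) (fun b => (((b.2.2 : ℤ) - (b.2.1 : ℤ) : ℤ) : ℚ))
    (fun b => (((b.2.2 : ℤ) - (b.2.1 : ℤ) : ℤ) : ℚ) * ((((b.2.2 : ℤ) - (b.2.1 : ℤ) : ℤ) : ℚ) - 1) / 2)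
    (fun b _ => T3_zpow _)
  refine h.congr ?_ ?_ ?_
  · unfold Pr; simp
  · unfold Pr; push_cast; simp
  · unfold Pr
    rw [← Finset.sum_sub_distrib, Finset.sum_div]
    refine Finset.sum_congr rfl fun b _ => ?_
    push_cast; ring

theorem Rep_LHS (φ : ℤ → ℚ) (d : ℕ) :
    Rep (gen (fun π => Phi (fun e => (C (φ e) : V)) π * Cd uV d π) * gen (fun _ => (1 : V)) -
        gen (Phi fun e => (C (φ e) : V)) * gen (Cd uV d))
      (gen (fun π => Phi φ π * Pr 0 d π) * gen (fun _ => (1 : ℚ)) - gen (Phi φ) * gen (Pr 0 d))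
      (gen (fun π => Phi φ π * Pr 1 d π) * gen (fun _ => (1 : ℚ)) - gen (Phi φ) * gen (Pr 1 d))
      (gen (fun π => Phi φ π * ((Pr 2 d π - Pr 1 d π) / 2)) * gen (fun _ => (1 : ℚ)) -
        gen (Phi φ) * gen (fun π => (Pr 2 d π - Pr 1 d π) / 2)) := by
  have h1 : Rep (gen (fun _ => (1 : V))) (gen (fun _ => (1 : ℚ))) 0 0 := by
    refine (Rep_gen _ (fun _ => 1) (fun _ => 0) (fun _ => 0) fun _ => T3_one).congr rfl ?_ ?_ <;>
      (ext n; rw [coeff_gen]; simp)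
  have h2 : Rep (gen (Phi fun e => (C (φ e) : V))) (gen (Phi φ)) 0 0 := by
    refine (Rep_gen _ (Phi φ) (fun _ => 0) (fun _ => 0) fun π => ?_).congr rfl ?_ ?_
    · rw [Phi_C]; exact T3_C _
    · ext n; rw [coeff_gen]; simp
    · ext n; rw [coeff_gen]; simp
  have h3 : Rep (gen (Cd uV d)) (gen (Pr 0 d)) (gen (Pr 1 d))
      (gen fun π => (Pr 2 d π - Pr 1 d π) / 2) := Rep_gen _ _ _ _ fun π => T3_Cd d π
  have h4 : Rep (gen (fun π => Phi (fun e => (C (φ e) : V)) π * Cd uV d π))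
      (gen fun π => Phi φ π * Pr 0 d π) (gen fun π => Phi φ π * Pr 1 d π)
      (gen fun π => Phi φ π * ((Pr 2 d π - Pr 1 d π) / 2)) := by
    refine Rep_gen _ _ _ _ fun π => ?_
    rw [Phi_C]
    refine ((T3_C _).mul (T3_Cd d π)).congr ?_ ?_ ?_ <;> ring
  refine ((h4.mul h1).sub (h2.mul h3)).congr ?_ ?_ ?_ <;> ring

theorem gen_one_ne : PowerSeries.constantCoeff (gen (fun _ => (1 : ℚ))) ≠ 0 := by
  rw [constantCoeff_gen]; norm_num

theorem gen_one_mul_inv : gen (fun _ => (1 : ℚ)) * (gen (fun _ => (1 : ℚ)))⁻¹ = 1 :=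
  PowerSeries.mul_inv_cancel _ gen_one_ne

theorem cov_eq (f g : Finset Box → ℚ) :
    gen (fun π => f π * g π) * gen (fun _ => (1 : ℚ)) - gen f * gen g =
      gen (fun _ => (1 : ℚ)) ^ 2 * cov f g := by
  unfold cov EE
  linear_combination (-(gen (fun π => f π * g π) * gen (fun _ => (1 : ℚ))) +
    gen f * gen g * (1 + gen (fun _ => (1 : ℚ)) * (gen (fun _ => (1 : ℚ)))⁻¹)) * gen_one_mul_inv

theorem cov_half (f g h : Finset Box → ℚ) :
    (2 : ℚ) • cov f (fun π => (g π - h π) / 2) = cov f g - cov f h := by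
  have h1 : (2 : ℚ) • gen (fun π => (g π - h π) / 2) = gen g - gen h := by
    rw [← gen_smul, ← gen_sub]; congr 1; funext π; ring
  have h2 : (2 : ℚ) • gen (fun π => f π * ((g π - h π) / 2)) =
      gen (fun π => f π * g π) - gen (fun π => f π * h π) := by
    rw [← gen_smul, ← gen_sub]; congr 1; funext π; ring
  unfold cov EE
  rw [smul_sub, ← smul_mul_assoc, h2, ← mul_smul_comm, ← smul_mul_assoc, h1]
  ring

/-! ### the right side -/

/-- the constant `1/2`. -/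
def hf : ℚ⟦X⟧ := C (1 / 2 : ℚ)

theorem two_hf : 2 * hf = 1 := by
  unfold hf
  rw [← map_ofNat (C : ℚ →+* ℚ⟦X⟧) 2, ← map_mul]
  norm_num

theorem cc_eq (j : ℕ) : cc j = uu ℚ j - hf := rfl

theorem Rep_PiN (n : ℕ) (hn : 1 ≤ n) :
    ∃ p1 p2 : ℚ⟦X⟧, Rep (PiN uV n) 1 p1 p2 ∧ 2 * p1 = 2 * HH n - ((n : ℚ⟦X⟧) - 1) ∧
      8 * p2 = 8 * EE2 n - 4 * (n : ℚ⟦X⟧) * HH n + ((n : ℚ⟦X⟧) - 1) * (n + 2) := by
  induction n, hn using Nat.le_induction with
  | base =>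
    refine ⟨0, 0, ?_, ?_, ?_⟩
    · unfold PiN; simpa using Rep_one
    · unfold HH; simp
    · unfold HH EE2; simp
  | succ n hn ih =>
    obtain ⟨p1, p2, h, h1, h2⟩ := ih
    have hu : T3 (1 - ((uV⁻¹ : Vˣ) : V)) 0 1 (-1) := by
      refine (T3_one.sub T3_uinv).congr ?_ ?_ ?_ <;> norm_num
    have hL : Rep (uu V n - 1) (uu ℚ n - 1) 0 0 :=
      ((Rep_uu n).sub Rep_one).congr rfl (sub_zero _) (sub_zero _)
    have hstep := Rep_one.add ((Rep_C _ _ _ _ hu).mul hL)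
    have e : PiN uV (n + 1) =
        PiN uV n * (1 + C (1 - ((uV⁻¹ : Vˣ) : V)) * (uu V n - 1)) := by
      unfold PiN
      rw [Finset.prod_Ico_succ_top hn]
    have hH : HH (n + 1) = HH n + (uu ℚ n - hf) := by
      unfold HH; rw [Finset.sum_Ico_succ_top hn, cc_eq]
    have hE : EE2 (n + 1) = EE2 n + (uu ℚ n - hf) * HH n := by
      unfold EE2; rw [Finset.sum_Ico_succ_top hn, cc_eq]
    refine ⟨p1 + (uu ℚ n - 1), p2 + p1 * (uu ℚ n - 1) - (uu ℚ n - 1), ?_, ?_, ?_⟩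
    · rw [e]
      refine (h.mul hstep).congr ?_ ?_ ?_
      · simp
      · simp; ring
      · simp; ring
    · rw [hH]; push_cast
      linear_combination h1 + two_hf
    · rw [hH, hE]; push_cast
      linear_combination h2 + 4 * (uu ℚ n - 1) * h1 + (4 * HH n - 2 * n - 2) * two_hf

theorem psum_zero : psum (fun _ => (0 : ℚ⟦X⟧)) = 0 := by
  ext n; unfold psum; simp

theorem psum_add (f g : ℕ → ℚ⟦X⟧) : psum (fun k => f k + g k) = psum f + psum g := by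
  ext n; unfold psum; simp [Finset.sum_add_distrib]

theorem psum_smul (c : ℚ) (f : ℕ → ℚ⟦X⟧) : psum (fun k => c • f k) = c • psum f := by
  ext n; unfold psum; simp [Finset.mul_sum]


theorem C_nat (k : ℕ) : (C (k : ℚ) : ℚ⟦X⟧) = (k : ℚ⟦X⟧) := map_natCast _ _

theorem two_smul' (f : ℚ⟦X⟧) : (2 : ℚ) • f = 2 * f := by
  rw [PowerSeries.smul_eq_C_mul, map_ofNat (C : ℚ →+* ℚ⟦X⟧) 2]

theorem two_ne : (2 : ℚ⟦X⟧) ≠ 0 := by
  rw [← map_ofNat (C : ℚ →+* ℚ⟦X⟧) 2]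
  exact (map_ne_zero_iff _ PowerSeries.C_injective).2 (by norm_num)

theorem tf_ne : (24 : ℚ⟦X⟧) ≠ 0 := by
  rw [← map_ofNat (C : ℚ →+* ℚ⟦X⟧) 24]
  exact (map_ne_zero_iff _ PowerSeries.C_injective).2 (by norm_num)

theorem smul_eq_nat (k : ℕ) (f : ℚ⟦X⟧) : (k : ℚ) • f = (k : ℚ⟦X⟧) * f := by
  rw [PowerSeries.smul_eq_C_mul, C_nat]

theorem hc2 (k : ℕ) : 2 * (C ((k : ℚ) * (k - 1) / 2) : ℚ⟦X⟧) = (k : ℚ⟦X⟧) * (k - 1) := by
  rw [← C_nat, ← map_ofNat (C : ℚ →+* ℚ⟦X⟧) 2, ← map_one (C : ℚ →+* ℚ⟦X⟧), ← map_sub,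
    ← map_mul, ← map_mul]
  congr 1; ring

theorem hc3 (k : ℕ) : 6 * (C ((k : ℚ) * (k - 1) * (k - 2) / 6) : ℚ⟦X⟧) =
    (k : ℚ⟦X⟧) * (k - 1) * (k - 2) := by
  rw [← C_nat, ← map_ofNat (C : ℚ →+* ℚ⟦X⟧) 2, ← map_ofNat (C : ℚ →+* ℚ⟦X⟧) 6,
    ← map_one (C : ℚ →+* ℚ⟦X⟧), ← map_sub, ← map_sub, ← map_mul, ← map_mul, ← map_mul]
  congr 1; ring

theorem hc12 (k : ℕ) : 12 * (C (((k : ℚ) - 1) * ((k : ℚ) + 4) / 12) : ℚ⟦X⟧) =
    ((k : ℚ⟦X⟧) - 1) * (k + 4) := by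
  rw [← C_nat, ← map_ofNat (C : ℚ →+* ℚ⟦X⟧) 4, ← map_ofNat (C : ℚ →+* ℚ⟦X⟧) 12,
    ← map_one (C : ℚ →+* ℚ⟦X⟧), ← map_sub, ← map_add, ← map_mul, ← map_mul]
  congr 1; ring

theorem first (k : ℕ) (hk : 1 ≤ k) :
    ∃ c : ℚ⟦X⟧, Rep (C (∑ i ∈ Finset.range k, (uV : V) ^ i) * uu V k * PiN uV k)
        ((k : ℚ⟦X⟧) * uu ℚ k) ((k : ℚ⟦X⟧) * (uu ℚ k * HH k)) c ∧
      2 * c + (k : ℚ⟦X⟧) * (uu ℚ k * HH k) = (k : ℚ⟦X⟧) *
        (uu ℚ k * (C (((k : ℚ) - 1) * ((k : ℚ) + 4) / 12) + 2 * EE2 k)) := by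
  obtain ⟨p1, p2, h, h1, h2⟩ := Rep_PiN k hk
  have h3 := ((Rep_C _ _ _ _ (T3_geom k)).mul (Rep_uu k)).mul h
  refine ⟨_, h3.congr ?_ ?_ rfl, ?_⟩
  · rw [C_nat]; ring
  · refine mul_left_cancel₀ two_ne ?_
    rw [C_nat]
    linear_combination (k : ℚ⟦X⟧) * uu ℚ k * h1 + uu ℚ k * hc2 k
  · refine mul_left_cancel₀ tf_ne ?_
    rw [C_nat]
    linear_combination 6 * (k : ℚ⟦X⟧) * uu ℚ k * h2 + 24 * uu ℚ k * p1 * hc2 k +
      12 * (k : ℚ⟦X⟧) * ((k : ℚ⟦X⟧) - 1) * uu ℚ k * h1 + 8 * uu ℚ k * hc3 k -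
      2 * (k : ℚ⟦X⟧) * uu ℚ k * hc12 k

theorem second (d k n : ℕ) :
    ∃ c : ℚ⟦X⟧, Rep (if n = 0 then 0 else
        C ((uV : V) ^ (n - 1) * ((uV : V) ^ k - 1)) * uu V n * uu V (n + k) *
          PiN uV n * PiN uV (n + k) * X ^ (n * (d + 1))) 0
        ((k : ℚ) • (if n = 0 then 0 else uu ℚ n * uu ℚ (n + k) * X ^ (n * (d + 1)))) c ∧
      2 * c + (k : ℚ) • (if n = 0 then 0 else uu ℚ n * uu ℚ (n + k) * X ^ (n * (d + 1))) =
        (k : ℚ) • ((2 : ℚ) • (if n = 0 then 0 else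
          uu ℚ n * uu ℚ (n + k) * (HH n + HH (n + k)) * X ^ (n * (d + 1)))) := by
  by_cases hn : n = 0
  · subst hn
    simp only [if_true]
    exact ⟨0, Rep_zero.congr rfl (by simp) rfl, by simp⟩
  · simp only [if_neg hn]
    obtain ⟨p1, p2, h, h1, h2⟩ := Rep_PiN n (by omega)
    obtain ⟨q1, q2, g, g1, g2⟩ := Rep_PiN (n + k) (by omega)
    have hT : T3 ((uV : V) ^ (n - 1) * ((uV : V) ^ k - 1)) 0 k
        ((k : ℚ) * (k - 1) / 2 + ((n : ℚ) - 1) * k) := by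
      refine ((T3_pow (n - 1)).mul ((T3_pow k).sub T3_one)).congr ?_ ?_ ?_
      · ring
      · ring
      · have : ((n - 1 : ℕ) : ℚ) = (n : ℚ) - 1 := by
          rw [Nat.cast_sub (by omega)]; push_cast; ring
        rw [this]; ring
    have hR := (((((Rep_C _ _ _ _ hT).mul (Rep_uu n)).mul (Rep_uu (n + k))).mul h).mul g).mul
      (Rep_X_pow (n * (d + 1)))
    have hcn : 2 * (C ((k : ℚ) * (k - 1) / 2 + ((n : ℚ) - 1) * k) : ℚ⟦X⟧) =
        (k : ℚ⟦X⟧) * (k - 1) + 2 * ((n : ℚ⟦X⟧) - 1) * k := by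
      rw [map_add, mul_add, hc2, map_mul, map_sub, C_nat, C_nat, map_one]; ring
    refine ⟨_, hR.congr ?_ ?_ rfl, ?_⟩
    · rw [map_zero]; ring
    · rw [smul_eq_nat, C_nat, map_zero]; ring
    · rw [smul_eq_nat, smul_eq_nat, C_nat, map_zero, PowerSeries.smul_eq_C_mul,
        map_ofNat (C : ℚ →+* ℚ⟦X⟧) 2]
      push_cast at g1
      linear_combination uu ℚ n * uu ℚ (n + k) * X ^ (n * (d + 1)) * hcn +
        (k : ℚ⟦X⟧) * uu ℚ n * uu ℚ (n + k) * X ^ (n * (d + 1)) * (h1 + g1)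

theorem outer (φ : ℤ → ℚ) (d k : ℕ) :
    ∃ c : ℚ⟦X⟧, Rep (X ^ k * uu V k * WW (fun e => (C (φ e) : V)) d k *
        (C (∑ i ∈ Finset.range k, (uV : V) ^ i) * uu V k * PiN uV k +
          psum fun n => if n = 0 then 0 else
            C ((uV : V) ^ (n - 1) * ((uV : V) ^ k - 1)) * uu V n * uu V (n + k) *
              PiN uV n * PiN uV (n + k) * X ^ (n * (d + 1))))
        ((k : ℚ) • (X ^ k * uu ℚ k ^ 2 * WW φ d k))
        ((k : ℚ) • (X ^ k * uu ℚ k * WW φ d k *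
          (uu ℚ k * HH k + psum fun n => if n = 0 then 0 else
            uu ℚ n * uu ℚ (n + k) * X ^ (n * (d + 1))))) c ∧
      2 * c + (k : ℚ) • (X ^ k * uu ℚ k * WW φ d k *
          (uu ℚ k * HH k + psum fun n => if n = 0 then 0 else
            uu ℚ n * uu ℚ (n + k) * X ^ (n * (d + 1)))) =
        (k : ℚ) • (X ^ k * uu ℚ k * WW φ d k *
          (uu ℚ k * (C (((k : ℚ) - 1) * ((k : ℚ) + 4) / 12) + (2 : ℚ) • EE2 k) +
          (2 : ℚ) • psum fun n => if n = 0 then 0 else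
            uu ℚ n * uu ℚ (n + k) * (HH n + HH (n + k)) * X ^ (n * (d + 1)))) := by
  choose c' hc' he' using second d k
  have hps := Rep_psum _ _ _ _ hc'
  rw [psum_zero, psum_smul] at hps
  have he : 2 * psum c' + (k : ℚ) • (psum fun n => if n = 0 then 0 else
      uu ℚ n * uu ℚ (n + k) * X ^ (n * (d + 1))) = (k : ℚ) • ((2 : ℚ) • psum fun n =>
      if n = 0 then 0 else
        uu ℚ n * uu ℚ (n + k) * (HH n + HH (n + k)) * X ^ (n * (d + 1))) := by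
    rw [← psum_smul, ← psum_smul, ← psum_smul]
    have h2 : 2 * psum c' = psum fun n => (2 : ℚ) • c' n := by
      rw [psum_smul, PowerSeries.smul_eq_C_mul, map_ofNat (C : ℚ →+* ℚ⟦X⟧) 2]
    rw [h2, ← psum_add]
    congr 1; funext n
    rw [← he' n, PowerSeries.smul_eq_C_mul, map_ofNat (C : ℚ →+* ℚ⟦X⟧) 2]
  rcases Nat.eq_zero_or_pos k with hk | hk
  · subst hk
    refine ⟨0, ?_, by simp⟩
    have hz : ∀ G : V⟦X⟧, C (∑ i ∈ Finset.range 0, (uV : V) ^ i) * uu V 0 * G +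
        (psum fun n => if n = 0 then 0 else
            C ((uV : V) ^ (n - 1) * ((uV : V) ^ 0 - 1)) * uu V n * uu V (n + 0) *
              PiN uV n * PiN uV (n + 0) * X ^ (n * (d + 1))) = 0 := by
      intro G
      have : (fun n => if n = 0 then (0 : V⟦X⟧) else
            C ((uV : V) ^ (n - 1) * ((uV : V) ^ 0 - 1)) * uu V n * uu V (n + 0) *
              PiN uV n * PiN uV (n + 0) * X ^ (n * (d + 1))) = fun _ => 0 := by
        funext n; simp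
      rw [this]
      simp only [Finset.range_zero, Finset.sum_empty, map_zero, zero_mul, zero_add]
      ext n; unfold psum; simp
    rw [hz, mul_zero]
    exact Rep_zero.congr (by simp) (by simp) rfl
  · obtain ⟨c, hc, hce⟩ := first k hk
    have hR := (((Rep_X_pow k).mul (Rep_uu k)).mul (Rep_WW φ d k)).mul (hc.add hps)
    refine ⟨_, hR.congr ?_ ?_ rfl, ?_⟩
    · rw [smul_eq_nat]; ring
    · rw [smul_eq_nat, smul_eq_nat]; ring
    · rw [smul_eq_nat, smul_eq_nat, two_smul'] at he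
      rw [smul_eq_nat, smul_eq_nat, smul_eq_nat, two_smul', two_smul']
      linear_combination X ^ k * uu ℚ k * WW φ d k * (hce + he)

theorem Rep_RHS (φ : ℤ → ℚ) (d : ℕ) :
    ∃ c : ℚ⟦X⟧, Rep (RHS6 uV (fun e => (C (φ e) : V)) d)
        (psum fun k => (k : ℚ) • (X ^ k * uu ℚ k ^ 2 * WW φ d k))
        (psum fun k => (k : ℚ) • (X ^ k * uu ℚ k * WW φ d k *
          (uu ℚ k * HH k + psum fun n => if n = 0 then 0 else
            uu ℚ n * uu ℚ (n + k) * X ^ (n * (d + 1))))) c ∧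
      2 * c + (psum fun k => (k : ℚ) • (X ^ k * uu ℚ k * WW φ d k *
          (uu ℚ k * HH k + psum fun n => if n = 0 then 0 else
            uu ℚ n * uu ℚ (n + k) * X ^ (n * (d + 1))))) =
        psum fun k => (k : ℚ) • (X ^ k * uu ℚ k * WW φ d k *
          (uu ℚ k * (C (((k : ℚ) - 1) * ((k : ℚ) + 4) / 12) + (2 : ℚ) • EE2 k) +
          (2 : ℚ) • psum fun n => if n = 0 then 0 else
            uu ℚ n * uu ℚ (n + k) * (HH n + HH (n + k)) * X ^ (n * (d + 1)))) := by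
  choose c hc he using outer φ d
  refine ⟨psum c, Rep_psum _ _ _ _ hc, ?_⟩
  have h2 : 2 * psum c = psum fun n => (2 : ℚ) • c n := by
    rw [psum_smul, PowerSeries.smul_eq_C_mul, map_ofNat (C : ℚ →+* ℚ⟦X⟧) 2]
  rw [h2, ← psum_add]
  congr 1; funext n
  rw [← he n, PowerSeries.smul_eq_C_mul, map_ofNat (C : ℚ →+* ℚ⟦X⟧) 2]

theorem main (h : S_F6) (φ : ℤ → ℚ) (d : ℕ) :
    cov (Phi φ) (Pr 0 d) = (psum fun k => (k : ℚ) • (X ^ k * uu ℚ k ^ 2 * WW φ d k)) ∧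
    cov (Phi φ) (Pr 1 d) = (psum fun k => (k : ℚ) • (X ^ k * uu ℚ k * WW φ d k *
          (uu ℚ k * HH k + psum fun n => if n = 0 then 0 else
            uu ℚ n * uu ℚ (n + k) * X ^ (n * (d + 1))))) ∧
    cov (Phi φ) (Pr 2 d) = psum fun k => (k : ℚ) • (X ^ k * uu ℚ k * WW φ d k *
          (uu ℚ k * (C (((k : ℚ) - 1) * ((k : ℚ) + 4) / 12) + (2 : ℚ) • EE2 k) +
          (2 : ℚ) • psum fun n => if n = 0 then 0 else
            uu ℚ n * uu ℚ (n + k) * (HH n + HH (n + k)) * X ^ (n * (d + 1)))) := by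
  obtain ⟨c, hR, hc⟩ := Rep_RHS φ d
  have h6 := h V uV uV_ne_one (fun e => (C (φ e) : V)) d
  have hL := Rep_LHS φ d
  rw [h6] at hL
  have h1 : Rep (gen (fun _ => (1 : V))) (gen (fun _ => (1 : ℚ))) 0 0 := by
    refine (Rep_gen _ (fun _ => 1) (fun _ => 0) (fun _ => 0) fun _ => T3_one).congr rfl ?_ ?_ <;>
      (ext n; rw [coeff_gen]; simp)
  have h1s : Rep (gen (fun _ => (1 : V)) ^ 2) (gen (fun _ => (1 : ℚ)) ^ 2) 0 0 := by
    rw [pow_two, pow_two]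
    refine (h1.mul h1).congr rfl ?_ ?_ <;> ring
  obtain ⟨e0, e1, e2⟩ := hL.unique (h1s.mul hR)
  have hne : gen (fun _ => (1 : ℚ)) ^ 2 ≠ 0 := by
    refine pow_ne_zero 2 fun h0 => gen_one_ne ?_
    rw [h0, map_zero]
  rw [cov_eq] at e0 e1 e2
  have f0 := mul_left_cancel₀ hne e0
  have f1 : cov (Phi φ) (Pr 1 d) = _ := mul_left_cancel₀ hne (e1.trans (by rw [zero_mul, add_zero]))
  have f2 : cov (Phi φ) (fun π => (Pr 2 d π - Pr 1 d π) / 2) = c :=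
    mul_left_cancel₀ hne (e2.trans (by rw [zero_mul, zero_mul, add_zero, add_zero]))
  refine ⟨f0, f1, ?_⟩
  rw [← hc, ← f1, ← f2]
  have := cov_half (Phi φ) (Pr 2 d) (Pr 1 d)
  rw [PowerSeries.smul_eq_C_mul, map_ofNat (C : ℚ →+* ℚ⟦X⟧) 2] at this
  rw [this]; ring

end MF

/-- main formula, `r = 0`. -/
theorem MF0 (h : S_F6) : S_MF0 := fun φ d => (MF.main h φ d).1

/-- main formula, `r = 1`. -/
theorem MF1 (h : S_F6) : S_MF1 := fun φ d => (MF.main h φ d).2.1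

/-- main formula, `r = 2`. -/
theorem MF2 (h : S_F6) : S_MF2 := fun φ d => (MF.main h φ d).2.2

end

end Pool.Agent.H946.Z
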