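import Pool.Agent.H946.Z.Basic
set_option autoImplicit false

/-!
# MP_d9449f_ag : `oqZ` is contained in the algebra of the `G_{a,l}` (subtask Z19, by helper336)
-/

namespace Pool.Agent.H946.Z

open PowerSeries

namespace OQ

theorem qD_mul (f g : ℚ⟦X⟧) : qD (f * g) = f * qD g + g * qD f := by
  unfold qD
  rw [Derivation.leibniz, smul_eq_mul, smul_eq_mul]
  ring

theorem qD_add (f g : ℚ⟦X⟧) : qD (f + g) = qD f + qD g := by
  unfold qD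
  rw [map_add, mul_add]

theorem qD_sub (f g : ℚ⟦X⟧) : qD (f - g) = qD f - qD g := by
  unfold qD
  rw [map_sub, mul_sub]

theorem coeff_qD (f : ℚ⟦X⟧) (n : ℕ) :
    PowerSeries.coeff n (qD f) = (n : ℚ) * PowerSeries.coeff n f := by
  unfold qD
  cases n with
  | zero => simp
  | succ n =>
    rw [PowerSeries.coeff_succ_X_mul, PowerSeries.coeff_derivative]
    push_cast
    ring

theorem coeff_qD_iter (f : ℚ⟦X⟧) (l n : ℕ) :
    PowerSeries.coeff n (qD^[l] f) = (n : ℚ) ^ l * PowerSeries.coeff n f := by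
  induction l with
  | zero => simp
  | succ l ih =>
    rw [Function.iterate_succ_apply', coeff_qD, ih, pow_succ]
    ring

theorem qD_natCast_mul (c : ℕ) (f : ℚ⟦X⟧) : qD ((c : ℚ⟦X⟧) * f) = (c : ℚ⟦X⟧) * qD f := by
  ext n
  rw [coeff_qD]
  have h : ((c : ℕ) : ℚ⟦X⟧) = PowerSeries.C (c : ℚ) := by simp
  rw [h, PowerSeries.coeff_C_mul, PowerSeries.coeff_C_mul, coeff_qD]
  ring

theorem qD_one : qD 1 = 0 := by
  ext n
  rw [coeff_qD, PowerSeries.coeff_one]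
  by_cases h : n = 0
  · simp [h]
  · simp [h]

theorem qD_pow_succ (f : ℚ⟦X⟧) (m : ℕ) :
    qD (f ^ (m + 1)) = ((m : ℚ⟦X⟧) + 1) * f ^ m * qD f := by
  induction m with
  | zero => simp
  | succ m ih =>
    rw [pow_succ, qD_mul, ih]
    push_cast
    ring

theorem qD_X_pow (n : ℕ) : qD (X ^ n) = (n : ℚ⟦X⟧) * X ^ n := by
  ext N
  have h : ((n : ℕ) : ℚ⟦X⟧) = PowerSeries.C (n : ℚ) := by simp
  rw [coeff_qD, h, PowerSeries.coeff_C_mul, PowerSeries.coeff_X_pow]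
  by_cases hN : N = n
  · rw [hN]
  · simp [hN]

/-- `F_k = x^k (1+x) U^(2k+1)`. -/
noncomputable def Fk (n k : ℕ) : ℚ⟦X⟧ := X ^ (k * n) * (1 + X ^ n) * (uu ℚ n) ^ (2 * k + 1)

/-- auxiliary series -/
noncomputable def Gk (n k : ℕ) : ℚ⟦X⟧ :=
  X ^ (k * n) * (uu ℚ n) ^ (2 * k + 2) * ((k : ℚ⟦X⟧) + (2 * (k : ℚ⟦X⟧) + 2) * X ^ n +
    (k : ℚ⟦X⟧) * X ^ n * X ^ n)

theorem qD_uu (n : ℕ) (hn : 1 ≤ n) : qD (uu ℚ n) = (n : ℚ⟦X⟧) * X ^ n * uu ℚ n ^ 2 := by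
  have h := uu_mul (R := ℚ) n hn
  have h1 : qD ((1 - X ^ n) * uu ℚ n) = 0 := by rw [h, qD_one]
  rw [qD_mul, qD_sub, qD_one, qD_X_pow, zero_sub] at h1
  have h2 : uu ℚ n * ((1 - X ^ n) * qD (uu ℚ n)) = uu ℚ n * (uu ℚ n * ((n : ℚ⟦X⟧) * X ^ n)) := by
    congr 1
    linear_combination h1
  calc qD (uu ℚ n) = ((1 - X ^ n) * uu ℚ n) * qD (uu ℚ n) := by rw [h, one_mul]
    _ = uu ℚ n * ((1 - X ^ n) * qD (uu ℚ n)) := by ring
    _ = _ := by rw [h2]; ring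

theorem qD_Fk (n k : ℕ) (hn : 1 ≤ n) : qD (Fk n k) = (n : ℚ⟦X⟧) * Gk n k := by
  have h := uu_mul (R := ℚ) n hn
  rw [Fk, Gk, qD_mul, qD_mul, qD_add, qD_one, qD_X_pow, qD_X_pow, qD_pow_succ, qD_uu n hn]
  push_cast
  set U := uu ℚ n
  set x : ℚ⟦X⟧ := X ^ n
  set y : ℚ⟦X⟧ := X ^ (k * n)
  linear_combination (-(n : ℚ⟦X⟧) * y * U ^ (2 * k + 1) * ((k : ℚ⟦X⟧) * (1 + x) + x)) * h

theorem qD_Gk (n k : ℕ) (hn : 1 ≤ n) : qD (Gk n k) =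
    (n : ℚ⟦X⟧) * ((k : ℚ⟦X⟧) ^ 2 * Fk n k +
      (2 * (k : ℚ⟦X⟧) + 1) * (2 * (k : ℚ⟦X⟧) + 2) * Fk n (k + 1)) := by
  have h := uu_mul (R := ℚ) n hn
  have e1 : qD ((k : ℚ⟦X⟧) + (2 * (k : ℚ⟦X⟧) + 2) * X ^ n + (k : ℚ⟦X⟧) * X ^ n * X ^ n) =
      (n : ℚ⟦X⟧) * ((2 * (k : ℚ⟦X⟧) + 2) * X ^ n + 2 * (k : ℚ⟦X⟧) * X ^ n * X ^ n) := by
    have e2 : (k : ℚ⟦X⟧) + (2 * (k : ℚ⟦X⟧) + 2) * X ^ n + (k : ℚ⟦X⟧) * X ^ n * X ^ n =
      (k : ℚ⟦X⟧) * 1 + ((2 * k + 2 : ℕ) : ℚ⟦X⟧) * X ^ n + (k : ℚ⟦X⟧) * (X ^ n * X ^ n) := by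
      push_cast; ring
    rw [e2, qD_add, qD_add, qD_natCast_mul, qD_natCast_mul, qD_natCast_mul, qD_one, qD_mul,
      qD_X_pow]
    push_cast
    ring
  rw [Gk, qD_mul, qD_mul, qD_X_pow, show 2 * k + 2 = (2 * k + 1) + 1 from rfl, qD_pow_succ,
    qD_uu n hn, e1, Fk, Fk]
  have e3 : (X : ℚ⟦X⟧) ^ ((k + 1) * n) = X ^ (k * n) * X ^ n := by rw [← pow_add]; ring
  rw [e3]
  push_cast
  set U := uu ℚ n
  set x : ℚ⟦X⟧ := X ^ n
  set y : ℚ⟦X⟧ := X ^ (k * n)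
  linear_combination ((n : ℚ⟦X⟧) * y * U ^ (2 * k + 1) *
    (-(2 * (k : ℚ⟦X⟧) + 2) * x * ((k : ℚ⟦X⟧) * x + (k : ℚ⟦X⟧) + 1) * U +
      (k : ℚ⟦X⟧) ^ 2 * (1 + x))) * h

/-- the recursion of the coefficients. -/
theorem rec_Fk (n k N : ℕ) (hn : 1 ≤ n) :
    (2 * (k : ℚ) + 1) * (2 * (k : ℚ) + 2) * (n : ℚ) ^ 2 * PowerSeries.coeff N (Fk n (k + 1)) =
      ((N : ℚ) ^ 2 - (k : ℚ) ^ 2 * (n : ℚ) ^ 2) * PowerSeries.coeff N (Fk n k) := by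
  have h1 : qD (qD (Fk n k)) = (n : ℚ⟦X⟧) * ((n : ℚ⟦X⟧) * ((k : ℚ⟦X⟧) ^ 2 * Fk n k +
      (2 * (k : ℚ⟦X⟧) + 1) * (2 * (k : ℚ⟦X⟧) + 2) * Fk n (k + 1))) := by
    rw [qD_Fk n k hn, qD_natCast_mul, qD_Gk n k hn]
  have h2 := congrArg (PowerSeries.coeff N) h1
  rw [coeff_qD, coeff_qD] at h2
  have e : ∀ c : ℕ, ((c : ℕ) : ℚ⟦X⟧) = PowerSeries.C (c : ℚ) := fun c => by simp
  have h3 : (n : ℚ⟦X⟧) * ((n : ℚ⟦X⟧) * ((k : ℚ⟦X⟧) ^ 2 * Fk n k +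
      (2 * (k : ℚ⟦X⟧) + 1) * (2 * (k : ℚ⟦X⟧) + 2) * Fk n (k + 1))) =
      PowerSeries.C ((n : ℚ) ^ 2 * (k : ℚ) ^ 2) * Fk n k +
      PowerSeries.C ((n : ℚ) ^ 2 * ((2 * (k : ℚ) + 1) * (2 * (k : ℚ) + 2))) * Fk n (k + 1) := by
    simp only [map_mul, map_pow, map_add, map_one, map_ofNat, ← e]
    ring
  rw [h3, map_add, PowerSeries.coeff_C_mul, PowerSeries.coeff_C_mul] at h2
  linear_combination -h2

/-- the polynomials. -/
noncomputable def cp : ℕ → Polynomial ℚ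
  | 0 => Polynomial.C 2
  | k + 1 => cp k * (Polynomial.X - Polynomial.C ((k : ℚ) ^ 2)) *
      Polynomial.C (((2 * (k : ℚ) + 1) * (2 * (k : ℚ) + 2))⁻¹)

theorem X_dvd_cp (k : ℕ) (hk : 1 ≤ k) : Polynomial.X ∣ cp k := by
  induction k with
  | zero => omega
  | succ k ih =>
    rw [cp]
    rcases Nat.eq_zero_or_pos k with h0 | h0
    · subst h0
      refine Dvd.dvd.mul_right (Dvd.dvd.mul_left ?_ _) _
      simp
    · exact Dvd.dvd.mul_right (Dvd.dvd.mul_right (ih h0) _) _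

theorem coeff_Fk_zero (n N : ℕ) (hn : 1 ≤ n) (hN : 1 ≤ N) :
    PowerSeries.coeff N (Fk n 0) = if n ∣ N then 2 else 0 := by
  have h : Fk n 0 = 2 * uu ℚ n - 1 := by
    rw [Fk]
    have h := uu_mul (R := ℚ) n hn
    simp only [zero_mul, mul_zero, zero_add, pow_zero, pow_one, one_mul]
    linear_combination -h
  have e : (2 : ℚ⟦X⟧) = PowerSeries.C 2 := (map_ofNat (PowerSeries.C (R := ℚ)) 2).symm
  rw [h, map_sub, e, PowerSeries.coeff_C_mul, PowerSeries.coeff_one, if_neg (by omega), uu,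
    PowerSeries.coeff_mk]
  split_ifs <;> simp

theorem coeff_Fk (n k N : ℕ) (hn : 1 ≤ n) (hN : 1 ≤ N) :
    PowerSeries.coeff N (Fk n k) =
      if n ∣ N then (cp k).eval (((N / n : ℕ) : ℚ) ^ 2) else 0 := by
  induction k with
  | zero => rw [coeff_Fk_zero n N hn hN, cp]; simp
  | succ k ih =>
    have h1 := rec_Fk n k N hn
    have hn0 : (n : ℚ) ≠ 0 := by exact_mod_cast (by omega : n ≠ 0)
    have h2 : (2 * (k : ℚ) + 1) * (2 * (k : ℚ) + 2) ≠ 0 := by positivity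
    rw [ih] at h1
    by_cases hd : n ∣ N
    · rw [if_pos hd] at h1 ⊢
      rw [cp, Polynomial.eval_mul, Polynomial.eval_mul, Polynomial.eval_sub, Polynomial.eval_X,
        Polynomial.eval_C, Polynomial.eval_C]
      have h3 : ((N / n : ℕ) : ℚ) = (N : ℚ) / n := Nat.cast_div hd hn0
      have h4 : (N : ℚ) = (n : ℚ) * ((N / n : ℕ) : ℚ) := by rw [h3]; field_simp
      rw [eq_comm, ← div_eq_mul_inv, div_eq_iff h2]
      have h5 : (n : ℚ) ^ 2 ≠ 0 := pow_ne_zero _ hn0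
      apply mul_left_cancel₀ h5
      rw [h4] at h1
      linear_combination -h1
    · rw [if_neg hd] at h1 ⊢
      rw [mul_zero] at h1
      exact (mul_eq_zero.1 h1).resolve_left (mul_ne_zero h2 (pow_ne_zero _ hn0))

theorem coeff_oddZeta (k N : ℕ) : PowerSeries.coeff N (oddZeta k) =
    ∑ d ∈ N.divisors, (cp k).eval ((d : ℚ) ^ 2) := by
  rw [oddZeta, PowerSeries.coeff_mk]
  rcases Nat.eq_zero_or_pos N with h0 | h0
  · subst h0; simp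
  rw [map_sum, ← Nat.sum_div_divisors N (fun d => (cp k).eval ((d : ℚ) ^ 2)),
    show N.divisors = (Finset.Icc 1 N).filter (fun n => n ∣ N) from ?_, Finset.sum_filter]
  · refine Finset.sum_congr rfl fun n hn => ?_
    rw [Finset.mem_Icc] at hn
    rw [← coeff_Fk n k N hn.1 h0, Fk, uu_eq_inv n hn.1]
  · ext n
    rw [Nat.mem_divisors, Finset.mem_filter, Finset.mem_Icc]
    constructor
    · rintro ⟨h1, h2⟩
      exact ⟨⟨Nat.pos_of_dvd_of_pos h1 h0, Nat.le_of_dvd h0 h1⟩, h1⟩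
    · rintro ⟨_, h1⟩
      exact ⟨h1, by omega⟩

/-- the generators -/
theorem gen_mem (k l : ℕ) (hk : 1 ≤ k) :
    ∃ P : MvPolynomial (ℕ × ℕ) ℚ, qD^[l] (oddZeta k) = MvPolynomial.aeval GG P := by
  obtain ⟨r, hr⟩ := X_dvd_cp k hk
  refine ⟨∑ i ∈ r.support, MvPolynomial.C (r.coeff i) * MvPolynomial.X (i, l), ?_⟩
  rw [map_sum]
  ext N
  rw [coeff_qD_iter, coeff_oddZeta, map_sum, hr]
  have h1 : ∀ i ∈ r.support, PowerSeries.coeff N (MvPolynomial.aeval GG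
      (MvPolynomial.C (r.coeff i) * MvPolynomial.X (i, l) : MvPolynomial (ℕ × ℕ) ℚ)) =
      r.coeff i * ((N : ℚ) ^ l * ∑ d ∈ N.divisors, (d : ℚ) ^ (2 * i + 2)) := by
    intro i _
    rw [map_mul, MvPolynomial.aeval_X, MvPolynomial.aeval_C, PowerSeries.algebraMap_apply,
      Algebra.algebraMap_self_apply, PowerSeries.coeff_C_mul, GG, PowerSeries.coeff_mk]
  rw [Finset.sum_congr rfl h1]
  have h2 : ∀ d ∈ N.divisors, (Polynomial.X * r).eval ((d : ℚ) ^ 2) =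
      ∑ i ∈ r.support, r.coeff i * (d : ℚ) ^ (2 * i + 2) := by
    intro d _
    rw [Polynomial.eval_mul, Polynomial.eval_X, Polynomial.eval_eq_sum, Polynomial.sum,
      Finset.mul_sum]
    refine Finset.sum_congr rfl fun i _ => ?_
    rw [← pow_mul]
    ring
  rw [Finset.sum_congr rfl h2, Finset.sum_comm, Finset.mul_sum]
  refine Finset.sum_congr rfl fun i _ => ?_
  rw [← Finset.mul_sum]
  ring

end OQ

theorem oqz : S_oqZ := by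
  intro F hF
  unfold oqZ at hF
  induction hF using Algebra.adjoin_induction with
  | mem x hx =>
    obtain ⟨k, l, hk, rfl⟩ := hx
    exact OQ.gen_mem k l hk
  | algebraMap r => exact ⟨MvPolynomial.C r, by rw [MvPolynomial.aeval_C]⟩
  | add x y _ _ hx hy =>
    obtain ⟨P, rfl⟩ := hx
    obtain ⟨Q, rfl⟩ := hy
    exact ⟨P + Q, by rw [map_add]⟩
  | mul x y _ _ hx hy =>
    obtain ⟨P, rfl⟩ := hx
    obtain ⟨Q, rfl⟩ := hy
    exact ⟨P * Q, by rw [map_mul]⟩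

end Pool.Agent.H946.Z
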