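import Pool.Agent.H946.Z.Basic
set_option autoImplicit false

/-!
# MP_d9449f_ag : elementary facts on `q_N` (by helper282)
-/

namespace Pool.Agent.H946.Z

namespace QN

open Complex

theorem lowb : ∃ c : ℝ, 0 < c ∧ ∀ ξ : ℂ, |ξ.re| ≤ 1 / 2 → 0 ≤ ξ.im → ξ.im ≤ 1 / 2 →
    c * ‖ξ‖ ≤ ‖1 - exp (2 * Real.pi * I * ξ)‖ := by
  have hpi := Real.pi_pos
  let K : Set ℂ := {ξ | |ξ.re| ≤ 1 / 2 ∧ 0 ≤ ξ.im ∧ ξ.im ≤ 1 / 2 ∧ 1 / (4 * Real.pi) ≤ ‖ξ‖}
  have hb : ∀ ξ : ℂ, |ξ.re| ≤ 1 / 2 → 0 ≤ ξ.im → ξ.im ≤ 1 / 2 → ‖ξ‖ ≤ 1 := by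
    intro ξ h1 h2 h3
    refine (Complex.norm_le_abs_re_add_abs_im ξ).trans ?_
    rw [abs_of_nonneg h2]
    linarith
  have hKc : IsCompact K := by
    refine Metric.isCompact_of_isClosed_isBounded ?_ ?_
    · have e1 : IsClosed {ξ : ℂ | |ξ.re| ≤ 1 / 2} := isClosed_le (by fun_prop) (by fun_prop)
      have e2 : IsClosed {ξ : ℂ | 0 ≤ ξ.im} := isClosed_le (by fun_prop) (by fun_prop)
      have e3 : IsClosed {ξ : ℂ | ξ.im ≤ 1 / 2} := isClosed_le (by fun_prop) (by fun_prop)
      have e4 : IsClosed {ξ : ℂ | 1 / (4 * Real.pi) ≤ ‖ξ‖} :=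
        isClosed_le (by fun_prop) (by fun_prop)
      exact e1.inter (e2.inter (e3.inter e4))
    · refine (Metric.isBounded_closedBall (x := (0 : ℂ)) (r := 1)).subset fun ξ hξ => ?_
      rw [mem_closedBall_zero_iff]
      exact hb ξ hξ.1 hξ.2.1 hξ.2.2.1
  have hne : ∀ ξ ∈ K, 0 < ‖1 - exp (2 * Real.pi * I * ξ)‖ := by
    rintro ξ ⟨h1, h2, h3, h4⟩
    rw [norm_pos_iff, sub_ne_zero]
    intro h5
    obtain ⟨n, hn⟩ := Complex.exp_eq_one_iff.1 h5.symm
    have h6 : ξ = n := by
      have h7 : (2 * Real.pi * I : ℂ) ≠ 0 := Complex.two_pi_I_ne_zero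
      apply mul_left_cancel₀ h7
      rw [hn]
      ring
    have h8 : n = 0 := by
      have h9 : |(n : ℝ)| ≤ 1 / 2 := by
        rw [h6] at h1
        simpa using h1
      by_contra h10
      have h11 : (1 : ℝ) ≤ |(n : ℝ)| := by
        exact_mod_cast Int.one_le_abs h10
      linarith
    rw [h6, h8] at h4
    simp only [Int.cast_zero, norm_zero] at h4
    have : 0 < 1 / (4 * Real.pi) := by positivity
    linarith
  obtain ⟨c1, hc1, hK⟩ : ∃ c1 : ℝ, 0 < c1 ∧ ∀ ξ ∈ K, c1 ≤ ‖1 - exp (2 * Real.pi * I * ξ)‖ := by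
    rcases K.eq_empty_or_nonempty with hem | hnem
    · exact ⟨1, one_pos, fun ξ hξ => by rw [hem] at hξ; exact absurd hξ (Set.notMem_empty ξ)⟩
    · obtain ⟨ξ0, hξ0, hmin⟩ := hKc.exists_isMinOn hnem
        (f := fun ξ : ℂ => ‖1 - exp (2 * Real.pi * I * ξ)‖) (by fun_prop)
      exact ⟨_, hne ξ0 hξ0, fun ξ hξ => hmin hξ⟩
  refine ⟨min c1 1, lt_min hc1 one_pos, fun ξ h1 h2 h3 => ?_⟩
  by_cases h4 : 1 / (4 * Real.pi) ≤ ‖ξ‖
  · have h5 := hK ξ ⟨h1, h2, h3, h4⟩
    have h6 := hb ξ h1 h2 h3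
    have h7 : min c1 1 ≤ c1 := min_le_left _ _
    have h8 : (0 : ℝ) < min c1 1 := lt_min hc1 one_pos
    have h9 := norm_nonneg ξ
    nlinarith
  · rw [not_le] at h4
    set x : ℂ := 2 * Real.pi * I * ξ with hx
    have hxn : ‖x‖ = 2 * Real.pi * ‖ξ‖ := by
      rw [hx]
      simp [abs_of_pos hpi]
    have hx2 : ‖x‖ ≤ 1 / 2 := by
      rw [hxn]
      rw [lt_div_iff₀ (by positivity)] at h4
      linarith
    have h5 := Complex.norm_exp_sub_one_sub_id_le (x := x) (by linarith)
    have h6 : ‖x‖ ≤ ‖1 - exp x‖ + ‖exp x - 1 - x‖ := by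
      have : x = -(1 - exp x) - (exp x - 1 - x) := by ring
      calc ‖x‖ = ‖-(1 - exp x) - (exp x - 1 - x)‖ := by rw [← this]
        _ ≤ _ := by
          refine (norm_sub_le _ _).trans ?_
          rw [norm_neg]
    have h7 : ‖x‖ / 2 ≤ ‖1 - exp x‖ := by nlinarith [norm_nonneg x]
    have h8 : min c1 1 ≤ 1 := min_le_right _ _
    have h9 := norm_nonneg ξ
    have h10 := Real.pi_gt_three
    nlinarith

theorem norm_qN (τ : ℂ) (N : ℕ) :
    ‖qN τ N‖ = Real.exp (-(2 * Real.pi * τ.im / normSq (τ + N))) := by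
  unfold qN
  rw [Complex.norm_exp]
  congr 1
  have h1 : (2 * Real.pi * I * (-1 / (τ + N)) : ℂ).re = -(2 * Real.pi * (-1 / (τ + N) : ℂ).im) := by
    have : (2 * Real.pi * I * (-1 / (τ + N)) : ℂ) = ((2 * Real.pi : ℝ) : ℂ) * (I * (-1 / (τ + N))) := by
      push_cast; ring
    rw [this, Complex.re_ofReal_mul, Complex.I_mul_re]
    ring
  rw [h1]
  have h2 : (-1 / (τ + N) : ℂ).im = τ.im / normSq (τ + N) := by
    rw [neg_div, one_div, Complex.neg_im, Complex.inv_im]
    simp
    ring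
  rw [h2]
  ring

theorem ns_pos {τ : ℂ} (hτ : 0 < τ.im) (N : ℕ) : 0 < normSq (τ + N) := by
  rw [normSq_pos]
  intro h
  have := congrArg Complex.im h
  simp at this
  linarith

theorem norm_le {τ : ℂ} {N : ℕ} (hN : 1 ≤ N) : ‖τ + N‖ ≤ (‖τ‖ + 1) * N := by
  refine (norm_add_le _ _).trans ?_
  rw [Complex.norm_natCast]
  have : (1 : ℝ) ≤ N := by exact_mod_cast hN
  nlinarith [norm_nonneg τ]

end QN

open Complex QN in
theorem qNfacts : S_qN := by
  intro τ hτ
  have hpi := Real.pi_pos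
  refine ⟨fun N => ?_, ?_, fun a => ?_⟩
  · rw [norm_qN, Real.exp_lt_one_iff]
    have := ns_pos hτ N
    have : 0 < 2 * Real.pi * τ.im / normSq (τ + N) := by positivity
    linarith
  · obtain ⟨c, hc, hlow⟩ := lowb
    set cτ : ℝ := min 1 τ.im with hcτ
    have hcτ0 : 0 < cτ := lt_min one_pos hτ
    refine ⟨2 + (‖τ‖ + 1) / (c * cτ), fun N hN k hk => ?_⟩
    have hN1 : (1 : ℝ) ≤ N := by exact_mod_cast hN
    have hk1 : (1 : ℝ) ≤ k := by exact_mod_cast hk
    have hz0 : (τ + N : ℂ) ≠ 0 := normSq_pos.1 (ns_pos hτ N)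
    have hzn : 0 < ‖(τ + N : ℂ)‖ := norm_pos_iff.2 hz0
    set z : ℂ := τ + N with hz
    set w : ℂ := -k / z with hw
    have hqk : qN τ N ^ k = exp (2 * Real.pi * I * w) := by
      unfold qN
      rw [← Complex.exp_nat_mul]
      congr 1
      rw [hw, ← hz]
      ring
    have hwim : w.im = k * τ.im / normSq z := by
      rw [hw, neg_div, Complex.neg_im, div_eq_mul_inv, ← Complex.ofReal_natCast,
        Complex.im_ofReal_mul, Complex.inv_im]
      have : z.im = τ.im := by rw [hz]; simp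
      rw [this]
      ring
    have hwim0 : 0 < w.im := by
      rw [hwim]
      have := ns_pos hτ N
      positivity
    rw [hqk]
    by_cases h1 : w.im ≤ 1 / 2
    · set m : ℤ := round w.re with hm
      set ξ : ℂ := w - m with hξ
      have hre : |ξ.re| ≤ 1 / 2 := by
        rw [hξ, Complex.sub_re, Complex.intCast_re]
        exact abs_sub_round _
      have him : ξ.im = w.im := by
        rw [hξ, Complex.sub_im, Complex.intCast_im, sub_zero]
      have h2 := hlow ξ hre (by rw [him]; exact hwim0.le) (by rw [him]; exact h1)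
      have h3 : exp (2 * Real.pi * I * w) = exp (2 * Real.pi * I * ξ) := by
        rw [hξ, Complex.exp_eq_exp_iff_exists_int]
        exact ⟨m, by ring⟩
      rw [h3]
      have h4 : cτ / ‖z‖ ≤ ‖ξ‖ := by
        have h5 : ξ = -(k + m * z) / z := by
          rw [hξ, hw]
          field_simp
          ring
        rw [h5, norm_div, norm_neg]
        gcongr
        by_cases h6 : m = 0
        · rw [h6]
          simp only [Int.cast_zero, zero_mul, add_zero, Complex.norm_natCast]
          exact (min_le_left _ _).trans hk1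
        · refine (min_le_right _ _).trans ?_
          refine le_trans ?_ (Complex.abs_im_le_norm _)
          have h7 : ((k : ℂ) + m * z).im = m * τ.im := by
            rw [hz]
            simp
          rw [h7, abs_mul, abs_of_pos hτ]
          have h8 : (1 : ℝ) ≤ |(m : ℝ)| := by exact_mod_cast Int.one_le_abs h6
          nlinarith
      have h5 : c * (cτ / ‖z‖) ≤ ‖1 - exp (2 * Real.pi * I * ξ)‖ :=
        (mul_le_mul_of_nonneg_left h4 hc.le).trans h2
      have h6 : 0 < c * (cτ / ‖z‖) := by positivity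
      calc ‖1 - exp (2 * Real.pi * I * ξ)‖⁻¹ ≤ (c * (cτ / ‖z‖))⁻¹ := by gcongr
        _ = ‖z‖ / (c * cτ) := by field_simp
        _ ≤ ((‖τ‖ + 1) * N) / (c * cτ) := by
          gcongr
          exact norm_le hN
        _ ≤ (2 + (‖τ‖ + 1) / (c * cτ)) * N := by
          have : ((‖τ‖ + 1) * N) / (c * cτ) = (‖τ‖ + 1) / (c * cτ) * N := by ring
          rw [this]
          nlinarith
    · rw [not_le] at h1
      have h2 : ‖exp (2 * Real.pi * I * w)‖ ≤ 1 / 2 := by
        rw [Complex.norm_exp]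
        have h3 : (2 * Real.pi * I * w : ℂ).re = -(2 * Real.pi * w.im) := by
          have : (2 * Real.pi * I * w : ℂ) = ((2 * Real.pi : ℝ) : ℂ) * (I * w) := by
            push_cast; ring
          rw [this, Complex.re_ofReal_mul, Complex.I_mul_re]
          ring
        rw [h3]
        have h4 : -(2 * Real.pi * w.im) ≤ -1 := by
          have := Real.pi_gt_three
          nlinarith
        refine (Real.exp_le_exp.2 h4).trans ?_
        rw [Real.exp_neg, one_div]
        have h5 : (2 : ℝ) ≤ Real.exp 1 := by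
          have := Real.add_one_le_exp (1 : ℝ)
          linarith
        gcongr
      have h3 : 1 / 2 ≤ ‖1 - exp (2 * Real.pi * I * w)‖ := by
        have := norm_sub_norm_le (1 : ℂ) (exp (2 * Real.pi * I * w))
        rw [norm_one] at this
        linarith
      calc ‖1 - exp (2 * Real.pi * I * w)‖⁻¹ ≤ (1 / 2)⁻¹ := by gcongr
        _ ≤ (2 + (‖τ‖ + 1) / (c * cτ)) * N := by
          have : 0 ≤ (‖τ‖ + 1) / (c * cτ) := by positivity
          nlinarith
  · set c : ℝ := 2 * Real.pi * τ.im / (‖τ‖ + 1) ^ 2 with hc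
    have hc0 : 0 < c := by positivity
    refine ⟨a.factorial * ((1 + c) / c) ^ (a + 1), fun N hN => ?_⟩
    have hN1 : (1 : ℝ) ≤ N := by exact_mod_cast hN
    set x : ℝ := ‖qN τ N‖ with hx
    have hx0 : 0 ≤ x := norm_nonneg _
    have hns := ns_pos hτ N
    have hx1 : 1 / (1 - x) ≤ (1 + c) / c * N ^ 2 ∧ x < 1 := by
      set t : ℝ := 2 * Real.pi * τ.im / normSq (τ + N) with ht
      have ht0 : 0 < t := by positivity
      have hxt : x = Real.exp (-t) := norm_qN τ N
      have htc : c / N ^ 2 ≤ t := by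
        rw [hc, ht, div_div]
        gcongr
        rw [Complex.normSq_eq_norm_sq, ← mul_pow]
        exact pow_le_pow_left₀ (norm_nonneg _) (norm_le hN) 2
      have h1 : Real.exp (-t) ≤ 1 / (1 + t) := by
        rw [Real.exp_neg, ← one_div]
        have := Real.add_one_le_exp t
        gcongr
        linarith
      have h2 : c / N ^ 2 / (1 + c / N ^ 2) ≤ 1 - x := by
        rw [hxt]
        have h3 : c / N ^ 2 / (1 + c / N ^ 2) ≤ t / (1 + t) := by
          rw [div_le_div_iff₀ (by positivity) (by positivity)]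
          nlinarith
        have h4 : t / (1 + t) = 1 - 1 / (1 + t) := by
          field_simp
          ring
        linarith
      have h3 : c / N ^ 2 / (1 + c / N ^ 2) = c / (N ^ 2 + c) := by
        field_simp
      have h4 : c / ((1 + c) * N ^ 2) ≤ 1 - x := by
        refine le_trans ?_ h2
        rw [h3]
        have h7 : (1 : ℝ) ≤ (N : ℝ) ^ 2 := by nlinarith
        have h8 : c * 1 ≤ c * (N : ℝ) ^ 2 := mul_le_mul_of_nonneg_left h7 hc0.le
        gcongr
        linarith
      have h5 : 0 < c / ((1 + c) * N ^ 2) := by positivity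
      refine ⟨?_, by linarith⟩
      calc 1 / (1 - x) ≤ 1 / (c / ((1 + c) * N ^ 2)) := by gcongr
        _ = (1 + c) / c * N ^ 2 := by field_simp
    have hxn : ‖x‖ < 1 := by rw [Real.norm_of_nonneg hx0]; exact hx1.2
    have hs1 : Summable (fun k : ℕ => (k : ℝ) ^ a * x ^ k) :=
      summable_pow_mul_geometric_of_norm_lt_one a hxn
    refine ⟨hs1, ?_⟩
    have hs2 := summable_choose_mul_geometric_of_norm_lt_one a hxn
    have hle : ∀ k : ℕ, (k : ℝ) ^ a * x ^ k ≤ (a.factorial : ℝ) * (((k + a).choose a : ℝ) * x ^ k) := by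
      intro k
      rw [← mul_assoc]
      gcongr
      have h1 : k ^ a ≤ a.factorial * (k + a).choose a := by
        rw [← Nat.ascFactorial_eq_factorial_mul_choose]
        exact (Nat.pow_le_pow_left (Nat.le_succ k) a).trans (Nat.pow_succ_le_ascFactorial (k + 1) a)
      exact_mod_cast h1
    calc ∑' k : ℕ, (k : ℝ) ^ a * x ^ k ≤ ∑' k : ℕ, (a.factorial : ℝ) * (((k + a).choose a : ℝ) * x ^ k) :=
          hs1.tsum_le_tsum hle (hs2.mul_left _)
      _ = (a.factorial : ℝ) * (1 / (1 - x) ^ (a + 1)) := by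
          rw [tsum_mul_left, tsum_choose_mul_geometric_of_norm_lt_one a hxn]
      _ = (a.factorial : ℝ) * (1 / (1 - x)) ^ (a + 1) := by rw [div_pow, one_pow]
      _ ≤ (a.factorial : ℝ) * ((1 + c) / c * N ^ 2) ^ (a + 1) := by
          have : 0 ≤ 1 / (1 - x) := by
            have := hx1.2
            have : 0 < 1 - x := by linarith
            positivity
          gcongr
          exact hx1.1
      _ = a.factorial * ((1 + c) / c) ^ (a + 1) * (N : ℝ) ^ (2 * a + 2) := by
          rw [mul_pow, ← pow_mul]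
          ring_nf

end Pool.Agent.H946.Z
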