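import Pool.Agent.H946.Z.Basic
set_option autoImplicit false

/-!
# MP_d9449f_ag : closed forms of double sums (`S_RR`)
-/

namespace Pool.Agent.H946.Z

open PowerSeries

namespace RRl

theorem sumZ (n : ℕ) (f : ℤ → ℚ) :
    ∑ d ∈ Finset.Icc (-(n : ℤ)) n, f d =
      f 0 + ∑ D ∈ Finset.Icc 1 n, (f (D : ℤ) + f (-(D : ℤ))) := by
  induction n with
  | zero => simp
  | succ n ih =>
    have h1 : Finset.Icc (-((n + 1 : ℕ) : ℤ)) ((n + 1 : ℕ) : ℤ) =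
        insert ((n + 1 : ℕ) : ℤ) (insert (-((n + 1 : ℕ) : ℤ)) (Finset.Icc (-(n : ℤ)) n)) := by
      ext x
      simp only [Finset.mem_Icc, Finset.mem_insert]
      omega
    rw [h1, Finset.sum_insert, Finset.sum_insert, ih, Finset.sum_Icc_succ_top (by omega)]
    · ring
    · simp only [Finset.mem_Icc]; omega
    · simp only [Finset.mem_insert, Finset.mem_Icc]; omega

theorem coeff_Li (a m n N : ℕ) (hm : 1 ≤ m) (hN : n ≤ N) :
    PowerSeries.coeff n (Li a m) =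
      ∑ D ∈ Finset.Icc 1 N, if m * D = n then (D : ℚ) ^ a else 0 := by
  unfold Li
  rw [PowerSeries.coeff_mk]
  split_ifs with h
  · obtain ⟨h0, q, rfl⟩ := h
    have hq : 1 ≤ q := by
      rcases Nat.eq_zero_or_pos q with rfl | h
      · simp at h0
      · exact h
    have hqN : q ≤ N := le_trans (Nat.le_mul_of_pos_left q hm) hN
    rw [Finset.sum_eq_single q]
    · rw [if_pos rfl, Nat.mul_div_cancel_left q hm]
    · intro b _ hb
      rw [if_neg]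
      intro e
      exact hb (Nat.eq_of_mul_eq_mul_left hm e)
    · intro hq'
      exact absurd (Finset.mem_Icc.2 ⟨hq, hqN⟩) hq'
  · symm
    apply Finset.sum_eq_zero
    intro D hD
    rw [Finset.mem_Icc] at hD
    rw [if_neg]
    rintro rfl
    apply h
    refine ⟨?_, dvd_mul_right m D⟩
    have := Nat.mul_pos hm hD.1
    omega

theorem coeff_Li_mul (a b m k n : ℕ) (hm : 1 ≤ m) (hk : 1 ≤ k) :
    PowerSeries.coeff n (Li a m * Li b k) =
      ∑ D ∈ Finset.Icc 1 n, ∑ j ∈ Finset.Icc 1 n,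
        if m * D + k * j = n then (D : ℚ) ^ a * (j : ℚ) ^ b else 0 := by
  rw [PowerSeries.coeff_mul]
  have h1 : ∀ p ∈ Finset.HasAntidiagonal.antidiagonal n, PowerSeries.coeff p.1 (Li a m) *
      PowerSeries.coeff p.2 (Li b k) =
      ∑ D ∈ Finset.Icc 1 n, ∑ j ∈ Finset.Icc 1 n,
        if m * D = p.1 ∧ k * j = p.2 then (D : ℚ) ^ a * (j : ℚ) ^ b else 0 := by
    intro p hp
    rw [Finset.HasAntidiagonal.mem_antidiagonal] at hp
    rw [coeff_Li a m p.1 n hm (by omega), coeff_Li b k p.2 n hk (by omega),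
      Finset.sum_mul_sum]
    refine Finset.sum_congr rfl (fun D _ => Finset.sum_congr rfl (fun j _ => ?_))
    by_cases h1 : m * D = p.1 <;> by_cases h2 : k * j = p.2 <;> simp [h1, h2]
  rw [Finset.sum_congr rfl h1, Finset.sum_comm]
  refine Finset.sum_congr rfl (fun D _ => ?_)
  rw [Finset.sum_comm]
  refine Finset.sum_congr rfl (fun j _ => ?_)
  by_cases h : m * D + k * j = n
  · rw [if_pos h, Finset.sum_eq_single (m * D, k * j)]
    · simp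
    · rintro ⟨p, q⟩ _ hne
      rw [if_neg]
      rintro ⟨rfl, rfl⟩
      exact hne rfl
    · intro hne
      exact absurd (Finset.HasAntidiagonal.mem_antidiagonal.2 h) hne
  · rw [if_neg h]
    apply Finset.sum_eq_zero
    rintro ⟨p, q⟩ hp
    rw [Finset.HasAntidiagonal.mem_antidiagonal] at hp
    rw [if_neg]
    rintro ⟨rfl, rfl⟩
    exact h hp

theorem cc_eq (k : ℕ) : cc k = Li 0 k + PowerSeries.C (1 / 2 : ℚ) := by
  unfold cc uu Li
  ext n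
  rw [map_sub, map_add, PowerSeries.coeff_mk, PowerSeries.coeff_mk, PowerSeries.coeff_C]
  by_cases hn : n = 0
  · subst hn
    simp
    norm_num
  · simp [hn]

theorem inner (p : ℚ → ℚ → ℚ) (k m n D : ℕ) (hk : 1 ≤ k) (hkm : k ≤ m) (hD : D ≤ n) :
    ∑ e ∈ Finset.Icc (-(n : ℤ)) n,
      (if (m - k) * D + k * Mde D e = n then p (D : ℚ) (e : ℚ) else 0) =
    (if m * D = n then ∑ e ∈ Finset.range (D + 1), p (D : ℚ) (e : ℚ) else 0) +
      ∑ j ∈ Finset.Icc 1 n, if m * D + k * j = n then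
        p (D : ℚ) ((D : ℚ) + j) + p (D : ℚ) (-(j : ℚ)) else 0 := by
  have hmk : ∀ t, (m - k) * D + k * (D + t) = m * D + k * t := by
    intro t
    obtain ⟨q, rfl⟩ := Nat.exists_eq_add_of_le hkm
    rw [Nat.add_sub_cancel_left]
    ring
  rw [sumZ, Finset.sum_add_distrib, ← add_assoc]
  -- negative part
  have hneg : ∑ E ∈ Finset.Icc 1 n,
      (if (m - k) * D + k * Mde D (-(E : ℤ)) = n then p (D : ℚ) ((-(E : ℤ) : ℤ) : ℚ) else 0) =
      ∑ j ∈ Finset.Icc 1 n, if m * D + k * j = n then p (D : ℚ) (-(j : ℚ)) else 0 := by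
    refine Finset.sum_congr rfl (fun j hj => ?_)
    rw [Finset.mem_Icc] at hj
    have h1 : Mde D (-(j : ℤ)) = D + j := by
      unfold Mde
      rw [if_neg (by omega)]
      simp
    rw [h1, hmk]
    push_cast
    rfl
  -- nonnegative part
  have hpos : (if (m - k) * D + k * Mde D 0 = n then p (D : ℚ) ((0 : ℤ) : ℚ) else 0) +
      ∑ E ∈ Finset.Icc 1 n,
        (if (m - k) * D + k * Mde D ((E : ℕ) : ℤ) = n then p (D : ℚ) (((E : ℕ) : ℤ) : ℚ) else 0) =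
      ∑ E ∈ Finset.range (n + 1),
        (if (m - k) * D + k * Mde D ((E : ℕ) : ℤ) = n then p (D : ℚ) ((E : ℕ) : ℚ) else 0) := by
    have h1 : Finset.range (n + 1) = insert 0 (Finset.Icc 1 n) := by
      ext x
      simp only [Finset.mem_range, Finset.mem_insert, Finset.mem_Icc]
      omega
    rw [h1, Finset.sum_insert (by simp)]
    simp
  rw [hneg, hpos, ← Finset.sum_range_add_sum_Ico _ (show D + 1 ≤ n + 1 by omega)]
  have hA : ∑ E ∈ Finset.range (D + 1),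
        (if (m - k) * D + k * Mde D ((E : ℕ) : ℤ) = n then p (D : ℚ) ((E : ℕ) : ℚ) else 0) =
      (if m * D = n then ∑ e ∈ Finset.range (D + 1), p (D : ℚ) (e : ℚ) else 0) := by
    have h1 : ∀ E ∈ Finset.range (D + 1),
        (if (m - k) * D + k * Mde D ((E : ℕ) : ℤ) = n then p (D : ℚ) ((E : ℕ) : ℚ) else 0) =
        if m * D = n then p (D : ℚ) ((E : ℕ) : ℚ) else 0 := by
      intro E hE
      rw [Finset.mem_range] at hE
      have h2 : Mde D ((E : ℕ) : ℤ) = D := by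
        unfold Mde
        rw [if_pos (by omega)]
        simp
        omega
      have h3 := hmk 0
      rw [add_zero, mul_zero, add_zero] at h3
      rw [h2, h3]
    rw [Finset.sum_congr rfl h1]
    split_ifs <;> simp
  have hB : ∑ E ∈ Finset.Ico (D + 1) (n + 1),
        (if (m - k) * D + k * Mde D ((E : ℕ) : ℤ) = n then p (D : ℚ) ((E : ℕ) : ℚ) else 0) =
      ∑ j ∈ Finset.Icc 1 n, if m * D + k * j = n then p (D : ℚ) ((D : ℚ) + j) else 0 := by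
    have h1 : ∑ j ∈ Finset.Icc 1 n, (if m * D + k * j = n then p (D : ℚ) ((D : ℚ) + j) else 0) =
        ∑ j ∈ Finset.Ico 1 (n + 1 - D),
          (if m * D + k * j = n then p (D : ℚ) ((D : ℚ) + j) else 0) := by
      symm
      apply Finset.sum_subset
      · intro j hj
        rw [Finset.mem_Ico] at hj
        rw [Finset.mem_Icc]
        omega
      · intro j hj hj'
        rw [Finset.mem_Icc] at hj
        rw [Finset.mem_Ico] at hj'
        rw [if_neg]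
        intro e
        have e1 : D ≤ m * D := Nat.le_mul_of_pos_left D (by omega)
        have e2 : j ≤ k * j := Nat.le_mul_of_pos_left j hk
        omega
    rw [h1]
    have h2 : Finset.Ico (D + 1) (n + 1) =
        (Finset.Ico 1 (n + 1 - D)).image (fun j => D + j) := by
      ext x
      simp only [Finset.mem_Ico, Finset.mem_image]
      constructor
      · intro hx
        exact ⟨x - D, by omega, by omega⟩
      · rintro ⟨j, hj, rfl⟩
        omega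
    rw [h2, Finset.sum_image (by intro a _ b _ h; simpa using h)]
    refine Finset.sum_congr rfl (fun j hj => ?_)
    rw [Finset.mem_Ico] at hj
    have h3 : Mde D ((D + j : ℕ) : ℤ) = D + j := by
      unfold Mde
      rw [if_pos (by omega), Int.toNat_natCast]
      omega
    rw [h3, hmk]
    push_cast
    rfl
  rw [hA, hB, add_assoc, ← Finset.sum_add_distrib]
  congr 1
  refine Finset.sum_congr rfl (fun j _ => ?_)
  split_ifs <;> simp

/-- general form: coefficients of `RR p k m`. -/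
theorem coeff_RR (p : ℚ → ℚ → ℚ) (k m n : ℕ) (hk : 1 ≤ k) (hkm : k ≤ m) :
    PowerSeries.coeff n (RR p k m) =
      ((if n = 0 then p 0 0 else 0) +
        ∑ j ∈ Finset.Icc 1 n, if k * j = n then p 0 (j : ℚ) + p 0 (-(j : ℚ)) else 0) +
      ∑ D ∈ Finset.Icc 1 n, 2 * (if m * D = n then
          ∑ e ∈ Finset.range (D + 1), p (D : ℚ) (e : ℚ) else 0) +
      ∑ D ∈ Finset.Icc 1 n, ∑ j ∈ Finset.Icc 1 n, 2 * (if m * D + k * j = n then
        p (D : ℚ) ((D : ℚ) + j) + p (D : ℚ) (-(j : ℚ)) else 0) := by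
  unfold RR
  rw [PowerSeries.coeff_mk, sumZ]
  have h0 := inner p k m n 0 hk hkm (Nat.zero_le n)
  have h1 : ∀ D ∈ Finset.Icc 1 n,
      ((∑ e ∈ Finset.Icc (-(n : ℤ)) n,
        if (m - k) * ((D : ℤ)).natAbs + k * Mde ((D : ℤ)).natAbs e = n then
          p (((D : ℤ)).natAbs : ℚ) (e : ℚ) else 0) +
      (∑ e ∈ Finset.Icc (-(n : ℤ)) n,
        if (m - k) * (-(D : ℤ)).natAbs + k * Mde (-(D : ℤ)).natAbs e = n then
          p ((-(D : ℤ)).natAbs : ℚ) (e : ℚ) else 0)) =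
      2 * (if m * D = n then ∑ e ∈ Finset.range (D + 1), p (D : ℚ) (e : ℚ) else 0) +
      ∑ j ∈ Finset.Icc 1 n, 2 * (if m * D + k * j = n then
        p (D : ℚ) ((D : ℚ) + j) + p (D : ℚ) (-(j : ℚ)) else 0) := by
    intro D hD
    rw [Finset.mem_Icc] at hD
    rw [Int.natAbs_neg, Int.natAbs_natCast, inner p k m n D hk hkm hD.2, ← Finset.mul_sum]
    ring
  rw [Finset.sum_congr rfl h1, Finset.sum_add_distrib, ← add_assoc, Int.natAbs_zero, h0]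
  congr 2
  have e1 : (m * 0 = n) = (n = 0) := by
    rw [mul_zero]
    exact propext eq_comm
  simp only [mul_zero, zero_add, Finset.range_one, Finset.sum_singleton, Nat.cast_zero, eq_comm]

theorem sum_pow2 (D : ℕ) : ∑ e ∈ Finset.range (D + 1), (e : ℚ) ^ 2 =
    D * (D + 1) * (2 * D + 1) / 6 := by
  induction D with
  | zero => simp
  | succ D ih => rw [Finset.sum_range_succ, ih]; push_cast; ring

theorem sum_pow4 (D : ℕ) : ∑ e ∈ Finset.range (D + 1), (e : ℚ) ^ 4 =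
    (6 * D ^ 5 + 15 * D ^ 4 + 10 * D ^ 3 - D) / 30 := by
  induction D with
  | zero => simp
  | succ D ih => rw [Finset.sum_range_succ, ih]; push_cast; ring

theorem sumA (D : ℕ) (a b : ℚ) : ∑ e ∈ Finset.range (D + 1), a * (b * (e : ℚ) ^ 2 - (e : ℚ) ^ 4) =
    a * (b * (D * (D + 1) * (2 * D + 1) / 6) - (6 * D ^ 5 + 15 * D ^ 4 + 10 * D ^ 3 - D) / 30) := by
  rw [← sum_pow2, ← sum_pow4, ← Finset.mul_sum, Finset.sum_sub_distrib, ← Finset.mul_sum]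

theorem coeff_cc_mul (a m k n : ℕ) (hm : 1 ≤ m) (hk : 1 ≤ k) :
    PowerSeries.coeff n (cc k * Li a m) =
      (∑ D ∈ Finset.Icc 1 n, ∑ j ∈ Finset.Icc 1 n,
        if m * D + k * j = n then (D : ℚ) ^ a * (j : ℚ) ^ 0 else 0) +
      ∑ D ∈ Finset.Icc 1 n, (if m * D = n then (D : ℚ) ^ a / 2 else 0) := by
  rw [cc_eq, add_mul, map_add, mul_comm, coeff_Li_mul a 0 m k n hm hk, PowerSeries.coeff_C_mul,
    coeff_Li a m n n hm le_rfl, Finset.mul_sum]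
  congr 1
  refine Finset.sum_congr rfl (fun D _ => ?_)
  split_ifs <;> ring

theorem coeff_Li_cc (b m k n : ℕ) (hm : 1 ≤ m) (hk : 1 ≤ k) :
    PowerSeries.coeff n (Li b k * cc m) =
      (∑ D ∈ Finset.Icc 1 n, ∑ j ∈ Finset.Icc 1 n,
        if m * D + k * j = n then (D : ℚ) ^ 0 * (j : ℚ) ^ b else 0) +
      ∑ j ∈ Finset.Icc 1 n, (if k * j = n then (j : ℚ) ^ b / 2 else 0) := by
  rw [cc_eq, mul_add, map_add, mul_comm, coeff_Li_mul 0 b m k n hm hk, mul_comm (Li b k),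
    PowerSeries.coeff_C_mul, coeff_Li b k n n hk le_rfl, Finset.mul_sum]
  congr 1
  refine Finset.sum_congr rfl (fun D _ => ?_)
  split_ifs <;> ring

theorem coeff_Li_mul' (a b m k n : ℕ) (hm : 1 ≤ m) (hk : 1 ≤ k) :
    PowerSeries.coeff n (Li b k * Li a m) =
      ∑ D ∈ Finset.Icc 1 n, ∑ j ∈ Finset.Icc 1 n,
        if m * D + k * j = n then (D : ℚ) ^ a * (j : ℚ) ^ b else 0 := by
  rw [mul_comm, coeff_Li_mul a b m k n hm hk]

/-- abbreviation: single sums -/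
def S1 (m n : ℕ) (f : ℕ → ℚ) : ℚ := ∑ D ∈ Finset.Icc 1 n, if m * D = n then f D else 0

/-- abbreviation: double sums -/
def S2 (m k n : ℕ) (f : ℕ → ℕ → ℚ) : ℚ :=
  ∑ D ∈ Finset.Icc 1 n, ∑ j ∈ Finset.Icc 1 n, if m * D + k * j = n then f D j else 0

theorem S1_add (m n : ℕ) (f g : ℕ → ℚ) : S1 m n f + S1 m n g = S1 m n (fun D => f D + g D) := by
  unfold S1
  rw [← Finset.sum_add_distrib]
  refine Finset.sum_congr rfl (fun D _ => ?_)
  split_ifs <;> simp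

theorem S1_mul (m n : ℕ) (c : ℚ) (f : ℕ → ℚ) : c * S1 m n f = S1 m n (fun D => c * f D) := by
  unfold S1
  rw [Finset.mul_sum]
  refine Finset.sum_congr rfl (fun D _ => ?_)
  split_ifs <;> simp

theorem S2_add (m k n : ℕ) (f g : ℕ → ℕ → ℚ) :
    S2 m k n f + S2 m k n g = S2 m k n (fun D j => f D j + g D j) := by
  unfold S2
  rw [← Finset.sum_add_distrib]
  refine Finset.sum_congr rfl (fun D _ => ?_)
  rw [← Finset.sum_add_distrib]
  refine Finset.sum_congr rfl (fun j _ => ?_)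
  split_ifs <;> simp

theorem S2_mul (m k n : ℕ) (c : ℚ) (f : ℕ → ℕ → ℚ) :
    c * S2 m k n f = S2 m k n (fun D j => c * f D j) := by
  unfold S2
  rw [Finset.mul_sum]
  refine Finset.sum_congr rfl (fun D _ => ?_)
  rw [Finset.mul_sum]
  refine Finset.sum_congr rfl (fun j _ => ?_)
  split_ifs <;> simp

theorem coeff_RR' (p : ℚ → ℚ → ℚ) (k m n : ℕ) (hk : 1 ≤ k) (hkm : k ≤ m) (h00 : p 0 0 = 0)
    (A : ℕ → ℚ) (hA : ∀ D : ℕ, ∑ e ∈ Finset.range (D + 1), p (D : ℚ) (e : ℚ) = A D) :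
    PowerSeries.coeff n (RR p k m) =
      S1 k n (fun j => p 0 (j : ℚ) + p 0 (-(j : ℚ))) + S1 m n (fun D => 2 * A D) +
      S2 m k n (fun D j => 2 * (p (D : ℚ) ((D : ℚ) + j) + p (D : ℚ) (-(j : ℚ)))) := by
  rw [coeff_RR p k m n hk hkm, h00, ite_self, zero_add]
  unfold S1 S2
  simp only [hA, mul_ite, mul_zero]

theorem L1 (a m n : ℕ) (hm : 1 ≤ m) :
    PowerSeries.coeff n (Li a m) = S1 m n (fun D => (D : ℚ) ^ a) :=
  coeff_Li a m n n hm le_rfl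

theorem rr0 (k m : ℕ) (hk : 1 ≤ k) (hkm : k ≤ m) :
    RR (fun D e => 6 * D ^ 2 * e ^ 2 - e ^ 4) k m = R0 k m := by
  have hm : 1 ≤ m := le_trans hk hkm
  ext n
  rw [coeff_RR' _ k m n hk hkm (by norm_num)
    (fun D => 9 / 5 * (D : ℚ) ^ 5 + 5 / 2 * (D : ℚ) ^ 4 + 2 / 3 * (D : ℚ) ^ 3 + 1 / 30 * (D : ℚ))
    (by
      intro D
      have := sumA D 1 (6 * (D : ℚ) ^ 2)
      simp only [one_mul] at this
      rw [this]
      ring)]
  have q1 : PowerSeries.coeff n (cc k * Li 4 m) =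
      S2 m k n (fun D j => (D : ℚ) ^ 4 * (j : ℚ) ^ 0) + S1 m n (fun D => (D : ℚ) ^ 4 / 2) :=
    coeff_cc_mul 4 m k n hm hk
  have q2 : PowerSeries.coeff n (Li 4 k * cc m) =
      S2 m k n (fun D j => (D : ℚ) ^ 0 * (j : ℚ) ^ 4) + S1 k n (fun j => (j : ℚ) ^ 4 / 2) :=
    coeff_Li_cc 4 m k n hm hk
  have q3 : ∀ a b, PowerSeries.coeff n (Li b k * Li a m) =
      S2 m k n (fun D j => (D : ℚ) ^ a * (j : ℚ) ^ b) := fun a b => coeff_Li_mul' a b m k n hm hk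
  unfold R0
  simp only [map_sub, map_add, PowerSeries.coeff_smul, smul_eq_mul]
  rw [L1 5 m n hm, L1 3 m n hm, L1 1 m n hm, q1, q2, q3, q3, q3]
  have g1 : S1 k n (fun j => (6 * (0 : ℚ) ^ 2 * (j : ℚ) ^ 2 - (j : ℚ) ^ 4) +
      (6 * (0 : ℚ) ^ 2 * (-(j : ℚ)) ^ 2 - (-(j : ℚ)) ^ 4)) =
      (-4) * S1 k n (fun j => (j : ℚ) ^ 4 / 2) := by
    rw [S1_mul]; congr 1; funext j; ring
  have g2 : S1 m n (fun D => 2 * (9 / 5 * (D : ℚ) ^ 5 + 5 / 2 * (D : ℚ) ^ 4 +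
        2 / 3 * (D : ℚ) ^ 3 + 1 / 30 * (D : ℚ))) =
      18 / 5 * S1 m n (fun D => (D : ℚ) ^ 5) + 4 / 3 * S1 m n (fun D => (D : ℚ) ^ 3) +
        1 / 15 * S1 m n (fun D => (D : ℚ) ^ 1) + 10 * S1 m n (fun D => (D : ℚ) ^ 4 / 2) := by
    rw [S1_mul, S1_mul, S1_mul, S1_mul, S1_add, S1_add, S1_add]; congr 1; funext j; ring
  have g3 : S2 m k n (fun D j => 2 * ((6 * (D : ℚ) ^ 2 * ((D : ℚ) + j) ^ 2 - ((D : ℚ) + j) ^ 4) +
        (6 * (D : ℚ) ^ 2 * (-(j : ℚ)) ^ 2 - (-(j : ℚ)) ^ 4))) =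
      10 * S2 m k n (fun D j => (D : ℚ) ^ 4 * (j : ℚ) ^ 0) +
      16 * S2 m k n (fun D j => (D : ℚ) ^ 3 * (j : ℚ) ^ 1) +
      12 * S2 m k n (fun D j => (D : ℚ) ^ 2 * (j : ℚ) ^ 2) +
      (-8) * S2 m k n (fun D j => (D : ℚ) ^ 1 * (j : ℚ) ^ 3) +
      (-4) * S2 m k n (fun D j => (D : ℚ) ^ 0 * (j : ℚ) ^ 4) := by
    rw [S2_mul, S2_mul, S2_mul, S2_mul, S2_mul, S2_add, S2_add, S2_add, S2_add]
    congr 1; funext D j; ring
  rw [g1, g2, g3]
  ring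

theorem rr1 (k m : ℕ) (hk : 1 ≤ k) (hkm : k ≤ m) :
    RR (fun D e => D * (6 * D ^ 2 * e ^ 2 - e ^ 4)) k m = R1 k m := by
  have hm : 1 ≤ m := le_trans hk hkm
  ext n
  rw [coeff_RR' _ k m n hk hkm (by norm_num)
    (fun D => 9 / 5 * (D : ℚ) ^ 6 + 5 / 2 * (D : ℚ) ^ 5 + 2 / 3 * (D : ℚ) ^ 4 +
      1 / 30 * (D : ℚ) ^ 2)
    (by
      intro D
      have := sumA D (D : ℚ) (6 * (D : ℚ) ^ 2)
      rw [this]
      ring)]
  have q1 : PowerSeries.coeff n (cc k * Li 5 m) =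
      S2 m k n (fun D j => (D : ℚ) ^ 5 * (j : ℚ) ^ 0) + S1 m n (fun D => (D : ℚ) ^ 5 / 2) :=
    coeff_cc_mul 5 m k n hm hk
  have q3 : ∀ a b, PowerSeries.coeff n (Li b k * Li a m) =
      S2 m k n (fun D j => (D : ℚ) ^ a * (j : ℚ) ^ b) := fun a b => coeff_Li_mul' a b m k n hm hk
  unfold R1
  simp only [map_sub, map_add, PowerSeries.coeff_smul, smul_eq_mul]
  rw [L1 6 m n hm, L1 4 m n hm, L1 2 m n hm, q1, q3, q3, q3, q3]
  have g1 : S1 k n (fun j => ((0 : ℚ) * (6 * (0 : ℚ) ^ 2 * (j : ℚ) ^ 2 - (j : ℚ) ^ 4)) +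
      ((0 : ℚ) * (6 * (0 : ℚ) ^ 2 * (-(j : ℚ)) ^ 2 - (-(j : ℚ)) ^ 4))) = 0 := by
    unfold S1
    refine Finset.sum_eq_zero (fun j _ => ?_)
    split_ifs <;> simp
  have g2 : S1 m n (fun D => 2 * (9 / 5 * (D : ℚ) ^ 6 + 5 / 2 * (D : ℚ) ^ 5 +
        2 / 3 * (D : ℚ) ^ 4 + 1 / 30 * (D : ℚ) ^ 2)) =
      18 / 5 * S1 m n (fun D => (D : ℚ) ^ 6) + 4 / 3 * S1 m n (fun D => (D : ℚ) ^ 4) +
        1 / 15 * S1 m n (fun D => (D : ℚ) ^ 2) + 10 * S1 m n (fun D => (D : ℚ) ^ 5 / 2) := by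
    rw [S1_mul, S1_mul, S1_mul, S1_mul, S1_add, S1_add, S1_add]; congr 1; funext j; ring
  have g3 : S2 m k n (fun D j => 2 * ((D : ℚ) * (6 * (D : ℚ) ^ 2 * ((D : ℚ) + j) ^ 2 -
        ((D : ℚ) + j) ^ 4) + (D : ℚ) * (6 * (D : ℚ) ^ 2 * (-(j : ℚ)) ^ 2 - (-(j : ℚ)) ^ 4))) =
      10 * S2 m k n (fun D j => (D : ℚ) ^ 5 * (j : ℚ) ^ 0) +
      16 * S2 m k n (fun D j => (D : ℚ) ^ 4 * (j : ℚ) ^ 1) +
      12 * S2 m k n (fun D j => (D : ℚ) ^ 3 * (j : ℚ) ^ 2) +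
      (-8) * S2 m k n (fun D j => (D : ℚ) ^ 2 * (j : ℚ) ^ 3) +
      (-4) * S2 m k n (fun D j => (D : ℚ) ^ 1 * (j : ℚ) ^ 4) := by
    rw [S2_mul, S2_mul, S2_mul, S2_mul, S2_mul, S2_add, S2_add, S2_add, S2_add]
    congr 1; funext D j; ring
  rw [g1, g2, g3]
  ring

theorem rr2 (k : ℕ) (hk : 1 ≤ k) :
    RR (fun D e => D ^ 2 * (3 * D ^ 2 * e ^ 2 - e ^ 4)) k k = R2 k := by
  ext n
  rw [coeff_RR' _ k k n hk le_rfl (by norm_num)
    (fun D => 4 / 5 * (D : ℚ) ^ 7 + (D : ℚ) ^ 6 + 1 / 6 * (D : ℚ) ^ 5 +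
      1 / 30 * (D : ℚ) ^ 3)
    (by
      intro D
      have := sumA D ((D : ℚ) ^ 2) (3 * (D : ℚ) ^ 2)
      rw [this]
      ring)]
  have q1 : PowerSeries.coeff n (cc k * Li 6 k) =
      S2 k k n (fun D j => (D : ℚ) ^ 6 * (j : ℚ) ^ 0) + S1 k n (fun D => (D : ℚ) ^ 6 / 2) :=
    coeff_cc_mul 6 k k n hk hk
  have q3 : ∀ a b, PowerSeries.coeff n (Li b k * Li a k) =
      S2 k k n (fun D j => (D : ℚ) ^ a * (j : ℚ) ^ b) := fun a b => coeff_Li_mul' a b k k n hk hk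
  unfold R2
  simp only [map_sub, map_add, PowerSeries.coeff_smul, smul_eq_mul]
  rw [L1 7 k n hk, L1 5 k n hk, L1 3 k n hk, q1, q3, q3, q3]
  have g1 : S1 k n (fun j => ((0 : ℚ) ^ 2 * (3 * (0 : ℚ) ^ 2 * (j : ℚ) ^ 2 - (j : ℚ) ^ 4)) +
      ((0 : ℚ) ^ 2 * (3 * (0 : ℚ) ^ 2 * (-(j : ℚ)) ^ 2 - (-(j : ℚ)) ^ 4))) = 0 := by
    unfold S1
    refine Finset.sum_eq_zero (fun j _ => ?_)
    split_ifs <;> simp
  have g2 : S1 k n (fun D => 2 * (4 / 5 * (D : ℚ) ^ 7 + (D : ℚ) ^ 6 +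
        1 / 6 * (D : ℚ) ^ 5 + 1 / 30 * (D : ℚ) ^ 3)) =
      8 / 5 * S1 k n (fun D => (D : ℚ) ^ 7) + 1 / 3 * S1 k n (fun D => (D : ℚ) ^ 5) +
        1 / 15 * S1 k n (fun D => (D : ℚ) ^ 3) + 4 * S1 k n (fun D => (D : ℚ) ^ 6 / 2) := by
    rw [S1_mul, S1_mul, S1_mul, S1_mul, S1_add, S1_add, S1_add]; congr 1; funext j; ring
  have g3 : S2 k k n (fun D j => 2 * ((D : ℚ) ^ 2 * (3 * (D : ℚ) ^ 2 * ((D : ℚ) + j) ^ 2 -
        ((D : ℚ) + j) ^ 4) + (D : ℚ) ^ 2 * (3 * (D : ℚ) ^ 2 * (-(j : ℚ)) ^ 2 -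
        (-(j : ℚ)) ^ 4))) =
      4 * S2 k k n (fun D j => (D : ℚ) ^ 6 * (j : ℚ) ^ 0) +
      4 * S2 k k n (fun D j => (D : ℚ) ^ 5 * (j : ℚ) ^ 1) +
      (-8) * S2 k k n (fun D j => (D : ℚ) ^ 3 * (j : ℚ) ^ 3) +
      (-4) * S2 k k n (fun D j => (D : ℚ) ^ 2 * (j : ℚ) ^ 4) := by
    rw [S2_mul, S2_mul, S2_mul, S2_mul, S2_add, S2_add, S2_add]
    congr 1; funext D j; ring
  rw [g1, g2, g3]
  ring

end RRl

/-- closed forms of the sums over `d` and `e`. -/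
theorem rr : S_RR := fun k m hk hkm => ⟨RRl.rr0 k m hk hkm, RRl.rr1 k m hk hkm, RRl.rr2 k hk⟩

end Pool.Agent.H946.Z
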