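import Pool.Agent.H946.Z.Basic
set_option autoImplicit false

/-!
# MP_d9449f_ag : reduction of the statement over `ℚ(h₁,h₂)` to `ℚ`  (helper895)
-/

namespace Pool.Agent.H946.Z

open PowerSeries

namespace Red

section abs
variable {K : Type} [Field K] [Algebra ℚ K]

/-- `ℚ`-homogeneous additive maps. -/
def Hom (ell : K →+ ℚ) : Prop := ∀ (c : ℚ) (x : K), ell (x * algebraMap ℚ K c) = ell x * c

/-- the coefficientwise image of a series under an additive map. -/
noncomputable def lin (ell : K →+ ℚ) (G : K⟦X⟧) : ℚ⟦X⟧ :=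
  PowerSeries.mk fun n => ell (PowerSeries.coeff n G)

omit [Algebra ℚ K] in
theorem coeff_lin (ell : K →+ ℚ) (G : K⟦X⟧) (n : ℕ) :
    PowerSeries.coeff n (lin ell G) = ell (PowerSeries.coeff n G) := by
  unfold lin
  rw [PowerSeries.coeff_mk]

theorem lin_mul_map {ell : K →+ ℚ} (hl : Hom ell) (G : K⟦X⟧) (H : ℚ⟦X⟧) :
    lin ell (G * PowerSeries.map (algebraMap ℚ K) H) = lin ell G * H := by
  ext n
  rw [coeff_lin, PowerSeries.coeff_mul, PowerSeries.coeff_mul, map_sum]
  refine Finset.sum_congr rfl fun x _ => ?_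
  rw [coeff_lin, PowerSeries.coeff_map, hl]

omit [Algebra ℚ K] in
theorem lin_gen (ell : K →+ ℚ) (f : Finset Box → K) :
    lin ell (gen f) = gen fun π => ell (f π) := by
  ext n
  rw [coeff_lin, coeff_gen, coeff_gen, map_sum]

theorem exists_hom {R : Type} [CommRing R] [Algebra ℚ R] (i : R →+* K)
    (hi : Function.Injective i) (e : R →ₗ[ℚ] ℚ) :
    ∃ ell : K →+ ℚ, Hom ell ∧ ∀ P, ell (i P) = e P := by
  let j : R →ₗ[ℚ] K := i.toRatAlgHom.toLinearMap
  have hj : LinearMap.ker j = ⊥ := by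
    rw [LinearMap.ker_eq_bot]
    exact hi
  obtain ⟨g, hg⟩ := LinearMap.exists_leftInverse_of_injective j hj
  refine ⟨(e ∘ₗ g).toAddMonoidHom, fun c x => ?_, fun P => ?_⟩
  · have h1 : x * algebraMap ℚ K c = c • x := by rw [Algebra.smul_def, mul_comm]
    rw [h1]
    change (e ∘ₗ g) (c • x) = (e ∘ₗ g) x * c
    rw [map_smul, smul_eq_mul, mul_comm]
  · have := LinearMap.congr_fun hg P
    change e (g (j P)) = e P
    rw [← LinearMap.comp_apply g j, this]
    rfl

end abs

theorem dt_eq_gen (hs : S_sign) (f : Finset Box → KK) : dtSeries f = gen f := by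
  ext n
  rw [coeff_gen]
  unfold dtSeries
  rw [PowerSeries.coeff_mk, Finset.mul_sum]
  refine Finset.sum_congr rfl fun π hπ => ?_
  rw [hs n π hπ]
  have h1 : ((-1 : KK) ^ n) * (-1) ^ n = 1 := by
    rw [← mul_pow]; simp
  calc (-1 : KK) ^ n * (f π * (-1) ^ n) = f π * ((-1) ^ n * (-1) ^ n) := by ring
    _ = f π := by rw [h1, mul_one]

theorem gen_one_map : (gen (fun _ => (1 : KK))) =
    PowerSeries.map (algebraMap ℚ KK) (gen fun _ => (1 : ℚ)) := by
  ext n
  rw [coeff_gen, PowerSeries.coeff_map, coeff_gen]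
  simp

theorem inv_map : (gen (fun _ => (1 : KK)))⁻¹ =
    PowerSeries.map (algebraMap ℚ KK) ((gen fun _ => (1 : ℚ))⁻¹) := by
  have h0 : PowerSeries.constantCoeff (gen (fun _ => (1 : KK))) ≠ 0 := by
    rw [constantCoeff_gen]; exact one_ne_zero
  have h1 : PowerSeries.constantCoeff (gen (fun _ => (1 : ℚ))) ≠ 0 := by
    rw [constantCoeff_gen]; exact one_ne_zero
  symm
  rw [PowerSeries.eq_inv_iff_mul_eq_one h0, gen_one_map, ← map_mul,
    PowerSeries.inv_mul_cancel _ h1, map_one]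

theorem bracket_eq (hs : S_sign) (f : Finset Box → KK) :
    dtBracket f = gen f * PowerSeries.map (algebraMap ℚ KK) ((gen fun _ => (1 : ℚ))⁻¹) := by
  unfold dtBracket
  rw [dt_eq_gen hs, dt_eq_gen hs, inv_map]

theorem lin_mem {G : KK⟦X⟧} (hG : G ∈ KoqZ) :
    ∀ ell : KK →+ ℚ, Hom ell → lin ell G ∈ oqZ := by
  unfold KoqZ at hG
  induction hG using Submodule.span_induction with
  | mem x hx =>
    obtain ⟨F, hF, rfl⟩ := hx
    intro ell hl
    have h1 : lin ell (PowerSeries.map (algebraMap ℚ KK) F) = ell 1 • F := by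
      ext n
      rw [coeff_lin, PowerSeries.coeff_map, PowerSeries.coeff_smul, smul_eq_mul, ← hl, one_mul]
    rw [h1]
    exact oqZ.smul_mem hF _
  | zero =>
    intro ell _
    have h1 : lin ell (0 : KK⟦X⟧) = 0 := by
      ext n
      rw [coeff_lin]
      simp
    rw [h1]
    exact oqZ.zero_mem
  | add x y _ _ hx hy =>
    intro ell hl
    have h1 : lin ell (x + y) = lin ell x + lin ell y := by
      ext n
      rw [coeff_lin, map_add, map_add, map_add, coeff_lin, coeff_lin]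
    rw [h1]
    exact oqZ.add_mem (hx ell hl) (hy ell hl)
  | smul a x _ hx =>
    intro ell hl
    have h1 : lin ell (a • x) = lin (ell.comp (AddMonoidHom.mulLeft a)) x := by
      ext n
      rw [coeff_lin, coeff_lin, PowerSeries.coeff_smul]
      rfl
    rw [h1]
    refine hx _ fun c y => ?_
    simp only [AddMonoidHom.comp_apply, AddMonoidHom.coe_mulLeft]
    rw [← mul_assoc, hl]

theorem exists_ell : ∃ ell : KK →+ ℚ, Hom ell ∧ ∀ P : MvPolynomial (Fin 2) ℚ,
    ell (algebraMap (MvPolynomial (Fin 2) ℚ) KK P) =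
      MvPolynomial.eval ![1, 1] P - 27 * MvPolynomial.eval ![1, -1] P := by
  let e : MvPolynomial (Fin 2) ℚ →ₗ[ℚ] ℚ :=
    (MvPolynomial.aeval ![(1 : ℚ), 1]).toLinearMap -
      (27 : ℚ) • (MvPolynomial.aeval ![(1 : ℚ), -1]).toLinearMap
  obtain ⟨ell, h1, h2⟩ := exists_hom (algebraMap (MvPolynomial (Fin 2) ℚ) KK)
    (IsFractionRing.injective (MvPolynomial (Fin 2) ℚ) KK) e
  refine ⟨ell, h1, fun P => ?_⟩
  rw [h2]
  simp [e, MvPolynomial.aeval_eq_eval]

/-- the polynomial `∑_box ((i-l) h₁ + (j-l) h₂)^k`. -/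
noncomputable def pol (k : ℕ) (π : Finset Box) : MvPolynomial (Fin 2) ℚ :=
  ∑ b ∈ π, ((((b.1 : ℤ) - (b.2.2 : ℤ) : ℤ) : MvPolynomial (Fin 2) ℚ) * MvPolynomial.X 0 +
    (((b.2.1 : ℤ) - (b.2.2 : ℤ) : ℤ) : MvPolynomial (Fin 2) ℚ) * MvPolynomial.X 1) ^ k

theorem ch_eq (k : ℕ) (π : Finset Box) :
    (k.factorial : KK) * ch k π = algebraMap (MvPolynomial (Fin 2) ℚ) KK (pol k π) := by
  unfold ch pol
  have h0 : (k.factorial : KK) ≠ 0 := by
    have : CharZero KK := algebraRat.charZero KK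
    exact_mod_cast Nat.factorial_ne_zero k
  rw [mul_div_cancel₀ _ h0, map_sum]
  refine Finset.sum_congr rfl fun b _ => ?_
  rw [map_pow]
  rfl

theorem eval_pol (a b : ℚ) (k : ℕ) (π : Finset Box) :
    MvPolynomial.eval ![a, b] (pol k π) = pk a b k π := by
  unfold pol pk
  rw [map_sum]
  refine Finset.sum_congr rfl fun x _ => ?_
  simp
  ring

end Red

theorem red (hs : S_sign) : S_red := by
  intro hmem
  obtain ⟨ell, hl, hell⟩ := Red.exists_ell
  have h1 := Red.lin_mem hmem ell hl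
  rw [Red.bracket_eq hs, Red.lin_mul_map hl, Red.lin_gen] at h1
  have h2 : (fun π => ell (ch 2 π * ch 4 π)) = fun π => (1 / 48 : ℚ) * GF π := by
    funext π
    have h3 : (ch 2 π * ch 4 π) * algebraMap ℚ KK 48 =
        algebraMap (MvPolynomial (Fin 2) ℚ) KK (Red.pol 2 π * Red.pol 4 π) := by
      rw [map_mul, ← Red.ch_eq, ← Red.ch_eq]
      have : (48 : ℚ) = ((48 : ℕ) : ℚ) := by norm_num
      rw [this, map_natCast]
      have e2 : (Nat.factorial 2) = 2 := rfl
      have e4 : (Nat.factorial 4) = 24 := rfl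
      rw [e2, e4]
      push_cast
      ring
    have h4 : ell (ch 2 π * ch 4 π) * 48 = GF π := by
      rw [← hl, h3, hell, map_mul, map_mul, Red.eval_pol, Red.eval_pol,
        Red.eval_pol, Red.eval_pol]
      rfl
    rw [← h4]
    ring
  rw [h2, gen_smul] at h1
  have h5 := oqZ.smul_mem h1 (48 : ℚ)
  have h6 : (48 : ℚ) • ((1 / 48 : ℚ) • gen GF * (gen fun _ => (1 : ℚ))⁻¹) = EE GF := by
    unfold EE
    rw [smul_mul_assoc, smul_smul]
    norm_num
  rw [h6] at h5
  exact h5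

end Pool.Agent.H946.Z
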