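import Pool.Agent.H946.Z.Basic
set_option autoImplicit false

/-!
# MP_d9449f_ag : the sign lemma
-/

namespace Pool.Agent.H946.Z

namespace Sign

/-- `κ(w) = [w = 0] - [w = 1]`. -/
def kap (w : ℤ) : ℤ := (if w = 0 then 1 else 0) - (if w = 1 then 1 else 0)

theorem kap_sum1 (N m : ℕ) :
    ∑ a ∈ Finset.range N, kap ((a : ℤ) - m) = if N = m + 1 then 1 else 0 := by
  induction N with
  | zero => simp
  | succ N ih =>
    rw [Finset.sum_range_succ, ih]
    unfold kap
    split_ifs <;> omega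

theorem kap_sum2 (N n : ℕ) (hn : 1 ≤ n) :
    ∑ a ∈ Finset.range N, kap ((n : ℤ) - a) = if n = N then -1 else 0 := by
  induction N with
  | zero =>
    rw [if_neg (by omega)]
    simp
  | succ N ih =>
    rw [Finset.sum_range_succ, ih]
    unfold kap
    split_ifs <;> omega

/-- sums over `i ≤ B` in terms of `B - i`. -/
theorem sum_sub (B : ℕ) (g : ℤ → ℤ) :
    ∑ i ∈ Finset.range (B + 1), g ((B : ℤ) - i) = ∑ a ∈ Finset.range (B + 1), g (a : ℤ) := by
  rw [← Finset.sum_range_reflect (fun a : ℕ => g (a : ℤ))]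
  refine Finset.sum_congr rfl fun i hi => ?_
  rw [Finset.mem_range] at hi
  congr 1
  omega

theorem sum_swap (A B C : Finset ℕ) (f : ℕ → ℕ → ℕ → ℤ) :
    ∑ i ∈ A, ∑ j ∈ B, ∑ l ∈ C, f i j l = ∑ l ∈ C, ∑ i ∈ A, ∑ j ∈ B, f i j l := by
  rw [Finset.sum_comm (s := C)]
  exact Finset.sum_congr rfl fun i _ => Finset.sum_comm

/-- the lower boxes. -/
def low (b : ℕ × ℕ × ℕ) : Finset (ℕ × ℕ × ℕ) :=
  Finset.range (b.1 + 1) ×ˢ Finset.range (b.2.1 + 1) ×ˢ Finset.range (b.2.2 + 1)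

/-- the lower boxes with smaller third coordinate. -/
def low' (b : ℕ × ℕ × ℕ) : Finset (ℕ × ℕ × ℕ) :=
  Finset.range (b.1 + 1) ×ˢ Finset.range (b.2.1 + 1) ×ˢ Finset.range b.2.2

/-- the kernel. -/
def k3 (b c : ℕ × ℕ × ℕ) : ℤ :=
  kap (((b.1 : ℤ) - c.1) - ((b.2.2 : ℤ) - c.2.2)) *
    kap (((b.2.1 : ℤ) - c.2.1) - ((b.2.2 : ℤ) - c.2.2))

theorem first (b : ℕ × ℕ × ℕ) :
    ∑ c ∈ low b, k3 b c = if b.1 = b.2.1 ∧ b.2.1 ≤ b.2.2 then 1 else 0 := by
  obtain ⟨B1, B2, B3⟩ := b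
  unfold low k3
  simp only [Finset.sum_product]
  rw [sum_swap]
  have h1 : ∀ l : ℕ, ∑ i ∈ Finset.range (B1 + 1), ∑ j ∈ Finset.range (B2 + 1),
      kap (((B1 : ℤ) - i) - ((B3 : ℤ) - l)) * kap (((B2 : ℤ) - j) - ((B3 : ℤ) - l)) =
      (∑ a ∈ Finset.range (B1 + 1), kap ((a : ℤ) - ((B3 : ℤ) - l))) *
        ∑ a ∈ Finset.range (B2 + 1), kap ((a : ℤ) - ((B3 : ℤ) - l)) := by
    intro l
    rw [← sum_sub B1 (fun a => kap (a - ((B3 : ℤ) - l))),
      ← sum_sub B2 (fun a => kap (a - ((B3 : ℤ) - l))), Finset.sum_mul_sum]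
  simp only [h1]
  rw [sum_sub B3 (fun m => (∑ a ∈ Finset.range (B1 + 1), kap ((a : ℤ) - m)) *
        ∑ a ∈ Finset.range (B2 + 1), kap ((a : ℤ) - m))]
  simp only [kap_sum1]
  split_ifs with h
  · obtain ⟨rfl, h2⟩ := h
    rw [Finset.sum_eq_single B1]
    · simp
    · intro m _ hm
      rw [if_neg (by omega)]
      simp
    · intro hm
      rw [Finset.mem_range] at hm
      omega
  · refine Finset.sum_eq_zero fun m hm => ?_
    rw [Finset.mem_range] at hm
    split_ifs <;> simp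
    omega

theorem second (c : ℕ × ℕ × ℕ) :
    ∑ b ∈ low' c, k3 b c = if c.1 = c.2.1 ∧ c.2.1 < c.2.2 then 1 else 0 := by
  obtain ⟨C1, C2, C3⟩ := c
  unfold low' k3
  simp only [Finset.sum_product]
  rw [sum_swap]
  have h1 : ∀ l ∈ Finset.range C3, ∑ i ∈ Finset.range (C1 + 1), ∑ j ∈ Finset.range (C2 + 1),
      kap (((i : ℤ) - C1) - ((l : ℤ) - C3)) * kap (((j : ℤ) - C2) - ((l : ℤ) - C3)) =
      (if C3 - l = C1 + 1 then -1 else 0) * (if C3 - l = C2 + 1 then -1 else 0) := by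
    intro l hl
    rw [Finset.mem_range] at hl
    rw [← kap_sum2 (C1 + 1) (C3 - l) (by omega), ← kap_sum2 (C2 + 1) (C3 - l) (by omega),
      ← sum_sub C1 (fun a => kap (((C3 - l : ℕ) : ℤ) - a)),
      ← sum_sub C2 (fun a => kap (((C3 - l : ℕ) : ℤ) - a)), Finset.sum_mul_sum]
    refine Finset.sum_congr rfl fun i _ => Finset.sum_congr rfl fun j _ => ?_
    have e : ((C3 - l : ℕ) : ℤ) = (C3 : ℤ) - l := by omega
    rw [e]
    congr 2 <;> ring
  rw [Finset.sum_congr rfl h1]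
  split_ifs with h
  · obtain ⟨h1, h2⟩ := h
    subst h1
    rw [Finset.sum_eq_single (C3 - (C1 + 1))]
    · rw [if_pos (by omega)]
      simp
    · intro m hm hm2
      rw [Finset.mem_range] at hm
      rw [if_neg (by omega)]
      simp
    · intro hm
      rw [Finset.mem_range] at hm
      omega
  · refine Finset.sum_eq_zero fun m hm => ?_
    rw [Finset.mem_range] at hm
    split_ifs <;> simp
    omega

/-- pairs are comparable. -/
theorem k3_split (b c : ℕ × ℕ × ℕ) :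
    k3 b c = (if c ∈ low b then k3 b c else 0) + (if b ∈ low' c then k3 b c else 0) := by
  obtain ⟨B1, B2, B3⟩ := b
  obtain ⟨C1, C2, C3⟩ := c
  unfold low low'
  simp only [Finset.mem_product, Finset.mem_range]
  by_cases hk : k3 (B1, B2, B3) (C1, C2, C3) = 0
  · rw [hk]; simp
  · have hk1 : ((B1 : ℤ) - C1) - ((B3 : ℤ) - C3) = 0 ∨ ((B1 : ℤ) - C1) - ((B3 : ℤ) - C3) = 1 := by
      by_contra hcon
      push Not at hcon
      apply hk
      unfold k3 kap
      simp only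
      rw [if_neg hcon.1, if_neg hcon.2]
      simp
    have hk2 : ((B2 : ℤ) - C2) - ((B3 : ℤ) - C3) = 0 ∨ ((B2 : ℤ) - C2) - ((B3 : ℤ) - C3) = 1 := by
      by_contra hcon
      push Not at hcon
      apply hk
      unfold k3 kap
      simp only
      rw [if_neg hcon.1, if_neg hcon.2]
      simp
    by_cases h : B3 < C3
    · rw [if_neg (by omega), if_pos (by omega), zero_add]
    · rw [if_pos (by omega), if_neg (by omega), add_zero]

/-- the double sum over a lower set. -/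
theorem double (π : Finset (ℕ × ℕ × ℕ)) (h : IsLowerSet (π : Set (ℕ × ℕ × ℕ))) :
    ∑ b ∈ π, ∑ c ∈ π, k3 b c =
      ∑ b ∈ π, ((if b.1 = b.2.1 ∧ b.2.1 ≤ b.2.2 then 1 else 0) +
        (if b.1 = b.2.1 ∧ b.2.1 < b.2.2 then 1 else 0)) := by
  have h1 : ∀ b ∈ π, low b ⊆ π := by
    intro b hb c hc
    unfold low at hc
    simp only [Finset.mem_product, Finset.mem_range] at hc
    exact h (show c ≤ b from ⟨by omega, by show c.2.1 ≤ b.2.1; omega,
      by show c.2.2 ≤ b.2.2; omega⟩) hb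
  have h2 : ∀ b ∈ π, low' b ⊆ π := by
    intro b hb c hc
    unfold low' at hc
    simp only [Finset.mem_product, Finset.mem_range] at hc
    exact h (show c ≤ b from ⟨by omega, by show c.2.1 ≤ b.2.1; omega,
      by show c.2.2 ≤ b.2.2; omega⟩) hb
  have e1 : ∑ b ∈ π, ∑ c ∈ π, k3 b c =
      ∑ b ∈ π, ∑ c ∈ π, (if c ∈ low b then k3 b c else 0) +
        ∑ b ∈ π, ∑ c ∈ π, (if b ∈ low' c then k3 b c else 0) := by
    rw [← Finset.sum_add_distrib]
    refine Finset.sum_congr rfl fun b _ => ?_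
    rw [← Finset.sum_add_distrib]
    exact Finset.sum_congr rfl fun c _ => k3_split b c
  rw [e1, Finset.sum_comm (f := fun b c => if b ∈ low' c then k3 b c else 0),
    Finset.sum_add_distrib]
  congr 1
  · refine Finset.sum_congr rfl fun b hb => ?_
    rw [← first b, ← Finset.sum_filter]
    congr 1
    ext c
    simp only [Finset.mem_filter]
    exact ⟨fun h => h.2, fun hc => ⟨h1 b hb hc, hc⟩⟩
  · refine Finset.sum_congr rfl fun c hc => ?_
    rw [← second c, ← Finset.sum_filter]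
    congr 1
    ext b
    simp only [Finset.mem_filter]
    exact ⟨fun h => h.2, fun hb => ⟨h2 c hc hb, hb⟩⟩


/-! ### the ring identities -/

/-- characters of the two-dimensional torus. -/
abbrev Ch2 : Type := AddMonoidAlgebra ℤ (ℤ × ℤ)

noncomputable section

/-- monomials. -/
def s (v : ℤ × ℤ) : Ch2 := AddMonoidAlgebra.single v 1

theorem s_mul (v w : ℤ × ℤ) : s v * s w = s (v + w) := by
  unfold s
  rw [AddMonoidAlgebra.single_mul_single, one_mul]

theorem s_zero : s 0 = 1 := rfl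

/-- the restriction on exponents. -/
def rhoHom : (ℤ × ℤ × ℤ) →+ (ℤ × ℤ) where
  toFun v := (v.1 - v.2.2, v.2.1 - v.2.2)
  map_zero' := by simp
  map_add' v w := by
    ext <;> simp <;> ring

/-- restriction as a ring homomorphism. -/
def rH : Ch3 →+* Ch2 := AddMonoidAlgebra.mapDomainRingHom ℤ rhoHom

theorem restr_eq (V : Ch3) : restr V = rH V := rfl

/-- the dual as a ring homomorphism. -/
def dH : Ch2 →+* Ch2 := AddMonoidAlgebra.mapDomainRingHom ℤ (-(AddMonoidHom.id (ℤ × ℤ)))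

theorem dH_s (v : ℤ × ℤ) : dH (s v) = s (-v) := by
  change AddMonoidAlgebra.mapDomain _ _ = _
  unfold s
  rw [AddMonoidAlgebra.mapDomain_single]
  rfl

theorem dH_coeff (V : Ch2) (v : ℤ × ℤ) : (dH V).coeff v = V.coeff (-v) := by
  change (AddMonoidAlgebra.mapDomain (fun v : ℤ × ℤ => -v) V).coeff v = _
  rw [AddMonoidAlgebra.coeff_mapDomain]
  have h := Finsupp.mapDomain_apply (f := fun v : ℤ × ℤ => -v) neg_injective V.coeff (-v)
  simpa using h

/-- the exponent of a box. -/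
def rho (b : Box) : ℤ × ℤ := ((b.1 : ℤ) - b.2.2, (b.2.1 : ℤ) - b.2.2)

/-- the restriction of `Q`. -/
def qq (π : Finset Box) : Ch2 := ∑ b ∈ π, s (rho b)

/-- the restriction of the dual of `Q`. -/
def qb (π : Finset Box) : Ch2 := ∑ b ∈ π, s (-rho b)

theorem rH_tm (v : ℤ × ℤ × ℤ) : rH (tm v) = s (v.1 - v.2.2, v.2.1 - v.2.2) := by
  change AddMonoidAlgebra.mapDomain _ _ = _
  unfold tm s
  rw [AddMonoidAlgebra.mapDomain_single]
  rfl

theorem rH_Qch (π : Finset Box) : rH (Qch π) = qq π := by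
  unfold Qch qq
  rw [map_sum]
  exact Finset.sum_congr rfl fun b _ => rH_tm _

theorem dual_Qch (π : Finset Box) :
    dual (Qch π) = ∑ b ∈ π, tm (-((b.1 : ℤ), (b.2.1 : ℤ), (b.2.2 : ℤ))) := by
  change AddMonoidAlgebra.mapDomainRingHom ℤ (-(AddMonoidHom.id (ℤ × ℤ × ℤ))) (Qch π) = _
  unfold Qch
  rw [map_sum]
  refine Finset.sum_congr rfl fun b _ => ?_
  change AddMonoidAlgebra.mapDomain _ _ = _
  unfold tm
  rw [AddMonoidAlgebra.mapDomain_single]
  rfl

theorem rH_dual_Qch (π : Finset Box) : rH (dual (Qch π)) = qb π := by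
  rw [dual_Qch, map_sum]
  unfold qb
  refine Finset.sum_congr rfl fun b _ => ?_
  rw [rH_tm]
  congr 1
  unfold rho
  ext <;> simp <;> ring

/-- the half of the vertex. -/
def U (π : Finset Box) : Ch2 := qq π - qq π * qb π * ((1 - s (1, 0)) * (1 - s (0, 1))) * s (-1, -1)

theorem dH_qq (π : Finset Box) : dH (qq π) = qb π := by
  unfold qq qb
  rw [map_sum]
  exact Finset.sum_congr rfl fun b _ => dH_s _

theorem dH_qb (π : Finset Box) : dH (qb π) = qq π := by
  unfold qq qb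
  rw [map_sum]
  refine Finset.sum_congr rfl fun b _ => ?_
  rw [dH_s, neg_neg]

theorem vertex_eq (π : Finset Box) : restr (vertex π) = U π - dH (U π) := by
  rw [restr_eq]
  unfold vertex
  simp only [map_add, map_sub, map_mul, map_one, rH_Qch, rH_dual_Qch, rH_tm]
  unfold U
  simp only [map_sub, map_mul, map_one, dH_qq, dH_qb, dH_s]
  norm_num
  have e0 : s ((0 : ℤ), (0 : ℤ)) = 1 := rfl
  have e1 : s ((1 : ℤ), (0 : ℤ)) * s (-1, 0) = 1 := by rw [s_mul]; rfl
  have e2 : s ((0 : ℤ), (1 : ℤ)) * s (0, -1) = 1 := by rw [s_mul]; rfl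
  have e3 : s ((1 : ℤ), (1 : ℤ)) = s (1, 0) * s (0, 1) := by rw [s_mul]; rfl
  have e4 : s ((-1 : ℤ), (-1 : ℤ)) = s (-1, 0) * s (0, -1) := by rw [s_mul]; rfl
  rw [e0, e3, e4]
  generalize s ((1 : ℤ), (0 : ℤ)) = x at *
  generalize s ((0 : ℤ), (1 : ℤ)) = y at *
  generalize s ((-1 : ℤ), (0 : ℤ)) = x' at *
  generalize s ((0 : ℤ), (-1 : ℤ)) = y' at *
  generalize qq π = q
  generalize qb π = q'
  linear_combination (q * q' * y - q * q') * e1 + (q * q' * x - q * q' * x * x') * e2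


/-! ### the augmentation and the constant term -/

/-- the augmentation. -/
def aug : Ch2 →ₐ[ℤ] ℤ := AddMonoidAlgebra.lift ℤ ℤ (ℤ × ℤ) 1

theorem aug_s (v : ℤ × ℤ) : aug (s v) = 1 := by
  unfold aug s
  rw [AddMonoidAlgebra.lift_single]
  simp

theorem aug_eq (V : Ch2) (S : Finset (ℤ × ℤ)) (hS : V.coeff.support ⊆ S) :
    aug V = ∑ v ∈ S, V.coeff v := by
  unfold aug
  rw [AddMonoidAlgebra.lift_apply, Finsupp.sum_of_support_subset _ hS _ (by simp)]
  simp

theorem aug_U (π : Finset Box) : aug (U π) = (π.card : ℤ) := by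
  unfold U
  rw [map_sub, map_mul, map_mul, map_mul, map_mul, map_sub, map_one, aug_s, sub_self, zero_mul, mul_zero,
    zero_mul, sub_zero]
  unfold qq
  rw [map_sum]
  simp [aug_s]

theorem coeff_s (v w : ℤ × ℤ) : (s v).coeff w = if v = w then 1 else 0 := by
  unfold s
  rw [AddMonoidAlgebra.coeff_single, Finsupp.single_apply]

theorem coeff_U (π : Finset Box) : (U π).coeff 0 =
    (∑ b ∈ π, if b.1 = b.2.1 ∧ b.2.1 = b.2.2 then (1 : ℤ) else 0) - ∑ b ∈ π, ∑ c ∈ π, k3 b c := by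
  have h1 : qq π * qb π * ((1 - s (1, 0)) * (1 - s (0, 1))) * s (-1, -1) =
      ∑ b ∈ π, ∑ c ∈ π, (s (rho b + -rho c + (-1, -1)) - s (rho b + -rho c + (0, -1)) -
        s (rho b + -rho c + (-1, 0)) + s (rho b + -rho c + 0)) := by
    have e : ((1 - s (1, 0)) * (1 - s (0, 1))) * s (-1, -1) =
        s (-1, -1) - s (0, -1) - s (-1, 0) + s 0 := by
      have e1 : s ((1 : ℤ), (0 : ℤ)) * s (-1, -1) = s (0, -1) := by rw [s_mul]; rfl
      have e2 : s ((0 : ℤ), (1 : ℤ)) * s (-1, -1) = s (-1, 0) := by rw [s_mul]; rfl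
      have e3 : s ((1 : ℤ), (0 : ℤ)) * s (0, 1) * s (-1, -1) = s 0 := by rw [s_mul, s_mul]; rfl
      linear_combination -e1 - e2 + e3
    rw [mul_assoc, e]
    unfold qq qb
    rw [Finset.sum_mul_sum, Finset.sum_mul]
    refine Finset.sum_congr rfl fun b _ => ?_
    rw [Finset.sum_mul]
    refine Finset.sum_congr rfl fun c _ => ?_
    rw [s_mul, mul_add, mul_sub, mul_sub, s_mul, s_mul, s_mul, s_mul]
  unfold U
  rw [h1]
  unfold qq
  simp only [AddMonoidAlgebra.coeff_sub, AddMonoidAlgebra.coeff_sum, AddMonoidAlgebra.coeff_add,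
    Finsupp.coe_sub, Finsupp.coe_add, Finsupp.coe_finsetSum, Pi.sub_apply, Pi.add_apply,
    Finset.sum_apply, coeff_s]
  congr 1
  · refine Finset.sum_congr rfl fun b _ => ?_
    refine if_congr ?_ rfl rfl
    unfold rho
    rw [Prod.ext_iff]
    simp only [Prod.fst_zero, Prod.snd_zero]
    omega
  · refine Finset.sum_congr rfl fun b _ => Finset.sum_congr rfl fun c _ => ?_
    unfold rho k3 kap
    simp only [Prod.ext_iff, Prod.fst_add, Prod.snd_add, Prod.fst_neg, Prod.snd_neg,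
      Prod.fst_zero, Prod.snd_zero]
    split_ifs <;> omega

theorem coeff_U_even (π : Finset Box) (h : IsLowerSet (π : Set Box)) :
    Even ((U π).coeff 0) := by
  refine ⟨-∑ b ∈ π, (if b.1 = b.2.1 ∧ b.2.1 < b.2.2 then (1 : ℤ) else 0), ?_⟩
  rw [coeff_U, double π h, ← Finset.sum_sub_distrib, ← Finset.sum_neg_distrib,
    ← Finset.sum_add_distrib]
  refine Finset.sum_congr rfl fun b _ => ?_
  split_ifs <;> omega

/-! ### the product -/

theorem wt_neg (v : ℤ × ℤ) : wt (-v) = -wt v := by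
  unfold wt
  rw [← map_neg]
  congr 1
  simp only [Prod.fst_neg, Prod.snd_neg, Int.cast_neg]
  ring

theorem wt_ne (v : ℤ × ℤ) (hv : v ≠ 0) : wt v ≠ 0 := by
  unfold wt
  rw [Ne, FaithfulSMul.algebraMap_eq_zero_iff]
  intro h
  apply hv
  have h1 := congrArg (MvPolynomial.eval (fun i : Fin 2 => if i = 0 then (1 : ℚ) else 0)) h
  have h2 := congrArg (MvPolynomial.eval (fun i : Fin 2 => if i = 0 then (0 : ℚ) else 1)) h
  simp at h1 h2
  exact Prod.ext h1 h2

theorem prod_zpow {ι : Type*} (S : Finset ι) (f : ι → ℤ) (a : KK) (ha : a ≠ 0) :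
    ∏ i ∈ S, a ^ f i = a ^ ∑ i ∈ S, f i := by
  classical
  induction S using Finset.induction_on with
  | empty => simp
  | insert i S hi ih => rw [Finset.prod_insert hi, Finset.sum_insert hi, ih, zpow_add₀ ha]

theorem invEuler_sub (V : Ch2) :
    invEuler (V - dH V) = (-1) ^ (aug V - V.coeff 0) := by
  classical
  set S : Finset (ℤ × ℤ) := V.coeff.support ∪ V.coeff.support.image (fun v => -v) ∪ {0} with hS
  have hneg : ∀ v ∈ S, -v ∈ S := by
    intro v hv
    simp only [hS, Finset.mem_union, Finset.mem_image, Finset.mem_singleton] at hv ⊢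
    rcases hv with (hv | ⟨w, hw, rfl⟩) | rfl
    · exact Or.inl (Or.inr ⟨v, hv, rfl⟩)
    · rw [neg_neg]
      exact Or.inl (Or.inl hw)
    · right; simp
  have h0 : (0 : ℤ × ℤ) ∈ S := by simp [hS]
  have hco : ∀ v, (V - dH V).coeff v = V.coeff v - V.coeff (-v) := by
    intro v
    rw [AddMonoidAlgebra.coeff_sub, Finsupp.sub_apply, dH_coeff]
  have hsub : (V - dH V).coeff.support ⊆ S := by
    intro v hv
    rw [Finsupp.mem_support_iff, hco] at hv
    by_cases h1 : V.coeff v = 0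
    · have h2 : V.coeff (-v) ≠ 0 := by
        intro h2
        apply hv
        rw [h1, h2, sub_self]
      have h3 : -v ∈ S := by
        simp only [hS, Finset.mem_union]
        exact Or.inl (Or.inl (Finsupp.mem_support_iff.2 h2))
      have := hneg _ h3
      rwa [neg_neg] at this
    · simp only [hS, Finset.mem_union]
      exact Or.inl (Or.inl (Finsupp.mem_support_iff.2 h1))
  have hsub2 : V.coeff.support ⊆ S := by
    intro v hv
    simp only [hS, Finset.mem_union]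
    exact Or.inl (Or.inl hv)
  unfold invEuler
  rw [Finsupp.prod_of_support_subset _ hsub _ (by simp), ← Finset.mul_prod_erase S _ h0]
  have e0 : wt 0 ^ (-(V - dH V).coeff 0) = 1 := by
    rw [hco, neg_zero, sub_self, neg_zero, zpow_zero]
  rw [e0, one_mul]
  have e1 : ∏ v ∈ S.erase 0, wt v ^ (-(V - dH V).coeff v) =
      (∏ v ∈ S.erase 0, wt v ^ (-V.coeff v)) * ∏ v ∈ S.erase 0, wt v ^ (V.coeff (-v)) := by
    rw [← Finset.prod_mul_distrib]
    refine Finset.prod_congr rfl fun v hv => ?_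
    rw [← zpow_add₀ (wt_ne v (Finset.ne_of_mem_erase hv)), hco]
    congr 1
    ring
  have e2 : ∏ v ∈ S.erase 0, wt v ^ (V.coeff (-v)) = ∏ v ∈ S.erase 0, wt (-v) ^ (V.coeff v) := by
    refine Finset.prod_nbij' (fun v => -v) (fun v => -v) ?_ ?_ ?_ ?_ ?_
    · intro v hv
      rw [Finset.mem_erase] at hv ⊢
      exact ⟨neg_ne_zero.2 hv.1, hneg v hv.2⟩
    · intro v hv
      rw [Finset.mem_erase] at hv ⊢
      exact ⟨neg_ne_zero.2 hv.1, hneg v hv.2⟩
    · intro v _; exact neg_neg v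
    · intro v _; exact neg_neg v
    · intro v _; rw [neg_neg]
  rw [e1, e2, ← Finset.prod_mul_distrib]
  have e3 : ∀ v ∈ S.erase 0, wt v ^ (-V.coeff v) * wt (-v) ^ (V.coeff v) =
      (-1 : KK) ^ (V.coeff v) := by
    intro v hv
    have hw := wt_ne v (Finset.ne_of_mem_erase hv)
    rw [wt_neg, ← neg_one_mul (wt v), mul_zpow, mul_left_comm, ← zpow_add₀ hw, neg_add_cancel,
      zpow_zero, mul_one]
  rw [Finset.prod_congr rfl e3, prod_zpow _ _ _ (by norm_num), aug_eq V S hsub2,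
    ← Finset.add_sum_erase S _ h0, add_sub_cancel_left]

end

end Sign

open Sign in
/-- the sign lemma. -/
theorem sign : S_sign := by
  intro n π hπ
  obtain ⟨hlow, hcard⟩ := mem_PP.1 hπ
  rw [vertex_eq, invEuler_sub, aug_U, hcard]
  obtain ⟨k, hk⟩ := coeff_U_even π hlow
  rw [hk, zpow_sub₀ (by norm_num : (-1 : KK) ≠ 0), zpow_natCast, ← two_mul, zpow_mul]
  norm_num

end Pool.Agent.H946.Z
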