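import Pool.Agent.H946.Z.Basic
set_option autoImplicit false

/-!
# MP_d9449f_ag : symmetrization of expectations over plane partitions
-/

namespace Pool.Agent.H946.Z

open PowerSeries

namespace Sym

/-- image of a plane partition under a monotone involution of the boxes -/
theorem image_mem (s : Box → Box) (hs : ∀ b, s (s b) = b) (hm : ∀ b c : Box, b ≤ c → s b ≤ s c)
    {n : ℕ} {π : Finset Box} (h : π ∈ PP n) : π.image s ∈ PP n := by
  classical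
  have hinj : Function.Injective s := fun a b hab => by rw [← hs a, ← hs b, hab]
  rw [mem_PP] at h ⊢
  refine ⟨?_, ?_⟩
  · intro b c hcb hb
    simp only [Finset.coe_image, Set.mem_image, Finset.mem_coe] at hb ⊢
    obtain ⟨b0, hb0, rfl⟩ := hb
    have h1 := hm _ _ hcb
    rw [hs] at h1
    exact ⟨s c, h.1 h1 hb0, hs c⟩
  · rw [Finset.card_image_of_injective _ hinj, h.2]

theorem gen_image (s : Box → Box) (hs : ∀ b, s (s b) = b) (hm : ∀ b c : Box, b ≤ c → s b ≤ s c)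
    (f : Finset Box → ℚ) : gen f = gen (fun π => f (π.image s)) := by
  classical
  ext n
  rw [coeff_gen, coeff_gen]
  symm
  refine Finset.sum_nbij' (fun π => π.image s) (fun π => π.image s)
    (fun π hπ => image_mem s hs hm hπ) (fun π hπ => image_mem s hs hm hπ) ?_ ?_ (fun _ _ => rfl)
  · intro π _
    show (π.image s).image s = π
    rw [Finset.image_image]
    have : s ∘ s = id := by funext b; exact hs b
    rw [this, Finset.image_id]
  · intro π _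
    show (π.image s).image s = π
    rw [Finset.image_image]
    have : s ∘ s = id := by funext b; exact hs b
    rw [this, Finset.image_id]

/-- sum over the boxes -/
def S (φ : Box → ℚ) (π : Finset Box) : ℚ := ∑ b ∈ π, φ b

theorem S_image (s : Box → Box) (hs : ∀ b, s (s b) = b) (φ : Box → ℚ) (π : Finset Box) :
    S φ (π.image s) = S (fun b => φ (s b)) π := by
  classical
  have hinj : Function.Injective s := fun a b hab => by rw [← hs a, ← hs b, hab]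
  unfold S
  rw [Finset.sum_image (fun a _ b _ hab => hinj hab)]

noncomputable def L (φ : Box → ℚ) : ℚ⟦X⟧ := EE (S φ)

noncomputable def B (φ ψ : Box → ℚ) : ℚ⟦X⟧ := EE (fun π => S φ π * S ψ π)

theorem EE_add (f g : Finset Box → ℚ) : EE (fun π => f π + g π) = EE f + EE g := by
  unfold EE
  rw [gen_add, add_mul]

theorem EE_sub (f g : Finset Box → ℚ) : EE (fun π => f π - g π) = EE f - EE g := by
  unfold EE
  rw [gen_sub, sub_mul]

theorem EE_smul (c : ℚ) (f : Finset Box → ℚ) : EE (fun π => c * f π) = c • EE f := by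
  unfold EE
  rw [gen_smul, smul_mul_assoc]

theorem L_swap (s : Box → Box) (hs : ∀ b, s (s b) = b) (hm : ∀ b c : Box, b ≤ c → s b ≤ s c)
    (φ : Box → ℚ) : L φ = L (fun b => φ (s b)) := by
  unfold L EE
  rw [gen_image s hs hm (S φ)]
  simp only [S_image s hs]

theorem B_swap (s : Box → Box) (hs : ∀ b, s (s b) = b) (hm : ∀ b c : Box, b ≤ c → s b ≤ s c)
    (φ ψ : Box → ℚ) : B φ ψ = B (fun b => φ (s b)) (fun b => ψ (s b)) := by
  unfold B EE
  rw [gen_image s hs hm (fun π => S φ π * S ψ π)]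
  simp only [S_image s hs]

theorem S_lin (c1 c2 c3 : ℚ) (φ1 φ2 φ3 φ : Box → ℚ)
    (h : ∀ b, φ b = c1 * φ1 b + c2 * φ2 b + c3 * φ3 b) (π : Finset Box) :
    S φ π = c1 * S φ1 π + c2 * S φ2 π + c3 * S φ3 π := by
  unfold S
  rw [Finset.mul_sum, Finset.mul_sum, Finset.mul_sum, ← Finset.sum_add_distrib,
    ← Finset.sum_add_distrib]
  exact Finset.sum_congr rfl fun b _ => h b

theorem L_lin (c1 c2 c3 : ℚ) (φ1 φ2 φ3 φ : Box → ℚ)
    (h : ∀ b, φ b = c1 * φ1 b + c2 * φ2 b + c3 * φ3 b) :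
    L φ = c1 • L φ1 + c2 • L φ2 + c3 • L φ3 := by
  unfold L
  rw [← EE_smul, ← EE_smul, ← EE_smul, ← EE_add, ← EE_add]
  congr 1
  funext π
  exact S_lin c1 c2 c3 φ1 φ2 φ3 φ h π

theorem B_comm (φ ψ : Box → ℚ) : B φ ψ = B ψ φ := by
  unfold B
  congr 1
  funext π
  ring

theorem B_left (c1 c2 c3 : ℚ) (φ1 φ2 φ3 φ ψ : Box → ℚ)
    (h : ∀ b, φ b = c1 * φ1 b + c2 * φ2 b + c3 * φ3 b) :
    B φ ψ = c1 • B φ1 ψ + c2 • B φ2 ψ + c3 • B φ3 ψ := by
  unfold B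
  rw [← EE_smul, ← EE_smul, ← EE_smul, ← EE_add, ← EE_add]
  congr 1
  funext π
  rw [S_lin c1 c2 c3 φ1 φ2 φ3 φ h π]
  ring

theorem B_right (c1 c2 c3 : ℚ) (φ1 φ2 φ3 φ ψ : Box → ℚ)
    (h : ∀ b, φ b = c1 * φ1 b + c2 * φ2 b + c3 * φ3 b) :
    B ψ φ = c1 • B ψ φ1 + c2 • B ψ φ2 + c3 • B ψ φ3 := by
  rw [B_comm, B_left c1 c2 c3 φ1 φ2 φ3 φ ψ h, B_comm φ1, B_comm φ2, B_comm φ3]

/-! the functions of a box -/

def a2 (b : Box) : ℚ := ((b.1 : ℚ) - b.2.1) ^ 2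
def a4 (b : Box) : ℚ := ((b.1 : ℚ) - b.2.1) ^ 4
def p2 (b : Box) : ℚ := ((b.1 : ℚ) - b.2.2) ^ 2
def p4 (b : Box) : ℚ := ((b.1 : ℚ) - b.2.2) ^ 4
def r2 (b : Box) : ℚ := ((b.2.1 : ℚ) - b.2.2) ^ 2
def r4 (b : Box) : ℚ := ((b.2.1 : ℚ) - b.2.2) ^ 4
def m2 (b : Box) : ℚ := (2 * (b.2.2 : ℚ) - b.1 - b.2.1) ^ 2
def m4 (b : Box) : ℚ := (2 * (b.2.2 : ℚ) - b.1 - b.2.1) ^ 4
def am (b : Box) : ℚ := ((b.1 : ℚ) - b.2.1) ^ 2 * (2 * (b.2.2 : ℚ) - b.1 - b.2.1) ^ 2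
/-- the two conjugates of `m4` -/
def n4 (b : Box) : ℚ := (2 * (b.2.1 : ℚ) - b.1 - b.2.2) ^ 4
def o4 (b : Box) : ℚ := (2 * (b.1 : ℚ) - b.2.2 - b.2.1) ^ 4
def n2 (b : Box) : ℚ := (2 * (b.2.1 : ℚ) - b.1 - b.2.2) ^ 2
def o2 (b : Box) : ℚ := (2 * (b.1 : ℚ) - b.2.2 - b.2.1) ^ 2
def t2 (b : Box) : ℚ := a2 b + p2 b + r2 b
def t4 (b : Box) : ℚ := a4 b + p4 b + r4 b

/-- swap of the last two coordinates -/
def s23 (b : Box) : Box := (b.1, b.2.2, b.2.1)
/-- swap of the first and the last coordinate -/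
def s13 (b : Box) : Box := (b.2.2, b.2.1, b.1)

theorem s23_inv (b : Box) : s23 (s23 b) = b := rfl
theorem s13_inv (b : Box) : s13 (s13 b) = b := rfl
theorem s23_mono (b c : Box) (h : b ≤ c) : s23 b ≤ s23 c := ⟨h.1, h.2.2, h.2.1⟩
theorem s13_mono (b c : Box) (h : b ≤ c) : s13 b ≤ s13 c := ⟨h.2.2, h.2.1, h.1⟩

theorem L23 (φ ψ : Box → ℚ) (h : ∀ b, φ (s23 b) = ψ b) : L φ = L ψ := by
  rw [L_swap s23 s23_inv s23_mono φ]; congr 1; funext b; exact h b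
theorem L13 (φ ψ : Box → ℚ) (h : ∀ b, φ (s13 b) = ψ b) : L φ = L ψ := by
  rw [L_swap s13 s13_inv s13_mono φ]; congr 1; funext b; exact h b
theorem B23 (φ ψ φ' ψ' : Box → ℚ) (h : ∀ b, φ (s23 b) = φ' b) (h' : ∀ b, ψ (s23 b) = ψ' b) :
    B φ ψ = B φ' ψ' := by
  rw [B_swap s23 s23_inv s23_mono φ ψ]; congr 1
  · funext b; exact h b
  · funext b; exact h' b
theorem B13 (φ ψ φ' ψ' : Box → ℚ) (h : ∀ b, φ (s13 b) = φ' b) (h' : ∀ b, ψ (s13 b) = ψ' b) :
    B φ ψ = B φ' ψ' := by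
  rw [B_swap s13 s13_inv s13_mono φ ψ]; congr 1
  · funext b; exact h b
  · funext b; exact h' b

/-- relation 2 -/
theorem rel2 : L m2 = (3 : ℚ) • L a2 := by
  have h1 : L p2 = L a2 := L23 p2 a2 fun b => by simp only [p2, a2, s23]
  have h2 : L r2 = L a2 := L13 r2 a2 fun b => by simp only [r2, a2, s13]; ring
  rw [L_lin (-1) 2 2 a2 p2 r2 m2 (fun b => by simp only [m2, a2, p2, r2]; ring), h1, h2]
  module

/-- relation 3 -/
theorem rel3 : L am = L a4 := by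
  have h1 : L p4 = L a4 := L23 p4 a4 fun b => by simp only [p4, a4, s23]
  have h2 : L r4 = L a4 := L13 r4 a4 fun b => by simp only [r4, a4, s13]; ring
  have h3 : L t4 = (3 : ℚ) • L a4 := by
    rw [L_lin 1 1 1 a4 p4 r4 t4 (fun b => by simp only [t4]; ring), h1, h2]; module
  have h4 : L t4 = (9 / 8 : ℚ) • L a4 + (6 / 8 : ℚ) • L am + (1 / 8 : ℚ) • L m4 :=
    L_lin _ _ _ _ _ _ _ (fun b => by simp only [t4, a4, p4, r4, am, m4]; ring)
  have h5 : L m4 = L n4 := L23 m4 n4 fun b => by simp only [m4, n4, s23]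
  have h6 : L m4 = L o4 := L13 m4 o4 fun b => by simp only [m4, o4, s13]
  have h7 : L (fun b => n4 b + o4 b) =
      (81 / 8 : ℚ) • L a4 + (54 / 8 : ℚ) • L am + (1 / 8 : ℚ) • L m4 :=
    L_lin _ _ _ _ _ _ _ (fun b => by simp only [n4, o4, a4, am, m4]; ring)
  have h8 : L (fun b => n4 b + o4 b) = (1 : ℚ) • L n4 + (1 : ℚ) • L o4 + (0 : ℚ) • L o4 :=
    L_lin _ _ _ _ _ _ _ (fun b => by ring)
  rw [← h5, ← h6, h7] at h8
  rw [h3] at h4
  -- unknowns x = L a4, y = L am, z = L m4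
  have e1 : (0 : ℚ⟦X⟧) = (-15 / 8 : ℚ) • L a4 + (6 / 8 : ℚ) • L am + (1 / 8 : ℚ) • L m4 := by
    linear_combination (norm := module) h4
  have e2 : (0 : ℚ⟦X⟧) = (81 / 8 : ℚ) • L a4 + (54 / 8 : ℚ) • L am - (15 / 8 : ℚ) • L m4 := by
    linear_combination (norm := module) (-1 : ℚ) • h8
  linear_combination (norm := module) (-(15 : ℚ) / 18) • e1 - (1 / 18 : ℚ) • e2

/-- relation 1 -/
theorem rel1 : B a2 m4 = (3 : ℚ) • B a2 a4 + (4 : ℚ) • B m2 a4 - (6 : ℚ) • B a2 am := by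
  have ht2 : ∀ b, t2 (s23 b) = t2 b := fun b => by simp only [t2, a2, p2, r2, s23]; ring
  have ht2' : ∀ b, t2 (s13 b) = t2 b := fun b => by simp only [t2, a2, p2, r2, s13]; ring
  have ht4 : ∀ b, t4 (s23 b) = t4 b := fun b => by simp only [t4, a4, p4, r4, s23]; ring
  have ht4' : ∀ b, t4 (s13 b) = t4 b := fun b => by simp only [t4, a4, p4, r4, s13]; ring
  have h1 : B t2 p4 = B t2 a4 := B23 _ _ _ _ ht2 fun b => by simp only [p4, a4, s23]
  have h2 : B t2 r4 = B t2 a4 := B13 _ _ _ _ ht2' fun b => by simp only [r4, a4, s13]; ring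
  have h3 : B p2 t4 = B a2 t4 := B23 _ _ _ _ (fun b => by simp only [p2, a2, s23]) ht4
  have h4 : B r2 t4 = B a2 t4 := B13 _ _ _ _ (fun b => by simp only [r2, a2, s13]; ring) ht4'
  have h5 : B t2 t4 = (1 : ℚ) • B t2 a4 + (1 : ℚ) • B t2 p4 + (1 : ℚ) • B t2 r4 :=
    B_right _ _ _ _ _ _ _ _ (fun b => by simp only [t4]; ring)
  have h6 : B t2 t4 = (1 : ℚ) • B a2 t4 + (1 : ℚ) • B p2 t4 + (1 : ℚ) • B r2 t4 :=
    B_left _ _ _ _ _ _ _ _ (fun b => by simp only [t2]; ring)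
  have h7 : B t2 a4 = (3 / 2 : ℚ) • B a2 a4 + (1 / 2 : ℚ) • B m2 a4 + (0 : ℚ) • B m2 a4 :=
    B_left _ _ _ _ _ _ _ _ (fun b => by simp only [t2, a2, p2, r2, m2]; ring)
  have h8 : B a2 t4 = (9 / 8 : ℚ) • B a2 a4 + (6 / 8 : ℚ) • B a2 am + (1 / 8 : ℚ) • B a2 m4 :=
    B_right _ _ _ _ _ _ _ _ (fun b => by simp only [t4, a4, p4, r4, am, m4]; ring)
  rw [h1, h2] at h5
  rw [h3, h4, h5] at h6
  have h9 : B t2 a4 = B a2 t4 := by
    linear_combination (norm := module) (1 / 3 : ℚ) • h6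
  rw [h7, h8] at h9
  linear_combination (norm := module) (-8 : ℚ) • h9

theorem main0 : B m2 m4 = -(3 / 4 : ℚ) • B a2 m4 + (81 / 4 : ℚ) • B a2 a4 +
    (27 / 2 : ℚ) • B a2 am := by
  have h1 : B m2 m4 = (-1 : ℚ) • B a2 m4 + (2 : ℚ) • B p2 m4 + (2 : ℚ) • B r2 m4 :=
    B_left _ _ _ _ _ _ _ _ (fun b => by simp only [m2, a2, p2, r2]; ring)
  have h2 : B p2 m4 = B a2 n4 :=
    B23 _ _ _ _ (fun b => by simp only [p2, a2, s23]) (fun b => by simp only [m4, n4, s23])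
  have h3 : B r2 m4 = B a2 o4 :=
    B13 _ _ _ _ (fun b => by simp only [r2, a2, s13]; ring) (fun b => by simp only [m4, o4, s13])
  have h4 : B a2 (fun b => n4 b + o4 b) =
      (81 / 8 : ℚ) • B a2 a4 + (54 / 8 : ℚ) • B a2 am + (1 / 8 : ℚ) • B a2 m4 :=
    B_right _ _ _ _ _ _ _ _ (fun b => by simp only [n4, o4, a4, am, m4]; ring)
  have h5 : B a2 (fun b => n4 b + o4 b) =
      (1 : ℚ) • B a2 n4 + (1 : ℚ) • B a2 o4 + (0 : ℚ) • B a2 o4 :=
    B_right _ _ _ _ _ _ _ _ (fun b => by ring)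
  rw [h4] at h5
  rw [h2, h3] at h1
  linear_combination (norm := module) h1 - (2 : ℚ) • h5

theorem Ar2_eq : Ar 2 = S a2 := rfl
theorem Ar4_eq : Ar 4 = S a4 := rfl
theorem M2_eq : M2 = S m2 := rfl
theorem AM_eq : AM = S am := rfl

theorem GF_eq : GF = fun π => S m2 π * S m4 π - 27 * (S a2 π * S a4 π) := by
  funext π
  unfold GF pk S
  congr 1
  · congr 1
    · exact Finset.sum_congr rfl fun b _ => by simp only [m2]; ring
    · exact Finset.sum_congr rfl fun b _ => by simp only [m4]; ring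
  · congr 1
    congr 1
    · exact Finset.sum_congr rfl fun b _ => by simp only [a2]; ring
    · exact Finset.sum_congr rfl fun b _ => by simp only [a4]; ring

end Sym

open Pool.Agent.H946.Z.Sym in
/-- symmetrization of the expectation of `GF` -/
theorem sym : S_sym := by
  unfold S_sym F0 cov
  rw [GF_eq, EE_sub, EE_smul, Ar2_eq, Ar4_eq, M2_eq, AM_eq]
  show B m2 m4 - (27 : ℚ) • B a2 a4 =
    (3 : ℚ) • ((-3 : ℚ) • (B a2 a4 - L a2 * L a4) + (6 : ℚ) • (B a2 am - L a2 * L am)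
      - (B a4 m2 - L a4 * L m2))
  rw [rel3, rel2, main0, rel1, B_comm a4 m2, mul_smul_comm, mul_comm (L a4) (L a2)]
  module

end Pool.Agent.H946.Z
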