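import Pool.Agent.H946.Z.Basic
set_option autoImplicit false

/-!
# MP_d9449f_ag : assembling the lower bound for the growth
-/

namespace Pool.Agent.H946.Z

namespace T3

noncomputable section

/-- the upper half plane. -/
abbrev UH : Type := {τ : ℂ // 0 < τ.im}

theorem neg_inv_im {z : ℂ} (hz : 0 < z.im) : 0 < (-1 / z).im := by
  have h0 : z ≠ 0 := by
    rintro rfl
    simp at hz
  have h1 : 0 < Complex.normSq z := Complex.normSq_pos.2 h0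
  have h2 : (-1 / z).im = z.im / Complex.normSq z := by
    rw [neg_div, one_div, Complex.neg_im, Complex.inv_im]
    ring
  rw [h2]
  exact div_pos hz h1

theorem add_im {τ : ℂ} (N : ℕ) : (τ + N).im = τ.im := by simp

/-- shift of the index. -/
def shiftE (N : ℕ) : (ℕ × ℤ) ≃ (ℕ × ℤ) where
  toFun p := (p.1, p.2 + ((p.1 : ℤ) + 1) * N)
  invFun p := (p.1, p.2 - ((p.1 : ℤ) + 1) * N)
  left_inv p := by ext <;> simp
  right_inv p := by ext <;> simp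

theorem YY_add (τ : ℂ) (N : ℕ) (i : ℕ × ℕ) : YY (τ + N) i = YY τ i := by
  unfold YY
  congr 1
  refine Eq.trans (tsum_congr fun p => ?_) ((shiftE N).tsum_eq _)
  have : ((p.1 : ℂ) + 1) * (τ + N) + (p.2 : ℂ) =
      (((shiftE N p).1 : ℂ) + 1) * τ + ((shiftE N p).2 : ℂ) := by
    simp only [shiftE, Equiv.coe_fn_mk]
    push_cast
    ring
  rw [this]
  rfl

theorem yy_add (τ : ℂ) (N : ℕ) (i : ℕ × ℕ) : yy (τ + N) i = yy τ i := by
  unfold yy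
  rw [YY_add]

/-- the constants. -/
def cst (i : ℕ × ℕ) : ℂ := if i.2 = 0 then zet (2 * i.1 + 3) else 0

theorem yy_eq (τ : ℂ) (i : ℕ × ℕ) : yy τ i = YY τ i - cst i := rfl

theorem norm_bounds {τ : ℂ} (hτ : 0 < τ.im) : ∃ A : ℝ, 0 < A ∧ ∀ N : ℕ, 1 ≤ N →
    ‖τ + N‖ ≤ A * N ∧ (N : ℝ) ≤ A * ‖τ + N‖ := by
  refine ⟨‖τ‖ + 1 + ‖τ‖ / τ.im, by positivity, fun N hN => ?_⟩
  have hN1 : (1 : ℝ) ≤ N := by exact_mod_cast hN
  have h0 : 0 ≤ ‖τ‖ / τ.im := by positivity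
  have hn : ‖(N : ℂ)‖ = N := by simp
  constructor
  · have h1 : ‖τ + N‖ ≤ ‖τ‖ + N := by
      have := norm_add_le τ (N : ℂ)
      rwa [hn] at this
    nlinarith [norm_nonneg τ]
  · have him : τ.im ≤ ‖τ + N‖ := by
      have := Complex.abs_im_le_norm (τ + N)
      rw [add_im] at this
      exact (le_abs_self _).trans this
    have h2 : (N : ℝ) ≤ ‖τ + N‖ + ‖τ‖ := by
      have := norm_sub_le (τ + N) τ
      rw [add_sub_cancel_left, hn] at this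
      exact this
    have h3 : ‖τ‖ ≤ ‖τ‖ / τ.im * ‖τ + N‖ := by
      rw [div_mul_eq_mul_div, le_div_iff₀ hτ]
      exact mul_le_mul_of_nonneg_left him (norm_nonneg _)
    nlinarith [norm_nonneg τ, norm_nonneg (τ + N), mul_nonneg (norm_nonneg τ) (norm_nonneg (τ + N))]

theorem key (ht : S_trans) {τ : ℂ} (hτ : 0 < τ.im) (N : ℕ) (i : ℕ × ℕ) :
    yy (-1 / (τ + N)) i / (τ + N) ^ wG i - flow (τ + N)⁻¹ (yy τ) i =
      Er (τ + N) i - cst i / (τ + N) ^ wG i := by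
  have hz : 0 < (τ + N).im := by rw [add_im]; exact hτ
  have h0 : τ + N ≠ 0 := by
    intro h
    rw [h] at hz
    simp at hz
  have h1 : (τ + N) ^ wG i ≠ 0 := pow_ne_zero _ h0
  have h2 : flow (τ + N)⁻¹ (yy τ) i = ∑ k ∈ Finset.range (i.2 + 1),
      ((τ + N) ^ k)⁻¹ / (k.factorial : ℂ) * yy (τ + N) (i.1, i.2 - k) := by
    unfold flow
    refine Finset.sum_congr rfl fun k _ => ?_
    rw [yy_add, inv_pow]
  rw [yy_eq, ht i _ hz, h2]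
  field_simp
  ring

theorem errBound (hu : S_ErUp) (ht : S_trans) {τ : ℂ} (hτ : 0 < τ.im) (i : ℕ × ℕ) :
    ∃ C : ℝ, ∀ N : ℕ, 1 ≤ N →
      ‖yy (-1 / (τ + N)) i / (τ + N) ^ wG i - flow (τ + N)⁻¹ (yy τ) i‖ ≤
        C / (N : ℝ) ^ (2 * i.1 + 2 + i.2) := by
  obtain ⟨C, hC⟩ := hu i τ hτ
  obtain ⟨A, hA, hAN⟩ := norm_bounds hτ
  refine ⟨C + ‖cst i‖ * A ^ wG i, fun N hN => ?_⟩
  have hN1 : (1 : ℝ) ≤ N := by exact_mod_cast hN
  have hN0 : (0 : ℝ) < N := by linarith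
  rw [key ht hτ]
  refine (norm_sub_le _ _).trans ?_
  rw [add_div]
  refine add_le_add (hC N hN) ?_
  obtain ⟨_, hlow⟩ := hAN N hN
  have hz0 : 0 < ‖τ + N‖ := by
    by_contra h
    have : ‖τ + N‖ ≤ 0 := not_lt.1 h
    nlinarith
  rw [norm_div, norm_pow, div_le_div_iff₀ (by positivity) (by positivity), mul_assoc]
  refine mul_le_mul_of_nonneg_left ?_ (norm_nonneg _)
  calc (N : ℝ) ^ (2 * i.1 + 2 + i.2) ≤ (N : ℝ) ^ wG i :=
        pow_le_pow_right₀ hN1 (by unfold wG; omega)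
    _ ≤ (A * ‖τ + N‖) ^ wG i := pow_le_pow_left₀ hN0.le hlow _
    _ = A ^ wG i * ‖τ + N‖ ^ wG i := mul_pow _ _ _

theorem lowBound (hlo : S_ErLow) (ht : S_trans) {τ : ℂ} (hτ : 0 < τ.im) (a : ℕ) :
    ∃ c₀ : ℝ, 0 < c₀ ∧ ∃ N₀ : ℕ, ∀ N : ℕ, N₀ ≤ N →
      c₀ / (N : ℝ) ^ (2 * a + 2) ≤
        ‖yy (-1 / (τ + N)) (a, 0) / (τ + N) ^ (2 * a + 3) - yy τ (a, 0)‖ := by
  obtain ⟨c, hc, N₁, hN₁⟩ := hlo a τ hτ
  obtain ⟨A, hA, hAN⟩ := norm_bounds hτ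
  obtain ⟨N₂, hN₂⟩ := exists_nat_ge (2 * (‖cst (a, 0)‖ * A ^ (2 * a + 3)) / c)
  refine ⟨c / 2, by positivity, max (max N₁ N₂) 1, fun N hN => ?_⟩
  have hN1' : 1 ≤ N := (le_max_right _ _).trans hN
  have hN1 : (1 : ℝ) ≤ N := by exact_mod_cast hN1'
  have hN0 : (0 : ℝ) < N := by linarith
  have hk := key ht hτ N (a, 0)
  have hf : flow (τ + N)⁻¹ (yy τ) (a, 0) = yy τ (a, 0) := by
    unfold flow
    simp
  have hw : wG (a, 0) = 2 * a + 3 := by simp [wG]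
  rw [hf, hw] at hk
  rw [hk]
  have hE : c / (N : ℝ) ^ (2 * a + 2) ≤ ‖Er (τ + N) (a, 0)‖ :=
    hN₁ N ((le_max_left _ _).trans ((le_max_left _ _).trans hN))
  obtain ⟨_, hlow⟩ := hAN N hN1'
  have hz0 : 0 < ‖τ + N‖ := by
    by_contra h
    have : ‖τ + N‖ ≤ 0 := not_lt.1 h
    nlinarith
  have hK : ‖cst (a, 0) / (τ + N) ^ (2 * a + 3)‖ ≤ (c / 2) / (N : ℝ) ^ (2 * a + 2) := by
    rw [norm_div, norm_pow, div_le_div_iff₀ (by positivity) (by positivity)]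
    have h1 : (N : ℝ) ^ (2 * a + 3) ≤ A ^ (2 * a + 3) * ‖τ + N‖ ^ (2 * a + 3) := by
      rw [← mul_pow]
      exact pow_le_pow_left₀ hN0.le hlow _
    have h2 : 2 * (‖cst (a, 0)‖ * A ^ (2 * a + 3)) ≤ c * N := by
      have h3 : (N₂ : ℝ) ≤ N := by
        exact_mod_cast (le_max_right N₁ N₂).trans ((le_max_left _ _).trans hN)
      have h4 := hN₂.trans h3
      rw [div_le_iff₀ hc] at h4
      linarith
    have h5 : (N : ℝ) ^ (2 * a + 3) = (N : ℝ) ^ (2 * a + 2) * N := pow_succ _ _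
    have h6 : ‖cst (a, 0)‖ * (N : ℝ) ^ (2 * a + 3) ≤
        (c / 2 * N) * ‖τ + N‖ ^ (2 * a + 3) := by
      calc ‖cst (a, 0)‖ * (N : ℝ) ^ (2 * a + 3) ≤
          ‖cst (a, 0)‖ * (A ^ (2 * a + 3) * ‖τ + N‖ ^ (2 * a + 3)) :=
            mul_le_mul_of_nonneg_left h1 (norm_nonneg _)
        _ = (‖cst (a, 0)‖ * A ^ (2 * a + 3)) * ‖τ + N‖ ^ (2 * a + 3) := by ring
        _ ≤ (c / 2 * N) * ‖τ + N‖ ^ (2 * a + 3) := by
            refine mul_le_mul_of_nonneg_right (by linarith) (by positivity)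
    have h7 : N * (‖cst (a, 0)‖ * (N : ℝ) ^ (2 * a + 2)) ≤
        N * (c / 2 * ‖τ + N‖ ^ (2 * a + 3)) := by
      calc N * (‖cst (a, 0)‖ * (N : ℝ) ^ (2 * a + 2)) =
          ‖cst (a, 0)‖ * (N : ℝ) ^ (2 * a + 3) := by rw [h5]; ring
        _ ≤ (c / 2 * N) * ‖τ + N‖ ^ (2 * a + 3) := h6
        _ = N * (c / 2 * ‖τ + N‖ ^ (2 * a + 3)) := by ring
    exact le_of_mul_le_mul_left h7 hN0
  have h8 : c / (N : ℝ) ^ (2 * a + 2) = (c / 2) / (N : ℝ) ^ (2 * a + 2) +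
      (c / 2) / (N : ℝ) ^ (2 * a + 2) := by ring
  have h9 := norm_sub_norm_le (Er (τ + N) (a, 0)) (cst (a, 0) / (τ + N) ^ (2 * a + 3))
  linarith

/-- rescaling of the variables. -/
def resc (γ : ℕ × ℕ → ℂ) (P : MvPolynomial (ℕ × ℕ) ℚ) : MvPolynomial (ℕ × ℕ) ℂ :=
  ∑ m ∈ P.support, MvPolynomial.monomial m
    (((MvPolynomial.coeff m P : ℚ) : ℂ) * ∏ i ∈ m.support, γ i ^ m i)

theorem eval_resc (γ : ℕ × ℕ → ℂ) (P : MvPolynomial (ℕ × ℕ) ℚ) (v : ℕ × ℕ → ℂ) :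
    MvPolynomial.eval v (resc γ P) = MvPolynomial.aeval (fun i => γ i * v i) P := by
  unfold resc
  rw [map_sum, MvPolynomial.aeval_def, MvPolynomial.eval₂_eq]
  refine Finset.sum_congr rfl fun m _ => ?_
  rw [MvPolynomial.eval_monomial, Finsupp.prod]
  simp_rw [mul_pow]
  rw [Finset.prod_mul_distrib, ← mul_assoc]
  rfl

theorem mem_support_resc {γ : ℕ × ℕ → ℂ} (hγ : ∀ i, γ i ≠ 0) {P : MvPolynomial (ℕ × ℕ) ℚ}
    {m : (ℕ × ℕ) →₀ ℕ} (hm : m ∈ P.support) : m ∈ (resc γ P).support := by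
  classical
  rw [MvPolynomial.mem_support_iff]
  unfold resc
  rw [MvPolynomial.coeff_sum]
  simp only [MvPolynomial.coeff_monomial]
  rw [Finset.sum_ite_eq' P.support m, if_pos hm]
  refine mul_ne_zero ?_ (Finset.prod_ne_zero_iff.2 fun i _ => pow_ne_zero _ (hγ i))
  rw [MvPolynomial.mem_support_iff] at hm
  exact_mod_cast hm

end

end T3

open T3 in
theorem T3 (ha : S_T3alg) (hl : S_Lip) (ht : S_trans) (hu : S_ErUp) (hlo : S_ErLow) : S_T3 := by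
  intro P w hP m hm
  choose γ hγ0 hγ using hl
  have : Nonempty UH := ⟨⟨Complex.I, by simp⟩⟩
  have hσ : ∀ (τ : UH) (N : ℕ), 0 < (-1 / (τ.1 + N)).im := fun τ N =>
    neg_inv_im (by rw [add_im]; exact τ.2)
  refine ha UH (fun τ i => yy τ.1 i) (fun τ N => τ.1 + N) (fun τ N => ⟨-1 / (τ.1 + N), hσ τ N⟩)
    cst (fun τ => norm_bounds τ.2) (fun τ i => errBound hu ht τ.2 i)
    (fun τ a => lowBound hlo ht τ.2 a) (resc γ P) w ?_ m (mem_support_resc hγ0 hm)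
  intro τ
  obtain ⟨C, hC⟩ := hP τ.1 τ.2
  refine ⟨C, fun N hN => ?_⟩
  rw [eval_resc]
  convert hC N hN using 4
  funext i
  rw [yy_eq, sub_add_cancel, ← hγ i _ (hσ τ N)]
  rfl

end Pool.Agent.H946.Z
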