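import Pool.Agent.H946.Z.Basic

set_option autoImplicit false

/-!
# The growth argument: polynomials of small growth have small weight
-/

namespace Pool.Agent.H946.Z

namespace T3a

open MvPolynomial Filter Topology

noncomputable section

abbrev Pol : Type := MvPolynomial (ℕ × ℕ) ℂ

/-- `L X_i` -/
def fL (i : ℕ × ℕ) : Pol := if i.2 = 0 then 0 else X (i.1, i.2 - 1)

theorem Lder_X (i : ℕ × ℕ) : Lder (X i) = fL i := by
  rw [Lder, mkDerivation_X]
  rfl

theorem sum_der (s : Finset (ℕ × ℕ)) (Q : Pol) :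
    (∑ i ∈ s, fL i • (pderiv i : Derivation ℂ Pol Pol)) Q = ∑ i ∈ s, fL i * pderiv i Q := by
  classical
  induction s using Finset.induction_on with
  | empty => simp
  | insert a s ha ih =>
    rw [Finset.sum_insert ha, Finset.sum_insert ha, Derivation.add_apply, ih]
    rfl

theorem Lder_eq (P : Pol) : Lder P = ∑ i ∈ P.vars, fL i * pderiv i P := by
  classical
  rw [← sum_der]
  refine derivation_eq_of_forall_mem_vars fun j hj => ?_
  rw [sum_der, Lder_X, Finset.sum_eq_single j]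
  · rw [pderiv_X_self, mul_one]
  · intro i _ hi
    rw [pderiv_X_of_ne hi.symm, mul_zero]
  · intro h
    exact absurd hj h

theorem comm (a l : ℕ) (P : Pol) :
    pderiv (a, l) (Lder P) = Lder (pderiv (a, l) P) + pderiv (a, l + 1) P := by
  classical
  have h1 : ⁅(pderiv (a, l) : Derivation ℂ Pol Pol), Lder⁆ = pderiv (a, l + 1) := by
    refine derivation_ext fun j => ?_
    rw [Derivation.commutator_apply, Lder_X, pderiv_X, pderiv_X]
    have h2 : Lder ((Pi.single (a, l) (1 : Pol) : ℕ × ℕ → Pol) j) = 0 := by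
      by_cases hj : j = (a, l)
      · subst hj
        rw [Pi.single_eq_same]
        exact Derivation.map_one_eq_zero _
      · rw [Pi.single_eq_of_ne hj]
        exact map_zero _
    rw [h2, sub_zero]
    obtain ⟨b, k⟩ := j
    by_cases hk : k = 0
    · subst hk
      rw [Pi.single_eq_of_ne (by simp [Prod.ext_iff])]
      simp [fL]
    · obtain ⟨k, rfl⟩ := Nat.exists_eq_succ_of_ne_zero hk
      simp only [fL, if_neg hk, Nat.succ_eq_add_one, Nat.add_sub_cancel, pderiv_X]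
      by_cases h3 : (b, k) = (a, l)
      · obtain ⟨rfl, rfl⟩ := Prod.mk.inj h3
        rw [Pi.single_eq_same, Pi.single_eq_same]
      · have h4 : (b, k + 1) ≠ (a, l + 1) := by
          intro h5
          obtain ⟨rfl, h6⟩ := Prod.mk.inj h5
          exact h3 (by rw [Nat.add_right_cancel h6])
        rw [Pi.single_eq_of_ne h3, Pi.single_eq_of_ne h4]
  rw [← h1, Derivation.commutator_apply]
  ring

theorem notMem_of_pderiv {P : Pol} {i : ℕ × ℕ} (h : pderiv i P = 0) : i ∉ P.vars := by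
  classical
  intro hi
  obtain ⟨m, hm, him⟩ := (mem_vars_iff_mem_support i).mp hi
  rw [Finsupp.mem_support_iff] at him
  have h1 := coeff_pderiv (i := i) P (m - Finsupp.single i 1)
  rw [h, coeff_zero] at h1
  have h2 : m - Finsupp.single i 1 + Finsupp.single i 1 = m := by
    refine tsub_add_cancel_of_le ?_
    rw [Finsupp.single_le_iff]
    omega
  rw [h2] at h1
  have h3 : (((m - Finsupp.single i 1 : (ℕ × ℕ) →₀ ℕ) i : ℕ) : ℂ) + 1 ≠ 0 := Nat.cast_add_one_ne_zero _
  exact (mem_support_iff.mp hm) ((mul_eq_zero.mp h1.symm).resolve_right h3)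

theorem wle {P : Pol} {w : ℕ} (hP : IsWeightedHomogeneous wG P w) {i : ℕ × ℕ}
    (hi : i ∈ P.vars) : wG i ≤ w := by
  obtain ⟨m, hm, him⟩ := (mem_vars_iff_mem_support i).mp hi
  rw [Finsupp.mem_support_iff] at him
  rw [← hP (mem_support_iff.mp hm)]
  exact Finsupp.le_weight_of_ne_zero' wG him

theorem Lder_hom {P : Pol} {w : ℕ} (hP : IsWeightedHomogeneous wG P w) :
    IsWeightedHomogeneous wG (Lder P) (w - 2) := by
  rw [Lder_eq]
  refine IsWeightedHomogeneous.sum _ _ _ fun i hi => ?_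
  have h1 := wle hP hi
  have h2 : IsWeightedHomogeneous wG (pderiv i P) (w - wG i) := hP.pderiv (by omega)
  unfold fL
  by_cases h : i.2 = 0
  · rw [if_pos h, zero_mul]
    exact isWeightedHomogeneous_zero _ _ _
  · rw [if_neg h]
    have h3 := (isWeightedHomogeneous_X ℂ wG (i.1, i.2 - 1)).mul h2
    have h4 : wG (i.1, i.2 - 1) + (w - wG i) = w - 2 := by
      simp only [wG] at h1 ⊢
      omega
    rw [h4] at h3
    exact h3

/-! ### The flow -/

theorem flow_coeff (t : ℂ) (v : ℕ × ℕ → ℂ) (a l : ℕ) :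
    flow t v (a, l) = PowerSeries.coeff l (PowerSeries.rescale t (PowerSeries.exp ℂ) *
      PowerSeries.mk fun l => v (a, l)) := by
  rw [PowerSeries.coeff_mul, Finset.Nat.sum_antidiagonal_eq_sum_range_succ
    (f := fun i j => PowerSeries.coeff i (PowerSeries.rescale t (PowerSeries.exp ℂ)) *
      PowerSeries.coeff j (PowerSeries.mk fun l => v (a, l)))]
  unfold flow
  refine Finset.sum_congr rfl fun k _ => ?_
  rw [PowerSeries.coeff_rescale, PowerSeries.coeff_exp, PowerSeries.coeff_mk]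
  simp [div_eq_mul_inv]

theorem flow_flow (t : ℂ) (v : ℕ × ℕ → ℂ) : flow (-t) (flow t v) = v := by
  funext i
  obtain ⟨a, l⟩ := i
  rw [flow_coeff]
  have h1 : (PowerSeries.mk fun l => flow t v (a, l)) =
      PowerSeries.rescale t (PowerSeries.exp ℂ) * PowerSeries.mk fun l => v (a, l) := by
    ext l
    rw [PowerSeries.coeff_mk, flow_coeff]
  rw [h1, ← mul_assoc, PowerSeries.exp_mul_exp_eq_exp_add, neg_add_cancel]
  have h2 : PowerSeries.rescale (0 : ℂ) (PowerSeries.exp ℂ) = 1 := by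
    rw [PowerSeries.rescale_zero_apply]
    simp
  rw [h2, one_mul, PowerSeries.coeff_mk]

theorem flow_add (t : ℂ) (u v : ℕ × ℕ → ℂ) (i : ℕ × ℕ) :
    flow t (fun i => u i + v i) i = flow t u i + flow t v i := by
  simp only [flow, mul_add, Finset.sum_add_distrib]

theorem flow_zero (t : ℂ) (v : ℕ × ℕ → ℂ) (a : ℕ) : flow t v (a, 0) = v (a, 0) := by
  simp [flow]

theorem flow_at (v : ℕ × ℕ → ℂ) (i : ℕ × ℕ) : flow 0 v i = v i := by
  obtain ⟨a, l⟩ := i
  unfold flow
  rw [Finset.sum_eq_single 0]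
  · simp
  · intro k _ hk
    rw [zero_pow hk, zero_div, zero_mul]
  · intro h
    exact absurd (Finset.mem_range.mpr (Nat.succ_pos _)) h

/-- derivative of the flow at `0` -/
theorem flow_der (v : ℕ × ℕ → ℂ) (i : ℕ × ℕ) :
    HasDerivAt (fun t => flow t v i) (if i.2 = 0 then 0 else v (i.1, i.2 - 1)) 0 := by
  obtain ⟨a, l⟩ := i
  unfold flow
  have h1 : ∀ k ∈ Finset.range (l + 1), HasDerivAt
      (fun t : ℂ => t ^ k / (k.factorial : ℂ) * v (a, l - k))
      (if k = 1 then v (a, l - 1) else 0) 0 := by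
    intro k _
    have h2 := ((hasDerivAt_pow k (0 : ℂ)).div_const (k.factorial : ℂ)).mul_const (v (a, l - k))
    refine h2.congr_deriv ?_
    split_ifs with h3
    · subst h3
      simp
    · rcases k with _ | _ | k
      · simp
      · exact absurd rfl h3
      · simp
  have h2 := HasDerivAt.fun_sum h1
  refine h2.congr_deriv ?_
  rw [Finset.sum_ite_eq' (Finset.range (l + 1)) 1]
  rcases l with _ | l
  · simp
  · simp

/-! ### The Taylor formula in the limit -/

theorem eval_congr {P : Pol} {u v : ℕ × ℕ → ℂ} (h : ∀ i ∈ P.vars, u i = v i) :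
    eval u P = eval v P :=
  eval₂Hom_congr' rfl (fun i hi _ => h i hi) rfl

theorem taylor_lim (ht : S_Taylor) (P : Pol) (v : ℕ × ℕ → ℂ) (hv : eval v P = 0) (r : ℕ → ℂ)
    (δ : ℕ → ℕ × ℕ → ℂ) (D : ℕ × ℕ → ℂ) (hr : Tendsto r atTop (𝓝 0))
    (hr0 : ∀ᶠ N in atTop, r N ≠ 0)
    (hδ : ∀ i ∈ P.vars, Tendsto (fun N => δ N i / r N) atTop (𝓝 (D i)))
    (h0 : ∀ᶠ N in atTop, eval (fun i => v i + δ N i) P = 0) :
    ∑ i ∈ P.vars, D i * eval v (pderiv i P) = 0 := by
  classical
  obtain ⟨C, hC⟩ := ht P v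
  set ρ : ℕ → ℝ := fun N => ∑ i ∈ P.vars, ‖δ N i‖ with hρdef
  have h1 : Tendsto (fun N => ρ N / ‖r N‖) atTop (𝓝 (∑ i ∈ P.vars, ‖D i‖)) := by
    have h2 : ∀ N, ρ N / ‖r N‖ = ∑ i ∈ P.vars, ‖δ N i / r N‖ := by
      intro N
      rw [hρdef]
      simp only [norm_div]
      rw [Finset.sum_div]
    simp only [h2]
    exact tendsto_finsetSum _ fun i hi => (hδ i hi).norm
  have h2 : Tendsto ρ atTop (𝓝 0) := by
    have h3 : Tendsto (fun N => ρ N / ‖r N‖ * ‖r N‖) atTop (𝓝 ((∑ i ∈ P.vars, ‖D i‖) * 0)) := by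
      refine h1.mul ?_
      have h4 := hr.norm
      rwa [norm_zero] at h4
    rw [mul_zero] at h3
    refine h3.congr' ?_
    filter_upwards [hr0] with N hN
    exact div_mul_cancel₀ _ (norm_ne_zero_iff.mpr hN)
  have h3 : Tendsto (fun N => ‖∑ i ∈ P.vars, δ N i / r N * eval v (pderiv i P)‖) atTop
      (𝓝 ‖∑ i ∈ P.vars, D i * eval v (pderiv i P)‖) :=
    (tendsto_finsetSum _ fun i hi => (hδ i hi).mul_const _).norm
  have h4 : Tendsto (fun N => C * (ρ N / ‖r N‖) * ρ N) atTop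
      (𝓝 (C * (∑ i ∈ P.vars, ‖D i‖) * 0)) := (h1.const_mul C).mul h2
  rw [mul_zero] at h4
  have h5 : ∀ᶠ N in atTop, ‖∑ i ∈ P.vars, δ N i / r N * eval v (pderiv i P)‖ ≤
      C * (ρ N / ‖r N‖) * ρ N := by
    filter_upwards [hr0, h0, h2.eventually_le_const one_pos] with N h6 h7 h8
    have h9 := hC (fun i => if i ∈ P.vars then δ N i else 0) (ρ N) h8 (by
      intro i
      split_ifs with hi
      · exact Finset.single_le_sum (f := fun i => ‖δ N i‖) (fun _ _ => norm_nonneg _) hi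
      · rw [norm_zero]
        exact Finset.sum_nonneg fun _ _ => norm_nonneg _)
    have h10 : eval (fun i => v i + if i ∈ P.vars then δ N i else 0) P = 0 := by
      rw [← h7]
      exact eval_congr fun i hi => by rw [if_pos hi]
    have h11 : ∑ i ∈ P.vars, (if i ∈ P.vars then δ N i else 0) * eval v (pderiv i P) =
        ∑ i ∈ P.vars, δ N i * eval v (pderiv i P) :=
      Finset.sum_congr rfl fun i hi => by rw [if_pos hi]
    rw [h10, hv, h11, sub_zero, zero_sub, norm_neg] at h9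
    have h12 : ∑ i ∈ P.vars, δ N i / r N * eval v (pderiv i P) =
        (∑ i ∈ P.vars, δ N i * eval v (pderiv i P)) / r N := by
      rw [Finset.sum_div]
      exact Finset.sum_congr rfl fun i _ => by ring
    rw [h12, norm_div]
    have h13 : 0 < ‖r N‖ := norm_pos_iff.mpr h6
    calc ‖∑ i ∈ P.vars, δ N i * eval v (pderiv i P)‖ / ‖r N‖ ≤ C * ρ N ^ 2 / ‖r N‖ :=
          div_le_div_of_nonneg_right h9 h13.le
      _ = C * (ρ N / ‖r N‖) * ρ N := by ring
  have h6 := le_of_tendsto_of_tendsto h3 h4 h5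
  exact norm_le_zero_iff.mp h6

/-! ### Scaling -/

theorem prod_scale (d : ℕ × ℕ →₀ ℕ) (z : ℂ) (x : ℕ × ℕ → ℂ) :
    ∏ i ∈ d.support, (z ^ wG i * x i) ^ d i =
      z ^ (Finsupp.weight wG d) * ∏ i ∈ d.support, x i ^ d i := by
  rw [Finsupp.weight_apply, Finsupp.sum, ← Finset.prod_pow_eq_pow_sum, ← Finset.prod_mul_distrib]
  refine Finset.prod_congr rfl fun i _ => ?_
  rw [mul_pow, ← pow_mul, smul_eq_mul, mul_comm (wG i)]

theorem eval_scale {P : Pol} {w : ℕ} (hP : IsWeightedHomogeneous wG P w) (z : ℂ)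
    (x : ℕ × ℕ → ℂ) : eval (fun i => z ^ wG i * x i) P = z ^ w * eval x P := by
  rw [eval_eq, eval_eq, Finset.mul_sum]
  refine Finset.sum_congr rfl fun d hd => ?_
  rw [prod_scale, hP (mem_support_iff.mp hd)]
  ring

theorem eq_zero_of_vars {P : Pol} (hP : P.vars = ∅) {v : ℕ × ℕ → ℂ} (hv : eval v P = 0) :
    P = 0 := by
  classical
  have h1 : P = C (coeff 0 P) := by
    ext d
    rw [coeff_C]
    split_ifs with h
    · rw [h]
    · by_contra h2
      have h3 : ∃ i, d i ≠ 0 := by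
        by_contra h4
        push Not at h4
        exact h (by ext i; rw [h4 i]; rfl)
      obtain ⟨i, hi⟩ := h3
      have h4 : i ∈ P.vars := (mem_vars_iff_mem_support i).mpr
        ⟨d, mem_support_iff.mpr h2, Finsupp.mem_support_iff.mpr hi⟩
      rw [hP] at h4
      exact absurd h4 (Finset.notMem_empty i)
  rw [h1, eval_C] at hv
  rw [h1, hv, map_zero]

/-! ### The growth hypotheses -/

structure Hyp {H : Type} (y : H → ℕ × ℕ → ℂ) (z : H → ℕ → ℂ) (σ : H → ℕ → H) : Prop where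
  h1 : ∀ τ, ∃ A : ℝ, 0 < A ∧ ∀ N : ℕ, 1 ≤ N → ‖z τ N‖ ≤ A * N ∧ (N : ℝ) ≤ A * ‖z τ N‖
  h2 : ∀ τ i, ∃ C : ℝ, ∀ N : ℕ, 1 ≤ N →
      ‖y (σ τ N) i / z τ N ^ wG i - flow (z τ N)⁻¹ (y τ) i‖ ≤
        C / (N : ℝ) ^ (2 * i.1 + 2 + i.2)
  h3 : ∀ τ (a : ℕ), ∃ c₀ : ℝ, 0 < c₀ ∧ ∃ N₀ : ℕ, ∀ N : ℕ, N₀ ≤ N →
      c₀ / (N : ℝ) ^ (2 * a + 2) ≤ ‖y (σ τ N) (a, 0) / z τ N ^ (2 * a + 3) - y τ (a, 0)‖

section

variable {H : Type} {y : H → ℕ × ℕ → ℂ} {z : H → ℕ → ℂ} {σ : H → ℕ → H}

/-- the error -/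
def eps (y : H → ℕ × ℕ → ℂ) (z : H → ℕ → ℂ) (σ : H → ℕ → H) (τ : H) (N : ℕ) (i : ℕ × ℕ) : ℂ :=
  y (σ τ N) i / z τ N ^ wG i - flow (z τ N)⁻¹ (y τ) i

theorem Hyp.ne (h : Hyp y z σ) (τ : H) {N : ℕ} (hN : 1 ≤ N) : z τ N ≠ 0 := by
  obtain ⟨A, hA, h1⟩ := h.h1 τ
  intro h0
  have h2 := (h1 N hN).2
  rw [h0, norm_zero, mul_zero] at h2
  have h3 : (1 : ℝ) ≤ N := by exact_mod_cast hN
  linarith

theorem div_lim (C : ℝ) : Tendsto (fun N : ℕ => C / (N : ℝ)) atTop (𝓝 0) :=
  tendsto_const_div_atTop_nhds_zero_nat C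

theorem Hyp.inv (h : Hyp y z σ) (τ : H) : Tendsto (fun N => (z τ N)⁻¹) atTop (𝓝 0) := by
  obtain ⟨A, hA, h1⟩ := h.h1 τ
  refine squeeze_zero_norm' ?_ (div_lim A)
  filter_upwards [eventually_ge_atTop 1] with N hN
  have h2 := (h1 N hN).2
  have h3 : (0 : ℝ) < N := by exact_mod_cast hN
  have h4 : 0 < ‖z τ N‖ := norm_pos_iff.mpr (h.ne τ hN)
  rw [norm_inv, inv_eq_one_div, div_le_div_iff₀ h4 h3, one_mul]
  exact h2

theorem Hyp.ev_ne (h : Hyp y z σ) (τ : H) : ∀ᶠ N in atTop, z τ N ≠ 0 := by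
  filter_upwards [eventually_ge_atTop 1] with N hN
  exact h.ne τ hN

/-- the normalized values converge -/
theorem Hyp.lim (h : Hyp y z σ) (τ : H) (i : ℕ × ℕ) :
    Tendsto (fun N => y (σ τ N) i / z τ N ^ wG i) atTop (𝓝 (y τ i)) := by
  obtain ⟨C, hC⟩ := h.h2 τ i
  have h1 : Tendsto (fun N => flow (z τ N)⁻¹ (y τ) i) atTop (𝓝 (y τ i)) := by
    have h2 := (flow_der (y τ) i).continuousAt.tendsto.comp (h.inv τ)
    rwa [flow_at] at h2
  have h2 : Tendsto (fun N => eps y z σ τ N i) atTop (𝓝 0) := by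
    refine squeeze_zero_norm' ?_ (div_lim |C|)
    filter_upwards [eventually_ge_atTop 1] with N hN
    refine (hC N hN).trans ?_
    have h3 : (1 : ℝ) ≤ N := by exact_mod_cast hN
    calc C / (N : ℝ) ^ (2 * i.1 + 2 + i.2) ≤ |C| / (N : ℝ) ^ (2 * i.1 + 2 + i.2) :=
          div_le_div_of_nonneg_right (le_abs_self C) (by positivity)
      _ ≤ |C| / (N : ℝ) := by
          refine div_le_div_of_nonneg_left (abs_nonneg C) (by linarith) ?_
          calc (N : ℝ) = (N : ℝ) ^ 1 := (pow_one _).symm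
            _ ≤ (N : ℝ) ^ (2 * i.1 + 2 + i.2) := pow_le_pow_right₀ h3 (by omega)
  have h3 := h1.add h2
  rw [add_zero] at h3
  refine h3.congr fun N => ?_
  rw [eps]
  ring

/-- first order behaviour -/
theorem Hyp.lim1 (h : Hyp y z σ) (τ : H) (i : ℕ × ℕ) :
    Tendsto (fun N => (y (σ τ N) i / z τ N ^ wG i - y τ i) / (z τ N)⁻¹) atTop
      (𝓝 (if i.2 = 0 then 0 else y τ (i.1, i.2 - 1))) := by
  obtain ⟨A, hA, hA1⟩ := h.h1 τ
  obtain ⟨C, hC⟩ := h.h2 τ i
  have h1 : Tendsto (fun N => slope (fun t => flow t (y τ) i) 0 (z τ N)⁻¹) atTop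
      (𝓝 (if i.2 = 0 then 0 else y τ (i.1, i.2 - 1))) := by
    refine (flow_der (y τ) i).tendsto_slope.comp ?_
    rw [tendsto_nhdsWithin_iff]
    refine ⟨h.inv τ, ?_⟩
    filter_upwards [h.ev_ne τ] with N hN
    exact inv_ne_zero hN
  have h2 : Tendsto (fun N => eps y z σ τ N i / (z τ N)⁻¹) atTop (𝓝 0) := by
    refine squeeze_zero_norm' ?_ (div_lim (A * |C|))
    filter_upwards [eventually_ge_atTop 1] with N hN
    have h3 : (1 : ℝ) ≤ N := by exact_mod_cast hN
    rw [norm_div, norm_inv, div_inv_eq_mul]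
    have h4 : ‖eps y z σ τ N i‖ ≤ |C| / (N : ℝ) ^ 2 := by
      refine (hC N hN).trans ?_
      calc C / (N : ℝ) ^ (2 * i.1 + 2 + i.2) ≤ |C| / (N : ℝ) ^ (2 * i.1 + 2 + i.2) :=
            div_le_div_of_nonneg_right (le_abs_self C) (by positivity)
        _ ≤ |C| / (N : ℝ) ^ 2 := by
            refine div_le_div_of_nonneg_left (abs_nonneg C) (by positivity) ?_
            exact pow_le_pow_right₀ h3 (by omega)
    calc ‖eps y z σ τ N i‖ * ‖z τ N‖ ≤ |C| / (N : ℝ) ^ 2 * (A * N) :=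
          mul_le_mul h4 (hA1 N hN).1 (norm_nonneg _) (by positivity)
      _ = A * |C| / N := by
          have h5 : (N : ℝ) ≠ 0 := by linarith
          field_simp
  have h3 := h1.add h2
  rw [add_zero] at h3
  refine h3.congr' ?_
  filter_upwards [h.ev_ne τ] with N hN
  rw [slope_def_field, sub_zero, flow_at, eps]
  ring

/-- the transformed error -/
theorem Hyp.eps' (h : Hyp y z σ) (τ : H) (i : ℕ × ℕ) : ∃ C : ℝ, 0 ≤ C ∧ ∀ N : ℕ, 1 ≤ N →
    ‖flow (-(z τ N)⁻¹) (eps y z σ τ N) i‖ ≤ C / (N : ℝ) ^ (2 * i.1 + 2 + i.2) := by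
  obtain ⟨A, hA, hA1⟩ := h.h1 τ
  choose C hC using fun i => h.h2 τ i
  refine ⟨∑ k ∈ Finset.range (i.2 + 1), A ^ k * |C (i.1, i.2 - k)|,
    Finset.sum_nonneg fun k _ => by positivity, fun N hN => ?_⟩
  have h3 : (1 : ℝ) ≤ N := by exact_mod_cast hN
  have h4 : 0 < ‖z τ N‖ := norm_pos_iff.mpr (h.ne τ hN)
  unfold flow
  refine (norm_sum_le _ _).trans ?_
  rw [Finset.sum_div]
  refine Finset.sum_le_sum fun k hk => ?_
  have hk' : k ≤ i.2 := Nat.lt_succ_iff.mp (Finset.mem_range.mp hk)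
  rw [norm_mul, norm_div, norm_pow, norm_neg, norm_inv]
  have h5 : ‖z τ N‖⁻¹ ≤ A / N := by
    rw [inv_eq_one_div, div_le_div_iff₀ h4 (by linarith), one_mul]
    exact (hA1 N hN).2
  have h6 : ‖z τ N‖⁻¹ ^ k / ‖(k.factorial : ℂ)‖ ≤ (A / N) ^ k := by
    have h7 : (1 : ℝ) ≤ ‖(k.factorial : ℂ)‖ := by
      rw [Complex.norm_natCast]
      exact_mod_cast Nat.succ_le_of_lt (Nat.factorial_pos k)
    calc ‖z τ N‖⁻¹ ^ k / ‖(k.factorial : ℂ)‖ ≤ ‖z τ N‖⁻¹ ^ k / 1 :=
          div_le_div_of_nonneg_left (by positivity) one_pos h7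
      _ = ‖z τ N‖⁻¹ ^ k := div_one _
      _ ≤ (A / N) ^ k := pow_le_pow_left₀ (by positivity) h5 k
  have h7 : ‖eps y z σ τ N (i.1, i.2 - k)‖ ≤
      |C (i.1, i.2 - k)| / (N : ℝ) ^ (2 * i.1 + 2 + (i.2 - k)) := by
    refine (hC (i.1, i.2 - k) N hN).trans ?_
    exact div_le_div_of_nonneg_right (le_abs_self _) (by positivity)
  calc ‖z τ N‖⁻¹ ^ k / ‖(k.factorial : ℂ)‖ * ‖eps y z σ τ N (i.1, i.2 - k)‖ ≤
      (A / N) ^ k * (|C (i.1, i.2 - k)| / (N : ℝ) ^ (2 * i.1 + 2 + (i.2 - k))) :=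
        mul_le_mul h6 h7 (norm_nonneg _) (by positivity)
    _ = A ^ k * |C (i.1, i.2 - k)| / (N : ℝ) ^ (2 * i.1 + 2 + i.2) := by
        rw [div_pow, div_mul_div_comm, ← pow_add]
        congr 2
        omega

/-- polynomials vanishing at all `y τ` vanish -/
theorem Hyp.zero (h : Hyp y z σ) [Nonempty H] (hf : S_flow) (ht : S_Taylor) : ∀ (w : ℕ) (P : Pol),
    IsWeightedHomogeneous wG P w → (∀ τ, eval (y τ) P = 0) → P = 0 := by
  classical
  intro w
  induction w using Nat.strong_induction_on with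
  | _ w ih =>
  intro P hP h0
  obtain ⟨τ₀⟩ := (inferInstance : Nonempty H)
  by_cases hne : P.vars = ∅
  · exact eq_zero_of_vars hne (h0 τ₀)
  exfalso
  obtain ⟨i0, hi0⟩ := Finset.nonempty_iff_ne_empty.mpr hne
  have hw3 : 3 ≤ w := by
    have h1 := wle hP hi0
    simp only [wG] at h1
    omega
  -- vanishing at the normalized values
  have hv : ∀ τ, ∀ᶠ N in atTop, eval (fun i => y (σ τ N) i / z τ N ^ wG i) P = 0 := by
    intro τ
    filter_upwards [h.ev_ne τ] with N hN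
    have h1 := eval_scale hP (z τ N) (fun i => y (σ τ N) i / z τ N ^ wG i)
    have h2 : (fun i => z τ N ^ wG i * (y (σ τ N) i / z τ N ^ wG i)) = y (σ τ N) := by
      funext i
      exact mul_div_cancel₀ _ (pow_ne_zero _ hN)
    rw [h2, h0] at h1
    exact (mul_eq_zero.mp h1.symm).resolve_left (pow_ne_zero _ hN)
  -- first step: `L P = 0`
  have hL : Lder P = 0 := by
    refine ih (w - 2) (by omega) _ (Lder_hom hP) fun τ => ?_
    have h1 := taylor_lim ht P (y τ) (h0 τ) (fun N => (z τ N)⁻¹)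
      (fun N i => y (σ τ N) i / z τ N ^ wG i - y τ i)
      (fun i => if i.2 = 0 then 0 else y τ (i.1, i.2 - 1)) (h.inv τ)
      ((h.ev_ne τ).mono fun N hN => inv_ne_zero hN) (fun i _ => h.lim1 τ i)
      ((hv τ).mono fun N hN => by
        rw [← hN]
        congr 2
        funext i
        ring)
    rw [Lder_eq, map_sum, ← h1]
    refine Finset.sum_congr rfl fun i _ => ?_
    rw [map_mul]
    congr 1
    unfold fL
    split_ifs
    · exact map_zero _
    · exact eval_X _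
  -- second step: vanishing of the derivatives
  have hex : ∃ a, ∃ l, (a, l) ∈ P.vars := ⟨i0.1, i0.2, hi0⟩
  set a0 := Nat.find hex with ha0
  obtain ⟨l0, hl0⟩ := Nat.find_spec hex
  have hmin : ∀ i ∈ P.vars, a0 ≤ i.1 := fun i hi => Nat.find_min' hex ⟨i.2, hi⟩
  have hD : ∀ τ, eval (y τ) (pderiv (a0, 0) P) = 0 := by
    intro τ
    by_cases hmem : (a0, 0) ∈ P.vars
    swap
    · rw [pderiv_eq_zero_of_notMem_vars hmem, map_zero]
    obtain ⟨A, hA, hA1⟩ := h.h1 τ
    obtain ⟨c₀, hc₀, N₀, hN₀⟩ := h.h3 τ a0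
    have he0 : ∀ N, eps y z σ τ N (a0, 0) =
        y (σ τ N) (a0, 0) / z τ N ^ (2 * a0 + 3) - y τ (a0, 0) := by
      intro N
      rw [eps, flow_zero]
      rfl
    have hr0 : ∀ᶠ N in atTop, eps y z σ τ N (a0, 0) ≠ 0 := by
      filter_upwards [eventually_ge_atTop N₀, eventually_ge_atTop 1] with N hN hN1
      have h1 := hN₀ N hN
      rw [← he0] at h1
      have h2 : (1 : ℝ) ≤ N := by exact_mod_cast hN1
      intro h3
      rw [h3, norm_zero] at h1
      have h4 : 0 < c₀ / (N : ℝ) ^ (2 * a0 + 2) := by positivity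
      linarith
    have hr : Tendsto (fun N => eps y z σ τ N (a0, 0)) atTop (𝓝 0) := by
      have h1 := (h.lim τ (a0, 0)).sub_const (y τ (a0, 0))
      rw [sub_self] at h1
      refine h1.congr fun N => ?_
      rw [he0]
      rfl
    have h1 := taylor_lim ht P (y τ) (h0 τ) (fun N => eps y z σ τ N (a0, 0))
      (fun N => flow (-(z τ N)⁻¹) (eps y z σ τ N))
      (fun i => if i = (a0, 0) then 1 else 0) hr hr0 ?_ ?_
    · rw [← h1, Finset.sum_eq_single (a0, 0)]
      · rw [if_pos rfl, one_mul]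
      · intro i _ hi
        rw [if_neg hi, zero_mul]
      · intro h2
        exact absurd hmem h2
    · intro i hi
      by_cases hia : i = (a0, 0)
      · subst hia
        rw [if_pos rfl]
        refine tendsto_const_nhds.congr' ?_
        filter_upwards [hr0] with N hN
        rw [flow_zero, div_self hN]
      · rw [if_neg hia]
        obtain ⟨C, hC0, hC⟩ := h.eps' τ i
        refine squeeze_zero_norm' ?_ (div_lim (C / c₀))
        filter_upwards [eventually_ge_atTop N₀, eventually_ge_atTop 1] with N hN hN1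
        have h2 : (1 : ℝ) ≤ N := by exact_mod_cast hN1
        have h3 := hN₀ N hN
        rw [← he0] at h3
        have h4 : 0 < c₀ / (N : ℝ) ^ (2 * a0 + 2) := by positivity
        rw [norm_div]
        have h5 : 2 * a0 + 3 ≤ 2 * i.1 + 2 + i.2 := by
          have h6 := hmin i hi
          by_contra h7
          have h8 : i.1 = a0 := by omega
          have h9 : i.2 = 0 := by omega
          exact hia (Prod.ext h8 h9)
        calc ‖flow (-(z τ N)⁻¹) (eps y z σ τ N) i‖ / ‖eps y z σ τ N (a0, 0)‖ ≤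
            (C / (N : ℝ) ^ (2 * a0 + 3)) / (c₀ / (N : ℝ) ^ (2 * a0 + 2)) := by
              refine div_le_div₀ (by positivity) ?_ h4 h3
              refine (hC N hN1).trans ?_
              exact div_le_div_of_nonneg_left hC0 (by positivity) (pow_le_pow_right₀ h2 h5)
          _ = C / c₀ / N := by
              have h6 : (N : ℝ) ≠ 0 := by linarith
              rw [pow_succ (N : ℝ) (2 * a0 + 2)]
              field_simp
    · filter_upwards [hv τ] with N hN
      have h2 := hf P hL (-(z τ N)⁻¹) (fun i => y (σ τ N) i / z τ N ^ wG i)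
      rw [hN] at h2
      rw [← h2]
      congr 2
      funext i
      have h3 : (fun i => y (σ τ N) i / z τ N ^ wG i) =
          fun i => flow (z τ N)⁻¹ (y τ) i + eps y z σ τ N i := by
        funext i
        rw [eps]
        ring
      rw [h3, flow_add]
      congr 1
      exact (congrFun (flow_flow (z τ N)⁻¹ (y τ)) i).symm
  have hD0 : pderiv (a0, 0) P = 0 := by
    by_cases hmem : (a0, 0) ∈ P.vars
    swap
    · exact pderiv_eq_zero_of_notMem_vars hmem
    have h1 := wle hP hmem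
    have h2 : 0 < wG (a0, 0) := by
      simp only [wG]
      omega
    exact ih (w - wG (a0, 0)) (by omega) _ (hP.pderiv (by omega)) hD
  have hall : ∀ l, pderiv (a0, l) P = 0 := by
    intro l
    induction l with
    | zero => exact hD0
    | succ l ihl =>
      have h1 := comm a0 l P
      rw [hL, ihl, map_zero, map_zero, zero_add] at h1
      exact h1.symm
  exact notMem_of_pderiv (hall l0) hl0

theorem Hyp.top (h : Hyp y z σ) (c : ℕ × ℕ → ℂ) (P : Pol) (w W : ℕ) (hwW : w < W)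
    (hW : ∀ d ∈ P.support, Finsupp.weight wG d ≤ W) (τ : H)
    (hg : ∃ C : ℝ, ∀ N : ℕ, 1 ≤ N → ‖eval (fun i => y (σ τ N) i + c i) P‖ ≤ C * (N : ℝ) ^ w) :
    eval (y τ) (weightedHomogeneousComponent wG W P) = 0 := by
  classical
  obtain ⟨A, hA, hA1⟩ := h.h1 τ
  obtain ⟨C, hC⟩ := hg
  have hu : ∀ i, Tendsto (fun N => (y (σ τ N) i + c i) / z τ N ^ wG i) atTop (𝓝 (y τ i)) := by
    intro i
    have h1 : Tendsto (fun N => c i * (z τ N)⁻¹ ^ wG i) atTop (𝓝 (c i * 0 ^ wG i)) :=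
      ((h.inv τ).pow (wG i)).const_mul (c i)
    have h2 : wG i ≠ 0 := by
      simp only [wG]
      omega
    rw [zero_pow h2, mul_zero] at h1
    have h3 := (h.lim τ i).add h1
    rw [add_zero] at h3
    refine h3.congr fun N => ?_
    rw [add_div, inv_pow, div_eq_mul_inv (c i)]
  have hterm : ∀ d ∈ P.support, Tendsto (fun N => coeff d P *
      (z τ N ^ (Finsupp.weight wG d) / z τ N ^ W) *
        ∏ i ∈ d.support, ((y (σ τ N) i + c i) / z τ N ^ wG i) ^ d i) atTop
      (𝓝 (coeff d P * (if Finsupp.weight wG d = W then 1 else 0) *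
        ∏ i ∈ d.support, y τ i ^ d i)) := by
    intro d hd
    have h1 : Tendsto (fun N => z τ N ^ (Finsupp.weight wG d) / z τ N ^ W) atTop
        (𝓝 (if Finsupp.weight wG d = W then 1 else 0)) := by
      by_cases hdW : Finsupp.weight wG d = W
      · rw [if_pos hdW, hdW]
        refine tendsto_const_nhds.congr' ?_
        filter_upwards [h.ev_ne τ] with N hN
        rw [div_self (pow_ne_zero _ hN)]
      · rw [if_neg hdW]
        have h2 := hW d hd
        have h3 : W - Finsupp.weight wG d ≠ 0 := by omega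
        have h4 := (h.inv τ).pow (W - Finsupp.weight wG d)
        rw [zero_pow h3] at h4
        refine h4.congr' ?_
        filter_upwards [h.ev_ne τ] with N hN
        rw [inv_pow, eq_div_iff (pow_ne_zero _ hN), inv_mul_eq_iff_eq_mul₀ (pow_ne_zero _ hN),
          ← pow_add]
        congr 1
        omega
    exact (h1.const_mul _).mul (tendsto_finsetProd _ fun i _ => (hu i).pow (d i))
  have hsum := tendsto_finsetSum P.support hterm
  have hval : ∀ᶠ N in atTop, ∑ d ∈ P.support, coeff d P *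
      (z τ N ^ (Finsupp.weight wG d) / z τ N ^ W) *
        ∏ i ∈ d.support, ((y (σ τ N) i + c i) / z τ N ^ wG i) ^ d i =
      eval (fun i => y (σ τ N) i + c i) P / z τ N ^ W := by
    filter_upwards [h.ev_ne τ] with N hN
    rw [eval_eq, Finset.sum_div]
    refine Finset.sum_congr rfl fun d _ => ?_
    have h1 := prod_scale d (z τ N) (fun i => (y (σ τ N) i + c i) / z τ N ^ wG i)
    have h2 : ∏ i ∈ d.support, (z τ N ^ wG i * ((y (σ τ N) i + c i) / z τ N ^ wG i)) ^ d i =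
        ∏ i ∈ d.support, (y (σ τ N) i + c i) ^ d i := by
      refine Finset.prod_congr rfl fun i _ => ?_
      rw [mul_div_cancel₀ _ (pow_ne_zero _ hN)]
    rw [h2] at h1
    rw [h1]
    ring
  have hlim0 : Tendsto (fun N => eval (fun i => y (σ τ N) i + c i) P / z τ N ^ W) atTop
      (𝓝 0) := by
    refine squeeze_zero_norm' ?_ (div_lim (|C| * A ^ W))
    filter_upwards [eventually_ge_atTop 1] with N hN
    have h1 : (1 : ℝ) ≤ N := by exact_mod_cast hN
    have h2 : 0 < ‖z τ N‖ := norm_pos_iff.mpr (h.ne τ hN)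
    have h3 : (N : ℝ) ^ W ≤ A ^ W * ‖z τ N‖ ^ W := by
      rw [← mul_pow]
      exact pow_le_pow_left₀ (by positivity) (hA1 N hN).2 W
    have h4 : ‖eval (fun i => y (σ τ N) i + c i) P‖ ≤ |C| * (N : ℝ) ^ w :=
      (hC N hN).trans (mul_le_mul_of_nonneg_right (le_abs_self C) (by positivity))
    rw [norm_div, norm_pow, div_le_div_iff₀ (by positivity) (by linarith)]
    calc ‖eval (fun i => y (σ τ N) i + c i) P‖ * N ≤ |C| * (N : ℝ) ^ w * N :=
          mul_le_mul_of_nonneg_right h4 (by linarith)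
      _ = |C| * (N : ℝ) ^ (w + 1) := by rw [pow_succ]; ring
      _ ≤ |C| * (N : ℝ) ^ W :=
          mul_le_mul_of_nonneg_left (pow_le_pow_right₀ h1 hwW) (abs_nonneg C)
      _ ≤ |C| * (A ^ W * ‖z τ N‖ ^ W) := mul_le_mul_of_nonneg_left h3 (abs_nonneg C)
      _ = |C| * A ^ W * ‖z τ N‖ ^ W := by ring
  have h5 := tendsto_nhds_unique (hsum.congr' hval) hlim0
  rw [weightedHomogeneousComponent_apply, map_sum, Finset.sum_filter]
  refine Eq.trans (Finset.sum_congr rfl fun d _ => ?_) h5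
  split_ifs with h6
  · rw [eval_monomial, mul_one]
    rfl
  · rw [mul_zero, zero_mul]

end

end

end T3a

open T3a in
/-- The algebraic heart of the lower bound for the growth. -/
theorem T3alg (hf : S_flow) (ht : S_Taylor) : S_T3alg := by
  intro H _ y z σ c h1 h2 h3 P w hg m hm
  have hyp : Hyp y z σ := ⟨h1, h2, h3⟩
  by_contra hlt
  push Not at hlt
  obtain ⟨m', hm', hmax⟩ := Finset.exists_max_image P.support (fun d => Finsupp.weight wG d)
    ⟨m, hm⟩
  have hW : w < Finsupp.weight wG m' := hlt.trans_le (hmax m hm)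
  have h4 := hyp.zero hf ht (Finsupp.weight wG m') _
    (MvPolynomial.weightedHomogeneousComponent_isWeightedHomogeneous (w := wG)
      (n := Finsupp.weight wG m') (φ := P))
    (fun τ => hyp.top c P w _ hW hmax τ (hg τ))
  have h5 := congrArg (MvPolynomial.coeff m') h4
  rw [MvPolynomial.coeff_weightedHomogeneousComponent, if_pos rfl, MvPolynomial.coeff_zero] at h5
  exact (MvPolynomial.mem_support_iff.mp hm') h5

end Pool.Agent.H946.Z
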