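import Pool.Agent.H946.Z.Basic
set_option autoImplicit false

/-!
# MP_d9449f_ag : modular transformation of the lattice sums
-/

namespace Pool.Agent.H946.Z.Trans

open Complex

/-- absolute convergence of the half-plane lattice sum. -/
theorem summable_half (z : ℂ) (hz : 0 < z.im) :
    Summable (fun q : ℕ × ℤ => ‖((((q.1 : ℂ) + 1) * z + (q.2 : ℂ))⁻¹) ^ 3‖) := by
  have h := EisensteinSeries.summable_norm_eisSummand (k := 3) le_rfl (⟨z, hz⟩ : UpperHalfPlane)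
  have hinj : Function.Injective (fun q : ℕ × ℤ => (![(q.1 : ℤ) + 1, q.2] : Fin 2 → ℤ)) := by
    intro a b hab
    have h0 := congrFun hab 0
    have h1 := congrFun hab 1
    simp only [Matrix.cons_val_zero, Matrix.cons_val_one] at h0 h1
    exact Prod.ext (by omega) h1
  have h2 := h.comp_injective hinj
  refine h2.congr (fun q => ?_)
  simp only [Function.comp, EisensteinSeries.eisSummand, Matrix.cons_val_zero,
    Matrix.cons_val_one]
  rw [norm_zpow, norm_pow, norm_inv, zpow_neg, inv_pow]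
  have e : (3 : ℤ) = ((3 : ℕ) : ℤ) := rfl
  rw [e, zpow_natCast]
  push_cast
  rfl

theorem split_sum (f : ℕ × ℤ → ℂ) (hf : Summable f) :
    ∑' q, f q = (∑' q : ℕ × ℕ, f (q.1, (q.2 : ℤ) + 1)) + (∑' p : ℕ, f (p, 0))
      + ∑' q : ℕ × ℕ, f (q.1, -((q.2 : ℤ) + 1)) := by
  have i1 : Function.Injective (fun q : ℕ × ℕ => ((q.1, (q.2 : ℤ) + 1) : ℕ × ℤ)) := by
    rintro ⟨a, b⟩ ⟨c, d⟩ h
    simp only [Prod.mk.injEq] at h
    ext <;> simp <;> omega
  have i2 : Function.Injective (fun p : ℕ => ((p, 0) : ℕ × ℤ)) := by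
    intro a b h
    simpa using h
  have i3 : Function.Injective (fun q : ℕ × ℕ => ((q.1, -((q.2 : ℤ) + 1)) : ℕ × ℤ)) := by
    rintro ⟨a, b⟩ ⟨c, d⟩ h
    simp only [Prod.mk.injEq] at h
    ext <;> simp <;> omega
  have s1 : Summable (fun q : ℕ × ℕ => f (q.1, (q.2 : ℤ) + 1)) := hf.comp_injective i1
  have s2 : Summable (fun p : ℕ => f (p, 0)) := hf.comp_injective i2
  have s3 : Summable (fun q : ℕ × ℕ => f (q.1, -((q.2 : ℤ) + 1))) := hf.comp_injective i3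
  rw [hf.tsum_prod, s1.tsum_prod, s3.tsum_prod]
  have hp : ∀ p : ℕ, ∑' n : ℤ, f (p, n)
      = ((∑' m : ℕ, f (p, (m : ℤ) + 1)) + f (p, 0)) + ∑' m : ℕ, f (p, -((m : ℤ) + 1)) := by
    intro p
    have t0 : Summable (fun n : ℤ => f (p, n)) := hf.prod_factor p
    have t1 : Summable (fun n : ℕ => f (p, (n : ℤ))) :=
      t0.comp_injective (i := fun n : ℕ => (n : ℤ)) (fun a b h => Int.ofNat.inj h)
    have t2 : Summable (fun n : ℕ => f (p, -((n : ℤ) + 1))) := s3.prod_factor p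
    have e := tsum_of_nat_of_neg_add_one (f := fun n : ℤ => f (p, n)) t1 t2
    rw [e, t1.tsum_eq_zero_add]
    simp only [Nat.cast_zero, Nat.cast_add, Nat.cast_one]
    ring
  simp_rw [hp]
  have u1 : Summable (fun p : ℕ => ∑' m : ℕ, f (p, (m : ℤ) + 1)) := s1.prod
  have u3 : Summable (fun p : ℕ => ∑' m : ℕ, f (p, -((m : ℤ) + 1))) := s3.prod
  rw [(u1.add s2).tsum_add u3, u1.tsum_add s2]

theorem im_le (z : ℂ) (q : ℕ × ℤ) :
    ((q.1 : ℝ) + 1) * z.im ≤ ‖((q.1 : ℂ) + 1) * z + (q.2 : ℂ)‖ := by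
  have h : (((q.1 : ℂ) + 1) * z + (q.2 : ℂ)).im = ((q.1 : ℝ) + 1) * z.im := by
    simp [Complex.add_im, Complex.mul_im]
  rw [← h]
  exact (le_abs_self _).trans (Complex.abs_im_le_norm _)

theorem summable_gen (z : ℂ) (hz : 0 < z.im) (a e : ℕ) :
    Summable (fun q : ℕ × ℤ => ((q.1 : ℂ) + 1) ^ e *
      ((((q.1 : ℂ) + 1) * z + (q.2 : ℂ)) ^ (2 * a + 3 + e))⁻¹) := by
  refine Summable.of_norm_bounded (g := fun q : ℕ × ℤ => (z.im⁻¹) ^ (2 * a + e) *
    ‖((((q.1 : ℂ) + 1) * z + (q.2 : ℂ))⁻¹) ^ 3‖) ((summable_half z hz).mul_left _) ?_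
  intro q
  have hw := im_le z q
  have hx : (1 : ℝ) ≤ (q.1 : ℝ) + 1 := by
    have : (0 : ℝ) ≤ (q.1 : ℝ) := Nat.cast_nonneg _
    linarith
  have hxn : ‖(q.1 : ℂ) + 1‖ = (q.1 : ℝ) + 1 := by
    have : ((q.1 : ℂ) + 1) = (((q.1 : ℝ) + 1 : ℝ) : ℂ) := by push_cast; rfl
    rw [this, Complex.norm_real, Real.norm_of_nonneg (by linarith)]
  rw [norm_mul, norm_pow, norm_inv, norm_pow, norm_pow, norm_inv, hxn]
  generalize ‖((q.1 : ℂ) + 1) * z + (q.2 : ℂ)‖ = w at *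
  generalize (q.1 : ℝ) + 1 = x at *
  generalize z.im = y at *
  have hx0 : 0 < x := by linarith
  have hxy : 0 < x * y := mul_pos hx0 hz
  have hw0 : 0 < w := lt_of_lt_of_le hxy hw
  have hyw : y ≤ w := le_trans (by nlinarith) hw
  have h1 : y ^ (2 * a) * w ^ 3 * (x * y) ^ e ≤ w ^ (2 * a + 3 + e) := by
    rw [pow_add, pow_add]
    have := pow_le_pow_left₀ hz.le hyw (2 * a)
    have := pow_le_pow_left₀ hxy.le hw e
    gcongr
  calc x ^ e * (w ^ (2 * a + 3 + e))⁻¹ ≤ x ^ e * (y ^ (2 * a) * w ^ 3 * (x * y) ^ e)⁻¹ := by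
        gcongr
    _ = y⁻¹ ^ (2 * a + e) * w⁻¹ ^ 3 := by
        rw [mul_pow, pow_add, inv_pow, inv_pow, inv_pow]
        field_simp

/-- the sum over the half plane. -/
noncomputable def A (z : ℂ) (a e : ℕ) : ℂ := ∑' q : ℕ × ℤ, ((q.1 : ℂ) + 1) ^ e *
  ((((q.1 : ℂ) + 1) * z + (q.2 : ℂ)) ^ (2 * a + 3 + e))⁻¹
/-- the sum over the quadrant `n ≥ 1`. -/
noncomputable def P (z : ℂ) (a e : ℕ) : ℂ := ∑' q : ℕ × ℕ, ((q.1 : ℂ) + 1) ^ e *
  ((((q.1 : ℂ) + 1) * z + ((q.2 : ℂ) + 1)) ^ (2 * a + 3 + e))⁻¹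
/-- the sum over the quadrant `n ≤ -1`. -/
noncomputable def M (z : ℂ) (a e : ℕ) : ℂ := ∑' q : ℕ × ℕ, ((q.1 : ℂ) + 1) ^ e *
  ((((q.1 : ℂ) + 1) * z - ((q.2 : ℂ) + 1)) ^ (2 * a + 3 + e))⁻¹
/-- the sum over the half line `n = 0`. -/
noncomputable def O (z : ℂ) (a e : ℕ) : ℂ := ∑' J : ℕ, ((J : ℂ) + 1) ^ e *
  ((((J : ℂ) + 1) * z) ^ (2 * a + 3 + e))⁻¹

theorem A_eq (z : ℂ) (hz : 0 < z.im) (a e : ℕ) : A z a e = P z a e + O z a e + M z a e := by
  unfold A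
  rw [split_sum _ (summable_gen z hz a e)]
  congr 1
  · congr 1
    · unfold P
      refine tsum_congr fun q => ?_
      push_cast
      rfl
    · unfold O
      refine tsum_congr fun q => ?_
      simp
  · unfold M
    refine tsum_congr fun q => ?_
    push_cast
    rw [← sub_eq_add_neg]

theorem summable_P (z : ℂ) (hz : 0 < z.im) (a e : ℕ) :
    Summable (fun q : ℕ × ℕ => ((q.2 : ℂ) + 1) ^ e *
      ((((q.2 : ℂ) + 1) * z + ((q.1 : ℂ) + 1)) ^ (2 * a + 3 + e))⁻¹) := by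
  have i1 : Function.Injective (fun q : ℕ × ℕ => ((q.2, (q.1 : ℤ) + 1) : ℕ × ℤ)) := by
    rintro ⟨a, b⟩ ⟨c, d⟩ h
    simp only [Prod.mk.injEq] at h
    ext <;> simp <;> omega
  refine ((summable_gen z hz a e).comp_injective i1).congr fun q => ?_
  simp only [Function.comp]
  push_cast
  rfl

theorem summable_M (z : ℂ) (hz : 0 < z.im) (a e : ℕ) :
    Summable (fun q : ℕ × ℕ => ((q.2 : ℂ) + 1) ^ e *
      ((((q.2 : ℂ) + 1) * z - ((q.1 : ℂ) + 1)) ^ (2 * a + 3 + e))⁻¹) := by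
  have i1 : Function.Injective (fun q : ℕ × ℕ => ((q.2, -((q.1 : ℤ) + 1)) : ℕ × ℤ)) := by
    rintro ⟨a, b⟩ ⟨c, d⟩ h
    simp only [Prod.mk.injEq] at h
    ext <;> simp <;> omega
  refine ((summable_gen z hz a e).comp_injective i1).congr fun q => ?_
  simp only [Function.comp]
  push_cast
  rw [← sub_eq_add_neg]

theorem expand1 (X Y : ℂ) (hY : Y ≠ 0) (c l : ℕ) :
    (X - Y) ^ l * (Y ^ (c + l))⁻¹ = ∑ k ∈ Finset.range (l + 1),
      (l.choose k : ℂ) * (-1) ^ k * (X ^ (l - k) * (Y ^ (c + (l - k)))⁻¹) := by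
  have h : X - Y = -Y + X := by ring
  rw [h, add_pow, Finset.sum_mul]
  refine Finset.sum_congr rfl fun k hk => ?_
  have hk' : k ≤ l := by
    have := Finset.mem_range.1 hk
    omega
  have h1 : Y ^ (c + l) = Y ^ k * Y ^ (c + (l - k)) := by
    rw [← pow_add]
    congr 1
    omega
  rw [h1, neg_pow, mul_inv]
  have h2 : Y ^ k ≠ 0 := pow_ne_zero _ hY
  field_simp

theorem expand2 (X Y : ℂ) (hY : Y ≠ 0) (c l : ℕ) :
    (Y - X) ^ l * (Y ^ (c + l))⁻¹ = ∑ k ∈ Finset.range (l + 1),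
      (l.choose k : ℂ) * (-1) ^ (l - k) * (X ^ (l - k) * (Y ^ (c + (l - k)))⁻¹) := by
  have h : Y - X = Y + -X := by ring
  rw [h, add_pow, Finset.sum_mul]
  refine Finset.sum_congr rfl fun k hk => ?_
  have hk' : k ≤ l := by
    have := Finset.mem_range.1 hk
    omega
  have h1 : Y ^ (c + l) = Y ^ k * Y ^ (c + (l - k)) := by
    rw [← pow_add]
    congr 1
    omega
  rw [h1, neg_pow X, mul_inv]
  have h2 : Y ^ k ≠ 0 := pow_ne_zero _ hY
  field_simp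

theorem ne_zero_add (z : ℂ) (hz : 0 < z.im) (J n : ℕ) :
    ((J : ℂ) + 1) * z + ((n : ℂ) + 1) ≠ 0 := by
  intro h
  have h1 : (((J : ℂ) + 1) * z + ((n : ℂ) + 1)).im = ((J : ℝ) + 1) * z.im := by
    simp [Complex.add_im, Complex.mul_im]
  rw [h] at h1
  have : 0 < ((J : ℝ) + 1) * z.im := by positivity
  simp at h1
  rcases h1 with h1 | h1
  · have : (0 : ℝ) ≤ (J : ℝ) := Nat.cast_nonneg _
    linarith
  · linarith

theorem ne_zero_sub (z : ℂ) (hz : 0 < z.im) (J n : ℕ) :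
    ((J : ℂ) + 1) * z - ((n : ℂ) + 1) ≠ 0 := by
  intro h
  have h1 : (((J : ℂ) + 1) * z - ((n : ℂ) + 1)).im = ((J : ℝ) + 1) * z.im := by
    simp [Complex.sub_im, Complex.mul_im]
  rw [h] at h1
  have : 0 < ((J : ℝ) + 1) * z.im := by positivity
  simp at h1
  rcases h1 with h1 | h1
  · have : (0 : ℝ) ≤ (J : ℝ) := Nat.cast_nonneg _
    linarith
  · linarith

/-- the part `j ≥ 1`. -/
theorem part_pos (z : ℂ) (hz : 0 < z.im) (a l : ℕ) :
    ∑' q : ℕ × ℕ, ((q.1 : ℂ) + 1) ^ l *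
      ((((q.2 : ℂ) + 1) * z - ((q.1 : ℂ) + 1)) ^ (2 * a + 3 + l))⁻¹ =
    ∑ k ∈ Finset.range (l + 1), (l.choose k : ℂ) * (-1) ^ k * z ^ (l - k) * M z a (l - k) := by
  have h1 : ∀ q : ℕ × ℕ, ((q.1 : ℂ) + 1) ^ l *
      ((((q.2 : ℂ) + 1) * z - ((q.1 : ℂ) + 1)) ^ (2 * a + 3 + l))⁻¹ =
      ∑ k ∈ Finset.range (l + 1), (l.choose k : ℂ) * (-1) ^ k * z ^ (l - k) *
        (((q.2 : ℂ) + 1) ^ (l - k) *
          ((((q.2 : ℂ) + 1) * z - ((q.1 : ℂ) + 1)) ^ (2 * a + 3 + (l - k)))⁻¹) := by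
    intro q
    have h := expand1 (((q.2 : ℂ) + 1) * z) (((q.2 : ℂ) + 1) * z - ((q.1 : ℂ) + 1))
      (ne_zero_sub z hz q.2 q.1) (2 * a + 3) l
    rw [sub_sub_cancel] at h
    rw [h]
    refine Finset.sum_congr rfl fun k _ => ?_
    rw [mul_pow]
    ring
  simp_rw [h1]
  rw [Summable.tsum_finsetSum]
  · refine Finset.sum_congr rfl fun k _ => ?_
    rw [tsum_mul_left]
    congr 1
    unfold M
    rw [← (Equiv.prodComm ℕ ℕ).tsum_eq]
    rfl
  · intro k _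
    exact (summable_M z hz a (l - k)).mul_left _

/-- the part `j ≤ -1`. -/
theorem part_neg (z : ℂ) (hz : 0 < z.im) (a l : ℕ) :
    ∑' q : ℕ × ℕ, ((q.1 : ℂ) + 1) ^ l *
      ((((q.2 : ℂ) + 1) * z + ((q.1 : ℂ) + 1)) ^ (2 * a + 3 + l))⁻¹ =
    ∑ k ∈ Finset.range (l + 1), (l.choose k : ℂ) * (-1) ^ (l - k) * z ^ (l - k) *
      P z a (l - k) := by
  have h1 : ∀ q : ℕ × ℕ, ((q.1 : ℂ) + 1) ^ l *
      ((((q.2 : ℂ) + 1) * z + ((q.1 : ℂ) + 1)) ^ (2 * a + 3 + l))⁻¹ =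
      ∑ k ∈ Finset.range (l + 1), (l.choose k : ℂ) * (-1) ^ (l - k) * z ^ (l - k) *
        (((q.2 : ℂ) + 1) ^ (l - k) *
          ((((q.2 : ℂ) + 1) * z + ((q.1 : ℂ) + 1)) ^ (2 * a + 3 + (l - k)))⁻¹) := by
    intro q
    have h := expand2 (((q.2 : ℂ) + 1) * z) (((q.2 : ℂ) + 1) * z + ((q.1 : ℂ) + 1))
      (ne_zero_add z hz q.2 q.1) (2 * a + 3) l
    rw [add_sub_cancel_left] at h
    rw [h]
    refine Finset.sum_congr rfl fun k _ => ?_
    rw [mul_pow]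
    ring
  simp_rw [h1]
  rw [Summable.tsum_finsetSum]
  · refine Finset.sum_congr rfl fun k _ => ?_
    rw [tsum_mul_left]
    congr 1
    unfold P
    rw [← (Equiv.prodComm ℕ ℕ).tsum_eq]
    rfl
  · intro k _
    exact (summable_P z hz a (l - k)).mul_left _

/-- the part `j = 0`. -/
theorem part_zero (a l : ℕ) :
    ∑' n : ℕ, ((n : ℂ) + 1) ^ l * ((-((n : ℂ) + 1)) ^ (2 * a + 3 + l))⁻¹ =
      (-1) ^ (l + 1) * zet (2 * a + 3) := by
  unfold zet
  rw [← tsum_mul_left]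
  refine tsum_congr fun n => ?_
  have hn : ((n : ℂ) + 1) ≠ 0 := Nat.cast_add_one_ne_zero n
  have h2 : ((n : ℂ) + 1) ^ l ≠ 0 := pow_ne_zero _ hn
  have h3 : (-1 : ℂ) ^ (2 * a + 3 + l) = (-1) ^ (l + 1) := by
    have : 2 * a + 3 + l = 2 * (a + 1) + (l + 1) := by ring
    rw [this, pow_add, pow_mul]
    norm_num
  rw [neg_pow, h3, pow_add _ (2 * a + 3) l, mul_inv, mul_inv]
  have h4 : ((-1 : ℂ) ^ (l + 1))⁻¹ = (-1) ^ (l + 1) := by
    rw [← inv_pow]
    norm_num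
  rw [h4]
  field_simp

theorem YY_eq (z : ℂ) (a e : ℕ) : YY z (a, e) = (-1) ^ e / (e.factorial : ℂ) * A z a e := rfl

/-- the transformation with the sums `M`, `P`. -/
theorem YY_inv (z : ℂ) (hz : 0 < z.im) (a l : ℕ) :
    YY (-1 / z) (a, l) = (-1) ^ l / (l.factorial : ℂ) * (z ^ (2 * a + 3 + l) *
      (∑ k ∈ Finset.range (l + 1), (l.choose k : ℂ) * (-1) ^ k * z ^ (l - k) *
        (M z a (l - k) - P z a (l - k)) + (-1) ^ (l + 1) * zet (2 * a + 3))) := by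
  have hz0 : z ≠ 0 := by
    rintro rfl
    simp at hz
  have him : 0 < (-1 / z).im := by
    have h1 : (-1 / z) = -z⁻¹ := by
      rw [neg_div, one_div]
    rw [h1, Complex.neg_im, Complex.inv_im, neg_div, neg_neg]
    exact div_pos hz (Complex.normSq_pos.2 hz0)
  rw [YY_eq]
  congr 1
  have key : ∀ q : ℕ × ℤ, ((q.1 : ℂ) + 1) ^ l *
      ((((q.1 : ℂ) + 1) * (-1 / z) + (q.2 : ℂ)) ^ (2 * a + 3 + l))⁻¹ =
      z ^ (2 * a + 3 + l) * (((q.1 : ℂ) + 1) ^ l *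
        (((q.2 : ℂ) * z - ((q.1 : ℂ) + 1)) ^ (2 * a + 3 + l))⁻¹) := by
    intro q
    have h1 : ((q.1 : ℂ) + 1) * (-1 / z) + (q.2 : ℂ) = z⁻¹ * ((q.2 : ℂ) * z - ((q.1 : ℂ) + 1)) := by
      field_simp
      ring
    rw [h1, mul_pow, mul_inv, inv_pow, inv_inv]
    ring
  have hzb : z ^ (2 * a + 3 + l) ≠ 0 := pow_ne_zero _ hz0
  have hs : Summable (fun q : ℕ × ℤ => ((q.1 : ℂ) + 1) ^ l *
        (((q.2 : ℂ) * z - ((q.1 : ℂ) + 1)) ^ (2 * a + 3 + l))⁻¹) := by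
    have h1 := (summable_gen (-1 / z) him a l).mul_left ((z ^ (2 * a + 3 + l))⁻¹)
    refine h1.congr fun q => ?_
    rw [key q, inv_mul_cancel_left₀ hzb]
  unfold A
  simp_rw [key]
  rw [tsum_mul_left]
  congr 1
  rw [split_sum _ hs]
  have e1 : ∑' q : ℕ × ℕ, ((q.1 : ℂ) + 1) ^ l *
      (((((q.2 : ℤ) + 1 : ℤ) : ℂ) * z - ((q.1 : ℂ) + 1)) ^ (2 * a + 3 + l))⁻¹ =
      ∑ k ∈ Finset.range (l + 1), (l.choose k : ℂ) * (-1) ^ k * z ^ (l - k) *
        M z a (l - k) := by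
    rw [← part_pos z hz a l]
    refine tsum_congr fun q => ?_
    push_cast
    rfl
  have e2 : ∑' n : ℕ, ((n : ℂ) + 1) ^ l *
      ((((0 : ℤ) : ℂ) * z - ((n : ℂ) + 1)) ^ (2 * a + 3 + l))⁻¹ =
      (-1) ^ (l + 1) * zet (2 * a + 3) := by
    rw [← part_zero a l]
    refine tsum_congr fun n => ?_
    rw [Int.cast_zero, zero_mul, zero_sub]
  have e3 : ∑' q : ℕ × ℕ, ((q.1 : ℂ) + 1) ^ l *
      ((((-((q.2 : ℤ) + 1) : ℤ) : ℂ) * z - ((q.1 : ℂ) + 1)) ^ (2 * a + 3 + l))⁻¹ =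
      -∑ k ∈ Finset.range (l + 1), (l.choose k : ℂ) * (-1) ^ k * z ^ (l - k) *
        P z a (l - k) := by
    have h3 : (-1 : ℂ) ^ (2 * a + 3 + l) = (-1) ^ (l + 1) := by
      have : 2 * a + 3 + l = 2 * (a + 1) + (l + 1) := by ring
      rw [this, pow_add, pow_mul]
      norm_num
    have h4 : ((-1 : ℂ) ^ (l + 1))⁻¹ = (-1) ^ (l + 1) := by
      rw [← inv_pow]
      norm_num
    have h5 : ∀ q : ℕ × ℕ, ((q.1 : ℂ) + 1) ^ l *
        ((((-((q.2 : ℤ) + 1) : ℤ) : ℂ) * z - ((q.1 : ℂ) + 1)) ^ (2 * a + 3 + l))⁻¹ =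
        (-1) ^ (l + 1) * (((q.1 : ℂ) + 1) ^ l *
          ((((q.2 : ℂ) + 1) * z + ((q.1 : ℂ) + 1)) ^ (2 * a + 3 + l))⁻¹) := by
      intro q
      push_cast
      have h6 : -((q.2 : ℂ) + 1) * z - ((q.1 : ℂ) + 1) =
          -(((q.2 : ℂ) + 1) * z + ((q.1 : ℂ) + 1)) := by ring
      rw [h6, neg_pow, h3, mul_inv, h4]
      ring
    simp_rw [h5]
    rw [tsum_mul_left, part_neg z hz a l, Finset.mul_sum, ← Finset.sum_neg_distrib]
    refine Finset.sum_congr rfl fun k hk => ?_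
    have hk' : k ≤ l := by
      have := Finset.mem_range.1 hk
      omega
    have h8 : (-1 : ℂ) ^ (l + 1) * (-1) ^ (l - k) = -(-1) ^ k := by
      have h9 : (-1 : ℂ) ^ (l - k) * (-1) ^ k = (-1) ^ l := by
        rw [← pow_add]
        congr 1
        omega
      have h10 : (-1 : ℂ) ^ k * (-1) ^ k = 1 := by
        rw [← mul_pow]
        norm_num
      have h11 : (-1 : ℂ) ^ l * (-1) ^ l = 1 := by
        rw [← mul_pow]
        norm_num
      calc (-1 : ℂ) ^ (l + 1) * (-1) ^ (l - k)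
          = (-1 : ℂ) ^ (l + 1) * ((-1) ^ (l - k) * ((-1) ^ k * (-1) ^ k)) := by
            rw [h10, mul_one]
        _ = -((-1 : ℂ) ^ l * ((-1) ^ (l - k) * (-1) ^ k) * (-1) ^ k) := by
            rw [pow_succ]
            ring
        _ = -(-1) ^ k := by rw [h9, h11, one_mul]
    calc (-1 : ℂ) ^ (l + 1) * ((l.choose k : ℂ) * (-1) ^ (l - k) * z ^ (l - k) * P z a (l - k))
        = ((-1 : ℂ) ^ (l + 1) * (-1) ^ (l - k)) *
          ((l.choose k : ℂ) * z ^ (l - k) * P z a (l - k)) := by ring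
      _ = _ := by rw [h8]; ring
  rw [e1, e2, e3]
  have e4 : ∀ S T U : ℂ, S + U + -T = (S - T) + U := by intro S T U; ring
  rw [e4, ← Finset.sum_sub_distrib]
  congr 1
  refine Finset.sum_congr rfl fun k _ => ?_
  ring

theorem Er_eq (z : ℂ) (a l : ℕ) : Er z (a, l) =
    -((-1) ^ l / (l.factorial : ℂ)) * ∑ k ∈ Finset.range (l + 1),
      (l.choose k : ℂ) * (-1) ^ k * (z ^ k)⁻¹ * (O z a (l - k) + 2 * P z a (l - k)) := by
  unfold Er O P
  congr 1
  refine Finset.sum_congr rfl fun k hk => ?_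
  have hk' : k ≤ l := by
    have := Finset.mem_range.1 hk
    omega
  have h1 : 2 * a + 3 + l - k = 2 * a + 3 + (l - k) := by omega
  simp only [h1]

end Pool.Agent.H946.Z.Trans

namespace Pool.Agent.H946.Z

open Pool.Agent.H946.Z.Trans in
/-- the transformation formula. -/
theorem trans : S_trans := by
  rintro ⟨a, l⟩ z hz
  have hz0 : z ≠ 0 := by
    rintro rfl
    simp at hz
  rw [YY_inv z hz a l, Er_eq]
  have hw : wG (a, l) = 2 * a + 3 + l + l := by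
    unfold wG
    ring
  rw [hw]
  simp only
  have hy : ∑ k ∈ Finset.range (l + 1), (z ^ k)⁻¹ / (k.factorial : ℂ) * yy z (a, l - k) =
      ∑ k ∈ Finset.range (l + 1), (z ^ k)⁻¹ / (k.factorial : ℂ) *
        ((-1) ^ (l - k) / ((l - k).factorial : ℂ) * A z a (l - k)) -
      (z ^ l)⁻¹ / (l.factorial : ℂ) * zet (2 * a + 3) := by
    have h1 : ∀ k ∈ Finset.range (l + 1), (z ^ k)⁻¹ / (k.factorial : ℂ) * yy z (a, l - k) =
        (z ^ k)⁻¹ / (k.factorial : ℂ) *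
          ((-1) ^ (l - k) / ((l - k).factorial : ℂ) * A z a (l - k)) -
        (if k = l then (z ^ l)⁻¹ / (l.factorial : ℂ) * zet (2 * a + 3) else 0) := by
      intro k hk
      have hk' : k ≤ l := by
        have := Finset.mem_range.1 hk
        omega
      unfold yy
      rw [YY_eq, mul_sub]
      congr 1
      by_cases hkl : k = l
      · subst hkl
        simp
      · have : l - k ≠ 0 := by omega
        simp [this, hkl]
    rw [Finset.sum_congr rfl h1, Finset.sum_sub_distrib, Finset.sum_ite_eq']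
    simp
  rw [hy]
  have hM : ∀ k, M z a (l - k) - P z a (l - k) =
      A z a (l - k) - (O z a (l - k) + 2 * P z a (l - k)) := by
    intro k
    rw [A_eq z hz a (l - k)]
    ring
  simp_rw [hM]
  have hsplit : z ^ (2 * a + 3 + l + l) = z ^ (2 * a + 3 + l) * z ^ l := pow_add _ _ _
  rw [hsplit]
  have hzet : (-1 : ℂ) ^ l / (l.factorial : ℂ) * ((-1) ^ (l + 1) * zet (2 * a + 3)) =
      -(z ^ l * ((z ^ l)⁻¹ / (l.factorial : ℂ) * zet (2 * a + 3))) := by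
    have h11 : (-1 : ℂ) ^ l * (-1) ^ l = 1 := by
      rw [← mul_pow]
      norm_num
    have h12 : z ^ l ≠ 0 := pow_ne_zero _ hz0
    calc (-1 : ℂ) ^ l / (l.factorial : ℂ) * ((-1) ^ (l + 1) * zet (2 * a + 3))
        = -(((-1 : ℂ) ^ l * (-1) ^ l) / (l.factorial : ℂ) * zet (2 * a + 3)) := by
          rw [pow_succ]
          ring
      _ = _ := by
          rw [h11]
          field_simp
  have hterm : (-1 : ℂ) ^ l / (l.factorial : ℂ) * ∑ k ∈ Finset.range (l + 1),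
        (l.choose k : ℂ) * (-1) ^ k * z ^ (l - k) *
          (A z a (l - k) - (O z a (l - k) + 2 * P z a (l - k))) =
      z ^ l * (∑ k ∈ Finset.range (l + 1), (z ^ k)⁻¹ / (k.factorial : ℂ) *
        ((-1) ^ (l - k) / ((l - k).factorial : ℂ) * A z a (l - k)) +
        -((-1) ^ l / (l.factorial : ℂ)) * ∑ k ∈ Finset.range (l + 1),
          (l.choose k : ℂ) * (-1) ^ k * (z ^ k)⁻¹ * (O z a (l - k) + 2 * P z a (l - k))) := by
    rw [Finset.mul_sum, Finset.mul_sum, ← Finset.sum_add_distrib, Finset.mul_sum]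
    refine Finset.sum_congr rfl fun k hk => ?_
    have hk' : k ≤ l := by
      have := Finset.mem_range.1 hk
      omega
    have h1 : z ^ l = z ^ k * z ^ (l - k) := by
      rw [← pow_add]
      congr 1
      omega
    have h2 : z ^ k ≠ 0 := pow_ne_zero _ hz0
    have h3 : (l.choose k : ℂ) / (l.factorial : ℂ) =
        1 / ((k.factorial : ℂ) * ((l - k).factorial : ℂ)) := by
      have h4 : (l.factorial : ℂ) ≠ 0 := Nat.cast_ne_zero.2 (Nat.factorial_ne_zero _)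
      have h5 : (k.factorial : ℂ) ≠ 0 := Nat.cast_ne_zero.2 (Nat.factorial_ne_zero _)
      have h6 : ((l - k).factorial : ℂ) ≠ 0 := Nat.cast_ne_zero.2 (Nat.factorial_ne_zero _)
      have h7 : (l.choose k : ℂ) * (k.factorial : ℂ) * ((l - k).factorial : ℂ) =
          (l.factorial : ℂ) := by
        exact_mod_cast Nat.choose_mul_factorial_mul_factorial hk'
      rw [div_eq_div_iff h4 (mul_ne_zero h5 h6)]
      rw [← h7]
      ring
    have h9 : (-1 : ℂ) ^ l * (-1) ^ k = (-1) ^ (l - k) := by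
      have h10 : (-1 : ℂ) ^ l = (-1) ^ (l - k) * (-1) ^ k := by
        rw [← pow_add]
        congr 1
        omega
      have h11 : (-1 : ℂ) ^ k * (-1) ^ k = 1 := by
        rw [← mul_pow]
        norm_num
      rw [h10, mul_assoc, h11, mul_one]
    have hL : (-1 : ℂ) ^ l / (l.factorial : ℂ) * ((l.choose k : ℂ) * (-1) ^ k * z ^ (l - k) *
          (A z a (l - k) - (O z a (l - k) + 2 * P z a (l - k)))) =
        ((-1 : ℂ) ^ l * (-1) ^ k) * ((l.choose k : ℂ) / (l.factorial : ℂ)) * z ^ (l - k) *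
          (A z a (l - k) - (O z a (l - k) + 2 * P z a (l - k))) := by ring
    have hR : z ^ l * ((z ^ k)⁻¹ / (k.factorial : ℂ) *
          ((-1) ^ (l - k) / ((l - k).factorial : ℂ) * A z a (l - k)) +
          -((-1) ^ l / (l.factorial : ℂ)) * ((l.choose k : ℂ) * (-1) ^ k * (z ^ k)⁻¹ *
            (O z a (l - k) + 2 * P z a (l - k)))) =
        (z ^ l * (z ^ k)⁻¹) * ((-1) ^ (l - k) * (1 / ((k.factorial : ℂ) *
          ((l - k).factorial : ℂ))) * A z a (l - k) -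
          ((-1 : ℂ) ^ l * (-1) ^ k) * ((l.choose k : ℂ) / (l.factorial : ℂ)) *
            (O z a (l - k) + 2 * P z a (l - k))) := by
      field_simp
      ring
    rw [hL, hR, h3, h9]
    have h12 : z ^ l * (z ^ k)⁻¹ = z ^ (l - k) := by
      rw [h1]
      field_simp
    rw [h12]
    ring
  rw [mul_left_comm, mul_add, hterm, hzet]
  ring

end Pool.Agent.H946.Z
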