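import Pool.Agent.H946.Z.Asm
import Pool.Agent.H946.Z.Sign
import Pool.Agent.H946.Z.Red
import Pool.Agent.H946.Z.Sym
import Pool.Agent.H946.Z.Det1
import Pool.Agent.H946.Z.Det2
import Pool.Agent.H946.Z.Bridge
import Pool.Agent.H946.Z.A3
import Pool.Agent.H946.Z.A4
import Pool.Agent.H946.Z.F4K
import Pool.Agent.H946.Z.F4
import Pool.Agent.H946.Z.F5A
import Pool.Agent.H946.Z.F5B
import Pool.Agent.H946.Z.F5
import Pool.Agent.H946.Z.F6
import Pool.Agent.H946.Z.MF
import Pool.Agent.H946.Z.F8a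
import Pool.Agent.H946.Z.RRl
import Pool.Agent.H946.Z.F8b
import Pool.Agent.H946.Z.OQ
import Pool.Agent.H946.Z.EvA
import Pool.Agent.H946.Z.QN
import Pool.Agent.H946.Z.EvF
import Pool.Agent.H946.Z.Lip
import Pool.Agent.H946.Z.Trans
import Pool.Agent.H946.Z.Err
import Pool.Agent.H946.Z.Flow
import Pool.Agent.H946.Z.T3a
import Pool.Agent.H946.Z.T3
import Pool.Agent.H946.Z.Lat
import Pool.Agent.H946.Z.Growth14
set_option autoImplicit false

/-!
# MP_d9449f_ag : the disproof, up to the finite check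
-/

namespace Pool.Agent.H946.Z

/-- `F6` unconditionally. -/
theorem F6' : S_F6 :=
  F6 (F5 (F4 (F4K (A3 detE scale detK (detGT scale) bridge) A4)) F5A F5B)

/-- the disproof, up to the finite check. -/
theorem main_of_T4 (h4 : S_T4W 14) : dtBracket (fun π => ch 2 π * ch 4 π) ∉ KoqZ :=
  assembly 14 (red sign) sym (MF0 F6') (MF1 F6') (MF2 F6') rr F8a F8b oqz evP
    (growth14 evring atoms qNfacts lat (evF0 evring atoms))
    (T3 (T3alg flow_inv taylor) lip trans erUp erLow) h4

end Pool.Agent.H946.Z
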