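import Pool.Agent.H946.Z.Defs
set_option autoImplicit false

/-!
# MP_d9449f_ag : statements of the steps of the disproof
-/

namespace Pool.Agent.H946.Z

open PowerSeries

noncomputable section

/-! ## Part B : from Donaldson-Thomas theory to `F0` -/

/-- the sign lemma. -/
def S_sign : Prop :=
  ∀ (n : ℕ) (π : Finset Box), π ∈ PP n → invEuler (restr (vertex π)) = (-1) ^ n

/-- `p_k(h)(π) = ∑_box (a (i-l) + b (j-l))^k`, `h = (a,b,-a-b)`. -/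
def pk (a b : ℚ) (k : ℕ) (π : Finset Box) : ℚ :=
  ∑ x ∈ π, (a * ((x.1 : ℚ) - x.2.2) + b * ((x.2.1 : ℚ) - x.2.2)) ^ k

/-- `48 ℓ(ch₂ ch₄)` where `ℓ(P) = P(1,1) - 27 P(1,-1)`. -/
def GF (π : Finset Box) : ℚ := pk 1 1 2 π * pk 1 1 4 π - 27 * (pk 1 (-1) 2 π * pk 1 (-1) 4 π)

/-- if `⟨ch₂ch₄⟩'` is in `K ⊗ oqZ` then `E[GF] ∈ oqZ`. -/
def S_red : Prop :=
  dtBracket (fun π => ch 2 π * ch 4 π) ∈ KoqZ → EE GF ∈ oqZ

/-- symmetrization. -/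
def S_sym : Prop := EE GF = (3 : ℚ) • F0

/-! ## Part A : the closed form of `F0` -/

section det

/-- `det (y_i ^ (λ_j + N-1-j))`. -/
def Dt {S : Type} [CommRing S] {N : ℕ} (y : Fin N → S) (lam : Fin N → ℕ) : S :=
  Matrix.det (Matrix.of fun i j : Fin N => y i ^ (lam j + (N - 1 - (j : ℕ))))

/-- `{μ : T ≥ μ_0 ≥ λ_0 ≥ μ_1 ≥ λ_1 ≥ ... ≥ μ_{N-1} ≥ λ_{N-1}}`. -/
def upSet (T : ℕ) {N : ℕ} (lam : Fin N → ℕ) : Finset (Fin N → ℕ) :=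
  Fintype.piFinset fun j =>
    Finset.Icc (lam j) (if h : (j : ℕ) = 0 then T else lam ⟨(j : ℕ) - 1, by omega⟩)

/-- `{μ : λ_0 ≥ μ_0 ≥ λ_1 ≥ μ_1 ≥ ... ≥ μ_{k-1} ≥ λ_k}`. -/
def downSet {k : ℕ} (lam : Fin (k + 1) → ℕ) : Finset (Fin k → ℕ) :=
  Fintype.piFinset fun j => Finset.Icc (lam j.succ) (lam j.castSucc)

/-- sum over Gelfand-Tsetlin patterns with top row `λ` (excluded from the weight), the row with
`k-1-i` entries having weight `x_i^{|row|}`. -/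
def GT {S : Type} [CommRing S] : (k : ℕ) → (ℕ → S) → (Fin k → ℕ) → S
  | 0, _, _ => 1
  | k + 1, x, lam => ∑ μ ∈ downSet lam, x 0 ^ (∑ j, μ j) * GT k (fun i => x (i + 1)) μ

/-- the vector `(x_0 ⋯ x_{k-2}, …, x_0 x_1, x_0, 1)`. -/
def bv {S : Type} [CommRing S] : (k : ℕ) → (ℕ → S) → Fin k → S
  | 0, _ => Fin.elim0
  | k + 1, x => Fin.snoc (α := fun _ => S) (fun i => x 0 * bv k (fun i => x (i + 1)) i) 1

/-- the constant `κ` with `D(bv x, λ) = κ · GT(x, λ)`. -/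
def kap {S : Type} [CommRing S] : (k : ℕ) → (ℕ → S) → S
  | 0, _ => 1
  | k + 1, x => (∏ i : Fin k, (x 0 * bv k (fun i => x (i + 1)) i - 1)) *
      x 0 ^ (k * (k - 1) / 2) * kap k (fun i => x (i + 1))

/-- `chainF e λ` : sum over all sequences of partitions `λ^{(-N)} ≺ … ≺ λ^{(0)} ≻ … ≻ λ^{(e)} = λ`
(slices `i-j = e'` of a plane partition, `N` rows, parts `≤ T`) of
`∏_{e' < e} x_{e'}^{|λ^{(e')}|}`, with `g(λ^{(d)})` inserted (if `d < e`). -/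
def chainF {S : Type} [CommRing S] (T N : ℕ) (x : ℤ → S) (g : (Fin N → ℕ) → S) (d : ℕ) :
    ℕ → (Fin N → ℕ) → S
  | 0, lam => GT N (fun i => x (-(i : ℤ) - 1)) lam
  | e + 1, lam => ∑ μ ∈ upSet T lam,
      x (e : ℤ) ^ (∑ j, μ j) * (if e = d then g μ else 1) * chainF T N x g d e μ

end det

/-- column telescoping, up-steps. -/
def S_K : Prop :=
  ∀ (R : Type) [CommRing R] (N T : ℕ) (y : Fin N → R⟦X⟧) (lam : Fin N → ℕ), Antitone lam →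
    (∀ i, (X : R⟦X⟧) ∣ y i) →
    (X : R⟦X⟧) ^ T ∣ (∏ i, (1 - y i)) * (∑ μ ∈ upSet T lam, Dt y μ) - Dt y lam

/-- column telescoping, down-steps. -/
def S_B : Prop :=
  ∀ (S : Type) [CommRing S] (k : ℕ) (y : Fin k → S) (lam : Fin (k + 1) → ℕ), Antitone lam →
    Dt (Fin.snoc (α := fun _ => S) y 1) lam = (∏ i, (y i - 1)) * ∑ μ ∈ downSet lam, Dt y μ

/-- multiplying one variable by `u`. -/
def S_E : Prop :=
  ∀ (S : Type) [CommRing S] (N : ℕ) (u : S) (b : Fin N → S) (lam : Fin N → ℕ),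
    (∑ j : Fin N, u ^ (lam j + (N - 1 - (j : ℕ)))) * Dt b lam =
      ∑ i, Dt (Function.update b i (u * b i)) lam

/-- homogeneity of `Dt`. -/
def S_scale : Prop :=
  ∀ (S : Type) [CommRing S] (N : ℕ) (x : S) (y : Fin N → S) (lam : Fin N → ℕ),
    Dt (fun i => x * y i) lam = x ^ ((∑ j, lam j) + N * (N - 1) / 2) * Dt y lam

/-- Gelfand-Tsetlin sums as determinants. -/
def S_GT : Prop :=
  ∀ (S : Type) [CommRing S] (k : ℕ) (x : ℕ → S) (lam : Fin k → ℕ), Antitone lam →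
    Dt (bv k x) lam = kap k x * GT k x lam

/-- height of the column over the `s`-th position of the slice `i - j = d`. -/
def slh (d : ℕ) (π : Finset Box) (s : ℕ) : ℕ :=
  (π.filter fun b => b.1 = s + d ∧ b.2.1 = s).card

open Classical in
/-- generating function of the plane partitions with `i < L`, `j < N`, with weight `w_y` and with
`g` of the slice `i - j = d` inserted. -/
def Fbox {R : Type} [CommRing R] (N L : ℕ) (y : ℤ → R) (g : (Fin N → ℕ) → R) (d : ℕ) : R⟦X⟧ :=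
  PowerSeries.mk fun n => ∑ π ∈ (PP n).filter (fun π => ∀ b ∈ π, b.1 < L ∧ b.2.1 < N),
    wy y π * g (fun s => slh d π s)

/-- slices: transfer formula. -/
def S_bridge : Prop :=
  ∀ (R : Type) [CommRing R] (T N L : ℕ) (y : ℤ → R) (g : (Fin N → ℕ) → R) (d n : ℕ),
    d < L → n ≤ T →
    PowerSeries.coeff n (chainF T N (fun e => PowerSeries.C (y e) * X)
        (fun μ => PowerSeries.C (g μ)) d L 0) =
      PowerSeries.coeff n (Fbox N L y g d)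

section AB
variable {R : Type} [CommRing R]

/-- `a_i = ∏_{-i ≤ e < d} x_e`, `x_e = y_e X`. -/
def aa (y : ℤ → R) (d i : ℕ) : R⟦X⟧ :=
  ∏ e ∈ Finset.Ico (-(i : ℤ)) (d : ℤ), (PowerSeries.C (y e) * X)

/-- `b_j = ∏_{d ≤ e ≤ d+j} x_e`, `x_e = y_e X`. -/
def bb (y : ℤ → R) (d j : ℕ) : R⟦X⟧ :=
  ∏ e ∈ Finset.Icc (d : ℤ) ((d : ℤ) + j), (PowerSeries.C (y e) * X)

/-- `1 + c ∑_{m ≥ 1} x^m t^m`; for `c = 1 - u⁻¹` this is `(1 - u⁻¹xt)/(1 - xt)`. -/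
def ff (c : R) (x : R⟦X⟧) : (R⟦X⟧)⟦X⟧ :=
  PowerSeries.mk fun m => if m = 0 then 1 else PowerSeries.C c * x ^ m

/-- `A_m = [t^m] ∏_{i<K} (1 - u⁻¹ a_i t)/(1 - a_i t)`. -/
def Am (K : ℕ) (u : Rˣ) (y : ℤ → R) (d m : ℕ) : R⟦X⟧ :=
  PowerSeries.coeff m (∏ i ∈ Finset.range K, ff (1 - ((u⁻¹ : Rˣ) : R)) (aa y d i))

/-- `B_m = [t^m] ∏_{j<K} (1 - b_j t)/(1 - u b_j t)`. -/
def Bm (K : ℕ) (u : Rˣ) (y : ℤ → R) (d m : ℕ) : R⟦X⟧ :=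
  PowerSeries.coeff m
    (∏ j ∈ Finset.range K, ff (1 - ((u⁻¹ : Rˣ) : R)) (PowerSeries.C (u : R) * bb y d j))

end AB

/-- the ratio identity: the one-point function as a sum over `i`. Here
`a_i = aa y d (N-1-i)`, `b_j = bb y d j`, `g(λ) = ∑_j u^{λ_j + N-1-j}`. -/
def S_A3 : Prop :=
  ∀ (K : Type) [Field K] (u : K) (y : ℤ → K), (∀ e, y e ≠ 0) → ∀ (d N L : ℕ), d < L →
    Dt (fun i : Fin N => aa y d (N - 1 - i)) 0 *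
        Fbox N L y (fun μ => ∑ j : Fin N, u ^ (μ j + (N - 1 - (j : ℕ)))) d =
      Fbox N L y (fun _ => 1) d *
        ∑ i : Fin N, Dt (Function.update (fun i : Fin N => aa y d (N - 1 - i)) i
            (PowerSeries.C u * aa y d (N - 1 - i))) 0 *
          ∏ j ∈ Finset.range (L - d), ((1 - aa y d (N - 1 - i) * bb y d j) *
            (1 - PowerSeries.C u * aa y d (N - 1 - i) * bb y d j)⁻¹)

/-- Lagrange interpolation / partial fractions. -/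
def S_A4 : Prop :=
  ∀ (S : Type) [CommRing S] [IsDomain S] (N : ℕ) (u : S) (a : Fin N → S),
    Function.Injective a → (∀ i, a i ≠ 0) →
    ((u - 1) * ∑ i, Dt (Function.update a i (u * a i)) 0 = (u ^ N - 1) * Dt a 0) ∧
    ∀ m : ℕ, 1 ≤ m →
      (u - 1) * ∑ i, Dt (Function.update a i (u * a i)) 0 * a i ^ m =
        Dt a 0 * PowerSeries.coeff m
          (∏ k, (PowerSeries.mk fun j => if j = 0 then u else (u - 1) * a k ^ j : S⟦X⟧))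

/-- the one-point function of a diagonal slice, over a field. -/
def S_F4K : Prop :=
  ∀ (R : Type) [Field R] (u : Rˣ) (y : ℤ → R), (∀ e, y e ≠ 0) →
    ∀ (d K n : ℕ), n < K →
      PowerSeries.coeff n ((PowerSeries.C (u : R) - 1) ^ 2 * gen fun π => wy y π * Cd u d π) =
        PowerSeries.coeff n (PowerSeries.C (u : R) * gen (wy y) *
          ∑ m ∈ Finset.Icc 1 n, Am K u y d m * Bm K u y d m)

/-- the one-point function of a diagonal slice, over a domain. -/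
def S_F4 : Prop :=
  ∀ (R : Type) [CommRing R] [IsDomain R] (u : Rˣ) (y : ℤ → R), (∀ e, y e ≠ 0) →
    ∀ (d K n : ℕ), n < K →
      PowerSeries.coeff n ((PowerSeries.C (u : R) - 1) ^ 2 * gen fun π => wy y π * Cd u d π) =
        PowerSeries.coeff n (PowerSeries.C (u : R) * gen (wy y) *
          ∑ m ∈ Finset.Icc 1 n, Am K u y d m * Bm K u y d m)

section F6
variable {R : Type} [CommRing R]

/-- `c_n = ∏_{j<n} (1 - X^j u⁻¹)/(1 - X^{j+1})`. -/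
def cq (u : Rˣ) (n : ℕ) : R⟦X⟧ :=
  ∏ j ∈ Finset.range n, ((1 - X ^ j * PowerSeries.C ((u⁻¹ : Rˣ) : R)) * uu R (j + 1))

/-- right side of the first-order formula. -/
def RHS5 (u : Rˣ) (φ : ℤ → R) (d : ℕ) : R⟦X⟧ :=
  psum fun k => psum fun n => cq u n * cq u (n + k) * X ^ (n * (d + 1) + k) *
    PowerSeries.C ((u : R) ^ n * ((u : R) ^ k - 1)) * uu R k * WW φ d k

/-- `Π_n = ∏_{0<j<n} (1 + (1-u⁻¹) X^j/(1-X^j))`. -/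
def PiN (u : Rˣ) (n : ℕ) : R⟦X⟧ :=
  ∏ j ∈ Finset.Ico 1 n, (1 + PowerSeries.C (1 - ((u⁻¹ : Rˣ) : R)) * (uu R j - 1))

/-- the covariance of `Φ` and `C_d(u)`, times `E[1]²`-normalization. -/
def RHS6 (u : Rˣ) (φ : ℤ → R) (d : ℕ) : R⟦X⟧ :=
  psum fun k => X ^ k * uu R k * WW φ d k *
    (PowerSeries.C (∑ i ∈ Finset.range k, (u : R) ^ i) * uu R k * PiN u k +
      psum fun n => if n = 0 then 0 else
        PowerSeries.C ((u : R) ^ (n - 1) * ((u : R) ^ k - 1)) * uu R n * uu R (n + k) *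
          PiN u n * PiN u (n + k) * X ^ (n * (d + 1)))

end F6

section F5
variable {R : Type} [CommRing R]

/-- coefficient of `s^i` in a power series over `R[s]`. -/
def cs (i : ℕ) (F : (Polynomial R)⟦X⟧) : R⟦X⟧ :=
  PowerSeries.mk fun n => (PowerSeries.coeff n F).coeff i

/-- `y_e = 1 + φ(e) s`. -/
def yphi (φ : ℤ → R) (e : ℤ) : Polynomial R := 1 + Polynomial.C (φ e) * Polynomial.X

/-- `u` as a unit of `R[s]`. -/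
def uP (u : Rˣ) : (Polynomial R)ˣ := Units.map (Polynomial.C : R →+* Polynomial R).toMonoidHom u

/-- `∑_{e < d} φ(e) X^{k M(d,e)}`. -/
def WL (φ : ℤ → R) (d k : ℕ) : R⟦X⟧ :=
  PowerSeries.mk fun n => ∑ e ∈ Finset.Icc (-(n : ℤ)) n,
    if e < d ∧ k * Mde d e = n then φ e else 0

/-- `∑_{e ≥ d} φ(e) X^{k (e-d+1)}`. -/
def WR (φ : ℤ → R) (d k : ℕ) : R⟦X⟧ :=
  PowerSeries.mk fun n => ∑ j ∈ Finset.range (n + 1),
    if k * (j + 1) = n then φ ((d : ℤ) + j) else 0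

end F5

/-- the `A_m` to first order in `s`. -/
def S_F5A : Prop :=
  ∀ (R : Type) [CommRing R] (u : Rˣ) (φ : ℤ → R) (d K m n : ℕ), n < K →
    PowerSeries.coeff n (cs 0 (Am K (uP u) (yphi φ) d m)) =
      PowerSeries.coeff n (X ^ (d * m) * cq u m) ∧
    PowerSeries.coeff n (cs 1 (Am K (uP u) (yphi φ) d m)) =
      PowerSeries.coeff n (∑ k ∈ Finset.Icc 1 m, X ^ (d * (m - k)) * cq u (m - k) *
        PowerSeries.C (1 - ((u⁻¹ : Rˣ) : R) ^ k) * uu R k * WL φ d k)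

/-- the `B_m` to first order in `s`. -/
def S_F5B : Prop :=
  ∀ (R : Type) [CommRing R] (u : Rˣ) (φ : ℤ → R) (d K m n : ℕ), n < K →
    PowerSeries.coeff n (cs 0 (Bm K (uP u) (yphi φ) d m)) =
      PowerSeries.coeff n (PowerSeries.C ((u : R) ^ m) * X ^ m * cq u m) ∧
    PowerSeries.coeff n (cs 1 (Bm K (uP u) (yphi φ) d m)) =
      PowerSeries.coeff n (∑ k ∈ Finset.Icc 1 m,
        PowerSeries.C ((u : R) ^ (m - k)) * X ^ (m - k) * cq u (m - k) *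
          PowerSeries.C ((u : R) ^ k - 1) * uu R k * WR φ d k)

/-- first order in `y`: `(u-1)² cov(Φ, C_d(u)) = u · RHS5` (cross multiplied by `gen 1`). -/
def S_F5 : Prop :=
  ∀ (R : Type) [CommRing R] [IsDomain R] (u : Rˣ) (φ : ℤ → R) (d : ℕ),
    (PowerSeries.C (u : R) - 1) ^ 2 *
      (gen (fun π => Phi φ π * Cd u d π) * gen (fun _ => (1 : R)) -
        gen (Phi φ) * gen (Cd u d)) =
      PowerSeries.C (u : R) * gen (fun _ => (1 : R)) ^ 2 * RHS5 u φ d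

/-- the covariance formula with parameter `u`. -/
def S_F6 : Prop :=
  ∀ (R : Type) [CommRing R] [IsDomain R] (u : Rˣ), (u : R) ≠ 1 → ∀ (φ : ℤ → R) (d : ℕ),
    gen (fun π => Phi φ π * Cd u d π) * gen (fun _ => (1 : R)) - gen (Phi φ) * gen (Cd u d) =
      gen (fun _ => (1 : R)) ^ 2 * RHS6 u φ d

/-- main formula, `r = 0`. -/
def S_MF0 : Prop :=
  ∀ (φ : ℤ → ℚ) (d : ℕ), cov (Phi φ) (Pr 0 d) =
    psum fun k => (k : ℚ) • (X ^ k * uu ℚ k ^ 2 * WW φ d k)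

/-- main formula, `r = 1`. -/
def S_MF1 : Prop :=
  ∀ (φ : ℤ → ℚ) (d : ℕ), cov (Phi φ) (Pr 1 d) =
    psum fun k => (k : ℚ) • (X ^ k * uu ℚ k * WW φ d k *
      (uu ℚ k * HH k + psum fun n => if n = 0 then 0 else
        uu ℚ n * uu ℚ (n + k) * X ^ (n * (d + 1))))

/-- main formula, `r = 2`. -/
def S_MF2 : Prop :=
  ∀ (φ : ℤ → ℚ) (d : ℕ), cov (Phi φ) (Pr 2 d) =
    psum fun k => (k : ℚ) • (X ^ k * uu ℚ k * WW φ d k *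
      (uu ℚ k * (PowerSeries.C (((k : ℚ) - 1) * ((k : ℚ) + 4) / 12) + (2 : ℚ) • EE2 k) +
        (2 : ℚ) • psum fun n => if n = 0 then 0 else
          uu ℚ n * uu ℚ (n + k) * (HH n + HH (n + k)) * X ^ (n * (d + 1))))

/-- `φ(e) = e^r`. -/
def epow (r : ℕ) (e : ℤ) : ℚ := (e : ℚ) ^ r

/-- contribution of the slice `d`. -/
def Td (d : ℕ) : ℚ⟦X⟧ :=
  (24 * (d : ℚ) ^ 2) • cov (Phi (epow 2)) (Pr 2 d) - (4 : ℚ) • cov (Phi (epow 4)) (Pr 2 d) -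
    (24 * (d : ℚ) ^ 3) • cov (Phi (epow 2)) (Pr 1 d) +
    (4 * (d : ℚ)) • cov (Phi (epow 4)) (Pr 1 d) +
    (3 * (d : ℚ) ^ 4) • cov (Phi (epow 2)) (Pr 0 d) -
    ((d : ℚ) ^ 2) • cov (Phi (epow 4)) (Pr 0 d)

/-- decomposition of `F0` into slices. -/
def S_F8a : Prop := F0 = Td 0 + (2 : ℚ) • psum fun d => if d = 0 then 0 else Td d

/-- `∑_{d ∈ ℤ} ∑_{e ∈ ℤ} p(|d|,e) X^{(m-k)|d| + k M(|d|,e)}`, `1 ≤ k ≤ m`. -/
def RR (p : ℚ → ℚ → ℚ) (k m : ℕ) : ℚ⟦X⟧ :=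
  PowerSeries.mk fun n => ∑ d ∈ Finset.Icc (-(n : ℤ)) n, ∑ e ∈ Finset.Icc (-(n : ℤ)) n,
    if (m - k) * d.natAbs + k * Mde d.natAbs e = n then p (d.natAbs : ℚ) (e : ℚ) else 0

/-- closed forms of the sums over `d` and `e`. -/
def S_RR : Prop :=
  ∀ k m : ℕ, 1 ≤ k → k ≤ m →
    RR (fun D e => 6 * D ^ 2 * e ^ 2 - e ^ 4) k m = R0 k m ∧
    RR (fun D e => D * (6 * D ^ 2 * e ^ 2 - e ^ 4)) k m = R1 k m ∧
    RR (fun D e => D ^ 2 * (3 * D ^ 2 * e ^ 2 - e ^ 4)) k k = R2 k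

/-- closed form from the main formulas. -/
def S_F8b : Prop :=
  S_MF0 → S_MF1 → S_MF2 → S_RR →
    Td 0 + (2 : ℚ) • psum (fun d => if d = 0 then 0 else Td d) = F0cl

/-! ## Part C : `F0cl ∉ oqZ` -/

/-- `oqZ ⊆ ℚ[G_{a,l}]`. -/
def S_oqZ : Prop :=
  ∀ F ∈ oqZ, ∃ P : MvPolynomial (ℕ × ℕ) ℚ, F = MvPolynomial.aeval GG P

/-- value of a power series at `q`. -/
def ev (q : ℂ) (f : ℚ⟦X⟧) : ℂ := ∑' n, ((PowerSeries.coeff n f : ℚ) : ℂ) * q ^ n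

/-- absolute convergence at radius `r`. -/
def Cv (r : ℝ) (f : ℚ⟦X⟧) : Prop := Summable fun n => |((PowerSeries.coeff n f : ℚ) : ℝ)| * r ^ n

/-- evaluation is multiplicative and additive. -/
def S_evring : Prop :=
  ∀ (q : ℂ) (f g : ℚ⟦X⟧), Cv ‖q‖ f → Cv ‖q‖ g →
    (Cv ‖q‖ (f * g) ∧ ev q (f * g) = ev q f * ev q g) ∧
    (Cv ‖q‖ (f + g) ∧ ev q (f + g) = ev q f + ev q g) ∧
    (∀ c : ℚ, Cv ‖q‖ (c • f) ∧ ev q (c • f) = c * ev q f)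

/-- evaluation of polynomials in the `G_{a,l}`. -/
def S_evP : Prop :=
  ∀ (q : ℂ), ‖q‖ < 1 → ∀ P : MvPolynomial (ℕ × ℕ) ℚ,
    ev q (MvPolynomial.aeval GG P) = MvPolynomial.aeval (fun i => ev q (GG i)) P

/-- `q_N = exp(-2πi/(τ+N))`. -/
def qN (τ : ℂ) (N : ℕ) : ℂ := Complex.exp (2 * Real.pi * Complex.I * (-1 / (τ + N)))

/-- the atoms. -/
def S_atoms : Prop :=
  (∀ q : ℂ, ‖q‖ < 1 → ∀ k : ℕ, 1 ≤ k → Cv ‖q‖ (uu ℚ k) ∧ ev q (uu ℚ k) = (1 - q ^ k)⁻¹) ∧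
  (∀ j : ℕ, ∃ C : ℝ, 0 ≤ C ∧ ∀ q : ℂ, ‖q‖ < 1 → ∀ m : ℕ, 1 ≤ m →
    Cv ‖q‖ (Li j m) ∧ ‖ev q (Li j m)‖ ≤ C * (‖1 - q ^ m‖⁻¹) ^ (j + 1))

/-- facts on `q_N`. -/
def S_qN : Prop :=
  ∀ τ : ℂ, 0 < τ.im →
    (∀ N : ℕ, ‖qN τ N‖ < 1) ∧
    (∃ C : ℝ, ∀ N : ℕ, 1 ≤ N → ∀ k : ℕ, 1 ≤ k → ‖1 - qN τ N ^ k‖⁻¹ ≤ C * N) ∧
    (∀ a : ℕ, ∃ C : ℝ, ∀ N : ℕ, 1 ≤ N →
      Summable (fun k : ℕ => (k : ℝ) ^ a * ‖qN τ N‖ ^ k) ∧
      ∑' k : ℕ, (k : ℝ) ^ a * ‖qN τ N‖ ^ k ≤ C * (N : ℝ) ^ (2 * a + 2))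

/-- evaluation of the closed form. -/
def S_evF0 : Prop :=
  ∀ q : ℂ, ‖q‖ < 1 →
    Summable (fun k : ℕ => ev q (FA (k + 1))) ∧
    Summable (fun p : ℕ × ℕ => ev q (FB (p.1 + 1) (p.2 + 1))) ∧
    ev q F0cl = ∑' k : ℕ, ev q (FA (k + 1)) + ∑' p : ℕ × ℕ, ev q (FB (p.1 + 1) (p.2 + 1))

/-- growth of `F0cl(q_N)`. -/
def S_growth : Prop :=
  ∀ τ : ℂ, 0 < τ.im → ∃ C : ℝ, ∀ N : ℕ, 1 ≤ N → ‖ev (qN τ N) F0cl‖ ≤ C * (N : ℝ) ^ 18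

/-- the normalized lattice sums
`Y_{a,l}(τ) = (-1)^l/l! ∑_{n ≥ 1} n^l ∑_{j ∈ ℤ} (nτ+j)^{-(2a+3+l)}`. -/
def YY (τ : ℂ) (i : ℕ × ℕ) : ℂ :=
  (-1) ^ i.2 / (i.2.factorial : ℂ) *
    ∑' p : ℕ × ℤ, ((p.1 : ℂ) + 1) ^ i.2 *
      ((((p.1 : ℂ) + 1) * τ + (p.2 : ℂ)) ^ (2 * i.1 + 3 + i.2))⁻¹

/-- `ζ(s)` for `s ≥ 2`. -/
def zet (s : ℕ) : ℂ := ∑' n : ℕ, (((n : ℂ) + 1) ^ s)⁻¹

/-- `y_{a,l} = Y_{a,l} - [l=0] ζ(2a+3)`. -/
def yy (τ : ℂ) (i : ℕ × ℕ) : ℂ := YY τ i - if i.2 = 0 then zet (2 * i.1 + 3) else 0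

/-- Lipschitz formula. -/
def S_Lip : Prop :=
  ∀ i : ℕ × ℕ, ∃ γ : ℂ, γ ≠ 0 ∧ ∀ τ : ℂ, 0 < τ.im →
    ev (Complex.exp (2 * Real.pi * Complex.I * τ)) (GG i) = γ * YY τ i

/-- the error term in the transformation of `Y` under `τ ↦ -1/τ`:
`-(-1)^l/l! ∑_{k ≤ l} C(l,k)(-1)^k z^{-k} ∑_{J ≥ 1} J^{l-k} ((Jz)^{-(b-k)} + 2 ∑_{n≥1}
(Jz+n)^{-(b-k)})`, `b = 2a+3+l`. -/
def Er (z : ℂ) (i : ℕ × ℕ) : ℂ :=
  -((-1) ^ i.2 / (i.2.factorial : ℂ)) * ∑ k ∈ Finset.range (i.2 + 1),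
    (i.2.choose k : ℂ) * (-1) ^ k * (z ^ k)⁻¹ *
      (∑' J : ℕ, ((J : ℂ) + 1) ^ (i.2 - k) * ((((J : ℂ) + 1) * z) ^ (2 * i.1 + 3 + i.2 - k))⁻¹ +
        2 * ∑' p : ℕ × ℕ, ((p.1 : ℂ) + 1) ^ (i.2 - k) *
          ((((p.1 : ℂ) + 1) * z + ((p.2 : ℂ) + 1)) ^ (2 * i.1 + 3 + i.2 - k))⁻¹)

/-- transformation formula. -/
def S_trans : Prop :=
  ∀ (i : ℕ × ℕ) (z : ℂ), 0 < z.im →
    YY (-1 / z) i = z ^ wG i * (∑ k ∈ Finset.range (i.2 + 1),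
      (z ^ k)⁻¹ / (k.factorial : ℂ) * yy z (i.1, i.2 - k) + Er z i)

/-- upper bound of the error term. -/
def S_ErUp : Prop :=
  ∀ (i : ℕ × ℕ) (τ : ℂ), 0 < τ.im → ∃ C : ℝ, ∀ N : ℕ, 1 ≤ N →
    ‖Er (τ + N) i‖ ≤ C / (N : ℝ) ^ (2 * i.1 + 2 + i.2)

/-- lower bound of the error term for `l = 0`. -/
def S_ErLow : Prop :=
  ∀ (a : ℕ) (τ : ℂ), 0 < τ.im → ∃ c : ℝ, 0 < c ∧ ∃ N₀ : ℕ, ∀ N : ℕ, N₀ ≤ N →
    c / (N : ℝ) ^ (2 * a + 2) ≤ ‖Er (τ + N) (a, 0)‖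

/-- the derivation `L = ∑ x_{a,l} ∂_{a,l+1}`. -/
def Lder : Derivation ℂ (MvPolynomial (ℕ × ℕ) ℂ) (MvPolynomial (ℕ × ℕ) ℂ) :=
  MvPolynomial.mkDerivation ℂ fun i => if i.2 = 0 then 0 else MvPolynomial.X (i.1, i.2 - 1)

/-- the flow of `L`. -/
def flow (t : ℂ) (v : ℕ × ℕ → ℂ) (i : ℕ × ℕ) : ℂ :=
  ∑ k ∈ Finset.range (i.2 + 1), t ^ k / (k.factorial : ℂ) * v (i.1, i.2 - k)

/-- polynomials killed by `L` are invariant under the flow. -/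
def S_flow : Prop :=
  ∀ P : MvPolynomial (ℕ × ℕ) ℂ, Lder P = 0 → ∀ (t : ℂ) (v : ℕ × ℕ → ℂ),
    MvPolynomial.eval (flow t v) P = MvPolynomial.eval v P

/-- Taylor formula of order one with uniform remainder. -/
def S_Taylor : Prop :=
  ∀ (P : MvPolynomial (ℕ × ℕ) ℂ) (v : ℕ × ℕ → ℂ), ∃ C : ℝ, ∀ (δ : ℕ × ℕ → ℂ) (ρ : ℝ),
    ρ ≤ 1 → (∀ i, ‖δ i‖ ≤ ρ) →
    ‖MvPolynomial.eval (fun i => v i + δ i) P - MvPolynomial.eval v P -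
      ∑ i ∈ P.vars, δ i * MvPolynomial.eval v (MvPolynomial.pderiv i P)‖ ≤ C * ρ ^ 2

/-- The algebraic heart of the lower bound for the growth. -/
def S_T3alg : Prop :=
  ∀ (H : Type) [Nonempty H] (y : H → ℕ × ℕ → ℂ) (z : H → ℕ → ℂ) (σ : H → ℕ → H)
    (c : ℕ × ℕ → ℂ),
    (∀ τ, ∃ A : ℝ, 0 < A ∧ ∀ N : ℕ, 1 ≤ N → ‖z τ N‖ ≤ A * N ∧ (N : ℝ) ≤ A * ‖z τ N‖) →
    (∀ τ i, ∃ C : ℝ, ∀ N : ℕ, 1 ≤ N →
      ‖y (σ τ N) i / z τ N ^ wG i - flow (z τ N)⁻¹ (y τ) i‖ ≤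
        C / (N : ℝ) ^ (2 * i.1 + 2 + i.2)) →
    (∀ τ (a : ℕ), ∃ c₀ : ℝ, 0 < c₀ ∧ ∃ N₀ : ℕ, ∀ N : ℕ, N₀ ≤ N →
      c₀ / (N : ℝ) ^ (2 * a + 2) ≤ ‖y (σ τ N) (a, 0) / z τ N ^ (2 * a + 3) - y τ (a, 0)‖) →
    ∀ (P : MvPolynomial (ℕ × ℕ) ℂ) (w : ℕ),
      (∀ τ, ∃ C : ℝ, ∀ N : ℕ, 1 ≤ N →
        ‖MvPolynomial.eval (fun i => y (σ τ N) i + c i) P‖ ≤ C * (N : ℝ) ^ w) →
      ∀ m ∈ P.support, Finsupp.weight wG m ≤ w

/-- polynomials in the `G_{a,l}` of growth `O(N^w)` have weight `≤ w`. -/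
def S_T3 : Prop :=
  ∀ (P : MvPolynomial (ℕ × ℕ) ℚ) (w : ℕ),
    (∀ τ : ℂ, 0 < τ.im → ∃ C : ℝ, ∀ N : ℕ, 1 ≤ N →
      ‖MvPolynomial.aeval (fun i => ev (qN τ N) (GG i)) P‖ ≤ C * (N : ℝ) ^ w) →
    ∀ m ∈ P.support, Finsupp.weight wG m ≤ w

/-- the finite check. -/
def S_T4 : Prop :=
  ∀ P : MvPolynomial (ℕ × ℕ) ℚ, (∀ m ∈ P.support, Finsupp.weight wG m ≤ 18) →
    MvPolynomial.aeval GG P ≠ F0cl

end

end Pool.Agent.H946.Z
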